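import Pool.Agent.Lib.MP_102662_an.AreaThm

open Complex Metric Set Filter Topology

namespace Pool.Agent.Lib.MP_102662_an

/-- A holomorphic inverse square root of a zero free function on the disc. -/
theorem area_inv_sqrt {q : ℂ → ℂ} (hq : DifferentiableOn ℂ q (ball 0 1))
    (hne : ∀ z ∈ ball (0 : ℂ) 1, q z ≠ 0) (h0 : q 0 = 1) :
    ∃ T : ℂ → ℂ, DifferentiableOn ℂ T (ball 0 1) ∧ T 0 = 1 ∧
      deriv T 0 = -deriv q 0 / 2 ∧ ∀ z ∈ ball (0 : ℂ) 1, T z ^ 2 * q z = 1 := by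
  have h00 : (0 : ℂ) ∈ ball (0 : ℂ) 1 := mem_ball_self one_pos
  have hd : DifferentiableOn ℂ (fun z => deriv q z / q z) (ball 0 1) :=
    (hq.deriv isOpen_ball).div hq hne
  obtain ⟨L, hL0, hL⟩ := hd.isExactOn_ball.with_val_at 0 0
  have hT : ∀ z ∈ ball (0 : ℂ) 1, HasDerivAt (fun z => Complex.exp (-L z / 2))
      (Complex.exp (-L z / 2) * (-(deriv q z / q z) / 2)) z := fun z hz =>
    (((hL z hz).neg).div_const 2).cexp
  refine ⟨fun z => Complex.exp (-L z / 2), fun z hz => (hT z hz).differentiableAt.differentiableWithinAt,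
    by simp [hL0], ?_, ?_⟩
  · rw [(hT 0 h00).deriv]
    simp [hL0, h0]
  · intro z hz
    have hP : ∀ w ∈ ball (0 : ℂ) 1, HasDerivAt (fun z => Complex.exp (-L z / 2) ^ 2 * q z) 0 w := by
      intro w hw
      have hqw : HasDerivAt q (deriv q w) w :=
        (hq.differentiableAt (isOpen_ball.mem_nhds hw)).hasDerivAt
      have h1 := ((hT w hw).fun_pow 2).fun_mul hqw
      refine h1.congr_deriv ?_
      have := hne w hw
      norm_num
      field_simp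
      ring
    have := isOpen_ball.is_const_of_deriv_eq_zero (convex_ball (0 : ℂ) 1).isPreconnected
      (f := fun z => Complex.exp (-L z / 2) ^ 2 * q z)
      (fun w hw => (hP w hw).differentiableAt.differentiableWithinAt)
      (fun w hw => (hP w hw).deriv) hz h00
    simpa [hL0, h0] using this

theorem area_deriv_dslope {g : ℂ → ℂ} (hg : Schlicht g) : deriv (dslope g 0) 0 = a2 g := by
  have h00 : (0 : ℂ) ∈ ball (0 : ℂ) 1 := mem_ball_self one_pos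
  have hq : DifferentiableOn ℂ (dslope g 0) (ball 0 1) :=
    (differentiableOn_dslope (isOpen_ball.mem_nhds h00)).2 hg.diff
  have hg' : g = fun z => z * dslope g 0 z := by
    funext z
    have := sub_smul_dslope g 0 z
    simp only [sub_zero, smul_eq_mul, hg.zero] at this
    exact this.symm
  have h1 : deriv g =ᶠ[𝓝 0] fun z => dslope g 0 z + z * deriv (dslope g 0) z := by
    filter_upwards [isOpen_ball.mem_nhds h00] with z hz
    have hqz : HasDerivAt (dslope g 0) (deriv (dslope g 0) z) z :=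
      (hq.differentiableAt (isOpen_ball.mem_nhds hz)).hasDerivAt
    have h2 := (hasDerivAt_id' z).fun_mul hqz
    rw [← hg'] at h2
    rw [h2.deriv]; ring
  have hq0 : HasDerivAt (dslope g 0) (deriv (dslope g 0) 0) 0 :=
    (hq.differentiableAt (isOpen_ball.mem_nhds h00)).hasDerivAt
  have hq1 : HasDerivAt (deriv (dslope g 0)) (deriv (deriv (dslope g 0)) 0) 0 :=
    ((hq.deriv isOpen_ball).differentiableAt (isOpen_ball.mem_nhds h00)).hasDerivAt
  have h3 := hq0.fun_add ((hasDerivAt_id' (0 : ℂ)).fun_mul hq1)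
  unfold a2
  rw [iteratedDeriv_succ, iteratedDeriv_one, h1.deriv_eq, h3.deriv]
  ring

/-- Cauchy-Schwarz for the tail of a power series. -/
theorem area_tail {b : ℕ → ℂ} {s β : ℂ} {E : ℝ} (hs : ‖s‖ < 1)
    (hb : ∀ n, ∑ k ∈ Finset.range n, ‖b k‖ ^ 2 ≤ E)
    (hsum : HasSum (fun k => b k * s ^ (k + 3)) β) :
    ‖β‖ ^ 2 ≤ E * (‖s‖ ^ 6 / (1 - ‖s‖ ^ 2)) := by
  have hE : 0 ≤ E := by simpa using hb 0
  have hx0 : 0 ≤ ‖s‖ ^ 2 := by positivity
  have hx1 : ‖s‖ ^ 2 < 1 := by nlinarith [norm_nonneg s]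
  have hlim : Tendsto (fun n => ‖∑ k ∈ Finset.range n, b k * s ^ (k + 3)‖ ^ 2) atTop
      (𝓝 (‖β‖ ^ 2)) := (hsum.tendsto_sum_nat.norm).pow 2
  refine le_of_tendsto' hlim fun n => ?_
  have h1 : ‖∑ k ∈ Finset.range n, b k * s ^ (k + 3)‖ ≤
      ∑ k ∈ Finset.range n, ‖b k‖ * ‖s‖ ^ (k + 3) := by
    refine (norm_sum_le _ _).trans (le_of_eq ?_)
    refine Finset.sum_congr rfl fun k _ => ?_
    rw [norm_mul, norm_pow]
  have h2 := Finset.sum_mul_sq_le_sq_mul_sq (Finset.range n) (fun k => ‖b k‖)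
    (fun k => ‖s‖ ^ (k + 3))
  have h3 : ∑ k ∈ Finset.range n, (‖s‖ ^ (k + 3)) ^ 2 ≤ ‖s‖ ^ 6 / (1 - ‖s‖ ^ 2) := by
    have h4 : ∑ k ∈ Finset.range n, (‖s‖ ^ (k + 3)) ^ 2 =
        ‖s‖ ^ 6 * ∑ k ∈ Finset.range n, (‖s‖ ^ 2) ^ k := by
      rw [Finset.mul_sum]
      refine Finset.sum_congr rfl fun k _ => ?_
      ring
    have h5 : ∑ k ∈ Finset.range n, (‖s‖ ^ 2) ^ k ≤ (1 - ‖s‖ ^ 2)⁻¹ :=
      sum_le_hasSum _ (fun k _ => by positivity) (hasSum_geometric_of_lt_one hx0 hx1)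
    rw [h4, div_eq_mul_inv]
    exact mul_le_mul_of_nonneg_left h5 (by positivity)
  calc ‖∑ k ∈ Finset.range n, b k * s ^ (k + 3)‖ ^ 2
      ≤ (∑ k ∈ Finset.range n, ‖b k‖ * ‖s‖ ^ (k + 3)) ^ 2 :=
        pow_le_pow_left₀ (norm_nonneg _) h1 2
    _ ≤ (∑ k ∈ Finset.range n, ‖b k‖ ^ 2) * ∑ k ∈ Finset.range n, (‖s‖ ^ (k + 3)) ^ 2 := h2
    _ ≤ E * (‖s‖ ^ 6 / (1 - ‖s‖ ^ 2)) :=
        mul_le_mul (hb n) h3 (Finset.sum_nonneg fun k _ => by positivity) hE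

/-- The odd square root transform. -/
theorem area_odd {g : ℂ → ℂ} (hg : Schlicht g) :
    ∃ F : ℂ → ℂ, DifferentiableOn ℂ F (ball 0 1) ∧
      InjOn (fun s => 1 / s + F s) (ball 0 1 \ {0}) ∧ F 0 = 0 ∧ deriv F 0 = -a2 g / 2 ∧
      iteratedDeriv 2 F 0 = 0 ∧
      ∀ s ∈ ball (0 : ℂ) 1, s ≠ 0 → (1 / s + F s) ^ 2 = 1 / g (s ^ 2) := by
  have h00 : (0 : ℂ) ∈ ball (0 : ℂ) 1 := mem_ball_self one_pos
  have hq : DifferentiableOn ℂ (dslope g 0) (ball 0 1) :=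
    (differentiableOn_dslope (isOpen_ball.mem_nhds h00)).2 hg.diff
  have hg' : ∀ z, g z = z * dslope g 0 z := by
    intro z
    have := sub_smul_dslope g 0 z
    simp only [sub_zero, smul_eq_mul, hg.zero] at this
    exact this.symm
  have hq0 : dslope g 0 0 = 1 := by rw [dslope_same, hg.one]
  have hne : ∀ z ∈ ball (0 : ℂ) 1, dslope g 0 z ≠ 0 := by
    intro z hz h
    by_cases hz0 : z = 0
    · rw [hz0, hq0] at h; exact one_ne_zero h
    · apply hz0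
      apply hg.inj hz h00
      rw [hg' z, h, hg.zero, mul_zero]
  obtain ⟨T, hT, hT0, hT1, hT2⟩ := area_inv_sqrt hq hne hq0
  have hU : DifferentiableOn ℂ (dslope T 0) (ball 0 1) :=
    (differentiableOn_dslope (isOpen_ball.mem_nhds h00)).2 hT
  have hT' : ∀ z, T z = 1 + z * dslope T 0 z := by
    intro z
    have := sub_smul_dslope T 0 z
    simp only [sub_zero, smul_eq_mul, hT0] at this
    rw [this]; ring
  have hsq : ∀ s ∈ ball (0 : ℂ) 1, s ^ 2 ∈ ball (0 : ℂ) 1 := by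
    intro s hs
    rw [mem_ball_zero_iff] at hs ⊢
    rw [norm_pow]
    nlinarith [norm_nonneg s]
  have hU2 : DifferentiableOn ℂ (fun s => dslope T 0 (s ^ 2)) (ball 0 1) :=
    hU.comp (differentiableOn_pow 2) hsq
  have hG : ∀ s : ℂ, s ≠ 0 → 1 / s + s * dslope T 0 (s ^ 2) = T (s ^ 2) / s := by
    intro s hs
    rw [hT' (s ^ 2)]
    field_simp
  have hG2 : ∀ s ∈ ball (0 : ℂ) 1, s ≠ 0 →
      (1 / s + s * dslope T 0 (s ^ 2)) ^ 2 = 1 / g (s ^ 2) := by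
    intro s hs hs0
    rw [hG s hs0, hg' (s ^ 2)]
    have h1 := hT2 _ (hsq s hs)
    have h2 := hne _ (hsq s hs)
    field_simp
    exact h1
  refine ⟨fun s => s * dslope T 0 (s ^ 2), differentiableOn_id.mul hU2, ?_, by simp, ?_, ?_, hG2⟩
  · rintro s ⟨hs, hs0⟩ t ⟨ht, ht0⟩ hst
    have hs0' : s ≠ 0 := hs0
    have ht0' : t ≠ 0 := ht0
    simp only at hst
    have h1 : 1 / g (s ^ 2) = 1 / g (t ^ 2) := by
      rw [← hG2 s hs hs0', ← hG2 t ht ht0', hst]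
    have h2 : g (s ^ 2) = g (t ^ 2) := by simpa using h1
    have h3 : s ^ 2 = t ^ 2 := hg.inj (hsq s hs) (hsq t ht) h2
    rw [hG s hs0', hG t ht0', h3] at hst
    have h4 : T (t ^ 2) ≠ 0 := by
      intro h
      have := hT2 _ (hsq t ht)
      rw [h] at this
      simp at this
    field_simp at hst
    first | exact hst | exact hst.symm
  · have h1 : HasDerivAt (fun s => dslope T 0 (s ^ 2))
        (deriv (fun s => dslope T 0 (s ^ 2)) 0) (0 : ℂ) :=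
      (hU2.differentiableAt (isOpen_ball.mem_nhds h00)).hasDerivAt
    have h2 := (hasDerivAt_id' (0 : ℂ)).fun_mul h1
    rw [h2.deriv]
    simp [dslope_same, hT1, area_deriv_dslope hg]
  · have h1 := iteratedDeriv_comp_neg 2 (fun s : ℂ => s * dslope T 0 (s ^ 2)) 0
    have h2 : (fun x : ℂ => (fun s : ℂ => s * dslope T 0 (s ^ 2)) (-x)) =
        fun x => -(x * dslope T 0 (x ^ 2)) := by
      funext x
      simp
    rw [h2, iteratedDeriv_fun_neg] at h1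
    simp only [even_two, Even.neg_pow, one_pow, neg_zero, one_smul] at h1
    linear_combination (-1 / 2 : ℂ) * h1

/-- Bieberbach's bound with a stability estimate near the extremal case. -/
theorem area_stab {g : ℂ → ℂ} (hg : Schlicht g) :
    ‖a2 g‖ ≤ 2 ∧ ∀ z ∈ ball (0 : ℂ) 1, z ≠ 0 →
      ‖1 / g z - 1 / z + a2 g - a2 g ^ 2 * z / 4‖ ≤
        5 * Real.sqrt (1 - ‖a2 g‖ ^ 2 / 4) * ‖z‖ / (1 - ‖z‖) := by
  obtain ⟨F, hF, hinj, hF0, hF1, hF2, hG⟩ := area_odd hg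
  set b : ℕ → ℂ := fun k => iteratedDeriv k F 0 / (k.factorial : ℂ) with hb
  have hb0 : b 0 = 0 := by simp [hb, hF0]
  have hb1 : b 1 = -a2 g / 2 := by simp [hb, hF1]
  have hb2 : b 2 = 0 := by simp [hb, hF2]
  have hn1 : ‖b 1‖ ^ 2 = ‖a2 g‖ ^ 2 / 4 := by
    rw [hb1, norm_div, norm_neg]
    simp
    ring
  have hA : ∀ n, ∑ k ∈ Finset.range n, ‖b (k + 3)‖ ^ 2 ≤ 1 - ‖a2 g‖ ^ 2 / 4 := by
    intro n
    have h1 := area_theorem hF hinj (n + 3)
    change ∑ k ∈ Finset.range (n + 3), (k : ℝ) * ‖b k‖ ^ 2 ≤ 1 at h1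
    rw [Finset.sum_range_succ', Finset.sum_range_succ', Finset.sum_range_succ'] at h1
    simp only [zero_add, Nat.cast_one, one_mul, Nat.cast_zero, zero_mul, add_zero] at h1
    have h2 : ∑ k ∈ Finset.range n, ‖b (k + 3)‖ ^ 2 ≤
        ∑ k ∈ Finset.range n, ((k + 1 + 1 + 1 : ℕ) : ℝ) * ‖b (k + 1 + 1 + 1)‖ ^ 2 := by
      refine Finset.sum_le_sum fun k _ => ?_
      have h3 : (1 : ℝ) ≤ ((k + 1 + 1 + 1 : ℕ) : ℝ) := by
        exact_mod_cast Nat.succ_le_succ (Nat.zero_le _)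
      have h4 : 0 ≤ ‖b (k + 3)‖ ^ 2 := by positivity
      calc ‖b (k + 3)‖ ^ 2 = 1 * ‖b (k + 3)‖ ^ 2 := (one_mul _).symm
        _ ≤ _ := mul_le_mul_of_nonneg_right h3 h4
    have h5 : (0 : ℝ) ≤ ((1 + 1 : ℕ) : ℝ) * ‖b (1 + 1)‖ ^ 2 := by positivity
    linarith
  have hE : 0 ≤ 1 - ‖a2 g‖ ^ 2 / 4 := by simpa using hA 0
  have ha : ‖a2 g‖ ≤ 2 := by nlinarith [norm_nonneg (a2 g)]
  refine ⟨ha, fun z hz hz0 => ?_⟩
  obtain ⟨s, rfl⟩ : ∃ s : ℂ, s ^ 2 = z := IsAlgClosed.exists_pow_nat_eq z two_pos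
  have hs0 : s ≠ 0 := by
    rintro rfl
    simp at hz0
  have hz1 : ‖s‖ ^ 2 < 1 := by rw [mem_ball_zero_iff, norm_pow] at hz; exact hz
  have hs1 : ‖s‖ < 1 := by nlinarith [norm_nonneg s]
  have hs : s ∈ ball (0 : ℂ) 1 := mem_ball_zero_iff.2 hs1
  have hsum : HasSum (fun k => b k * s ^ k) (F s) := by
    have := hasSum_taylorSeries_on_ball hF hs
    have h1 : (fun k => b k * s ^ k) = fun n : ℕ =>
        (n.factorial : ℂ)⁻¹ • (s - 0) ^ n • iteratedDeriv n F 0 := by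
      funext k
      simp only [hb, sub_zero, smul_eq_mul]
      ring
    rw [h1]
    exact this
  have hsum3 : HasSum (fun k => b (k + 3) * s ^ (k + 3)) (F s + a2 g * s / 2) := by
    have := (hasSum_nat_add_iff' (f := fun k => b k * s ^ k) 3).2 hsum
    have h1 : F s + a2 g * s / 2 = F s - ∑ k ∈ Finset.range 3, b k * s ^ k := by
      simp only [Finset.sum_range_succ, Finset.range_zero, Finset.sum_empty, hb0, hb1, hb2]
      ring
    rw [h1]
    exact this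
  set β := F s + a2 g * s / 2 with hβ
  set e := Real.sqrt (1 - ‖a2 g‖ ^ 2 / 4) with he
  have he0 : 0 ≤ e := Real.sqrt_nonneg _
  have he2 : e ^ 2 = 1 - ‖a2 g‖ ^ 2 / 4 := Real.sq_sqrt hE
  have he1 : e ≤ 1 := by nlinarith [sq_nonneg ‖a2 g‖]
  have hβ2 := area_tail (b := fun k => b (k + 3)) hs1 hA hsum3
  rw [← he2] at hβ2
  set x := ‖s‖ with hx
  have hx0 : 0 < x := norm_pos_iff.2 hs0
  have hd : 0 < 1 - x ^ 2 := by linarith
  have hβ1 : ‖β‖ ≤ e * x ^ 3 / (1 - x ^ 2) := by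
    refine (pow_le_pow_iff_left₀ (norm_nonneg _) (by positivity) two_ne_zero).1 (hβ2.trans ?_)
    have h8 : (1 - x ^ 2) ^ 2 ≤ 1 - x ^ 2 := by nlinarith [sq_nonneg x]
    rw [div_pow, mul_pow, ← pow_mul, ← mul_div_assoc]
    exact div_le_div_of_nonneg_left (by positivity) (by positivity) h8
  have hid : 1 / g (s ^ 2) - 1 / s ^ 2 + a2 g - a2 g ^ 2 * s ^ 2 / 4 =
      2 * (1 / s - a2 g * s / 2) * β + β ^ 2 := by
    rw [← hG s hs hs0, hβ]
    field_simp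
    ring
  have h1 : ‖1 / s - a2 g * s / 2‖ ≤ 2 / x := by
    have h2 : ‖1 / s - a2 g * s / 2‖ ≤ 1 / x + ‖a2 g‖ * x / 2 := by
      refine (norm_sub_le _ _).trans (le_of_eq ?_)
      simp [hx]
    have h3 : ‖a2 g‖ * x / 2 ≤ 1 / x := by
      rw [le_div_iff₀ hx0]
      nlinarith [norm_nonneg (a2 g)]
    have h4 : 2 / x = 1 / x + 1 / x := by ring
    linarith
  have h5 : ‖β‖ ^ 2 ≤ e * x ^ 2 / (1 - x ^ 2) := by
    refine hβ2.trans ?_
    rw [← mul_div_assoc]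
    apply div_le_div_of_nonneg_right _ hd.le
    have h6 : x ^ 6 ≤ x ^ 2 := pow_le_pow_of_le_one hx0.le hs1.le (by norm_num)
    have h7 : e ^ 2 ≤ e := by nlinarith
    exact mul_le_mul h7 h6 (by positivity) he0
  rw [hid, norm_pow]
  calc ‖2 * (1 / s - a2 g * s / 2) * β + β ^ 2‖
      ≤ 2 * ‖1 / s - a2 g * s / 2‖ * ‖β‖ + ‖β‖ ^ 2 := by
        refine (norm_add_le _ _).trans (le_of_eq ?_)
        simp
    _ ≤ 2 * (2 / x) * (e * x ^ 3 / (1 - x ^ 2)) + e * x ^ 2 / (1 - x ^ 2) := by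
        gcongr
    _ = 5 * e * x ^ 2 / (1 - x ^ 2) := by
        field_simp
        ring

end Pool.Agent.Lib.MP_102662_an
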