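import Pool.Agent.Lib.MP_102662_an.Defs
import Pool.Agent.Lib.MP_3a6b94_an.Hardy

open Complex Metric Set Filter Topology MeasureTheory
open scoped ENNReal Real ComplexConjugate

namespace Pool.Agent.Lib.MP_102662_an

open Pool.Agent.Lib.MP_3a6b94_an

theorem atx_hasDerivAt {F : ℂ → ℂ} (hF : DifferentiableOn ℂ F (ball 0 1)) {s : ℂ}
    (hs : s ∈ ball (0 : ℂ) 1) (h0 : s ≠ 0) :
    HasDerivAt (fun s => 1 / s + F s) (-1 / s ^ 2 + deriv F s) s := by
  have h1 := (hF.differentiableAt (isOpen_ball.mem_nhds hs)).hasDerivAt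
  have h2 := (hasDerivAt_const s (1 : ℂ)).fun_div (hasDerivAt_id' s) h0
  refine (h2.fun_add h1).congr_deriv ?_
  simp

/-- A value seen from outside of the image of a small circle is attained close to the pole. -/
theorem atx_hole {F : ℂ → ℂ} (hF : DifferentiableOn ℂ F (ball 0 1)) {e e' : ℝ} (he : 0 < e)
    (hee : e < e') (he' : e' ≤ 1) {w c : ℂ}
    (hsl : ∀ s ∈ sphere (0 : ℂ) e, (1 / s + F s - w) / (c - w) ∈ slitPlane) :
    ∃ s ∈ ball (0 : ℂ) e', s ≠ 0 ∧ 1 / s + F s = w := by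
  by_contra hn
  push Not at hn
  have hsub : ball (0 : ℂ) e' ⊆ ball 0 1 := ball_subset_ball he'
  set φ : ℂ → ℂ := fun s => 1 + s * (F s - w) with hφ
  have hφd : DifferentiableOn ℂ φ (ball 0 e') :=
    (differentiableOn_const _).add (differentiableOn_id.mul ((hF.mono hsub).sub_const w))
  have hφe : ∀ s, s ≠ 0 → φ s = s * (1 / s + F s - w) := fun s h0 => by
    simp only [hφ]
    field_simp
    ring
  have hφ0 : ∀ s ∈ ball (0 : ℂ) e', φ s ≠ 0 := by
    intro s hs
    by_cases h0 : s = 0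
    · simp [hφ, h0]
    · rw [hφe s h0]
      exact mul_ne_zero h0 (sub_ne_zero.mpr (hn s hs h0))
  obtain ⟨P, hP⟩ := ((hφd.deriv isOpen_ball).div hφd hφ0).isExactOn_ball
  have key : ∀ s ∈ sphere (0 : ℂ) e,
      HasDerivAt (fun s => P s - Complex.log ((1 / s + F s - w) / (c - w))) ((s - 0)⁻¹) s := by
    intro s hs
    have hsn : ‖s‖ = e := by simpa using hs
    have h0 : s ≠ 0 := by
      rintro rfl
      simp at hsn
      exact he.ne hsn
    have hs' : s ∈ ball (0 : ℂ) e' := by simpa [hsn] using hee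
    have hG := atx_hasDerivAt hF (hsub hs') h0
    have hne : 1 / s + F s - w ≠ 0 := sub_ne_zero.mpr (hn s hs' h0)
    have hcw : c - w ≠ 0 := by
      intro h
      have := hsl s hs
      rw [h, div_zero] at this
      exact zero_notMem_slitPlane this
    have hL := ((hG.sub_const w).div_const (c - w)).clog (hsl s hs)
    have hd : deriv φ s = (F s - w) + s * deriv F s := by
      have h1 := (hF.differentiableAt (isOpen_ball.mem_nhds (hsub hs'))).hasDerivAt
      have h2 := ((hasDerivAt_id' s).fun_mul (h1.sub_const w)).const_add 1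
      rw [hφ, h2.deriv]
      ring
    refine ((hP s hs').fun_sub hL).congr_deriv ?_
    simp only [Pi.div_apply, hd, hφe s h0, sub_zero]
    have e1 : F s - w = (1 / s + F s - w) - 1 / s := by ring
    rw [e1]
    generalize 1 / s + F s - w = q at hne ⊢
    field_simp
    ring
  have h1 := circleIntegral.integral_eq_zero_of_hasDerivWithinAt he.le
    fun s hs => (key s hs).hasDerivWithinAt
  rw [circleIntegral.integral_sub_center_inv 0 he.ne'] at h1
  exact two_pi_I_ne_zero h1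

/-- The real linear map `z - β conj z`. -/
noncomputable def atxS (β : ℂ) : ℂ →ₗ[ℝ] ℂ :=
  LinearMap.id - (LinearMap.mulLeft ℝ β).comp Complex.conjAe.toLinearMap

theorem atxS_apply (β z : ℂ) : atxS β z = z - β * conj z := by
  simp [atxS]

theorem atxS_det (β : ℂ) : LinearMap.det (atxS β) = 1 - ‖β‖ ^ 2 := by
  rw [← LinearMap.det_toMatrix Complex.basisOneI, Matrix.det_fin_two]
  simp only [LinearMap.toMatrix_apply, atxS_apply, Complex.coe_basisOneI_repr,
    Complex.coe_basisOneI, ← Complex.normSq_eq_norm_sq, Complex.normSq_apply]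
  simp
  ring

theorem atx_volume (β c : ℂ) (hβ : ‖β‖ < 1) {ρ : ℝ} (hρ : 0 ≤ ρ) :
    volume {w : ℂ | ‖atxS β (w - c)‖ ≤ ρ} = ENNReal.ofReal (π * ρ ^ 2 / (1 - ‖β‖ ^ 2)) := by
  have hp : 0 < 1 - ‖β‖ ^ 2 := by nlinarith [norm_nonneg β]
  have e : {w : ℂ | ‖atxS β (w - c)‖ ≤ ρ} =
      (fun w => w + -c) ⁻¹' (atxS β ⁻¹' closedBall 0 ρ) := by
    ext w
    simp [sub_eq_add_neg]
  rw [e, measure_preimage_add_right, Measure.addHaar_preimage_linearMap _ (by
    rw [atxS_det]; exact hp.ne'), atxS_det, Complex.volume_closedBall, abs_of_pos (inv_pos.mpr hp),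
    ← ENNReal.ofReal_pow hρ, ← ENNReal.ofReal_coe_nnreal, NNReal.coe_real_pi,
    ← ENNReal.ofReal_mul (by positivity), ← ENNReal.ofReal_mul (by positivity)]
  congr 1
  field_simp

theorem atx_taylor {F : ℂ → ℂ} (hF : DifferentiableOn ℂ F (ball 0 1)) :
    ∃ C : ℝ, 0 ≤ C ∧ ∀ s : ℂ, ‖s‖ ≤ 1 / 2 → ‖F s - F 0 - deriv F 0 * s‖ ≤ C * ‖s‖ ^ 2 := by
  have hn : ball (0 : ℂ) 1 ∈ 𝓝 (0 : ℂ) := ball_mem_nhds _ one_pos
  have h1 := (Complex.differentiableOn_dslope hn).mpr hF
  have h2 := (Complex.differentiableOn_dslope hn).mpr h1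
  obtain ⟨C, hC⟩ := (isCompact_closedBall (0 : ℂ) (1 / 2)).exists_bound_of_continuousOn
    (h2.continuousOn.mono (closedBall_subset_ball (by norm_num)))
  refine ⟨max C 0, le_max_right _ _, fun s hs => ?_⟩
  have e1 := sub_smul_dslope F 0 s
  have e2 := sub_smul_dslope (dslope F 0) 0 s
  rw [dslope_same] at e2
  simp only [sub_zero, smul_eq_mul] at e1 e2
  have e : F s - F 0 - deriv F 0 * s = dslope (dslope F 0) 0 s * s ^ 2 := by
    linear_combination -e1 - s * e2
  rw [e, norm_mul, norm_pow]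
  exact mul_le_mul_of_nonneg_right ((hC s (by simpa using hs)).trans (le_max_left _ _))
    (by positivity)

/-- The image of an annulus lies in a slightly enlarged ellipse. -/
theorem atx_upper {F : ℂ → ℂ} (hF : DifferentiableOn ℂ F (ball 0 1))
    (hinj : InjOn (fun s => 1 / s + F s) (ball 0 1 \ {0})) {C e : ℝ} (hC0 : 0 ≤ C)
    (hC : ∀ s : ℂ, ‖s‖ ≤ 1 / 2 → ‖F s - F 0 - deriv F 0 * s‖ ≤ C * ‖s‖ ^ 2) (he : 0 < e)
    (he2 : e ≤ 1 / 2) (hβ : ‖deriv F 0 * (e : ℂ) ^ 2‖ < 1) {s₀ : ℂ} (h1 : e < ‖s₀‖)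
    (h2 : ‖s₀‖ < 1) :
    ‖atxS (deriv F 0 * (e : ℂ) ^ 2) (1 / s₀ + F s₀ - F 0)‖ ≤ 1 / e + 2 * C * e ^ 2 := by
  set β := deriv F 0 * (e : ℂ) ^ 2 with hβd
  by_contra hn
  push Not at hn
  have hbd : ∀ s ∈ sphere (0 : ℂ) e, ‖atxS β (1 / s + F s - F 0)‖ ≤ 1 / e + 2 * C * e ^ 2 := by
    intro s hs
    have hsn : ‖s‖ = e := by simpa using hs
    have h0 : s ≠ 0 := by
      rintro rfl
      simp at hsn
      exact he.ne hsn
    have h0' : conj s ≠ 0 := by simpa using h0
    have hss : s * conj s = (e : ℂ) ^ 2 := by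
      rw [Complex.mul_conj, Complex.normSq_eq_norm_sq, hsn]
      push_cast
      ring
    set d := F s - F 0 - deriv F 0 * s with hd
    have hdn : ‖d‖ ≤ C * e ^ 2 := by
      have := hC s (by rw [hsn]; exact he2)
      rwa [hsn] at this
    have e1 : 1 / s + F s - F 0 = (1 / s + β * conj (1 / s)) + d := by
      rw [hβd, hd, ← hss]
      simp only [map_div₀, map_one]
      field_simp
      ring
    have e2 : atxS β (1 / s + β * conj (1 / s)) = ((1 - ‖β‖ ^ 2 : ℝ) : ℂ) * (1 / s) := by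
      rw [atxS_apply, ← Complex.normSq_eq_norm_sq]
      push_cast
      rw [← Complex.mul_conj]
      simp only [map_add, map_mul, Complex.conj_conj]
      ring
    have hp : 0 ≤ 1 - ‖β‖ ^ 2 := by nlinarith [norm_nonneg β]
    rw [e1, map_add, e2]
    refine (norm_add_le _ _).trans (add_le_add ?_ ?_)
    · rw [norm_mul, Complex.norm_real, Real.norm_eq_abs, abs_of_nonneg hp, norm_div, norm_one, hsn]
      exact mul_le_of_le_one_left (by positivity) (by nlinarith [norm_nonneg β])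
    · rw [atxS_apply]
      refine (norm_sub_le _ _).trans ?_
      rw [norm_mul, Complex.norm_conj]
      nlinarith [norm_nonneg d, norm_nonneg β]
  have hρ : 0 < 1 / e + 2 * C * e ^ 2 := by positivity
  set w := 1 / s₀ + F s₀ with hw
  have hcw : F 0 - w ≠ 0 := by
    intro h
    have : w - F 0 = 0 := by linear_combination -h
    rw [this, map_zero, norm_zero] at hn
    linarith
  obtain ⟨s, hs, h0, hsw⟩ := atx_hole hF he h1 h2.le (w := w) (c := F 0) fun s hs => by
    by_contra hsl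
    rw [mem_slitPlane_iff_not_le_zero, not_not] at hsl
    obtain ⟨hre, him⟩ := Complex.le_def.mp hsl
    set t := (1 / s + F s - w) / (F 0 - w) with ht
    have htr : t = (t.re : ℂ) := by
      apply Complex.ext
      · simp
      · simpa using him
    have hre' : t.re ≤ 0 := by simpa using hre
    have e3 : 1 / s + F s - F 0 = (1 - t.re) • (w - F 0) := by
      rw [Complex.real_smul]
      push_cast
      rw [← htr, ht]
      field_simp
      ring
    have h3 := hbd s hs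
    rw [e3, map_smul, norm_smul, Real.norm_eq_abs, abs_of_nonneg (by linarith)] at h3
    nlinarith
  have hs' : ‖s‖ < ‖s₀‖ := by simpa using hs
  have h0' : s₀ ≠ 0 := by
    rintro rfl
    simp at h1
    linarith
  have := hinj ⟨by simpa using hs'.trans h2, h0⟩ ⟨by simpa using h2, h0'⟩ hsw
  rw [this] at hs'
  exact lt_irrefl _ hs'

theorem atx_circle {F : ℂ → ℂ} (hF : DifferentiableOn ℂ F (ball 0 1)) {ρ : ℝ} (h0 : 0 < ρ)
    (h1 : ρ < 1) (n : ℕ) :
    2 * π * (1 / ρ ^ 3) + ∑ k ∈ Finset.range n, 2 * π * ((k : ℝ) + 1) ^ 2 *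
        ‖iteratedDeriv (k + 1) F 0 / ((k + 1).factorial : ℂ)‖ ^ 2 * ρ ^ (2 * k + 1) ≤
      ρ * ∫ θ, ‖-1 / circleMap 0 ρ θ ^ 2 + deriv F (circleMap 0 ρ θ)‖ ^ 2 ∂arc := by
  have hF' : DifferentiableOn ℂ (deriv F) (ball 0 1) := hF.deriv isOpen_ball
  set a : ℕ → ℂ := fun k => iteratedDeriv k (deriv F) 0 / k.factorial * (ρ : ℂ) ^ k with ha
  set c : ℕ → ℂ := fun k => match k with
    | 0 => -1
    | 1 => 0
    | k + 2 => (ρ : ℂ) ^ 2 * a k with hc
  have hcs : Summable fun k => ‖c k‖ := by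
    rw [← summable_nat_add_iff 2]
    simp only [hc, norm_mul]
    exact (summable_taylor hF' h0.le h1).mul_left _
  have hcont := continuous_comp_circleMap hF'.continuousOn h0.le h1
  have hpar := hasSum_parseval_aux hcs
    (f := fun θ => -1 + circleMap 0 ρ θ ^ 2 * deriv F (circleMap 0 ρ θ))
    (continuous_const.add (((continuous_circleMap 0 ρ).pow 2).mul hcont)) (fun θ => by
      rw [← hasSum_nat_add_iff' 2]
      have h := (hasSum_taylor_circle hF' h0.le h1 θ).mul_left (circleMap 0 ρ θ ^ 2)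
      have e : circleMap 0 ρ θ = ρ * circleMap 0 1 θ := by simp [circleMap]
      have e3 : (fun k => c (k + 2) * circleMap 0 1 θ ^ (k + 2)) = fun k =>
          circleMap 0 ρ θ ^ 2 * (iteratedDeriv k (deriv F) 0 / k.factorial * (ρ : ℂ) ^ k *
            circleMap 0 1 θ ^ k) := by
        funext k
        simp only [hc, ha]
        rw [e]
        ring
      have e4 : -1 + circleMap 0 ρ θ ^ 2 * deriv F (circleMap 0 ρ θ) -
          ∑ i ∈ Finset.range 2, c i * circleMap 0 1 θ ^ i =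
          circleMap 0 ρ θ ^ 2 * deriv F (circleMap 0 ρ θ) := by
        simp [hc, Finset.sum_range_succ]
      rw [e3, e4]
      exact h)
  have h2 := sum_le_hasSum (Finset.range (n + 2)) (fun k _ => by positivity) hpar
  rw [Finset.sum_range_succ', Finset.sum_range_succ'] at h2
  have e2 : ∀ θ, ‖-1 + circleMap 0 ρ θ ^ 2 * deriv F (circleMap 0 ρ θ)‖ ^ 2 =
      ρ ^ 4 * ‖-1 / circleMap 0 ρ θ ^ 2 + deriv F (circleMap 0 ρ θ)‖ ^ 2 := by
    intro θ
    have hz : circleMap 0 ρ θ ≠ 0 := circleMap_ne_center h0.ne'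
    have : -1 + circleMap 0 ρ θ ^ 2 * deriv F (circleMap 0 ρ θ) =
        circleMap 0 ρ θ ^ 2 * (-1 / circleMap 0 ρ θ ^ 2 + deriv F (circleMap 0 ρ θ)) := by
      field_simp
    rw [this, norm_mul, norm_pow, norm_circleMap_zero, abs_of_pos h0]
    ring
  simp_rw [e2] at h2
  rw [integral_const_mul] at h2
  have h3 : 0 < ρ ^ 3 := by positivity
  refine le_of_mul_le_mul_left (le_trans (le_of_eq ?_) (h2.trans (le_of_eq (by ring)))) h3
  rw [mul_add, Finset.mul_sum, add_assoc, add_comm]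
  congr 1
  · refine Finset.sum_congr rfl fun k _ => ?_
    have hk : ((k : ℝ) + 1) ≠ 0 := by positivity
    have hf : ((k.factorial : ℝ)) ≠ 0 := by positivity
    simp only [hc, ha, iteratedDeriv_succ', Nat.factorial_succ, norm_mul, norm_div, norm_pow,
      Complex.norm_natCast, Complex.norm_real, Real.norm_eq_abs, abs_of_pos h0]
    push_cast
    field_simp
    ring
  · simp only [hc, norm_neg, norm_one, norm_zero]
    field_simp
    ring

theorem atx_lower {F : ℂ → ℂ} (hF : DifferentiableOn ℂ F (ball 0 1))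
    (hinj : InjOn (fun s => 1 / s + F s) (ball 0 1 \ {0})) {e r : ℝ} (he : 0 < e) (her : e ≤ r)
    (hr : r < 1) (n : ℕ) :
    ENNReal.ofReal (π * (1 / e ^ 2 - 1 / r ^ 2) + ∑ k ∈ Finset.range n, π * ((k : ℝ) + 1) *
        ‖iteratedDeriv (k + 1) F 0 / ((k + 1).factorial : ℂ)‖ ^ 2 *
          (r ^ (2 * k + 2) - e ^ (2 * k + 2))) ≤
      volume ((fun s => 1 / s + F s) '' {s : ℂ | ‖s‖ ∈ Ioo e r}) := by
  have hF' : DifferentiableOn ℂ (deriv F) (ball 0 1) := hF.deriv isOpen_ball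
  set A : Set ℂ := {s : ℂ | ‖s‖ ∈ Ioo e r} with hA
  have hAm : MeasurableSet A := measurable_norm measurableSet_Ioo
  have hA1 : A ⊆ ball 0 1 \ {0} := fun s hs =>
    ⟨by simpa using hs.2.trans hr, norm_pos_iff.mp (he.trans hs.1)⟩
  set g : ℂ → ℂ := fun s => -1 / s ^ 2 + deriv F s with hg
  have hgm : Measurable g := (measurable_const.div (measurable_id.pow_const 2)).add
    (measurable_deriv F)
  set b : ℕ → ℝ := fun k => ‖iteratedDeriv (k + 1) F 0 / ((k + 1).factorial : ℂ)‖ ^ 2 with hb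
  rw [← lintegral_abs_det_fderiv_eq_addHaar_image volume hAm
    (f' := fun z => (ContinuousLinearMap.toSpanSingleton ℂ (g z)).restrictScalars ℝ)
    (fun z hz => ((atx_hasDerivAt hF (hA1 hz).1 (hA1 hz).2).hasFDerivAt.restrictScalars
      ℝ).hasFDerivWithinAt) (hinj.mono hA1)]
  have e1 : ∀ z, ENNReal.ofReal
      |((ContinuousLinearMap.toSpanSingleton ℂ (g z)).restrictScalars ℝ).det| =
      ENNReal.ofReal (‖g z‖ ^ 2) := by
    intro z
    congr 1
    simp [ContinuousLinearMap.det, LinearMap.det_restrictScalars, Algebra.norm_complex_eq,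
      Complex.normSq_eq_norm_sq]
  simp_rw [e1]
  rw [← lintegral_indicator hAm,
    lintegral_polar' ((hgm.norm.pow_const 2).ennreal_ofReal.indicator hAm)]
  set u : ℝ → ℝ := fun ρ => 2 * π * (1 / ρ ^ 3) + ∑ k ∈ Finset.range n,
    2 * π * ((k : ℝ) + 1) ^ 2 * b k * ρ ^ (2 * k + 1) with hu
  have huc : ContinuousOn u (Icc e r) := by
    refine (continuousOn_const.mul (continuousOn_const.div (by fun_prop) fun ρ hρ =>
      pow_ne_zero _ (he.trans_le hρ.1).ne')).add (by fun_prop)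
  have hint : ∫ ρ in e..r, u ρ = π * (1 / e ^ 2 - 1 / r ^ 2) + ∑ k ∈ Finset.range n,
      π * ((k : ℝ) + 1) * b k * (r ^ (2 * k + 2) - e ^ (2 * k + 2)) := by
    rw [intervalIntegral.integral_eq_sub_of_hasDerivAt (f := fun ρ => -π * (1 / ρ ^ 2) +
      ∑ k ∈ Finset.range n, π * ((k : ℝ) + 1) * b k * ρ ^ (2 * k + 2)) (fun ρ hρ => ?_)
      (ContinuousOn.intervalIntegrable (by rwa [uIcc_of_le her]))]
    · simp only [mul_sub, Finset.sum_sub_distrib]
      ring
    · rw [uIcc_of_le her] at hρ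
      have h0 : ρ ≠ 0 := (he.trans_le hρ.1).ne'
      have h1 := ((hasDerivAt_const ρ (1 : ℝ)).fun_div (hasDerivAt_pow 2 ρ)
        (pow_ne_zero _ h0)).const_mul (-π)
      have h2 := HasDerivAt.fun_sum (u := Finset.range n) fun k _ =>
        (hasDerivAt_pow (2 * k + 2) ρ).const_mul (π * ((k : ℝ) + 1) * b k)
      refine (h1.fun_add h2).congr_deriv ?_
      simp only [hu]
      congr 1
      · field_simp
        norm_num
        ring
      · refine Finset.sum_congr rfl fun k _ => ?_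
        simp only [Nat.add_succ_sub_one]
        push_cast
        ring
  rw [← hint, intervalIntegral.integral_of_le her, integral_Ioc_eq_integral_Ioo,
    ofReal_integral_eq_lintegral_ofReal (huc.integrableOn_Icc.mono_set Ioo_subset_Icc_self) (by
      filter_upwards [ae_restrict_mem measurableSet_Ioo] with ρ hρ
      have := he.trans hρ.1
      simp only [hu, hb, Pi.zero_apply]
      positivity)]
  refine le_trans (setLIntegral_mono' measurableSet_Ioo fun ρ hρ => ?_)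
    (lintegral_mono_set (s := Ioo e r) fun ρ hρ => he.trans hρ.1)
  have h0 : 0 < ρ := he.trans hρ.1
  have h1 : ρ < 1 := hρ.2.trans hr
  have e2 : ∀ θ, A.indicator (fun z => ENNReal.ofReal (‖g z‖ ^ 2)) (circleMap 0 ρ θ) =
      ENNReal.ofReal (‖g (circleMap 0 ρ θ)‖ ^ 2) := fun θ =>
    indicator_of_mem (by simpa [hA, abs_of_pos h0] using hρ) _
  simp_rw [e2]
  have hcont : Continuous fun θ => ‖g (circleMap 0 ρ θ)‖ ^ 2 :=
    ((continuous_const.div ((continuous_circleMap 0 ρ).pow 2) fun θ =>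
      pow_ne_zero _ (circleMap_ne_center h0.ne')).add
      (continuous_comp_circleMap hF'.continuousOn h0.le h1)).norm.pow 2
  rw [← ofReal_integral_eq_lintegral_ofReal (integrable_arc_of_continuous hcont)
    (Eventually.of_forall fun θ => by positivity), ← ENNReal.ofReal_mul h0.le]
  exact ENNReal.ofReal_le_ofReal (atx_circle hF h0 h1 n)

theorem atx_radius {F : ℂ → ℂ} (hF : DifferentiableOn ℂ F (ball 0 1))
    (hinj : InjOn (fun s => 1 / s + F s) (ball 0 1 \ {0})) {r : ℝ} (hr0 : 0 < r) (hr : r < 1)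
    (n : ℕ) :
    ∑ k ∈ Finset.range n, ((k : ℝ) + 1) *
        ‖iteratedDeriv (k + 1) F 0 / ((k + 1).factorial : ℂ)‖ ^ 2 * r ^ (2 * k + 2) ≤
      1 / r ^ 2 := by
  obtain ⟨C, hC0, hC⟩ := atx_taylor hF
  set b : ℕ → ℝ := fun k => ‖iteratedDeriv (k + 1) F 0 / ((k + 1).factorial : ℂ)‖ ^ 2 with hb
  set B : ℝ := ‖deriv F 0‖ with hB
  have hlim1 : Tendsto (fun e : ℝ => ∑ k ∈ Finset.range n,
      ((k : ℝ) + 1) * b k * (r ^ (2 * k + 2) - e ^ (2 * k + 2))) (𝓝[>] 0)
      (𝓝 (∑ k ∈ Finset.range n, ((k : ℝ) + 1) * b k * r ^ (2 * k + 2))) := by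
    have : Continuous fun e : ℝ => ∑ k ∈ Finset.range n,
      ((k : ℝ) + 1) * b k * (r ^ (2 * k + 2) - e ^ (2 * k + 2)) := by fun_prop
    simpa using (this.tendsto 0).mono_left nhdsWithin_le_nhds
  have hlim2 : Tendsto (fun e : ℝ => 1 / r ^ 2 +
      (4 * C * e + 4 * C ^ 2 * e ^ 4 + B ^ 2 * e ^ 2) / (1 - (B * e ^ 2) ^ 2)) (𝓝[>] 0)
      (𝓝 (1 / r ^ 2)) := by
    have : ContinuousAt (fun e : ℝ => 1 / r ^ 2 +
      (4 * C * e + 4 * C ^ 2 * e ^ 4 + B ^ 2 * e ^ 2) / (1 - (B * e ^ 2) ^ 2)) 0 :=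
      continuousAt_const.add (ContinuousAt.div (by fun_prop) (by fun_prop) (by simp))
    simpa using this.tendsto.mono_left nhdsWithin_le_nhds
  refine le_of_tendsto_of_tendsto hlim1 hlim2 ?_
  have hev : ∀ᶠ e : ℝ in 𝓝 0, B * e ^ 2 < 1 := by
    have : Continuous fun e : ℝ => B * e ^ 2 := by fun_prop
    exact (this.tendsto 0).eventually (gt_mem_nhds (by simp))
  filter_upwards [self_mem_nhdsWithin, nhdsWithin_le_nhds (ge_mem_nhds hr0),
    nhdsWithin_le_nhds (ge_mem_nhds (by norm_num : (0 : ℝ) < 1 / 2)), nhdsWithin_le_nhds hev]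
    with e he her he2 hβ
  have he0 : 0 < e := he
  have hn : ‖deriv F 0 * (e : ℂ) ^ 2‖ = B * e ^ 2 := by
    simp [hB]
  have hp : 0 < 1 - (B * e ^ 2) ^ 2 := by
    have : 0 ≤ B * e ^ 2 := by positivity
    nlinarith
  have h1 := (atx_lower hF hinj he0 her hr n).trans ((measure_mono (t := {w : ℂ |
    ‖atxS (deriv F 0 * (e : ℂ) ^ 2) (w - F 0)‖ ≤ 1 / e + 2 * C * e ^ 2}) (by
      rintro _ ⟨s, hs, rfl⟩
      exact atx_upper hF hinj hC0 hC he0 he2 (by rwa [hn]) hs.1 (hs.2.trans hr))).trans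
      (atx_volume _ _ (by rwa [hn]) (by positivity)).le)
  rw [hn, ENNReal.ofReal_le_ofReal_iff (by positivity)] at h1
  have e1 : π * (1 / e + 2 * C * e ^ 2) ^ 2 / (1 - (B * e ^ 2) ^ 2) = π * (1 / e ^ 2 +
      (4 * C * e + 4 * C ^ 2 * e ^ 4 + B ^ 2 * e ^ 2) / (1 - (B * e ^ 2) ^ 2)) := by
    have e3 : B ^ 2 * e ^ 2 = (1 - (1 - (B * e ^ 2) ^ 2)) / e ^ 2 := by
      field_simp
      ring
    rw [e3]
    generalize 1 - (B * e ^ 2) ^ 2 = q at hp ⊢
    field_simp
    ring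
  have e2 : ∑ k ∈ Finset.range n, π * ((k : ℝ) + 1) * b k * (r ^ (2 * k + 2) - e ^ (2 * k + 2)) =
      π * ∑ k ∈ Finset.range n, ((k : ℝ) + 1) * b k * (r ^ (2 * k + 2) - e ^ (2 * k + 2)) := by
    rw [Finset.mul_sum]
    exact Finset.sum_congr rfl fun k _ => by ring
  rw [e1, e2, ← mul_add] at h1
  have h2 := le_of_mul_le_mul_left h1 Real.pi_pos
  linarith

/-- Gronwall's area theorem. -/
theorem area_theorem {F : ℂ → ℂ} (hF : DifferentiableOn ℂ F (ball 0 1))
    (hinj : InjOn (fun s => 1 / s + F s) (ball 0 1 \ {0})) (n : ℕ) :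
    ∑ k ∈ Finset.range n, (k : ℝ) * ‖iteratedDeriv k F 0 / (k.factorial : ℂ)‖ ^ 2 ≤ 1 := by
  rcases n with _ | n
  · simp
  rw [Finset.sum_range_succ']
  simp only [Nat.cast_zero, zero_mul, add_zero]
  set b : ℕ → ℝ := fun k => ‖iteratedDeriv (k + 1) F 0 / ((k + 1).factorial : ℂ)‖ ^ 2 with hb
  have hlim1 : Tendsto (fun r : ℝ => ∑ k ∈ Finset.range n, ((k : ℝ) + 1) * b k * r ^ (2 * k + 2))
      (𝓝[<] 1) (𝓝 (∑ k ∈ Finset.range n, ((k + 1 : ℕ) : ℝ) * b k)) := by
    have : Continuous fun r : ℝ => ∑ k ∈ Finset.range n,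
      ((k : ℝ) + 1) * b k * r ^ (2 * k + 2) := by fun_prop
    simpa using (this.tendsto 1).mono_left nhdsWithin_le_nhds
  have hlim2 : Tendsto (fun r : ℝ => 1 / r ^ 2) (𝓝[<] 1) (𝓝 1) := by
    have : ContinuousAt (fun r : ℝ => 1 / r ^ 2) 1 :=
      ContinuousAt.div (by fun_prop) (by fun_prop) (by simp)
    simpa using this.tendsto.mono_left nhdsWithin_le_nhds
  refine le_of_tendsto_of_tendsto hlim1 hlim2 ?_
  filter_upwards [self_mem_nhdsWithin, nhdsWithin_le_nhds (lt_mem_nhds one_pos)] with r hr hr0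
  exact atx_radius hF hinj hr0 hr n

end Pool.Agent.Lib.MP_102662_an
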