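import Pool.Agent.Lib.MP_102662_an.Defs

open Complex Metric Set Filter Topology

namespace Pool.Agent.Lib.MP_102662_an

theorem one_sub_ne_of_mem_ball {z : ℂ} (hz : z ∈ ball (0 : ℂ) 1) : 1 - z ≠ 0 := by
  intro h
  have h1 : z = 1 := by linear_combination -h
  rw [h1] at hz
  simp at hz

theorem hasDerivAt_koebe {z : ℂ} (hz : 1 - z ≠ 0) :
    HasDerivAt koebe ((1 + z) / (1 - z) ^ 3) z := by
  have h1 : HasDerivAt (fun w : ℂ => (1 - w) ^ 2) (2 * (1 - z) * (-1)) z := by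
    have := ((hasDerivAt_id z).const_sub 1).fun_pow 2
    simpa using this
  have h2 := (hasDerivAt_id z).div h1 (pow_ne_zero 2 hz)
  have h3 : (1 * (1 - z) ^ 2 - id z * (2 * (1 - z) * (-1))) / ((1 - z) ^ 2) ^ 2
      = (1 + z) / (1 - z) ^ 3 := by
    simp only [id]
    field_simp
    ring
  rw [h3] at h2
  exact h2

theorem schlicht_koebe : Schlicht koebe := by
  refine ⟨?_, ?_, ?_, ?_⟩
  · intro z hz
    exact (hasDerivAt_koebe (one_sub_ne_of_mem_ball hz)).differentiableAt.differentiableWithinAt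
  · intro z hz w hw h
    have hz1 := one_sub_ne_of_mem_ball hz
    have hw1 := one_sub_ne_of_mem_ball hw
    unfold koebe at h
    rw [div_eq_div_iff (pow_ne_zero 2 hz1) (pow_ne_zero 2 hw1)] at h
    have h2 : (z - w) * (1 - z * w) = 0 := by linear_combination h
    have h3 : 1 - z * w ≠ 0 := by
      apply one_sub_ne_of_mem_ball
      rw [mem_ball_zero_iff] at hz hw ⊢
      rw [norm_mul]
      nlinarith [norm_nonneg z, norm_nonneg w]
    have h4 := (mul_eq_zero.mp h2).resolve_right h3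
    linear_combination h4
  · simp [koebe]
  · have := (hasDerivAt_koebe (z := 0) (by simp)).deriv
    simpa using this

theorem a2_koebe : a2 koebe = 2 := by
  have hev : deriv koebe =ᶠ[𝓝 (0 : ℂ)] fun z => (1 + z) / (1 - z) ^ 3 := by
    filter_upwards [ball_mem_nhds (0 : ℂ) one_pos] with z hz
    exact (hasDerivAt_koebe (one_sub_ne_of_mem_ball hz)).deriv
  have h1 : HasDerivAt (fun w : ℂ => (1 - w) ^ 3) (3 * (1 - 0) ^ 2 * (-1)) (0 : ℂ) := by
    have := ((hasDerivAt_id (0 : ℂ)).const_sub 1).fun_pow 3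
    simpa using this
  have h2 := ((hasDerivAt_id (0 : ℂ)).const_add 1).div h1 (by simp)
  have h3 : deriv (fun z : ℂ => (1 + z) / (1 - z) ^ 3) 0 = 4 := by
    have h4 := h2.deriv
    have h5 : (fun z : ℂ => (1 + z) / (1 - z) ^ 3)
        = ((fun x : ℂ => 1 + id x) / fun w : ℂ => (1 - w) ^ 3) := by
      funext z; simp
    rw [h5, h4]
    simp only [id]
    norm_num
  unfold a2
  rw [iteratedDeriv_succ, iteratedDeriv_one, hev.deriv_eq, h3]
  norm_num

theorem Lin.analyticAt {f h : ℂ → ℂ} {lam : ℂ} {ρ : ℝ} (H : Lin f lam h ρ) :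
    AnalyticAt ℂ h 0 :=
  H.diff.analyticAt (ball_mem_nhds 0 H.pos)

theorem lin_eventuallyEq {f h₁ h₂ : ℂ → ℂ} {lam : ℂ} {ρ₁ ρ₂ : ℝ} (hf : AnalyticAt ℂ f 0)
    (hf1 : deriv f 0 = lam) (hl0 : lam ≠ 0) (hk : ∀ k : ℕ, 1 ≤ k → lam ^ k ≠ 1)
    (H₁ : Lin f lam h₁ ρ₁) (H₂ : Lin f lam h₂ ρ₂) :
    ∀ᶠ w in 𝓝 (0 : ℂ), h₁ w - h₂ w = 0 := by
  by_contra hne
  have hd : AnalyticAt ℂ (fun w => h₁ w - h₂ w) 0 := H₁.analyticAt.sub H₂.analyticAt
  obtain ⟨n, g, hg, hg0, hev⟩ := hd.exists_eventuallyEq_pow_smul_nonzero_iff.mpr hne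
  simp only [sub_zero, smul_eq_mul] at hev
  have hn0 : n ≠ 0 := by
    rintro rfl
    have := hev.self_of_nhds
    rw [H₁.zero, H₂.zero] at this
    apply hg0
    simpa using this.symm
  have hn1 : n ≠ 1 := by
    rintro rfl
    have e1 : deriv (fun w => h₁ w - h₂ w) 0 = 0 := by
      rw [deriv_fun_sub H₁.analyticAt.differentiableAt H₂.analyticAt.differentiableAt,
        H₁.one, H₂.one, sub_self]
    have e2 : (fun w => h₁ w - h₂ w) =ᶠ[𝓝 (0 : ℂ)] fun w => w * g w := by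
      filter_upwards [hev] with w hw
      simpa using hw
    have e3 : HasDerivAt (fun w : ℂ => w * g w) (1 * g 0 + 0 * deriv g 0) 0 :=
      (hasDerivAt_id (0 : ℂ)).mul hg.differentiableAt.hasDerivAt
    rw [e2.deriv_eq, e3.deriv] at e1
    apply hg0
    simpa using e1
  have hstrict : HasStrictDerivAt f lam 0 := hf1 ▸ hf.hasStrictDerivAt
  have ht1 : Tendsto h₁ (𝓝 0) (𝓝 0) := by
    have := H₁.analyticAt.continuousAt.tendsto
    rwa [H₁.zero] at this
  have ht2 : Tendsto h₂ (𝓝 0) (𝓝 0) := by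
    have := H₂.analyticAt.continuousAt.tendsto
    rwa [H₂.zero] at this
  have htp : Tendsto (fun w => (h₁ w, h₂ w)) (𝓝 (0 : ℂ)) (𝓝 ((0 : ℂ), (0 : ℂ))) :=
    ht1.prodMk_nhds ht2
  have ho := (hasStrictDerivAt_iff_hasStrictFDerivAt.mp hstrict).isLittleO.comp_tendsto htp
  have hlam : Tendsto (fun w : ℂ => lam * w) (𝓝 0) (𝓝 0) := by
    have : Continuous (fun w : ℂ => lam * w) := by fun_prop
    simpa using this.tendsto 0
  have hev2 := hlam.eventually hev
  have ho2 : (fun w : ℂ => w ^ n * (lam ^ n * g (lam * w) - lam * g w)) =o[𝓝 0]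
      fun w : ℂ => w ^ n * g w := by
    refine ho.congr' ?_ ?_
    · filter_upwards [hev, hev2, H₁.conj, H₂.conj] with w e1 e2 e3 e4
      simp only [Function.comp, ContinuousLinearMap.toSpanSingleton_apply, smul_eq_mul]
      rw [e3, e4, e2, e1]
      ring
    · filter_upwards [hev] with w e1
      simp only [Function.comp]
      exact e1
  have ho3 : (fun w : ℂ => lam ^ n * g (lam * w) - lam * g w) =o[𝓝[≠] 0] g := by
    have ho4 := (ho2.mono (nhdsWithin_le_nhds (s := {(0 : ℂ)}ᶜ))).mul_isBigO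
      (Asymptotics.isBigO_refl (fun w : ℂ => (w ^ n)⁻¹) _)
    refine ho4.congr' ?_ ?_
    · filter_upwards [self_mem_nhdsWithin] with w hw
      have : w ^ n ≠ 0 := pow_ne_zero n hw
      field_simp
    · filter_upwards [self_mem_nhdsWithin] with w hw
      have : w ^ n ≠ 0 := pow_ne_zero n hw
      field_simp
  have hgt : Tendsto g (𝓝 0) (𝓝 (g 0)) := hg.continuousAt.tendsto
  have hz : Tendsto (fun w : ℂ => lam ^ n * g (lam * w) - lam * g w) (𝓝[≠] 0) (𝓝 0) := by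
    have := ho3.trans_isBigO ((hgt.mono_left nhdsWithin_le_nhds).isBigO_one ℂ)
    exact (Asymptotics.isLittleO_one_iff ℂ).mp this
  have hz2 : Tendsto (fun w : ℂ => lam ^ n * g (lam * w) - lam * g w) (𝓝[≠] 0)
      (𝓝 (lam ^ n * g 0 - lam * g 0)) :=
    (((hgt.comp hlam).const_mul _).sub (hgt.const_mul _)).mono_left nhdsWithin_le_nhds
  have heq := tendsto_nhds_unique hz hz2
  obtain ⟨m, rfl⟩ : ∃ m, n = m + 1 := ⟨n - 1, by omega⟩
  have h5 : lam * g 0 * (lam ^ m - 1) = 0 := by linear_combination -heq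
  have h6 := (mul_eq_zero.mp h5).resolve_left (mul_ne_zero hl0 hg0)
  exact hk m (by omega) (by linear_combination h6)

/-- Uniqueness of the normalized linearizer. -/
theorem lin_unique {f h₁ h₂ : ℂ → ℂ} {lam : ℂ} {ρ₁ ρ₂ : ℝ} (hf : AnalyticAt ℂ f 0)
    (hf1 : deriv f 0 = lam) (hl0 : lam ≠ 0) (hk : ∀ k : ℕ, 1 ≤ k → lam ^ k ≠ 1)
    (H₁ : Lin f lam h₁ ρ₁) (H₂ : Lin f lam h₂ ρ₂) :
    EqOn h₁ h₂ (ball 0 (min ρ₁ ρ₂)) := by
  have hev := lin_eventuallyEq hf hf1 hl0 hk H₁ H₂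
  have a1 : AnalyticOnNhd ℂ h₁ (ball 0 (min ρ₁ ρ₂)) :=
    (H₁.diff.mono (ball_subset_ball (min_le_left _ _))).analyticOnNhd isOpen_ball
  have a2 : AnalyticOnNhd ℂ h₂ (ball 0 (min ρ₁ ρ₂)) :=
    (H₂.diff.mono (ball_subset_ball (min_le_right _ _))).analyticOnNhd isOpen_ball
  refine a1.eqOn_of_preconnected_of_eventuallyEq a2 (convex_ball _ _).isPreconnected
    (mem_ball_self (lt_min H₁.pos H₂.pos)) ?_
  filter_upwards [hev] with w hw
  exact sub_eq_zero.mp hw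

theorem mul_mem_ball_of_norm_le {lam w : ℂ} {ρ : ℝ} (hl : ‖lam‖ ≤ 1) (hw : w ∈ ball (0 : ℂ) ρ) :
    lam * w ∈ ball (0 : ℂ) ρ := by
  rw [mem_ball_zero_iff] at hw ⊢
  rw [norm_mul]
  exact lt_of_le_of_lt (mul_le_of_le_one_left (norm_nonneg w) hl) hw

/-- For the Koebe function the functional equation holds on the whole disc. -/
theorem lin_koebe_global {h : ℂ → ℂ} {lam : ℂ} {ρ : ℝ} (hl : ‖lam‖ ≤ 1) (hl0 : lam ≠ 0)
    (H : Lin (fun z => lam * koebe z) lam h ρ) :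
    ∀ w ∈ ball (0 : ℂ) ρ, h w ≠ 1 ∧ lam * koebe (h w) = h (lam * w) := by
  have d1 : DifferentiableOn ℂ (fun w => h (lam * w)) (ball 0 ρ) :=
    H.diff.comp (by fun_prop) (fun w hw => mul_mem_ball_of_norm_le hl hw)
  have d2 : DifferentiableOn ℂ (fun w => (1 - h w) ^ 2 * h (lam * w)) (ball 0 ρ) :=
    ((H.diff.const_sub 1).pow 2).mul d1
  have d3 : DifferentiableOn ℂ (fun w => lam * h w) (ball 0 ρ) := H.diff.const_mul lam
  have ht : Tendsto h (𝓝 0) (𝓝 0) := by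
    have := H.analyticAt.continuousAt.tendsto
    rwa [H.zero] at this
  have hev : (fun w => (1 - h w) ^ 2 * h (lam * w)) =ᶠ[𝓝 (0 : ℂ)] fun w => lam * h w := by
    filter_upwards [H.conj, ht.eventually (ball_mem_nhds (0 : ℂ) one_pos)] with w e1 e2
    have e3 := one_sub_ne_of_mem_ball e2
    rw [← e1]
    unfold koebe
    field_simp
  have heq := (d2.analyticOnNhd isOpen_ball).eqOn_of_preconnected_of_eventuallyEq
    (d3.analyticOnNhd isOpen_ball) (convex_ball _ _).isPreconnected (mem_ball_self H.pos) hev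
  intro w hw
  have e := heq hw
  simp only at e
  have hne : h w ≠ 1 := by
    intro h1
    rw [h1] at e
    apply hl0
    linear_combination -e
  refine ⟨hne, ?_⟩
  have e3 : 1 - h w ≠ 0 := sub_ne_zero.mpr hne.symm
  unfold koebe
  field_simp
  linear_combination -e

theorem mul_dslope_zero {h : ℂ → ℂ} (h0 : h 0 = 0) (w : ℂ) : w * dslope h 0 w = h w := by
  have := sub_smul_dslope h 0 w
  simpa [h0] using this

theorem KExt.conj {lam η : ℂ} {h : ℂ → ℂ} (H : KExt lam η h) :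
    ∀ w ∈ ball (0 : ℂ) ‖η‖, lam * koebe (h w) = h (lam * w) := by
  intro w hw
  rw [H.eqn w hw, ← mul_assoc, mul_dslope_zero H.zero]

theorem KExt.lin {lam η : ℂ} {h : ℂ → ℂ} (H : KExt lam η h) :
    Lin (fun z => lam * koebe z) lam h ‖η‖ := by
  have hp : 0 < ‖η‖ := norm_pos_iff.mpr H.ne
  refine ⟨hp, H.diff, H.zero, H.one, ?_⟩
  filter_upwards [ball_mem_nhds (0 : ℂ) hp] with w hw
  exact H.conj w hw

theorem KExt.crit_val {lam η : ℂ} {h : ℂ → ℂ} (H : KExt lam η h) :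
    h (lam * η) = -lam / 4 := by
  rw [← mul_dslope_zero H.zero (lam * η), mul_assoc, H.crit]
  ring

/-- The functional equation in the coordinate `u = 1 / z`. -/
theorem KExt.Fu_inv {lam η : ℂ} {h : ℂ → ℂ} (H : KExt lam η h) (hl : ‖lam‖ < 1) (hl0 : lam ≠ 0)
    {w : ℂ} (hw : w ∈ ball (0 : ℂ) ‖η‖) (hw0 : w ≠ 0) :
    h w ≠ 0 ∧ Fu lam (1 / h w) = 1 / h (lam * w) := by
  have hp : 0 < ‖η‖ := norm_pos_iff.mpr H.ne
  have h0 : h w ≠ 0 := by
    intro e
    exact hw0 (H.inj hw (mem_ball_self hp) (by rw [e, H.zero]))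
  refine ⟨h0, ?_⟩
  have e3 : 1 - h w ≠ 0 := sub_ne_zero.mpr (H.ne_one w hw).symm
  rw [← H.conj w hw]
  unfold Fu koebe
  field_simp
  ring

theorem dio_of_dio2 {x γ : ℝ} (hγ : 0 ≤ γ) (H : Dio2 x γ) : Dio x γ := by
  intro m hm p
  refine le_trans ?_ (H m hm p)
  have h1 : (1 : ℝ) ≤ m := by exact_mod_cast hm
  exact div_le_div_of_nonneg_left hγ (by positivity) (pow_le_pow_right₀ h1 (by norm_num))

theorem irrational_of_dio {x γ : ℝ} (hγ : 0 < γ) (H : Dio x γ) : Irrational x := by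
  rintro ⟨q, rfl⟩
  have h1 := H q.den q.pos q.num
  have hq : (0 : ℝ) < q.den := by exact_mod_cast q.pos
  have h2 : (q.den : ℝ) * (q : ℝ) - q.num = 0 := by
    have : (q : ℝ) = q.num / q.den := by exact_mod_cast (Rat.num_div_den q).symm
    rw [this]
    field_simp
    ring
  rw [h2, abs_zero] at h1
  have : 0 < γ / (q.den : ℝ) ^ 6 := by positivity
  linarith

theorem ee_pow_ne_one {θ : ℝ} (hθ : Irrational θ) : ∀ k : ℕ, 1 ≤ k → ee θ ^ k ≠ 1 := by
  intro k hk h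
  unfold ee at h
  rw [← Complex.exp_nat_mul, Complex.exp_eq_one_iff] at h
  obtain ⟨n, hn⟩ := h
  have hpi : (2 * Real.pi * Complex.I : ℂ) ≠ 0 := Complex.two_pi_I_ne_zero
  have h1 : (k : ℂ) * θ = n := by
    apply mul_left_cancel₀ hpi
    linear_combination hn
  have h2 : (k : ℝ) * θ = n := by exact_mod_cast h1
  have hk0 : k ≠ 0 := by omega
  exact (hθ.natCast_mul hk0).ne_int n h2

theorem ee_eq (s : ℝ) : ee s = Complex.exp (Complex.I * ((2 * Real.pi * s : ℝ) : ℂ)) := by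
  unfold ee
  congr 1
  push_cast
  ring

theorem norm_ee_sub_le (s t : ℝ) : ‖ee s - ee t‖ ≤ 2 * Real.pi * |s - t| := by
  have h1 : ee s - ee t = ee t * (ee (s - t) - 1) := by
    unfold ee
    rw [mul_sub, mul_one, ← Complex.exp_add]
    congr 2
    push_cast
    ring
  rw [h1, norm_mul, norm_ee, one_mul, ee_eq]
  refine le_trans Real.norm_exp_I_mul_ofReal_sub_one_le ?_
  rw [Real.norm_eq_abs, abs_mul, abs_of_pos (by positivity : 0 < 2 * Real.pi)]

/-- Size of the resonant point `2 / (1 - lam)`. -/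
theorem norm_ustar_bounds {x r : ℝ} (hx : 100 ≤ x) (hr : 1 - 1 / x ^ 2 ≤ r) (hr1 : r ≤ 1) :
    x / 4 ≤ ‖2 / (1 - (r : ℂ) * ee (1 / x))‖ ∧ ‖2 / (1 - (r : ℂ) * ee (1 / x))‖ ≤ x / 2 := by
  have hx0 : 0 < x := by linarith
  set y : ℝ := 1 / x with hy
  have hy0 : 0 < y := by positivity
  have hy1 : y ≤ 1 / 100 := one_div_le_one_div_of_le (by norm_num) hx
  have hxy : x * y = 1 := by rw [hy]; field_simp
  have hr' : 1 - y ^ 2 ≤ r := by
    have : y ^ 2 = 1 / x ^ 2 := by rw [hy]; field_simp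
    rw [this]; exact hr
  have hpi3 := Real.pi_gt_three
  have hpi4 : Real.pi < 3.15 := Real.pi_lt_d2
  have hE : ‖ee y - 1‖ = 2 * Real.sin (Real.pi * y) := by
    rw [ee_eq, Complex.norm_exp_I_mul_ofReal_sub_one]
    have e1 : 2 * Real.pi * y / 2 = Real.pi * y := by ring
    rw [e1, Real.norm_eq_abs, abs_of_nonneg]
    have : 0 ≤ Real.sin (Real.pi * y) :=
      Real.sin_nonneg_of_nonneg_of_le_pi (by positivity) (by nlinarith)
    positivity
  have hpy0 : 0 < Real.pi * y := by positivity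
  have hpy1 : Real.pi * y ≤ 1 / 10 := by nlinarith
  have hs1 : Real.sin (Real.pi * y) ≤ Real.pi * y := Real.sin_le hpy0.le
  have hs2 := Real.sin_gt_sub_cube hpy0
  have hcube : (Real.pi * y) ^ 3 ≤ Real.pi * y * (1 / 100) := by
    have : (Real.pi * y) ^ 2 ≤ 1 / 100 := by nlinarith
    calc (Real.pi * y) ^ 3 = Real.pi * y * (Real.pi * y) ^ 2 := by ring
      _ ≤ Real.pi * y * (1 / 100) := by gcongr
  have hD : ‖(1 - (r : ℂ) * ee y) - (1 - ee y)‖ = 1 - r := by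
    have e1 : (1 - (r : ℂ) * ee y) - (1 - ee y) = ((1 - r : ℝ) : ℂ) * ee y := by
      push_cast; ring
    rw [e1, norm_mul, norm_ee, mul_one, Complex.norm_real, Real.norm_eq_abs,
      abs_of_nonneg (by linarith)]
  have hE' : ‖1 - ee y‖ = 2 * Real.sin (Real.pi * y) := by rw [norm_sub_rev, hE]
  have hab := abs_norm_sub_norm_le (1 - (r : ℂ) * ee y) (1 - ee y)
  rw [hD, hE', abs_le] at hab
  have hy2 : y ^ 2 ≤ y * (1 / 100) := by nlinarith
  have hlo : 4 * y ≤ ‖1 - (r : ℂ) * ee y‖ := by nlinarith [hab.1]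
  have hhi : ‖1 - (r : ℂ) * ee y‖ ≤ 8 * y := by nlinarith [hab.2]
  have hN : 0 < ‖1 - (r : ℂ) * ee y‖ := by linarith
  rw [norm_div, Complex.norm_ofNat]
  constructor
  · rw [le_div_iff₀ hN]
    nlinarith
  · rw [div_le_iff₀ hN]
    nlinarith

theorem norm_one_sub_le_two_mul {z : ℂ} {b : ℝ} (hz : ‖z‖ ≤ 1) (hb0 : 0 ≤ b) (hb1 : b ≤ 1) :
    ‖1 - z‖ ≤ 2 * ‖1 - (b : ℂ) * z‖ := by
  have h1 : ‖(b : ℂ) * z‖ ≤ b := by
    rw [norm_mul, Complex.norm_real, Real.norm_eq_abs, abs_of_nonneg hb0]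
    exact mul_le_of_le_one_right hb0 hz
  have h2 : 1 - b ≤ ‖1 - (b : ℂ) * z‖ := by
    have := norm_sub_norm_le (1 : ℂ) ((b : ℂ) * z)
    rw [norm_one] at this
    linarith
  have h3 : ‖((1 - b : ℝ) : ℂ) * z‖ ≤ 1 - b := by
    rw [norm_mul, Complex.norm_real, Real.norm_eq_abs, abs_of_nonneg (by linarith)]
    exact mul_le_of_le_one_right (by linarith) hz
  have h4 : 1 - z = (1 - (b : ℂ) * z) - ((1 - b : ℝ) : ℂ) * z := by push_cast; ring
  have h5 := norm_sub_le (1 - (b : ℂ) * z) (((1 - b : ℝ) : ℂ) * z)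
  rw [← h4] at h5
  linarith

end Pool.Agent.Lib.MP_102662_an
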