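import Pool.Agent.Lib.MP_102662_an.Stage2X1

open Complex Metric Set Filter Topology

namespace Pool.Agent.Lib.MP_102662_an

/-- Quantitative distance of the image from the unit circle. -/
theorem s2_inside {h : ℂ → ℂ} {ρ₅ A s d : ℝ} (hd : DifferentiableOn ℂ h (ball 0 ρ₅))
    (hi : InjOn h (ball 0 ρ₅)) (h0 : h 0 = 0) (hb : ∀ w ∈ ball (0 : ℂ) ρ₅, ‖h w‖ ≤ 1)
    (hst : ∀ w : ℂ, ‖w‖ ≤ ρ₅ → w ≠ 0 → ‖h w‖ ^ 2 ≤ A * (‖w‖ ^ 2 * ‖deriv h w‖))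
    (hρ : 0 < ρ₅) (hs : 0 < s) (hA : 0 ≤ A) (hd0 : 0 ≤ d) (hd1 : d ≤ 1 / 4)
    (hnum : 32 * d * A * ρ₅ ≤ s) {w : ℂ} (hw : ‖w‖ < ρ₅ * (1 - s)) : ‖h w‖ ≤ 1 - 2 * d := by
  by_cases hz : ‖h w‖ ≤ 1 / 2
  · linarith
  push Not at hz
  have hw5 : ‖w‖ < ρ₅ := by nlinarith
  have hw0 : w ≠ 0 := by
    rintro rfl
    rw [h0, norm_zero] at hz
    linarith
  have k1 := s2_dist hd hi hb hw5
  have k2 := hst w hw5.le hw0
  set D : ℝ := ‖deriv h w‖ with hD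
  have hD0 : 0 ≤ D := norm_nonneg _
  have k3 : 1 / 4 ≤ A * (ρ₅ ^ 2 * D) := by
    calc (1 / 4 : ℝ) = (1 / 2) ^ 2 := by norm_num
      _ ≤ ‖h w‖ ^ 2 := by gcongr
      _ ≤ A * (‖w‖ ^ 2 * D) := k2
      _ ≤ A * (ρ₅ ^ 2 * D) := by gcongr
  have k4 : ρ₅ * s * D ≤ 4 * (1 - ‖h w‖) := by
    refine le_trans ?_ k1
    gcongr
    linarith
  have k5 : 8 * d ≤ ρ₅ * s * D := by
    calc 8 * d = 32 * d * (1 / 4) := by ring
      _ ≤ 32 * d * (A * (ρ₅ ^ 2 * D)) := by gcongr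
      _ = (32 * d * A * ρ₅) * (ρ₅ * D) := by ring
      _ ≤ s * (ρ₅ * D) := by gcongr
      _ = ρ₅ * s * D := by ring
  linarith

/-- Pointwise closeness of the perturbed map to the unperturbed one. -/
theorem s2_point {g h : ℂ → ℂ} {lam : ℂ} {ρ₄ ρ₅ A d e : ℝ} (hg : Schlicht g) (hl : ‖lam‖ = 1)
    (hL : Lin (fun z => lam * koebe z) lam h ρ₄) (h54 : ρ₅ ≤ ρ₄)
    (hb : ∀ w ∈ ball (0 : ℂ) ρ₅, ‖h w‖ ≤ 1)
    (hst : ∀ w : ℂ, ‖w‖ ≤ ρ₅ → w ≠ 0 → ‖h w‖ ^ 2 ≤ A * (‖w‖ ^ 2 * ‖deriv h w‖))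
    (hd : 0 < d) (he : Real.sqrt (1 - ‖a2 g‖ ^ 2 / 4) ≤ e) (hc : 1 / 2 ≤ ‖a2 g / 2‖)
    (hsmall : 20 * e ≤ d) {w : ℂ} (hw : ‖w‖ < ρ₅) (hz : ‖h w‖ + d ≤ ‖a2 g / 2‖) :
    ‖lam * (a2 g / 2 * g (h w / (a2 g / 2))) - h (lam * w)‖ ≤
      20 * e * ‖h w‖ / d * A * ‖w‖ * ‖w‖ * ‖deriv h (lam * w)‖ := by
  have hl0 : lam ≠ 0 := by
    rw [← norm_pos_iff, hl]; exact one_pos
  have he0 : 0 ≤ e := le_trans (Real.sqrt_nonneg _) he
  by_cases hw0 : w = 0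
  · subst hw0
    simp [hL.zero, hg.zero]
  have hglob := (lin_koebe_global hl.le hl0 hL w (mem_ball_zero_iff.2 (by linarith))).2
  have hlw : ‖lam * w‖ = ‖w‖ := by rw [norm_mul, hl, one_mul]
  have hKn : ‖koebe (h w)‖ = ‖h (lam * w)‖ := by
    rw [← hglob, norm_mul, hl, one_mul]
  have hK1 : ‖koebe (h w)‖ ≤ 1 := by
    rw [hKn]
    exact hb _ (mem_ball_zero_iff.2 (by rw [hlw]; exact hw))
  have k1 := s2_close hg hd he hc hz hK1 hsmall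
  have k2 := hst (lam * w) (by rw [hlw]; exact hw.le) (mul_ne_zero hl0 hw0)
  rw [hlw] at k2
  rw [← hglob, ← mul_sub, norm_mul, hl, one_mul]
  refine le_trans k1 ?_
  rw [hKn]
  calc 20 * e * ‖h w‖ / d * ‖h (lam * w)‖ ^ 2
      ≤ 20 * e * ‖h w‖ / d * (A * (‖w‖ ^ 2 * ‖deriv h (lam * w)‖)) := by gcongr
    _ = _ := by ring

/-- Analytic properties of the perturbed map. -/
theorem s2_y {g h : ℂ → ℂ} {lam c : ℂ} {ρ : ℝ} (hg : Schlicht g) (hρ : 0 < ρ)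
    (hd : DifferentiableOn ℂ h (ball 0 ρ)) (h0 : h 0 = 0) (h1 : deriv h 0 = 1) (hc : c ≠ 0)
    (hz : ∀ w ∈ ball (0 : ℂ) ρ, ‖h w‖ < ‖c‖) :
    DifferentiableOn ℂ (fun w => lam * (c * g (h w / c))) (ball 0 ρ) ∧
      deriv (fun w => lam * (c * g (h w / c))) 0 = lam := by
  have hcpos : 0 < ‖c‖ := norm_pos_iff.2 hc
  constructor
  · refine DifferentiableOn.const_mul (DifferentiableOn.const_mul ?_ c) lam
    refine hg.diff.comp (hd.div_const c) ?_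
    intro w hw
    rw [mem_ball_zero_iff, norm_div, div_lt_one hcpos]
    exact hz w hw
  · have a1 : HasDerivAt h 1 0 := by
      rw [← h1]
      exact (hd.differentiableAt (ball_mem_nhds _ hρ)).hasDerivAt
    have a2 : HasDerivAt g 1 (h 0 / c) := by
      rw [h0, zero_div, ← hg.one]
      exact (hg.diff.differentiableAt (ball_mem_nhds _ one_pos)).hasDerivAt
    have a3 := ((a2.comp (0 : ℂ) (a1.div_const c)).const_mul c).const_mul lam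
    have a4 : lam * (c * (1 * (1 / c))) = lam := by field_simp
    rw [a4] at a3
    exact a3.deriv

/-- Undoing the rescaling. -/
theorem s2_final {g h k : ℂ → ℂ} {lam c : ℂ} {ρ₂ ρ ρ' : ℝ} (hρ' : 0 < ρ') (hle : ρ' ≤ ρ)
    (hd : DifferentiableOn ℂ h (ball 0 ρ₂)) (h0 : h 0 = 0) (h1 : deriv h 0 = 1) (hc : c ≠ 0)
    (hc1 : ‖c‖ ≤ 1) (hk : DifferentiableOn ℂ k (ball 0 ρ)) (hk0 : k 0 = 0) (hk1 : deriv k 0 = 1)
    (hkm : ∀ w ∈ ball (0 : ℂ) ρ, k w ∈ ball (0 : ℂ) ρ₂)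
    (heq : ∀ w ∈ ball (0 : ℂ) ρ, lam * (c * g (h (k w) / c)) = h (k (lam * w))) :
    Lin (fun z => lam * g z) lam (fun w => h (k (c * w)) / c) ρ' := by
  have hρ : 0 < ρ := lt_of_lt_of_le hρ' hle
  have hmap : ∀ w ∈ ball (0 : ℂ) ρ', c * w ∈ ball (0 : ℂ) ρ := by
    intro w hw
    rw [mem_ball_zero_iff] at hw ⊢
    rw [norm_mul]
    nlinarith [norm_nonneg w, norm_nonneg c]
  have hρ₂ : 0 < ρ₂ := by
    have := hkm 0 (mem_ball_self hρ)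
    rw [hk0, mem_ball_zero_iff, norm_zero] at this
    exact this
  refine ⟨hρ', ?_, by simp [hk0, h0], ?_, ?_⟩
  · refine DifferentiableOn.div_const ?_ c
    refine hd.comp (hk.comp (differentiable_id.const_mul c).differentiableOn hmap) ?_
    intro w hw
    exact hkm _ (hmap w hw)
  · have a0 : HasDerivAt (fun w : ℂ => c * w) c 0 := by
      simpa using (hasDerivAt_id (0 : ℂ)).const_mul c
    have a1 : HasDerivAt k 1 (c * 0) := by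
      rw [mul_zero, ← hk1]
      exact (hk.differentiableAt (ball_mem_nhds _ hρ)).hasDerivAt
    have a2 : HasDerivAt h 1 (k (c * 0)) := by
      rw [mul_zero, hk0, ← h1]
      exact (hd.differentiableAt (ball_mem_nhds _ hρ₂)).hasDerivAt
    have a3 := (a2.comp (0 : ℂ) (a1.comp (0 : ℂ) a0)).div_const c
    have a4 : 1 * (1 * c) / c = 1 := by field_simp
    rw [a4] at a3
    exact a3.deriv
  · filter_upwards [ball_mem_nhds (0 : ℂ) hρ'] with w hw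
    have e1 := heq _ (hmap w hw)
    have e2 : c * (lam * w) = lam * (c * w) := by ring
    rw [e2, ← e1]
    field_simp

end Pool.Agent.Lib.MP_102662_an
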