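import Pool.Agent.Lib.MP_102662_an.Defs

open Complex Metric Set Filter Topology

namespace Pool.Agent.Lib.MP_102662_an

theorem s2_eps {P η ε₀ : ℝ} (hP : 1 ≤ P) (hη : 0 < η) (hη1 : η ≤ 1)
    (hε : ε₀ * P ^ 200 ≤ η ^ 20) : ε₀ ≤ η / P ^ 31 := by
  have h1 : ε₀ ≤ η ^ 20 / P ^ 200 := by
    rw [le_div_iff₀ (by positivity)]; exact hε
  refine le_trans h1 ?_
  have h2 : η ^ 20 ≤ η := by
    calc η ^ 20 ≤ η ^ 1 := pow_le_pow_of_le_one hη.le hη1 (by norm_num)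
      _ = η := pow_one _
  have h3 : P ^ 31 ≤ P ^ 200 := pow_le_pow_right₀ hP (by norm_num)
  gcongr

theorem s2_sqrt {P η ε₀ a : ℝ} (hP : 1 ≤ P) (hη : 0 < η) (hε0 : 0 ≤ ε₀) (hε1 : ε₀ ≤ 1)
    (hε : ε₀ * P ^ 200 ≤ η ^ 20) (ha : 2 * (1 - ε₀) ≤ a) :
    Real.sqrt (1 - a ^ 2 / 4) ≤ 2 * η ^ 10 / P ^ 100 := by
  have h1 : ε₀ ≤ η ^ 20 / P ^ 200 := by
    rw [le_div_iff₀ (by positivity)]; exact hε
  apply Real.sqrt_le_iff.2
  refine ⟨by positivity, ?_⟩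
  have h2 : (2 * (1 - ε₀)) ^ 2 ≤ a ^ 2 := by
    have : 0 ≤ 2 * (1 - ε₀) := by linarith
    gcongr
  have h3 : (2 * η ^ 10 / P ^ 100) ^ 2 = 4 * (η ^ 20 / P ^ 200) := by
    field_simp
    norm_num
  rw [h3]
  nlinarith

theorem s2_small {P η : ℝ} (hP : 40 ≤ P) (hη : 0 < η) (hη1 : η ≤ 1) :
    20 * (2 * η ^ 10 / P ^ 100) ≤ η / P ^ 31 := by
  have hP1 : 1 ≤ P := by linarith
  have h2 : η ^ 10 ≤ η := by
    calc η ^ 10 ≤ η ^ 1 := pow_le_pow_of_le_one hη.le hη1 (by norm_num)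
      _ = η := pow_one _
  have h3 : P ^ 32 ≤ P ^ 100 := pow_le_pow_right₀ hP1 (by norm_num)
  calc 20 * (2 * η ^ 10 / P ^ 100) = 40 * η ^ 10 / P ^ 100 := by ring
    _ ≤ P * η / P ^ 32 := by gcongr
    _ = η / P ^ 31 := by field_simp

/-- The common factor of the two smallness constants. -/
theorem s2_factor {P η : ℝ} (hP : 0 < P) (hη : 0 < η) (t : ℝ) :
    20 * (2 * η ^ 10 / P ^ 100) * t / (η / P ^ 31) * P ^ 30 = 40 * η ^ 9 / P ^ 39 * t := by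
  field_simp
  ring

theorem s2_beta {P η x t u : ℝ} (hP : 64000 ≤ P) (hη : 0 < η) (hη1 : η ≤ 1) (hx : 0 < x)
    (ht0 : 0 ≤ t) (ht : t ≤ 1) (hu0 : 0 ≤ u) (hu : u ≤ 8 / x) :
    40 * η ^ 9 / P ^ 39 * t * u ≤ η / (200 * x) := by
  have hP1 : 1 ≤ P := by linarith
  have h2 : η ^ 9 ≤ η := by
    calc η ^ 9 ≤ η ^ 1 := pow_le_pow_of_le_one hη.le hη1 (by norm_num)
      _ = η := pow_one _
  have h3 : 64000 ≤ P ^ 39 := by
    calc (64000 : ℝ) ≤ P ^ 1 := by rw [pow_one]; exact hP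
      _ ≤ P ^ 39 := pow_le_pow_right₀ hP1 (by norm_num)
  calc 40 * η ^ 9 / P ^ 39 * t * u ≤ 40 * η / 64000 * 1 * (8 / x) := by gcongr
    _ = η / (200 * x) := by field_simp; norm_num

theorem s2_nu {P η x t u m : ℝ} (hP : 0 < P) (hη : 0 < η) (hx : 0 < x) (hm : 0 < m)
    (ht : t * m ≤ 32 * P ^ 30 * u) (hu0 : 0 ≤ u) (hu : u ≤ 8 / x) :
    40 * η ^ 9 / P ^ 39 * t * u ≤ 81920 * η ^ 9 / (P ^ 9 * x ^ 2) / m := by
  rw [le_div_iff₀ hm]
  calc 40 * η ^ 9 / P ^ 39 * t * u * m = 40 * η ^ 9 / P ^ 39 * (t * m) * u := by ring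
    _ ≤ 40 * η ^ 9 / P ^ 39 * (32 * P ^ 30 * u) * u := by gcongr
    _ ≤ 40 * η ^ 9 / P ^ 39 * (32 * P ^ 30 * (8 / x)) * (8 / x) := by gcongr
    _ = 81920 * η ^ 9 / (P ^ 9 * x ^ 2) := by field_simp; norm_num

theorem s2_cond {P η x C Cd : ℝ} (hC : 1 ≤ C) (hCd : 1 ≤ Cd) (hP : 163840 * C * Cd ≤ P)
    (hη : 0 < η) (hη1 : η ≤ 1) (hx : 1 ≤ x) (hlog : 1 + Real.log x ≤ P) :
    C * (81920 * η ^ 9 / (P ^ 9 * x ^ 2)) * (1 + Real.log (1 / (η / x))) *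
      (Cd * x * (1 + Real.log x) / (1 / P) * max 1 ((1 / (x * (η / x))) ^ 7)) ≤ η / x := by
  have hx0 : 0 < x := by linarith
  have hCC : 1 ≤ C * Cd := one_le_mul_of_one_le_of_one_le hC hCd
  have hP1 : 1 ≤ P := by nlinarith
  have hP0 : 0 < P := by linarith
  have hlx : 0 ≤ Real.log x := Real.log_nonneg hx
  have hinv : 1 ≤ 1 / η := by rw [le_div_iff₀ hη]; linarith
  have e1 : 1 / (x * (η / x)) = 1 / η := by field_simp
  have e2 : max 1 ((1 / η) ^ 7) = (1 / η) ^ 7 := max_eq_right (one_le_pow₀ hinv)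
  have e3 : 1 + Real.log (1 / (η / x)) ≤ 2 * P / η := by
    have h1 : 1 / (η / x) = x * (1 / η) := by field_simp
    rw [h1, Real.log_mul hx0.ne' (by positivity)]
    have h2 : Real.log (1 / η) ≤ 1 / η := by
      have := Real.log_le_sub_one_of_pos (show 0 < 1 / η by positivity)
      linarith
    have h3 : P ≤ P * (1 / η) := le_mul_of_one_le_right hP0.le hinv
    have h4 : 1 / η ≤ P * (1 / η) := le_mul_of_one_le_left (by positivity) hP1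
    have h5 : 2 * P / η = 2 * (P * (1 / η)) := by ring
    linarith
  have h6 : 163840 * C * Cd ≤ P ^ 6 := by
    calc 163840 * C * Cd ≤ P ^ 1 := by rw [pow_one]; exact hP
      _ ≤ P ^ 6 := pow_le_pow_right₀ hP1 (by norm_num)
  rw [e1, e2]
  calc C * (81920 * η ^ 9 / (P ^ 9 * x ^ 2)) * (1 + Real.log (1 / (η / x))) *
        (Cd * x * (1 + Real.log x) / (1 / P) * (1 / η) ^ 7)
      ≤ C * (81920 * η ^ 9 / (P ^ 9 * x ^ 2)) * (2 * P / η) *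
        (Cd * x * P / (1 / P) * (1 / η) ^ 7) := by gcongr
    _ = (163840 * C * Cd) / P ^ 6 * (η / x) := by field_simp; norm_num
    _ ≤ 1 * (η / x) := by
        gcongr
        rw [div_le_one (by positivity)]
        exact h6
    _ = η / x := one_mul _

theorem s2_radius {ρ s : ℝ} (hρ : 0 < ρ) (hs : 0 ≤ s) (hs1 : s ≤ 1) :
    ρ * (1 - 7 * s) ≤ ρ * (1 - s) * Real.exp (-(5 * s)) := by
  have h1 : 1 - 5 * s ≤ Real.exp (-(5 * s)) := by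
    have := Real.add_one_le_exp (-(5 * s))
    linarith
  rw [mul_assoc]
  gcongr
  have h2 : (1 - s) * (1 - 5 * s) ≤ (1 - s) * Real.exp (-(5 * s)) := by
    gcongr
  nlinarith

end Pool.Agent.Lib.MP_102662_an
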