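import Pool.Agent.Lib.MP_102662_an.Basic

open Complex Metric Set Filter Topology

namespace Pool.Agent.Lib.MP_102662_an

theorem div_ee_lower (t : ℝ) : 4 * |t - round t| ≤ ‖ee t - 1‖ := by
  have h1 : ee t = Complex.exp (I * ((2 * Real.pi * (t - round t) : ℝ) : ℂ)) := by
    have h2 : (2 * Real.pi * Complex.I * t : ℂ)
        = I * ((2 * Real.pi * (t - round t) : ℝ) : ℂ)
          + ((round t : ℤ) : ℂ) * (2 * Real.pi * I) := by
      push_cast; ring
    rw [ee, h2, Complex.exp_add, Complex.exp_int_mul_two_pi_mul_I, mul_one]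
  rw [h1, Complex.norm_exp_I_mul_ofReal_sub_one, Real.norm_eq_abs, abs_mul]
  have hp := Real.pi_pos
  have h3 : 2 * Real.pi * (t - round t) / 2 = Real.pi * (t - round t) := by ring
  rw [h3]
  have h4 : |Real.pi * (t - round t)| ≤ Real.pi / 2 := by
    rw [abs_mul, abs_of_pos hp]
    have := abs_sub_round t
    nlinarith
  have h5 := Real.mul_abs_le_abs_sin h4
  rw [abs_mul, abs_of_pos hp] at h5
  have h6 : 2 / Real.pi * (Real.pi * |t - round t|) = 2 * |t - round t| := by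
    field_simp
  rw [h6] at h5
  rw [abs_of_pos (by norm_num : (0 : ℝ) < 2)]
  linarith

theorem div_ee_pow (t : ℝ) (k : ℕ) : ee t ^ k = ee (k * t) := by
  rw [ee, ee, ← Complex.exp_nat_mul]
  congr 1
  push_cast; ring

theorem div_lam_lower {x r : ℝ} (hx : 0 < x) (hr0 : 0 ≤ r) (hr1 : r ≤ 1) (k : ℕ) :
    2 / x * |(k : ℝ) - (round ((k : ℝ) / x) : ℝ) * x| ≤ ‖((r : ℂ) * ee (1 / x)) ^ k - 1‖ := by
  have h1 := div_ee_lower ((k : ℝ) / x)
  have h2 : ‖1 - ee ((k : ℝ) / x)‖ ≤ 2 * ‖1 - ((r ^ k : ℝ) : ℂ) * ee ((k : ℝ) / x)‖ :=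
    norm_one_sub_le_two_mul (le_of_eq (norm_ee _)) (pow_nonneg hr0 k) (pow_le_one₀ hr0 hr1)
  have h3 : ((r : ℂ) * ee (1 / x)) ^ k = ((r ^ k : ℝ) : ℂ) * ee ((k : ℝ) / x) := by
    rw [mul_pow, div_ee_pow]
    push_cast
    congr 2
    ring
  rw [h3, norm_sub_rev]
  rw [norm_sub_rev] at h1
  have h4 : (k : ℝ) / x - round ((k : ℝ) / x)
      = ((k : ℝ) - (round ((k : ℝ) / x) : ℝ) * x) / x := by
    field_simp
  rw [h4, abs_div, abs_of_pos hx] at h1
  have h5 : 2 / x * |(k : ℝ) - (round ((k : ℝ) / x) : ℝ) * x|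
      = 2 * (|(k : ℝ) - (round ((k : ℝ) / x) : ℝ) * x| / x) := by ring
  rw [h5]
  linarith

theorem div_geom {a : ℝ} (ha : 0 < a) (n : ℕ) :
    ∑ m ∈ Finset.range n, Real.exp (-((m : ℝ) * a)) ≤ (1 + a) / a := by
  have h0 : Real.exp (-a) < 1 := by
    rw [← Real.exp_zero]; exact Real.exp_lt_exp.mpr (by linarith)
  have h1 : ∑ m ∈ Finset.range n, Real.exp (-a) ^ m ≤ (1 - Real.exp (-a))⁻¹ := by
    have h := geom_sum_Ico_le_of_lt_one (m := 0) (n := n) (Real.exp_pos (-a)).le h0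
    rwa [pow_zero, one_div, ← Finset.range_eq_Ico] at h
  have h2 : ∑ m ∈ Finset.range n, Real.exp (-((m : ℝ) * a))
      = ∑ m ∈ Finset.range n, Real.exp (-a) ^ m := by
    refine Finset.sum_congr rfl fun m _ => ?_
    rw [← Real.exp_nat_mul]; congr 1; ring
  rw [h2]
  refine h1.trans ?_
  have h3 : Real.exp (-a) ≤ 1 / (1 + a) := by
    rw [Real.exp_neg, one_div]
    exact inv_anti₀ (by linarith) (by have := Real.add_one_le_exp a; linarith)
  have h4 : a / (1 + a) ≤ 1 - Real.exp (-a) := by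
    have : a / (1 + a) = 1 - 1 / (1 + a) := by field_simp; ring
    rw [this]; linarith
  have h5 : (1 + a) / a = (a / (1 + a))⁻¹ := by rw [inv_div]
  rw [h5]
  exact inv_anti₀ (by positivity) h4

theorem div_poly_geom {a : ℝ} (ha : 0 < a) (ha1 : a ≤ 1) (n : ℕ) :
    ∑ m ∈ Finset.range n, ((m : ℝ) + 1) ^ 6 * Real.exp (-((m : ℝ) * (a / 2)))
      ≤ 50000000 * (1 / a) ^ 7 := by
  have hb : 0 < a / 4 := by positivity
  have h1 : ∀ m : ℕ, ((m : ℝ) + 1) ^ 6 * Real.exp (-((m : ℝ) * (a / 2)))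
      ≤ (2 * 720 * (4 / a) ^ 6) * Real.exp (-((m : ℝ) * (a / 4))) := by
    intro m
    have h2 := Real.pow_div_factorial_le_exp (((m : ℝ) + 1) * (a / 4)) (by positivity) 6
    have h3 : ((Nat.factorial 6 : ℕ) : ℝ) = 720 := by norm_num [Nat.factorial]
    rw [h3, div_le_iff₀ (by norm_num)] at h2
    have h4 : Real.exp (((m : ℝ) + 1) * (a / 4))
        = Real.exp ((m : ℝ) * (a / 4)) * Real.exp (a / 4) := by
      rw [← Real.exp_add]; congr 1; ring
    have h5 : Real.exp (a / 4) ≤ 2 := by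
      have h6 : Real.exp (a / 4) ≤ Real.exp (1 / 2) := Real.exp_le_exp.mpr (by linarith)
      have h7 : Real.exp (1 / 2) * Real.exp (1 / 2) = Real.exp 1 := by
        rw [← Real.exp_add]; norm_num
      have h8 := Real.exp_one_lt_d9
      have h9 := Real.exp_pos (1 / 2)
      nlinarith
    have h10 : ((m : ℝ) + 1) ^ 6 ≤ (2 * 720 * (4 / a) ^ 6) * Real.exp ((m : ℝ) * (a / 4)) := by
      have h11 : ((m : ℝ) + 1) ^ 6 = (((m : ℝ) + 1) * (a / 4)) ^ 6 * (4 / a) ^ 6 := by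
        rw [← mul_pow]; congr 1; field_simp
      rw [h11]
      have h12 : (((m : ℝ) + 1) * (a / 4)) ^ 6 ≤ Real.exp ((m : ℝ) * (a / 4)) * 2 * 720 := by
        refine h2.trans ?_
        rw [h4]
        have := Real.exp_pos ((m : ℝ) * (a / 4))
        gcongr
      calc (((m : ℝ) + 1) * (a / 4)) ^ 6 * (4 / a) ^ 6
          ≤ (Real.exp ((m : ℝ) * (a / 4)) * 2 * 720) * (4 / a) ^ 6 := by gcongr
        _ = _ := by ring
    have h13 : Real.exp (-((m : ℝ) * (a / 4)))
        = Real.exp ((m : ℝ) * (a / 4)) * Real.exp (-((m : ℝ) * (a / 2))) := by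
      rw [← Real.exp_add]; congr 1; ring
    rw [h13, ← mul_assoc]
    exact mul_le_mul_of_nonneg_right h10 (Real.exp_pos _).le
  refine (Finset.sum_le_sum fun m _ => h1 m).trans ?_
  rw [← Finset.mul_sum]
  have h14 := div_geom hb n
  have h15 : (1 + a / 4) / (a / 4) ≤ 5 * (1 / a) := by
    rw [div_le_iff₀ hb]
    have : 5 * (1 / a) * (a / 4) = 5 / 4 := by field_simp
    rw [this]; linarith
  calc 2 * 720 * (4 / a) ^ 6 * ∑ m ∈ Finset.range n, Real.exp (-((m : ℝ) * (a / 4)))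
      ≤ 2 * 720 * (4 / a) ^ 6 * (5 * (1 / a)) := by
        gcongr
        exact h14.trans h15
    _ = 29491200 * (1 / a) ^ 7 := by ring
    _ ≤ 50000000 * (1 / a) ^ 7 := by gcongr; norm_num

theorem div_harm (N : ℕ) :
    ∑ i ∈ Finset.Icc (-(N : ℤ)) N, 1 / (|(i : ℝ)| + 1) ≤ 2 * (1 + Real.log (N + 1)) := by
  have h1 : ∑ i ∈ Finset.Icc (-(N : ℤ)) N, 1 / (|(i : ℝ)| + 1)
      ≤ 2 * ((harmonic (N + 1) : ℚ) : ℝ) := by
    induction N with
    | zero => simp [harmonic]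
    | succ n ih =>
      have h2 : Finset.Icc (-((n + 1 : ℕ) : ℤ)) ((n + 1 : ℕ) : ℤ)
          = insert (-((n + 1 : ℕ) : ℤ)) (insert ((n + 1 : ℕ) : ℤ)
            (Finset.Icc (-(n : ℤ)) n)) := by
        ext i
        simp only [Finset.mem_Icc, Finset.mem_insert]
        push_cast
        omega
      rw [h2, Finset.sum_insert, Finset.sum_insert, harmonic_succ (n + 1)]
      · push_cast
        rw [abs_neg, abs_of_nonneg (by positivity : (0 : ℝ) ≤ (n : ℝ) + 1)]
        rw [one_div]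
        linarith
      · simp only [Finset.mem_Icc]; push_cast; omega
      · simp only [Finset.mem_Icc, Finset.mem_insert]; push_cast; omega
  have h3 := harmonic_le_one_add_log (N + 1)
  push_cast at h3
  linarith

/-- The pointwise estimate of one small divisor. -/
theorem div_point {x γ : ℝ} (hx : 2 ≤ x) (hγ : 0 < γ) (hγ1 : γ ≤ 1) (H : Dio x γ) {k : ℕ}
    (hk : 1 ≤ k) :
    ∃ m : ℕ, (round ((k : ℝ) / x) : ℝ) = m ∧ (m : ℝ) * x / 2 ≤ k ∧ m ≤ k ∧
      |(k : ℝ) - m * x| ≤ x / 2 ∧ γ / ((m : ℝ) + 1) ^ 6 ≤ |(k : ℝ) - m * x| := by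
  have hx0 : 0 < x := by linarith
  have hk1 : (1 : ℝ) ≤ k := by exact_mod_cast hk
  have h0 : 0 ≤ round ((k : ℝ) / x) := by
    rw [round_eq]
    exact Int.floor_nonneg.mpr (by positivity)
  obtain ⟨m, hm⟩ := Int.eq_ofNat_of_zero_le h0
  have hm' : (round ((k : ℝ) / x) : ℝ) = m := by rw [hm]; simp
  have h1 := abs_sub_round ((k : ℝ) / x)
  rw [hm'] at h1
  have h2 : |(k : ℝ) - m * x| ≤ x / 2 := by
    have h3 : (k : ℝ) - m * x = ((k : ℝ) / x - m) * x := by field_simp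
    rw [h3, abs_mul, abs_of_pos hx0]
    nlinarith
  have h4 : (m : ℝ) * x / 2 ≤ k := by
    rcases Nat.eq_zero_or_pos m with h | h
    · rw [h]; simp
    · have h5 : (1 : ℝ) ≤ m := by exact_mod_cast h
      have h6 := (abs_le.mp h2).1
      nlinarith
  refine ⟨m, hm', h4, ?_, h2, ?_⟩
  · have h7 : (m : ℝ) ≤ k := by
      have : (0 : ℝ) ≤ m := by positivity
      nlinarith
    exact_mod_cast h7
  · rcases Nat.eq_zero_or_pos m with h | h
    · rw [h]
      simp only [Nat.cast_zero, zero_add, one_pow, div_one, zero_mul, sub_zero]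
      rw [abs_of_pos (by linarith)]
      linarith
    · have h8 := H m h (k : ℤ)
      rw [abs_sub_comm]
      have h5 : (1 : ℝ) ≤ m := by exact_mod_cast h
      refine le_trans ?_ (by simpa using h8)
      gcongr
      linarith

theorem div_sum {x γ r s : ℝ} (hx : 2 ≤ x) (hγ : 0 < γ) (hγ1 : γ ≤ 1) (H : Dio x γ)
    (hr0 : 0 ≤ r) (hr1 : r ≤ 1) (hs : 0 < s) (n : ℕ) :
    ∑ k ∈ Finset.range n,
      Real.exp (-(((k : ℝ) + 1) * s)) / ‖((r : ℂ) * ee (1 / x)) ^ (k + 1) - 1‖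
      ≤ 300000000 * x * (1 + Real.log x) / γ * max 1 ((1 / (x * s)) ^ 7) := by
  classical
  have hx0 : 0 < x := by linarith
  set a : ℝ := min (x * s) 1 with ha
  have ha0 : 0 < a := lt_min (by positivity) one_pos
  have ha1 : a ≤ 1 := min_le_right _ _
  have ha2 : a ≤ x * s := min_le_left _ _
  set N : ℕ := ⌊x⌋₊ with hN
  choose! M hM1 hM2 hM3 hM4 hM5 using fun k (hk : 1 ≤ k) => div_point hx hγ hγ1 H hk
  let e : ℕ → ℕ × ℤ := fun k => (M (k + 1), ((k + 1 : ℕ) : ℤ) - ⌊(M (k + 1) : ℝ) * x⌋)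
  let F : ℕ × ℤ → ℝ := fun p =>
    (3 * x / (2 * γ)) * (((p.1 : ℝ) + 1) ^ 6 * Real.exp (-((p.1 : ℝ) * (a / 2))))
      * (1 / (|(p.2 : ℝ)| + 1))
  have hF0 : ∀ p, 0 ≤ F p := fun p => by positivity
  have hi : ∀ k : ℕ, |((e k).2 : ℝ)| ≤ |((k + 1 : ℕ) : ℝ) - M (k + 1) * x| + 1 := by
    intro k
    have h1 := Int.floor_le ((M (k + 1) : ℝ) * x)
    have h2 := Int.lt_floor_add_one ((M (k + 1) : ℝ) * x)
    have h3 : ((e k).2 : ℝ) = ((k + 1 : ℕ) : ℝ) - (⌊(M (k + 1) : ℝ) * x⌋ : ℝ) := by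
      simp only [e]; push_cast; ring
    rw [h3, abs_le]
    have h4 := le_abs_self (((k + 1 : ℕ) : ℝ) - M (k + 1) * x)
    have h5 := neg_abs_le (((k + 1 : ℕ) : ℝ) - M (k + 1) * x)
    constructor <;> linarith
  have hterm : ∀ k : ℕ,
      Real.exp (-(((k : ℝ) + 1) * s)) / ‖((r : ℂ) * ee (1 / x)) ^ (k + 1) - 1‖ ≤ F (e k) := by
    intro k
    have hk : 1 ≤ k + 1 := Nat.le_add_left 1 k
    have h1 := div_lam_lower hx0 hr0 hr1 (k + 1)
    rw [hM1 _ hk] at h1
    have h2 := hM2 _ hk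
    have h5 := hM5 _ hk
    have h6 := hi k
    set m : ℕ := M (k + 1) with hm
    set d : ℝ := |((k + 1 : ℕ) : ℝ) - m * x| with hd
    set i : ℝ := |((e k).2 : ℝ)| with hi'
    have hi0 : 0 ≤ i := abs_nonneg _
    have hP : (1 : ℝ) ≤ ((m : ℝ) + 1) ^ 6 := one_le_pow₀ (by have : (0 : ℝ) ≤ m := by positivity
                                                             linarith)
    set P : ℝ := ((m : ℝ) + 1) ^ 6 with hPd
    have hd0 : 0 < d := lt_of_lt_of_le (by positivity) h5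
    have h7 : γ ≤ d * P := by rwa [div_le_iff₀ (by linarith)] at h5
    have h8 : γ * (i + 1) ≤ 3 * (d * P) := by
      have h9 : γ * d ≤ d * P := by nlinarith
      nlinarith
    have h10 : Real.exp (-(((k : ℝ) + 1) * s)) ≤ Real.exp (-((m : ℝ) * (a / 2))) := by
      apply Real.exp_le_exp.mpr
      push_cast at h2
      have h11 : (m : ℝ) * (a / 2) ≤ (m : ℝ) * (x * s / 2) := by gcongr
      nlinarith
    have h12 : F (e k) = Real.exp (-((m : ℝ) * (a / 2))) * (3 * x * P / (2 * γ * (i + 1))) := by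
      simp only [F, e, ← hm, ← hPd]
      rw [hi']
      simp only [e, ← hm]
      field_simp
    rw [h12, div_eq_mul_one_div]
    refine mul_le_mul h10 ?_ (by positivity) (Real.exp_pos _).le
    have h13 : 0 < 2 / x * d := by positivity
    refine (one_div_le_one_div_of_le h13 h1).trans ?_
    rw [div_le_div_iff₀ h13 (by positivity)]
    have h14 : 3 * x * P * (2 / x * d) = 2 * (3 * (d * P)) := by field_simp
    rw [h14]
    linarith
  have hinj : Set.InjOn e (Finset.range n : Set ℕ) := by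
    intro k _ l _ hkl
    simp only [e, Prod.mk.injEq] at hkl
    obtain ⟨h1, h2⟩ := hkl
    rw [h1] at h2
    push_cast at h2
    omega
  have hsub : (Finset.range n).image e
      ⊆ Finset.range (n + 1) ×ˢ Finset.Icc (-(N : ℤ)) N := by
    intro p hp
    obtain ⟨k, hk, rfl⟩ := Finset.mem_image.mp hp
    have hk1 : 1 ≤ k + 1 := Nat.le_add_left 1 k
    have hkn := Finset.mem_range.mp hk
    refine Finset.mem_product.mpr ⟨Finset.mem_range.mpr ?_, ?_⟩
    · have := hM3 _ hk1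
      simp only [e]; omega
    · have h1 := hi k
      have h2 := hM4 _ hk1
      have h3 : |((e k).2 : ℝ)| ≤ x := by linarith
      have h4 : x < (N : ℝ) + 1 := Nat.lt_floor_add_one x
      have h5 : |(e k).2| < (N : ℤ) + 1 := by
        have : ((|(e k).2| : ℤ) : ℝ) < (((N : ℤ) + 1 : ℤ) : ℝ) := by
          push_cast; linarith
        exact_mod_cast this
      rw [Finset.mem_Icc]
      have := abs_lt.mp h5
      omega
  have hlog : 0 ≤ Real.log x := Real.log_nonneg (by linarith)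
  have hH : ∑ i ∈ Finset.Icc (-(N : ℤ)) N, 1 / (|(i : ℝ)| + 1) ≤ 4 * (1 + Real.log x) := by
    refine (div_harm N).trans ?_
    have h1 : (N : ℝ) ≤ x := Nat.floor_le hx0.le
    have h2 : Real.log ((N : ℝ) + 1) ≤ Real.log (x * x) :=
      Real.log_le_log (by positivity) (by nlinarith)
    rw [Real.log_mul hx0.ne' hx0.ne'] at h2
    linarith
  have hmax : (1 / a) ^ 7 ≤ max 1 ((1 / (x * s)) ^ 7) := by
    rcases le_total (x * s) 1 with h | h
    · rw [ha, min_eq_left h]; exact le_max_right _ _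
    · rw [ha, min_eq_right h]; simp
  calc ∑ k ∈ Finset.range n,
        Real.exp (-(((k : ℝ) + 1) * s)) / ‖((r : ℂ) * ee (1 / x)) ^ (k + 1) - 1‖
      ≤ ∑ k ∈ Finset.range n, F (e k) := Finset.sum_le_sum fun k _ => hterm k
    _ = ∑ p ∈ (Finset.range n).image e, F p := (Finset.sum_image hinj).symm
    _ ≤ ∑ p ∈ Finset.range (n + 1) ×ˢ Finset.Icc (-(N : ℤ)) N, F p :=
        Finset.sum_le_sum_of_subset_of_nonneg hsub fun p _ _ => hF0 p
    _ = (3 * x / (2 * γ)) * (∑ m ∈ Finset.range (n + 1),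
          ((m : ℝ) + 1) ^ 6 * Real.exp (-((m : ℝ) * (a / 2))))
        * ∑ i ∈ Finset.Icc (-(N : ℤ)) N, 1 / (|(i : ℝ)| + 1) := by
        rw [Finset.sum_product, Finset.mul_sum (Finset.range (n + 1)), Finset.sum_mul_sum]
    _ ≤ (3 * x / (2 * γ)) * (50000000 * max 1 ((1 / (x * s)) ^ 7)) * (4 * (1 + Real.log x)) := by
        have h1 := (div_poly_geom ha0 ha1 (n + 1)).trans
          (mul_le_mul_of_nonneg_left hmax (by norm_num : (0 : ℝ) ≤ 50000000))
        have h2 : 0 ≤ max 1 ((1 / (x * s)) ^ 7) := le_trans zero_le_one (le_max_left _ _)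
        exact mul_le_mul (mul_le_mul_of_nonneg_left h1 (by positivity)) hH
          (Finset.sum_nonneg fun i _ => by positivity) (by positivity)
    _ = _ := by ring

/-- Small divisor sums for a rotation number `1 / x` close to zero. -/
theorem divB_of_dio : ∃ C : ℝ, 1 ≤ C ∧ ∀ x γ r σ : ℝ, 2 ≤ x → 0 < γ → γ ≤ 1 → Dio x γ →
    0 ≤ r → r ≤ 1 → 0 < σ →
    DivB ((r : ℂ) * ee (1 / x)) (C * x * (1 + Real.log x) / γ * max 1 ((1 / (x * σ)) ^ 7)) σ := by
  refine ⟨300000000, by norm_num, fun x γ r σ hx hγ hγ1 H hr0 hr1 hσ => ⟨?_, ?_⟩⟩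
  · intro k hk h
    have hx0 : 0 < x := by linarith
    have h1 := div_lam_lower hx0 hr0 hr1 k
    obtain ⟨m, hm1, -, -, -, hm5⟩ := div_point hx hγ hγ1 H hk
    rw [h, sub_self, norm_zero, hm1] at h1
    have h2 : 0 < |(k : ℝ) - m * x| := lt_of_lt_of_le (by positivity) hm5
    have h3 : 0 < 2 / x * |(k : ℝ) - m * x| := by positivity
    linarith
  · intro j n
    have hx0 : 0 < x := by linarith
    have hlog : 0 ≤ Real.log x := Real.log_nonneg (by linarith)
    refine (div_sum hx hγ hγ1 H hr0 hr1 (by positivity : 0 < σ / 2 ^ j) n).trans ?_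
    rw [mul_assoc (300000000 * x * (1 + Real.log x) / γ)]
    refine mul_le_mul_of_nonneg_left ?_ (by positivity)
    have h1 : (1 : ℝ) ≤ 128 ^ j := one_le_pow₀ (by norm_num)
    have h2 : (1 / (x * (σ / 2 ^ j))) ^ 7 = (1 / (x * σ)) ^ 7 * 128 ^ j := by
      have h3 : (128 : ℝ) ^ j = (2 ^ j) ^ 7 := by
        rw [← pow_mul, mul_comm, pow_mul]; norm_num
      rw [h3, ← mul_pow]
      congr 1
      field_simp
    rw [h2]
    refine max_le ?_ ?_
    · have := le_max_left 1 ((1 / (x * σ)) ^ 7)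
      nlinarith
    · exact mul_le_mul_of_nonneg_right (le_max_right _ _) (by positivity)

/-- Small divisor sums for an attracting multiplier. -/
theorem divB_of_lt_one {lam : ℂ} (hl : ‖lam‖ < 1) {σ : ℝ} (hσ : 0 < σ) :
    DivB lam (1 / ((1 - ‖lam‖) * σ)) σ := by
  have hlow : ∀ k : ℕ, 1 ≤ k → 1 - ‖lam‖ ≤ ‖lam ^ k - 1‖ := by
    intro k hk
    have h1 : ‖lam ^ k‖ ≤ ‖lam‖ := by
      rw [norm_pow]
      exact pow_le_of_le_one (norm_nonneg _) hl.le (by omega)
    have h2 := norm_sub_norm_le (1 : ℂ) (lam ^ k)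
    rw [norm_one, norm_sub_rev] at h2
    linarith
  have hpos : 0 < 1 - ‖lam‖ := by linarith
  refine ⟨fun k hk h => ?_, fun j n => ?_⟩
  · have := hlow k hk
    rw [h, sub_self, norm_zero] at this
    linarith
  · set s : ℝ := σ / 2 ^ j with hs
    have hs0 : 0 < s := by positivity
    have h1 : ∑ k ∈ Finset.range n, Real.exp (-(((k : ℝ) + 1) * s)) ≤ 1 / s := by
      have h2 := div_geom hs0 (n + 1)
      rw [Finset.sum_range_succ'] at h2
      simp only [Nat.cast_zero, zero_mul, neg_zero, Real.exp_zero] at h2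
      push_cast at h2
      have h3 : (1 + s) / s = 1 / s + 1 := by field_simp
      linarith
    calc ∑ k ∈ Finset.range n, Real.exp (-(((k : ℝ) + 1) * s)) / ‖lam ^ (k + 1) - 1‖
        ≤ ∑ k ∈ Finset.range n, Real.exp (-(((k : ℝ) + 1) * s)) / (1 - ‖lam‖) :=
          Finset.sum_le_sum fun k _ =>
            div_le_div_of_nonneg_left (Real.exp_pos _).le hpos (hlow _ (Nat.le_add_left 1 k))
      _ = (∑ k ∈ Finset.range n, Real.exp (-(((k : ℝ) + 1) * s))) / (1 - ‖lam‖) := by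
          rw [Finset.sum_div]
      _ ≤ (1 / s) / (1 - ‖lam‖) := by gcongr
      _ = 1 / ((1 - ‖lam‖) * σ) * 2 ^ j := by rw [hs]; field_simp
      _ ≤ 1 / ((1 - ‖lam‖) * σ) * 128 ^ j := by
          gcongr; norm_num

end Pool.Agent.Lib.MP_102662_an
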