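import Pool.Agent.Lib.MP_102662_an.Area

open Complex Metric Set Filter Topology

namespace Pool.Agent.Lib.MP_102662_an

theorem univ_deriv_ne {h : ℂ → ℂ} {c : ℂ} {d : ℝ} (hd : 0 < d)
    (hh : DifferentiableOn ℂ h (ball c d)) (hi : InjOn h (ball c d)) : deriv h c ≠ 0 := by
  intro h0
  have hb : ball c d ∈ 𝓝 c := ball_mem_nhds c hd
  have ha : AnalyticAt ℂ h c := hh.analyticAt hb
  have ha' : AnalyticAt ℂ (fun z => h z - h c) c := ha.sub analyticAt_const
  have hne : ¬ ∀ᶠ z in 𝓝 c, h z - h c = 0 := by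
    intro he
    have h1 : ∀ᶠ z in 𝓝[≠] c, z ∈ ball c d ∧ h z - h c = 0 :=
      mem_nhdsWithin_of_mem_nhds (inter_mem hb he)
    obtain ⟨z, ⟨hz1, hz2⟩, hz3⟩ := (h1.and self_mem_nhdsWithin).exists
    exact hz3 (hi hz1 (mem_ball_self hd) (sub_eq_zero.1 hz2))
  obtain ⟨n, e, he, he0, heq⟩ := (ha'.exists_eventuallyEq_pow_smul_nonzero_iff).2 hne
  have hn0 : n ≠ 0 := by
    rintro rfl
    have := heq.self_of_nhds
    simp only [sub_self, pow_zero, smul_eq_mul, one_mul] at this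
    exact he0 this.symm
  have hn1 : n ≠ 1 := by
    rintro rfl
    have h1 : HasDerivAt (fun z => (z - c) ^ 1 • e z) (e c) c := by
      have h2 := ((hasDerivAt_id c).sub_const c).mul he.differentiableAt.hasDerivAt
      simp only [id, sub_self, zero_mul, add_zero, one_mul] at h2
      simp only [pow_one, smul_eq_mul]
      exact h2
    have h3 : HasDerivAt (fun z => h z - h c) (deriv h c) c :=
      ha.differentiableAt.hasDerivAt.sub_const _
    have h4 := h3.unique (h1.congr_of_eventuallyEq heq)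
    exact he0 (h4.symm.trans h0)
  have hnc : (n : ℂ) ≠ 0 := Nat.cast_ne_zero.2 hn0
  set k : ℂ → ℂ := fun z => (z - c) * exp (log (e z / e c) / n) with hk
  have hq : AnalyticAt ℂ (fun z => e z / e c) c := he.div analyticAt_const he0
  have hq1 : e c / e c = 1 := div_self he0
  have hl : AnalyticAt ℂ (fun z => exp (log (e z / e c) / n)) c := by
    refine AnalyticAt.cexp' (AnalyticAt.div (hq.clog ?_) analyticAt_const hnc)
    rw [hq1]; exact one_mem_slitPlane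
  have hks : HasStrictDerivAt k 1 c := by
    have h1 : HasStrictDerivAt (fun z : ℂ => z - c) 1 c := by
      simpa only [sub_eq_add_neg, id] using (hasStrictDerivAt_id c).add_const (-c)
    have h2 := h1.mul hl.hasStrictDerivAt
    simp only [sub_self, zero_mul, add_zero, one_mul, hq1, log_one, zero_div, exp_zero] at h2
    exact h2
  have hmap := hks.map_nhds_eq one_ne_zero
  have hkc : k c = 0 := by simp [hk]
  rw [hkc] at hmap
  have hU : ∀ᶠ z in 𝓝 c, z ∈ ball c d ∧ h z - h c = e c * k z ^ n := by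
    filter_upwards [hb, heq, he.continuousAt.eventually_ne he0] with z hz1 hz2 hz3
    refine ⟨hz1, ?_⟩
    rw [hz2, hk]
    simp only [smul_eq_mul, mul_pow]
    rw [← exp_nat_mul, mul_div_cancel₀ _ hnc, exp_log (div_ne_zero hz3 he0)]
    field_simp
  have hW : k '' {z | z ∈ ball c d ∧ h z - h c = e c * k z ^ n} ∈ 𝓝 (0 : ℂ) := by
    rw [← hmap]; exact image_mem_map hU
  have hζ := Complex.isPrimitiveRoot_exp n hn0
  set ζ := exp (2 * Real.pi * I / n) with hζdef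
  have hζ1 : ζ ≠ 1 := hζ.ne_one (by omega)
  have hc : ContinuousAt (fun t : ℂ => ζ * t) 0 := by fun_prop
  have hW2 : ∀ᶠ t in 𝓝 (0 : ℂ),
      ζ * t ∈ k '' {z | z ∈ ball c d ∧ h z - h c = e c * k z ^ n} :=
    hc.eventually_mem (by rwa [mul_zero])
  have h5 : ∀ᶠ t in 𝓝[≠] (0 : ℂ), t ∈ k '' {z | z ∈ ball c d ∧ h z - h c = e c * k z ^ n} ∧
      ζ * t ∈ k '' {z | z ∈ ball c d ∧ h z - h c = e c * k z ^ n} :=
    mem_nhdsWithin_of_mem_nhds (inter_mem hW hW2)
  obtain ⟨t, ⟨⟨z1, ⟨h11, h12⟩, h13⟩, ⟨z2, ⟨h21, h22⟩, h23⟩⟩, ht⟩ :=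
    (h5.and self_mem_nhdsWithin).exists
  have h6 : h z1 = h z2 := by
    have : h z1 - h c = h z2 - h c := by
      rw [h12, h22, h13, h23, mul_pow, hζ.pow_eq_one, one_mul]
    exact sub_left_injective this
  have h7 := hi h11 h21 h6
  rw [h7, h23] at h13
  exact hζ1 (mul_right_cancel₀ ht (h13.trans (one_mul t).symm))

theorem koebe_mem_ball {c z : ℂ} {d : ℝ} (hd : 0 < d) (hz : z ∈ ball (0 : ℂ) 1) :
    c + d * z ∈ ball c d := by
  rw [mem_ball_zero_iff] at hz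
  rw [mem_ball, dist_eq_norm, add_sub_cancel_left, norm_mul, norm_real, Real.norm_of_nonneg hd.le]
  nlinarith

theorem koebe_norm_deriv (h : ℂ → ℂ) (c d A : ℂ) :
    deriv (fun z => (h (c + d * z) - h c) / A) = fun z => d * deriv h (c + d * z) / A := by
  funext z
  rw [deriv_div_const, deriv_sub_const]
  have := deriv_comp_mul_left d (fun y => h (c + y)) z
  simp only [deriv_comp_const_add, smul_eq_mul] at this
  rw [this]

theorem koebe_norm_a2 (h : ℂ → ℂ) (c d A : ℂ) :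
    a2 (fun z => (h (c + d * z) - h c) / A) = d * d * deriv (deriv h) c / A / 2 := by
  rw [a2, iteratedDeriv_succ, iteratedDeriv_one, koebe_norm_deriv, deriv_div_const,
    deriv_const_mul_field]
  have := deriv_comp_mul_left d (fun y => deriv h (c + y)) 0
  simp only [deriv_comp_const_add, smul_eq_mul, mul_zero, add_zero] at this
  rw [this, mul_assoc]

theorem koebe_norm_schlicht {h : ℂ → ℂ} {c : ℂ} {d : ℝ} (hd : 0 < d)
    (hh : DifferentiableOn ℂ h (ball c d)) (hi : InjOn h (ball c d)) :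
    Schlicht fun z => (h (c + d * z) - h c) / (d * deriv h c) := by
  have hA : (d : ℂ) * deriv h c ≠ 0 :=
    mul_ne_zero (ofReal_ne_zero.2 hd.ne') (univ_deriv_ne hd hh hi)
  refine ⟨?_, ?_, by simp, ?_⟩
  · refine DifferentiableOn.div_const (DifferentiableOn.sub_const ?_ _) _
    exact hh.comp (by fun_prop) fun z hz => koebe_mem_ball hd hz
  · intro z hz w hw hzw
    have h1 := sub_left_injective ((div_left_inj' hA).1 hzw)
    have h2 := hi (koebe_mem_ball hd hz) (koebe_mem_ball hd hw) h1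
    exact mul_left_cancel₀ (ofReal_ne_zero.2 hd.ne') (add_left_cancel h2)
  · rw [koebe_norm_deriv]
    simp only [mul_zero, add_zero]
    exact div_self hA

theorem univ_deriv2_le {h : ℂ → ℂ} {c : ℂ} {d : ℝ} (hd : 0 < d)
    (hh : DifferentiableOn ℂ h (ball c d)) (hi : InjOn h (ball c d)) :
    ‖deriv (deriv h) c‖ ≤ 4 / d * ‖deriv h c‖ := by
  have h1 := (area_stab (koebe_norm_schlicht hd hh hi)).1
  have h2 : 0 < ‖deriv h c‖ := norm_pos_iff.2 (univ_deriv_ne hd hh hi)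
  rw [koebe_norm_a2] at h1
  simp only [norm_div, norm_mul, norm_real, Real.norm_of_nonneg hd.le, norm_ofNat] at h1
  rw [div_le_iff₀ two_pos, div_le_iff₀ (mul_pos hd h2)] at h1
  rw [div_mul_eq_mul_div, le_div_iff₀ hd]
  nlinarith

theorem koebe_quarter_norm {g : ℂ → ℂ} (hg : Schlicht g) {x : ℂ}
    (hx : ∀ z ∈ ball (0 : ℂ) 1, g z ≠ x) : 1 ≤ 4 * ‖x‖ := by
  have hx0 : x ≠ 0 := fun h => hx 0 (mem_ball_self one_pos) (hg.zero.trans h.symm)
  have hne : ∀ z ∈ ball (0 : ℂ) 1, x - g z ≠ 0 := fun z hz => sub_ne_zero.2 (hx z hz).symm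
  have hD : ∀ z ∈ ball (0 : ℂ) 1, HasDerivAt (fun z => x * g z / (x - g z))
      (x ^ 2 * deriv g z / (x - g z) ^ 2) z := by
    intro z hz
    have h1 := (hg.diff.differentiableAt (isOpen_ball.mem_nhds hz)).hasDerivAt
    have h2 := (h1.const_mul x).div (h1.const_sub x) (hne z hz)
    refine HasDerivAt.congr_deriv h2 ?_
    ring
  have hG : Schlicht fun z => x * g z / (x - g z) := by
    refine ⟨fun z hz => (hD z hz).differentiableAt.differentiableWithinAt, ?_, by simp [hg.zero],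
      ?_⟩
    · intro z hz w hw hzw
      refine hg.inj hz hw ?_
      have h1 := (div_eq_div_iff (hne z hz) (hne w hw)).1 hzw
      have h2 : x ^ 2 * (g z - g w) = 0 := by linear_combination h1
      exact sub_eq_zero.1 ((mul_eq_zero.1 h2).resolve_left (pow_ne_zero 2 hx0))
    · rw [(hD 0 (mem_ball_self one_pos)).deriv, hg.zero, hg.one]
      field_simp
      ring
  have hb : ball (0 : ℂ) 1 ∈ 𝓝 (0 : ℂ) := ball_mem_nhds 0 one_pos
  have ha2 : a2 (fun z => x * g z / (x - g z)) = a2 g + 1 / x := by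
    have h1 : deriv (fun z => x * g z / (x - g z)) =ᶠ[𝓝 0]
        fun z => x ^ 2 * deriv g z / (x - g z) ^ 2 := by
      filter_upwards [hb] with z hz using (hD z hz).deriv
    have h2 := (hg.diff.differentiableAt hb).hasDerivAt
    have h3 := ((hg.diff.deriv isOpen_ball).differentiableAt hb).hasDerivAt
    have h4 := (h3.const_mul (x ^ 2)).div ((h2.const_sub x).pow 2)
      (pow_ne_zero 2 (hne 0 (mem_ball_self one_pos)))
    simp only [a2, iteratedDeriv_succ, iteratedDeriv_zero]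
    rw [h1.deriv_eq]
    refine (congrArg (· / 2) h4.deriv).trans ?_
    simp only [Pi.pow_apply, hg.zero, hg.one, sub_zero]
    field_simp
    ring
  have h1 := (area_stab hg).1
  have h2 := (area_stab hG).1
  rw [ha2] at h2
  have h3 : ‖1 / x‖ ≤ 4 := by
    have := norm_sub_le (a2 g + 1 / x) (a2 g)
    rw [add_sub_cancel_left] at this
    linarith
  rw [norm_div, norm_one, div_le_iff₀ (norm_pos_iff.2 hx0)] at h3
  exact h3

/-- Koebe one-quarter theorem. -/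
theorem koebe_quarter {h : ℂ → ℂ} {c ξ : ℂ} {d : ℝ} (hd : 0 < d)
    (hh : DifferentiableOn ℂ h (ball c d)) (hi : InjOn h (ball c d)) (hξ : ξ ∉ h '' ball c d) :
    d * ‖deriv h c‖ ≤ 4 * ‖h c - ξ‖ := by
  have h0 := univ_deriv_ne hd hh hi
  have hA : (d : ℂ) * deriv h c ≠ 0 := mul_ne_zero (ofReal_ne_zero.2 hd.ne') h0
  have h1 := koebe_quarter_norm (koebe_norm_schlicht hd hh hi)
    (x := (ξ - h c) / (d * deriv h c)) fun z hz hzx =>
      hξ ⟨_, koebe_mem_ball hd hz, sub_left_injective ((div_left_inj' hA).1 hzx)⟩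
  rw [norm_div, norm_mul, norm_real, Real.norm_of_nonneg hd.le, ← mul_div_assoc,
    le_div_iff₀ (mul_pos hd (norm_pos_iff.2 h0)), one_mul, norm_sub_rev] at h1
  exact h1

/-- Radial distortion estimate. -/
theorem radial_distortion {h : ℂ → ℂ} {V : Set ℂ} (hV : IsOpen V) (hh : DifferentiableOn ℂ h V)
    (hi : InjOn h V) {w : ℂ} {ρ s : ℝ} (hw : ‖w‖ < ρ) (hs0 : 0 ≤ s) (hs1 : s ≤ 1)
    (hsub : ∀ τ ∈ Icc s 1, ball ((τ : ℂ) * w) (ρ - τ * ‖w‖) ⊆ V) :
    ‖deriv h w‖ * (ρ - ‖w‖) ^ 4 ≤ ‖deriv h (s * w)‖ * (ρ - s * ‖w‖) ^ 4 ∧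
    ‖deriv h (s * w)‖ * (ρ - ‖w‖) ^ 4 ≤ ‖deriv h w‖ * (ρ - s * ‖w‖) ^ 4 := by
  have hw0 := norm_nonneg w
  have hδ : ∀ τ ∈ Icc s 1, 0 < ρ - τ * ‖w‖ := fun τ hτ => by nlinarith [hτ.2]
  set φ : ℝ → ℝ := fun t => ‖deriv h ((t : ℂ) * w)‖ ^ 2 with hφ
  have key : ∀ τ ∈ Icc s 1, ∃ φ' : ℝ, HasDerivAt φ φ' τ ∧
      |φ'| * (ρ - τ * ‖w‖) ≤ 8 * ‖w‖ * φ τ := by
    intro τ hτ
    have hm : (τ : ℂ) * w ∈ V := hsub τ hτ (mem_ball_self (hδ τ hτ))
    have h1 := ((hh.deriv hV).differentiableAt (hV.mem_nhds hm)).hasDerivAt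
    have h2 : HasDerivAt (fun t : ℝ => (t : ℂ) * w) w τ := by
      simpa using (hasDerivAt_id τ).ofReal_comp.mul_const w
    have h3 : HasDerivAt (fun t : ℝ => deriv h ((t : ℂ) * w))
        (w • deriv (deriv h) ((τ : ℂ) * w)) τ :=
      HasDerivAt.scomp (h := fun t : ℝ => (t : ℂ) * w) τ h1 h2
    refine ⟨_, h3.norm_sq, ?_⟩
    have h4 := univ_deriv2_le (hδ τ hτ) (hh.mono (hsub τ hτ)) (hi.mono (hsub τ hτ))
    have h5 := abs_real_inner_le_norm (deriv h ((τ : ℂ) * w)) (w • deriv (deriv h) ((τ : ℂ) * w))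
    rw [norm_smul] at h5
    rw [div_mul_eq_mul_div, le_div_iff₀ (hδ τ hτ)] at h4
    rw [abs_mul, abs_two, hφ]
    have h6 := norm_nonneg (deriv h ((τ : ℂ) * w))
    calc 2 * |inner ℝ (deriv h ((τ : ℂ) * w)) (w • deriv (deriv h) ((τ : ℂ) * w))| * (ρ - τ * ‖w‖)
        ≤ 2 * (‖deriv h ((τ : ℂ) * w)‖ * (‖w‖ * ‖deriv (deriv h) ((τ : ℂ) * w)‖)) *
          (ρ - τ * ‖w‖) := by
          have := (hδ τ hτ).le
          gcongr
      _ = 2 * ‖deriv h ((τ : ℂ) * w)‖ * ‖w‖ *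
          (‖deriv (deriv h) ((τ : ℂ) * w)‖ * (ρ - τ * ‖w‖)) := by ring
      _ ≤ 2 * ‖deriv h ((τ : ℂ) * w)‖ * ‖w‖ * (4 * ‖deriv h ((τ : ℂ) * w)‖) := by gcongr
      _ = 8 * ‖w‖ * ‖deriv h ((τ : ℂ) * w)‖ ^ 2 := by ring
  choose! φ' hφ' hb using key
  have hl : ∀ τ : ℝ, HasDerivAt (fun t : ℝ => ρ - t * ‖w‖) (-‖w‖) τ := fun τ => by
    simpa using ((hasDerivAt_id τ).mul_const ‖w‖).const_sub ρ
  have hA : ∀ τ ∈ Icc s 1, HasDerivAt (fun t => φ t * (ρ - t * ‖w‖) ^ 8)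
      ((ρ - τ * ‖w‖) ^ 7 * (φ' τ * (ρ - τ * ‖w‖) - 8 * ‖w‖ * φ τ)) τ := by
    intro τ hτ
    refine HasDerivAt.congr_deriv ((hφ' τ hτ).mul ((hl τ).pow 8)) ?_
    push_cast
    ring
  have hB : ∀ τ ∈ Icc s 1, HasDerivAt (fun t => φ t / (ρ - t * ‖w‖) ^ 8)
      ((φ' τ * (ρ - τ * ‖w‖) + 8 * ‖w‖ * φ τ) / (ρ - τ * ‖w‖) ^ 9) τ := by
    intro τ hτ
    have := (hδ τ hτ).ne'
    refine HasDerivAt.congr_deriv ((hφ' τ hτ).div ((hl τ).pow 8) (pow_ne_zero 8 this)) ?_
    push_cast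
    field_simp
    ring
  have hanti : AntitoneOn (fun t => φ t * (ρ - t * ‖w‖) ^ 8) (Icc s 1) := by
    refine antitoneOn_of_deriv_nonpos (convex_Icc s 1)
      (fun τ hτ => (hA τ hτ).continuousAt.continuousWithinAt)
      (fun τ hτ => (hA τ (interior_subset hτ)).differentiableAt.differentiableWithinAt)
      fun τ hτ => ?_
    have hτ' := interior_subset hτ
    rw [(hA τ hτ').deriv]
    refine mul_nonpos_of_nonneg_of_nonpos (pow_nonneg (hδ τ hτ').le 7) ?_
    have := mul_le_mul_of_nonneg_right (le_abs_self (φ' τ)) (hδ τ hτ').le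
    linarith [hb τ hτ']
  have hmono : MonotoneOn (fun t => φ t / (ρ - t * ‖w‖) ^ 8) (Icc s 1) := by
    refine monotoneOn_of_deriv_nonneg (convex_Icc s 1)
      (fun τ hτ => (hB τ hτ).continuousAt.continuousWithinAt)
      (fun τ hτ => (hB τ (interior_subset hτ)).differentiableAt.differentiableWithinAt)
      fun τ hτ => ?_
    have hτ' := interior_subset hτ
    rw [(hB τ hτ').deriv]
    refine div_nonneg ?_ (pow_nonneg (hδ τ hτ').le 9)
    have := mul_le_mul_of_nonneg_right (neg_abs_le (φ' τ)) (hδ τ hτ').le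
    linarith [hb τ hτ']
  have hs : s ∈ Icc s 1 := ⟨le_rfl, hs1⟩
  have h1 : (1 : ℝ) ∈ Icc s 1 := ⟨hs1, le_rfl⟩
  have e1 := hanti hs h1 hs1
  have e2 := hmono hs h1 hs1
  have p1 := hδ s hs
  have p2 := hδ 1 h1
  simp only [hφ, ofReal_one, one_mul] at e1 e2 p2
  rw [div_le_div_iff₀ (pow_pos p1 8) (pow_pos p2 8)] at e2
  constructor
  · refine (pow_le_pow_iff_left₀ (by positivity) (by positivity) two_ne_zero).1 ?_
    calc _ = ‖deriv h w‖ ^ 2 * (ρ - ‖w‖) ^ 8 := by ring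
      _ ≤ _ := e1
      _ = _ := by ring
  · refine (pow_le_pow_iff_left₀ (by positivity) (by positivity) two_ne_zero).1 ?_
    calc _ = ‖deriv h (s * w)‖ ^ 2 * (ρ - ‖w‖) ^ 8 := by ring
      _ ≤ _ := e2
      _ = _ := by ring

theorem koebe_deriv_le {h : ℂ → ℂ} {c : ℂ} {d : ℝ} (hh : DifferentiableOn ℂ h (ball c d))
    (hi : InjOn h (ball c d)) {z : ℂ} (hz : z ∈ ball c d) :
    ‖deriv h z‖ * (d - ‖z - c‖) ^ 4 ≤ ‖deriv h c‖ * d ^ 4 := by
  have hm : ∀ y ∈ ball (0 : ℂ) d, c + y ∈ ball c d := fun y hy => by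
    rwa [mem_ball, dist_eq_norm, add_sub_cancel_left, ← mem_ball_zero_iff]
  have h1 : DifferentiableOn ℂ (fun y => h (c + y)) (ball 0 d) := hh.comp (by fun_prop) hm
  have h2 : InjOn (fun y => h (c + y)) (ball 0 d) := fun y hy y' hy' e =>
    add_left_cancel (hi (hm y hy) (hm y' hy') e)
  have h3 := (radial_distortion isOpen_ball h1 h2 (w := z - c) (ρ := d) (s := 0)
    (by rwa [mem_ball, dist_eq_norm] at hz) le_rfl zero_le_one fun τ hτ => ?_).1
  · simpa only [deriv_comp_const_add, add_sub_cancel, ofReal_zero, zero_mul, add_zero, sub_zero]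
      using h3
  · refine ball_subset_ball' ?_
    rw [dist_zero_right, norm_mul, norm_real, Real.norm_of_nonneg hτ.1]
    linarith

/-- Crude growth theorem. -/
theorem univ_growth {h : ℂ → ℂ} {ρ : ℝ} (hh : DifferentiableOn ℂ h (ball 0 ρ))
    (hi : InjOn h (ball 0 ρ)) (h0 : h 0 = 0) (h1 : deriv h 0 = 1) {w : ℂ}
    (hw : w ∈ ball (0 : ℂ) ρ) : ‖h w‖ ≤ ‖w‖ / (1 - ‖w‖ / ρ) ^ 4 := by
  have hw' := mem_ball_zero_iff.1 hw
  have hρ : 0 < ρ := (norm_nonneg w).trans_lt hw'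
  have hsub : closedBall (0 : ℂ) ‖w‖ ⊆ ball 0 ρ := closedBall_subset_ball hw'
  have hp : 0 < ρ - ‖w‖ := sub_pos.2 hw'
  have h2 := Convex.norm_image_sub_le_of_norm_deriv_le (𝕜 := ℂ) (f := h)
    (s := closedBall (0 : ℂ) ‖w‖) (C := ρ ^ 4 / (ρ - ‖w‖) ^ 4) (x := 0) (y := w)
    (fun z hz => hh.differentiableAt (isOpen_ball.mem_nhds (hsub hz))) (fun z hz => ?_)
    (convex_closedBall _ _) (mem_closedBall_self (norm_nonneg w)) (mem_closedBall_zero_iff.2 le_rfl)
  · rw [h0, sub_zero, sub_zero] at h2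
    refine h2.trans_eq ?_
    field_simp
  · have h3 := koebe_deriv_le hh hi (hsub hz)
    rw [h1, norm_one, one_mul, sub_zero] at h3
    rw [le_div_iff₀ (pow_pos hp 4)]
    refine le_trans ?_ h3
    have := mem_closedBall_zero_iff.1 hz
    gcongr

theorem univ_deriv_near {h : ℂ → ℂ} {c : ℂ} {d : ℝ} (hd : 0 < d)
    (hh : DifferentiableOn ℂ h (ball c d)) (hi : InjOn h (ball c d)) {w : ℂ}
    (hw : w ∈ ball c (d / 16)) : ‖deriv h w - deriv h c‖ ≤ ‖deriv h c‖ / 2 := by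
  have hsub : ball c (d / 16) ⊆ ball c d := ball_subset_ball (by linarith)
  have hn := norm_nonneg (deriv h c)
  have h2 := Convex.norm_image_sub_le_of_norm_deriv_le (𝕜 := ℂ) (f := deriv h)
    (s := ball c (d / 16)) (C := 8 / d * ‖deriv h c‖) (x := c) (y := w)
    (fun z hz => (hh.deriv isOpen_ball).differentiableAt (isOpen_ball.mem_nhds (hsub hz)))
    (fun z hz => ?_) (convex_ball _ _) (mem_ball_self (by linarith)) hw
  · refine h2.trans ?_
    rw [mem_ball, dist_eq_norm] at hw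
    calc 8 / d * ‖deriv h c‖ * ‖w - c‖ ≤ 8 / d * ‖deriv h c‖ * (d / 16) := by gcongr
      _ = ‖deriv h c‖ / 2 := by field_simp; ring
  · have h3 := koebe_deriv_le hh hi (hsub hz)
    have hz' : ‖z - c‖ < d / 16 := by rwa [mem_ball, dist_eq_norm] at hz
    have hb : ball z (15 / 16 * d) ⊆ ball c d := by
      refine ball_subset_ball' ?_
      rw [dist_eq_norm]; linarith
    have h4 := univ_deriv2_le (by positivity) (hh.mono hb) (hi.mono hb)
    have h5 : ‖deriv h z‖ * (15 / 16 * d) ^ 4 ≤ ‖deriv h c‖ * d ^ 4 := by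
      refine le_trans ?_ h3
      have : 15 / 16 * d ≤ d - ‖z - c‖ := by linarith
      gcongr
    have h6 : ‖deriv h z‖ * (15 / 16) ^ 4 ≤ ‖deriv h c‖ := by
      refine le_of_mul_le_mul_right ?_ (pow_pos hd 4)
      calc _ = ‖deriv h z‖ * (15 / 16 * d) ^ 4 := by ring
        _ ≤ _ := h5
    refine h4.trans ?_
    have h7 : 4 / (15 / 16 * d) * ‖deriv h z‖ = 1 / d * (64 / 15 * ‖deriv h z‖) := by
      field_simp; ring
    have h8 : 8 / d * ‖deriv h c‖ = 1 / d * (8 * ‖deriv h c‖) := by ring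
    rw [h7, h8]
    refine mul_le_mul_of_nonneg_left ?_ (by positivity)
    have := norm_nonneg (deriv h z)
    norm_num at h6
    linarith

end Pool.Agent.Lib.MP_102662_an
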