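import Pool.Agent.Lib.MP_102662_an.Coarse
import Pool.Agent.Lib.MP_102662_an.Div
import Pool.Agent.Lib.MP_102662_an.Koebe
import Pool.Agent.Lib.MP_102662_an.Basic

open Complex Metric Set Filter Topology

namespace Pool.Agent.Lib.MP_102662_an

section core

variable {h : ℂ → ℂ} {ρ r' σ : ℝ} {us : ℂ}

theorem st_ne (hinj : InjOn h (ball 0 ρ)) (h0 : h 0 = 0) {w : ℂ} (hw : ‖w‖ < ρ) (hw0 : w ≠ 0) :
    h w ≠ 0 := by
  intro hz
  exact hw0 (hinj (mem_ball_zero_iff.2 hw) (mem_ball_self ((norm_nonneg w).trans_lt hw))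
    (hz.trans h0.symm))

theorem st_hasDeriv (hd : DifferentiableOn ℂ h (ball 0 ρ)) (hinj : InjOn h (ball 0 ρ))
    (h0 : h 0 = 0) {w : ℂ} (hw : ‖w‖ < ρ) (hw0 : w ≠ 0) :
    HasDerivAt (fun z => (h z)⁻¹) (-deriv h w / h w ^ 2) w :=
  ((hd.differentiableAt (isOpen_ball.mem_nhds (mem_ball_zero_iff.2 hw))).hasDerivAt).inv
    (st_ne hinj h0 hw hw0)

theorem st_diffOn (hd : DifferentiableOn ℂ h (ball 0 ρ)) (hinj : InjOn h (ball 0 ρ))
    (h0 : h 0 = 0) : DifferentiableOn ℂ (fun z => (h z)⁻¹) (ball 0 ρ \ {0}) := fun _ hw =>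
  (st_hasDeriv hd hinj h0 (mem_ball_zero_iff.1 hw.1) hw.2).differentiableAt.differentiableWithinAt

theorem st_injOn (hinj : InjOn h (ball 0 ρ)) : InjOn (fun z => (h z)⁻¹) (ball 0 ρ \ {0}) :=
  fun _ ha _ hb hab => hinj ha.1 hb.1 (inv_injective hab)

theorem st_ball_sub {c : ℂ} {d : ℝ} (h1 : d ≤ ρ - ‖c‖) (h2 : d ≤ ‖c‖) :
    ball c d ⊆ ball 0 ρ \ {0} := by
  intro z hz
  rw [mem_ball_iff_norm] at hz
  refine ⟨mem_ball_zero_iff.2 ?_, fun hz0 => ?_⟩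
  · have := norm_add_le (z - c) c
    rw [sub_add_cancel] at this
    linarith
  · rw [mem_singleton_iff.1 hz0, zero_sub, norm_neg] at hz
    linarith

/-- Two sided bound for the derivative of `1 / h` on the inner circle. -/
theorem st_inner (hd : DifferentiableOn ℂ h (ball 0 ρ)) (hinj : InjOn h (ball 0 ρ))
    (h0 : h 0 = 0) {w : ℂ} (hw : ‖w‖ < ρ) (hw0 : w ≠ 0)
    (hc : ‖w ^ 2 * deriv h w / h w ^ 2 - 1‖ ≤ 1 / 2) :
    1 / 2 ≤ ‖w‖ ^ 2 * ‖deriv (fun z => (h z)⁻¹) w‖ ∧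
      ‖w‖ ^ 2 * ‖deriv (fun z => (h z)⁻¹) w‖ ≤ 3 / 2 := by
  have e : ‖w‖ ^ 2 * ‖deriv (fun z => (h z)⁻¹) w‖ = ‖w ^ 2 * deriv h w / h w ^ 2‖ := by
    rw [(st_hasDeriv hd hinj h0 hw hw0).deriv, mul_div_assoc, norm_mul, norm_pow, neg_div,
      norm_neg]
  rw [e]
  have h1 := abs_le.1 ((abs_norm_sub_norm_le (w ^ 2 * deriv h w / h w ^ 2) 1).trans hc)
  rw [norm_one] at h1
  constructor <;> linarith [h1.1, h1.2]

theorem st_rho (hd : DifferentiableOn ℂ h (ball 0 ρ)) (hinj : InjOn h (ball 0 ρ)) (h0 : h 0 = 0)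
    (hσ : σ ≤ 1 / 100) (hr' : 0 < r') (hus : ‖us‖ * r' = 1 - 7 * σ) (hlt : r' < ρ)
    (hc : ∀ w, ‖w‖ = r' → ‖w / h w - 1 - us * w‖ ≤ 2 * σ ∧
      ‖w ^ 2 * deriv h w / h w ^ 2 - 1‖ ≤ 1 / 2) : ρ - r' ≤ 72 * σ * r' := by
  have hR : 0 < ‖us‖ := by
    by_contra hn
    have : ‖us‖ = 0 := le_antisymm (not_lt.1 hn) (norm_nonneg _)
    rw [this] at hus
    linarith
  have hR' : ((‖us‖ : ℝ) : ℂ) ≠ 0 := by exact_mod_cast hR.ne'
  obtain ⟨w, hw, hw2⟩ : ∃ w : ℂ, ‖w‖ = r' ∧ us * w = -((1 - 7 * σ : ℝ) : ℂ) := by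
    refine ⟨-((starRingEnd ℂ) us / (‖us‖ : ℝ) * (r' : ℝ)), ?_, ?_⟩
    · rw [norm_neg, norm_mul, norm_div, Complex.norm_conj, Complex.norm_real, Complex.norm_real,
        Real.norm_of_nonneg hR.le, Real.norm_of_nonneg hr'.le, div_self hR.ne', one_mul]
    · rw [← hus, mul_neg, ← mul_assoc, ← mul_div_assoc, Complex.mul_conj']
      push_cast
      field_simp
  have hw0 : w ≠ 0 := by
    rintro rfl
    rw [norm_zero] at hw
    linarith
  have hwρ : ‖w‖ < ρ := by linarith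
  obtain ⟨c1, c2⟩ := hc w hw
  have hσ0 : 0 ≤ σ := by linarith [norm_nonneg (w / h w - 1 - us * w)]
  have h1 := (st_inner hd hinj h0 hwρ hw0 c2).1
  have h2 : r' * ‖(h w)⁻¹‖ ≤ 9 * σ := by
    have e : w / h w = (w / h w - 1 - us * w) + ((7 * σ : ℝ) : ℂ) := by
      rw [hw2]
      push_cast
      ring
    have h3 := norm_add_le (w / h w - 1 - us * w) ((7 * σ : ℝ) : ℂ)
    rw [← e, Complex.norm_real, Real.norm_of_nonneg (by linarith), div_eq_mul_inv, norm_mul,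
      hw] at h3
    rw [div_eq_mul_inv] at c1
    linarith
  have hsub : ball w (min (ρ - r') r') ⊆ ball 0 ρ \ {0} :=
    st_ball_sub (by rw [hw]; exact min_le_left _ _) (by rw [hw]; exact min_le_right _ _)
  have hd0 : 0 < min (ρ - r') r' := lt_min (by linarith) hr'
  have h4 := koebe_quarter (ξ := 0) hd0 ((st_diffOn hd hinj h0).mono hsub)
    ((st_injOn hinj).mono hsub) (by
      rintro ⟨z, hz, hz0⟩
      have hz' := hsub hz
      exact st_ne hinj h0 (mem_ball_zero_iff.1 hz'.1) hz'.2 (inv_eq_zero.1 hz0))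
  rw [sub_zero] at h4
  rw [hw] at h1
  have h5 : min (ρ - r') r' ≤ 72 * σ * r' := by
    have h6 := mul_le_mul_of_nonneg_left h1 hd0.le
    have h7 := mul_le_mul_of_nonneg_left h4 (sq_nonneg r')
    have h8 := mul_le_mul_of_nonneg_left h2 hr'.le
    nlinarith
  rcases min_le_iff.1 h5 with h6 | h6
  · exact h6
  · nlinarith

theorem st_dist (hd : DifferentiableOn ℂ h (ball 0 ρ)) (hinj : InjOn h (ball 0 ρ)) (h0 : h 0 = 0)
    (hr' : 0 < r') (hρ : ρ ≤ 2 * r')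
    (hc : ∀ w, ‖w‖ = r' → ‖w ^ 2 * deriv h w / h w ^ 2 - 1‖ ≤ 1 / 2) {w : ℂ} {q : ℝ}
    (h1 : r' ≤ ‖w‖) (h2 : ‖w‖ < ρ) (hq : ρ - r' ≤ q * (ρ - ‖w‖)) :
    1 / 2 ≤ q ^ 4 * (r' ^ 2 * ‖deriv (fun z => (h z)⁻¹) w‖) ∧
      r' ^ 2 * ‖deriv (fun z => (h z)⁻¹) w‖ ≤ 3 / 2 * q ^ 4 := by
  have hw : 0 < ‖w‖ := by linarith
  have hs : r' / ‖w‖ * ‖w‖ = r' := div_mul_cancel₀ _ hw.ne'
  have hn : ∀ τ : ℝ, 0 ≤ τ → ‖(τ : ℂ) * w‖ = τ * ‖w‖ := fun τ hτ => by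
    rw [norm_mul, Complex.norm_real, Real.norm_of_nonneg hτ]
  have hs0 : 0 ≤ r' / ‖w‖ := by positivity
  obtain ⟨d1, d2⟩ := radial_distortion (isOpen_ball.sdiff isClosed_singleton)
    (st_diffOn hd hinj h0) (st_injOn hinj) (w := w) (ρ := ρ) (s := r' / ‖w‖) h2 hs0
    ((div_le_one hw).2 h1) (fun τ hτ => by
      have h3 : r' ≤ τ * ‖w‖ := hs ▸ mul_le_mul_of_nonneg_right hτ.1 hw.le
      apply st_ball_sub
      · rw [hn τ (hs0.trans hτ.1)]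
      · rw [hn τ (hs0.trans hτ.1)]
        linarith)
  have hn' : ‖((r' / ‖w‖ : ℝ) : ℂ) * w‖ = r' := by rw [hn _ hs0, hs]
  obtain ⟨i1, i2⟩ := st_inner hd hinj h0 (w := ((r' / ‖w‖ : ℝ) : ℂ) * w) (by linarith)
    (fun hz => by rw [hz, norm_zero] at hn'; linarith) (hc _ hn')
  rw [hn'] at i1 i2
  rw [hs] at d1 d2
  have hp : 0 < (ρ - ‖w‖) ^ 4 := pow_pos (by linarith) 4
  have hq4 : (ρ - r') ^ 4 ≤ q ^ 4 * (ρ - ‖w‖) ^ 4 := by
    rw [← mul_pow]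
    exact pow_le_pow_left₀ (by linarith) hq 4
  have hq0 : 0 ≤ q ^ 4 := by positivity
  generalize ‖deriv (fun z => (h z)⁻¹) w‖ = A at *
  generalize hB : ‖deriv (fun z => (h z)⁻¹) (((r' / ‖w‖ : ℝ) : ℂ) * w)‖ = B at *
  have hB0 : 0 ≤ B := hB ▸ norm_nonneg _
  have hA0 : 0 ≤ A := by
    by_contra hn
    have h5 : A * (ρ - r') ^ 4 ≤ 0 :=
      mul_nonpos_of_nonpos_of_nonneg (not_le.1 hn).le (by positivity)
    have h6 : B ≤ 0 := by
      by_contra hb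
      have := mul_pos (not_le.1 hb) hp
      linarith
    have : r' ^ 2 * B ≤ 0 := mul_nonpos_of_nonneg_of_nonpos (sq_nonneg _) h6
    linarith
  have e1 : B ≤ q ^ 4 * A := by
    apply le_of_mul_le_mul_right _ hp
    have := mul_le_mul_of_nonneg_left hq4 hA0
    linarith
  have e2 : A ≤ q ^ 4 * B := by
    apply le_of_mul_le_mul_right _ hp
    have := mul_le_mul_of_nonneg_left hq4 hB0
    linarith
  have f1 := mul_le_mul_of_nonneg_left e1 (sq_nonneg r')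
  have f2 := mul_le_mul_of_nonneg_left e2 (sq_nonneg r')
  have f3 := mul_le_mul_of_nonneg_left i2 hq0
  constructor <;> linarith

theorem st_outer (hd : DifferentiableOn ℂ h (ball 0 ρ)) (hinj : InjOn h (ball 0 ρ))
    (h0 : h 0 = 0) (hσ : σ ≤ 1 / 100) (hr' : 0 < r') (hρ : ρ - r' ≤ 72 * σ * r')
    (hc : ∀ w, ‖w‖ = r' → ‖w / h w - 1 - us * w‖ ≤ 2 * σ ∧
      ‖w ^ 2 * deriv h w / h w ^ 2 - 1‖ ≤ 1 / 2) {w : ℂ} {q : ℝ} (hq0 : 0 ≤ q)
    (h1 : r' ≤ ‖w‖) (h2 : ‖w‖ < ρ) (hq : ρ - r' ≤ q * (ρ - ‖w‖)) :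
    ‖h w‖ ^ 2 ≤ 2 * q ^ 4 * (‖w‖ ^ 2 * ‖deriv h w‖) ∧
      ‖w / h w - 1 - us * w‖ ≤ 76 * σ + 216 * σ * q ^ 4 := by
  have hw : 0 < ‖w‖ := by linarith
  have hw0 : w ≠ 0 := norm_pos_iff.1 hw
  have hρ2 : ρ ≤ 2 * r' := by nlinarith
  have hσ0 : 0 ≤ σ := by nlinarith
  have hq4 : 0 ≤ q ^ 4 := by positivity
  constructor
  · have d1 := (st_dist hd hinj h0 hr' hρ2 (fun w hw => (hc w hw).2) h1 h2 hq).1
    have hp : 0 < ‖h w‖ ^ 2 := pow_pos (norm_pos_iff.2 (st_ne hinj h0 h2 hw0)) 2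
    rw [(st_hasDeriv hd hinj h0 h2 hw0).deriv, norm_div, norm_neg, norm_pow, ← mul_div_assoc,
      ← mul_div_assoc, le_div_iff₀ hp] at d1
    have h3 : r' ^ 2 * ‖deriv h w‖ ≤ ‖w‖ ^ 2 * ‖deriv h w‖ :=
      mul_le_mul_of_nonneg_right (pow_le_pow_left₀ hr'.le h1 2) (norm_nonneg _)
    have h4 := mul_le_mul_of_nonneg_left h3 hq4
    linarith
  · obtain ⟨s, hs0, hs1, hs⟩ : ∃ s : ℝ, 0 < s ∧ s ≤ 1 ∧ s * ‖w‖ = r' :=
      ⟨r' / ‖w‖, by positivity, (div_le_one hw).2 h1, div_mul_cancel₀ _ hw.ne'⟩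
    have hn : ∀ τ : ℝ, 0 ≤ τ → ‖(τ : ℂ) * w‖ = τ * ‖w‖ := fun τ hτ => by
      rw [norm_mul, Complex.norm_real, Real.norm_of_nonneg hτ]
    have hseg : ∀ v ∈ segment ℝ ((s : ℂ) * w) w, r' ≤ ‖v‖ ∧ ‖v‖ ≤ ‖w‖ := by
      rintro v ⟨a, b, ha, hb, hab, rfl⟩
      have e : a • ((s : ℂ) * w) + b • w = ((a * s + b : ℝ) : ℂ) * w := by
        simp only [Complex.real_smul]
        push_cast
        ring
      rw [e, hn _ (by positivity), ← hs]
      constructor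
      · apply mul_le_mul_of_nonneg_right _ hw.le
        nlinarith
      · apply mul_le_of_le_one_left hw.le
        nlinarith
    have hmv := (convex_segment ((s : ℂ) * w) w).norm_image_sub_le_of_norm_deriv_le
      (f := fun z => (h z)⁻¹) (C := 3 / 2 * q ^ 4 / r' ^ 2)
      (fun v hv => (st_hasDeriv hd hinj h0 ((hseg v hv).2.trans_lt h2)
        (norm_pos_iff.1 (hr'.trans_le (hseg v hv).1))).differentiableAt)
      (fun v hv => by
        have d2 := (st_dist hd hinj h0 hr' hρ2 (fun w hw => (hc w hw).2) (hseg v hv).1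
          ((hseg v hv).2.trans_lt h2) (hq.trans (mul_le_mul_of_nonneg_left
            (by linarith [(hseg v hv).2]) hq0))).2
        rw [le_div_iff₀ (by positivity)]
        linarith)
      (left_mem_segment ℝ _ _) (right_mem_segment ℝ _ _)
    have e1 : ‖w - (s : ℂ) * w‖ = ‖w‖ - r' := by
      rw [show w - (s : ℂ) * w = ((1 - s : ℝ) : ℂ) * w by push_cast; ring, hn _ (by linarith)]
      linarith
    rw [e1] at hmv
    have g1 : ‖w * ((h w)⁻¹ - (h ((s : ℂ) * w))⁻¹)‖ ≤ 216 * σ * q ^ 4 := by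
      rw [norm_mul]
      have h3 : 3 / 2 * q ^ 4 / r' ^ 2 * (‖w‖ - r') ≤ 3 / 2 * q ^ 4 / r' ^ 2 * (72 * σ * r') :=
        mul_le_mul_of_nonneg_left (by linarith) (by positivity)
      refine (mul_le_mul (show ‖w‖ ≤ 2 * r' by linarith) (hmv.trans h3) (norm_nonneg _)
        (by positivity)).trans (le_of_eq ?_)
      field_simp
      ring
    have c1 := (hc ((s : ℂ) * w) (by rw [hn _ hs0.le, hs])).1
    have hs' : (s : ℂ) ≠ 0 := by exact_mod_cast hs0.ne'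
    have e2 : w / h w - 1 - us * w =
        ((1 / s : ℝ) : ℂ) * ((s : ℂ) * w / h ((s : ℂ) * w) - 1 - us * ((s : ℂ) * w)) +
          ((1 / s - 1 : ℝ) : ℂ) + w * ((h w)⁻¹ - (h ((s : ℂ) * w))⁻¹) := by
      simp only [div_eq_mul_inv]
      generalize (h ((s : ℂ) * w))⁻¹ = B
      generalize (h w)⁻¹ = A
      push_cast
      field_simp
      ring
    have g2 : 1 / s ≤ 1 + 72 * σ := by
      rw [div_le_iff₀ hs0]
      apply le_of_mul_le_mul_right _ hw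
      have : (1 + 72 * σ) * s * ‖w‖ = (1 + 72 * σ) * r' := by rw [mul_assoc, hs]
      linarith
    have g3 : 1 ≤ 1 / s := by rw [le_div_iff₀ hs0]; linarith
    rw [e2]
    refine (norm_add₃_le).trans ?_
    rw [norm_mul, Complex.norm_real, Complex.norm_real, Real.norm_of_nonneg (by linarith),
      Real.norm_of_nonneg (by linarith)]
    have g4 := mul_le_mul (show 1 / s ≤ 2 by linarith) c1 (norm_nonneg _) (by norm_num)
    linarith

end core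

theorem st_num {P x : ℝ} (hP : 1000 ≤ P) (hx : P ^ 100 ≤ x) :
    1000 * P ^ 6 ≤ x ∧ 1000 * P ^ 4 ≤ P ^ 5 ∧ 1000 * P ^ 5 ≤ P ^ 6 ∧ 1000 ≤ P ^ 4 := by
  have h1 : (1 : ℝ) ≤ P := by linarith
  have h : ∀ n : ℕ, 1000 * P ^ n ≤ P ^ (n + 1) := fun n => by
    rw [pow_succ, mul_comm]
    exact mul_le_mul_of_nonneg_left hP (by positivity)
  refine ⟨(h 6).trans ((pow_le_pow_right₀ h1 (by norm_num)).trans hx), h 4, h 5, ?_⟩
  exact hP.trans (le_self_pow₀ h1 (by norm_num))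

/-- The coarse linearizer at the scale `P ^ 4 / x`. -/
theorem st_coarse : ∃ P₀ : ℝ, 1000 ≤ P₀ ∧ ∀ P : ℝ, P₀ ≤ P → ∀ x r : ℝ, Good P x → 0 < r →
    r ≤ 1 → ∀ (lam : ℂ) (g : ℂ → ℂ) (R : ℝ), lam = (r : ℂ) * ee (1 / x) → Schlicht g →
    x / 8 ≤ R → ‖a2 g / (1 - lam)‖ ≤ R → lam ≠ 0 ∧ (∀ k : ℕ, 1 ≤ k → lam ^ k ≠ 1) ∧
    ∃ h : ℂ → ℂ, Lin (fun z => lam * g z) lam h ((1 - 5 * (P ^ 4 / x)) / (R + 2)) ∧
      ∀ w ∈ ball (0 : ℂ) ((1 - 5 * (P ^ 4 / x)) / (R + 2)), w ≠ 0 →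
        ‖h w‖ ≤ 1 / 2 ∧ ‖w / h w - 1 - a2 g / (1 - lam) * w‖ ≤ 2 * (P ^ 4 / x) ∧
        ‖w ^ 2 * deriv h w / h w ^ 2 - 1‖ ≤ 1 / 2 := by
  obtain ⟨C, hC1, hC⟩ := coarse
  obtain ⟨D, hD1, hD⟩ := divB_of_dio
  refine ⟨max 1000 (64 * C * D), le_max_left _ _, fun P hP x r hG hr0 hr1 lam g R hl hg hR ha => ?_⟩
  have hP1 : 1000 ≤ P := (le_max_left _ _).trans hP
  have hP2 : 64 * C * D ≤ P := (le_max_right _ _).trans hP
  obtain ⟨hx, hlog, hdio⟩ := hG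
  obtain ⟨n1, n2, n3, n4⟩ := st_num hP1 hx
  have hP0 : 0 < P := by linarith
  have hx0 : 0 < x := by linarith
  have hσ0 : 0 < P ^ 4 / x := by positivity
  have hσ1 : P ^ 4 / x ≤ 1 / 10 := by rw [div_le_iff₀ hx0]; linarith
  have hnl : ‖lam‖ = r := by
    rw [hl, norm_mul, norm_ee, Complex.norm_real, Real.norm_of_nonneg hr0.le, mul_one]
  have hl0 : lam ≠ 0 := norm_pos_iff.1 (by rwa [hnl])
  have hdiv := hD x (1 / P) r (P ^ 4 / x) (by linarith) (by positivity)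
    (by rw [div_le_one hP0]; linarith) hdio hr0.le hr1 hσ0
  have hmax : max 1 ((1 / (x * (P ^ 4 / x))) ^ 7) = 1 := by
    apply max_eq_left
    apply pow_le_one₀ (by positivity)
    rw [mul_div_cancel₀ _ hx0.ne', div_le_one (by positivity)]
    linarith
  rw [hmax, mul_one, ← hl] at hdiv
  have hlx : 0 ≤ Real.log x := Real.log_nonneg (by linarith)
  have hL : 1 + Real.log (1 / (P ^ 4 / x)) ≤ P := by
    refine le_trans ?_ hlog
    have : 1 / (P ^ 4 / x) ≤ x := by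
      rw [one_div_div]
      exact div_le_self hx0.le (by linarith)
    linarith [Real.log_le_log (by positivity) this]
  have hΩ : D * x * (1 + Real.log x) / (1 / P) ≤ D * x * P * P := by
    rw [div_div_eq_mul_div, div_one]
    gcongr
  have hCR : C / R ^ 2 ≤ 64 * C / x ^ 2 := by
    rw [div_le_div_iff₀ (pow_pos (by linarith) 2) (by positivity)]
    have h1 : (x / 8) ^ 2 ≤ R ^ 2 := pow_le_pow_left₀ (by positivity) hR 2
    nlinarith
  obtain ⟨h, hlin, hh⟩ := hC g lam R (P ^ 4 / x) _ hg (by rwa [hnl]) hl0 (by linarith) ha hσ0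
    hσ1 hdiv (by
      have h1 : C / R ^ 2 * (1 + Real.log (1 / (P ^ 4 / x))) ≤ 64 * C / x ^ 2 * P :=
        (mul_le_mul_of_nonneg_left hL (by positivity)).trans
          (mul_le_mul_of_nonneg_right hCR hP0.le)
      refine (mul_le_mul h1 hΩ (by positivity) (by positivity)).trans ?_
      have e : 64 * C / x ^ 2 * P * (D * x * P * P) = 64 * C * D * P ^ 3 / x := by
        field_simp
      rw [e]
      apply div_le_div_of_nonneg_right _ hx0.le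
      rw [show P ^ 4 = P * P ^ 3 by ring]
      exact mul_le_mul_of_nonneg_right hP2 (by positivity))
  have hle : (1 - 5 * (P ^ 4 / x)) / (R + 2) ≤ Real.exp (-(5 * (P ^ 4 / x))) / (R + 2) := by
    apply div_le_div_of_nonneg_right _ (by linarith)
    linarith [Real.add_one_le_exp (-(5 * (P ^ 4 / x)))]
  exact ⟨hl0, hdiv.1, h, hlin.mono (div_pos (by linarith) (by linarith)) hle,
    fun w hw hw0 => (hh w (ball_subset_ball hle hw) hw0).2⟩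

theorem st_analytic (lam : ℂ) : AnalyticAt ℂ (fun z => lam * koebe z) 0 ∧
    deriv (fun z => lam * koebe z) 0 = lam := by
  have h := schlicht_koebe.diff.analyticAt (isOpen_ball.mem_nhds (mem_ball_self one_pos))
  refine ⟨analyticAt_const.mul h, ?_⟩
  rw [deriv_const_mul _ h.differentiableAt, schlicht_koebe.one, mul_one]

theorem st_pow {P : ℝ} (hP : 1000 ≤ P) :
    2 * (72 * P ^ 5) ^ 4 ≤ P ^ 30 ∧ 76 * P ^ 4 + 216 * P ^ 4 * (72 * P ^ 5) ^ 4 ≤ P ^ 30 ∧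
      2 ≤ P ^ 30 ∧ 2 * P ^ 4 ≤ P ^ 30 := by
  have h1 : (1 : ℝ) ≤ P := by linarith
  have h6 : (1000 : ℝ) ^ 6 ≤ P ^ 6 := pow_le_pow_left₀ (by norm_num) hP 6
  have a1 : P ^ 20 ≤ P ^ 24 := pow_le_pow_right₀ h1 (by norm_num)
  have a2 : P ^ 4 ≤ P ^ 24 := pow_le_pow_right₀ h1 (by norm_num)
  have a3 : 1 ≤ P ^ 24 := one_le_pow₀ h1
  have a4 : (1000 : ℝ) ^ 6 * P ^ 24 ≤ P ^ 30 := by
    rw [show P ^ 30 = P ^ 6 * P ^ 24 by ring]
    exact mul_le_mul_of_nonneg_right h6 (by positivity)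
  have e1 : (72 * P ^ 5) ^ 4 = 72 ^ 4 * P ^ 20 := by ring
  have e2 : 216 * P ^ 4 * (72 ^ 4 * P ^ 20) = 216 * 72 ^ 4 * P ^ 24 := by ring
  rw [e1, e2]
  refine ⟨?_, ?_, ?_, ?_⟩ <;> linarith

/-- Shape of any univalent linearizer of the rotated Koebe function. -/
theorem struct_koebe : ∃ P₀ : ℝ, ∀ P : ℝ, P₀ ≤ P → ∀ x r : ℝ, Good P x → 1 - 1 / x ^ 2 ≤ r →
    r ≤ 1 → ∀ (lam : ℂ) (h : ℂ → ℂ) (ρ : ℝ), lam = (r : ℂ) * ee (1 / x) →
    Lin (fun z => lam * koebe z) lam h ρ → InjOn h (ball 0 ρ) →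
    ‖2 / (1 - lam)‖ * ρ ≤ 1 + P ^ 5 / x ∧
    (∀ w ∈ ball (0 : ℂ) ρ, ‖2 / (1 - lam)‖ * ‖w‖ ≤ 1 - P ^ 5 / x → ‖h w‖ ≤ 1 / 2) ∧
    (∀ w : ℂ, ‖w‖ ≤ ρ * (1 - 1 / (P * x)) → w ≠ 0 →
      ‖h w‖ ^ 2 ≤ P ^ 30 * (‖w‖ ^ 2 * ‖deriv h w‖) ∧
      ‖w / h w - 1 - 2 / (1 - lam) * w‖ ≤ P ^ 30 / x) := by
  obtain ⟨P₀, hP₀, hco⟩ := st_coarse
  refine ⟨P₀, fun P hP x r hG hr0 hr1 lam h ρ hl hlin hinj => ?_⟩
  have hP1 : 1000 ≤ P := hP₀.trans hP
  obtain ⟨n1, n2, n3, n4⟩ := st_num hP1 hG.1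
  obtain ⟨p1, p2, p3, p4⟩ := st_pow hP1
  have hP0 : 0 < P := by linarith
  have hx : 100 ≤ x := by linarith
  have hx0 : 0 < x := by linarith
  have hr : 0 < r := by
    have : 1 / x ^ 2 ≤ 1 / 2 := one_div_le_one_div_of_le (by norm_num) (by nlinarith)
    linarith
  obtain ⟨hR1, hR2⟩ := norm_ustar_bounds hx hr0 hr1
  rw [← hl] at hR1 hR2
  obtain ⟨hl0, hk, hc, hclin, hcb⟩ := hco P hP x r hG hr hr1 lam koebe ‖2 / (1 - lam)‖ hl
    schlicht_koebe (by linarith) (by rw [a2_koebe])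
  rw [a2_koebe] at hcb
  have heq := lin_unique (st_analytic lam).1 (st_analytic lam).2 hl0 hk hlin hclin
  obtain ⟨σ, hσ⟩ : ∃ σ, σ = P ^ 4 / x := ⟨_, rfl⟩
  rw [← hσ] at heq hcb
  have hσx : σ * x = P ^ 4 := by rw [hσ]; field_simp
  have hσ0 : 0 < σ := by rw [hσ]; positivity
  have hσ1 : σ ≤ 1 / 100 := by rw [hσ, div_le_iff₀ hx0]; linarith
  have hσ5 : 1000 * σ ≤ P ^ 5 / x := by
    rw [hσ, ← mul_div_assoc]
    exact div_le_div_of_nonneg_right n2 hx0.le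
  generalize 2 / (1 - lam) = us at *
  have hR0 : 0 < ‖us‖ := by linarith
  have hin : ∀ w : ℂ, ‖w‖ < ρ → ‖us‖ * ‖w‖ ≤ 1 - 7 * σ → w ≠ 0 →
      ‖h w‖ ≤ 1 / 2 ∧ ‖w / h w - 1 - us * w‖ ≤ 2 * σ ∧
        ‖w ^ 2 * deriv h w / h w ^ 2 - 1‖ ≤ 1 / 2 := by
    intro w hw1 hw2 hw0
    have h1 : ‖w‖ < (1 - 5 * σ) / (‖us‖ + 2) := by
      rw [lt_div_iff₀ (by linarith)]
      have h2 : ‖w‖ < σ := by
        by_contra hn
        have h3 := mul_le_mul hR1 (not_lt.1 hn) hσ0.le hR0.le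
        linarith
      linarith
    have hm : w ∈ ball (0 : ℂ) (min ρ ((1 - 5 * σ) / (‖us‖ + 2))) :=
      mem_ball_zero_iff.2 (lt_min hw1 h1)
    have hd : deriv h w = deriv hc w :=
      (heq.eventuallyEq_of_mem (isOpen_ball.mem_nhds hm)).deriv_eq
    rw [hd, heq hm]
    exact hcb w (mem_ball_zero_iff.2 h1) hw0
  obtain ⟨r', hr'0, hr'⟩ : ∃ r' : ℝ, 0 < r' ∧ ‖us‖ * r' = 1 - 7 * σ :=
    ⟨(1 - 7 * σ) / ‖us‖, div_pos (by linarith) hR0, mul_div_cancel₀ _ hR0.ne'⟩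
  have hcirc : r' < ρ → ∀ w, ‖w‖ = r' → ‖w / h w - 1 - us * w‖ ≤ 2 * σ ∧
      ‖w ^ 2 * deriv h w / h w ^ 2 - 1‖ ≤ 1 / 2 := fun hlt w hw =>
    (hin w (by linarith) (by rw [hw, hr']) (norm_pos_iff.1 (by linarith))).2
  have hrho : r' < ρ → ρ - r' ≤ 72 * σ * r' := fun hlt =>
    st_rho hlin.diff hinj hlin.zero hσ1 hr'0 hr' hlt (hcirc hlt)
  refine ⟨?_, fun w hw hw2 => ?_, fun w hw hw0 => ?_⟩
  · have h1 : ρ ≤ (1 + 72 * σ) * r' := by
      by_cases hlt : r' < ρ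
      · linarith [hrho hlt]
      · nlinarith [mul_pos hσ0 hr'0]
    have h2 := mul_le_mul_of_nonneg_left h1 hR0.le
    rw [mul_left_comm, hr'] at h2
    nlinarith
  · by_cases hw0 : w = 0
    · rw [hw0, hlin.zero, norm_zero]
      norm_num
    · exact (hin w (mem_ball_zero_iff.1 hw) (by linarith) hw0).1
  · have hρ0 := hlin.pos
    have hgap : ρ ≤ P * x * (ρ - ‖w‖) := by
      have h1 : ρ / (P * x) ≤ ρ - ‖w‖ := by
        rw [mul_sub, mul_one, mul_one_div] at hw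
        linarith
      rwa [div_le_iff₀' (by positivity)] at h1
    have hwρ : ‖w‖ < ρ := by
      by_contra hn
      have : P * x * (ρ - ‖w‖) ≤ 0 :=
        mul_nonpos_of_nonneg_of_nonpos (by positivity) (by linarith)
      linarith
    have hnn : 0 ≤ ‖w‖ ^ 2 * ‖deriv h w‖ := by positivity
    by_cases hw1 : ‖w‖ ≤ r'
    · obtain ⟨-, c1, c2⟩ := hin w hwρ (hr' ▸ mul_le_mul_of_nonneg_left hw1 hR0.le) hw0
      constructor
      · have d1 := (st_inner hlin.diff hinj hlin.zero hwρ hw0 c2).1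
        have hp : 0 < ‖h w‖ ^ 2 := pow_pos (norm_pos_iff.2 (st_ne hinj hlin.zero hwρ hw0)) 2
        rw [(st_hasDeriv hlin.diff hinj hlin.zero hwρ hw0).deriv, norm_div, norm_neg, norm_pow,
          ← mul_div_assoc, le_div_iff₀ hp] at d1
        have := mul_le_mul_of_nonneg_right p3 hnn
        linarith
      · rw [le_div_iff₀ hx0]
        have := mul_le_mul_of_nonneg_right c1 hx0.le
        linarith
    · have hlt : r' < ρ := by linarith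
      have hq : ρ - r' ≤ 72 * P ^ 5 * (ρ - ‖w‖) := by
        have h1 := mul_le_mul_of_nonneg_left (hlt.le.trans hgap) (show 0 ≤ 72 * σ by positivity)
        have e : 72 * σ * (P * x * (ρ - ‖w‖)) = 72 * P ^ 5 * (ρ - ‖w‖) := by
          rw [show P ^ 5 = P ^ 4 * P by ring, ← hσx]
          ring
        linarith [hrho hlt]
      obtain ⟨o1, o2⟩ := st_outer hlin.diff hinj hlin.zero hσ1 hr'0 (hrho hlt) (hcirc hlt)
        (by positivity) (not_le.1 hw1).le hwρ hq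
      constructor
      · exact o1.trans (mul_le_mul_of_nonneg_right p1 hnn)
      · rw [le_div_iff₀ hx0]
        refine (mul_le_mul_of_nonneg_right o2 hx0.le).trans (le_of_eq_of_le ?_ p2)
        generalize (72 * P ^ 5) ^ 4 = Q
        rw [← hσx]
        ring

/-- Maps that are not close to the Koebe function have a larger radius. -/
theorem low_coarse : ∃ P₀ : ℝ, ∀ P : ℝ, P₀ ≤ P → ∀ x : ℝ, Good P x → ∀ g : ℂ → ℂ, Schlicht g →
    ‖a2 g‖ ≤ 2 * (1 - P ^ 6 / x) →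
    ∃ h, Lin (fun z => ee (1 / x) * g z) (ee (1 / x)) h
      ((1 + P ^ 5 / x) / ‖2 / (1 - ee (1 / x))‖) := by
  obtain ⟨P₀, hP₀, hco⟩ := st_coarse
  refine ⟨P₀, fun P hP x hG g hg ha => ?_⟩
  have hP1 : 1000 ≤ P := hP₀.trans hP
  obtain ⟨n1, n2, n3, n4⟩ := st_num hP1 hG.1
  have hP0 : 0 < P := by linarith
  have hx : 100 ≤ x := by linarith
  have hx0 : 0 < x := by linarith
  obtain ⟨hR1, hR2⟩ := norm_ustar_bounds (r := 1) hx
    (by linarith [show 0 ≤ 1 / x ^ 2 by positivity]) le_rfl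
  rw [Complex.ofReal_one, one_mul] at hR1 hR2
  have h6 : P ^ 6 / x ≤ 1 / 2 := by rw [div_le_iff₀ hx0]; linarith
  obtain ⟨-, -, h, hlin, -⟩ := hco P hP x 1 hG one_pos le_rfl (ee (1 / x)) g
    (‖2 / (1 - ee (1 / x))‖ * (1 - P ^ 6 / x)) (by simp) hg (by nlinarith) (by
      rw [norm_div, norm_div, div_mul_eq_mul_div]
      apply div_le_div_of_nonneg_right _ (norm_nonneg _)
      simpa using ha)
  generalize ‖2 / (1 - ee (1 / x))‖ = R at *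
  have hR0 : 0 < R := by linarith
  refine ⟨h, hlin.mono (by positivity) ?_⟩
  have t0 : 0 < 1 / x := by positivity
  have t1 : 1 ≤ 4 * R * (1 / x) := by
    rw [mul_one_div, le_div_iff₀ hx0]
    linarith
  rw [div_eq_mul_one_div (P ^ 4) x, div_eq_mul_one_div (P ^ 5) x, div_eq_mul_one_div (P ^ 6) x]
    at *
  generalize 1 / x = t at *
  have m1 := mul_le_mul_of_nonneg_right n2 t0.le
  have m2 := mul_le_mul_of_nonneg_right n3 t0.le
  have m3 := mul_le_mul_of_nonneg_right n4 t0.le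
  rw [mul_assoc] at m1 m2
  generalize P ^ 4 * t = a at *
  generalize P ^ 5 * t = b at *
  generalize P ^ 6 * t = c at *
  rw [div_le_div_iff₀ hR0 (by nlinarith)]
  have k1 : R * (1 - c) + 2 ≤ R * (1 - c + 8 * t) := by nlinarith
  have k2 : (1 + b) * (1 - c + 8 * t) ≤ 1 - 5 * a := by nlinarith
  have k3 := mul_le_mul_of_nonneg_left k1 (show 0 ≤ 1 + b by linarith)
  have k4 := mul_le_mul_of_nonneg_left k2 hR0.le
  linarith

end Pool.Agent.Lib.MP_102662_an
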