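import Pool.Agent.Lib.MP_102662_an.Pert
import Pool.Agent.Lib.MP_102662_an.Struct
import Pool.Agent.Lib.MP_102662_an.Stage2X2
import Pool.Agent.Lib.MP_102662_an.Stage2X3

open Complex Metric Set Filter Topology

namespace Pool.Agent.Lib.MP_102662_an

/-- Maps close to the Koebe function: almost the same radius as the part inside the unit disc. -/
theorem stage2 : ∃ P₀ : ℝ, ∀ P : ℝ, P₀ ≤ P → ∀ x : ℝ, Good P x →
    ∀ (h : ℂ → ℂ) (ρ₄ ρ₅ η ε₀ : ℝ), Lin (fun z => ee (1 / x) * koebe z) (ee (1 / x)) h ρ₄ →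
    InjOn h (ball 0 ρ₄) → 1 / x ≤ ρ₅ → ρ₅ ≤ ρ₄ * (1 - 1 / (P * x)) →
    (∀ w ∈ ball (0 : ℂ) ρ₅, ‖h w‖ ≤ 1) → 0 < η → η ≤ 1 → 0 ≤ ε₀ → ε₀ * P ^ 200 ≤ η ^ 20 →
    ∀ g : ℂ → ℂ, Schlicht g → 2 * (1 - ε₀) ≤ ‖a2 g‖ →
    ∃ k, Lin (fun z => ee (1 / x) * g z) (ee (1 / x)) k (ρ₅ * (1 - 7 * η / x)) := by
  obtain ⟨C, hC1, hpert⟩ := pert
  obtain ⟨Cd, hCd1, hdiv⟩ := divB_of_dio
  obtain ⟨P₁, hstruct⟩ := struct_koebe
  refine ⟨max P₁ (163840 * C * Cd), ?_⟩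
  intro P hP x hG h ρ₄ ρ₅ η ε₀ hL hi h5 h54 hb hη hη1 hε0 hε g hg ha
  have hP₁ : P₁ ≤ P := le_trans (le_max_left _ _) hP
  have hP₂ : 163840 * C * Cd ≤ P := le_trans (le_max_right _ _) hP
  have hCC : 1 ≤ C * Cd := one_le_mul_of_one_le_of_one_le hC1 hCd1
  have hPb : 163840 ≤ P := by nlinarith
  have hP1 : 1 ≤ P := by linarith
  have hP0 : 0 < P := by linarith
  have hpw : ∀ n : ℕ, n ≤ 100 → P ^ n ≤ x := fun n hn =>
    le_trans (pow_le_pow_right₀ hP1 hn) hG.1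
  have hxb : 163840 ≤ x := by
    have := hpw 1 (by norm_num)
    rw [pow_one] at this
    linarith
  have hx0 : 0 < x := by linarith
  set lam : ℂ := ee (1 / x) with hlam
  have hl : ‖lam‖ = 1 := norm_ee _
  have hr1 : (1 : ℝ) - 1 / x ^ 2 ≤ 1 := by
    have : 0 ≤ 1 / x ^ 2 := by positivity
    linarith
  obtain ⟨s1, -, s3⟩ := hstruct P hP₁ x 1 hG hr1 le_rfl lam h ρ₄ (by simp [hlam]) hL hi
  have hR := (norm_ustar_bounds (x := x) (r := 1) (by linarith) hr1 le_rfl).1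
  rw [Complex.ofReal_one, one_mul, ← hlam] at hR
  have hD := hdiv x (1 / P) 1 (η / x) (by linarith) (by positivity)
    (by rw [div_le_one hP0]; exact hP1) hG.2.2 zero_le_one le_rfl (by positivity)
  rw [Complex.ofReal_one, one_mul, ← hlam] at hD
  set us : ℂ := 2 / (1 - lam) with hus
  have hus0 : us ≠ 0 := by
    rw [← norm_pos_iff]
    linarith
  have hρ₄ : 0 < ρ₄ := hL.pos
  have hρ₅ : 0 < ρ₅ := lt_of_lt_of_le (by positivity) h5
  have h54' : ρ₅ ≤ ρ₄ := by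
    have : 0 ≤ 1 / (P * x) := by positivity
    exact h54.trans (mul_le_of_le_one_right hρ₄.le (by linarith only [this]))
  have hP5 : P ^ 5 / x ≤ P ^ 30 / x := by
    gcongr
    norm_num
  have hδ : P ^ 30 / x ≤ 1 / 16 := by
    rw [div_le_iff₀ hx0]
    have h1 : P ^ 31 ≤ x := hpw 31 (by norm_num)
    have h2 : 16 * P ^ 30 ≤ P * P ^ 30 := by gcongr; linarith
    have h3 : P * P ^ 30 = P ^ 31 := by ring
    linarith
  have h8 : ρ₅ ≤ 8 / x := by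
    rw [le_div_iff₀ hx0]
    have h1 : x / 4 * ρ₄ ≤ ‖us‖ * ρ₄ := by gcongr
    have h2 : ρ₅ * x ≤ ρ₄ * x := mul_le_mul_of_nonneg_right h54' hx0.le
    linarith only [h1, h2, s1, hP5, hδ]
  have hs0 : 0 < η / x := by positivity
  have hs1 : η / x ≤ 1 / 100 := by
    rw [div_le_iff₀ hx0]
    linarith
  set s : ℝ := η / x with hs
  set ρ₃ : ℝ := ρ₅ * (1 - s) with hρ₃def
  have hρ₃ : 0 < ρ₃ := by
    rw [hρ₃def]
    apply mul_pos hρ₅
    linarith
  have h35 : ρ₃ < ρ₅ := by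
    rw [hρ₃def]
    exact mul_lt_of_lt_one_right hρ₅ (by linarith only [hs0])
  have hst1 : ∀ w : ℂ, ‖w‖ ≤ ρ₅ → w ≠ 0 → ‖h w‖ ^ 2 ≤ P ^ 30 * (‖w‖ ^ 2 * ‖deriv h w‖) :=
    fun w hw hw0 => (s3 w (le_trans hw h54) hw0).1
  have hst2 : ∀ w : ℂ, ‖w‖ ≤ ρ₅ → w ≠ 0 → ‖w / h w - 1 - us * w‖ ≤ P ^ 30 / x :=
    fun w hw hw0 => (s3 w (le_trans hw h54) hw0).2
  set d : ℝ := η / P ^ 31 with hd
  have hd0 : 0 < d := by positivity
  have hd1 : d ≤ 1 / 4 := by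
    rw [hd, div_le_iff₀ (by positivity)]
    have h1 : P ^ 1 ≤ P ^ 31 := pow_le_pow_right₀ hP1 (by norm_num)
    rw [pow_one] at h1
    linarith
  have hεd : ε₀ ≤ d := s2_eps hP1 hη hη1 hε
  have he := s2_sqrt hP1 hη hε0 (by linarith) hε ha
  have hsmall := s2_small (P := P) (by linarith) hη hη1
  rw [← hd] at hsmall
  have hcn : ‖a2 g / 2‖ = ‖a2 g‖ / 2 := by
    rw [norm_div]
    simp
  have hc : 1 - d ≤ ‖a2 g / 2‖ := by
    rw [hcn]
    linarith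
  have hc1 : ‖a2 g / 2‖ ≤ 1 := by
    rw [hcn]
    linarith [(area_stab hg).1]
  have hc0 : a2 g / 2 ≠ 0 := by
    rw [← norm_pos_iff]
    linarith
  have hnum : 32 * d * P ^ 30 * ρ₅ ≤ s := by
    calc 32 * d * P ^ 30 * ρ₅ ≤ 32 * d * P ^ 30 * (8 / x) := by gcongr
      _ = 256 / P * s := by rw [hd, hs]; field_simp; norm_num
      _ ≤ 1 * s := by
          gcongr
          rw [div_le_one hP0]
          linarith
      _ = s := one_mul _
  have hin : ∀ w ∈ ball (0 : ℂ) ρ₃, ‖h w‖ + d ≤ ‖a2 g / 2‖ := by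
    intro w hw
    have := s2_inside (hL.diff.mono (ball_subset_ball h54')) (hi.mono (ball_subset_ball h54'))
      hL.zero hb hst1 hρ₅ hs0 (by positivity) hd0.le hd1 hnum (mem_ball_zero_iff.1 hw)
    linarith
  have hpt : ∀ w ∈ ball (0 : ℂ) ρ₃,
      ‖lam * (a2 g / 2 * g (h w / (a2 g / 2))) - h (lam * w)‖ ≤
        40 * η ^ 9 / P ^ 39 * ‖h w‖ * ‖w‖ * ‖w‖ * ‖deriv h (lam * w)‖ := by
    intro w hw
    have := s2_point hg hl hL h54' hb hst1 hd0 he (by linarith) hsmall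
      (lt_trans (mem_ball_zero_iff.1 hw) h35) (hin w hw)
    rwa [hd, s2_factor hP0 hη] at this
  obtain ⟨hyd, hy1⟩ := s2_y (lam := lam) hg hρ₃
    (hL.diff.mono (ball_subset_ball (by linarith))) hL.zero hL.one hc0
    (fun w hw => by linarith [hin w hw])
  have hRpos : 0 < ‖us‖ := norm_pos_iff.2 hus0
  have hω1 : ‖-(‖us‖ : ℂ) / us‖ = 1 := by
    rw [norm_div, norm_neg, Complex.norm_real, Real.norm_of_nonneg hRpos.le, div_self hRpos.ne']
  have hw8 : ∀ w ∈ ball (0 : ℂ) ρ₃, ‖w‖ ≤ 8 / x := fun w hw => by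
    linarith [mem_ball_zero_iff.1 hw]
  have hh1 : ∀ w ∈ ball (0 : ℂ) ρ₃, ‖h w‖ ≤ 1 := fun w hw =>
    hb w (ball_subset_ball h35.le hw)
  have hβ : η / (200 * x) = s / 200 := by rw [hs]; field_simp
  obtain ⟨k, hkd, -, hk0, hk1, hk⟩ := hpert h (fun w => lam * (a2 g / 2 * g (h w / (a2 g / 2))))
    lam lam (-(‖us‖ : ℂ) / us) ρ₄ ρ₃ (81920 * η ^ 9 / (P ^ 9 * x ^ 2)) (η / (200 * x)) s _
    hρ₃ (by linarith) hL.diff hi hL.zero hL.one hyd (by simp [hL.zero, hg.zero]) hy1 hl.le hl hω1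
    (by positivity) hs0 (by linarith) hD (by rw [sub_self, norm_zero]; positivity)
    (by rw [sub_self, norm_zero]; norm_num) (by positivity) (by rw [hβ]; linarith)
    (by
      rw [hβ]
      have : s * ρ₃ ≤ s * ρ₅ := mul_le_mul_of_nonneg_left h35.le hs0.le
      have e : ρ₃ = ρ₅ - s * ρ₅ := by rw [hρ₃def]; ring
      linarith only [this, e, h54'])
    (by
      intro w hw
      refine le_trans (hpt w hw) ?_
      gcongr
      exact s2_beta (by linarith) hη hη1 hx0 (norm_nonneg _) (hh1 w hw) (norm_nonneg _) (hw8 w hw))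
    (by
      intro w hw
      have hw3 : ‖w‖ < ρ₃ := mem_ball_zero_iff.1 hw
      refine le_trans (hpt w hw) ?_
      have hm : 0 < ‖-(‖us‖ : ℂ) / us - w / ρ₃‖ := by
        have h1 : ‖w / (ρ₃ : ℂ)‖ < 1 := by
          rw [norm_div, Complex.norm_real, Real.norm_of_nonneg hρ₃.le, div_lt_one hρ₃]
          exact hw3
        have h2 := norm_sub_norm_le (-(‖us‖ : ℂ) / us) (w / ρ₃)
        linarith
      gcongr
      refine s2_nu hP0 hη hx0 hm ?_ (norm_nonneg _) (hw8 w hw)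
      by_cases hw0 : w = 0
      · subst hw0
        simp [hL.zero]
      have hP30 : 1 ≤ P ^ 30 := one_le_pow₀ hP1
      refine s2_weight hus0 hρ₃ hw3 ?_ (hst2 w (by linarith) hw0) (hh1 w hw) hδ (by linarith) ?_
      · have h1 : ‖us‖ * ρ₃ ≤ ‖us‖ * ρ₄ := by gcongr; linarith
        linarith
      · have h1 : 1 / (2 * x) ≤ ρ₃ := by
          have h2 : 1 / (2 * x) = 1 / x * (1 / 2) := by field_simp
          rw [h2, hρ₃def]
          gcongr
          linarith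
        calc 16 * (P ^ 30 / x) = 32 * P ^ 30 * (1 / (2 * x)) := by field_simp; norm_num
          _ ≤ 32 * P ^ 30 * ρ₃ := by gcongr)
    (s2_cond hC1 hCd1 hP₂ hη hη1 (by linarith) hG.2.1)
  have e7 : 7 * η / x = 7 * s := by rw [hs]; ring
  rw [e7]
  refine ⟨_, s2_final (k := k) (c := a2 g / 2) (mul_pos hρ₅ (by linarith))
    (s2_radius hρ₅ hs0.le (by linarith)) hL.diff hL.zero hL.one hc0 hc1 hkd hk0 hk1 ?_ ?_⟩
  · intro w hw
    exact ball_subset_ball (by linarith) (hk w hw).1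
  · intro w hw
    exact (hk w hw).2.2

end Pool.Agent.Lib.MP_102662_an
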