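import Pool.Agent.Lib.MP_102662_an.Formal
import Pool.Agent.Lib.MP_102662_an.Basic

open Complex Metric Set Filter Topology

namespace Pool.Agent.Lib.MP_102662_an

/-- Montel's theorem along an ultrafilter, for maps into the unit disc. -/
theorem up_montel {ι : Type*} (𝓤 : Ultrafilter ι) {F : ι → ℂ → ℂ} {U : Set ℂ} (hUo : IsOpen U)
    (hd : ∀ n, DifferentiableOn ℂ (F n) U) (hm : ∀ n, MapsTo (F n) U (ball 0 1)) :
    ∃ g : ℂ → ℂ, TendstoLocallyUniformlyOn F g 𝓤 U := by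
  have h1 : ∀ z, ∃ y, z ∈ U → Tendsto (fun n => F n z) 𝓤 (𝓝 y) := by
    intro z
    by_cases hz : z ∈ U
    · obtain ⟨y, _, hy⟩ := (isCompact_closedBall (0 : ℂ) 1).ultrafilter_le_nhds
        (𝓤.map fun n => F n z) (by
          rw [Ultrafilter.coe_map, le_principal_iff, mem_map]
          exact Eventually.of_forall fun n => ball_subset_closedBall (hm n hz))
      exact ⟨y, fun _ => hy⟩
    · exact ⟨0, fun h => absurd h hz⟩
  choose g hg using h1
  refine ⟨g, ?_⟩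
  rw [Metric.tendstoLocallyUniformlyOn_iff]
  intro ε hε z hz
  obtain ⟨r, hr, hU⟩ := Metric.isOpen_iff.1 hUo z hz
  have hL : ∀ n, ∀ w ∈ ball z r, dist (F n w) (F n z) ≤ 2 / r * dist w z := by
    intro n w hw
    refine Complex.dist_le_div_mul_dist_of_mapsTo_ball ((hd n).mono hU) (fun y hy => ?_) hw
    have h2 := mem_ball_zero_iff.1 (hm n (hU hy))
    have h3 := mem_ball_zero_iff.1 (hm n hz)
    rw [mem_closedBall, dist_eq_norm]
    linarith [norm_sub_le (F n y) (F n z)]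
  set δ := min r (ε * r / 8) with hδ
  have hδ0 : 0 < δ := by positivity
  have hsub : ball z δ ⊆ ball z r := ball_subset_ball (min_le_left _ _)
  have hLδ : ∀ n, ∀ w ∈ ball z δ, dist (F n w) (F n z) ≤ ε / 4 := by
    intro n w hw
    refine (hL n w (hsub hw)).trans ?_
    have h2 : dist w z ≤ ε * r / 8 := (mem_ball.1 hw).le.trans (min_le_right _ _)
    calc 2 / r * dist w z ≤ 2 / r * (ε * r / 8) := by gcongr
      _ = ε / 4 := by field_simp; ring
  refine ⟨ball z δ, mem_nhdsWithin_of_mem_nhds (ball_mem_nhds z hδ0), ?_⟩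
  have h0 : ∀ w ∈ ball z δ, dist (g w) (g z) ≤ ε / 4 := fun w hw =>
    le_of_tendsto ((hg w (hU (hsub hw))).dist (hg z hz)) (Eventually.of_forall fun n => hLδ n w hw)
  filter_upwards [Metric.tendsto_nhds.1 (hg z hz) (ε / 4) (by positivity)] with n hn w hw
  have h2 := hLδ n w hw
  have h3 := h0 w hw
  have h4 := dist_triangle4 (g w) (g z) (F n z) (F n w)
  rw [dist_comm (g z), dist_comm (F n z) (F n w)] at h4
  linarith

/-- Bounded first derivative, second derivative large on circles close to the boundary. -/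
structure UpWild (g : ℂ → ℂ) : Prop where
  diff : DifferentiableOn ℂ g (ball 0 1)
  bd : ∃ M : ℝ, ∀ z ∈ ball (0 : ℂ) 1, ‖deriv g z‖ ≤ M
  big : ∀ M r₀ : ℝ, 0 ≤ r₀ → r₀ < 1 →
    ∃ r, r₀ < r ∧ r < 1 ∧ ∀ z : ℂ, ‖z‖ = r → M ≤ ‖deriv (deriv g) z‖

theorem up_mul_mem {lam w : ℂ} {r : ℝ} (hl : ‖lam‖ = 1) (hw : w ∈ ball (0 : ℂ) r) :
    lam * w ∈ ball (0 : ℂ) r := by
  rw [mem_ball_zero_iff] at hw ⊢
  rwa [norm_mul, hl, one_mul]

theorem up_eqn {g h : ℂ → ℂ} {lam : ℂ} {ρ r : ℝ} (hl : ‖lam‖ = 1)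
    (hg : DifferentiableOn ℂ g (ball 0 1)) (H : Lin (fun z => lam * g z) lam h ρ) (hr0 : 0 < r)
    (hr : r ≤ ρ) (hm : MapsTo h (ball 0 r) (ball 0 1)) :
    ∀ w ∈ ball (0 : ℂ) r, lam * g (h w) = h (lam * w) := by
  have hd := H.diff.mono (ball_subset_ball hr)
  have d1 : DifferentiableOn ℂ (fun w => lam * g (h w)) (ball 0 r) := (hg.comp hd hm).const_mul lam
  have d2 : DifferentiableOn ℂ (fun w => h (lam * w)) (ball 0 r) :=
    hd.comp (differentiableOn_id.const_mul lam) fun w hw => up_mul_mem hl hw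
  exact (d1.analyticOnNhd isOpen_ball).eqOn_of_preconnected_of_eventuallyEq
    (d2.analyticOnNhd isOpen_ball) (convex_ball _ _).isPreconnected (mem_ball_self hr0) H.conj

theorem up_uniq {f₁ f₂ : ℂ → ℂ} {a b w : ℂ} {r : ℝ} (hw : w ∈ ball (0 : ℂ) r)
    (e : ∀ v ∈ ball (0 : ℂ) r, f₁ v = f₂ v) (h1 : HasDerivAt f₁ a w) (h2 : HasDerivAt f₂ b w) :
    a = b :=
  h1.unique (h2.congr_of_eventuallyEq (eventually_of_mem (isOpen_ball.mem_nhds hw) e))

theorem up_hasDeriv {f : ℂ → ℂ} {r : ℝ} (hf : DifferentiableOn ℂ f (ball 0 r)) {w : ℂ}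
    (hw : w ∈ ball (0 : ℂ) r) : HasDerivAt f (deriv f w) w :=
  (hf.differentiableAt (isOpen_ball.mem_nhds hw)).hasDerivAt

/-- The functional equation differentiated twice. -/
theorem up_eqn2 {g h : ℂ → ℂ} {lam : ℂ} {ρ r : ℝ} (hl : ‖lam‖ = 1)
    (hg : DifferentiableOn ℂ g (ball 0 1)) (H : Lin (fun z => lam * g z) lam h ρ) (hr0 : 0 < r)
    (hr : r ≤ ρ) (hm : MapsTo h (ball 0 r) (ball 0 1)) :
    ∀ w ∈ ball (0 : ℂ) r, deriv (deriv g) (h w) * deriv h w * deriv h w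
      + deriv g (h w) * deriv (deriv h) w = deriv (deriv h) (lam * w) * lam := by
  have hd := H.diff.mono (ball_subset_ball hr)
  have hl0 : lam ≠ 0 := norm_pos_iff.1 (by rw [hl]; exact one_pos)
  have hlin : ∀ w : ℂ, HasDerivAt (fun v : ℂ => lam * v) lam w := fun w => by
    simpa using (hasDerivAt_id w).const_mul lam
  have e1 : ∀ w ∈ ball (0 : ℂ) r, deriv g (h w) * deriv h w = deriv h (lam * w) := by
    intro w hw
    have a1 := ((up_hasDeriv hg (hm hw)).comp w (up_hasDeriv hd hw)).const_mul lam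
    have a2 := (up_hasDeriv hd (up_mul_mem hl hw)).comp w (hlin w)
    have a3 := up_uniq hw (up_eqn hl hg H hr0 hr hm) a1 a2
    exact mul_left_cancel₀ hl0 (a3.trans (mul_comm _ _))
  intro w hw
  have a1 := ((up_hasDeriv (hg.deriv isOpen_ball) (hm hw)).comp w (up_hasDeriv hd hw)).mul
    (up_hasDeriv (hd.deriv isOpen_ball) hw)
  have a2 := (up_hasDeriv (hd.deriv isOpen_ball) (up_mul_mem hl hw)).comp w (hlin w)
  exact up_uniq hw e1 a1 a2

theorem up_smul_mem {w : ℂ} {s : ℝ} (hw : w ≠ 0) (h0 : 0 ≤ s) (h1 : s < 1) :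
    (s : ℂ) * w ∈ ball (0 : ℂ) ‖w‖ := by
  rw [mem_ball_zero_iff, norm_mul, Complex.norm_real, Real.norm_of_nonneg h0]
  exact mul_lt_of_lt_one_left (norm_pos_iff.2 hw) h1

theorem up_tendsto (w : ℂ) : Tendsto (fun s : ℝ => (s : ℂ) * w) (𝓝 1) (𝓝 w) := by
  have : Continuous fun s : ℝ => (s : ℂ) * w := by fun_prop
  simpa using this.tendsto 1

/-- A boundary form of the Schwarz lemma. -/
theorem up_deriv_ne {h : ℂ → ℂ} {w : ℂ} (hw : w ≠ 0) (hd : DifferentiableOn ℂ h (ball 0 ‖w‖))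
    (h0 : h 0 = 0) (hm : MapsTo h (ball 0 ‖w‖) (ball 0 1)) (hdw : DifferentiableAt ℂ h w)
    (h1 : 1 ≤ ‖h w‖) : deriv h w ≠ 0 := by
  intro hc
  have hr : 0 < ‖w‖ := norm_pos_iff.2 hw
  have a1 := hdw.hasDerivAt
  rw [hc] at a1
  have a2 := (up_tendsto w).eventually
    (a1.isLittleO.def (c := 1 / (2 * ‖w‖)) (by positivity))
  have a3 : ∀ᶠ s : ℝ in 𝓝[<] 1, s < 1 := self_mem_nhdsWithin
  have a4 : ∀ᶠ s : ℝ in 𝓝 1, 0 < s := lt_mem_nhds one_pos
  obtain ⟨s, ⟨b1, b2⟩, b3⟩ := (((a2.and a4).filter_mono nhdsWithin_le_nhds).and a3).exists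
  have c1 := Complex.dist_le_div_mul_dist_of_mapsTo_ball hd (R₂ := 1)
    (fun y hy => by rw [h0]; exact ball_subset_closedBall (hm hy)) (up_smul_mem hw b2.le b3)
  rw [h0, dist_zero_right, dist_zero_right, norm_mul, Complex.norm_real,
    Real.norm_of_nonneg b2.le] at c1
  have c2 : ‖(s : ℂ) * w - w‖ = (1 - s) * ‖w‖ := by
    rw [show (s : ℂ) * w - w = ((s - 1 : ℝ) : ℂ) * w by push_cast; ring, norm_mul,
      Complex.norm_real, Real.norm_of_nonpos (by linarith), neg_sub]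
  rw [smul_zero, sub_zero, c2] at b1
  have c3 : 1 / (2 * ‖w‖) * ((1 - s) * ‖w‖) = (1 - s) / 2 := by field_simp
  have c4 : 1 / ‖w‖ * (s * ‖w‖) = s := by field_simp
  have c5 := norm_sub_norm_le (h w) (h (s * w))
  rw [norm_sub_rev] at c5
  linarith

/-- The linearizer of a wild map stays in the unit disc. -/
theorem up_maps {g h : ℂ → ℂ} {lam : ℂ} {ρ : ℝ} (hl : ‖lam‖ = 1) (hg : UpWild g)
    (H : Lin (fun z => lam * g z) lam h ρ) : MapsTo h (ball 0 ρ) (ball 0 1) := by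
  intro w₀ hw₀
  by_contra hc
  rw [mem_ball_zero_iff, not_lt] at hc
  rw [mem_ball_zero_iff] at hw₀
  have hsub : closedBall (0 : ℂ) ‖w₀‖ ⊆ ball 0 ρ := closedBall_subset_ball hw₀
  have hK : IsCompact (closedBall (0 : ℂ) ‖w₀‖ ∩ (fun w => ‖h w‖) ⁻¹' Ici 1) :=
    (isCompact_closedBall _ _).of_isClosed_subset
      ((H.diff.continuousOn.mono hsub).norm.preimage_isClosed_of_isClosed isClosed_closedBall
        isClosed_Ici) inter_subset_left
  obtain ⟨w₁, ⟨h1, h2⟩, hmin⟩ :=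
    hK.exists_isMinOn ⟨w₀, by simp, hc⟩ continuous_norm.continuousOn
  replace h2 : 1 ≤ ‖h w₁‖ := h2
  rw [mem_closedBall_zero_iff] at h1
  have hw1 : w₁ ≠ 0 := by
    rintro rfl
    rw [H.zero, norm_zero] at h2
    linarith
  have hr0 : 0 < ‖w₁‖ := norm_pos_iff.2 hw1
  have hr : ‖w₁‖ < ρ := h1.trans_lt hw₀
  have hm : MapsTo h (ball 0 ‖w₁‖) (ball 0 1) := by
    intro w hw
    rw [mem_ball_zero_iff] at hw ⊢
    by_contra hn
    have := hmin (a := w) ⟨mem_closedBall_zero_iff.2 (hw.le.trans h1), not_lt.1 hn⟩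
    exact absurd hw (not_lt.2 this)
  have hsub1 : closedBall (0 : ℂ) ‖w₁‖ ⊆ ball 0 ρ := closedBall_subset_ball hr
  have hw1m : ball (0 : ℂ) ρ ∈ 𝓝 w₁ := isOpen_ball.mem_nhds (mem_ball_zero_iff.2 hr)
  have d1 := H.diff.deriv isOpen_ball
  obtain ⟨B, hB⟩ := (isCompact_closedBall (0 : ℂ) ‖w₁‖).exists_bound_of_continuousOn
    ((d1.deriv isOpen_ball).continuousOn.mono hsub1)
  obtain ⟨M, hM⟩ := hg.bd
  have hne := up_deriv_ne hw1 (H.diff.mono (ball_subset_ball hr.le)) H.zero hm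
    (H.diff.differentiableAt hw1m) h2
  set c := ‖deriv h w₁‖ / 2 with hcdef
  have hc0 : 0 < c := half_pos (norm_pos_iff.2 hne)
  have a1 : ∀ᶠ s : ℝ in 𝓝 1, c < ‖deriv h (s * w₁)‖ :=
    (up_tendsto w₁).eventually ((d1.continuousOn.continuousAt hw1m).norm.eventually
      (lt_mem_nhds (half_lt_self (norm_pos_iff.2 hne))))
  obtain ⟨δ, hδ, a2⟩ := Metric.eventually_nhds_iff.1 (a1.and (lt_mem_nhds one_pos))
  have a3 : ∀ s ∈ Icc (1 - δ / 2) 1, c < ‖deriv h (s * w₁)‖ ∧ 0 < s := fun s hs => a2 (by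
    rw [Real.dist_eq, abs_lt]
    constructor <;> linarith [hs.1, hs.2])
  have hle : 1 - δ / 2 ≤ 1 := by linarith
  have a4 : ContinuousOn (fun s : ℝ => ‖h (s * w₁)‖) (Icc (1 - δ / 2) 1) := by
    refine (H.diff.continuousOn.comp (by fun_prop) fun s hs => hsub1 ?_).norm
    rw [mem_closedBall_zero_iff, norm_mul, Complex.norm_real,
      Real.norm_of_nonneg (a3 s hs).2.le]
    exact mul_le_of_le_one_left hr0.le hs.2
  have a5 : ‖h ((1 - δ / 2 : ℝ) * w₁)‖ < 1 := mem_ball_zero_iff.1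
    (hm (up_smul_mem hw1 (a3 _ ⟨le_rfl, hle⟩).2.le (by linarith)))
  obtain ⟨r, r1, r2, r3⟩ := hg.big ((B + M * B) / (c * c) + 1) _ (norm_nonneg _) a5
  obtain ⟨s, hs, hs'⟩ := intermediate_value_Icc hle a4
    (show r ∈ Icc _ _ from ⟨r1.le, by simpa using r2.le.trans h2⟩)
  replace hs' : ‖h (s * w₁)‖ = r := hs'
  have hs1 : s < 1 := lt_of_le_of_ne hs.2 (by
    rintro rfl
    rw [Complex.ofReal_one, one_mul] at hs'
    linarith)
  have hw := up_smul_mem hw1 (a3 s hs).2.le hs1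
  have e := up_eqn2 hl hg.diff H hr0 hr.le hm _ hw
  have b1 := hB _ (ball_subset_closedBall hw)
  have b2 := hB _ (ball_subset_closedBall (up_mul_mem hl hw))
  have b3 := hM _ (hm hw)
  have b4 := r3 _ hs'
  have b5 := (a3 s hs).1
  have e2 := congrArg norm (eq_sub_of_add_eq e)
  have b6 := norm_sub_le (deriv (deriv h) (lam * (s * w₁)) * lam)
    (deriv g (h (s * w₁)) * deriv (deriv h) (s * w₁))
  rw [← e2, norm_mul, norm_mul, norm_mul, norm_mul, hl, mul_one] at b6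
  have b7 : ‖deriv g (h (s * w₁))‖ * ‖deriv (deriv h) (s * w₁)‖ ≤ M * B :=
    mul_le_mul b3 b1 (norm_nonneg _) ((norm_nonneg _).trans b3)
  have b8 : ((B + M * B) / (c * c) + 1) * c * c ≤ ‖deriv (deriv g) (h (s * w₁))‖
      * ‖deriv h (s * w₁)‖ * ‖deriv h (s * w₁)‖ :=
    mul_le_mul (mul_le_mul b4 b5.le hc0.le (norm_nonneg _)) b5.le hc0.le (by positivity)
  have b9 : ((B + M * B) / (c * c) + 1) * c * c = B + M * B + c * c := by field_simp
  linarith [mul_pos hc0 hc0]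

theorem up_pow (j : ℕ) : 4 * (j + 1) + 2 ≤ 16 ^ (j + 1) := by
  induction j with
  | zero => norm_num
  | succ j ih => rw [pow_succ]; omega

theorem up_geom (m : ℕ) : ∑ k ∈ Finset.range m, (8 : ℝ) ^ k ≤ 8 ^ m / 7 := by
  induction m with
  | zero => norm_num
  | succ m ih => rw [Finset.sum_range_succ, pow_succ]; linarith

/-- One term of the lacunary series dominates on suitable circles. -/
theorem up_lac {z S : ℂ} {m : ℕ} (hS : HasSum (fun k : ℕ => (8 : ℂ) ^ k * z ^ 16 ^ k) S)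
    (hz : ‖z‖ ≤ 1) (hm : ‖z‖ ^ 16 ^ m = 1 / 2) : (8 : ℝ) ^ m / 10 ≤ ‖S‖ := by
  have hn : ∀ k : ℕ, ‖(8 : ℂ) ^ k * z ^ 16 ^ k‖ = 8 ^ k * ‖z‖ ^ 16 ^ k := fun k => by
    rw [norm_mul, norm_pow, norm_pow]
    norm_num
  have t1 := (hasSum_nat_add_iff' (m + 1)).2 hS
  have t2 := t1.norm_le_of_bounded (hasSum_geometric_two' ((8 : ℝ) ^ m / 4)) fun j => by
    rw [hn, show 16 ^ (j + (m + 1)) = 16 ^ m * 16 ^ (j + 1) by ring, pow_mul, hm]
    have a1 : (1 / 2 : ℝ) ^ 16 ^ (j + 1) ≤ (1 / 2) ^ (4 * (j + 1) + 2) :=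
      pow_le_pow_of_le_one (by norm_num) (by norm_num) (up_pow j)
    refine (mul_le_mul_of_nonneg_left a1 (by positivity)).trans_eq ?_
    rw [show (8 : ℝ) = 2 ^ 3 by norm_num, ← pow_mul, ← pow_mul, one_div, inv_pow]
    field_simp
    ring
  have t3 : ‖∑ k ∈ Finset.range m, (8 : ℂ) ^ k * z ^ 16 ^ k‖ ≤ 8 ^ m / 7 := by
    refine (norm_sum_le _ _).trans ((Finset.sum_le_sum fun k _ => ?_).trans (up_geom m))
    rw [hn]
    exact mul_le_of_le_one_right (by positivity) (pow_le_one₀ (norm_nonneg _) hz)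
  have t4 := hn m
  rw [hm] at t4
  rw [Finset.sum_range_succ] at t2
  set A := ∑ k ∈ Finset.range m, (8 : ℂ) ^ k * z ^ 16 ^ k
  set b := (8 : ℂ) ^ m * z ^ 16 ^ m
  have t5 : b = S - (S - (A + b)) - A := by ring
  have t6 := norm_sub_le (S - (S - (A + b))) A
  have t7 := norm_sub_le S (S - (A + b))
  rw [← t5] at t6
  have : (0 : ℝ) < 8 ^ m := by positivity
  linarith

/-- A wild function with small derivative. -/
theorem up_psi : ∃ ψ : ℂ → ℂ, UpWild ψ ∧ ψ 0 = 0 ∧ deriv ψ 0 = 0 ∧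
    ∀ z ∈ ball (0 : ℂ) 1, ‖deriv ψ z‖ ≤ 1 := by
  set F : ℕ → ℂ → ℂ := fun k z => 1 / 2 / 2 ^ k * z ^ 16 ^ k with hF
  have hle : ∀ (k : ℕ) (z : ℂ), z ∈ ball (0 : ℂ) 1 → ‖F k z‖ ≤ 1 / 2 / 2 ^ k := by
    intro k z hz
    have : ‖F k z‖ = 1 / 2 / 2 ^ k * ‖z‖ ^ 16 ^ k := by simp [hF]
    rw [this]
    exact mul_le_of_le_one_right (by positivity)
      (pow_le_one₀ (norm_nonneg _) (mem_ball_zero_iff.1 hz).le)
  have hu := hasSum_geometric_two' (1 : ℝ)
  have hdF : ∀ k, DifferentiableOn ℂ (F k) (ball 0 1) := fun k => by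
    simp only [hF]
    fun_prop
  have hP := Complex.differentiableOn_tsum_of_summable_norm hu.summable hdF isOpen_ball hle
  obtain ⟨ψ, h0, hψ⟩ := hP.isExactOn_ball.with_val_at 0 0
  have hd : ∀ z ∈ ball (0 : ℂ) 1, deriv ψ z = ∑' k, F k z := fun z hz => (hψ z hz).deriv
  have hb : ∀ z ∈ ball (0 : ℂ) 1, ‖deriv ψ z‖ ≤ 1 := fun z hz => by
    rw [hd z hz]
    exact tsum_of_norm_bounded hu fun k => hle k z hz
  refine ⟨ψ, ⟨fun z hz => (hψ z hz).differentiableAt.differentiableWithinAt, ⟨1, hb⟩, ?_⟩, h0,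
    by rw [hd 0 (mem_ball_self one_pos)]; simp [hF], hb⟩
  intro M r₀ h1 h2
  obtain ⟨m, m1, m2⟩ := (((tendsto_pow_atTop_nhds_zero_of_lt_one h1 h2).eventually
    (gt_mem_nhds (show (0 : ℝ) < 1 / 2 by norm_num))).and
    ((tendsto_pow_atTop_atTop_of_one_lt (show (1 : ℝ) < 8 by norm_num)).eventually
      (eventually_ge_atTop (20 * M)))).exists
  have hn0 : 16 ^ m ≠ 0 := by positivity
  have hr := Real.rpow_inv_natCast_pow (show (0 : ℝ) ≤ 1 / 2 by norm_num) hn0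
  set r := (1 / 2 : ℝ) ^ (((16 ^ m : ℕ) : ℝ)⁻¹)
  have hr0 : 0 ≤ r := by positivity
  have hr1 : r < 1 := lt_of_pow_lt_pow_left₀ (16 ^ m) zero_le_one (by rw [hr]; norm_num)
  refine ⟨r, lt_of_pow_lt_pow_left₀ (16 ^ m) hr0 ?_, hr1, fun z hz => ?_⟩
  · rw [hr]
    exact (pow_le_pow_of_le_one h1 h2.le (Nat.lt_pow_self (by norm_num)).le).trans_lt m1
  have hz1 : z ∈ ball (0 : ℂ) 1 := mem_ball_zero_iff.2 (hz ▸ hr1)
  have e1 : deriv (deriv ψ) z = deriv (fun w => ∑' k, F k w) z :=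
    Filter.EventuallyEq.deriv_eq (eventually_of_mem (isOpen_ball.mem_nhds hz1) hd)
  have s1 := (Complex.hasSum_deriv_of_summable_norm hu.summable hdF isOpen_ball hle hz1).mul_left
    (2 * z)
  rw [← e1] at s1
  have s2 : (fun k => 2 * z * deriv (F k) z) = fun k : ℕ => (8 : ℂ) ^ k * z ^ 16 ^ k := by
    funext k
    have a1 : deriv (F k) z = 1 / 2 / 2 ^ k * ((16 ^ k : ℕ) * z ^ (16 ^ k - 1)) :=
      ((hasDerivAt_pow (16 ^ k) z).const_mul _).deriv
    have a2 : z ^ 16 ^ k = z * z ^ (16 ^ k - 1) := by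
      rw [← pow_succ', Nat.sub_add_cancel (Nat.one_le_pow _ _ (by norm_num))]
    rw [a1, a2, Nat.cast_pow, show ((16 : ℕ) : ℂ) = 8 * 2 by norm_num, mul_pow]
    field_simp
  rw [s2] at s1
  have s3 := up_lac s1 (hz ▸ hr1.le) (hz ▸ hr)
  rw [norm_mul, norm_mul, hz] at s3
  have s4 : ‖(2 : ℂ)‖ * r * ‖deriv (deriv ψ) z‖ ≤ 2 * 1 * ‖deriv (deriv ψ) z‖ := by
    rw [Complex.norm_two]
    gcongr
  linarith

theorem up_add {k ψ : ℂ → ℂ} {R ε : ℝ} (hR : 1 < R) (hk : DifferentiableOn ℂ k (ball 0 R))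
    (hψ : UpWild ψ) (hε : 0 < ε) : UpWild fun z => k z + ε * ψ z := by
  have hsub : closedBall (0 : ℂ) 1 ⊆ ball 0 R := closedBall_subset_ball hR
  have hk1 := hk.mono (ball_subset_closedBall.trans hsub)
  have d1 := hk.deriv isOpen_ball
  obtain ⟨B₁, hB₁⟩ := (isCompact_closedBall (0 : ℂ) 1).exists_bound_of_continuousOn
    (d1.continuousOn.mono hsub)
  obtain ⟨B₂, hB₂⟩ := (isCompact_closedBall (0 : ℂ) 1).exists_bound_of_continuousOn
    ((d1.deriv isOpen_ball).continuousOn.mono hsub)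
  have e1 : ∀ z ∈ ball (0 : ℂ) 1,
      deriv (fun z => k z + ε * ψ z) z = deriv k z + ε * deriv ψ z := fun z hz =>
    ((up_hasDeriv hk1 hz).add ((up_hasDeriv hψ.diff hz).const_mul _)).deriv
  have hn : ∀ a : ℂ, ‖(ε : ℂ) * a‖ = ε * ‖a‖ := fun a => by
    rw [norm_mul, Complex.norm_real, Real.norm_of_nonneg hε.le]
  refine ⟨hk1.add (hψ.diff.const_mul _), ?_, fun M r₀ h1 h2 => ?_⟩
  · obtain ⟨M, hM⟩ := hψ.bd
    refine ⟨B₁ + ε * M, fun z hz => ?_⟩
    rw [e1 z hz]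
    refine (norm_add_le _ _).trans (add_le_add (hB₁ z (ball_subset_closedBall hz)) ?_)
    rw [hn]
    exact mul_le_mul_of_nonneg_left (hM z hz) hε.le
  obtain ⟨r, r1, r2, r3⟩ := hψ.big ((M + B₂) / ε) r₀ h1 h2
  refine ⟨r, r1, r2, fun z hz => ?_⟩
  have hz1 : z ∈ ball (0 : ℂ) 1 := mem_ball_zero_iff.2 (hz ▸ r2)
  have e2 : deriv (deriv fun z => k z + ε * ψ z) z
      = deriv (deriv k) z + ε * deriv (deriv ψ) z := by
    rw [Filter.EventuallyEq.deriv_eq (eventually_of_mem (isOpen_ball.mem_nhds hz1) e1)]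
    exact ((up_hasDeriv (hk1.deriv isOpen_ball) hz1).add
      ((up_hasDeriv (hψ.diff.deriv isOpen_ball) hz1).const_mul _)).deriv
  have a1 := (div_le_iff₀' hε).1 (r3 z hz)
  have a2 := hB₂ z (ball_subset_closedBall hz1)
  have a3 := norm_sub_le (deriv (deriv k) z + ε * deriv (deriv ψ) z) (deriv (deriv k) z)
  rw [add_sub_cancel_left, hn] at a3
  rw [e2]
  linarith

theorem up_ne {s : ℝ} (h0 : 0 < s) {z : ℂ} (hz : z ∈ ball (0 : ℂ) (1 / s)) :
    1 - (s : ℂ) * z ≠ 0 := by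
  intro h
  rw [mem_ball_zero_iff, lt_div_iff₀' h0] at hz
  have := congrArg norm (sub_eq_zero.1 h)
  rw [norm_one, norm_mul, Complex.norm_real, Real.norm_of_nonneg h0.le] at this
  linarith

/-- Wild univalent perturbations of the Koebe function. -/
theorem up_family {ψ : ℂ → ℂ} (hψ : UpWild ψ) (h0 : ψ 0 = 0) (h1 : deriv ψ 0 = 0)
    (hb : ∀ z ∈ ball (0 : ℂ) 1, ‖deriv ψ z‖ ≤ 1) {s : ℝ} (hs0 : 0 < s) (hs1 : s < 1) :
    UpWild (fun z => z / (1 - s * z) ^ 2 + ((1 - s ^ 2) / 32 : ℝ) * ψ z) ∧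
    Schlicht (fun z => z / (1 - s * z) ^ 2 + ((1 - s ^ 2) / 32 : ℝ) * ψ z) := by
  have hR : 1 < 1 / s := one_lt_one_div hs0 hs1
  have hs2 : 0 < 1 - s ^ 2 := by nlinarith
  have hk : DifferentiableOn ℂ (fun z : ℂ => z / (1 - s * z) ^ 2) (ball 0 (1 / s)) :=
    differentiableOn_id.div (by fun_prop) fun z hz => pow_ne_zero 2 (up_ne hs0 hz)
  have hW := up_add hR hk hψ (show 0 < (1 - s ^ 2) / 32 by positivity)
  refine ⟨hW, hW.diff, fun a ha b hb' hab => ?_, by simp [h0], ?_⟩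
  · have na := up_ne hs0 (ball_subset_ball hR.le ha)
    have nb := up_ne hs0 (ball_subset_ball hR.le hb')
    have l1 := (convex_ball (0 : ℂ) 1).norm_image_sub_le_of_norm_deriv_le
      (fun x hx => hψ.diff.differentiableAt (isOpen_ball.mem_nhds hx)) hb ha hb'
    rw [mem_ball_zero_iff] at ha hb'
    have e1 : (b - a) * (1 - s ^ 2 * (a * b))
        = -(((1 - s ^ 2) / 32 : ℝ) * (ψ b - ψ a) * (1 - s * a) ^ 2 * (1 - s * b) ^ 2) := by
      have e2 : (((1 - s ^ 2) / 32 : ℝ) : ℂ) * (ψ b - ψ a)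
          = a / (1 - s * a) ^ 2 - b / (1 - s * b) ^ 2 := by
        linear_combination -hab
      have e4 := div_mul_cancel₀ a (pow_ne_zero 2 na)
      have e5 := div_mul_cancel₀ b (pow_ne_zero 2 nb)
      rw [e2]
      linear_combination (1 - (s : ℂ) * b) ^ 2 * e4 - (1 - (s : ℂ) * a) ^ 2 * e5
    have hsn : ‖(s : ℂ)‖ = s := by rw [Complex.norm_real, Real.norm_of_nonneg hs0.le]
    have n1 : ∀ x : ℂ, ‖x‖ < 1 → ‖1 - (s : ℂ) * x‖ ≤ 2 := fun x hx => by
      have := norm_sub_le 1 ((s : ℂ) * x)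
      rw [norm_one, norm_mul, hsn] at this
      nlinarith [norm_nonneg x]
    have n2 : 1 - s ^ 2 ≤ ‖1 - (s : ℂ) ^ 2 * (a * b)‖ := by
      have := norm_sub_norm_le 1 ((s : ℂ) ^ 2 * (a * b))
      rw [norm_one, norm_mul, norm_pow, hsn, norm_mul] at this
      have h2 : ‖a‖ * ‖b‖ ≤ 1 := mul_le_one₀ ha.le (norm_nonneg _) hb'.le
      nlinarith [sq_nonneg s]
    have e3 := congrArg norm e1
    rw [norm_neg, norm_mul, norm_mul, norm_mul, norm_mul, norm_pow, norm_pow, Complex.norm_real,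
      Real.norm_of_nonneg (by positivity)] at e3
    have n3 : (1 - s ^ 2) / 32 * ‖ψ b - ψ a‖ * ‖1 - (s : ℂ) * a‖ ^ 2 * ‖1 - (s : ℂ) * b‖ ^ 2
        ≤ (1 - s ^ 2) / 32 * (1 * ‖b - a‖) * 2 ^ 2 * 2 ^ 2 := by
      have := n1 a ha
      have := n1 b hb'
      gcongr
    have n4 := mul_le_mul_of_nonneg_left n2 (norm_nonneg (b - a))
    have n5 : ‖b - a‖ ≤ 0 := by
      by_contra hc
      nlinarith [mul_pos (not_le.1 hc) hs2]
    exact (sub_eq_zero.1 (norm_le_zero_iff.1 n5)).symm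
  · have a1 : HasDerivAt (fun z : ℂ => z / (1 - s * z) ^ 2) 1 0 := by
      have a2 := (hasDerivAt_id (0 : ℂ)).div
        ((((hasDerivAt_id (0 : ℂ)).const_mul (s : ℂ)).const_sub 1).pow 2) (by simp)
      refine a2.congr_deriv ?_
      simp
    have a3 := up_hasDeriv hψ.diff (mem_ball_self one_pos)
    rw [h1] at a3
    exact (a1.add (a3.const_mul (((1 - s ^ 2) / 32 : ℝ) : ℂ))).deriv.trans (by simp)

/-- Upper bound for the minimal radius by perturbations with a natural boundary. -/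
theorem rr_le {θ ρ : ℝ} (hk : ∀ k : ℕ, 1 ≤ k → ee θ ^ k ≠ 1) {h : ℂ → ℂ}
    (H : Lin (fun z => ee θ * koebe z) (ee θ) h ρ) {w : ℂ} (hw : w ∈ ball (0 : ℂ) ρ)
    (hw1 : 1 < ‖h w‖) : rr θ ≤ ENNReal.ofReal ρ := by
  by_contra hc
  obtain ⟨ψ, hψ, p0, p1, pb⟩ := up_psi
  have hl := norm_ee θ
  set s : ℕ → ℝ := fun n => 1 - 1 / ((n : ℝ) + 1) / 2 with hs
  have s0 : ∀ n, 0 < s n := fun n => by
    have : 1 / ((n : ℝ) + 1) ≤ 1 := by
      rw [div_le_one (by positivity)]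
      linarith [n.cast_nonneg (α := ℝ)]
    simp only [hs]
    linarith
  have s1 : ∀ n, s n < 1 := fun n => sub_lt_self _ (by positivity)
  have s2 : Tendsto s atTop (𝓝 1) := by
    have := ((tendsto_one_div_add_atTop_nhds_zero_nat (𝕜 := ℝ)).div_const 2).const_sub 1
    rwa [zero_div, sub_zero] at this
  have hF := fun n => up_family hψ p0 p1 pb (s0 n) (s1 n)
  choose F hFl using fun n => lin_of_lt_rr hk H.pos (not_le.1 hc) (hF n).2
  have hm := fun n => up_maps hl (hF n).1 (hFl n)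
  let 𝓤 : Ultrafilter ℕ := Ultrafilter.of atTop
  have h𝓤 : (𝓤 : Filter ℕ) ≤ atTop := Ultrafilter.of_le _
  obtain ⟨g, hg⟩ := up_montel 𝓤 isOpen_ball (fun n => (hFl n).diff) hm
  have hdn := Eventually.of_forall (f := (𝓤 : Filter ℕ)) fun n => (hFl n).diff
  have hgd := hg.differentiableOn hdn isOpen_ball
  have hb0 : (0 : ℂ) ∈ ball (0 : ℂ) ρ := mem_ball_self H.pos
  have g0 : g 0 = 0 := tendsto_nhds_unique (hg.tendsto_at hb0) (by
    simp only [(hFl _).zero]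
    exact tendsto_const_nhds)
  have g1 : deriv g 0 = 1 :=
    tendsto_nhds_unique ((hg.deriv hdn isOpen_ball).tendsto_at hb0) (by
      simp only [Function.comp_apply, (hFl _).one]
      exact tendsto_const_nhds)
  have hG : Lin (fun z => ee θ * koebe z) (ee θ) g ρ := by
    refine ⟨H.pos, hgd, g0, g1, ?_⟩
    have c1 : ∀ᶠ v in 𝓝 (0 : ℂ), g v ≠ 1 :=
      (hgd.continuousOn.continuousAt (isOpen_ball.mem_nhds hb0)).eventually_ne
        (by rw [g0]; exact zero_ne_one)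
    filter_upwards [c1, isOpen_ball.mem_nhds hb0] with v v1 v2
    have t1 := hg.tendsto_at v2
    have t2 : Tendsto (fun n => ((s n : ℝ) : ℂ)) 𝓤 (𝓝 1) := by
      exact (Complex.continuous_ofReal.tendsto 1).comp (s2.mono_left h𝓤)
    have t3 := t1.div (((t2.mul t1).const_sub 1).pow 2)
      (by rw [one_mul]; exact pow_ne_zero 2 (sub_ne_zero.2 v1.symm))
    have t4 : Tendsto (fun n => (((1 - s n ^ 2) / 32 : ℝ) : ℂ) * ψ (F n v)) 𝓤 (𝓝 0) := by
      have t5 : Tendsto (fun n => (1 - s n ^ 2) / 32) 𝓤 (𝓝 0) := by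
        simpa using (((s2.mono_left h𝓤).pow 2).const_sub 1).div_const 32
      refine squeeze_zero_norm (fun n => ?_) t5
      have l1 := (convex_ball (0 : ℂ) 1).norm_image_sub_le_of_norm_deriv_le
        (fun x hx => hψ.diff.differentiableAt (isOpen_ball.mem_nhds hx)) pb
        (mem_ball_self one_pos) (hm n v2)
      rw [p0, sub_zero, sub_zero, one_mul] at l1
      have l2 : 0 ≤ (1 - s n ^ 2) / 32 := by nlinarith [s0 n, s1 n]
      rw [norm_mul, Complex.norm_real, Real.norm_of_nonneg l2]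
      exact mul_le_of_le_one_right l2 (l1.trans (mem_ball_zero_iff.1 (hm n v2)).le)
    have t6 := (t3.add t4).const_mul (ee θ)
    rw [add_zero, one_mul] at t6
    refine tendsto_nhds_unique t6 ((hg.tendsto_at (up_mul_mem hl v2)).congr fun n => ?_)
    exact (up_eqn hl (hF n).1.diff (hFl n) H.pos le_rfl (hm n) v v2).symm
  have hK := up_hasDeriv schlicht_koebe.diff (mem_ball_self one_pos)
  rw [schlicht_koebe.one] at hK
  have hu := lin_unique ((schlicht_koebe.diff.const_mul (ee θ)).analyticAt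
      (ball_mem_nhds 0 one_pos)) ((hK.const_mul (ee θ)).deriv.trans (mul_one _))
    (norm_pos_iff.1 (by rw [hl]; exact one_pos)) hk H hG (x := w) (by rwa [min_self])
  have hle : ‖g w‖ ≤ 1 := le_of_tendsto (hg.tendsto_at hw).norm
    (Eventually.of_forall fun n => (mem_ball_zero_iff.1 (hm n hw)).le)
  rw [hu] at hw1
  linarith

end Pool.Agent.Lib.MP_102662_an
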