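import Pool.Agent.Lib.MP_102662_an.Stage1
import Pool.Agent.Lib.MP_102662_an.Stage2
import Pool.Agent.Lib.MP_102662_an.Upper

open Complex Metric Set Filter Topology

namespace Pool.Agent.Lib.MP_102662_an

theorem both_aux1 {β : ℝ} (hβ0 : 0 < β) (hβ1 : β ≤ 1 / 2000) :
    Real.exp (-(30 * β)) ≤ (1 - β) * (1 - 14 * β) := by
  have h1 : Real.exp (-(30 * β)) ≤ 1 / (1 + 30 * β) := by
    rw [Real.exp_neg, one_div]
    apply inv_anti₀ (by positivity)
    have := Real.add_one_le_exp (30 * β)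
    linarith
  refine h1.trans ?_
  rw [div_le_iff₀ (by positivity)]
  nlinarith [mul_nonneg hβ0.le hβ0.le]

theorem both_aux2 {l Q : ℝ} (hl : 0 < l) (hQ : 10 ≤ Q) (h : 2 * l * Q ≤ 1) :
    l ≤ 1 / 20 ∧ 2 * l ^ 2 ≤ 1 ∧ 2 * l ^ 2 * Q ≤ l := by
  have h1 : l ≤ 1 / 20 := by nlinarith
  exact ⟨h1, by nlinarith, by nlinarith⟩

/-- Two-sided bound for the minimal radius at a Diophantine parameter close to a parameter with
margin. -/
theorem both_bounds : ∃ P₀ : ℝ, ∀ P : ℝ, P₀ ≤ P → ∀ x z r l : ℝ, Good P x → Good P z →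
    0 < l → 2 * l * P ^ 60 ≤ 1 → |z - x| ≤ 2 * l ^ 2 → 1 - 2 * l ^ 2 / x ^ 2 ≤ r → r ≤ 1 →
    P ^ 206 / z ≤ l ^ 20 →
    ∀ (lam0 : ℂ) (h₀ : ℂ → ℂ) (U ρ₁ : ℝ), lam0 = (r : ℂ) * ee (1 / x) →
    Lin (fun z => lam0 * koebe z) lam0 h₀ U → InjOn h₀ (ball 0 U) →
    3 / (2 * x) ≤ ρ₁ → ρ₁ ≤ U * (1 - 4 / (P * x)) → (∀ w ∈ ball (0 : ℂ) ρ₁, ‖h₀ w‖ ≤ 1) →
    (∀ ε : ℝ, 0 < ε → ∃ w ∈ ball (0 : ℂ) U, ‖w‖ < ρ₁ + ε ∧ 1 < ‖h₀ w‖) →
    ENNReal.ofReal (ρ₁ * Real.exp (-(30 * (l / x)))) ≤ rr (1 / z) ∧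
      rr (1 / z) ≤ ENNReal.ofReal (ρ₁ * Real.exp (l / x)) := by
  obtain ⟨P₁, hS1⟩ := stage1
  obtain ⟨P₂, hS2⟩ := stage2
  obtain ⟨P₃, hSt⟩ := struct_koebe
  obtain ⟨P₄, hLo⟩ := low_coarse
  refine ⟨max (max (max P₁ P₂) (max P₃ P₄)) 10, ?_⟩
  intro P hP x z r l hx hz hl hlP hzx hr hr1 hε lam0 h₀ U ρ₁ hlam H hinj hρ₁ hρU hin hout
  simp only [max_le_iff] at hP
  obtain ⟨⟨⟨hP1, hP2⟩, hP3, hP4⟩, hP10⟩ := hP
  have hP1' : (1 : ℝ) ≤ P := by linarith
  have hP60 : (10 : ℝ) ≤ P ^ 60 := hP10.trans (le_self_pow₀ hP1' (by norm_num))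
  have hP100 : (100 : ℝ) ≤ P ^ 100 := by
    have h1 : (10 : ℝ) ^ 2 ≤ P ^ 2 := pow_le_pow_left₀ (by norm_num) hP10 2
    have h2 : P ^ 2 ≤ P ^ 100 := pow_le_pow_right₀ hP1' (by norm_num)
    linarith
  have hx100 : 100 ≤ x := hP100.trans hx.1
  have hz100 : 100 ≤ z := hP100.trans hz.1
  have hx0 : 0 < x := by linarith
  have hz0 : 0 < z := by linarith
  obtain ⟨hl20, hl2, hτ⟩ := both_aux2 hl hP60 hlP
  have hzx' := abs_le.1 (hzx.trans hl2)
  have hρ0 : 0 < ρ₁ := lt_of_lt_of_le (by positivity) hρ₁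
  obtain ⟨h, ρ₄, HL, hi, hρ4, hin', w, hw, hw1, hw2⟩ := hS1 P hP1 x z r (2 * l ^ 2) hx hz
    (by positivity) (by linarith) hzx hr hr1 lam0 h₀ U ρ₁ hlam H hinj hρ0 hρU hin hout
  have hirr : Irrational (1 / z) := by
    have := irrational_of_dio (by positivity) hz.2.2
    rw [one_div]; exact this.inv
  have hk := ee_pow_ne_one hirr
  set β := l / x with hβ
  have hβ0 : 0 < β := by positivity
  have hβ1 : β ≤ 1 / 2000 := by
    rw [hβ, div_le_iff₀ hx0]; linarith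
  have hξ : 2 * l ^ 2 * P ^ 60 / x ≤ β := by
    rw [hβ]; gcongr
  have hξ0 : 0 ≤ 2 * l ^ 2 * P ^ 60 / x := by positivity
  constructor
  · apply rr_ge hk
    intro g hg
    have hexp := both_aux1 hβ0 hβ1
    have hpos : 0 < ρ₁ * Real.exp (-(30 * β)) := by positivity
    by_cases hcase : ‖a2 g‖ ≤ 2 * (1 - P ^ 6 / z)
    · obtain ⟨k, Hk⟩ := hLo P hP4 z hz g hg hcase
      refine ⟨k, Hk.mono hpos ?_⟩
      have hs := (hSt P hP3 z 1 hz (by have : 0 ≤ 1 / z ^ 2 := by positivity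
                                       linarith) le_rfl (ee (1 / z)) h ρ₄ (by simp) HL hi).1
      have hR := (norm_ustar_bounds hz100 (r := 1) (by have : 0 ≤ 1 / z ^ 2 := by positivity
                                                       linarith) le_rfl).1
      simp only [ofReal_one, one_mul] at hR
      have hR0 : 0 < ‖2 / (1 - ee (1 / z))‖ := lt_of_lt_of_le (by positivity) hR
      rw [le_div_iff₀ hR0]
      have h1 : ρ₁ * Real.exp (-(30 * β)) ≤ ρ₄ := by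
        have h2 : Real.exp (-(30 * β)) ≤ 1 := Real.exp_le_one_iff.2 (by linarith)
        have h3 : 0 ≤ 1 / (P * z) := by positivity
        have h4 := HL.pos
        have h5 : ρ₄ * (1 - 1 / (P * z)) ≤ ρ₄ := mul_le_of_le_one_right h4.le (by linarith)
        exact (mul_le_of_le_one_right hρ0.le h2).trans (hρ4.trans h5)
      calc _ ≤ ρ₄ * ‖2 / (1 - ee (1 / z))‖ := mul_le_mul_of_nonneg_right h1 hR0.le
        _ ≤ _ := by rw [mul_comm]; exact hs
    · push Not at hcase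
      have hρ5 : 1 / z ≤ ρ₁ * (1 - 2 * l ^ 2 * P ^ 60 / x) := by
        have h1 : 1 / z ≤ 3 / (2 * x) * (1 - 1 / 2000) := by
          rw [div_mul_eq_mul_div, div_le_div_iff₀ hz0 (by positivity)]
          linarith [hzx'.1]
        refine h1.trans (mul_le_mul hρ₁ (by linarith) (by norm_num) hρ0.le)
      have hρ5' : ρ₁ * (1 - 2 * l ^ 2 * P ^ 60 / x) ≤ ρ₄ * (1 - 1 / (P * z)) :=
        (mul_le_of_le_one_right hρ0.le (by linarith)).trans hρ4
      obtain ⟨k, Hk⟩ := hS2 P hP2 z hz h ρ₄ _ l (P ^ 6 / z) HL hi hρ5 hρ5' hin' hl (by linarith)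
        (by positivity) (by
          have : P ^ 6 / z * P ^ 200 = P ^ 206 / z := by
            rw [div_mul_eq_mul_div, ← pow_add]
          rw [this]; exact hε) g hg hcase.le
      refine ⟨k, Hk.mono hpos ?_⟩
      have h7 : 7 * l / z ≤ 14 * β := by
        rw [hβ, ← mul_div_assoc, div_le_div_iff₀ hz0 hx0]
        have : l * x ≤ l * (2 * z) := mul_le_mul_of_nonneg_left (by linarith [hzx'.1]) hl.le
        linarith
      calc ρ₁ * Real.exp (-(30 * β)) ≤ ρ₁ * ((1 - β) * (1 - 14 * β)) := by gcongr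
        _ ≤ ρ₁ * ((1 - 2 * l ^ 2 * P ^ 60 / x) * (1 - 7 * l / z)) := by
            apply mul_le_mul_of_nonneg_left _ hρ0.le
            apply mul_le_mul (by linarith) (by linarith) (by linarith) (by linarith)
        _ = _ := by ring
  · have hm : 0 < min ρ₄ (ρ₁ * (1 + 2 * l ^ 2 * P ^ 60 / x)) := lt_min HL.pos (by positivity)
    have h1 := rr_le hk (HL.mono hm (min_le_left _ _)) (w := w)
      (by rw [mem_ball_zero_iff] at hw ⊢; exact lt_min hw hw1) hw2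
    refine h1.trans (ENNReal.ofReal_le_ofReal ((min_le_right _ _).trans ?_))
    apply mul_le_mul_of_nonneg_left _ hρ0.le
    have := Real.add_one_le_exp β
    linarith

end Pool.Agent.Lib.MP_102662_an
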