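import Pool.Agent.Lib.MP_102662_an.Defs

open Complex Metric Set Filter Topology

namespace Pool.Agent.Lib.MP_102662_an

theorem cfr_mem {l : List ℕ} (hl : ∀ a ∈ l, 1 ≤ a) {t : ℝ} (ht : t ∈ Ioo (0 : ℝ) 1) :
    cfr l t ∈ Ioo (0 : ℝ) 1 := by
  induction l with
  | nil => simpa [cfr] using ht
  | cons a l ih =>
    have h1 : (1 : ℝ) ≤ a := by exact_mod_cast hl a (by simp)
    have h2 := ih (fun b hb => hl b (by simp [hb]))
    have h3 : (1 : ℝ) < a + cfr l t := by linarith [h2.1]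
    refine ⟨?_, ?_⟩
    · simp only [cfr]; positivity
    · simp only [cfr]
      rw [div_lt_one (by linarith)]
      exact h3

theorem cfa_bterm_zero (θ : ℝ) : bterm θ 0 = Real.log (1 / θ) := by
  simp [bterm]

theorem cfa_bterm_succ (θ : ℝ) (n : ℕ) : bterm θ (n + 1) = θ * bterm (gauss θ) n := by
  unfold bterm gauss
  rw [Finset.prod_range_succ']
  simp only [Function.iterate_succ_apply, Function.iterate_zero, id_eq]
  ring

theorem cfa_gauss_inv (a : ℕ) {s : ℝ} (hs : s ∈ Ioo (0 : ℝ) 1) : gauss (1 / ((a : ℝ) + s)) = s := by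
  unfold gauss
  rw [one_div_one_div, Int.fract_natCast_add, Int.fract_eq_self.2 ⟨hs.1.le, hs.2⟩]

theorem bterm_cfr {l : List ℕ} (hl : ∀ a ∈ l, 1 ≤ a) {t : ℝ} (ht : t ∈ Ioo (0 : ℝ) 1)
    (hs : Summable (bterm t)) :
    Summable (bterm (cfr l t)) ∧
      ∑' n, bterm (cfr l t) n = Ssum l t + bet l t * ∑' n, bterm t n := by
  induction l with
  | nil => simpa [cfr, Ssum, bet] using hs
  | cons a l ih =>
    have hl' : ∀ b ∈ l, 1 ≤ b := fun b hb => hl b (by simp [hb])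
    obtain ⟨h1, h2⟩ := ih hl'
    have hg : gauss (cfr (a :: l) t) = cfr l t := by
      simp only [cfr]
      exact cfa_gauss_inv a (cfr_mem hl' ht)
    have hsucc : ∀ n, bterm (cfr (a :: l) t) (n + 1) = cfr (a :: l) t * bterm (cfr l t) n := by
      intro n
      rw [cfa_bterm_succ, hg]
    have hs1 : Summable (fun n => bterm (cfr (a :: l) t) (n + 1)) := by
      simp only [hsucc]
      exact h1.mul_left _
    have hs2 : Summable (bterm (cfr (a :: l) t)) := (summable_nat_add_iff 1).1 hs1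
    refine ⟨hs2, ?_⟩
    rw [hs2.tsum_eq_zero_add]
    simp only [hsucc]
    rw [tsum_mul_left, h2, cfa_bterm_zero]
    simp only [Ssum, bet]
    ring

theorem cfa_sqrt5 : (2 : ℝ) < Real.sqrt 5 ∧ Real.sqrt 5 < 7 / 3 := by
  constructor
  · rw [Real.lt_sqrt (by norm_num)]; norm_num
  · rw [Real.sqrt_lt' (by norm_num)]; norm_num

theorem gold_mem : gold ∈ Ioo (0 : ℝ) 1 := by
  have h := cfa_sqrt5
  unfold gold
  constructor <;> linarith [h.1, h.2]

theorem cfa_gold_inv : 1 / gold = 1 + gold := by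
  have h := gold_mem.1
  have h5 : Real.sqrt 5 * Real.sqrt 5 = 5 := Real.mul_self_sqrt (by norm_num)
  rw [div_eq_iff h.ne']
  unfold gold
  nlinarith

theorem cfa_gauss_gold : gauss gold = gold := by
  unfold gauss
  rw [cfa_gold_inv, Int.fract_one_add, Int.fract_eq_self.2 ⟨gold_mem.1.le, gold_mem.2⟩]

theorem cfa_bterm_gold_eq (n : ℕ) : bterm gold n = gold ^ n * Real.log (1 / gold) := by
  induction n with
  | zero => simp [cfa_bterm_zero]
  | succ n ih => rw [cfa_bterm_succ, cfa_gauss_gold, ih]; ring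

theorem bterm_gold : Summable (bterm gold) ∧ 0 ≤ ∑' n, bterm gold n ∧ ∑' n, bterm gold n ≤ 2 := by
  have hf : bterm gold = fun n => gold ^ n * Real.log (1 / gold) := funext cfa_bterm_gold_eq
  have h0 := gold_mem.1
  have h1 := gold_mem.2
  have hgeo : Summable (fun n : ℕ => gold ^ n) := summable_geometric_of_lt_one h0.le h1
  have hlog0 : 0 ≤ Real.log (1 / gold) := by
    rw [cfa_gold_inv]; exact Real.log_nonneg (by linarith)
  have hlog1 : Real.log (1 / gold) ≤ gold := by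
    rw [cfa_gold_inv]
    have := Real.log_le_sub_one_of_pos (x := 1 + gold) (by linarith)
    linarith
  have hg : gold ≤ 2 / 3 := by
    have := cfa_sqrt5.2
    unfold gold; linarith
  rw [hf]
  refine ⟨hgeo.mul_right _, ?_, ?_⟩
  · exact tsum_nonneg fun n => mul_nonneg (pow_nonneg h0.le _) hlog0
  · rw [tsum_mul_right, tsum_geometric_of_lt_one h0.le h1]
    have h2 : 0 < 1 - gold := by linarith
    rw [inv_mul_le_iff₀ h2]
    linarith

theorem cfa_mobius_aux {l : List ℕ} (hl : ∀ a ∈ l, 1 ≤ a) :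
    ∃ p₁ p₂ q₁ q₂ : ℕ, 1 ≤ q₁ ∧ q₂ ≤ q₁ ∧ q₂ + p₂ ≤ q₁ + p₁ ∧
      |(p₁ : ℤ) * q₂ - (p₂ : ℤ) * q₁| = 1 ∧
      ∀ t ∈ Ioo (0 : ℝ) 1, cfr l t = (p₁ + p₂ * t) / (q₁ + q₂ * t) ∧
        bet l t = 1 / (q₁ + q₂ * t) := by
  induction l with
  | nil =>
    refine ⟨0, 1, 1, 0, le_rfl, by norm_num, by norm_num, by norm_num, fun t _ => ?_⟩
    simp [cfr, bet]
  | cons a l ih =>
    have hl' : ∀ b ∈ l, 1 ≤ b := fun b hb => hl b (by simp [hb])
    have ha : 1 ≤ a := hl a (by simp)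
    obtain ⟨p₁, p₂, q₁, q₂, h1, h2, h3, h4, h5⟩ := ih hl'
    obtain ⟨b, rfl⟩ : ∃ b, a = b + 1 := ⟨a - 1, by omega⟩
    have hm : b * q₂ ≤ b * q₁ := Nat.mul_le_mul_left b h2
    refine ⟨q₁, q₂, (b + 1) * q₁ + p₁, (b + 1) * q₂ + p₂, by nlinarith, by nlinarith,
      by nlinarith, ?_, fun t ht => ?_⟩
    · rw [← h4, ← abs_neg]
      congr 1
      push_cast
      ring
    · obtain ⟨e1, e2⟩ := h5 t ht
      have hq1 : (1 : ℝ) ≤ q₁ := by exact_mod_cast h1
      have hd : (0 : ℝ) < q₁ + q₂ * t := by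
        have : (0 : ℝ) ≤ q₂ * t := mul_nonneg (Nat.cast_nonneg _) ht.1.le
        linarith
      have hn : (0 : ℝ) ≤ p₁ + p₂ * t :=
        add_nonneg (Nat.cast_nonneg _) (mul_nonneg (Nat.cast_nonneg _) ht.1.le)
      have hb : (0 : ℝ) ≤ b := Nat.cast_nonneg _
      have hd' : (0 : ℝ) < ((b : ℝ) + 1) * (q₁ + q₂ * t) + (p₁ + p₂ * t) := by positivity
      have hc : cfr ((b + 1) :: l) t
          = (q₁ + q₂ * t) / (((b : ℝ) + 1) * (q₁ + q₂ * t) + (p₁ + p₂ * t)) := by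
        simp only [cfr]
        rw [e1]
        push_cast
        generalize (q₁ : ℝ) + q₂ * t = D at hd hd' ⊢
        generalize (p₁ : ℝ) + p₂ * t = N at hn hd' ⊢
        field_simp
      have he : (((b + 1) * q₁ + p₁ : ℕ) : ℝ) + (((b + 1) * q₂ + p₂ : ℕ) : ℝ) * t
          = ((b : ℝ) + 1) * (q₁ + q₂ * t) + (p₁ + p₂ * t) := by
        push_cast; ring
      refine ⟨?_, ?_⟩
      · rw [hc, he]
      · simp only [bet]
        rw [hc, he, e2]
        field_simp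

/-- Unimodular form of a finite continued fraction. -/
theorem cfr_mobius {l : List ℕ} (hl : ∀ a ∈ l, 1 ≤ a) :
    ∃ p₁ p₂ q₁ q₂ : ℕ, 1 ≤ q₁ ∧ q₂ ≤ q₁ ∧ |(p₁ : ℤ) * q₂ - (p₂ : ℤ) * q₁| = 1 ∧
      ∀ t ∈ Ioo (0 : ℝ) 1, cfr l t = (p₁ + p₂ * t) / (q₁ + q₂ * t) ∧
        bet l t = 1 / (q₁ + q₂ * t) := by
  obtain ⟨p₁, p₂, q₁, q₂, h1, h2, _, h4, h5⟩ := cfa_mobius_aux hl
  exact ⟨p₁, p₂, q₁, q₂, h1, h2, h4, h5⟩

theorem cfa_cfr_append (l : List ℕ) (a : ℕ) (s : ℝ) :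
    cfr (l ++ [a]) s = cfr l (1 / ((a : ℝ) + s)) := by
  induction l with
  | nil => simp [cfr]
  | cons b l ih => simp only [List.cons_append, cfr, ih]

theorem cfa_bet_append (l : List ℕ) (a : ℕ) (s : ℝ) :
    bet (l ++ [a]) s = bet l (1 / ((a : ℝ) + s)) * (1 / ((a : ℝ) + s)) := by
  induction l with
  | nil => simp [cfr, bet]
  | cons b l ih =>
    have h := cfa_cfr_append (b :: l) a s
    rw [List.cons_append] at h
    simp only [List.cons_append, bet]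
    rw [ih, h]
    ring

/-- One step of the Gauss algorithm at an irrational point of the unit interval. -/
theorem cfa_step {t : ℝ} (ht : t ∈ Ioo (0 : ℝ) 1) (hi : Irrational t) :
    gauss t ∈ Ioo (0 : ℝ) 1 ∧ Irrational (gauss t) ∧ 1 ≤ ⌊1 / t⌋₊ ∧
      t = 1 / ((⌊1 / t⌋₊ : ℝ) + gauss t) := by
  have h1 : 1 < 1 / t := by rw [lt_div_iff₀ ht.1]; linarith [ht.2]
  have hi1 : Irrational (1 / t) := by rw [one_div]; exact hi.inv
  have hi2 : Irrational (gauss t) := by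
    unfold gauss Int.fract
    exact hi1.sub_intCast _
  have h0 : gauss t ≠ 0 := by
    intro h
    exact hi2.ne_zero h
  refine ⟨⟨lt_of_le_of_ne (Int.fract_nonneg _) h0.symm, Int.fract_lt_one _⟩, hi2, ?_, ?_⟩
  · exact Nat.le_floor (by simpa using h1.le)
  · have h2 : ((⌊1 / t⌋₊ : ℕ) : ℝ) = ((⌊1 / t⌋ : ℤ) : ℝ) :=
      natCast_floor_eq_intCast_floor (by linarith)
    rw [h2]
    unfold gauss
    rw [Int.floor_add_fract, one_div_one_div]

/-- The list of the first digits of the expansion. -/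
noncomputable def cfaDigits (y : ℝ) : ℕ → List ℕ
  | 0 => []
  | n + 1 => cfaDigits y n ++ [⌊1 / gauss^[n] y⌋₊]

theorem cfa_seq {y : ℝ} (hy : y ∈ Ioo (0 : ℝ) 1) (hi : Irrational y) (n : ℕ) :
    gauss^[n] y ∈ Ioo (0 : ℝ) 1 ∧ Irrational (gauss^[n] y) ∧ (∀ a ∈ cfaDigits y n, 1 ≤ a) ∧
      cfr (cfaDigits y n) (gauss^[n] y) = y ∧
      bet (cfaDigits y n) (gauss^[n] y) = ∏ j ∈ Finset.range n, gauss^[j] y := by
  induction n with
  | zero => simpa [cfaDigits, cfr, bet] using ⟨hy, hi⟩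
  | succ n ih =>
    obtain ⟨h1, h2, h3, h4, h5⟩ := ih
    obtain ⟨g1, g2, g3, g4⟩ := cfa_step h1 h2
    rw [Function.iterate_succ_apply']
    refine ⟨g1, g2, ?_, ?_, ?_⟩
    · intro a ha
      simp only [cfaDigits, List.mem_append, List.mem_singleton] at ha
      rcases ha with ha | ha
      · exact h3 a ha
      · rw [ha]; exact g3
    · simp only [cfaDigits]
      rw [cfa_cfr_append, ← g4, h4]
    · simp only [cfaDigits]
      rw [cfa_bet_append, ← g4, h5, Finset.prod_range_succ]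

theorem cfa_two_step {t : ℝ} (ht : t ∈ Ioo (0 : ℝ) 1) (hi : Irrational t) :
    t * gauss t ≤ 1 / 2 := by
  obtain ⟨g1, _, g3, g4⟩ := cfa_step ht hi
  have h1 : (1 : ℝ) ≤ (⌊1 / t⌋₊ : ℝ) := by exact_mod_cast g3
  have h2 : t * ((⌊1 / t⌋₊ : ℝ) + gauss t) = 1 := by
    have h0 : (0 : ℝ) < (⌊1 / t⌋₊ : ℝ) + gauss t := by linarith [g1.1]
    calc t * ((⌊1 / t⌋₊ : ℝ) + gauss t)
        = 1 / ((⌊1 / t⌋₊ : ℝ) + gauss t) * ((⌊1 / t⌋₊ : ℝ) + gauss t) := by rw [← g4]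
      _ = 1 := by field_simp
  nlinarith [mul_le_mul_of_nonneg_left h1 ht.1.le, mul_le_mul_of_nonneg_left g1.2.le ht.1.le]

theorem cfa_prod_le {y : ℝ} (hy : y ∈ Ioo (0 : ℝ) 1) (hi : Irrational y) (k : ℕ) :
    ∏ j ∈ Finset.range (2 * k), gauss^[j] y ≤ (1 / 2) ^ k := by
  induction k with
  | zero => simp
  | succ k ih =>
    obtain ⟨h1, h2, -⟩ := cfa_seq hy hi (2 * k)
    have h3 := cfa_two_step h1 h2
    have h4 : 0 ≤ ∏ j ∈ Finset.range (2 * k), gauss^[j] y :=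
      Finset.prod_nonneg fun j _ => (cfa_seq hy hi j).1.1.le
    rw [show 2 * (k + 1) = 2 * k + 1 + 1 by ring, Finset.prod_range_succ, Finset.prod_range_succ,
      Function.iterate_succ_apply', mul_assoc, pow_succ]
    exact mul_le_mul ih h3 (mul_nonneg h1.1.le (cfa_step h1 h2).1.1.le) (by positivity)

theorem cfa_irrational {x γ : ℝ} (hγ : 0 < γ) (hx : Dio2 x γ) : Irrational x := by
  rintro ⟨r, hr⟩
  have h := hx r.den r.pos r.num
  have hd : (0 : ℝ) < r.den := by exact_mod_cast r.pos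
  have h0 : (r.den : ℝ) * x - r.num = 0 := by
    rw [← hr, Rat.cast_def]
    field_simp
    ring
  rw [h0, abs_zero] at h
  have : 0 < γ / (r.den : ℝ) ^ 2 := by positivity
  linarith

/-- Expansion of a Diophantine number down to a prescribed scale. -/
theorem cf_expand {x γ Q : ℝ} (hγ : 0 < γ) (hγ1 : γ ≤ 1) (hx : Dio2 x γ) (hQ : 2 ≤ Q) :
    ∃ (l : List ℕ) (t : ℝ), (∀ a ∈ l, 1 ≤ a) ∧ t ∈ Ioo (0 : ℝ) 1 ∧ x = ⌊x⌋ + cfr l t ∧
      γ / Q ^ 2 ≤ bet l t ∧ bet l t ≤ 1 / Q := by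
  classical
  have hix := cfa_irrational hγ hx
  have hi : Irrational (Int.fract x) := by
    unfold Int.fract
    exact hix.sub_intCast _
  have hy : Int.fract x ∈ Ioo (0 : ℝ) 1 :=
    ⟨lt_of_le_of_ne (Int.fract_nonneg _) hi.ne_zero.symm, Int.fract_lt_one _⟩
  set y := Int.fract x with hydef
  have hQ0 : 0 < Q := by linarith
  have hex : ∃ n, ∏ j ∈ Finset.range n, gauss^[j] y ≤ 1 / Q := by
    obtain ⟨k, hk⟩ := exists_pow_lt_of_lt_one (x := 1 / Q) (y := 1 / 2) (by positivity) (by norm_num)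
    exact ⟨2 * k, (cfa_prod_le hy hi k).trans hk.le⟩
  have hspec := Nat.find_spec hex
  have hne : Nat.find hex ≠ 0 := by
    intro h
    rw [h] at hspec
    simp only [Finset.range_zero, Finset.prod_empty] at hspec
    rw [le_div_iff₀ hQ0] at hspec
    linarith
  obtain ⟨m, hm⟩ : ∃ m, Nat.find hex = m + 1 := ⟨Nat.find hex - 1, by omega⟩
  have hmin : ¬ ∏ j ∈ Finset.range m, gauss^[j] y ≤ 1 / Q := Nat.find_min hex (by omega)
  rw [hm] at hspec
  obtain ⟨a1, -, a3, a4, a5⟩ := cfa_seq hy hi (m + 1)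
  obtain ⟨b1, -, b3, b4, b5⟩ := cfa_seq hy hi m
  refine ⟨cfaDigits y (m + 1), gauss^[m + 1] y, a3, a1, ?_, ?_, ?_⟩
  · rw [a4, hydef, Int.floor_add_fract]
  · rw [a5, Finset.prod_range_succ]
    obtain ⟨p₁, p₂, q₁, q₂, h1, -, h4, h5⟩ := cfr_mobius b3
    obtain ⟨e1, e2⟩ := h5 _ b1
    rw [b4] at e1
    rw [b5] at e2
    set s := gauss^[m] y with hs
    have hq1 : (1 : ℝ) ≤ q₁ := by exact_mod_cast h1
    have hq2 : (0 : ℝ) ≤ q₂ * s := mul_nonneg (Nat.cast_nonneg _) b1.1.le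
    have hd : (0 : ℝ) < q₁ + q₂ * s := by linarith
    have hlt : (q₁ : ℝ) + q₂ * s < Q := by
      rw [e2, not_le] at hmin
      exact lt_of_one_div_lt_one_div hQ0 hmin
    have hD := hx q₁ h1 ((q₁ : ℤ) * ⌊x⌋ + p₁)
    have h4' : |(p₁ : ℝ) * q₂ - (p₂ : ℝ) * q₁| = 1 := by exact_mod_cast h4
    have hxe : x = ⌊x⌋ + y := by rw [hydef, Int.floor_add_fract]
    have hkey : (q₁ : ℝ) * x - (((q₁ : ℤ) * ⌊x⌋ + p₁ : ℤ) : ℝ)
        = -((p₁ : ℝ) * q₂ - (p₂ : ℝ) * q₁) * (1 / (q₁ + q₂ * s) * s) := by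
      push_cast
      have : (q₁ : ℝ) * x - (q₁ * ⌊x⌋ + p₁) = q₁ * y - p₁ := by
        conv_lhs => rw [hxe]
        simp only [Int.floor_intCast_add]
        have hf : ⌊y⌋ = 0 := Int.floor_eq_zero_iff.2 ⟨hy.1.le, hy.2⟩
        rw [hf]
        push_cast
        ring
      have h6 : (q₁ : ℝ) * y - p₁ = (q₁ * (p₁ + p₂ * s) - p₁ * (q₁ + q₂ * s)) / (q₁ + q₂ * s) := by
        rw [e1, sub_div, mul_div_assoc, mul_div_assoc, div_self hd.ne', mul_one]
      rw [this, h6, div_eq_mul_one_div]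
      ring
    rw [hkey, abs_mul, abs_neg, h4', one_mul,
      abs_of_nonneg (mul_nonneg (by positivity) b1.1.le)] at hD
    rw [e2]
    refine le_trans ?_ hD
    apply div_le_div_of_nonneg_left hγ.le (by positivity)
    have : (q₁ : ℝ) ≤ Q := by linarith
    exact pow_le_pow_left₀ (by linarith) this 2
  · rw [a5]; exact hspec

end Pool.Agent.Lib.MP_102662_an
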