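import Pool.Agent.Lib.MP_102662_an.CFa

open Complex Metric Set Filter Topology

namespace Pool.Agent.Lib.MP_102662_an

theorem CFb_tail {a : ℕ} {l : List ℕ} (hl : ∀ b ∈ a :: l, 1 ≤ b) : ∀ b ∈ l, 1 ≤ b :=
  fun b hb => hl b (List.mem_cons_of_mem _ hb)

theorem CFb_head {a : ℕ} {l : List ℕ} (hl : ∀ b ∈ a :: l, 1 ≤ b) : (1 : ℝ) ≤ a := by
  exact_mod_cast hl a List.mem_cons_self

theorem CFb_bet_mem {t : ℝ} (ht : t ∈ Ioo (0 : ℝ) 1) :
    ∀ l : List ℕ, (∀ a ∈ l, 1 ≤ a) → 0 < bet l t ∧ bet l t ≤ 1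
  | [], _ => by simp [bet]
  | a :: l, hl => by
    obtain ⟨h1, h2⟩ := CFb_bet_mem ht l (CFb_tail hl)
    obtain ⟨h3, h4⟩ := cfr_mem hl ht
    refine ⟨mul_pos h3 h1, ?_⟩
    show cfr (a :: l) t * bet l t ≤ 1
    nlinarith

theorem CFb_bet_geom {t : ℝ} (ht : t ∈ Ioo (0 : ℝ) 1) :
    ∀ l : List ℕ, (∀ a ∈ l, 1 ≤ a) → bet l t ≤ (49 / 64 : ℝ) ^ l.length * (1 + cfr l t)
  | [], _ => by
    have := ht.1
    simp [bet, cfr]; linarith
  | a :: l, hl => by
    have ih := CFb_bet_geom ht l (CFb_tail hl)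
    obtain ⟨h3, h4⟩ := cfr_mem hl ht
    obtain ⟨h5, h6⟩ := cfr_mem (CFb_tail hl) ht
    have ha := CFb_head hl
    have hx : cfr (a :: l) t * ((a : ℝ) + cfr l t) = 1 := by
      show 1 / ((a : ℝ) + cfr l t) * ((a : ℝ) + cfr l t) = 1
      field_simp
    set x := cfr (a :: l) t with hxdef
    set y := cfr l t
    have hp : (0 : ℝ) < (49 / 64 : ℝ) ^ l.length := by positivity
    have key : x * (1 + y) ≤ 49 / 64 * (1 + x) := by
      have k1 : x * (1 + y) ≤ 1 := by nlinarith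
      have k2 : x * (1 + y) ≤ 2 * x := by nlinarith
      rcases le_total x (1 / 2) with h | h <;> linarith
    show x * bet l t ≤ (49 / 64 : ℝ) ^ (l.length + 1) * (1 + x)
    calc x * bet l t ≤ x * ((49 / 64 : ℝ) ^ l.length * (1 + y)) :=
          mul_le_mul_of_nonneg_left ih h3.le
      _ = (49 / 64 : ℝ) ^ l.length * (x * (1 + y)) := by ring
      _ ≤ (49 / 64 : ℝ) ^ l.length * (49 / 64 * (1 + x)) :=
          mul_le_mul_of_nonneg_left key hp.le
      _ = (49 / 64 : ℝ) ^ (l.length + 1) * (1 + x) := by ring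

theorem CFb_Ssum_mem {t : ℝ} (ht : t ∈ Ioo (0 : ℝ) 1) :
    ∀ l : List ℕ, (∀ a ∈ l, 1 ≤ a) → 0 ≤ Ssum l t ∧ Ssum l t ≤ -Real.log (bet l t)
  | [], _ => by simp [Ssum, bet]
  | a :: l, hl => by
    obtain ⟨h1, h2⟩ := CFb_Ssum_mem ht l (CFb_tail hl)
    obtain ⟨h3, h4⟩ := cfr_mem hl ht
    obtain ⟨h5, _⟩ := CFb_bet_mem ht l (CFb_tail hl)
    have hlog : Real.log (cfr (a :: l) t) ≤ 0 := Real.log_nonpos h3.le h4.le
    have e1 : Ssum (a :: l) t = -Real.log (cfr (a :: l) t) + cfr (a :: l) t * Ssum l t := by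
      show Real.log (1 / cfr (a :: l) t) + cfr (a :: l) t * Ssum l t = _
      rw [one_div, Real.log_inv]
    have e2 : Real.log (bet (a :: l) t) = Real.log (cfr (a :: l) t) + Real.log (bet l t) := by
      show Real.log (cfr (a :: l) t * bet l t) = _
      exact Real.log_mul h3.ne' h5.ne'
    rw [e1, e2]
    constructor
    · have := mul_nonneg h3.le h1
      linarith
    · nlinarith

theorem CFb_cfr_diff {t t' : ℝ} (ht : t ∈ Ioo (0 : ℝ) 1) (ht' : t' ∈ Ioo (0 : ℝ) 1) :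
    ∀ l : List ℕ, (∀ a ∈ l, 1 ≤ a) → |cfr l t - cfr l t'| ≤ bet l t * bet l t'
  | [], _ => by
    have := ht.1; have := ht.2; have := ht'.1; have := ht'.2
    simp only [cfr, bet, mul_one, abs_le]
    constructor <;> linarith
  | a :: l, hl => by
    have ih := CFb_cfr_diff ht ht' l (CFb_tail hl)
    obtain ⟨h3, _⟩ := cfr_mem hl ht
    obtain ⟨h3', _⟩ := cfr_mem hl ht'
    obtain ⟨h5, _⟩ := cfr_mem (CFb_tail hl) ht
    obtain ⟨h5', _⟩ := cfr_mem (CFb_tail hl) ht'
    have ha := CFb_head hl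
    have e : cfr (a :: l) t - cfr (a :: l) t' =
        cfr (a :: l) t * cfr (a :: l) t' * (cfr l t' - cfr l t) := by
      show 1 / ((a : ℝ) + cfr l t) - 1 / ((a : ℝ) + cfr l t') =
        1 / ((a : ℝ) + cfr l t) * (1 / ((a : ℝ) + cfr l t')) * (cfr l t' - cfr l t)
      field_simp
      ring
    rw [e, abs_mul, abs_of_pos (mul_pos h3 h3'), abs_sub_comm]
    show _ ≤ (cfr (a :: l) t * bet l t) * (cfr (a :: l) t' * bet l t')
    calc cfr (a :: l) t * cfr (a :: l) t' * |cfr l t - cfr l t'|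
        ≤ cfr (a :: l) t * cfr (a :: l) t' * (bet l t * bet l t') :=
          mul_le_mul_of_nonneg_left ih (mul_pos h3 h3').le
      _ = _ := by ring

theorem CFb_log_diff {u v : ℝ} (hu : 0 < u) (hv : 0 < v) (h : u ≤ 2 * v) :
    |Real.log u - Real.log v| ≤ 2 * (1 / u) * |u - v| := by
  have h1 : Real.log u - Real.log v ≤ (u - v) / v := by
    rw [← Real.log_div hu.ne' hv.ne']
    have := Real.log_le_sub_one_of_pos (div_pos hu hv)
    have e : (u - v) / v = u / v - 1 := by field_simp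
    linarith
  have h2 : Real.log v - Real.log u ≤ (v - u) / u := by
    rw [← Real.log_div hv.ne' hu.ne']
    have := Real.log_le_sub_one_of_pos (div_pos hv hu)
    have e : (v - u) / u = v / u - 1 := by field_simp
    linarith
  have h3 : (u - v) / v ≤ 2 * (1 / u) * |u - v| := by
    have a1 : (u - v) / v ≤ |u - v| / v := div_le_div_of_nonneg_right (le_abs_self _) hv.le
    have a2 : 1 / v ≤ 2 * (1 / u) := by
      rw [mul_one_div, div_le_div_iff₀ hv hu]; linarith
    have a3 : |u - v| / v = 1 / v * |u - v| := by ring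
    have a4 := mul_le_mul_of_nonneg_right a2 (abs_nonneg (u - v))
    linarith
  have h4 : (v - u) / u ≤ 2 * (1 / u) * |u - v| := by
    have a1 : (v - u) / u ≤ |u - v| / u := by
      apply div_le_div_of_nonneg_right _ hu.le
      rw [abs_sub_comm]; exact le_abs_self _
    have a3 : |u - v| / u = 1 / u * |u - v| := by ring
    have a4 : 0 ≤ 1 / u * |u - v| := by positivity
    linarith
  rw [abs_le]
  constructor <;> linarith

theorem CFb_step {t : ℝ} (ht : t ∈ Ioo (0 : ℝ) 1) (l : List ℕ) (hl : ∀ a ∈ l, 1 ≤ a) :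
    (2 + Ssum l t) * bet l t ≤ 8 * (7 / 8 : ℝ) ^ l.length := by
  obtain ⟨h1, h2⟩ := CFb_bet_mem ht l hl
  obtain ⟨h3, h4⟩ := CFb_Ssum_mem ht l hl
  obtain ⟨_, h6⟩ := cfr_mem hl ht
  have h7 := CFb_bet_geom ht l hl
  set b := bet l t
  have hs : 0 < Real.sqrt b := Real.sqrt_pos.mpr h1
  have hss : Real.sqrt b * Real.sqrt b = b := Real.mul_self_sqrt h1.le
  set s := Real.sqrt b
  have hs1 : s ≤ 1 := by nlinarith
  have hq : (0 : ℝ) < (7 / 8 : ℝ) ^ l.length := by positivity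
  have hqq : (49 / 64 : ℝ) ^ l.length = (7 / 8 : ℝ) ^ l.length * (7 / 8 : ℝ) ^ l.length := by
    rw [← mul_pow]; norm_num
  set q := (7 / 8 : ℝ) ^ l.length
  have hsq : s ≤ 2 * q := by
    rw [hqq] at h7
    have : s * s ≤ (2 * q) * (2 * q) := by nlinarith [mul_pos hq hq]
    exact (mul_self_le_mul_self_iff hs.le (by positivity)).mpr this
  have hlog : -Real.log b ≤ 2 / s := by
    have e : Real.log b = 2 * Real.log s := by
      rw [← hss, Real.log_mul hs.ne' hs.ne']; ring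
    have := Real.log_le_sub_one_of_pos (inv_pos.mpr hs)
    rw [Real.log_inv] at this
    have e2 : 2 / s = 2 * s⁻¹ := by ring
    linarith
  have hb : Ssum l t * b ≤ 2 * s := by
    calc Ssum l t * b ≤ 2 / s * b := mul_le_mul_of_nonneg_right (h4.trans hlog) h1.le
      _ = 2 * s := by rw [← hss]; field_simp
  have hb2 : b ≤ s := by nlinarith
  nlinarith

theorem CFb_main {t t' : ℝ} (ht : t ∈ Ioo (0 : ℝ) 1) (ht' : t' ∈ Ioo (0 : ℝ) 1) :
    ∀ l : List ℕ, (∀ a ∈ l, 1 ≤ a) →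
      |Ssum l t - Ssum l t'| ≤ (64 - 64 * (7 / 8 : ℝ) ^ l.length) * bet l t
  | [], _ => by simp [Ssum]
  | a :: l, hl => by
    have hl' := CFb_tail hl
    have ih := CFb_main ht ht' l hl'
    have hstep := CFb_step ht' l hl'
    have hd := CFb_cfr_diff ht ht' l hl'
    have hd2 := CFb_cfr_diff ht ht' (a :: l) hl
    obtain ⟨h3, h4⟩ := cfr_mem hl ht
    obtain ⟨h3', h4'⟩ := cfr_mem hl ht'
    obtain ⟨h5, h6⟩ := cfr_mem hl' ht
    obtain ⟨h5', h6'⟩ := cfr_mem hl' ht'
    obtain ⟨b1, _⟩ := CFb_bet_mem ht l hl'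
    obtain ⟨b1', _⟩ := CFb_bet_mem ht' l hl'
    obtain ⟨s1', _⟩ := CFb_Ssum_mem ht' l hl'
    have ha := CFb_head hl
    have hu : (0 : ℝ) < (a : ℝ) + cfr l t := by linarith
    have hv : (0 : ℝ) < (a : ℝ) + cfr l t' := by linarith
    have hlog := CFb_log_diff hu hv (by linarith)
    have ex : cfr (a :: l) t = 1 / ((a : ℝ) + cfr l t) := rfl
    have ex' : cfr (a :: l) t' = 1 / ((a : ℝ) + cfr l t') := rfl
    have e1 : Ssum (a :: l) t = Real.log ((a : ℝ) + cfr l t) + cfr (a :: l) t * Ssum l t := by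
      show Real.log (1 / cfr (a :: l) t) + cfr (a :: l) t * Ssum l t = _
      rw [ex, one_div_one_div]
    have e1' : Ssum (a :: l) t' = Real.log ((a : ℝ) + cfr l t') + cfr (a :: l) t' * Ssum l t' := by
      show Real.log (1 / cfr (a :: l) t') + cfr (a :: l) t' * Ssum l t' = _
      rw [ex', one_div_one_div]
    have eb : bet (a :: l) t = cfr (a :: l) t * bet l t := rfl
    have eb' : bet (a :: l) t' = cfr (a :: l) t' * bet l t' := rfl
    rw [← ex, show (a : ℝ) + cfr l t - ((a : ℝ) + cfr l t') = cfr l t - cfr l t' by ring] at hlog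
    rw [eb, eb'] at hd2
    rw [e1, e1', eb, List.length_cons, pow_succ]
    set x := cfr (a :: l) t
    set x' := cfr (a :: l) t'
    set B := bet l t
    set B' := bet l t'
    set q := (7 / 8 : ℝ) ^ l.length
    set L := Real.log ((a : ℝ) + cfr l t) - Real.log ((a : ℝ) + cfr l t') with hL
    have e : Real.log ((a : ℝ) + cfr l t) + x * Ssum l t -
        (Real.log ((a : ℝ) + cfr l t') + x' * Ssum l t') =
        L + x * (Ssum l t - Ssum l t') + (x - x') * Ssum l t' := by rw [hL]; ring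
    rw [e]
    have t1 : |L| ≤ 2 * x * (B * B') :=
      hlog.trans (mul_le_mul_of_nonneg_left hd (by positivity))
    have t2 : |x * (Ssum l t - Ssum l t')| ≤ x * ((64 - 64 * q) * B) := by
      rw [abs_mul, abs_of_pos h3]
      exact mul_le_mul_of_nonneg_left ih h3.le
    have t3 : |(x - x') * Ssum l t'| ≤ x * B * B' * Ssum l t' := by
      rw [abs_mul, abs_of_nonneg s1']
      apply mul_le_mul_of_nonneg_right _ s1'
      refine hd2.trans ?_
      have : x' * B' ≤ B' := by nlinarith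
      exact mul_le_mul_of_nonneg_left this (by positivity)
    have t4 : x * B * ((2 + Ssum l t') * B') ≤ x * B * (8 * q) :=
      mul_le_mul_of_nonneg_left hstep (by positivity)
    calc |L + x * (Ssum l t - Ssum l t') + (x - x') * Ssum l t'|
        ≤ |L| + |x * (Ssum l t - Ssum l t')| + |(x - x') * Ssum l t'| := abs_add_three _ _ _
      _ ≤ 2 * x * (B * B') + x * ((64 - 64 * q) * B) + x * B * B' * Ssum l t' := by linarith
      _ = x * B * ((2 + Ssum l t') * B') + x * ((64 - 64 * q) * B) := by ring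
      _ ≤ x * B * (8 * q) + x * ((64 - 64 * q) * B) := by linarith
      _ = (64 - 64 * (q * (7 / 8))) * (x * B) := by ring

/-- The finite part of the Brjuno sum barely depends on the tail. -/
theorem Ssum_diff : ∃ C : ℝ, 1 ≤ C ∧ ∀ l : List ℕ, (∀ a ∈ l, 1 ≤ a) →
    ∀ t ∈ Ioo (0 : ℝ) 1, ∀ t' ∈ Ioo (0 : ℝ) 1, |Ssum l t - Ssum l t'| ≤ C * bet l t := by
  refine ⟨64, by norm_num, fun l hl t ht t' ht' => (CFb_main ht ht' l hl).trans ?_⟩
  have h1 := (CFb_bet_mem ht l hl).1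
  have h2 : (0 : ℝ) < (7 / 8 : ℝ) ^ l.length := by positivity
  nlinarith

end Pool.Agent.Lib.MP_102662_an
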