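import Pool.Agent.Lib.MP_102662_an.CFb

open Complex Metric Set Filter Topology

namespace Pool.Agent.Lib.MP_102662_an

theorem cfc_gold_sq : gold * (1 + gold) = 1 := by
  have h : Real.sqrt 5 * Real.sqrt 5 = 5 := Real.mul_self_sqrt (by norm_num)
  unfold gold
  nlinarith

theorem cfc_gold_irr : Irrational gold := by
  have h : Irrational (Real.sqrt 5) := by
    have := Nat.Prime.irrational_sqrt (p := 5) (by norm_num)
    simpa using this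
  have h2 : Irrational ((Real.sqrt 5 - (1 : ℕ)) / (2 : ℕ)) :=
    (h.sub_natCast 1).div_natCast (by norm_num)
  simpa [gold] using h2

theorem cfc_lin_ne {a b : ℤ} (h : a ≠ 0 ∨ b ≠ 0) : (a : ℝ) + b * gold ≠ 0 := by
  by_cases hb : b = 0
  · have ha : a ≠ 0 := h.resolve_right (not_not.2 hb)
    simpa [hb] using ha
  · exact ((cfc_gold_irr.intCast_mul hb).intCast_add a).ne_zero

/-- The golden number is badly approximable. -/
theorem cfc_gold_bad {a b : ℤ} (h : a ≠ 0 ∨ b ≠ 0) :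
    1 ≤ |(a : ℝ) + b * gold| * (1 + 3 * |(b : ℝ)|) := by
  have hg := gold_mem
  have e : ((a : ℝ) + b * gold) * (((a - b : ℤ) : ℝ) + ((-b : ℤ) : ℝ) * gold) =
      ((a ^ 2 - a * b - b ^ 2 : ℤ) : ℝ) := by
    push_cast
    linear_combination (-(b : ℝ) ^ 2) * cfc_gold_sq
  have h2 : a - b ≠ 0 ∨ -b ≠ 0 := by omega
  have hne : (a ^ 2 - a * b - b ^ 2 : ℤ) ≠ 0 := by
    intro h0
    rw [h0, Int.cast_zero] at e
    exact mul_ne_zero (cfc_lin_ne h) (cfc_lin_ne h2) e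
  have h1 : (1 : ℝ) ≤ |((a ^ 2 - a * b - b ^ 2 : ℤ) : ℝ)| := by
    exact_mod_cast Int.one_le_abs hne
  rw [← e, abs_mul] at h1
  have hb0 := abs_nonneg (b : ℝ)
  have hz := abs_nonneg ((a : ℝ) + b * gold)
  by_cases hbig : 1 ≤ |(a : ℝ) + b * gold|
  · nlinarith
  · refine h1.trans (mul_le_mul_of_nonneg_left ?_ hz)
    have e2 : (((a - b : ℤ) : ℝ) + ((-b : ℤ) : ℝ) * gold) =
        ((a : ℝ) + b * gold) - b * (1 + 2 * gold) := by
      push_cast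
      ring
    rw [e2]
    refine (abs_sub _ _).trans ?_
    rw [abs_mul, abs_of_pos (show 0 < 1 + 2 * gold by linarith [hg.1])]
    have : |(b : ℝ)| * (1 + 2 * gold) ≤ |(b : ℝ)| * 3 :=
      mul_le_mul_of_nonneg_left (by linarith [hg.2]) hb0
    linarith [not_le.1 hbig]

/-- The lower bound used for both tails. -/
def CfcBad (u s : ℝ) : Prop :=
  ∀ (i j : ℤ) (K : ℝ), (i ≠ 0 ∨ j ≠ 0) → |(i : ℝ)| ≤ K → |(j : ℝ)| ≤ K →
    1 ≤ |(i : ℝ) + j * s| * (2 * u * (1 + 3 * K))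

theorem cfc_bad_gold {u : ℝ} (hu : 1 ≤ u) : CfcBad u gold := by
  intro i j K h _ hj
  refine (cfc_gold_bad h).trans (mul_le_mul_of_nonneg_left ?_ (abs_nonneg _))
  have hb0 := abs_nonneg (j : ℝ)
  nlinarith

theorem cfc_bad_tail {u : ℝ} {A : ℕ} (hA : 1 ≤ A) (hu : (A : ℝ) ≤ u) :
    CfcBad u (1 / (A + gold)) := by
  intro i j K h hi _
  have hg := gold_mem
  have hA' : (1 : ℝ) ≤ A := by exact_mod_cast hA
  have hpos : 0 < (A : ℝ) + gold := by linarith [hg.1]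
  have h2 : i * A + j ≠ 0 ∨ i ≠ 0 := by
    by_cases hi0 : i = 0
    · left
      rw [hi0, zero_mul, zero_add]
      exact h.resolve_left (not_not.2 hi0)
    · exact Or.inr hi0
  have h3 := cfc_gold_bad h2
  have e : (((i * A + j : ℤ) : ℝ) + i * gold) = ((i : ℝ) + j * (1 / (A + gold))) * (A + gold) := by
    push_cast
    field_simp
    ring
  rw [e, abs_mul, abs_of_pos hpos, mul_assoc] at h3
  refine h3.trans (mul_le_mul_of_nonneg_left ?_ (abs_nonneg _))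
  have hb0 := abs_nonneg (i : ℝ)
  exact mul_le_mul (by linarith [hg.2]) (by linarith) (by linarith) (by linarith)

/-- The large denominators. -/
theorem cfc_large {γ u s D y : ℝ} {p₁ p₂ q₁ q₂ m : ℕ} {a p : ℤ} (hγ : 0 < γ) (hγ1 : γ ≤ 1)
    (hu : 1 ≤ u) (hs : s ∈ Ioo (0 : ℝ) 1) (hq₁ : 1 ≤ q₁) (hq : q₂ ≤ q₁) (hqu : (q₁ : ℝ) ≤ u)
    (hdet : |(p₁ : ℤ) * q₂ - (p₂ : ℤ) * q₁| = 1) (hD : D = q₁ + q₂ * s)
    (hy : y = a + (p₁ + p₂ * s) / D) (hbad : CfcBad u s) (hm : 1 ≤ m)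
    (hbig : γ * u ^ 2 ≤ 4 * (m : ℝ) ^ 3) : γ ^ 2 / 640 / (m : ℝ) ^ 6 ≤ |(m : ℝ) * y - p| := by
  have hm' : (1 : ℝ) ≤ m := by exact_mod_cast hm
  have hq₁' : (1 : ℝ) ≤ q₁ := by exact_mod_cast hq₁
  have hq' : (q₂ : ℝ) ≤ q₁ := by exact_mod_cast hq
  have hq₂ : (0 : ℝ) ≤ q₂ := Nat.cast_nonneg _
  have hqs : 0 ≤ (q₂ : ℝ) * s := mul_nonneg hq₂ hs.1.le
  have hqs' : (q₂ : ℝ) * s ≤ q₂ := mul_le_of_le_one_right hq₂ hs.2.le
  have hD1 : 1 ≤ D := by linarith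
  have hD0 : 0 < D := by linarith
  have hD2 : D ≤ 2 * u := by linarith
  have hm6 : (1 : ℝ) ≤ (m : ℝ) ^ 6 := one_le_pow₀ hm'
  by_cases hw : 1 ≤ |(m : ℝ) * y - p|
  · refine le_trans ?_ hw
    rw [div_le_one (by positivity)]
    have : γ ^ 2 ≤ 1 := pow_le_one₀ hγ.le hγ1
    linarith
  have hw' : |(m : ℝ) * y - p| ≤ 1 := (not_le.1 hw).le
  set i : ℤ := m * p₁ + (m * a - p) * q₁ with hi
  set j : ℤ := m * p₂ + (m * a - p) * q₂ with hj
  have e1 : (i : ℝ) + j * s = ((m : ℝ) * y - p) * D := by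
    rw [hy, hi, hj]
    push_cast
    field_simp
    rw [hD]
    ring
  have e2 : i * q₂ - j * q₁ = m * ((p₁ : ℤ) * q₂ - (p₂ : ℤ) * q₁) := by
    rw [hi, hj]
    ring
  have e3 : |i * q₂ - j * q₁| = m := by
    rw [e2, abs_mul, hdet, mul_one, Nat.abs_cast]
  have hne : i ≠ 0 ∨ j ≠ 0 := by
    by_contra hcon
    push Not at hcon
    rw [hcon.1, hcon.2] at e3
    simp at e3
    omega
  have e4 : |(i : ℝ) * q₂ - j * q₁| = m := by exact_mod_cast e3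
  have b1 : |(i : ℝ) + j * s| ≤ D := by
    rw [e1, abs_mul, abs_of_pos hD0]
    exact mul_le_of_le_one_left hD0.le hw'
  have b2 : |(j : ℝ)| ≤ m + u := by
    have e5 : (j : ℝ) * D = ((i : ℝ) + j * s) * q₂ - ((i : ℝ) * q₂ - j * q₁) := by
      rw [hD]
      ring
    have h1 : |(j : ℝ)| * D ≤ D * q₂ + m := by
      rw [← abs_of_pos hD0, ← abs_mul, e5, abs_of_pos hD0]
      refine (abs_sub _ _).trans ?_
      rw [e4, abs_mul, abs_of_nonneg hq₂]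
      linarith [mul_le_mul_of_nonneg_right b1 hq₂]
    have h2 : (m : ℝ) ≤ m * D := le_mul_of_one_le_right (by linarith) hD1
    have h3 : D * q₂ ≤ D * u := mul_le_mul_of_nonneg_left (hq'.trans hqu) hD0.le
    refine le_of_mul_le_mul_right ?_ hD0
    linarith
  have b3 : |(i : ℝ)| ≤ m + 3 * u := by
    have e5 : (i : ℝ) = ((i : ℝ) + j * s) - j * s := by ring
    rw [e5]
    refine (abs_sub _ _).trans ?_
    rw [abs_mul, abs_of_pos hs.1]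
    have : |(j : ℝ)| * s ≤ |(j : ℝ)| := mul_le_of_le_one_right (abs_nonneg _) hs.2.le
    linarith
  have b4 := hbad i j (m + 3 * u) hne b3 (by linarith)
  rw [e1, abs_mul, abs_of_pos hD0] at b4
  set w : ℝ := |(m : ℝ) * y - p| with hwdef
  have hw0 : 0 ≤ w := abs_nonneg _
  have hm3 : (m : ℝ) ≤ (m : ℝ) ^ 3 := le_self_pow₀ hm' (by norm_num)
  have hu2 : γ * u ≤ γ * u ^ 2 := mul_le_mul_of_nonneg_left (le_self_pow₀ hu (by norm_num)) hγ.le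
  have b5 : γ * (1 + 3 * (m + 3 * u)) ≤ 40 * (m : ℝ) ^ 3 := by
    have : γ * m ≤ m := mul_le_of_le_one_left (by linarith) hγ1
    nlinarith
  have hK0 : 0 ≤ 1 + 3 * ((m : ℝ) + 3 * u) := by linarith
  have b6 : w * D * (2 * u * (1 + 3 * (m + 3 * u))) ≤
      w * (2 * u) * (2 * u * (1 + 3 * (m + 3 * u))) :=
    mul_le_mul_of_nonneg_right (mul_le_mul_of_nonneg_left hD2 hw0) (by positivity)
  have b7 : (γ * u ^ 2) * (γ * (1 + 3 * (m + 3 * u))) ≤ (4 * (m : ℝ) ^ 3) * (40 * (m : ℝ) ^ 3) :=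
    mul_le_mul hbig b5 (by positivity) (by positivity)
  rw [div_div, div_le_iff₀ (by positivity)]
  calc γ ^ 2 = γ ^ 2 * 1 := by ring
    _ ≤ γ ^ 2 * (w * (2 * u) * (2 * u * (1 + 3 * (m + 3 * u)))) :=
        mul_le_mul_of_nonneg_left (b4.trans b6) (by positivity)
    _ = 4 * w * ((γ * u ^ 2) * (γ * (1 + 3 * (m + 3 * u)))) := by ring
    _ ≤ 4 * w * ((4 * (m : ℝ) ^ 3) * (40 * (m : ℝ) ^ 3)) :=
        mul_le_mul_of_nonneg_left b7 (by positivity)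
    _ = w * (640 * (m : ℝ) ^ 6) := by ring

/-- The small denominators. -/
theorem cfc_small {γ x y l : ℝ} {m : ℕ} {p : ℤ} (hγ : 0 < γ) (hγ1 : γ ≤ 1) (hx : Dio2 x γ)
    (hy : |y - x| ≤ 2 * l ^ 2) (hm : 1 ≤ m) (hsm : 4 * (m : ℝ) ^ 3 * l ^ 2 ≤ γ) :
    γ ^ 2 / 640 / (m : ℝ) ^ 6 ≤ |(m : ℝ) * y - p| := by
  have hm' : (1 : ℝ) ≤ m := by exact_mod_cast hm
  have hm0 : (0 : ℝ) < m := by linarith
  have h1 := hx m hm p
  have e : (m : ℝ) * x - p = ((m : ℝ) * y - p) - m * (y - x) := by ring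
  rw [e] at h1
  have h2 := h1.trans (abs_sub _ _)
  rw [abs_mul, abs_of_pos hm0] at h2
  have h3 : (m : ℝ) * |y - x| ≤ γ / (m : ℝ) ^ 2 / 2 := by
    refine (mul_le_mul_of_nonneg_left hy hm0.le).trans ?_
    rw [div_div, le_div_iff₀ (by positivity)]
    linarith
  have h4 : γ ^ 2 / 640 / (m : ℝ) ^ 6 ≤ γ / (m : ℝ) ^ 2 / 2 := by
    rw [div_div, div_div]
    refine div_le_div₀ hγ.le (by nlinarith) (by positivity) ?_
    have : (m : ℝ) ^ 2 ≤ (m : ℝ) ^ 6 := pow_le_pow_right₀ hm' (by norm_num)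
    have : (0 : ℝ) ≤ (m : ℝ) ^ 6 := by positivity
    linarith
  linarith

/-- Everything about one change of the tail. -/
theorem cfc_tail {x γ : ℝ} {l : List ℕ} {t s : ℝ} (hx4 : 4 ≤ x) (hγ : 0 < γ) (hγ1 : γ ≤ 1)
    (hx : Dio2 x γ) (hl : ∀ a ∈ l, 1 ≤ a) (ht : t ∈ Ioo (0 : ℝ) 1) (hs : s ∈ Ioo (0 : ℝ) 1)
    (hxe : x = ⌊x⌋ + cfr l t) (hbad : CfcBad (1 / bet l t) s) :
    |(⌊x⌋ + cfr l s) - x| ≤ 2 * bet l t ^ 2 ∧ Dio (⌊x⌋ + cfr l s) (γ ^ 2 / 640) ∧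
      1 / (⌊x⌋ + cfr l s) = cfr (⌊x⌋.toNat :: l) s ∧
      bet l t / x / 4 ≤ bet (⌊x⌋.toNat :: l) s ∧ bet (⌊x⌋.toNat :: l) s ≤ 4 * (bet l t / x) := by
  obtain ⟨p₁, p₂, q₁, q₂, hq₁, hq, hdet, hM⟩ := cfr_mobius hl
  obtain ⟨ct, bt⟩ := hM t ht
  obtain ⟨cs, bs⟩ := hM s hs
  have hq₁' : (1 : ℝ) ≤ q₁ := by exact_mod_cast hq₁
  have hq' : (q₂ : ℝ) ≤ q₁ := by exact_mod_cast hq
  have hq₂ : (0 : ℝ) ≤ q₂ := Nat.cast_nonneg _
  have s0 : 0 ≤ (q₂ : ℝ) * s := mul_nonneg hq₂ hs.1.le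
  have s1 : (q₂ : ℝ) * s ≤ q₂ := mul_le_of_le_one_right hq₂ hs.2.le
  have t0 : 0 ≤ (q₂ : ℝ) * t := mul_nonneg hq₂ ht.1.le
  have t1 : (q₂ : ℝ) * t ≤ q₂ := mul_le_of_le_one_right hq₂ ht.2.le
  set Ds : ℝ := q₁ + q₂ * s with hDs
  set Dt : ℝ := q₁ + q₂ * t with hDt
  have hDs0 : 0 < Ds := by linarith
  have hDt0 : 0 < Dt := by linarith
  have hl0 : 0 < bet l t := by rw [bt]; positivity
  have hs0 : 0 < bet l s := by rw [bs]; positivity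
  have b1 : bet l s ≤ 2 * bet l t := by
    rw [bs, bt, mul_one_div, div_le_div_iff₀ hDs0 hDt0]
    linarith
  have b2 : bet l t ≤ 2 * bet l s := by
    rw [bs, bt, mul_one_div, div_le_div_iff₀ hDt0 hDs0]
    linarith
  have hdet' : |(p₁ : ℝ) * q₂ - (p₂ : ℝ) * q₁| = 1 := by exact_mod_cast hdet
  have hdiff : |(⌊x⌋ + cfr l s) - x| ≤ 2 * bet l t ^ 2 := by
    have e : (⌊x⌋ + cfr l s) - x =
        ((p₁ : ℝ) * q₂ - (p₂ : ℝ) * q₁) * (t - s) * (bet l s * bet l t) := by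
      have e0 : (⌊x⌋ + cfr l s) - x = cfr l s - cfr l t := by linarith
      rw [e0, cs, ct, bs, bt]
      field_simp
      rw [hDs, hDt]
      ring
    rw [e, abs_mul, abs_mul, hdet', one_mul, abs_of_pos (mul_pos hs0 hl0)]
    have h1 : |t - s| ≤ 1 := abs_le.2 ⟨by linarith [ht.1, hs.2], by linarith [ht.2, hs.1]⟩
    calc |t - s| * (bet l s * bet l t) ≤ 1 * (2 * bet l t * bet l t) :=
          mul_le_mul h1 (mul_le_mul_of_nonneg_right b1 hl0.le) (by positivity) zero_le_one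
      _ = 2 * bet l t ^ 2 := by ring
  have hu : 1 / bet l t = Dt := by rw [bt, one_div_one_div]
  have hfl : (4 : ℝ) ≤ ⌊x⌋ := by exact_mod_cast Int.le_floor.2 (by exact_mod_cast hx4)
  have hnat : ((⌊x⌋.toNat : ℕ) : ℝ) = ⌊x⌋ := by
    have h0 : 0 ≤ ⌊x⌋ := Int.floor_nonneg.2 (by linarith)
    exact_mod_cast congrArg (Int.cast : ℤ → ℝ) (Int.toNat_of_nonneg h0)
  have hc : 1 / (⌊x⌋ + cfr l s) = cfr (⌊x⌋.toNat :: l) s := by
    rw [cfr, hnat]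
  have hcs := cfr_mem hl hs
  have hct := cfr_mem hl ht
  have hx0 : 0 < x := by linarith
  have hy0 : 0 < ⌊x⌋ + cfr l s := by linarith [hcs.1]
  have hb : bet (⌊x⌋.toNat :: l) s = bet l s / (⌊x⌋ + cfr l s) := by
    rw [bet, ← hc]
    ring
  refine ⟨hdiff, fun m hm p => ?_, hc, ?_, ?_⟩
  · by_cases hsm : 4 * (m : ℝ) ^ 3 * bet l t ^ 2 ≤ γ
    · exact cfc_small hγ hγ1 hx hdiff hm hsm
    · rw [hu] at hbad
      refine cfc_large hγ hγ1 (by linarith) hs hq₁ hq (by linarith) hdet hDs (by rw [cs]) hbad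
        hm ?_
      have h1 := (not_le.1 hsm).le
      have h2 := mul_le_mul_of_nonneg_right h1 (sq_nonneg Dt)
      have e : 4 * (m : ℝ) ^ 3 * bet l t ^ 2 * Dt ^ 2 = 4 * (m : ℝ) ^ 3 := by
        rw [bt]
        field_simp
      rwa [e] at h2
  · rw [hb, div_div]
    calc bet l t / (x * 4) ≤ 2 * bet l s / (2 * (⌊x⌋ + cfr l s)) :=
          div_le_div₀ (by positivity) b2 (by positivity) (by linarith [hcs.2, hct.1])
      _ = bet l s / (⌊x⌋ + cfr l s) := by field_simp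
  · rw [hb]
    calc bet l s / (⌊x⌋ + cfr l s) ≤ 2 * bet l t / (x / 2) :=
          div_le_div₀ (by positivity) b1 (by positivity) (by linarith [hcs.1, hct.2])
      _ = 4 * (bet l t / x) := by field_simp; ring

/-- Two nearby Diophantine numbers whose Brjuno sums differ a lot. -/
theorem cf_pair : ∃ C : ℝ, 1 ≤ C ∧ ∀ (x γ Q : ℝ) (A : ℕ), 4 ≤ x → 0 < γ → γ ≤ 1 → Dio2 x γ →
    2 ≤ Q → 1 ≤ A → (A : ℝ) ≤ Q →
    ∃ x' x'' l : ℝ, γ / Q ^ 2 ≤ l ∧ l ≤ 1 / Q ∧ |x' - x| ≤ 2 * l ^ 2 ∧ |x'' - x| ≤ 2 * l ^ 2 ∧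
      Dio x' (γ ^ 2 / C) ∧ Dio x'' (γ ^ 2 / C) ∧
      Summable (bterm (1 / x')) ∧ Summable (bterm (1 / x'')) ∧
      l / x * (Real.log A / C - C) ≤ ∑' n, bterm (1 / x') n - ∑' n, bterm (1 / x'') n := by
  obtain ⟨C₀, hC₀, hS⟩ := Ssum_diff
  refine ⟨640 + 4 * C₀, by linarith, ?_⟩
  intro x γ Q A hx4 hγ hγ1 hx hQ hA hAQ
  obtain ⟨l, t, hl, ht, hxe, h1, h2⟩ := cf_expand hγ hγ1 hx hQ
  have hg := gold_mem
  obtain ⟨g1, g2, g3⟩ := bterm_gold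
  have hQ0 : 0 < Q := by linarith
  have hl0 : 0 < bet l t := lt_of_lt_of_le (by positivity) h1
  have hQu : Q ≤ 1 / bet l t := by
    rw [le_div_iff₀ hl0]
    rw [le_div_iff₀ hQ0] at h2
    linarith
  have hAl : ∀ a ∈ [A], 1 ≤ a := by simpa using hA
  have ht' : cfr [A] gold = 1 / (A + gold) := rfl
  have hs' : cfr [A] gold ∈ Ioo (0 : ℝ) 1 := cfr_mem hAl hg
  obtain ⟨a1, a2, a3, a4, _⟩ := cfc_tail hx4 hγ hγ1 hx hl ht hs' hxe
    (by rw [ht']; exact cfc_bad_tail hA (hAQ.trans hQu))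
  obtain ⟨c1, c2, c3, _, c5⟩ := cfc_tail hx4 hγ hγ1 hx hl ht hg hxe
    (cfc_bad_gold (by linarith))
  have hL : ∀ a ∈ ⌊x⌋.toNat :: l, 1 ≤ a := by
    intro a ha
    rcases List.mem_cons.1 ha with rfl | ha
    · have : (4 : ℤ) ≤ ⌊x⌋ := Int.le_floor.2 (by exact_mod_cast hx4)
      omega
    · exact hl a ha
  obtain ⟨d1, d2⟩ := bterm_cfr hAl hg g1
  obtain ⟨e1, e2⟩ := bterm_cfr hL hs' d1
  obtain ⟨f1, f2⟩ := bterm_cfr hL hg g1
  have hγC : γ ^ 2 / (640 + 4 * C₀) ≤ γ ^ 2 / 640 :=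
    div_le_div_of_nonneg_left (by positivity) (by norm_num) (by linarith)
  refine ⟨_, _, bet l t, h1, h2, a1, c1, a2.mono hγC, c2.mono hγC, by rw [a3]; exact e1,
    by rw [c3]; exact f1, ?_⟩
  rw [a3, c3, e2, f2]
  have hA' : (1 : ℝ) ≤ A := by exact_mod_cast hA
  have hlog : 0 ≤ Real.log A := Real.log_nonneg hA'
  have hB : Real.log A ≤ ∑' n, bterm (cfr [A] gold) n := by
    rw [d2]
    have e3 : Ssum [A] gold = Real.log (A + gold) := by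
      rw [Ssum, Ssum, mul_zero, add_zero, ht', one_div_one_div]
    have e4 : 0 ≤ bet [A] gold := by
      rw [bet, bet, mul_one]
      exact hs'.1.le
    have h3 : Real.log A ≤ Real.log (A + gold) :=
      Real.log_le_log (by linarith) (by linarith [hg.1])
    rw [e3]
    linarith [mul_nonneg e4 g2]
  have hS' := abs_le.1 (hS _ hL gold hg _ hs')
  set r : ℝ := bet l t / x with hr
  have hr0 : 0 < r := div_pos hl0 (by linarith)
  set β₁ : ℝ := bet (⌊x⌋.toNat :: l) (cfr [A] gold)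
  set β₂ : ℝ := bet (⌊x⌋.toNat :: l) gold
  have k1 : r / 4 * Real.log A ≤ β₁ * ∑' n, bterm (cfr [A] gold) n :=
    mul_le_mul a4 hB hlog (by linarith)
  have k2 : β₂ * ∑' n, bterm gold n ≤ 4 * r * 2 := mul_le_mul c5 g3 g2 (by linarith)
  have k3 : C₀ * β₂ ≤ C₀ * (4 * r) := mul_le_mul_of_nonneg_left c5 (by linarith)
  have k4 : Real.log A / (640 + 4 * C₀) ≤ Real.log A / 4 :=
    div_le_div_of_nonneg_left hlog (by norm_num) (by linarith)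
  have k5 := mul_le_mul_of_nonneg_left k4 hr0.le
  nlinarith [hS'.2]

end Pool.Agent.Lib.MP_102662_an
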