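import Pool.Agent.Lib.MP_102662_an.KAM
import Pool.Agent.Lib.MP_102662_an.Area

open Complex Metric Set Filter Topology

namespace Pool.Agent.Lib.MP_102662_an

theorem coarse_one_sub {z : ℂ} {b : ℝ} (hz : ‖z‖ ≤ 1) (hb0 : 0 ≤ b) (hb1 : b ≤ 1) :
    ‖1 - z‖ ≤ 2 * ‖1 - (b : ℂ) * z‖ := by
  have h1 : ‖(b : ℂ) * z‖ ≤ b := by
    rw [norm_mul, Complex.norm_real, Real.norm_of_nonneg hb0]
    exact mul_le_of_le_one_right hb0 hz
  have h2 : 1 - b ≤ ‖1 - (b : ℂ) * z‖ := by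
    have := norm_sub_norm_le (1 : ℂ) ((b : ℂ) * z)
    rw [norm_one] at this
    linarith
  have h3 : ‖((1 - b : ℝ) : ℂ) * z‖ ≤ 1 - b := by
    rw [norm_mul, Complex.norm_real, Real.norm_of_nonneg (by linarith)]
    exact mul_le_of_le_one_right (by linarith) hz
  have h4 : (1 : ℂ) - z = (1 - (b : ℂ) * z) - ((1 - b : ℝ) : ℂ) * z := by
    push_cast; ring
  have h5 := norm_sub_le (1 - (b : ℂ) * z) (((1 - b : ℝ) : ℂ) * z)
  rw [← h4] at h5
  linarith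

theorem coarse_omega (v : ℂ) : ∃ ω : ℂ, ‖ω‖ = 1 ∧ ∀ (ρ : ℝ) (t : ℂ), 0 ≤ ρ → ‖v‖ * ρ ≤ 1 →
    ‖t‖ ≤ 1 → ‖ω - t‖ ≤ 2 * ‖1 + v * ((ρ : ℂ) * t)‖ := by
  obtain ⟨u, hu, huv⟩ : ∃ u : ℂ, ‖u‖ = 1 ∧ v = -((‖v‖ : ℂ) * u) := by
    by_cases hv : v = 0
    · exact ⟨1, norm_one, by simp [hv]⟩
    · have hn : (‖v‖ : ℂ) ≠ 0 := by exact_mod_cast norm_ne_zero_iff.2 hv
      refine ⟨-v / ‖v‖, ?_, ?_⟩
      · rw [norm_div, norm_neg, Complex.norm_real, norm_norm, div_self (norm_ne_zero_iff.2 hv)]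
      · field_simp
  have hu0 : u ≠ 0 := by
    intro h
    rw [h, norm_zero] at hu
    exact zero_ne_one hu
  refine ⟨u⁻¹, by rw [norm_inv, hu, inv_one], fun ρ t hρ hvρ ht => ?_⟩
  have h1 : ‖u⁻¹ - t‖ = ‖1 - t * u‖ := by
    have : 1 - t * u = (u⁻¹ - t) * u := by field_simp
    rw [this, norm_mul, hu, mul_one]
  have h2 : 1 + v * ((ρ : ℂ) * t) = 1 - ((‖v‖ * ρ : ℝ) : ℂ) * (t * u) := by
    have : v * ((ρ : ℂ) * t) = -((‖v‖ : ℂ) * u) * ((ρ : ℂ) * t) := by rw [← huv]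
    rw [this]
    push_cast
    ring
  rw [h1, h2]
  exact coarse_one_sub (by rw [norm_mul, hu, mul_one]; exact ht) (by positivity) hvρ

theorem coarse_den {v w : ℂ} {R : ℝ} (hR : 10 ≤ R) (hv : ‖v‖ ≤ R) (hw : ‖w‖ < 1 / (R + 2)) :
    2 / (R + 2) ≤ ‖1 + v * w‖ := by
  have h1 : ‖v * w‖ ≤ R * (1 / (R + 2)) := by
    rw [norm_mul]
    exact mul_le_mul hv hw.le (norm_nonneg _) (by linarith)
  have h2 : 1 - ‖v * w‖ ≤ ‖1 + v * w‖ := by
    have := norm_sub_norm_le (1 : ℂ) (-(v * w))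
    rw [norm_one, norm_neg, sub_neg_eq_add] at this
    exact this
  have h3 : 2 / (R + 2) = 1 - R * (1 / (R + 2)) := by
    field_simp
    ring
  linarith

theorem coarse_den_ne {v w : ℂ} {R : ℝ} (hR : 10 ≤ R) (hv : ‖v‖ ≤ R) (hw : ‖w‖ < 1 / (R + 2)) :
    1 + v * w ≠ 0 := by
  have h := coarse_den hR hv hw
  have h2 : 0 < 2 / (R + 2) := by positivity
  exact norm_pos_iff.1 (lt_of_lt_of_le h2 h)

theorem coarse_z {v w : ℂ} {R : ℝ} (hR : 10 ≤ R) (hv : ‖v‖ ≤ R) (hw : ‖w‖ < 1 / (R + 2)) :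
    ‖w / (1 + v * w)‖ ≤ 1 / 2 := by
  have h := coarse_den hR hv hw
  have h2 : 0 < 2 / (R + 2) := by positivity
  rw [norm_div, div_le_iff₀ (lt_of_lt_of_le h2 h)]
  have h3 : 2 / (R + 2) = 2 * (1 / (R + 2)) := by ring
  linarith

theorem coarse_g_ne {g : ℂ → ℂ} (hg : Schlicht g) {z : ℂ} (hz : ‖z‖ ≤ 1 / 2) (hz0 : z ≠ 0) :
    g z ≠ 0 := by
  intro h
  apply hz0
  refine hg.inj (mem_ball_zero_iff.2 (by linarith)) (mem_ball_self one_pos) ?_
  rw [h, hg.zero]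

theorem coarse_c {g : ℂ → ℂ} (hg : Schlicht g) {z : ℂ} (hz : ‖z‖ ≤ 1 / 2) (hz0 : z ≠ 0) :
    ‖1 / g z - 1 / z + a2 g‖ ≤ 11 * ‖z‖ := by
  obtain ⟨ha, hb⟩ := area_stab hg
  have h1 := hb z (mem_ball_zero_iff.2 (by linarith)) hz0
  have h2 : Real.sqrt (1 - ‖a2 g‖ ^ 2 / 4) ≤ 1 := by
    have := sq_nonneg ‖a2 g‖
    exact Real.sqrt_le_one.2 (by linarith)
  have h0 := norm_nonneg z
  have h3 : 5 * Real.sqrt (1 - ‖a2 g‖ ^ 2 / 4) * ‖z‖ / (1 - ‖z‖) ≤ 10 * ‖z‖ := by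
    rw [div_le_iff₀ (by linarith)]
    have : 5 * Real.sqrt (1 - ‖a2 g‖ ^ 2 / 4) * ‖z‖ ≤ 5 * 1 * ‖z‖ := by gcongr
    nlinarith
  have h4 : ‖a2 g ^ 2 * z / 4‖ ≤ ‖z‖ := by
    rw [norm_div, norm_mul, norm_pow]
    have h5 : ‖a2 g‖ ^ 2 ≤ 2 ^ 2 := pow_le_pow_left₀ (norm_nonneg _) ha 2
    have h6 : ‖(4 : ℂ)‖ = 4 := by simp
    rw [h6, div_le_iff₀ (by norm_num)]
    nlinarith
  have h5 : 1 / g z - 1 / z + a2 g
      = (1 / g z - 1 / z + a2 g - a2 g ^ 2 * z / 4) + a2 g ^ 2 * z / 4 := by ring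
  have h6 := norm_add_le (1 / g z - 1 / z + a2 g - a2 g ^ 2 * z / 4) (a2 g ^ 2 * z / 4)
  rw [← h5] at h6
  linarith

/-- The error term in the coordinate `w` with `z = w / (1 + v w)`. -/
noncomputable def coarseE (g : ℂ → ℂ) (v w : ℂ) : ℂ :=
  w * (1 / g (w / (1 + v * w)) - 1 / (w / (1 + v * w)) + a2 g)

theorem coarseE_le {g : ℂ → ℂ} (hg : Schlicht g) {v w : ℂ} {R : ℝ} (hR : 10 ≤ R) (hv : ‖v‖ ≤ R)
    (hw : ‖w‖ < 1 / (R + 2)) : ‖coarseE g v w‖ ≤ 11 * ‖w‖ * ‖w / (1 + v * w)‖ := by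
  by_cases hw0 : w = 0
  · simp [coarseE, hw0]
  have h1 := coarse_c hg (coarse_z hR hv hw) (div_ne_zero hw0 (coarse_den_ne hR hv hw))
  rw [coarseE, norm_mul]
  calc _ ≤ ‖w‖ * (11 * ‖w / (1 + v * w)‖) := mul_le_mul_of_nonneg_left h1 (norm_nonneg _)
    _ = _ := by ring

theorem coarseE_le' {g : ℂ → ℂ} (hg : Schlicht g) {v w : ℂ} {R : ℝ} (hR : 10 ≤ R) (hv : ‖v‖ ≤ R)
    (hw : ‖w‖ < 1 / (R + 2)) : ‖coarseE g v w‖ ≤ 11 / 2 * ‖w‖ := by
  have h1 := coarseE_le hg hR hv hw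
  have h2 := coarse_z hR hv hw
  have h3 : 11 * ‖w‖ * ‖w / (1 + v * w)‖ ≤ 11 * ‖w‖ * (1 / 2) := by gcongr
  linarith

theorem coarseE_half {g : ℂ → ℂ} (hg : Schlicht g) {v w : ℂ} {R : ℝ} (hR : 10 ≤ R) (hv : ‖v‖ ≤ R)
    (hw : ‖w‖ < 1 / (R + 2)) : ‖coarseE g v w‖ ≤ 1 / 2 := by
  have h1 := coarseE_le' hg hR hv hw
  have h2 : 1 / (R + 2) ≤ 1 / 12 := one_div_le_one_div_of_le (by norm_num) (by linarith)
  linarith

theorem coarseE_diff {g : ℂ → ℂ} (hg : Schlicht g) {v : ℂ} {R : ℝ} (hR : 10 ≤ R) (hv : ‖v‖ ≤ R) :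
    DifferentiableOn ℂ (coarseE g v) (ball 0 (1 / (R + 2))) := by
  have hρ : (0 : ℝ) < 1 / (R + 2) := by positivity
  rw [← Complex.differentiableOn_compl_singleton_and_continuousAt_iff (ball_mem_nhds 0 hρ)]
  constructor
  · rintro w ⟨hw, hw0⟩
    have hw' : ‖w‖ < 1 / (R + 2) := mem_ball_zero_iff.1 hw
    have hw0' : w ≠ 0 := hw0
    have hd := coarse_den_ne hR hv hw'
    have hz := coarse_z hR hv hw'
    have hz0 : w / (1 + v * w) ≠ 0 := div_ne_zero hw0' hd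
    have d1 : DifferentiableAt ℂ (fun w : ℂ => w / (1 + v * w)) w :=
      differentiableAt_id.div ((differentiableAt_id.const_mul v).const_add 1) hd
    have d2 : DifferentiableAt ℂ g (w / (1 + v * w)) :=
      hg.diff.differentiableAt (isOpen_ball.mem_nhds (mem_ball_zero_iff.2 (by linarith)))
    have d3 : DifferentiableAt ℂ (fun w : ℂ => g (w / (1 + v * w))) w := d2.comp w d1
    have d4 : DifferentiableAt ℂ (coarseE g v) w :=
      differentiableAt_id.mul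
        ((((differentiableAt_const 1).div d3 (coarse_g_ne hg hz hz0)).sub
          ((differentiableAt_const 1).div d1 hz0)).add_const _)
    exact d4.differentiableWithinAt
  · have h0 : coarseE g v 0 = 0 := by simp [coarseE]
    rw [ContinuousAt, h0]
    refine squeeze_zero_norm' (a := fun w : ℂ => 11 / 2 * ‖w‖) ?_ ?_
    · filter_upwards [ball_mem_nhds (0 : ℂ) hρ] with w hw
      exact coarseE_le' hg hR hv (mem_ball_zero_iff.1 hw)
    · have : Continuous fun w : ℂ => 11 / 2 * ‖w‖ := by fun_prop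
      simpa using this.tendsto 0

theorem coarse_scale {R : ℝ} (hR : 10 ≤ R) {t : ℂ} (ht : ‖t‖ < 1) :
    ‖((1 / (R + 2) : ℝ) : ℂ) * t‖ < 1 / (R + 2) := by
  have hρ : (0 : ℝ) < 1 / (R + 2) := by positivity
  rw [norm_mul, Complex.norm_real, Real.norm_of_nonneg hρ.le]
  exact mul_lt_of_lt_one_right hρ ht

theorem coarse_p {g : ℂ → ℂ} (hg : Schlicht g) {v : ℂ} {R : ℝ} (hR : 10 ≤ R) (hv : ‖v‖ ≤ R) :
    ∃ ω : ℂ, ‖ω‖ = 1 ∧ ∀ t ∈ ball (0 : ℂ) 1,
      ‖-log (1 + coarseE g v (((1 / (R + 2) : ℝ) : ℂ) * t))‖ ≤ 33 / R ^ 2 / ‖ω - t‖ := by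
  obtain ⟨ω, hω, hb⟩ := coarse_omega v
  refine ⟨ω, hω, fun t ht => ?_⟩
  have ht' : ‖t‖ < 1 := mem_ball_zero_iff.1 ht
  have hρ : (0 : ℝ) < 1 / (R + 2) := by positivity
  have hw := coarse_scale hR ht'
  have h1 := hb (1 / (R + 2)) t hρ.le (by
    rw [mul_one_div, div_le_one (by linarith)]
    linarith) ht'.le
  have h2 := coarseE_le hg hR hv hw
  have h3 := Complex.norm_log_one_add_half_le_self (coarseE_half hg hR hv hw)
  have h4 : 0 < ‖ω - t‖ := by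
    have := norm_sub_norm_le ω t
    linarith
  generalize ((1 / (R + 2) : ℝ) : ℂ) * t = w at *
  have h5 : 0 < ‖1 + v * w‖ := by linarith
  have h6 : ‖w‖ ≤ 1 / R := hw.le.trans (one_div_le_one_div_of_le (by linarith) (by linarith))
  have h7 : 11 * ‖w‖ * ‖w / (1 + v * w)‖ ≤ 11 * (1 / R) * ((1 / R) / (‖ω - t‖ / 2)) := by
    rw [norm_div]
    have h8 : ‖ω - t‖ / 2 ≤ ‖1 + v * w‖ := by linarith
    have h9 : (0 : ℝ) < 1 / R := by positivity
    gcongr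
  have h8 : 3 / 2 * (11 * (1 / R) * ((1 / R) / (‖ω - t‖ / 2))) = 33 / R ^ 2 / ‖ω - t‖ := by
    field_simp
    norm_num
  rw [norm_neg]
  linarith

/-- Linearization outside the resonant circle, valid for the whole class of univalent maps. -/
theorem coarse : ∃ C : ℝ, 1 ≤ C ∧ ∀ (g : ℂ → ℂ) (lam : ℂ) (R σ Ω : ℝ), Schlicht g →
    ‖lam‖ ≤ 1 → lam ≠ 0 → 10 ≤ R → ‖a2 g / (1 - lam)‖ ≤ R → 0 < σ → σ ≤ 1 / 10 →
    DivB lam Ω σ → C / R ^ 2 * (1 + Real.log (1 / σ)) * Ω ≤ σ →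
    ∃ h : ℂ → ℂ, Lin (fun z => lam * g z) lam h (Real.exp (-(5 * σ)) / (R + 2)) ∧
      ∀ w ∈ ball (0 : ℂ) (Real.exp (-(5 * σ)) / (R + 2)), w ≠ 0 →
        h w ≠ 0 ∧ ‖h w‖ ≤ 1 / 2 ∧ ‖w / h w - 1 - a2 g / (1 - lam) * w‖ ≤ 2 * σ ∧
        ‖w ^ 2 * deriv h w / h w ^ 2 - 1‖ ≤ 1 / 2 := by
  obtain ⟨C, hC, hkam⟩ := kam
  refine ⟨33 * C, by linarith, fun g lam R σ Ω hg hl hl0 hR hv hσ hσ' hdiv hsmall => ?_⟩
  have hl1 : 1 - lam ≠ 0 := by
    have := hdiv.1 1 le_rfl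
    rw [pow_one] at this
    exact sub_ne_zero.2 this.symm
  obtain ⟨v, hvdef⟩ : ∃ v, v = a2 g / (1 - lam) := ⟨_, rfl⟩
  rw [← hvdef] at hv ⊢
  have hav : a2 g = v * (1 - lam) := by rw [hvdef]; field_simp
  obtain ⟨ω, hω, hp⟩ := coarse_p hg hR hv
  have hρ : (0 : ℝ) < 1 / (R + 2) := by positivity
  have hsm : C * (33 / R ^ 2) * (1 + Real.log (1 / σ)) * Ω ≤ σ := by
    have : C * (33 / R ^ 2) = 33 * C / R ^ 2 := by ring
    rw [this]
    exact hsmall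
  have hpd : DifferentiableOn ℂ
      (fun t : ℂ => -log (1 + coarseE g v (((1 / (R + 2) : ℝ) : ℂ) * t))) (ball 0 1) := by
    intro t ht
    have hw := coarse_scale hR (mem_ball_zero_iff.1 ht)
    have d1 : DifferentiableAt ℂ (coarseE g v) (((1 / (R + 2) : ℝ) : ℂ) * t) :=
      (coarseE_diff hg hR hv).differentiableAt (isOpen_ball.mem_nhds (mem_ball_zero_iff.2 hw))
    have d2 : DifferentiableAt ℂ (fun t : ℂ => coarseE g v (((1 / (R + 2) : ℝ) : ℂ) * t)) t :=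
      d1.comp t (differentiableAt_id.const_mul _)
    have hs : 1 + coarseE g v (((1 / (R + 2) : ℝ) : ℂ) * t) ∈ slitPlane :=
      Complex.mem_slitPlane_of_norm_lt_one (lt_of_le_of_lt (coarseE_half hg hR hv hw) (by norm_num))
    exact (((d2.const_add 1).clog hs).neg).differentiableWithinAt
  obtain ⟨ψ, hψd, hψ0, hψ⟩ := hkam lam ω
    (fun t : ℂ => -log (1 + coarseE g v (((1 / (R + 2) : ℝ) : ℂ) * t))) (33 / R ^ 2) σ Ω hl hω hσ
    hσ' (by positivity) hdiv hpd (by simp [coarseE]) hp hsm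
  obtain ⟨S, hS⟩ : ∃ S : ℂ, S = ((R + 2 : ℝ) : ℂ) := ⟨_, rfl⟩
  have hS0 : S ≠ 0 := by
    rw [hS]
    exact_mod_cast (by linarith : R + 2 ≠ 0)
  have hSn : ‖S‖ = R + 2 := by
    rw [hS, Complex.norm_real, Real.norm_of_nonneg (by linarith)]
  have hSρ : ((1 / (R + 2) : ℝ) : ℂ) = 1 / S := by
    rw [hS]
    push_cast
    rfl
  have hmem : ∀ w ∈ ball (0 : ℂ) (Real.exp (-(5 * σ)) / (R + 2)),
      S * w ∈ ball (0 : ℂ) (Real.exp (-(5 * σ))) := by
    intro w hw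
    rw [mem_ball_zero_iff] at hw ⊢
    rw [lt_div_iff₀ (by linarith)] at hw
    rw [norm_mul, hSn, mul_comm]
    exact hw
  have hk : ∀ w ∈ ball (0 : ℂ) (Real.exp (-(5 * σ)) / (R + 2)),
      ‖w * exp (ψ (S * w))‖ < 1 / (R + 2) := by
    intro w hw
    have h1 := (hψ _ (hmem w hw)).2.2.1
    rw [mul_assoc, norm_mul, hSn] at h1
    rw [lt_div_iff₀ (by linarith), mul_comm]
    exact h1
  have hkd : ∀ w ∈ ball (0 : ℂ) (Real.exp (-(5 * σ)) / (R + 2)),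
      HasDerivAt (fun w : ℂ => w * exp (ψ (S * w)))
        (exp (ψ (S * w)) * (1 + S * w * deriv ψ (S * w))) w := by
    intro w hw
    have d1 : HasDerivAt ψ (deriv ψ (S * w)) (S * w) :=
      (hψd.differentiableAt (isOpen_ball.mem_nhds (hmem w hw))).hasDerivAt
    have d2 : HasDerivAt (fun w : ℂ => S * w) S w := by
      simpa using (hasDerivAt_id w).const_mul S
    have d3 : HasDerivAt (fun w : ℂ => ψ (S * w)) (deriv ψ (S * w) * S) w := d1.comp w d2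
    refine HasDerivAt.congr_deriv ((hasDerivAt_id w).mul d3.cexp) ?_
    simp only [id]
    ring
  have hhd : ∀ w ∈ ball (0 : ℂ) (Real.exp (-(5 * σ)) / (R + 2)),
      HasDerivAt (fun w : ℂ => w * exp (ψ (S * w)) / (1 + v * (w * exp (ψ (S * w)))))
        (exp (ψ (S * w)) * (1 + S * w * deriv ψ (S * w))
          / (1 + v * (w * exp (ψ (S * w)))) ^ 2) w := by
    intro w hw
    have hd := coarse_den_ne hR hv (hk w hw)
    refine HasDerivAt.congr_deriv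
      ((hkd w hw).div (((hkd w hw).const_mul v).const_add 1) hd) ?_
    congr 1
    ring
  have hpos : 0 < Real.exp (-(5 * σ)) / (R + 2) := by positivity
  refine ⟨fun w => w * exp (ψ (S * w)) / (1 + v * (w * exp (ψ (S * w)))), ⟨hpos, ?_, ?_, ?_, ?_⟩,
    ?_⟩
  · intro w hw
    exact (hhd w hw).differentiableAt.differentiableWithinAt
  · simp
  · rw [(hhd 0 (mem_ball_self hpos)).deriv]
    simp [hψ0]
  · filter_upwards [ball_mem_nhds (0 : ℂ) hpos] with w hw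
    by_cases hw0 : w = 0
    · simp [hw0, hg.zero]
    have hkw := hk w hw
    have heq := (hψ _ (hmem w hw)).2.2.2
    have e1 : ((1 / (R + 2) : ℝ) : ℂ) * (S * w * exp (ψ (S * w))) = w * exp (ψ (S * w)) := by
      rw [hSρ]
      field_simp
    have e2 : S * (lam * w) = lam * (S * w) := by ring
    simp only [e1] at heq
    have hE := coarseE_half hg hR hv hkw
    have hE0 : 1 + coarseE g v (w * exp (ψ (S * w))) ≠ 0 :=
      Complex.slitPlane_ne_zero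
        (Complex.mem_slitPlane_of_norm_lt_one (lt_of_le_of_lt hE (by norm_num)))
    have e3 : lam * w * exp (ψ (S * (lam * w)))
        = lam * (w * exp (ψ (S * w))) / (1 + coarseE g v (w * exp (ψ (S * w)))) := by
      rw [e2, heq, Complex.exp_add, Complex.exp_neg, Complex.exp_log hE0]
      field_simp
    have hk0 : w * exp (ψ (S * w)) ≠ 0 := mul_ne_zero hw0 (Complex.exp_ne_zero _)
    rw [e3]
    have hd := coarse_den_ne hR hv hkw
    have hz := coarse_z hR hv hkw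
    have hE1 : coarseE g v (w * exp (ψ (S * w))) = w * exp (ψ (S * w)) *
        (1 / g (w * exp (ψ (S * w)) / (1 + v * (w * exp (ψ (S * w)))))
          - 1 / (w * exp (ψ (S * w)) / (1 + v * (w * exp (ψ (S * w))))) + a2 g) := rfl
    generalize w * exp (ψ (S * w)) = k at *
    have hg0 := coarse_g_ne hg hz (div_ne_zero hk0 hd)
    generalize g (k / (1 + v * k)) = G at *
    generalize coarseE g v k = E at *
    have e4 : 1 / (lam * G) = 1 / (lam * k / (1 + E) / (1 + v * (lam * k / (1 + E)))) := by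
      have e5 : 1 / G = (1 + E) / k + lam * v := by
        rw [hE1, hav]
        field_simp
        ring
      have e6 : 1 / (lam * G) = (1 / G) / lam := by field_simp
      rw [e6, e5, one_div_div]
      field_simp
    rw [one_div, one_div] at e4
    exact inv_injective e4
  · intro w hw hw0
    have hkw := hk w hw
    have hd := coarse_den_ne hR hv hkw
    obtain ⟨h1, h2, -, -⟩ := hψ _ (hmem w hw)
    have h3 : ‖ψ (S * w)‖ ≤ σ := h1.trans hsm
    have he : exp (ψ (S * w)) ≠ 0 := Complex.exp_ne_zero _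
    have h4 : ‖exp (-ψ (S * w)) - 1‖ ≤ 2 * σ := by
      have := Complex.norm_exp_sub_one_le (x := -ψ (S * w)) (by rw [norm_neg]; linarith)
      rw [norm_neg] at this
      linarith
    refine ⟨div_ne_zero (mul_ne_zero hw0 he) hd, coarse_z hR hv hkw, ?_, ?_⟩
    · have e1 : w / (w * exp (ψ (S * w)) / (1 + v * (w * exp (ψ (S * w))))) - 1 - v * w
          = exp (-ψ (S * w)) - 1 := by
        rw [Complex.exp_neg]
        field_simp
        ring
      rw [e1]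
      exact h4
    · rw [(hhd w hw).deriv]
      have e1 : w ^ 2 * (exp (ψ (S * w)) * (1 + S * w * deriv ψ (S * w))
            / (1 + v * (w * exp (ψ (S * w)))) ^ 2)
            / (w * exp (ψ (S * w)) / (1 + v * (w * exp (ψ (S * w))))) ^ 2 - 1
          = (exp (-ψ (S * w)) - 1) * (1 + S * w * deriv ψ (S * w)) + S * w * deriv ψ (S * w) := by
        rw [Complex.exp_neg]
        generalize exp (ψ (S * w)) = e at he hd
        generalize 1 + v * (w * e) = d at hd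
        generalize S * w * deriv ψ (S * w) = D
        field_simp
        ring
      rw [e1]
      have h5 : ‖1 + S * w * deriv ψ (S * w)‖ ≤ 9 / 8 := by
        have := norm_add_le 1 (S * w * deriv ψ (S * w))
        rw [norm_one] at this
        linarith
      have h6 : ‖(exp (-ψ (S * w)) - 1) * (1 + S * w * deriv ψ (S * w))‖ ≤ 1 / 5 * (9 / 8) := by
        rw [norm_mul]
        exact mul_le_mul (by linarith) h5 (norm_nonneg _) (by norm_num)
      have h7 := norm_add_le ((exp (-ψ (S * w)) - 1) * (1 + S * w * deriv ψ (S * w)))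
        (S * w * deriv ψ (S * w))
      linarith

end Pool.Agent.Lib.MP_102662_an
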