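import Pool.Agent.Lib.MP_102662_an.Defs

open Complex Metric Set Filter Topology

namespace Pool.Agent.Lib.MP_102662_an

/-- Taylor coefficients with an `L¹` Cauchy estimate. -/
theorem cohom_coef {G : ℂ → ℂ} {r M : ℝ} (hr : 0 < r) (hG : DifferentiableOn ℂ G (ball 0 r))
    (hM : ∀ ρ ∈ Ioo 0 r, Real.circleAverage (fun w => ‖G w‖) 0 ρ ≤ M) :
    ∃ a : ℕ → ℂ, (∀ n, ‖a n‖ * r ^ n ≤ M) ∧
      ∀ w ∈ ball (0 : ℂ) r, HasSum (fun n => w ^ n * a n) (G w) := by
  have hP : ∀ ρ : ℝ, 0 < ρ → ρ < r →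
      HasFPowerSeriesOnBall G (cauchyPowerSeries G 0 ρ) 0 (ENNReal.ofReal ρ) := by
    intro ρ h0 h1
    lift ρ to NNReal using h0.le
    rw [ENNReal.ofReal_coe_nnreal]
    exact (hG.mono (closedBall_subset_ball h1)).hasFPowerSeriesOnBall (by exact_mod_cast h0)
  have hE : ∀ ρ : ℝ, 0 < ρ → ρ < r → cauchyPowerSeries G 0 (r / 2) = cauchyPowerSeries G 0 ρ :=
    fun ρ h0 h1 => (hP (r / 2) (by linarith) (by linarith)).hasFPowerSeriesAt.eq_formalMultilinearSeries
      (hP ρ h0 h1).hasFPowerSeriesAt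
  refine ⟨fun n => (cauchyPowerSeries G 0 (r / 2)).coeff n, fun n => ?_, fun w hw => ?_⟩
  · have h1 : ∀ ρ ∈ Ioo 0 r, ‖(cauchyPowerSeries G 0 (r / 2)).coeff n‖ * ρ ^ n ≤ M := by
      intro ρ hρ
      have h2 := norm_cauchyPowerSeries_le G 0 ρ n
      rw [← hE ρ hρ.1 hρ.2, FormalMultilinearSeries.norm_apply_eq_norm_coef, abs_of_pos hρ.1,
        inv_pow, ← div_eq_mul_inv, le_div_iff₀ (pow_pos hρ.1 n)] at h2
      exact le_trans h2 (hM ρ hρ)
    have h3 : Tendsto (fun ρ : ℝ => ‖(cauchyPowerSeries G 0 (r / 2)).coeff n‖ * ρ ^ n) (𝓝[<] r)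
        (𝓝 (‖(cauchyPowerSeries G 0 (r / 2)).coeff n‖ * r ^ n)) :=
      tendsto_nhdsWithin_of_tendsto_nhds (Continuous.tendsto (by fun_prop) r)
    refine le_of_tendsto h3 ?_
    filter_upwards [Ioo_mem_nhdsLT hr] with ρ hρ using h1 ρ hρ
  · rw [mem_ball_zero_iff] at hw
    have h0 := norm_nonneg w
    have h1 := (hP ((‖w‖ + r) / 2) (by linarith) (by linarith)).hasSum (y := w) (by
      rw [Metric.mem_eball, edist_dist, dist_zero_right]
      exact (ENNReal.ofReal_lt_ofReal_iff (by linarith)).2 (by linarith))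
    rw [← hE _ (by linarith) (by linarith), zero_add] at h1
    simpa only [FormalMultilinearSeries.apply_eq_pow_smul_coeff, smul_eq_mul] using h1

/-- The linear cohomological equation with an `L¹` bound on the right-hand side. -/
theorem cohom {lam : ℂ} (hl : ‖lam‖ ≤ 1) (hk : ∀ k : ℕ, 1 ≤ k → lam ^ k ≠ 1) {G : ℂ → ℂ}
    {r s M Ω : ℝ} (hr : 0 < r) (hs : 0 < s) (hG : DifferentiableOn ℂ G (ball 0 r)) (hG0 : G 0 = 0)
    (hM : ∀ ρ ∈ Ioo 0 r, Real.circleAverage (fun w => ‖G w‖) 0 ρ ≤ M)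
    (hΩ : ∀ n : ℕ, ∑ k ∈ Finset.range n,
      Real.exp (-(((k : ℝ) + 1) * s)) / ‖lam ^ (k + 1) - 1‖ ≤ Ω) :
    ∃ v : ℂ → ℂ, DifferentiableOn ℂ v (ball 0 (r * Real.exp (-s))) ∧ v 0 = 0 ∧
      ∀ w ∈ ball (0 : ℂ) (r * Real.exp (-s)), ‖v w‖ ≤ M * Ω ∧ v (lam * w) - v w = G w := by
  obtain ⟨a, ha, hsum⟩ := cohom_coef hr hG hM
  have hM0 : 0 ≤ M := le_trans (by positivity) (ha 0)
  have ha0 : a 0 = 0 := by
    have h1 := hsum 0 (mem_ball_self hr)
    have h2 : HasSum (fun n => (0 : ℂ) ^ n * a n) ((0 : ℂ) ^ 0 * a 0) :=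
      hasSum_single 0 (fun n hn => by rw [zero_pow hn, zero_mul])
    have h3 := h1.unique h2
    rw [hG0, pow_zero, one_mul] at h3
    exact h3.symm
  let u : ℕ → ℝ := fun k => M * (Real.exp (-(((k : ℝ) + 1) * s)) / ‖lam ^ (k + 1) - 1‖)
  have hu0 : ∀ k, 0 ≤ u k := fun k => by positivity
  have hu1 : ∀ n, ∑ k ∈ Finset.range n, u k ≤ M * Ω := by
    intro n
    rw [← Finset.mul_sum]
    exact mul_le_mul_of_nonneg_left (hΩ n) hM0
  have hu : Summable u := summable_of_sum_range_le hu0 hu1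
  let F : ℕ → ℂ → ℂ := fun k w => w ^ (k + 1) * a (k + 1) / (lam ^ (k + 1) - 1)
  have hF : ∀ k w, w ∈ ball (0 : ℂ) (r * Real.exp (-s)) → ‖F k w‖ ≤ u k := by
    intro k w hw
    rw [mem_ball_zero_iff] at hw
    simp only [F, u]
    rw [norm_div, norm_mul, norm_pow, ← mul_div_assoc]
    refine div_le_div_of_nonneg_right ?_ (norm_nonneg _)
    have h1 : ‖w‖ ^ (k + 1) ≤ r ^ (k + 1) * Real.exp (-(((k : ℝ) + 1) * s)) := by
      refine le_trans (pow_le_pow_left₀ (norm_nonneg _) hw.le _) (le_of_eq ?_)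
      rw [mul_pow, ← Real.exp_nat_mul]
      congr 2
      push_cast
      ring
    have h2 := mul_le_mul_of_nonneg_right h1 (norm_nonneg (a (k + 1)))
    have h3 := mul_le_mul_of_nonneg_right (ha (k + 1))
      (Real.exp_pos (-(((k : ℝ) + 1) * s))).le
    linarith
  refine ⟨fun w => ∑' k, F k w, differentiableOn_tsum_of_summable_norm hu
    (fun k => by simp only [F]; fun_prop) isOpen_ball hF, by simp [F], fun w hw => ⟨?_, ?_⟩⟩
  · exact le_trans (tsum_of_norm_bounded hu.hasSum (fun k => hF k w hw))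
      (hu.tsum_le_of_sum_range_le hu1)
  · have hw' : lam * w ∈ ball (0 : ℂ) (r * Real.exp (-s)) := by
      rw [mem_ball_zero_iff] at hw ⊢
      rw [norm_mul]
      exact lt_of_le_of_lt (mul_le_of_le_one_left (norm_nonneg _) hl) hw
    have hwr : w ∈ ball (0 : ℂ) r := by
      refine ball_subset_ball (mul_le_of_le_one_right hr.le ?_) hw
      rw [Real.exp_le_one_iff]
      linarith
    have h1 : Summable (fun k => F k (lam * w)) := Summable.of_norm_bounded hu (fun k => hF k _ hw')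
    have h2 : Summable (fun k => F k w) := Summable.of_norm_bounded hu (fun k => hF k _ hw)
    have h3 := (hasSum_nat_add_iff' 1).2 (hsum w hwr)
    rw [Finset.sum_range_one, ha0, mul_zero, sub_zero] at h3
    have h4 := h1.hasSum.sub h2.hasSum
    have e : (fun k => F k (lam * w) - F k w) = fun k => w ^ (k + 1) * a (k + 1) := by
      funext k
      have h5 : lam ^ (k + 1) - 1 ≠ 0 := sub_ne_zero.2 (hk (k + 1) (by omega))
      simp only [F]
      rw [mul_pow]
      field_simp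
    rw [e] at h4
    exact h4.unique h3

/-- Lower bound for the distance from `1` to a point of a circle. -/
theorem cohom_dist {σ ρ t : ℝ} (h0 : 0 < σ) (h1 : σ ≤ 1 / 10) (h2 : 0 < ρ)
    (h3 : ρ ≤ Real.exp (-σ)) (ht : |t| ≤ Real.pi) :
    (σ + |t|) / 8 ≤ ‖1 - (ρ : ℂ) * Complex.exp (t * I)‖ := by
  have hρ : ρ ≤ 1 - σ / 2 := by
    refine le_trans h3 ?_
    rw [Real.exp_neg, inv_le_comm₀ (Real.exp_pos _) (by linarith)]
    refine le_trans ?_ (Real.add_one_le_exp σ)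
    rw [inv_le_iff_one_le_mul₀ (by linarith)]
    nlinarith
  have e : ‖1 - (ρ : ℂ) * Complex.exp (t * I)‖ ^ 2 = (1 - ρ) ^ 2 + 2 * ρ * (1 - Real.cos t) := by
    rw [Complex.sq_norm, Complex.normSq_apply]
    simp only [sub_re, one_re, mul_re, ofReal_re, ofReal_im, exp_ofReal_mul_I_re,
      exp_ofReal_mul_I_im, sub_im, one_im, mul_im]
    linear_combination ρ ^ 2 * Real.sin_sq_add_cos_sq t
  have hpi := Real.pi_lt_d2
  have hpi0 := Real.pi_pos
  have ha := abs_nonneg t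
  refine (pow_le_pow_iff_left₀ (by positivity) (norm_nonneg _) two_ne_zero).1 ?_
  rw [e]
  have hc : 1 / 5 * t ^ 2 ≤ 1 - Real.cos t := by
    have h4 := Real.cos_le_one_sub_mul_cos_sq ht
    have h5 : 1 / 5 ≤ 2 / Real.pi ^ 2 := by
      rw [div_le_div_iff₀ (by norm_num) (by positivity)]
      nlinarith
    have h6 := mul_le_mul_of_nonneg_right h5 (sq_nonneg t)
    linarith
  have hc0 : 0 ≤ 1 - Real.cos t := by linarith [Real.cos_le_one t]
  rw [← sq_abs t] at hc
  rcases le_total ρ (1 / 2) with h | h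
  · have h4 := mul_nonneg h2.le hc0
    have h5 : ((σ + |t|) / 8) ^ 2 ≤ (1 / 2) ^ 2 := pow_le_pow_left₀ (by positivity) (by linarith) 2
    have h6 : (1 / 2 : ℝ) ^ 2 ≤ (1 - ρ) ^ 2 := pow_le_pow_left₀ (by norm_num) (by linarith) 2
    linarith
  · have h4 := mul_le_mul_of_nonneg_right h hc0
    have h6 : (σ / 2) ^ 2 ≤ (1 - ρ) ^ 2 := pow_le_pow_left₀ (by positivity) (by linarith) 2
    nlinarith [sq_nonneg (σ - |t|), sq_nonneg σ, sq_nonneg |t|]

/-- Circle means of the weight `1 / ‖ω - w‖`. -/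
theorem mean_weight : ∃ C : ℝ, 1 ≤ C ∧ ∀ (ω : ℂ) (σ ρ : ℝ), ‖ω‖ = 1 → 0 < σ → σ ≤ 1 / 10 →
    0 < ρ → ρ ≤ Real.exp (-σ) →
    Real.circleAverage (fun w => 1 / ‖ω - w‖) 0 ρ ≤ C * (1 + Real.log (1 / σ)) := by
  refine ⟨10, by norm_num, fun ω σ ρ hω h0 h1 h2 h3 => ?_⟩
  have hpi := Real.pi_lt_d2
  have hpi3 := Real.pi_gt_three
  rw [Real.circleAverage_eq_integral_add (η := arg ω), smul_eq_mul]
  have e : ∀ θ : ℝ, ‖ω - circleMap 0 ρ (θ + arg ω)‖ = ‖1 - (ρ : ℂ) * Complex.exp (θ * I)‖ := by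
    intro θ
    have h4 := Complex.norm_mul_exp_arg_mul_I ω
    rw [hω, ofReal_one, one_mul] at h4
    have h5 : ω - circleMap 0 ρ (θ + arg ω) = ω * (1 - (ρ : ℂ) * Complex.exp (θ * I)) := by
      rw [circleMap_zero, ofReal_add, add_mul, Complex.exp_add, h4]
      ring
    rw [h5, norm_mul, hω, one_mul]
  simp only [e]
  have hb : ∀ θ ∈ Icc (0 : ℝ) (2 * Real.pi), 1 / ‖1 - (ρ : ℂ) * Complex.exp (θ * I)‖ ≤
      8 * (θ + σ)⁻¹ + 8 * (2 * Real.pi + σ - θ)⁻¹ := by
    intro θ hθ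
    have p1 : 0 < θ + σ := by linarith [hθ.1]
    have p2 : 0 < 2 * Real.pi + σ - θ := by linarith [hθ.2]
    rcases le_total θ Real.pi with h | h
    · have h4 := cohom_dist h0 h1 h2 h3 (t := θ) (by rw [abs_of_nonneg hθ.1]; exact h)
      rw [abs_of_nonneg hθ.1] at h4
      have h5 := one_div_le_one_div_of_le (by linarith) h4
      have h6 : 1 / ((σ + θ) / 8) = 8 * (θ + σ)⁻¹ := by
        rw [add_comm σ θ]
        field_simp
      have h7 : 0 < 8 * (2 * Real.pi + σ - θ)⁻¹ := by positivity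
      linarith
    · have h8 : θ - 2 * Real.pi ≤ 0 := by linarith [hθ.2]
      have h4 := cohom_dist h0 h1 h2 h3 (t := θ - 2 * Real.pi)
        (by rw [abs_of_nonpos h8]; linarith)
      have h9 : Complex.exp (((θ - 2 * Real.pi : ℝ) : ℂ) * I) = Complex.exp (θ * I) := by
        push_cast
        rw [sub_mul, Complex.exp_sub, Complex.exp_two_pi_mul_I, div_one]
      rw [abs_of_nonpos h8, h9] at h4
      have h5 := one_div_le_one_div_of_le (by linarith) h4
      have h6 : 1 / ((σ + -(θ - 2 * Real.pi)) / 8) = 8 * (2 * Real.pi + σ - θ)⁻¹ := by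
        have h10 : σ + -(θ - 2 * Real.pi) = 2 * Real.pi + σ - θ := by ring
        rw [h10]
        field_simp
      have h7 : 0 < 8 * (θ + σ)⁻¹ := by positivity
      linarith
  have hle : (0 : ℝ) ≤ 2 * Real.pi := by linarith
  have c1 : ContinuousOn (fun θ : ℝ => (θ + σ)⁻¹) (uIcc 0 (2 * Real.pi)) := by
    rw [uIcc_of_le hle]
    exact ContinuousOn.inv₀ (by fun_prop) (fun θ hθ => by linarith [hθ.1])
  have c2 : ContinuousOn (fun θ : ℝ => (2 * Real.pi + σ - θ)⁻¹) (uIcc 0 (2 * Real.pi)) := by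
    rw [uIcc_of_le hle]
    exact ContinuousOn.inv₀ (by fun_prop) (fun θ hθ => by linarith [hθ.2])
  have c3 : Continuous (fun θ : ℝ => 1 / ‖1 - (ρ : ℂ) * Complex.exp (θ * I)‖) := by
    refine Continuous.div continuous_const (by fun_prop) (fun θ => ?_)
    have h4 := norm_sub_norm_le (1 : ℂ) ((ρ : ℂ) * Complex.exp (θ * I))
    rw [norm_one, norm_mul, Complex.norm_exp_ofReal_mul_I, mul_one, Complex.norm_real,
      Real.norm_eq_abs, abs_of_pos h2] at h4
    have h5 : Real.exp (-σ) < 1 := by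
      rw [Real.exp_lt_one_iff]
      linarith
    linarith
  have hI := intervalIntegral.integral_mono_on (μ := MeasureTheory.volume) hle
    (c3.intervalIntegrable _ _)
    (((c1.intervalIntegrable).const_mul 8).add ((c2.intervalIntegrable).const_mul 8)) hb
  rw [intervalIntegral.integral_add ((c1.intervalIntegrable).const_mul 8)
    ((c2.intervalIntegrable).const_mul 8), intervalIntegral.integral_const_mul,
    intervalIntegral.integral_const_mul,
    intervalIntegral.integral_comp_add_right (fun x : ℝ => x⁻¹),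
    intervalIntegral.integral_comp_sub_left (fun x : ℝ => x⁻¹),
    integral_inv_of_pos (by linarith) (by linarith),
    integral_inv_of_pos (by linarith) (by linarith)] at hI
  have e1 : (2 * Real.pi + σ - 0) / (2 * Real.pi + σ - 2 * Real.pi) =
      (2 * Real.pi + σ) * (1 / σ) := by
    have h4 : 2 * Real.pi + σ - 2 * Real.pi = σ := by ring
    rw [h4, sub_zero, mul_one_div]
  have e2 : (2 * Real.pi + σ) / (0 + σ) = (2 * Real.pi + σ) * (1 / σ) := by
    rw [zero_add, mul_one_div]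
  rw [e1, e2, Real.log_mul (by linarith) (by positivity)] at hI
  have h4 : Real.log (2 * Real.pi + σ) ≤ 3 := by
    rw [Real.log_le_iff_le_exp (by linarith)]
    have h5 := Real.quadratic_le_exp_of_nonneg (x := 3) (by norm_num)
    linarith
  have h5 : 0 ≤ Real.log (1 / σ) := Real.log_nonneg (by
    rw [le_div_iff₀ h0]
    linarith)
  rw [inv_mul_le_iff₀ (by linarith)]
  nlinarith

end Pool.Agent.Lib.MP_102662_an
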