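import Mathlib

open Complex Metric Set Filter Topology

namespace Pool.Agent.Lib.MP_102662_an

/-- The Koebe function. -/
noncomputable def koebe (z : ℂ) : ℂ := z / (1 - z) ^ 2

/-- The multiplier with rotation number `θ`. -/
noncomputable def ee (θ : ℝ) : ℂ := Complex.exp (2 * Real.pi * Complex.I * θ)

/-- Normalized univalent maps of the unit disc. -/
structure Schlicht (g : ℂ → ℂ) : Prop where
  diff : DifferentiableOn ℂ g (ball 0 1)
  inj : InjOn g (ball 0 1)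
  zero : g 0 = 0
  one : deriv g 0 = 1

/-- Second Taylor coefficient. -/
noncomputable def a2 (g : ℂ → ℂ) : ℂ := iteratedDeriv 2 g 0 / 2

/-- `h` is holomorphic on the disc of radius `ρ`, tangent to the identity, and linearizes the germ `f`. -/
structure Lin (f : ℂ → ℂ) (lam : ℂ) (h : ℂ → ℂ) (ρ : ℝ) : Prop where
  pos : 0 < ρ
  diff : DifferentiableOn ℂ h (ball 0 ρ)
  zero : h 0 = 0
  one : deriv h 0 = 1
  conj : ∀ᶠ w in 𝓝 (0 : ℂ), f (h w) = h (lam * w)

/-- Diophantine condition with exponent 2. -/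
def Dio2 (x γ : ℝ) : Prop := ∀ m : ℕ, 1 ≤ m → ∀ p : ℤ, γ / (m : ℝ) ^ 2 ≤ |(m : ℝ) * x - p|

/-- Diophantine condition with exponent 6. -/
def Dio (x γ : ℝ) : Prop := ∀ m : ℕ, 1 ≤ m → ∀ p : ℤ, γ / (m : ℝ) ^ 6 ≤ |(m : ℝ) * x - p|

/-- Bound on the small divisor sums at all dyadic scales below `σ`. -/
def DivB (lam : ℂ) (Ω σ : ℝ) : Prop :=
  (∀ k : ℕ, 1 ≤ k → lam ^ k ≠ 1) ∧
  ∀ j n : ℕ, ∑ k ∈ Finset.range n,
    Real.exp (-(((k : ℝ) + 1) * (σ / 2 ^ j))) / ‖lam ^ (k + 1) - 1‖ ≤ Ω * 128 ^ j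

/-- The standing size and arithmetic assumptions on `x = 1 / θ`. -/
def Good (P x : ℝ) : Prop := P ^ 100 ≤ x ∧ 1 + Real.log x ≤ P ∧ Dio x (1 / P)

/-- The minimal linearization radius, exactly as in the frozen statement. -/
noncomputable def rr (θ : ℝ) : ENNReal :=
  ⨅ f : ℂ → ℂ,
    ⨅ (_ : DifferentiableOn ℂ f (Metric.ball 0 1) ∧ Set.InjOn f (Metric.ball 0 1) ∧
        f 0 = 0 ∧ deriv f 0 = Complex.exp (2 * Real.pi * Complex.I * θ)),
      ⨅ a : ℕ → ℂ,
        ⨅ (_ : a 0 = 0 ∧ a 1 = 1 ∧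
            ∀ n : ℕ,
              ∑ k ∈ Finset.range (n + 1),
                  iteratedDeriv k f 0 / (k.factorial : ℂ) *
                    ∑ t ∈ Finset.Nat.antidiagonalTuple k n, ∏ i, a (t i)
                = Complex.exp (2 * Real.pi * Complex.I * θ) ^ n * a n),
          ⨆ (ρ : NNReal) (_ : ∃ D : ℝ, ∀ n : ℕ, ‖a n‖ * (ρ : ℝ) ^ n ≤ D),
            (ρ : ENNReal)

/-- The Gauss map. -/
noncomputable def gauss (x : ℝ) : ℝ := Int.fract (1 / x)

/-- The terms of the Brjuno series. -/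
noncomputable def bterm (θ : ℝ) (n : ℕ) : ℝ :=
  (∏ j ∈ Finset.range n, (fun x : ℝ => Int.fract (1 / x))^[j] θ) *
    Real.log (1 / (fun x : ℝ => Int.fract (1 / x))^[n] θ)

/-- The map `lam * koebe` in the coordinate `u = 1 / z`. -/
noncomputable def Fu (lam u : ℂ) : ℂ := (u - 2 + 1 / u) / lam

/-- Maximal univalent linearizer of `lam * koebe` for `‖lam‖ < 1`; the critical point sits over `η`. -/
structure KExt (lam η : ℂ) (h : ℂ → ℂ) : Prop where
  ne : η ≠ 0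
  diff : DifferentiableOn ℂ h (ball 0 ‖η‖)
  inj : InjOn h (ball 0 ‖η‖)
  zero : h 0 = 0
  one : deriv h 0 = 1
  ne_one : ∀ w ∈ ball (0 : ℂ) ‖η‖, h w ≠ 1
  ne_neg_one : ∀ w ∈ ball (0 : ℂ) ‖η‖, h w ≠ -1
  eqn : ∀ w ∈ ball (0 : ℂ) ‖η‖, koebe (h w) = w * dslope h 0 (lam * w)
  crit : η * dslope h 0 (lam * η) = -1 / 4

/-- Finite continued fraction with tail `t`. -/
noncomputable def cfr : List ℕ → ℝ → ℝ
  | [], t => t
  | a :: l, t => 1 / ((a : ℝ) + cfr l t)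

/-- Product of the Gauss iterates along a finite continued fraction. -/
noncomputable def bet : List ℕ → ℝ → ℝ
  | [], _ => 1
  | a :: l, t => cfr (a :: l) t * bet l t

/-- The finite part of the Brjuno sum along a finite continued fraction. -/
noncomputable def Ssum : List ℕ → ℝ → ℝ
  | [], _ => 0
  | a :: l, t => Real.log (1 / cfr (a :: l) t) + cfr (a :: l) t * Ssum l t

/-- The golden tail. -/
noncomputable def gold : ℝ := (Real.sqrt 5 - 1) / 2

theorem Lin.mono {f h : ℂ → ℂ} {lam : ℂ} {ρ ρ' : ℝ} (H : Lin f lam h ρ) (h0 : 0 < ρ')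
    (hle : ρ' ≤ ρ) : Lin f lam h ρ' :=
  ⟨h0, H.diff.mono (ball_subset_ball hle), H.zero, H.one, H.conj⟩

theorem Dio.mono {x γ γ' : ℝ} (H : Dio x γ) (hle : γ' ≤ γ) : Dio x γ' := fun m hm p =>
  le_trans (div_le_div_of_nonneg_right hle (by positivity)) (H m hm p)

theorem norm_ee (θ : ℝ) : ‖ee θ‖ = 1 := by
  have : (2 * Real.pi * Complex.I * θ : ℂ) = ((2 * Real.pi * θ : ℝ) : ℂ) * Complex.I := by
    push_cast; ring
  rw [ee, this, Complex.norm_exp_ofReal_mul_I]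

end Pool.Agent.Lib.MP_102662_an
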