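import Mathlib

/-! The Brjuno series through convergents, and the minimal radius of convergence of the formal
linearization over univalent maps of the unit disc. -/

set_option autoImplicit false

namespace Pool.Agent.Lib.MP_102662_an.Fb

open scoped ENNReal

/-- `q_n θ - p_n`, where `p_n / q_n` is the `n`-th continued fraction convergent of `θ`. -/
noncomputable def err (θ : ℝ) (n : ℕ) : ℝ :=
  (GenContFract.of θ).dens n * θ - (GenContFract.of θ).nums n

/-- `α_0 = θ` and `α_n = - (q_n θ - p_n) / (q_(n-1) θ - p_(n-1))` for `n ≥ 1`. -/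
noncomputable def alpha (θ : ℝ) (n : ℕ) : ℝ :=
  if n = 0 then θ else -(err θ n / err θ (n - 1))

/-- `betaPrev θ n = β_(n-1)`, where `β_(-1) = 1` and `β_n = (-1)^n (q_n θ - p_n)`. -/
noncomputable def betaPrev (θ : ℝ) (n : ℕ) : ℝ :=
  if n = 0 then 1 else (-1) ^ (n - 1) * err θ (n - 1)

/-- The `n`-th term `β_(n-1) log (1 / α_n)` of the Brjuno series. -/
noncomputable def brjunoTerm (θ : ℝ) (n : ℕ) : ℝ := betaPrev θ n * Real.log (1 / alpha θ n)

/-- The Taylor series of `f` at `0`. -/
noncomputable def taylor (f : ℂ → ℂ) : PowerSeries ℂ :=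
  PowerSeries.mk fun n => iteratedDeriv n f 0 / (n.factorial : ℂ)

/-- The radius of convergence of a formal power series. -/
noncomputable def radius (h : PowerSeries ℂ) : ℝ≥0∞ :=
  (FormalMultilinearSeries.ofScalars ℂ fun n => PowerSeries.coeff n h).radius

/-- `h` is a formal linearization of `f` tangent to the identity: `h (0) = 0`, `h' (0) = 1` and
`f ∘ h = h ∘ (lam ·)` as formal power series. -/
def IsLinearization (f : ℂ → ℂ) (lam : ℂ) (h : PowerSeries ℂ) : Prop :=
  PowerSeries.coeff 0 h = 0 ∧ PowerSeries.coeff 1 h = 1 ∧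
    (taylor f).subst h = PowerSeries.rescale lam h

/-- The infimum of the radii of convergence of the formal linearizations of all holomorphic
injective maps `f` of the unit disc with `f (0) = 0` and `f' (0) = exp (2 π i θ)`. -/
noncomputable def minRadius (θ : ℝ) : ℝ≥0∞ :=
  sInf {ρ | ∃ (f : ℂ → ℂ) (h : PowerSeries ℂ), DifferentiableOn ℂ f (Metric.ball 0 1) ∧
    Set.InjOn f (Metric.ball 0 1) ∧ f 0 = 0 ∧
    deriv f 0 = Complex.exp (2 * Real.pi * Complex.I * θ) ∧
    IsLinearization f (Complex.exp (2 * Real.pi * Complex.I * θ)) h ∧ ρ = radius h}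

end Pool.Agent.Lib.MP_102662_an.Fb
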