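import Pool.Agent.Lib.MP_102662_an.Coarse
import Pool.Agent.Lib.MP_102662_an.Div
import Pool.Agent.Lib.MP_102662_an.Koebe
import Pool.Agent.Lib.MP_102662_an.Basic

open Complex Metric Set Filter Topology

namespace Pool.Agent.Lib.MP_102662_an

/-- Holomorphic square root on a disc, normalized at the centre. -/
theorem kextA_sqrt {g : ℂ → ℂ} {r : ℝ} (hr : 0 < r) (hg : DifferentiableOn ℂ g (ball 0 r))
    (hne : ∀ w ∈ ball (0 : ℂ) r, g w ≠ 0) (h0 : g 0 = 1) :
    ∃ s : ℂ → ℂ, DifferentiableOn ℂ s (ball 0 r) ∧ s 0 = 1 ∧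
      ∀ w ∈ ball (0 : ℂ) r, s w ^ 2 = g w := by
  have hd : DifferentiableOn ℂ (fun w => deriv g w / g w) (ball 0 r) :=
    (hg.deriv isOpen_ball).div hg hne
  obtain ⟨L, hL0, hL⟩ := hd.isExactOn_ball.with_val_at 0 0
  have hLd : DifferentiableOn ℂ L (ball 0 r) := fun w hw =>
    (hL w hw).differentiableAt.differentiableWithinAt
  have hconst : ∀ w ∈ ball (0 : ℂ) r, g w * Complex.exp (-L w) = 1 := by
    have hder : ∀ w ∈ ball (0 : ℂ) r,
        HasDerivAt (fun w => g w * Complex.exp (-L w)) 0 w := by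
      intro w hw
      have h1 : HasDerivAt g (deriv g w) w :=
        (hg.differentiableAt (isOpen_ball.mem_nhds hw)).hasDerivAt
      have h2 := h1.fun_mul (hL w hw).fun_neg.cexp
      refine h2.congr_deriv ?_
      have := hne w hw
      field_simp
      ring
    intro w hw
    have := (isOpen_ball.is_const_of_deriv_eq_zero (convex_ball (0 : ℂ) r).isPreconnected
      (f := fun w => g w * Complex.exp (-L w))
      (fun w hw => (hder w hw).differentiableAt.differentiableWithinAt)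
      (fun w hw => (hder w hw).deriv) hw (mem_ball_self hr))
    rw [this]
    simp [h0, hL0]
  refine ⟨fun w => Complex.exp (L w / 2), (hLd.div_const 2).cexp, by simp [hL0], fun w hw => ?_⟩
  have h1 := hconst w hw
  have h2 : Complex.exp (L w / 2) ^ 2 = Complex.exp (L w) := by
    rw [← Complex.exp_nat_mul]
    congr 1
    push_cast
    ring
  rw [h2]
  have h3 : Complex.exp (-L w) * Complex.exp (L w) = 1 := by
    rw [← Complex.exp_add]
    simp
  calc Complex.exp (L w) = g w * Complex.exp (-L w) * Complex.exp (L w) := by rw [h1, one_mul]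
    _ = g w := by rw [mul_assoc, h3, mul_one]

theorem kextA_hasDeriv {z : ℂ} (hz : z ≠ 1) :
    HasDerivAt koebe ((1 + z) / (1 - z) ^ 3) z := by
  have h1 : (1 - z) ≠ 0 := sub_ne_zero.2 hz.symm
  have h2 : HasDerivAt (fun z : ℂ => (1 - z) ^ 2) (2 * (1 - z) * (-1)) z := by
    have := ((hasDerivAt_id' z).const_sub 1).fun_pow 2
    refine this.congr_deriv ?_
    norm_num
  have h3 := (hasDerivAt_id' z).fun_div h2 (pow_ne_zero 2 h1)
  refine HasDerivAt.congr_deriv (f := koebe) h3 ?_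
  field_simp
  ring

theorem kextA_one_add {z : ℂ} (hz : z ≠ 1) (hz' : z ≠ -1) : 1 + 4 * koebe z ≠ 0 := by
  have h1 : (1 - z) ≠ 0 := sub_ne_zero.2 hz.symm
  have h2 : (1 + z) ≠ 0 := fun h => hz' (by linear_combination h)
  have h3 : 1 + 4 * koebe z = (1 + z) ^ 2 / (1 - z) ^ 2 := by
    unfold koebe
    field_simp
    ring
  rw [h3]
  exact div_ne_zero (pow_ne_zero 2 h2) (pow_ne_zero 2 h1)

/-- Lifting a univalent map that omits the critical value through the Koebe function. -/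
theorem kextA_lift {q : ℂ → ℂ} {r : ℝ} (hr : 0 < r) (hq : DifferentiableOn ℂ q (ball 0 r))
    (hi : InjOn q (ball 0 r)) (h0 : q 0 = 0) (h1 : deriv q 0 = 1)
    (hne : ∀ w ∈ ball (0 : ℂ) r, 1 + 4 * q w ≠ 0) :
    ∃ h : ℂ → ℂ, DifferentiableOn ℂ h (ball 0 r) ∧ InjOn h (ball 0 r) ∧ h 0 = 0 ∧
      deriv h 0 = 1 ∧ ∀ w ∈ ball (0 : ℂ) r, h w ≠ 1 ∧ h w ≠ -1 ∧ koebe (h w) = q w := by
  obtain ⟨s, hsd, hs0, hs⟩ := kextA_sqrt (g := fun w => 1 + 4 * q w) hr
    ((hq.const_mul 4).const_add 1) hne (by simp [h0])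
  have hs1 : ∀ w ∈ ball (0 : ℂ) r, s w + 1 ≠ 0 := by
    intro w hw h
    have h2 : s w = -1 := by linear_combination h
    have h3 := hs w hw
    rw [h2] at h3
    have h4 : q w = q 0 := by
      rw [h0]
      linear_combination (-1 / 4 : ℂ) * h3
    have h5 := hi hw (mem_ball_self hr) h4
    rw [h5, hs0] at h2
    norm_num at h2
  have hK : ∀ w ∈ ball (0 : ℂ) r, (s w - 1) / (s w + 1) ≠ 1 ∧ (s w - 1) / (s w + 1) ≠ -1 ∧
      koebe ((s w - 1) / (s w + 1)) = q w := by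
    intro w hw
    have h2 := hs1 w hw
    have h3 := hs w hw
    refine ⟨fun h => ?_, fun h => ?_, ?_⟩
    · rw [div_eq_iff h2] at h
      have : (2 : ℂ) = 0 := by linear_combination -h
      norm_num at this
    · rw [div_eq_iff h2] at h
      have h4 : s w = 0 := by linear_combination (1 / 2 : ℂ) * h
      rw [h4] at h3
      exact hne w hw (by rw [← h3]; norm_num)
    · have h4 : 1 - (s w - 1) / (s w + 1) = 2 / (s w + 1) := by
        field_simp
        ring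
      unfold koebe
      rw [h4]
      field_simp
      linear_combination h3
  have hd : DifferentiableOn ℂ (fun w => (s w - 1) / (s w + 1)) (ball 0 r) :=
    (hsd.sub_const 1).div (hsd.add_const 1) hs1
  have hz : (s 0 - 1) / (s 0 + 1) = 0 := by simp [hs0]
  refine ⟨fun w => (s w - 1) / (s w + 1), hd, fun w hw w' hw' h => ?_, hz, ?_, hK⟩
  · apply hi hw hw'
    rw [← (hK w hw).2.2, ← (hK w' hw').2.2]
    exact congrArg koebe h
  · have h2 := (hd.differentiableAt (isOpen_ball.mem_nhds (mem_ball_self hr))).hasDerivAt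
    have h3 : HasDerivAt koebe 1 ((s 0 - 1) / (s 0 + 1)) := by
      rw [hz]
      simpa using kextA_hasDeriv (z := 0) (by norm_num)
    have h4 := (h3.comp 0 h2).deriv
    have h5 : (koebe ∘ fun w => (s w - 1) / (s w + 1)) =ᶠ[𝓝 0] q := by
      filter_upwards [isOpen_ball.mem_nhds (mem_ball_self hr)] with w hw using (hK w hw).2.2
    rw [h5.deriv_eq, h1, one_mul] at h4
    exact h4.symm

/-- A univalent linearizer omits the critical point. -/
theorem kextA_ne_neg_one {h : ℂ → ℂ} {lam : ℂ} {ρ : ℝ} (hl : ‖lam‖ ≤ 1) (hl0 : lam ≠ 0)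
    (H : Lin (fun z => lam * koebe z) lam h ρ) (hi : InjOn h (ball 0 ρ)) :
    ∀ w ∈ ball (0 : ℂ) ρ, h w ≠ -1 := by
  intro w hw hw1
  have hw' : lam * w ∈ ball (0 : ℂ) ρ := by
    rw [mem_ball_zero_iff] at hw ⊢
    rw [norm_mul]
    exact lt_of_le_of_lt (mul_le_of_le_one_left (norm_nonneg _) hl) hw
  have h1 := (H.diff.differentiableAt (isOpen_ball.mem_nhds hw)).hasDerivAt
  have h2 := (H.diff.differentiableAt (isOpen_ball.mem_nhds hw')).hasDerivAt
  have h3 : HasDerivAt koebe 0 (h w) := by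
    rw [hw1]
    simpa using kextA_hasDeriv (z := -1) (by norm_num)
  have h4 : HasDerivAt (fun w => lam * koebe (h w)) (lam * (0 * deriv h w)) w :=
    (h3.comp w h1).const_mul lam
  have h5 : HasDerivAt (fun w => h (lam * w)) (deriv h (lam * w) * lam) w := by
    have := h2.comp w ((hasDerivAt_id w).const_mul lam)
    simpa [Function.comp_def] using this
  have h6 : (fun w => h (lam * w)) =ᶠ[𝓝 w] fun w => lam * koebe (h w) := by
    filter_upwards [isOpen_ball.mem_nhds hw] with v hv using (lin_koebe_global hl hl0 H v hv).2.symm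
  have h7 := (h4.congr_of_eventuallyEq h6).unique h5
  obtain ⟨d, hd, hsub⟩ := Metric.isOpen_iff.1 isOpen_ball _ hw'
  have h8 := univ_deriv_ne hd (H.diff.mono hsub) (hi.mono hsub)
  rw [zero_mul, mul_zero] at h7
  exact mul_ne_zero h8 hl0 h7.symm

theorem kextA_le_four {h : ℂ → ℂ} {lam : ℂ} {ρ : ℝ} (hl : ‖lam‖ ≤ 1) (hl0 : lam ≠ 0)
    (H : Lin (fun z => lam * koebe z) lam h ρ) (hi : InjOn h (ball 0 ρ)) : ρ ≤ 4 := by
  have h1 : (-1 : ℂ) ∉ h '' ball 0 ρ := by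
    rintro ⟨w, hw, hw1⟩
    exact kextA_ne_neg_one hl hl0 H hi w hw hw1
  have := koebe_quarter H.pos H.diff hi h1
  simpa [H.one, H.zero] using this

/-- A small univalent linearization disc exists. -/
theorem kextA_nonempty {lam : ℂ} (hl : ‖lam‖ < 1) (hl0 : lam ≠ 0) :
    ∃ (ρ : ℝ) (h : ℂ → ℂ), Lin (fun z => lam * koebe z) lam h ρ ∧ InjOn h (ball 0 ρ) := by
  obtain ⟨C, hC, H⟩ := coarse
  obtain ⟨Ω, hΩ⟩ : ∃ Ω : ℝ, Ω = 1 / ((1 - ‖lam‖) * (1 / 10)) := ⟨_, rfl⟩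
  obtain ⟨A, hA⟩ : ∃ A : ℝ, A = |C * (1 + Real.log (1 / (1 / 10))) * Ω| := ⟨_, rfl⟩
  have hA0 : 0 ≤ A := hA ▸ abs_nonneg _
  obtain ⟨R, hR⟩ : ∃ R : ℝ, R = 10 + ‖a2 koebe / (1 - lam)‖ + 10 * A := ⟨_, rfl⟩
  have hn := norm_nonneg (a2 koebe / (1 - lam))
  have hR10 : 10 ≤ R := by linarith
  have hsm : C / R ^ 2 * (1 + Real.log (1 / (1 / 10))) * Ω ≤ 1 / 10 := by
    have h1 : C / R ^ 2 * (1 + Real.log (1 / (1 / 10))) * Ω =
        C * (1 + Real.log (1 / (1 / 10))) * Ω / R ^ 2 := by ring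
    have h2 : C * (1 + Real.log (1 / (1 / 10))) * Ω ≤ A := hA ▸ le_abs_self _
    rw [h1, div_le_iff₀ (by positivity)]
    nlinarith
  obtain ⟨h, hL, -⟩ := H koebe lam R (1 / 10) Ω schlicht_koebe hl.le hl0 hR10 (by linarith)
    (by norm_num) le_rfl (hΩ ▸ divB_of_lt_one hl (by norm_num)) hsm
  have han : AnalyticAt ℂ h 0 :=
    hL.diff.analyticAt (isOpen_ball.mem_nhds (mem_ball_self hL.pos))
  have hst : HasStrictDerivAt h 1 0 := by
    have := han.hasStrictDerivAt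
    rwa [hL.one] at this
  have hinv := hst.eventually_left_inverse one_ne_zero
  obtain ⟨ε, hε, hball⟩ := Metric.eventually_nhds_iff_ball.1 hinv
  refine ⟨min ε _, h, hL.mono (lt_min hε hL.pos) (min_le_right _ _), fun w hw w' hw' he => ?_⟩
  rw [← hball w (ball_subset_ball (min_le_left _ _) hw),
    ← hball w' (ball_subset_ball (min_le_left _ _) hw'), he]

theorem kextA_unique {h₁ h₂ : ℂ → ℂ} {lam : ℂ} {ρ₁ ρ₂ : ℝ} (hl : ‖lam‖ < 1) (hl0 : lam ≠ 0)
    (H₁ : Lin (fun z => lam * koebe z) lam h₁ ρ₁) (H₂ : Lin (fun z => lam * koebe z) lam h₂ ρ₂) :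
    EqOn h₁ h₂ (ball 0 (min ρ₁ ρ₂)) := by
  have han : AnalyticAt ℂ koebe 0 :=
    schlicht_koebe.diff.analyticAt (isOpen_ball.mem_nhds (mem_ball_self one_pos))
  refine lin_unique (f := fun z => lam * koebe z) (analyticAt_const.mul han) ?_ hl0
    (fun k hk he => ?_) H₁ H₂
  · rw [deriv_const_mul _ han.differentiableAt, schlicht_koebe.one, mul_one]
  · have h1 : ‖lam‖ ^ k < 1 := pow_lt_one₀ (norm_nonneg _) hl (by omega)
    rw [← norm_pow, he, norm_one] at h1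
    exact lt_irrefl _ h1

/-- There is a largest univalent linearization disc. -/
theorem kextA_max {lam : ℂ} (hl : ‖lam‖ < 1) (hl0 : lam ≠ 0) :
    ∃ (r : ℝ) (h : ℂ → ℂ), Lin (fun z => lam * koebe z) lam h r ∧ InjOn h (ball 0 r) ∧
      ∀ (ρ : ℝ) (h' : ℂ → ℂ), Lin (fun z => lam * koebe z) lam h' ρ → InjOn h' (ball 0 ρ) →
        ρ ≤ r := by
  classical
  obtain ⟨S, hS⟩ : ∃ S : Set ℝ, S = {ρ | ∃ h : ℂ → ℂ,
      Lin (fun z => lam * koebe z) lam h ρ ∧ InjOn h (ball 0 ρ)} := ⟨_, rfl⟩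
  have hmem : ∀ ρ ∈ S, ∃ h : ℂ → ℂ,
      Lin (fun z => lam * koebe z) lam h ρ ∧ InjOn h (ball 0 ρ) := fun ρ hρ => by
    rwa [hS] at hρ
  choose! hh hL hI using hmem
  obtain ⟨ρ₀, h₀, hL₀, hI₀⟩ := kextA_nonempty hl hl0
  have hρ₀ : ρ₀ ∈ S := hS ▸ ⟨h₀, hL₀, hI₀⟩
  have hbdd : BddAbove S := ⟨4, fun ρ hρ => kextA_le_four hl.le hl0 (hL ρ hρ) (hI ρ hρ)⟩
  have hex : ∀ t : ℝ, t < sSup S → ∃ ρ ∈ S, t < ρ := fun t ht =>
    exists_lt_of_lt_csSup ⟨ρ₀, hρ₀⟩ ht
  choose! φ hφS hφ using hex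
  have hr : 0 < sSup S := lt_of_lt_of_le hL₀.pos (le_csSup hbdd hρ₀)
  have hEq : ∀ ρ ∈ S, EqOn (fun w => hh (φ ‖w‖) w) (hh ρ) (ball 0 ρ) := by
    intro ρ hρ w hw
    rw [mem_ball_zero_iff] at hw
    have h1 : ‖w‖ < sSup S := lt_of_lt_of_le hw (le_csSup hbdd hρ)
    exact kextA_unique hl hl0 (hL _ (hφS _ h1)) (hL ρ hρ)
      (mem_ball_zero_iff.2 (lt_min (hφ _ h1) hw))
  have hEv : ∀ ρ ∈ S, ∀ w ∈ ball (0 : ℂ) ρ, (fun w => hh (φ ‖w‖) w) =ᶠ[𝓝 w] hh ρ :=
    fun ρ hρ w hw => (hEq ρ hρ).eventuallyEq_of_mem (isOpen_ball.mem_nhds hw)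
  have h00 := mem_ball_self (x := (0 : ℂ)) hL₀.pos
  refine ⟨sSup S, fun w => hh (φ ‖w‖) w, ⟨hr, fun w hw => ?_, ?_, ?_, ?_⟩, fun w hw w' hw' he => ?_,
    fun ρ h' hL' hI' => le_csSup hbdd (hS ▸ ⟨h', hL', hI'⟩)⟩
  · rw [mem_ball_zero_iff] at hw
    have hw' := mem_ball_zero_iff.2 (hφ _ hw)
    exact (((hL _ (hφS _ hw)).diff.differentiableAt (isOpen_ball.mem_nhds hw')).congr_of_eventuallyEq
      (hEv _ (hφS _ hw) w hw')).differentiableWithinAt
  · exact (hEq ρ₀ hρ₀ h00).trans (hL ρ₀ hρ₀).zero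
  · rw [(hEv ρ₀ hρ₀ 0 h00).deriv_eq, (hL ρ₀ hρ₀).one]
  · have ht : Tendsto (fun w : ℂ => lam * w) (𝓝 0) (𝓝 0) := by
      simpa using (continuous_const_mul lam).tendsto 0
    filter_upwards [(hL ρ₀ hρ₀).conj, hEv ρ₀ hρ₀ 0 h00, ht.eventually (hEv ρ₀ hρ₀ 0 h00)]
      with w h1 h2 h3
    rw [h2, h3, h1]
  · rw [mem_ball_zero_iff] at hw hw'
    have h1 : max ‖w‖ ‖w'‖ < sSup S := max_lt hw hw'
    have h2 := mem_ball_zero_iff.2 (lt_of_le_of_lt (le_max_left _ _) (hφ _ h1))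
    have h3 := mem_ball_zero_iff.2 (lt_of_le_of_lt (le_max_right _ _) (hφ _ h1))
    apply hI _ (hφS _ h1) h2 h3
    rw [← hEq _ (hφS _ h1) h2, ← hEq _ (hφS _ h1) h3]
    exact he

theorem kextA_dslope {h : ℂ → ℂ} {lam : ℂ} (hl0 : lam ≠ 0) (h0 : h 0 = 0) (w : ℂ) :
    w * dslope h 0 (lam * w) = h (lam * w) / lam := by
  have := sub_smul_dslope h 0 (lam * w)
  rw [h0, sub_zero, sub_zero, smul_eq_mul] at this
  rw [← this]
  field_simp

/-- Existence of the maximal univalent linearizer for an attracting multiplier. -/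
theorem kext_exists {lam : ℂ} (hl : ‖lam‖ < 1) : ∃ (η : ℂ) (h : ℂ → ℂ), KExt lam η h := by
  by_cases hl0 : lam = 0
  · subst hl0
    obtain ⟨h, hd, hi, h0, h1, hK⟩ := kextA_lift (q := id) (r := 1 / 4) (by norm_num)
      differentiableOn_id (injOn_id _) rfl (deriv_id 0) (fun w hw he => by
        have h2 : w = -1 / 4 := by
          simp only [id] at he
          linear_combination (1 / 4 : ℂ) * he
        rw [mem_ball_zero_iff, h2] at hw
        norm_num at hw)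
    have hn : ‖(-1 / 4 : ℂ)‖ = 1 / 4 := by norm_num
    refine ⟨-1 / 4, h, by norm_num, hn ▸ hd, hn ▸ hi, h0, h1, fun w hw => (hK w (hn ▸ hw)).1,
      fun w hw => (hK w (hn ▸ hw)).2.1, fun w hw => ?_, ?_⟩
    · rw [(hK w (hn ▸ hw)).2.2, zero_mul, dslope_same, h1, mul_one, id]
    · rw [zero_mul, dslope_same, h1, mul_one]
  obtain ⟨r, h, hL, hI, hmax⟩ := kextA_max hl hl0
  have hlp : 0 < ‖lam‖ := norm_pos_iff.2 hl0
  have hG := lin_koebe_global hl.le hl0 hL
  have hN := kextA_ne_neg_one hl.le hl0 hL hI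
  have hKq : ∀ w ∈ ball (0 : ℂ) r, koebe (h w) = h (lam * w) / lam := fun w hw => by
    rw [← (hG w hw).2]
    field_simp
  have hmaps : MapsTo (fun w => lam * w) (ball (0 : ℂ) (r / ‖lam‖)) (ball 0 r) := fun w hw => by
    rw [mem_ball_zero_iff] at hw ⊢
    rw [norm_mul, mul_comm]
    exact (lt_div_iff₀ hlp).1 hw
  have hqd : DifferentiableOn ℂ (fun w => h (lam * w) / lam) (ball 0 (r / ‖lam‖)) :=
    (hL.diff.comp (differentiableOn_id.const_mul lam) hmaps).div_const lam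
  have hqi : InjOn (fun w => h (lam * w) / lam) (ball 0 (r / ‖lam‖)) := fun w hw w' hw' he =>
    mul_left_cancel₀ hl0 (hI (hmaps hw) (hmaps hw') ((div_left_inj' hl0).1 he))
  have hrr : r < r / ‖lam‖ := by
    rw [lt_div_iff₀ hlp]
    nlinarith [hL.pos]
  have hη : ∃ η : ℂ, ‖η‖ = r ∧ 1 + 4 * (h (lam * η) / lam) = 0 := by
    by_contra hcon
    push Not at hcon
    have hU : IsOpen (ball (0 : ℂ) (r / ‖lam‖) ∩
        (fun w => 1 + 4 * (h (lam * w) / lam)) ⁻¹' {0}ᶜ) :=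
      ((hqd.const_mul 4).const_add 1).continuousOn.isOpen_inter_preimage isOpen_ball
        isOpen_compl_singleton
    have hsub : closedBall (0 : ℂ) r ⊆ ball (0 : ℂ) (r / ‖lam‖) ∩
        (fun w => 1 + 4 * (h (lam * w) / lam)) ⁻¹' {0}ᶜ := by
      intro w hw
      refine ⟨closedBall_subset_ball hrr hw, ?_⟩
      rw [mem_closedBall_zero_iff] at hw
      rcases hw.lt_or_eq with hw | hw
      · have hw' := mem_ball_zero_iff.2 hw
        have := kextA_one_add (hG w hw').1 (hN w hw')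
        rwa [hKq w hw'] at this
      · exact hcon w hw
    obtain ⟨δ, hδ, hth⟩ := (isCompact_closedBall (0 : ℂ) r).exists_thickening_subset_open hU hsub
    rw [thickening_closedBall hδ hL.pos.le] at hth
    have hr' : 0 < δ + r := by linarith [hL.pos]
    have hs1 : ball (0 : ℂ) (δ + r) ⊆ ball 0 (r / ‖lam‖) := hth.trans inter_subset_left
    have hd0 := (hL.diff.differentiableAt (isOpen_ball.mem_nhds (mem_ball_self hL.pos))).hasDerivAt
    have hq1 : deriv (fun w => h (lam * w) / lam) 0 = 1 := by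
      have h1 : HasDerivAt h (deriv h 0) (lam * 0) := by rwa [mul_zero]
      have h2 := (h1.comp 0 ((hasDerivAt_id (0 : ℂ)).const_mul lam)).div_const lam
      have h3 := h2.deriv
      rw [hL.one] at h3
      simpa [Function.comp_def, hl0] using h3
    obtain ⟨g, gd, gi, g0, g1, gK⟩ := kextA_lift hr' (hqd.mono hs1) (hqi.mono hs1)
      (by simp [hL.zero]) hq1 (fun w hw => (hth hw).2)
    have hgc : ContinuousAt g 0 :=
      (gd.differentiableAt (isOpen_ball.mem_nhds (mem_ball_self hr'))).continuousAt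
    have hgh : g =ᶠ[𝓝 0] h := by
      have e1 : ∀ᶠ w in 𝓝 (0 : ℂ), g w ∈ ball (0 : ℂ) 1 :=
        hgc.eventually (isOpen_ball.mem_nhds (by simp [g0]))
      have e2 : ∀ᶠ w in 𝓝 (0 : ℂ), h w ∈ ball (0 : ℂ) 1 :=
        hd0.continuousAt.eventually (isOpen_ball.mem_nhds (by simp [hL.zero]))
      filter_upwards [e1, e2, isOpen_ball.mem_nhds (mem_ball_self (x := (0 : ℂ)) hr'),
        isOpen_ball.mem_nhds (mem_ball_self (x := (0 : ℂ)) hL.pos)] with w h1 h2 h3 h4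
      exact schlicht_koebe.inj h1 h2 ((gK w h3).2.2.trans (hKq w h4).symm)
    have ht : Tendsto (fun w : ℂ => lam * w) (𝓝 0) (𝓝 0) := by
      simpa using (continuous_const_mul lam).tendsto 0
    have hLg : Lin (fun z => lam * koebe z) lam g (δ + r) := by
      refine ⟨hr', gd, g0, g1, ?_⟩
      filter_upwards [hL.conj, hgh, ht.eventually hgh] with w h1 h2 h3
      rw [h2, h3, h1]
    linarith [hmax _ _ hLg gi]
  obtain ⟨η, hηr, hη⟩ := hη
  subst hηr
  refine ⟨η, h, norm_pos_iff.1 hL.pos, hL.diff, hI, hL.zero, hL.one, fun w hw => (hG w hw).1, hN,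
    fun w hw => ?_, ?_⟩
  · rw [kextA_dslope hl0 hL.zero, hKq w hw]
  · rw [kextA_dslope hl0 hL.zero]
    linear_combination (1 / 4 : ℂ) * hη

end Pool.Agent.Lib.MP_102662_an
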