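import Pool.Agent.Lib.MP_102662_an.Defs

open Complex Metric Set Filter Topology

namespace Pool.Agent.Lib.MP_102662_an

theorem hg_log {J : ℂ → ℂ} (hJ : DifferentiableOn ℂ J (ball 0 1))
    (h0 : ∀ z ∈ ball (0 : ℂ) 1, J z ≠ 0) :
    ∃ G : ℂ → ℂ, DifferentiableOn ℂ G (ball 0 1) ∧ ∀ z ∈ ball (0 : ℂ) 1, exp (G z) = J z := by
  have hd : DifferentiableOn ℂ (fun z => deriv J z / J z) (ball 0 1) :=
    (hJ.deriv isOpen_ball).div hJ h0
  obtain ⟨G, hG0, hG⟩ := hd.isExactOn_ball.with_val_at 0 (log (J 0))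
  have hGd : DifferentiableOn ℂ G (ball 0 1) :=
    fun x hx => (hG x hx).differentiableAt.differentiableWithinAt
  refine ⟨G, hGd, fun z hz => ?_⟩
  have hq : ∀ x ∈ ball (0 : ℂ) 1, HasDerivAt (fun y => J y * exp (-G y)) 0 x := by
    intro x hx
    have h1 := ((hJ.differentiableAt (isOpen_ball.mem_nhds hx)).hasDerivAt).mul
      (hG x hx).neg.cexp
    have e : deriv J x * exp (-G x) + J x * (exp (-G x) * -(deriv J x / J x)) = 0 := by
      have := h0 x hx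
      field_simp
      ring
    exact e ▸ h1
  have hc := isOpen_ball.is_const_of_deriv_eq_zero (convex_ball (0 : ℂ) 1).isPreconnected
    (fun x hx => (hq x hx).differentiableAt.differentiableWithinAt)
    (fun x hx => (hq x hx).deriv) hz (mem_ball_self one_pos)
  rw [hG0, exp_neg, exp_neg, exp_log (h0 0 (mem_ball_self one_pos)),
    mul_inv_cancel₀ (h0 0 (mem_ball_self one_pos)), mul_inv_eq_one₀ (exp_ne_zero _)] at hc
  exact hc.symm

/-- The Poisson kernel on the circle of radius `r`. -/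
noncomputable def hg_P (r : ℝ) (w : ℂ) (θ : ℝ) : ℝ :=
  (r ^ 2 - ‖w‖ ^ 2) / ‖circleMap 0 r θ - w‖ ^ 2

theorem hg_dist {r : ℝ} {w : ℂ} (hr : 0 < r) (θ : ℝ) : r - ‖w‖ ≤ ‖circleMap 0 r θ - w‖ := by
  have h := norm_sub_norm_le (circleMap 0 r θ) w
  rwa [norm_circleMap_zero, abs_of_pos hr] at h

theorem hg_P_cont {r : ℝ} {w : ℂ} (hw : ‖w‖ < r) : Continuous (hg_P r w) := by
  have hr : 0 < r := (norm_nonneg w).trans_lt hw
  unfold hg_P
  refine continuous_const.div (((continuous_circleMap 0 r).sub continuous_const).norm.pow 2) ?_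
  intro θ
  have := hg_dist (w := w) hr θ
  exact pow_ne_zero _ (by linarith)

theorem hg_P_nonneg {r : ℝ} {w : ℂ} (hw : ‖w‖ < r) (θ : ℝ) : 0 ≤ hg_P r w θ := by
  unfold hg_P
  have := norm_nonneg w
  exact div_nonneg (by nlinarith) (by positivity)

theorem hg_cont {G : ℂ → ℂ} (hG : DifferentiableOn ℂ G (ball 0 1)) {r : ℝ} (hr : 0 < r)
    (hr1 : r < 1) : Continuous (fun θ => (G (circleMap 0 r θ)).re) := by
  refine continuous_re.comp (hG.continuousOn.comp_continuous (continuous_circleMap 0 r) ?_)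
  intro θ
  rw [mem_ball_zero_iff, norm_circleMap_zero, abs_of_pos hr]
  exact hr1

theorem hg_poisson {G : ℂ → ℂ} (hG : DifferentiableOn ℂ G (ball 0 1)) {r : ℝ} (hr1 : r < 1)
    {w : ℂ} (hw : ‖w‖ < r) :
    (G w).re = (2 * Real.pi)⁻¹ *
      ∫ θ in (0 : ℝ)..2 * Real.pi, hg_P r w θ * (G (circleMap 0 r θ)).re := by
  have hr : 0 < r := (norm_nonneg w).trans_lt hw
  have hD : DiffContOnCl ℂ G (ball 0 r) := by
    refine DifferentiableOn.diffContOnCl (hG.mono ?_)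
    rw [closure_ball 0 hr.ne']
    exact closedBall_subset_ball hr1
  have h := hD.circleAverage_poissonKernel_smul' (mem_ball_zero_iff.2 hw)
  have hc : Continuous (fun θ => G (circleMap 0 r θ)) := by
    refine hG.continuousOn.comp_continuous (continuous_circleMap 0 r) ?_
    intro θ
    rw [mem_ball_zero_iff, norm_circleMap_zero, abs_of_pos hr]
    exact hr1
  have e : (fun θ => ((‖circleMap 0 r θ - 0‖ ^ 2 - ‖w - 0‖ ^ 2) /
      ‖(circleMap 0 r θ - 0) - (w - 0)‖ ^ 2) • G (circleMap 0 r θ)) =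
      fun θ => hg_P r w θ • G (circleMap 0 r θ) := by
    funext θ
    simp only [sub_zero, hg_P, norm_circleMap_zero, sq_abs]
  rw [← h, Real.circleAverage_def, e, smul_re, smul_eq_mul]
  congr 1
  have hi : IntervalIntegrable (fun θ => hg_P r w θ • G (circleMap 0 r θ))
      MeasureTheory.volume 0 (2 * Real.pi) := ((hg_P_cont hw).smul hc).intervalIntegrable _ _
  have h2 := reCLM.intervalIntegral_comp_comm hi
  simp only [reCLM_apply, smul_re, smul_eq_mul] at h2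
  exact h2.symm

theorem hg_herglotz {G : ℂ → ℂ} (hG : DifferentiableOn ℂ G (ball 0 1)) {r : ℝ} (hr1 : r < 1)
    {w₁ w₂ : ℂ} (hw₁ : ‖w₁‖ < r) (hw₂ : ‖w₂‖ < r) (A : ℝ)
    (hA : ∀ θ, ‖(circleMap 0 r θ + w₂) / (circleMap 0 r θ - w₂) -
      (circleMap 0 r θ + w₁) / (circleMap 0 r θ - w₁)‖ ≤ A * hg_P r w₁ θ) :
    ‖G w₂ - G w₁‖ ≤ A * ((2 * Real.pi)⁻¹ *
      ∫ θ in (0 : ℝ)..2 * Real.pi, hg_P r w₁ θ * |(G (circleMap 0 r θ)).re|) := by
  have hr : 0 < r := (norm_nonneg w₁).trans_lt hw₁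
  have hu := hg_cont hG hr hr1
  have hci : CircleIntegrable (fun z => (G z).re) 0 r := hu.intervalIntegrable _ _
  have hci' : CircleIntegrable (fun z => (((G z).re : ℝ) : ℂ)) 0 r :=
    (continuous_ofReal.comp hu).intervalIntegrable _ _
  have hΦ := analyticOnNhd_circleAverage_herglotzRieszKernel_smul hci'
  have hGa : AnalyticOnNhd ℂ G (ball 0 r) :=
    (hG.mono (ball_subset_ball hr1.le)).analyticOnNhd isOpen_ball
  obtain ⟨c, hc⟩ := AnalyticOnNhd.eq_const_of_re_eq_const (c₀ := 0) (hΦ.sub hGa) (by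
    intro w hw
    rw [Pi.sub_apply, sub_re, re_circleAverage_herglotzRieszKernel_smul hci hw,
      hg_poisson hG hr1 (mem_ball_zero_iff.1 hw), ← poissonKernel_eq_re_herglotzRieszKernel,
      Real.circleAverage_def, smul_eq_mul, sub_eq_zero]
    congr 2
    funext θ
    simp only [Pi.smul_apply', smul_eq_mul, poissonKernel_def, sub_zero, hg_P,
      norm_circleMap_zero, sq_abs]) isOpen_ball (isConnected_ball hr)
  have h1 := hc w₁ (mem_ball_zero_iff.2 hw₁)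
  have h2 := hc w₂ (mem_ball_zero_iff.2 hw₂)
  have hk : ∀ w : ℂ, ‖w‖ < r → IntervalIntegrable (fun θ => herglotzRieszKernel 0 w
      (circleMap 0 r θ) • (((G (circleMap 0 r θ)).re : ℝ) : ℂ)) MeasureTheory.volume 0
      (2 * Real.pi) := fun w hw =>
    hci'.continuousOn_smul (continuousOn_herglotzRieszKernel_sphere (mem_ball_zero_iff.2 hw))
  rw [Pi.sub_apply, Real.circleAverage_def] at h1 h2
  have e : G w₂ - G w₁ = (2 * Real.pi)⁻¹ • ∫ θ in (0 : ℝ)..2 * Real.pi,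
      (herglotzRieszKernel 0 w₂ (circleMap 0 r θ) • (((G (circleMap 0 r θ)).re : ℝ) : ℂ) -
        herglotzRieszKernel 0 w₁ (circleMap 0 r θ) • (((G (circleMap 0 r θ)).re : ℝ) : ℂ)) := by
    rw [intervalIntegral.integral_sub (hk w₂ hw₂) (hk w₁ hw₁), smul_sub]
    linear_combination h1 - h2
  have hpi : 0 < (2 * Real.pi)⁻¹ := by positivity
  rw [e, norm_smul, Real.norm_eq_abs, abs_of_pos hpi, mul_left_comm,
    ← intervalIntegral.integral_const_mul]
  refine mul_le_mul_of_nonneg_left ?_ hpi.le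
  refine intervalIntegral.norm_integral_le_of_norm_le (by positivity)
    (Filter.Eventually.of_forall fun θ _ => ?_)
    ((continuous_const.mul ((hg_P_cont hw₁).mul hu.abs)).intervalIntegrable _ _)
  rw [← sub_smul, norm_smul, norm_real, Real.norm_eq_abs, ← mul_assoc]
  refine mul_le_mul_of_nonneg_right ?_ (abs_nonneg _)
  simpa only [herglotzRieszKernel_def, sub_zero] using hA θ

theorem hg_normsq (r ρ θ φ : ℝ) :
    ‖circleMap 0 r θ - circleMap 0 ρ φ‖ ^ 2 = r ^ 2 + ρ ^ 2 - 2 * r * ρ * Real.cos (θ - φ) := by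
  rw [← normSq_eq_norm_sq, normSq_apply, Real.cos_sub]
  simp only [circleMap, zero_add, sub_re, sub_im, mul_re, mul_im, ofReal_re, ofReal_im,
    exp_ofReal_mul_I_re, exp_ofReal_mul_I_im, zero_mul, sub_zero, add_zero]
  have h1 := Real.sin_sq_add_cos_sq θ
  have h2 := Real.sin_sq_add_cos_sq φ
  linear_combination r ^ 2 * h1 + ρ ^ 2 * h2

theorem hg_P_le {r d : ℝ} (hr : 3 / 4 ≤ r) (hr1 : r < 1) (hd : 0 < d) (hd1 : d ≤ 1 / 4)
    (φ θ : ℝ) : hg_P r (circleMap 0 (r - d) φ) θ ≤ 2 / d := by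
  have hn : ‖circleMap 0 (r - d) φ‖ = r - d := by
    rw [norm_circleMap_zero, abs_of_pos (by linarith)]
  have h := hg_dist (w := circleMap 0 (r - d) φ) (r := r) (by linarith) θ
  unfold hg_P
  rw [hn] at h ⊢
  have h1 : d ≤ ‖circleMap 0 r θ - circleMap 0 (r - d) φ‖ := by linarith
  have h2 : d ^ 2 ≤ ‖circleMap 0 r θ - circleMap 0 (r - d) φ‖ ^ 2 := by gcongr
  rw [div_le_div_iff₀ (lt_of_lt_of_le (by positivity) h2) hd]
  nlinarith

theorem hg_P_far {r d a : ℝ} (hr : 3 / 4 ≤ r) (hr1 : r < 1) (hd : 0 < d) (hd1 : d ≤ 1 / 4)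
    (ha : 0 < a) {φ θ : ℝ} (h1 : a ≤ |θ - φ|) (h2 : |θ - φ| ≤ Real.pi) :
    hg_P r (circleMap 0 (r - d) φ) θ ≤ 28 * d * (a ^ 2 + (θ - φ) ^ 2)⁻¹ := by
  have hn : ‖circleMap 0 (r - d) φ‖ = r - d := by
    rw [norm_circleMap_zero, abs_of_pos (by linarith)]
  unfold hg_P
  rw [hn, hg_normsq]
  have hc := Real.cos_le_one_sub_mul_cos_sq h2
  have ht : a ^ 2 ≤ (θ - φ) ^ 2 := by
    rw [← sq_abs (θ - φ)]
    gcongr
  have ha2 : 0 < a ^ 2 := by positivity
  have hpi : 1 / 5 ≤ 2 / Real.pi ^ 2 := by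
    have := Real.pi_lt_d2
    have := Real.pi_pos
    rw [div_le_div_iff₀ (by norm_num) (by positivity)]
    nlinarith
  have h3 : Real.cos (θ - φ) ≤ 1 - 1 / 5 * (θ - φ) ^ 2 := by nlinarith
  have h4 : 3 / 8 ≤ r * (r - d) := by nlinarith
  have h5 : (θ - φ) ^ 2 / 7 ≤ r ^ 2 + (r - d) ^ 2 - 2 * r * (r - d) * Real.cos (θ - φ) := by
    nlinarith [sq_nonneg d]
  rw [← div_eq_mul_inv, div_le_div_iff₀ (by linarith) (by linarith)]
  have h6 : r ^ 2 - (r - d) ^ 2 ≤ 2 * d := by nlinarith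
  have h7 := mul_le_mul h6 (show a ^ 2 + (θ - φ) ^ 2 ≤ 2 * (θ - φ) ^ 2 by linarith)
    (by linarith) (by linarith)
  nlinarith

theorem hg_pos {r φ₀ X μ B d φ : ℝ} {M : Set ℝ} (v : ℂ → ℝ)
    (hv : Continuous (fun θ => v (circleMap 0 r θ)))
    (hr : 3 / 4 ≤ r) (hr1 : r < 1) (hX : 0 < X) (hμ : 0 ≤ μ)
    (hM : MeasureTheory.volume M ≤ ENNReal.ofReal μ) (hB : 0 ≤ B)
    (h1 : ∀ θ, v (circleMap 0 r θ) ≤ B)
    (h2 : ∀ θ, |θ - φ₀| ≤ X → θ ∉ M → v (circleMap 0 r θ) ≤ 0)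
    (hd : 0 < d) (hd1 : d ≤ 1 / 4) (hφ : |φ - φ₀| ≤ X / 2) :
    (2 * Real.pi)⁻¹ * ∫ θ in (0 : ℝ)..2 * Real.pi,
      hg_P r (circleMap 0 (r - d) φ) θ * v (circleMap 0 r θ) ≤ 28 * B * (μ / d + d / X) := by
  have hw : ‖circleMap 0 (r - d) φ‖ < r := by
    rw [norm_circleMap_zero, abs_of_pos (by linarith)]
    linarith
  have hpi := Real.pi_pos
  have hper : Function.Periodic
      (fun θ => hg_P r (circleMap 0 (r - d) φ) θ * v (circleMap 0 r θ)) (2 * Real.pi) := by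
    intro θ
    simp only [hg_P, periodic_circleMap 0 r θ]
  have e := hper.intervalIntegral_add_eq 0 (φ - Real.pi)
  rw [zero_add, show φ - Real.pi + 2 * Real.pi = φ + Real.pi by ring] at e
  rw [e]
  set M' := MeasureTheory.toMeasurable MeasureTheory.volume M with hM'
  have hMm : MeasurableSet M' := MeasureTheory.measurableSet_toMeasurable _ _
  have hle : φ - Real.pi ≤ φ + Real.pi := by linarith
  have i1 : IntervalIntegrable (M'.indicator (fun _ => (1 : ℝ))) MeasureTheory.volume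
      (φ - Real.pi) (φ + Real.pi) :=
    ⟨(intervalIntegrable_const (c := (1 : ℝ))).1.indicator hMm,
      (intervalIntegrable_const (c := (1 : ℝ))).2.indicator hMm⟩
  have i2 : IntervalIntegrable (fun θ => ((X / 2) ^ 2 + (θ - φ) ^ 2)⁻¹) MeasureTheory.volume
      (φ - Real.pi) (φ + Real.pi) := by
    refine Continuous.intervalIntegrable (Continuous.inv₀ (by fun_prop) fun θ => ?_) _ _
    positivity
  have hb : ∫ θ in (φ - Real.pi)..(φ + Real.pi),
      hg_P r (circleMap 0 (r - d) φ) θ * v (circleMap 0 r θ) ≤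
      ∫ θ in (φ - Real.pi)..(φ + Real.pi), (B * (2 / d) * M'.indicator (fun _ => (1 : ℝ)) θ +
        B * (28 * d) * ((X / 2) ^ 2 + (θ - φ) ^ 2)⁻¹) := by
    refine intervalIntegral.integral_mono_on hle
      (((hg_P_cont hw).mul hv).intervalIntegrable _ _)
      ((i1.const_mul _).add (i2.const_mul _)) fun θ hθ => ?_
    have p0 := hg_P_nonneg hw θ
    have q1 : 0 ≤ B * (2 / d) * M'.indicator (fun _ => (1 : ℝ)) θ :=
      mul_nonneg (by positivity) (indicator_nonneg (fun _ _ => zero_le_one) θ)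
    have q2 : 0 ≤ B * (28 * d) * ((X / 2) ^ 2 + (θ - φ) ^ 2)⁻¹ := by positivity
    have q3 := mul_le_mul_of_nonneg_left (h1 θ) p0
    by_cases c1 : θ ∈ M'
    · rw [indicator_of_mem c1]
      have := mul_le_mul_of_nonneg_right (hg_P_le hr hr1 hd hd1 φ θ) hB
      linarith
    by_cases c2 : |θ - φ| ≤ X / 2
    · have c3 : |θ - φ₀| ≤ X := by
        have := abs_sub_le θ φ φ₀
        linarith
      have := mul_nonpos_of_nonneg_of_nonpos p0
        (h2 θ c3 fun h => c1 (MeasureTheory.subset_toMeasurable _ _ h))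
      linarith
    · have := mul_le_mul_of_nonneg_right (hg_P_far hr hr1 hd hd1 (half_pos hX) (not_le.1 c2).le
        (abs_le.2 ⟨by linarith [hθ.1], by linarith [hθ.2]⟩)) hB
      linarith
  have j1 : ∫ θ in (φ - Real.pi)..(φ + Real.pi), M'.indicator (fun _ => (1 : ℝ)) θ ≤ μ := by
    rw [intervalIntegral.integral_of_le hle, MeasureTheory.integral_indicator_const _ hMm,
      smul_eq_mul, mul_one, MeasureTheory.Measure.real]
    refine ENNReal.toReal_le_of_le_ofReal hμ ?_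
    refine (MeasureTheory.Measure.restrict_apply_le _ _).trans ?_
    rw [hM', MeasureTheory.measure_toMeasurable]
    exact hM
  have j2 : ∫ θ in (φ - Real.pi)..(φ + Real.pi), ((X / 2) ^ 2 + (θ - φ) ^ 2)⁻¹ ≤
      2 * Real.pi / X := by
    rw [intervalIntegral.integral_comp_sub_right (fun t => ((X / 2) ^ 2 + t ^ 2)⁻¹),
      integral_inv_sq_add_sq (half_pos hX).ne']
    have a1 := Real.arctan_lt_pi_div_two ((φ + Real.pi - φ) / (X / 2))
    have a2 := Real.neg_pi_div_two_lt_arctan ((φ - Real.pi - φ) / (X / 2))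
    have a3 : (X / 2)⁻¹ * Real.pi = 2 * Real.pi / X := by field_simp
    rw [← a3]
    exact mul_le_mul_of_nonneg_left (by linarith) (by positivity)
  rw [intervalIntegral.integral_add (i1.const_mul _) (i2.const_mul _),
    intervalIntegral.integral_const_mul, intervalIntegral.integral_const_mul] at hb
  have k1 := mul_le_mul_of_nonneg_left j1 (show 0 ≤ B * (2 / d) by positivity)
  have k2 := mul_le_mul_of_nonneg_left j2 (show 0 ≤ B * (28 * d) by positivity)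
  rw [inv_mul_le_iff₀ (by positivity)]
  have k3 : B * (28 * d) * (2 * Real.pi / X) = 2 * Real.pi * (28 * B * (d / X)) := by ring
  have k4 : B * (2 / d) * μ ≤ 2 * Real.pi * (28 * B * (μ / d)) := by
    have e1 : B * (2 / d) * μ = 2 * (B * (μ / d)) := by ring
    have e2 : 0 ≤ B * (μ / d) := by positivity
    have := Real.pi_gt_three
    rw [e1]
    nlinarith
  nlinarith

theorem hg_kernel {r d₁ d₂ φ₁ φ₂ : ℝ} (hr : 3 / 4 ≤ r) (hr1 : r < 1) (h2 : 0 < d₂)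
    (h21 : d₂ ≤ d₁) (h1 : d₁ ≤ 1 / 4) (hφ : |φ₁ - φ₂| ≤ d₁) (θ : ℝ) :
    ‖(circleMap 0 r θ + circleMap 0 (r - d₂) φ₂) / (circleMap 0 r θ - circleMap 0 (r - d₂) φ₂) -
      (circleMap 0 r θ + circleMap 0 (r - d₁) φ₁) / (circleMap 0 r θ - circleMap 0 (r - d₁) φ₁)‖ ≤
      12 * (d₁ / d₂) * hg_P r (circleMap 0 (r - d₁) φ₁) θ := by
  have hn1 : ‖circleMap 0 (r - d₁) φ₁‖ = r - d₁ := by
    rw [norm_circleMap_zero, abs_of_pos (by linarith)]
  have hn2 : ‖circleMap 0 (r - d₂) φ₂‖ = r - d₂ := by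
    rw [norm_circleMap_zero, abs_of_pos (by linarith)]
  have hz : ‖circleMap 0 r θ‖ = r := by rw [norm_circleMap_zero, abs_of_pos (by linarith)]
  have e1 := hg_dist (w := circleMap 0 (r - d₁) φ₁) (r := r) (by linarith) θ
  have e2 := hg_dist (w := circleMap 0 (r - d₂) φ₂) (r := r) (by linarith) θ
  have hw : ‖circleMap 0 (r - d₂) φ₂ - circleMap 0 (r - d₁) φ₁‖ ≤ 2 * d₁ := by
    refine abs_le_of_sq_le_sq' ?_ (by linarith) |>.2
    rw [hg_normsq]
    have c1 := Real.one_sub_sq_div_two_le_cos (x := φ₂ - φ₁)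
    have c2 : (φ₂ - φ₁) ^ 2 ≤ d₁ ^ 2 := by
      rw [← sq_abs (φ₂ - φ₁), abs_sub_comm]
      gcongr
    have c3 : 0 ≤ (r - d₂) * (r - d₁) := mul_nonneg (by linarith) (by linarith)
    have c4 : (r - d₂) * (r - d₁) ≤ 1 := mul_le_one₀ (by linarith) (by linarith) (by linarith)
    have c5 : 1 - Real.cos (φ₂ - φ₁) ≤ d₁ ^ 2 / 2 := by linarith
    have c6 := mul_le_mul c4 c5 (by linarith [Real.cos_le_one (φ₂ - φ₁)]) zero_le_one
    nlinarith
  unfold hg_P
  rw [hn1] at e1 ⊢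
  rw [hn2] at e2
  set z := circleMap 0 r θ
  set w₁ := circleMap 0 (r - d₁) φ₁
  set w₂ := circleMap 0 (r - d₂) φ₂
  have p1 : 0 < ‖z - w₁‖ := by linarith
  have p2 : 0 < ‖z - w₂‖ := by linarith
  have e : (z + w₂) / (z - w₂) - (z + w₁) / (z - w₁) =
      2 * z * (w₂ - w₁) / ((z - w₁) * (z - w₂)) := by
    have := norm_pos_iff.1 p1
    have := norm_pos_iff.1 p2
    field_simp
    ring
  have t : ‖z - w₁‖ ≤ ‖z - w₂‖ + 2 * d₁ := by
    have := norm_add_le (z - w₂) (w₂ - w₁)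
    rw [sub_add_sub_cancel] at this
    linarith
  have t2 : ‖z - w₁‖ * d₂ ≤ 3 * d₁ * ‖z - w₂‖ := by nlinarith
  rw [e, norm_div, norm_mul, norm_mul, norm_mul, hz, Complex.norm_ofNat, ← mul_div_assoc,
    ← mul_div_assoc, div_mul_eq_mul_div, div_div, div_le_div_iff₀ (by positivity) (by positivity)]
  have s1 : r * d₁ ≤ r ^ 2 - (r - d₁) ^ 2 := by nlinarith
  have hd1 : 0 < d₁ := by linarith
  calc 2 * r * ‖w₂ - w₁‖ * (d₂ * ‖z - w₁‖ ^ 2)
      = 2 * r * ‖z - w₁‖ * (‖w₂ - w₁‖ * (‖z - w₁‖ * d₂)) := by ring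
    _ ≤ 2 * r * ‖z - w₁‖ * (2 * d₁ * (3 * d₁ * ‖z - w₂‖)) := by gcongr
    _ = 12 * d₁ * (r * d₁) * (‖z - w₁‖ * ‖z - w₂‖) := by ring
    _ ≤ _ := by gcongr

/-- Herglotz transfer for a zero-free function that is at most one on most of an arc. -/
theorem herg : ∃ C : ℝ, 1 ≤ C ∧ ∀ (J : ℂ → ℂ) (r φ₀ X μ B : ℝ) (M : Set ℝ),
    DifferentiableOn ℂ J (ball 0 1) → (∀ lam ∈ ball (0 : ℂ) 1, J lam ≠ 0) →
    3 / 4 ≤ r → r < 1 → 0 < X → X ≤ 1 → 0 ≤ μ →
    MeasureTheory.volume M ≤ ENNReal.ofReal μ → 0 ≤ B →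
    (∀ φ : ℝ, ‖J (circleMap 0 r φ)‖ ≤ Real.exp B) →
    (∀ φ : ℝ, |φ - φ₀| ≤ X → φ ∉ M → ‖J (circleMap 0 r φ)‖ ≤ 1) →
    (∀ d φ : ℝ, 0 < d → d ≤ 1 / 4 → |φ - φ₀| ≤ X / 2 →
      ‖J (circleMap 0 (r - d) φ)‖ ≤ Real.exp (C * B * (μ / d + d / X))) ∧
    (∀ d₁ d₂ φ₁ φ₂ : ℝ, 0 < d₂ → d₂ ≤ d₁ → d₁ ≤ 1 / 4 → |φ₁ - φ₀| ≤ X / 2 → |φ₁ - φ₂| ≤ d₁ →
      ∃ D : ℂ, J (circleMap 0 (r - d₂) φ₂) = J (circleMap 0 (r - d₁) φ₁) * exp D ∧
        ‖D‖ ≤ C * (d₁ / d₂) *
          (|Real.log ‖J (circleMap 0 (r - d₁) φ₁)‖| + B * (μ / d₁ + d₁ / X))) := by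
  refine ⟨672, by norm_num, ?_⟩
  intro J r φ₀ X μ B M hJ h0 hr hr1 hX _ hμ hM hB h1 h2
  obtain ⟨G, hG, hGJ⟩ := hg_log hJ h0
  have hmem : ∀ ρ φ : ℝ, 0 < ρ → ρ < 1 → circleMap 0 ρ φ ∈ ball (0 : ℂ) 1 := by
    intro ρ φ h h'
    rwa [mem_ball_zero_iff, norm_circleMap_zero, abs_of_pos h]
  have hnorm : ∀ z ∈ ball (0 : ℂ) 1, ‖J z‖ = Real.exp (G z).re := by
    intro z hz
    rw [← hGJ z hz, norm_exp]
  have hu := hg_cont hG (show 0 < r by linarith) hr1
  have hu1 : ∀ θ, (G (circleMap 0 r θ)).re ≤ B := by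
    intro θ
    have := h1 θ
    rwa [hnorm _ (hmem r θ (by linarith) hr1), Real.exp_le_exp] at this
  have hu2 : ∀ θ, |θ - φ₀| ≤ X → θ ∉ M → (G (circleMap 0 r θ)).re ≤ 0 := by
    intro θ a b
    have := h2 θ a b
    rwa [hnorm _ (hmem r θ (by linarith) hr1), Real.exp_le_one_iff] at this
  have hw : ∀ d φ : ℝ, 0 < d → d ≤ 1 / 4 → ‖circleMap 0 (r - d) φ‖ < r := by
    intro d φ hd hd1
    rw [norm_circleMap_zero, abs_of_pos (by linarith)]
    linarith
  constructor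
  · intro d φ hd hd1 hφ
    rw [hnorm _ (hmem _ φ (by linarith) (by linarith)), Real.exp_le_exp,
      hg_poisson hG hr1 (hw d φ hd hd1)]
    refine (hg_pos (fun z => (G z).re) hu hr hr1 hX hμ hM hB hu1 hu2 hd hd1 hφ).trans ?_
    have : 0 ≤ B * (μ / d + d / X) := by positivity
    nlinarith
  · intro d₁ d₂ φ₁ φ₂ hd₂ hd₂₁ hd₁ hφ₁ hφ
    have hd₁0 : 0 < d₁ := by linarith
    have m1 := hmem (r - d₁) φ₁ (by linarith) (by linarith)
    have m2 := hmem (r - d₂) φ₂ (by linarith) (by linarith)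
    refine ⟨G (circleMap 0 (r - d₂) φ₂) - G (circleMap 0 (r - d₁) φ₁), ?_, ?_⟩
    · rw [← hGJ _ m1, ← hGJ _ m2, ← exp_add, add_sub_cancel]
    have hw₁ := hw d₁ φ₁ hd₁0 hd₁
    refine (hg_herglotz hG hr1 hw₁ (hw d₂ φ₂ hd₂ (by linarith)) _
      (hg_kernel hr hr1 hd₂ hd₂₁ hd₁ hφ)).trans ?_
    rw [hnorm _ m1, Real.log_exp]
    have hv : Continuous (fun θ => max (G (circleMap 0 r θ)).re 0) := hu.max continuous_const
    have k := hg_pos (fun z => max (G z).re 0) hv hr hr1 hX hμ hM hB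
      (fun θ => max_le (hu1 θ) hB) (fun θ a b => max_le (hu2 θ a b) le_rfl) hd₁0 hd₁ hφ₁
    have e : ∫ θ in (0 : ℝ)..2 * Real.pi,
        hg_P r (circleMap 0 (r - d₁) φ₁) θ * |(G (circleMap 0 r θ)).re| =
        2 * (∫ θ in (0 : ℝ)..2 * Real.pi,
          hg_P r (circleMap 0 (r - d₁) φ₁) θ * max (G (circleMap 0 r θ)).re 0) -
        ∫ θ in (0 : ℝ)..2 * Real.pi,
          hg_P r (circleMap 0 (r - d₁) φ₁) θ * (G (circleMap 0 r θ)).re := by
      have i1 : IntervalIntegrable (fun θ => 2 * (hg_P r (circleMap 0 (r - d₁) φ₁) θ *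
          max (G (circleMap 0 r θ)).re 0)) MeasureTheory.volume 0 (2 * Real.pi) :=
        (continuous_const.mul ((hg_P_cont hw₁).mul hv)).intervalIntegrable _ _
      have i2 : IntervalIntegrable (fun θ => hg_P r (circleMap 0 (r - d₁) φ₁) θ *
          (G (circleMap 0 r θ)).re) MeasureTheory.volume 0 (2 * Real.pi) :=
        ((hg_P_cont hw₁).mul hu).intervalIntegrable _ _
      rw [← intervalIntegral.integral_const_mul, ← intervalIntegral.integral_sub i1 i2]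
      congr 1
      funext θ
      rcases le_total 0 (G (circleMap 0 r θ)).re with h | h
      · rw [abs_of_nonneg h, max_eq_left h]
        ring
      · rw [abs_of_nonpos h, max_eq_right h]
        ring
    rw [e, mul_sub, ← hg_poisson hG hr1 hw₁, mul_left_comm (2 * Real.pi)⁻¹]
    have q1 := neg_le_abs (G (circleMap 0 (r - d₁) φ₁)).re
    have q2 := abs_nonneg (G (circleMap 0 (r - d₁) φ₁)).re
    have q3 : 0 ≤ B * (μ / d₁ + d₁ / X) := by positivity
    have q4 : 0 ≤ d₁ / d₂ := by positivity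
    rw [show (672 : ℝ) * (d₁ / d₂) = 12 * (d₁ / d₂) * 56 by ring, mul_assoc _ (56 : ℝ)]
    refine mul_le_mul_of_nonneg_left ?_ (by positivity)
    nlinarith

end Pool.Agent.Lib.MP_102662_an
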