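import Pool.Agent.Lib.MP_102662_an.MarginX2

open Complex Metric Set Filter Topology

namespace Pool.Agent.Lib.MP_102662_an

theorem mg_norm_exp (n σ c g : ℝ) :
    ‖exp (2 * Real.pi * I * (-(σ : ℂ) + c * I) / n - g)‖ =
      Real.exp (-(2 * Real.pi * c / n) - g) := by
  have e : 2 * Real.pi * I * (-(σ : ℂ) + c * I) / n - g =
      ((-(2 * Real.pi * c / n) - g : ℝ) : ℂ) + ((-(2 * Real.pi * σ / n) : ℝ) : ℂ) * I := by
    push_cast
    linear_combination (2 * (Real.pi : ℂ) * c / n) * I_mul_I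
  rw [e, Complex.exp_add, norm_mul, norm_exp_ofReal, norm_exp_ofReal_mul_I, mul_one]

theorem mg_circ (a φ : ℝ) : circleMap 0 (Real.exp (-a)) φ = exp (-(a : ℂ) + φ * I) := by
  rw [circleMap, zero_add, Complex.exp_add, ofReal_exp, ofReal_neg]

theorem mg_circ_ee (a n : ℝ) :
    circleMap 0 (Real.exp (-a)) (2 * Real.pi / n) = (Real.exp (-a) : ℂ) * ee (1 / n) := by
  rw [circleMap, zero_add, ee]
  congr 2
  push_cast
  ring

theorem mg_circ_near {a n θ : ℝ} (ha : 0 ≤ a) :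
    ‖circleMap 0 (Real.exp (-a)) (2 * Real.pi * θ) - ee (1 / n)‖ ≤
      a + 2 * Real.pi * |θ - 1 / n| := by
  have e : circleMap 0 (Real.exp (-a)) (2 * Real.pi * θ) = (Real.exp (-a) : ℂ) * ee θ := by
    rw [circleMap, zero_add, ee]
    congr 2
    push_cast
    ring
  have e2 : (Real.exp (-a) : ℂ) * ee θ - ee (1 / n) =
      ((Real.exp (-a) - 1 : ℝ) : ℂ) * ee θ + (ee θ - ee (1 / n)) := by
    push_cast; ring
  rw [e, e2]
  refine (norm_add_le _ _).trans (add_le_add ?_ (norm_ee_sub_le _ _))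
  rw [norm_mul, norm_ee, mul_one, norm_real, Real.norm_eq_abs, abs_le]
  have h1 := Real.add_one_le_exp (-a)
  have h2 : Real.exp (-a) ≤ 1 := Real.exp_le_one_iff.2 (by linarith)
  constructor <;> linarith

/-- Transfer of one point from the strongly attracting multiplier to the weakly attracting one. -/
theorem mg_transfer {C₁ C₃ q s τ n T c X μ δ s₀ : ℝ} (H : MgNum C₁ C₃ q s τ n T c X μ δ)
    (hs₀ : 3 * s ≤ s₀) {η : ℂ → ℂ} {h : ℂ → ℂ → ℂ} {l₁ l₂ : ℂ} {φ₂ : ℝ}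
    (hK : ∀ lam ∈ ball (0 : ℂ) 1, KExt lam (η lam) (h lam))
    (hl₁ : ‖l₁‖ = Real.exp (-(T / n ^ 2)))
    (hl₂ : l₂ = circleMap 0 (Real.exp (-(τ / n ^ 2))) φ₂)
    (hJ : ∀ t : ℂ → ℂ, DifferentiableOn ℂ t (ball 0 1) →
      (∀ z ∈ ball (0 : ℂ) 1, t z ≠ 0 ∧ ‖t z‖ ≤ Real.exp (-(2 * Real.pi * c / n))) →
      ∃ D : ℂ, h l₂ (t l₂ * η l₂) = h l₁ (t l₁ * η l₁) * exp D ∧
        ∀ L : ℝ, |Real.log ‖h l₁ (t l₁ * η l₁)‖| ≤ L →
          L ≤ 6 * C₁ ^ 2 * (c + τ ^ 2 / T + (1 / T ^ 2 + T / n)) / q →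
          ‖D‖ ≤ q / (2000 * C₁ ^ 2))
    {Y : ℂ → ℂ} (hY : ∀ x, Y x = l₁ / h l₁ (l₁ * (exp (2 * Real.pi * I * x / n) * η l₁)) + 4)
    (hL : ∀ x : ℂ, ‖x‖ ≤ s₀ → 0 ≤ x.im →
      ‖Y x‖ ≤ C₁ * ‖x‖ ∧ |(Y x).im| ≤ C₁ * (x.im + (1 / T ^ 2 + T / n)) ∧
      (x.re ≤ 0 → -x.re / C₁ - C₁ * (x.im + (1 / T ^ 2 + T / n)) ≤ (Y x).re))
    {σ g : ℝ} (hσ1 : s ≤ σ) (hσ2 : σ ≤ 2 * s) (hg0 : 0 ≤ g) (hg1 : g ≤ τ / n) :
    ∃ x u D : ℂ, ‖x - (-(σ : ℂ) + c * I)‖ ≤ τ ^ 2 / T ∧ ‖x‖ ≤ s₀ ∧ 0 ≤ x.im ∧ u ≠ 0 ∧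
      Y x = u + 2 + 1 / u ∧ ‖Y x‖ ≤ q ^ 2 ∧ ‖D‖ ≤ q / (2000 * C₁ ^ 2) ∧
      1 / h l₂ (exp (2 * Real.pi * I * (-(σ : ℂ) + c * I) / n - g) * η l₂) = u * exp (-D) := by
  have hn := H.n0
  have hT := H.T0
  have hτ := H.τ0
  have hc := H.c0
  have hs := H.s0
  have hC₁ := H.hC₁
  have hpi := Real.pi_gt_three
  have hρ1 : Real.exp (-(τ / n ^ 2)) < 1 := Real.exp_lt_one_iff.2 (by
    have : 0 < τ / n ^ 2 := by positivity
    linarith)
  have hl₁1 : ‖l₁‖ < 1 := by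
    rw [hl₁]
    exact Real.exp_lt_one_iff.2 (by
      have : 0 < T / n ^ 2 := by positivity
      linarith)
  have hl₁0 : l₁ ≠ 0 := norm_pos_iff.1 (by rw [hl₁]; exact Real.exp_pos _)
  have hl₁b : l₁ ∈ ball (0 : ℂ) 1 := mem_ball_zero_iff.2 hl₁1
  obtain ⟨κ, hκd, hκre, hκ2, hκn⟩ := mg_kappa (ζ := exp (φ₂ * I)) (norm_exp_ofReal_mul_I φ₂)
    (Real.exp_pos (-(τ / n ^ 2))).le hρ1 hg0
  have hκ2' : κ l₂ = g := by rw [hl₂, circleMap, zero_add]; exact hκ2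
  set x₀ : ℂ := -(σ : ℂ) + c * I with hx₀
  obtain ⟨D, hD1, hD2⟩ := hJ (fun z => exp (2 * Real.pi * I * x₀ / n - κ z))
    (((differentiableOn_const _).sub hκd).cexp) (by
      intro z hz
      refine ⟨exp_ne_zero _, ?_⟩
      have h1 := mg_norm_exp n σ c 0
      rw [ofReal_zero, sub_zero, sub_zero] at h1
      rw [Complex.exp_sub, norm_div, h1, norm_exp]
      exact div_le_self (Real.exp_pos _).le (Real.one_le_exp (hκre z hz)))
  simp only [hκ2'] at hD1 hD2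
  -- the time parameter at the first multiplier
  set x : ℂ := x₀ + I * ((n / (2 * Real.pi) : ℝ) : ℂ) * κ l₁ with hx
  have hex : 2 * Real.pi * I * x₀ / n - κ l₁ = 2 * Real.pi * I * x / n := by
    have h1 : (n : ℂ) ≠ 0 := ofReal_ne_zero.2 hn.ne'
    have h2 : (Real.pi : ℂ) ≠ 0 := ofReal_ne_zero.2 Real.pi_ne_zero
    rw [hx]
    push_cast
    field_simp
    linear_combination (-(n : ℂ) * κ l₁) * I_mul_I
  rw [hex] at hD1 hD2
  have hκ1 : ‖κ l₁‖ ≤ 4 * (τ ^ 2 / T) / n := by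
    refine (hκn l₁ hl₁b).trans ?_
    have h1 := (mg_one_sub_exp (y := τ / n ^ 2) (by positivity) (by linarith [H.Tn, H.τT])).2
    have h2 := (mg_one_sub_exp (y := T / n ^ 2) (by positivity) (by linarith [H.Tn])).1
    rw [hl₁]
    calc 2 * (g * (1 - Real.exp (-(τ / n ^ 2)))) / (1 - Real.exp (-(T / n ^ 2)))
        ≤ 2 * (τ / n * (τ / n ^ 2)) / (T / n ^ 2 / 2) := by
          apply div_le_div₀ (by positivity) _ (by positivity) h2
          exact mul_le_mul_of_nonneg_left (mul_le_mul hg1 h1 (by linarith) (by positivity))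
            (by norm_num)
      _ = _ := by field_simp; norm_num
  have hxx : ‖x - x₀‖ ≤ τ ^ 2 / T := by
    rw [hx, add_sub_cancel_left, norm_mul, norm_mul, norm_I, one_mul, norm_real,
      Real.norm_of_nonneg (by positivity)]
    calc n / (2 * Real.pi) * ‖κ l₁‖ ≤ n / 4 * (4 * (τ ^ 2 / T) / n) :=
          mul_le_mul (div_le_div_of_nonneg_left hn.le (by norm_num) (by linarith)) hκ1
            (norm_nonneg _) (by positivity)
      _ = _ := by field_simp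
  have hx₀re : x₀.re = -σ := by simp [hx₀]
  have hx₀im : x₀.im = c := by simp [hx₀]
  have hre : |x.re + σ| ≤ τ ^ 2 / T := by
    have := (abs_re_le_norm (x - x₀)).trans hxx
    rwa [sub_re, hx₀re, sub_neg_eq_add] at this
  have him : |x.im - c| ≤ τ ^ 2 / T := by
    have := (abs_im_le_norm (x - x₀)).trans hxx
    rwa [sub_im, hx₀im] at this
  have him0 : c ≤ x.im := by
    have h1 : x.im = c + n / (2 * Real.pi) * (κ l₁).re := by
      rw [hx, add_im, hx₀im, mul_assoc, I_mul_im, re_ofReal_mul]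
    have h2 := hκre l₁ hl₁b
    have h3 : 0 ≤ n / (2 * Real.pi) * (κ l₁).re := by positivity
    linarith only [h1, h3]
  have hx3 : ‖x‖ ≤ 3 * s := by
    have h1 : ‖x₀‖ ≤ σ + c := by
      refine (norm_add_le _ _).trans (le_of_eq ?_)
      rw [norm_neg, norm_mul, norm_I, mul_one, norm_real, norm_real,
        Real.norm_of_nonneg (by linarith), Real.norm_of_nonneg hc.le]
    have h2 := norm_add_le (x - x₀) x₀
    rw [sub_add_cancel] at h2
    linarith only [h1, h2, hxx, hσ2, H.c_le, H.a_le, H.τ2, H.τ_le_s, hτ]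
  have hxs : ‖x‖ ≤ s₀ := hx3.trans hs₀
  have hxi : 0 ≤ x.im := hc.le.trans him0
  obtain ⟨y1, y2, y3⟩ := hL x hxs hxi
  have hre' := abs_le.1 hre
  have him' := abs_le.1 him
  have hxre : x.re ≤ 0 := by linarith only [hre'.2, hσ1, H.a_le, H.τ2, H.τ_le_s, hτ]
  have hE : x.im + (1 / T ^ 2 + T / n) ≤ c + τ ^ 2 / T + (1 / T ^ 2 + T / n) := by
    linarith only [him'.2]
  have y4 : s / (2 * C₁) ≤ (Y x).re := H.reB (x := -x.re) (by linarith only [hre'.2, hσ1]) hE (y3 hxre)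
  have hq2 : ‖Y x‖ ≤ q ^ 2 := by
    refine y1.trans ((mul_le_mul_of_nonneg_left hx3 (by linarith)).trans (le_of_eq ?_))
    rw [H.hs]; field_simp
  set t₁ := exp (2 * Real.pi * I * x / n) with ht₁
  have ht₁n : ‖t₁‖ < 1 := by
    have e : 2 * Real.pi * I * x / n = ((2 * Real.pi / n : ℝ) : ℂ) * (I * x) := by
      push_cast; ring
    rw [ht₁, norm_exp, e, re_ofReal_mul, I_mul_re]
    apply Real.exp_lt_one_iff.2
    have : 0 < 2 * Real.pi / n * x.im := mul_pos (by positivity) (hc.trans_le him0)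
    linarith only [this]
  have ht₁0 : t₁ ≠ 0 := exp_ne_zero _
  have HK := hK l₁ hl₁b
  obtain ⟨f1, f2⟩ := HK.Fu_inv hl₁1 hl₁0 (mg_mem HK ht₁n) (mul_ne_zero ht₁0 HK.ne)
  set J₁ := h l₁ (t₁ * η l₁) with hJ₁
  have hu : 1 / J₁ ≠ 0 := one_div_ne_zero f1
  have hYu : Y x = 1 / J₁ + 2 + 1 / (1 / J₁) := by
    rw [hY, ← ht₁, div_eq_mul_one_div l₁, ← f2, Fu]
    field_simp
    ring
  have hlog := (jouk hu hYu (hq2.trans (by linarith only [H.q2]))).2 _ (by positivity) y4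
  rw [norm_div, norm_one, one_div, Real.log_inv, abs_neg] at hlog
  refine ⟨x, 1 / J₁, D, hxx, hxs, hxi, hu, hYu, hq2, hD2 _ le_rfl ?_, ?_⟩
  · exact H.logB (abs_nonneg _) (y2.trans (mul_le_mul_of_nonneg_left hE (by linarith))) hlog
  · rw [hD1, Complex.exp_neg]
    field_simp

end Pool.Agent.Lib.MP_102662_an
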