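import Pool.Agent.Lib.MP_102662_an.Lam1
import Pool.Agent.Lib.MP_102662_an.Herg
import Pool.Agent.Lib.MP_102662_an.MarginX3

open Complex Metric Set Filter Topology

namespace Pool.Agent.Lib.MP_102662_an

theorem mg_pow {N : ℕ} (hN : 0 < N) (τ s : ℝ) :
    circleMap 0 (Real.exp (-(τ / (N : ℝ) ^ 2))) (2 * Real.pi * (1 / N - s / (N : ℝ) ^ 2)) ^ N =
      exp (-((τ / N : ℝ) : ℂ) - 2 * Real.pi * I * s / (N : ℝ)) := by
  have h1 : (N : ℂ) ≠ 0 := Nat.cast_ne_zero.2 hN.ne'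
  rw [mg_circ, ← Complex.exp_nat_mul,
    ← Complex.exp_periodic (-((τ / N : ℝ) : ℂ) - 2 * Real.pi * I * s / (N : ℝ))]
  congr 1
  push_cast
  field_simp
  ring

/-- The corner argument at the weakly attracting multiplier. -/
theorem mg_core {C₁ C₂ C₃ q s τ T c X μ δ : ℝ} {N : ℕ} (H : MgNum C₁ C₃ q s τ N T c X μ δ)
    (hC₂ : 1 ≤ C₂) (hqC : 72 * C₂ * q ≤ 1 / (288 * C₁ ^ 2)) {l₂ η : ℂ} {h Y : ℂ → ℂ}
    (hl₂ : l₂ = circleMap 0 (Real.exp (-(τ / (N : ℝ) ^ 2)))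
      (2 * Real.pi * (1 / N - s / (N : ℝ) ^ 2)))
    (HK : KExt l₂ η h) {s₀ : ℝ}
    (hY : ∀ x : ℂ, ‖x‖ ≤ s₀ → 0 ≤ x.im → ∀ x' : ℂ, ‖x'‖ ≤ s₀ → 0 ≤ x'.im →
      ‖x - x'‖ ≤ C₁ * ‖Y x - Y x'‖)
    (hT : ∀ σ g : ℝ, s ≤ σ → σ ≤ 2 * s → 0 ≤ g → g ≤ τ / N →
      ∃ x u D : ℂ, ‖x - (-(σ : ℂ) + c * I)‖ ≤ τ ^ 2 / T ∧ ‖x‖ ≤ s₀ ∧ 0 ≤ x.im ∧ u ≠ 0 ∧
        Y x = u + 2 + 1 / u ∧ ‖Y x‖ ≤ q ^ 2 ∧ ‖D‖ ≤ q / (2000 * C₁ ^ 2) ∧
        1 / h (exp (2 * Real.pi * I * (-(σ : ℂ) + c * I) / (N : ℝ) - g) * η) = u * exp (-D))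
    (hin : ∀ t : ℂ, t ≠ 0 → ‖t‖ ≤ Real.exp (-(2 * Real.pi * c / N)) → ‖h (t * η)‖ ≤ 20 / 19)
    (hlip : ∀ lam : ℂ, ‖lam‖ ≤ 1 →
      ‖lam - ee (1 / N)‖ ≤ 1 / (N * Real.sqrt N) → ∀ u₀ u₀' : ℂ, ‖u₀ + 4‖ ≤ 1 / 2 →
      ‖u₀' + 4‖ ≤ 1 / 2 → ∀ n : ℕ, n ≤ N → ‖(Fu lam)^[n] u₀‖ ≤ 2 → ‖(Fu lam)^[n] u₀'‖ ≤ 2 →
      (∀ k : ℕ, N ≤ 2 * k → k ≤ n →
        19 / 20 ≤ ‖(Fu lam)^[k] u₀‖ ∧ 19 / 20 ≤ ‖(Fu lam)^[k] u₀'‖) →
      ‖(Fu lam)^[n] u₀ - (Fu lam)^[n] u₀'‖ ≤ C₂ * ‖u₀ - u₀'‖) : False := by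
  have hn := H.n0
  have hτ := H.τ0
  have hc := H.c0
  have hs := H.s0
  have hq0 := H.hq0
  have hC₁ := H.hC₁
  have hN : 0 < N := by exact_mod_cast hn
  have hq4 : q ≤ 1 / 4 := by linarith only [H.hq]
  have hε3 : q / (2000 * C₁ ^ 2) ≤ q / 3 := by
    have : (1 : ℝ) ≤ C₁ ^ 2 := one_le_pow₀ hC₁
    exact div_le_div_of_nonneg_left hq0.le (by norm_num) (by linarith only [this])
  have hcτ := H.cτ
  have hpc : 0 ≤ Real.pi * c := by positivity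
  have hl₂n : ‖l₂‖ = Real.exp (-(τ / (N : ℝ) ^ 2)) := by
    rw [hl₂, norm_circleMap_zero, abs_of_pos (Real.exp_pos _)]
  have hl₂1 : ‖l₂‖ < 1 := by
    rw [hl₂n]
    exact Real.exp_lt_one_iff.2 (neg_lt_zero.2 (by positivity))
  have hl₂0 : l₂ ≠ 0 := norm_pos_iff.1 (by rw [hl₂n]; exact Real.exp_pos _)
  have hnear : ‖l₂ - ee (1 / N)‖ ≤ (τ + 2 * Real.pi * s) / (N : ℝ) ^ 2 := by
    rw [hl₂]
    refine (mg_circ_near (by positivity)).trans (le_of_eq ?_)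
    rw [sub_sub_cancel_left, abs_neg, abs_of_pos (by positivity)]
    ring
  have hnear1 : ‖l₂ - 1‖ ≤ 1 / 14 := by
    have h1 := norm_ee_sub_le (1 / N) 0
    have h2 : ee 0 = 1 := by simp [ee]
    rw [h2, sub_zero, abs_of_pos (by positivity)] at h1
    have h3 : 2 * Real.pi * (1 / (N : ℝ)) ≤ 2 * 3.15 * (1 / 100) :=
      mul_le_mul (by linarith only [Real.pi_lt_d2])
        (one_div_le_one_div_of_le (by norm_num) H.hn) (by positivity) (by norm_num)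
    have h4 : 1 / ((N : ℝ) * Real.sqrt N) ≤ 1 / 1000 := by
      apply one_div_le_one_div_of_le (by norm_num)
      have : (10 : ℝ) ≤ Real.sqrt N := Real.le_sqrt_of_sq_le (by linarith only [H.hn])
      nlinarith only [this, H.hn]
    have h5 := norm_add_le (l₂ - ee (1 / N)) (ee (1 / N) - 1)
    rw [sub_add_sub_cancel] at h5
    linarith only [h1, h3, h4, h5, hnear, H.near2]
  have hl₂low : 13 / 14 ≤ ‖l₂‖ := by
    have := norm_sub_le l₂ (l₂ - 1)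
    rw [sub_sub_cancel, norm_one] at this
    linarith only [this, hnear1]
  have hpow := mg_pow hN τ s
  rw [← hl₂] at hpow
  obtain ⟨x0, u0, D0, -, -, -, hu0, hy0, hq0', hD0, e0⟩ :=
    hT s 0 le_rfl (by linarith only [hs]) le_rfl (by positivity)
  obtain ⟨xa, ua, Da, a1, a2, a3, hua, hya, hqa, hDa, ea⟩ :=
    hT s (τ / N - 2 * Real.pi * c / N) le_rfl (by linarith only [hs])
      (by rw [← sub_div]; exact div_nonneg (by linarith only [hcτ, hpc]) hn.le)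
      (sub_le_self _ (by positivity))
  obtain ⟨xb, ub, Db, b1, b2, b3, hub, hyb, hqb, hDb, eb⟩ :=
    hT (2 * s) (τ / N) (by linarith only [hs]) le_rfl (by positivity) le_rfl
  set tb := exp (2 * Real.pi * I * (-(s : ℂ) + c * I) / (N : ℝ) - (0 : ℝ)) with htb
  have htbn : ‖tb‖ = Real.exp (-(2 * Real.pi * c / N)) := by
    rw [htb, mg_norm_exp, sub_zero]
  have htb1 : ‖tb‖ < 1 := by
    rw [htbn]; exact Real.exp_lt_one_iff.2 (neg_lt_zero.2 (by positivity))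
  have htb0 : tb ≠ 0 := exp_ne_zero _
  have hea : exp (2 * Real.pi * I * (-(s : ℂ) + c * I) / (N : ℝ) -
      ((τ / N - 2 * Real.pi * c / N : ℝ) : ℂ)) = l₂ ^ N := by
    rw [hpow]
    congr 1
    push_cast
    linear_combination (2 * (Real.pi : ℂ) * c / N) * I_mul_I
  have heb : exp (2 * Real.pi * I * (-((2 * s : ℝ) : ℂ) + c * I) / (N : ℝ) - ((τ / N : ℝ) : ℂ)) =
      l₂ ^ N * tb := by
    rw [hpow, htb, ← Complex.exp_add]
    congr 1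
    push_cast
    ring
  rw [hea] at ea
  rw [heb] at eb
  obtain ⟨p01, p02, p03⟩ := mg_pert hu0 hy0 hq0 hq4 hq0' hD0 hε3
  obtain ⟨pa1, pa2, -⟩ := mg_pert hua hya hq0 hq4 hqa hDa hε3
  obtain ⟨pb1, pb2, -⟩ := mg_pert hub hyb hq0 hq4 hqb hDb hε3
  rw [← e0] at p03
  set v := 1 / h (tb * η) with hv
  have hlt : ‖l₂ * tb‖ < 1 := by
    rw [norm_mul]
    exact lt_of_le_of_lt (mul_le_of_le_one_left (norm_nonneg _) hl₂1.le) htb1
  have it1 : ∀ k : ℕ, (Fu l₂)^[k] (1 / h (l₂ * η)) = 1 / h (l₂ ^ (k + 1) * η) := by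
    intro k
    rw [mg_iter HK hl₂1 hl₂0 hl₂1 hl₂0 k, pow_succ]
  have it2 : ∀ k : ℕ, (Fu l₂)^[k] (1 / h (l₂ * tb * η)) = 1 / h (l₂ ^ (k + 1) * tb * η) := by
    intro k
    rw [mg_iter HK hl₂1 hl₂0 hlt (mul_ne_zero hl₂0 htb0) k, pow_succ, mul_assoc (l₂ ^ k) l₂ tb]
  have st1 : 1 / h (l₂ * η) = -4 / l₂ := by
    rw [HK.crit_val]; field_simp
  have st2 : 1 / h (l₂ * tb * η) = -4 / l₂ + (v + 2 + 1 / v) / l₂ := by
    have := mg_iter HK hl₂1 hl₂0 htb1 htb0 1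
    rw [Function.iterate_one, pow_one] at this
    rw [← this, ← hv, Fu]
    ring
  have st3 : ‖-4 / l₂ + 4‖ ≤ 4 / 13 := by
    have e : -4 / l₂ + 4 = 4 * (l₂ - 1) / l₂ := by field_simp; ring
    rw [e, norm_div, norm_mul, div_le_iff₀ (by linarith only [hl₂low])]
    have : ‖(4 : ℂ)‖ = 4 := by simp
    rw [this]
    linarith only [hnear1, hl₂low]
  have st4 : ‖(v + 2 + 1 / v) / l₂‖ ≤ 72 * q ^ 2 := by
    rw [norm_div, div_le_iff₀ (by linarith only [hl₂low])]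
    have : 72 * q ^ 2 * (13 / 14) ≤ 72 * q ^ 2 * ‖l₂‖ :=
      mul_le_mul_of_nonneg_left hl₂low (by positivity)
    linarith only [this, p03, sq_nonneg q]
  have hN1 : N - 1 + 1 = N := Nat.sub_add_cancel hN
  have hlow : ∀ t : ℂ, t ≠ 0 → ‖t‖ ≤ Real.exp (-(2 * Real.pi * c / N)) →
      19 / 20 ≤ ‖1 / h (t * η)‖ := by
    intro t ht0 ht
    have h1 := hin t ht0 ht
    have h2 : h (t * η) ≠ 0 := mg_ne HK (by rw [← htbn] at ht; exact ht.trans_lt htb1) ht0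
    rw [norm_div, norm_one, le_div_iff₀ (norm_pos_iff.2 h2)]
    linarith only [h1]
  have hfin := hlip l₂ hl₂1.le (hnear.trans H.near2) (1 / h (l₂ * η)) (1 / h (l₂ * tb * η))
    (by rw [st1]; linarith only [st3])
    (by
      rw [st2, add_right_comm]
      have := norm_add_le (-4 / l₂ + 4) ((v + 2 + 1 / v) / l₂)
      linarith only [this, st3, st4, H.q2])
    (N - 1) (Nat.sub_le _ _) (by rw [it1, hN1, ea]; exact pa2) (by rw [it2, hN1, eb]; exact pb2)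
    (by
      intro k hk1 _
      rw [it1, it2]
      constructor
      · apply hlow _ (pow_ne_zero _ hl₂0)
        rw [norm_pow, hl₂n, ← Real.exp_nat_mul]
        apply Real.exp_le_exp.2
        have h1 : (N : ℝ) ≤ 2 * ((k + 1 : ℕ) : ℝ) := by
          exact_mod_cast (by omega : N ≤ 2 * (k + 1))
        have h2 : (N : ℝ) / 2 * (τ / (N : ℝ) ^ 2) ≤ ((k + 1 : ℕ) : ℝ) * (τ / (N : ℝ) ^ 2) :=
          mul_le_mul_of_nonneg_right (by linarith only [h1]) (by positivity)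
        have h3 : (N : ℝ) / 2 * (τ / (N : ℝ) ^ 2) = τ / 2 / N := by field_simp
        have h4 : 2 * Real.pi * c / N ≤ τ / 2 / N :=
          div_le_div_of_nonneg_right (by linarith only [hcτ]) hn.le
        linarith only [h2, h3, h4]
      · apply hlow _ (mul_ne_zero (pow_ne_zero _ hl₂0) htb0)
        rw [norm_mul, norm_pow, htbn]
        exact mul_le_of_le_one_left (Real.exp_pos _).le (pow_le_one₀ (norm_nonneg _) hl₂1.le))
  rw [it1, it2, hN1, ea, eb, st1, st2, sub_add_cancel_left, norm_neg] at hfin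
  refine mg_contra hC₁ hq0 hq4 hqC le_rfl hua hub hya hyb hqa hqb ?_ pa1 pb1
    (hfin.trans (mul_le_mul_of_nonneg_left st4 (by linarith only [hC₂])))
  have h1 := hY xa a2 a3 xb b2 b3
  have h2 : s / 2 ≤ ‖xa - xb‖ := by
    have e : (s : ℂ) = (xa - xb) - (xa - (-(s : ℂ) + c * I)) +
        (xb - (-((2 * s : ℝ) : ℂ) + c * I)) := by push_cast; ring
    have h3 : ‖(s : ℂ)‖ = s := by rw [norm_real, Real.norm_of_nonneg hs.le]
    have h4 := norm_add_le ((xa - xb) - (xa - (-(s : ℂ) + c * I)))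
      (xb - (-((2 * s : ℝ) : ℂ) + c * I))
    have h5 := norm_sub_le (xa - xb) (xa - (-(s : ℂ) + c * I))
    rw [← e, h3] at h4
    linarith only [h4, h5, a1, b1, H.a_le, H.τ2, H.τ_le_s, hτ]
  have h6 : q ^ 2 / (6 * C₁ ^ 2) = s / 2 / C₁ := by rw [H.hs]; field_simp; norm_num
  rw [h6, div_le_iff₀ (by linarith only [hC₁])]
  linarith only [h1, h2]

/-- On a set of multipliers of definite measure the linearizer leaves the unit disc early. -/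
theorem margin : ∃ (c₁ : ℝ) (N₀ : ℕ), 0 < c₁ ∧ ∀ (η : ℂ → ℂ) (h : ℂ → ℂ → ℂ),
    (∀ lam ∈ ball (0 : ℂ) 1, KExt lam (η lam) (h lam)) → ∀ N : ℕ, N₀ ≤ N →
    ∀ T c X μ δ : ℝ, Real.log N ≤ c₁ * T → T ^ 2 ≤ c₁ * N → 1 / (N : ℝ) ≤ c → c * T ≤ c₁ →
    T ≤ X → X ≤ N → 0 ≤ μ → Real.log N * (μ + T ^ 2 / X) ≤ c₁ → 0 < δ → δ ≤ 1 / (N : ℝ) ^ 3 →
    ENNReal.ofReal (μ / N ^ 2) < MeasureTheory.volume {φ : ℝ | |φ - 2 * Real.pi / N| ≤ X / N ^ 2 ∧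
      ∃ t : ℂ, ‖t‖ ≤ Real.exp (-(2 * Real.pi * c / N)) ∧
        1 < ‖h (circleMap 0 (1 - δ) φ) (t * η (circleMap 0 (1 - δ) φ))‖} := by
  obtain ⟨N₁, C₁, s₀, hC₁, hs₀, hL⟩ := lam1
  obtain ⟨N₂, C₂, hC₂, hLip⟩ := lip_turn
  obtain ⟨C₃, hC₃, hH⟩ := herg
  set q : ℝ := min (1 / (20736 * C₂ * C₁ ^ 2)) s₀ with hq
  have hq0 : 0 < q := lt_min (by positivity) hs₀
  have hq1 : q ≤ 1 / (20736 * C₂ * C₁ ^ 2) := min_le_left _ _
  have hq2 : q ≤ s₀ := min_le_right _ _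
  have hq3 : q ≤ 1 / 1000 := by
    refine hq1.trans (one_div_le_one_div_of_le (by norm_num) ?_)
    have h1 : (1 : ℝ) ≤ C₂ * C₁ ^ 2 := one_le_mul_of_one_le_of_one_le hC₂ (one_le_pow₀ hC₁)
    linarith only [h1, mul_assoc 20736 C₂ (C₁ ^ 2)]
  have hqC : 72 * C₂ * q ≤ 1 / (288 * C₁ ^ 2) := by
    refine (mul_le_mul_of_nonneg_left hq1 (by positivity)).trans (le_of_eq ?_)
    field_simp; norm_num
  set s : ℝ := q ^ 2 / (3 * C₁) with hs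
  set τ : ℝ := q ^ 2 / (512000 * C₃ * C₁ ^ 4) with hτ
  have hτ0 : 0 < τ := by positivity
  have hs3 : 3 * s ≤ s₀ := by
    have h1 : 3 * s = q ^ 2 / C₁ := by rw [hs]; field_simp
    have h2 : q ^ 2 / C₁ ≤ q ^ 2 := div_le_self (sq_nonneg _) hC₁
    have h3 : q ^ 2 ≤ q := by rw [sq]; exact mul_le_of_le_one_left hq0.le (by linarith only [hq3])
    linarith only [h1, h2, h3, hq2]
  obtain ⟨N₃, hN₃⟩ := exists_nat_ge (4 / τ)
  refine ⟨τ ^ 2, max (max N₁ N₂) (max N₃ 100), by positivity, ?_⟩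
  intro η h hK N hN T c X μ δ h1 h2 h3 h4 h5 h6 h7 h8 h9 h10
  simp only [max_le_iff] at hN
  obtain ⟨⟨hN1, hN2⟩, hN3, hN4⟩ := hN
  have H : MgNum C₁ C₃ q s τ N T c X μ δ :=
    ⟨hC₁, hC₃, hq0, hq3, hs, hτ, by exact_mod_cast hN4, hN₃.trans (by exact_mod_cast hN3),
      h1, h2, h3, h4, h5, h6, h7, h8, h9, h10⟩
  clear_value q s τ
  clear h1 h2 h3 h4 h7 h8 h10 hN₃ hN3 hN4 hq1 hq2 hq3 hq hs hτ
  by_contra hcon
  push Not at hcon
  set M : Set ℝ := {φ : ℝ | |φ - 2 * Real.pi / N| ≤ X / N ^ 2 ∧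
      ∃ t : ℂ, ‖t‖ ≤ Real.exp (-(2 * Real.pi * c / N)) ∧
        1 < ‖h (circleMap 0 (1 - δ) φ) (t * η (circleMap 0 (1 - δ) φ))‖} with hM
  have hn := H.n0
  have hT := H.T0
  have hc := H.c0
  have hs0 := H.s0
  have hX : 0 < X := hT.trans_le h5
  have hr₀ : Real.exp (-(2 * Real.pi * c / N)) < 1 :=
    Real.exp_lt_one_iff.2 (neg_lt_zero.2 (by positivity))
  have hδ : δ ≤ 1 / 4 := by linarith only [H.δ_le, H.τT, H.Tn]
  have hcirc : ∀ φ : ℝ, circleMap 0 (1 - δ) φ ∈ ball (0 : ℂ) 1 := by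
    intro φ
    rw [mem_ball_zero_iff, norm_circleMap_zero, abs_of_nonneg (by linarith only [hδ])]
    exact sub_lt_self _ h9
  have hX1 : X / (N : ℝ) ^ 2 ≤ 1 := by
    rw [div_le_one (by positivity)]
    exact h6.trans (le_self_pow₀ (by linarith only [H.hn]) (by norm_num))
  have hHJ := fun (t : ℂ → ℂ) (ht : DifferentiableOn ℂ t (ball 0 1))
      (ht' : ∀ z ∈ ball (0 : ℂ) 1, t z ≠ 0 ∧ ‖t z‖ ≤ Real.exp (-(2 * Real.pi * c / N))) =>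
    hH (fun lam => h lam (t lam * η lam)) (1 - δ) (2 * Real.pi / N) (X / N ^ 2) (μ / N ^ 2)
      (10 * Real.log N) M (kext_J_diff hK hr₀ ht fun z hz => (ht' z hz).2)
      (fun z hz => mg_ne (hK z hz) ((ht' z hz).2.trans_lt hr₀) (ht' z hz).1)
      (by linarith only [hδ]) (sub_lt_self _ h9) (by positivity) hX1
      (div_nonneg H.h7 (sq_nonneg _)) hcon (by linarith only [H.log1])
      (fun φ => (mg_bound (hK _ (hcirc φ)) hr₀ (ht' _ (hcirc φ)).2).trans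
        (mg_B (by linarith only [H.hn]) H.h3 (by linarith only [H.c_le, H.τ2, H.τ_le])))
      (fun φ hφ hφM => by
        by_contra hlt
        push Not at hlt
        exact hφM ⟨hφ, _, (ht' _ (hcirc φ)).2, hlt⟩)
  set d₁ := 1 - δ - Real.exp (-(T / (N : ℝ) ^ 2)) with hd₁
  set d₂ := 1 - δ - Real.exp (-(τ / (N : ℝ) ^ 2)) with hd₂
  have e₁ : 1 - δ - d₁ = Real.exp (-(T / (N : ℝ) ^ 2)) := by rw [hd₁]; ring
  have e₂ : 1 - δ - d₂ = Real.exp (-(τ / (N : ℝ) ^ 2)) := by rw [hd₂]; ring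
  have d1 := H.d1
  have d2 := H.d2
  rw [← hd₁] at d1
  rw [← hd₂] at d2
  have hd₂0 : 0 < d₂ := lt_of_lt_of_le (by positivity) d2.1
  have hd₂₁ : d₂ ≤ d₁ := by
    have := Real.exp_le_exp.2 (neg_le_neg H.τT)
    rw [hd₁, hd₂]; linarith only [this]
  have hd₁4 : d₁ ≤ 1 / 4 := by linarith only [d1.2, H.Tn]
  set φ₂ := 2 * Real.pi * (1 / N - s / (N : ℝ) ^ 2) with hφ₂
  have hφ : |2 * Real.pi / N - φ₂| = 2 * Real.pi * s / (N : ℝ) ^ 2 := by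
    rw [← abs_of_pos (show 0 < 2 * Real.pi * s / (N : ℝ) ^ 2 by positivity), hφ₂]
    congr 1
    ring
  have hTX : T / (N : ℝ) ^ 2 ≤ X / (N : ℝ) ^ 2 := div_le_div_of_nonneg_right h5 (sq_nonneg _)
  have hTpos : 0 < T / (N : ℝ) ^ 2 := by positivity
  set l₁ := circleMap 0 (Real.exp (-(T / (N : ℝ) ^ 2))) (2 * Real.pi / N) with hl₁
  set l₂ := circleMap 0 (Real.exp (-(τ / (N : ℝ) ^ 2))) φ₂ with hl₂
  have hl₁n : ‖l₁‖ = Real.exp (-(T / (N : ℝ) ^ 2)) := by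
    rw [hl₁, norm_circleMap_zero, abs_of_pos (Real.exp_pos _)]
  have hl₁b : l₁ ∈ ball (0 : ℂ) 1 := by
    rw [mem_ball_zero_iff, hl₁n]; exact Real.exp_lt_one_iff.2 (neg_lt_zero.2 hTpos)
  have hl₂b : l₂ ∈ ball (0 : ℂ) 1 := by
    rw [mem_ball_zero_iff, hl₂, norm_circleMap_zero, abs_of_pos (Real.exp_pos _)]
    exact Real.exp_lt_one_iff.2 (neg_lt_zero.2 (by positivity))
  have hl₁e : ‖l₁ - ee (1 / N)‖ ≤ T / (N : ℝ) ^ 2 := by
    have := mg_circ_near (a := T / (N : ℝ) ^ 2) (n := N) (θ := 1 / N) hTpos.le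
    rw [sub_self, abs_zero, mul_zero, add_zero, mul_one_div] at this
    exact this
  have hL1 := hL N hN1 T l₁ (η l₁) (h l₁) H.logT H.T2 hl₁n.le hl₁e (hK _ hl₁b) _ (fun _ => rfl)
  refine mg_core H hC₂ hqC hl₂ (hK _ hl₂b) (s₀ := s₀)
    (fun x hx hx' => (hL1 x hx hx').2.2.2) ?_ ?_ (hLip N hN2)
  · intro σ g g1 g2 g3 g4
    refine mg_transfer H hs3 hK hl₁n hl₂ ?_ (fun _ => by simp)
      (fun x hx hx' => ⟨(hL1 x hx hx').1, (hL1 x hx hx').2.1, (hL1 x hx hx').2.2.1⟩) g1 g2 g3 g4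
    intro t ht ht'
    obtain ⟨D, hD1, hD2⟩ := (hHJ t ht ht').2 d₁ d₂ (2 * Real.pi / N) φ₂ hd₂0 hd₂₁ hd₁4
      (by rw [sub_self, abs_zero]; positivity) (by rw [hφ]; exact H.ang.trans d1.1)
    rw [e₁, e₂] at hD1
    rw [e₁] at hD2
    refine ⟨D, hD1, fun L hL1 hL2 => hD2.trans (le_trans ?_
      (H.numB d1.1 d1.2 d2.1 ((abs_nonneg _).trans hL1) hL2))⟩
    apply mul_le_mul_of_nonneg_left (add_le_add hL1 le_rfl)
    have : 0 < d₁ := hd₂0.trans_le hd₂₁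
    positivity
  · intro t ht0 ht
    have h1 := (hHJ (fun _ => t) (differentiableOn_const _) (fun _ _ => ⟨ht0, ht⟩)).1 d₂ φ₂ hd₂0
      (hd₂₁.trans hd₁4) (by rw [abs_sub_comm, hφ]; linarith only [H.ang, hTX, hTpos])
    rw [e₂] at h1
    refine h1.trans ((Real.exp_le_exp.2 (H.numA d2.1 d2.2)).trans ?_)
    have := Real.add_one_le_exp (-(1 / 20 : ℝ))
    rw [Real.exp_neg] at this
    have h2 := Real.exp_pos (1 / 20 : ℝ)
    rw [le_inv_comm₀ (by norm_num) h2] at this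
    exact this.trans (by norm_num)

end Pool.Agent.Lib.MP_102662_an
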