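import Pool.Agent.Lib.MP_102662_an.Defs

open Set Filter Topology

namespace Pool.Agent.Lib.MP_102662_an

/-- A choice of all the parameters as powers of one large integer. -/
theorem params {c₁ Cs Cf : ℝ} (hc : 0 < c₁) (hCs : 1 ≤ Cs) (hCf : 1 ≤ Cf) (N₀ A : ℕ) (P₀ : ℝ) :
    ∃ (N : ℕ) (P T c X μ γ : ℝ), N₀ ≤ N ∧ (400 : ℝ) ≤ N ∧ Real.log N ≤ c₁ * T ∧
      T ^ 2 ≤ c₁ * N ∧ 1 / (N : ℝ) ≤ c ∧ c * T ≤ c₁ ∧ T ≤ X ∧ X ≤ N ∧ 0 ≤ μ ∧
      Real.log N * (μ + T ^ 2 / X) ≤ c₁ ∧ 1 ≤ X ∧ 0 < γ ∧ γ ≤ 1 ∧ Cs * γ * X ≤ μ ∧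
      (A : ℝ) ≤ 2 * P ^ 60 ∧ P₀ ≤ P ∧ 10 ≤ P ∧ P ^ 100 ≤ N / 4 ∧ 1 + Real.log (4 * N) ≤ P ∧
      1 / P ≤ γ ^ 2 / Cf ∧ 3 ≤ c * P ∧ c ≤ 1 ∧ 2 * (2 * P ^ 60) ^ 4 ≤ γ ^ 2 * N ∧
      4 * P ^ 206 / N ≤ (γ / (2 * P ^ 60) ^ 2) ^ 20 := by
  obtain ⟨n, hn⟩ := exists_nat_ge
    (max (max (max (120000 / c₁) 100000) (max Cs Cf)) (max (max (N₀ : ℝ) A) P₀))
  simp only [max_le_iff] at hn
  obtain ⟨⟨⟨h1, h2⟩, h3, h4⟩, ⟨h5, h6⟩, h7⟩ := hn
  set y : ℝ := (n : ℝ) with hy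
  have hy1 : (1 : ℝ) ≤ y := by linarith
  have hy0 : (0 : ℝ) < y := by linarith
  have hp : ∀ a b : ℕ, a ≤ b → y ^ a ≤ y ^ b := fun a b h => pow_le_pow_right₀ hy1 h
  have hp1 : ∀ b : ℕ, 1 ≤ b → y ≤ y ^ b := fun b h => by simpa using hp 1 b h
  have hcy : 120000 ≤ c₁ * y := by
    rw [div_le_iff₀ hc] at h1; linarith
  have hN : ((n ^ 60000 : ℕ) : ℝ) = y ^ 60000 := by rw [Nat.cast_pow]
  have hlog : Real.log (y ^ 60000) ≤ 60000 * y := by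
    rw [Real.log_pow]
    have := Real.log_le_sub_one_of_pos hy0
    push_cast
    linarith
  have hlog0 : 0 ≤ Real.log (y ^ 60000) := Real.log_nonneg (one_le_pow₀ hy1)
  have h4y : ∀ k : ℕ, (4 : ℝ) ^ k ≤ y ^ k := fun k => pow_le_pow_left₀ (by norm_num) (by linarith) k
  refine ⟨n ^ 60000, y ^ 20, y ^ 2, 1 / y ^ 3, y ^ 6, 1 / y ^ 2, 1 / y ^ 9, ?_, ?_, ?_, ?_, ?_, ?_,
    ?_, ?_, ?_, ?_, ?_, ?_, ?_, ?_, ?_, ?_, ?_, ?_, ?_, ?_, ?_, ?_, ?_, ?_⟩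
  · have : (N₀ : ℝ) ≤ ((n ^ 60000 : ℕ) : ℝ) := by
      rw [hN]; exact h5.trans (hp1 _ (by norm_num))
    exact_mod_cast this
  · rw [hN]; exact le_trans (by linarith) (hp1 _ (by norm_num))
  · rw [hN]; nlinarith
  · rw [hN, ← pow_mul]
    have e : y ^ 60000 = y * y ^ 59999 := by rw [← pow_succ']
    have := hp (2 * 2) 59999 (by norm_num)
    have h0 : 0 < y ^ 59999 := by positivity
    rw [e]; nlinarith
  · rw [hN]
    exact one_div_le_one_div_of_le (by positivity) (hp _ _ (by norm_num))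
  · have : 1 / y ^ 3 * y ^ 2 = 1 / y := by field_simp
    rw [this, div_le_iff₀ hy0]; linarith
  · exact hp _ _ (by norm_num)
  · rw [hN]; exact hp _ _ (by norm_num)
  · positivity
  · rw [hN]
    have : 1 / y ^ 2 + (y ^ 2) ^ 2 / y ^ 6 = 2 / y ^ 2 := by field_simp; norm_num
    rw [this, mul_div_assoc', div_le_iff₀ (by positivity)]
    nlinarith
  · exact one_le_pow₀ hy1
  · positivity
  · rw [div_le_one (by positivity)]; exact one_le_pow₀ hy1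
  · have : Cs * (1 / y ^ 9) * y ^ 6 = Cs / y ^ 3 := by field_simp
    rw [this, div_le_div_iff₀ (by positivity) (by positivity)]
    have e : y ^ 3 = y * y ^ 2 := by ring
    have h0 : 0 < y ^ 2 := by positivity
    rw [e]; nlinarith
  · rw [← pow_mul]
    have := hp1 (20 * 60) (by norm_num)
    linarith
  · exact h7.trans (hp1 _ (by norm_num))
  · exact le_trans (by linarith) (hp1 _ (by norm_num))
  · rw [hN, ← pow_mul, le_div_iff₀ (by norm_num)]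
    have e : y ^ 60000 = y ^ 59999 * y := by rw [← pow_succ]
    have := hp (20 * 100) 59999 (by norm_num)
    have h0 : 0 < y ^ (20 * 100) := by positivity
    rw [e]; nlinarith
  · rw [hN, Real.log_mul (by norm_num) (by positivity)]
    have h8 := Real.log_le_sub_one_of_pos (show (0 : ℝ) < 4 by norm_num)
    have h9 := hp 2 20 (by norm_num)
    nlinarith
  · rw [div_pow, one_pow, ← pow_mul, div_div, one_div_le_one_div (by positivity) (by positivity)]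
    have e : y ^ 20 = y ^ (9 * 2) * y ^ 2 := by rw [← pow_add]
    have := hp1 2 (by norm_num)
    have h0 : 0 < y ^ (9 * 2) := by positivity
    rw [e]; nlinarith
  · have e : 1 / y ^ 3 * y ^ 20 = y ^ 17 := by field_simp
    rw [e]; exact le_trans (by linarith) (hp1 _ (by norm_num))
  · rw [div_le_one (by positivity)]; exact one_le_pow₀ hy1
  · rw [hN, div_pow, one_pow, ← pow_mul, ← pow_mul, mul_pow, ← pow_mul, one_div_mul_eq_div,
      le_div_iff₀ (by positivity)]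
    have h8 : (2 : ℝ) * 2 ^ 4 ≤ y ^ 3 := le_trans (by norm_num) (h4y 3)
    calc 2 * (2 ^ 4 * y ^ (20 * 60 * 4)) * y ^ (9 * 2)
        = (2 * 2 ^ 4) * (y ^ (20 * 60 * 4) * y ^ (9 * 2)) := by ring
      _ ≤ y ^ 3 * (y ^ (20 * 60 * 4) * y ^ (9 * 2)) := by gcongr
      _ = y ^ (3 + (20 * 60 * 4 + 9 * 2)) := by rw [pow_add, pow_add]
      _ ≤ y ^ 60000 := hp _ _ (by norm_num)
  · rw [hN, div_div, div_pow, one_pow, div_le_div_iff₀ (by positivity) (by positivity), one_mul]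
    have e : (y ^ 9 * (2 * (y ^ 20) ^ 60) ^ 2) ^ 20 = 4 ^ 20 * y ^ ((9 + 20 * 60 * 2) * 20) := by
      rw [← pow_mul, mul_pow 2, ← pow_mul, mul_left_comm, ← pow_add, mul_pow, ← pow_mul y,
        show (2 : ℝ) ^ 2 = 4 by norm_num]
    rw [e, ← pow_mul]
    calc 4 * y ^ (20 * 206) * (4 ^ 20 * y ^ ((9 + 20 * 60 * 2) * 20))
        = 4 ^ 21 * (y ^ (20 * 206) * y ^ ((9 + 20 * 60 * 2) * 20)) := by
          rw [pow_succ (4 : ℝ) 20]; ac_rfl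
      _ ≤ y ^ 21 * (y ^ (20 * 206) * y ^ ((9 + 20 * 60 * 2) * 20)) := by
          gcongr; linarith
      _ = y ^ (21 + (20 * 206 + (9 + 20 * 60 * 2) * 20)) := by rw [pow_add, pow_add]
      _ ≤ y ^ 60000 := hp _ _ (by norm_num)

end Pool.Agent.Lib.MP_102662_an
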