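import Pool.Agent.Lib.MP_102662_an.Defs

open Complex Metric Set Filter Topology

namespace Pool.Agent.Lib.MP_102662_an

lemma sel_window {N X φ : ℝ} (hN : 2 ≤ N) (hX1 : 1 ≤ X) (hX : X ≤ N)
    (h : |φ - 2 * Real.pi / N| ≤ X / N ^ 2) :
    0 < φ ∧ φ ≤ 8 / N ∧ |2 * Real.pi / φ - N| ≤ X := by
  have hN0 : 0 < N := by linarith
  have h3 := Real.pi_gt_three
  have h4 := Real.pi_lt_d2
  have e : |φ * N - 2 * Real.pi| ≤ X / N := by
    have : φ * N - 2 * Real.pi = (φ - 2 * Real.pi / N) * N := by field_simp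
    rw [this, abs_mul, abs_of_pos hN0]
    calc _ ≤ X / N ^ 2 * N := mul_le_mul_of_nonneg_right h hN0.le
      _ = X / N := by field_simp
  have e1 : X / N ≤ 1 := (div_le_one hN0).2 hX
  obtain ⟨l, u⟩ := abs_le.1 (e.trans e1)
  have hφ : 0 < φ := by
    by_contra hc
    have : φ * N ≤ 0 := mul_nonpos_of_nonpos_of_nonneg (not_lt.1 hc) hN0.le
    linarith
  refine ⟨hφ, (le_div_iff₀ hN0).2 (by linarith), ?_⟩
  have : 2 * Real.pi / φ - N = -(φ * N - 2 * Real.pi) / φ := by field_simp; ring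
  rw [this, abs_div, abs_neg, abs_of_pos hφ, div_le_iff₀ hφ]
  refine e.trans ?_
  rw [div_le_iff₀ hN0, mul_assoc]
  nlinarith

lemma sel_piece {N X γ : ℝ} (hN : 2 ≤ N) (hX1 : 1 ≤ X) (hX : X ≤ N) (hγ : 0 < γ) (m : ℝ)
    (hm : 1 ≤ m) (p : ℤ) :
    MeasureTheory.volume {φ : ℝ | |φ - 2 * Real.pi / N| ≤ X / N ^ 2 ∧
      |m * (2 * Real.pi / φ) - p| < γ / m ^ 2} ≤ ENNReal.ofReal (22 * γ / (m ^ 3 * N ^ 2)) := by
  refine (Real.volume_le_diam _).trans (Metric.ediam_le fun a ha b hb => ?_)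
  have hN0 : 0 < N := by linarith
  have hm0 : 0 < m := by linarith
  have h3 := Real.pi_gt_three
  obtain ⟨a0, a1, -⟩ := sel_window hN hX1 hX ha.1
  obtain ⟨b0, b1, -⟩ := sel_window hN hX1 hX hb.1
  rw [edist_dist, Real.dist_eq]
  refine ENNReal.ofReal_le_ofReal ?_
  have h1 : |m * (2 * Real.pi / a) - m * (2 * Real.pi / b)| ≤ 2 * γ / m ^ 2 := by
    have := abs_sub_le (m * (2 * Real.pi / a)) p (m * (2 * Real.pi / b))
    rw [abs_sub_comm (p : ℝ)] at this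
    have e : 2 * γ / m ^ 2 = γ / m ^ 2 + γ / m ^ 2 := by ring
    linarith [ha.2, hb.2]
  have e : a - b = -(m * (2 * Real.pi / a) - m * (2 * Real.pi / b)) *
      (a * b / (2 * Real.pi * m)) := by
    field_simp; ring
  have hab : a * b ≤ 8 / N * (8 / N) := mul_le_mul a1 b1 b0.le (by positivity)
  have h2 : a * b / (2 * Real.pi * m) ≤ 8 / N * (8 / N) / (6 * m) :=
    div_le_div₀ (by positivity) hab (by positivity) (by nlinarith)
  rw [e, abs_mul, abs_neg, abs_of_pos (show 0 < a * b / (2 * Real.pi * m) by positivity)]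
  calc _ ≤ 2 * γ / m ^ 2 * (8 / N * (8 / N) / (6 * m)) :=
        mul_le_mul h1 h2 (by positivity) (by positivity)
    _ = (64 / 3) * γ / (m ^ 3 * N ^ 2) := by field_simp; ring
    _ ≤ _ := div_le_div_of_nonneg_right (by linarith) (by positivity)

/-- Few angles fail the Diophantine condition. -/
theorem measure_not_dio2 : ∃ C : ℝ, 1 ≤ C ∧ ∀ (N X γ : ℝ), 2 ≤ N → 1 ≤ X → X ≤ N → 0 < γ →
    γ ≤ 1 → MeasureTheory.volume {φ : ℝ | |φ - 2 * Real.pi / N| ≤ X / N ^ 2 ∧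
      ¬ Dio2 (2 * Real.pi / φ) γ} ≤ ENNReal.ofReal (C * γ * X / N ^ 2) := by
  have hs : Summable fun n : ℕ => 1 / ((n : ℝ) + 1) ^ 2 := by
    have := (summable_nat_add_iff 1).2 (Real.summable_one_div_nat_pow.2 one_lt_two)
    simpa using this
  have hs0 : 0 ≤ ∑' n : ℕ, 1 / ((n : ℝ) + 1) ^ 2 := tsum_nonneg fun n => by positivity
  refine ⟨200 * ∑' n : ℕ, 1 / ((n : ℝ) + 1) ^ 2 + 1, by linarith, ?_⟩
  intro N X γ hN hX1 hX hγ hγ1
  have hN0 : 0 < N := by linarith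
  let K : ℕ → ℕ := fun n => ⌈3 * ((n : ℝ) + 1) * X⌉₊
  let S : ℕ → Finset ℤ := fun n =>
    Finset.Icc (⌊((n : ℝ) + 1) * N⌋ - K n) (⌊((n : ℝ) + 1) * N⌋ + K n)
  let B : ℕ → ℤ → Set ℝ := fun n p => {φ : ℝ | |φ - 2 * Real.pi / N| ≤ X / N ^ 2 ∧
      |((n : ℝ) + 1) * (2 * Real.pi / φ) - p| < γ / ((n : ℝ) + 1) ^ 2}
  have hm : ∀ n : ℕ, (1 : ℝ) ≤ n + 1 := fun n => by
    have : (0 : ℝ) ≤ n := n.cast_nonneg
    linarith
  have cover : {φ : ℝ | |φ - 2 * Real.pi / N| ≤ X / N ^ 2 ∧ ¬ Dio2 (2 * Real.pi / φ) γ} ⊆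
      ⋃ n, ⋃ p ∈ S n, B n p := by
    rintro φ ⟨h1, h2⟩
    simp only [Dio2, not_forall, not_le] at h2
    obtain ⟨m, hm1, p, hp⟩ := h2
    obtain ⟨n, rfl⟩ : ∃ n, m = n + 1 := ⟨m - 1, by omega⟩
    push_cast at hp
    refine mem_iUnion.2 ⟨n, mem_iUnion₂.2 ⟨p, ?_, h1, hp⟩⟩
    obtain ⟨-, -, w⟩ := sel_window hN hX1 hX h1
    have hg : γ / ((n : ℝ) + 1) ^ 2 ≤ 1 :=
      (div_le_one (by positivity)).2 (hγ1.trans (one_le_pow₀ (hm n)))
    obtain ⟨p1, p2⟩ := abs_lt.1 (hp.trans_le hg)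
    obtain ⟨w1, w2⟩ := abs_le.1 w
    have k1 : 3 * ((n : ℝ) + 1) * X ≤ K n := Nat.le_ceil _
    have f1 := Int.floor_le (((n : ℝ) + 1) * N)
    have f2 := Int.lt_floor_add_one (((n : ℝ) + 1) * N)
    have m1 : 1 ≤ ((n : ℝ) + 1) * X := one_le_mul_of_one_le_of_one_le (hm n) hX1
    have m2 := mul_le_mul_of_nonneg_left w1 (zero_le_one.trans (hm n))
    have m3 := mul_le_mul_of_nonneg_left w2 (zero_le_one.trans (hm n))
    rw [Finset.mem_Icc]
    constructor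
    · have : ((⌊((n : ℝ) + 1) * N⌋ - K n : ℤ) : ℝ) ≤ p := by push_cast; nlinarith
      exact_mod_cast this
    · have : (p : ℝ) ≤ ((⌊((n : ℝ) + 1) * N⌋ + K n : ℤ) : ℝ) := by push_cast; nlinarith
      exact_mod_cast this
  have each : ∀ n, MeasureTheory.volume (⋃ p ∈ S n, B n p) ≤
      ENNReal.ofReal (200 * γ * X / N ^ 2 * (1 / ((n : ℝ) + 1) ^ 2)) := by
    intro n
    refine (MeasureTheory.measure_biUnion_finset_le _ _).trans ?_
    refine (Finset.sum_le_sum fun p _ => sel_piece hN hX1 hX hγ _ (hm n) p).trans ?_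
    rw [Finset.sum_const, nsmul_eq_mul, ← ENNReal.ofReal_natCast,
      ← ENNReal.ofReal_mul (Nat.cast_nonneg _)]
    refine ENNReal.ofReal_le_ofReal ?_
    have hc : (S n).card = 2 * K n + 1 := by
      simp only [S, Int.card_Icc]; omega
    have m1 : 1 ≤ ((n : ℝ) + 1) * X := one_le_mul_of_one_le_of_one_le (hm n) hX1
    have k2 : (K n : ℝ) < 3 * ((n : ℝ) + 1) * X + 1 := Nat.ceil_lt_add_one (by positivity)
    have hc' : ((S n).card : ℝ) ≤ 9 * (((n : ℝ) + 1) * X) := by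
      rw [hc]; push_cast; linarith
    have := hm n
    calc _ ≤ 9 * (((n : ℝ) + 1) * X) * (22 * γ / (((n : ℝ) + 1) ^ 3 * N ^ 2)) :=
          mul_le_mul_of_nonneg_right hc' (by positivity)
      _ = 198 * (γ * X / N ^ 2 * (1 / ((n : ℝ) + 1) ^ 2)) := by field_simp; ring
      _ ≤ 200 * (γ * X / N ^ 2 * (1 / ((n : ℝ) + 1) ^ 2)) :=
          mul_le_mul_of_nonneg_right (by norm_num) (by positivity)
      _ = _ := by ring
  refine (MeasureTheory.measure_mono cover).trans ((MeasureTheory.measure_iUnion_le _).trans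
    ((ENNReal.tsum_le_tsum each).trans ?_))
  rw [← ENNReal.ofReal_tsum_of_nonneg (fun n => by positivity) (hs.mul_left _), tsum_mul_left]
  refine ENNReal.ofReal_le_ofReal ?_
  generalize ∑' n : ℕ, 1 / ((n : ℝ) + 1) ^ 2 = s at *
  have : 0 ≤ γ * X / N ^ 2 := by positivity
  calc _ = 200 * s * (γ * X / N ^ 2) := by ring
    _ ≤ (200 * s + 1) * (γ * X / N ^ 2) := mul_le_mul_of_nonneg_right (by linarith) this
    _ = _ := by ring

end Pool.Agent.Lib.MP_102662_an
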