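import Pool.Agent.Lib.MP_102662_an.Struct
import Pool.Agent.Lib.MP_102662_an.KextA
import Pool.Agent.Lib.MP_102662_an.Margin
import Pool.Agent.Lib.MP_102662_an.Select
import Pool.Agent.Lib.MP_102662_an.Params

open Complex Metric Set Filter Topology

namespace Pool.Agent.Lib.MP_102662_an

theorem window_bounds {N X φ : ℝ} (hN : 400 ≤ N) (hX : X ≤ N)
    (hφ : |φ - 2 * Real.pi / N| ≤ X / N ^ 2) :
    0 < φ ∧ N / 2 ≤ 2 * Real.pi / φ ∧ 2 * Real.pi / φ ≤ 2 * N := by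
  have hN0 : 0 < N := by linarith
  have h1 : X / N ^ 2 ≤ 1 / N := by
    rw [div_le_div_iff₀ (by positivity) hN0]; nlinarith
  have h2 := abs_le.1 (hφ.trans h1)
  have hpi := Real.pi_gt_three
  have e1 : Real.pi / N ≤ φ := by
    have : Real.pi / N ≤ 2 * Real.pi / N - 1 / N := by
      rw [← sub_div]; gcongr; linarith
    linarith [h2.1]
  have e2 : φ ≤ 4 * Real.pi / N := by
    have : 2 * Real.pi / N + 1 / N ≤ 4 * Real.pi / N := by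
      rw [← add_div]; gcongr; linarith
    linarith [h2.2]
  have hφ0 : 0 < φ := lt_of_lt_of_le (by positivity) e1
  refine ⟨hφ0, ?_, ?_⟩
  · rw [le_div_iff₀ hφ0]
    rw [le_div_iff₀ hN0] at e2
    linarith
  · rw [div_le_iff₀ hφ0]
    rw [div_le_iff₀ hN0] at e1
    linarith

theorem circleMap_eq_ee (r : ℝ) {φ : ℝ} (hφ : 0 < φ) :
    circleMap 0 r φ = (r : ℂ) * ee (1 / (2 * Real.pi / φ)) := by
  have hpi : (Real.pi : ℂ) ≠ 0 := ofReal_ne_zero.2 Real.pi_ne_zero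
  have hφ' : (φ : ℂ) ≠ 0 := ofReal_ne_zero.2 hφ.ne'
  rw [circleMap, zero_add, ee]
  congr 2
  push_cast
  field_simp

theorem exp_margin {N P c x : ℝ} (hN : 400 ≤ N) (hP : 10 ≤ P) (hc : 3 ≤ c * P) (hc1 : c ≤ 1)
    (hx : N / 2 ≤ x) : Real.exp (-(2 * Real.pi * c / N)) ≤ 1 - 4 / (P * x) := by
  have hN0 : 0 < N := by linarith
  have hP0 : 0 < P := by linarith
  have hx0 : 0 < x := by linarith
  have hc0 : 0 < c := by
    by_contra h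
    push Not at h
    nlinarith
  have hpi := Real.pi_gt_three
  have hpi4 := Real.pi_lt_four
  set y := 2 * Real.pi * c / N with hy
  have hy0 : 0 < y := by positivity
  have hy1 : y ≤ 1 := by
    rw [hy, div_le_one hN0]; nlinarith
  have h1 : Real.exp (-y) ≤ 1 - y / 2 := by
    rw [Real.exp_neg, ← one_div, div_le_iff₀ (Real.exp_pos _)]
    have := Real.add_one_le_exp y
    nlinarith
  have h2 : 4 / (P * x) ≤ y / 2 := by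
    rw [hy, div_div, div_le_div_iff₀ (by positivity) (by positivity)]
    have h3 : 3 * x ≤ c * P * x := mul_le_mul_of_nonneg_right hc hx0.le
    have h4 : 3 * (c * P * x) ≤ Real.pi * (c * P * x) :=
      mul_le_mul_of_nonneg_right hpi.le (by positivity)
    linarith
  linarith

theorem exit_radius {h : ℂ → ℂ} {U b : ℝ} {w₁ : ℂ} (hw₁ : w₁ ∈ ball (0 : ℂ) U) (h1 : 1 < ‖h w₁‖)
    (hb : ∀ w ∈ ball (0 : ℂ) U, 1 < ‖h w‖ → b ≤ ‖w‖) :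
    ∃ ρ₁ : ℝ, b ≤ ρ₁ ∧ ρ₁ ≤ ‖w₁‖ ∧ (∀ w ∈ ball (0 : ℂ) ρ₁, ‖h w‖ ≤ 1) ∧
      ∀ ε : ℝ, 0 < ε → ∃ w ∈ ball (0 : ℂ) U, ‖w‖ < ρ₁ + ε ∧ 1 < ‖h w‖ := by
  set S : Set ℝ := {s | ∃ w ∈ ball (0 : ℂ) U, ‖w‖ = s ∧ 1 < ‖h w‖} with hS
  have hSne : ‖w₁‖ ∈ S := ⟨_, hw₁, rfl, h1⟩
  have hSlow : ∀ s ∈ S, b ≤ s := by
    rintro s ⟨w, hw, rfl, hw2⟩
    exact hb w hw hw2
  have hSbdd : BddBelow S := ⟨_, hSlow⟩
  refine ⟨sInf S, le_csInf ⟨_, hSne⟩ hSlow, csInf_le hSbdd hSne, ?_, ?_⟩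
  · intro w hw
    by_contra hcon
    push Not at hcon
    rw [mem_ball_zero_iff] at hw
    have hwU : w ∈ ball (0 : ℂ) U := by
      rw [mem_ball_zero_iff] at hw₁ ⊢
      exact hw.trans ((csInf_le hSbdd hSne).trans_lt hw₁)
    exact absurd (csInf_le hSbdd (⟨w, hwU, rfl, hcon⟩ : ‖w‖ ∈ S)) (not_le.2 hw)
  · intro ε hε
    obtain ⟨s, ⟨w, hw, rfl, hw2⟩, hs⟩ := exists_lt_of_csInf_lt ⟨_, hSne⟩
      (show sInf S < sInf S + ε by linarith)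
    exact ⟨w, hw, hs, hw2⟩

theorem setup_aux1 {N P x : ℝ} (hN : 400 ≤ N) (hx1 : N / 2 ≤ x) (hx2 : x ≤ 2 * N)
    (p18 : P ^ 100 ≤ N / 4) (p19 : 1 + Real.log (4 * N) ≤ P) :
    ∀ z : ℝ, |z - x| ≤ 1 → Dio z (1 / P) → Good P z := by
  intro z hz hd
  have := abs_le.1 hz
  refine ⟨by linarith, ?_, hd⟩
  have h1 : Real.log z ≤ Real.log (4 * N) := Real.log_le_log (by linarith) (by linarith)
  linarith

theorem setup_aux2 {P x : ℝ} (hP : 10 ≤ P) (hx : P ^ 100 ≤ x) : P ^ 5 / x ≤ 1 / 10 := by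
  have hP1 : (1 : ℝ) ≤ P := by linarith
  have hx0 : 0 < x := lt_of_lt_of_le (by positivity) hx
  rw [div_le_iff₀ hx0]
  have h1 : P ^ 6 ≤ P ^ 100 := pow_le_pow_right₀ hP1 (by norm_num)
  have h2 : P ^ 5 * 10 ≤ P ^ 5 * P := mul_le_mul_of_nonneg_left hP (by positivity)
  have h3 : P ^ 5 * P = P ^ 6 := by ring
  linarith

theorem setup_aux3 {N x : ℝ} (hN : 400 ≤ N) (hx0 : 0 < x) (hx2 : x ≤ 2 * N) :
    1 - 1 / x ^ 2 ≤ 1 - 1 / N ^ 3 := by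
  have : 1 / N ^ 3 ≤ 1 / x ^ 2 := by
    apply one_div_le_one_div_of_le (by positivity)
    have h1 : x ^ 2 ≤ (2 * N) ^ 2 := pow_le_pow_left₀ hx0.le hx2 2
    have h2 : N ^ 2 * 4 ≤ N ^ 2 * N := mul_le_mul_of_nonneg_left (by linarith) (by positivity)
    nlinarith
  linarith

theorem setup_aux4 {N Q γ x l : ℝ} (hN : 400 ≤ N) (hx0 : 0 < x) (hx2 : x ≤ 2 * N) (hQ : 0 < Q)
    (hγ : 0 < γ) (p23 : 2 * Q ^ 4 ≤ γ ^ 2 * N) (hl1 : γ / Q ^ 2 ≤ l) :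
    1 - 2 * l ^ 2 / x ^ 2 ≤ 1 - 1 / N ^ 3 := by
  have hN0 : 0 < N := by linarith
  have : 1 / N ^ 3 ≤ 2 * l ^ 2 / x ^ 2 := by
    have h1 : x ^ 2 ≤ (2 * N) ^ 2 := pow_le_pow_left₀ hx0.le hx2 2
    have h2 : (γ / Q ^ 2) ^ 2 ≤ l ^ 2 := pow_le_pow_left₀ (by positivity) hl1 2
    have h3 : 2 / N ≤ (γ / Q ^ 2) ^ 2 := by
      rw [div_pow, ← pow_mul, div_le_div_iff₀ hN0 (by positivity)]
      exact p23
    calc 1 / N ^ 3 = 2 * (2 / N) / (2 * N) ^ 2 := by field_simp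
      _ ≤ 2 * l ^ 2 / x ^ 2 := by
        apply div_le_div₀ (by positivity) (by linarith) (by positivity) h1
  linarith

theorem setup_aux5 {N a b x l z : ℝ} (hN : 400 ≤ N) (hx1 : N / 2 ≤ x) (ha : 0 < a) (hb : 0 < b)
    (p24 : 4 * a / N ≤ b ^ 20) (hl1 : b ≤ l) (hz : |z - x| ≤ 1) : a / z ≤ l ^ 20 := by
  have hz1 := abs_le.1 hz
  have hN0 : 0 < N := by linarith
  have hz0 : 0 < z := by linarith
  have h1 : a / z ≤ 4 * a / N := by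
    rw [div_le_div_iff₀ hz0 hN0]
    have : a * N ≤ a * (4 * z) := mul_le_mul_of_nonneg_left (by linarith) ha.le
    linarith
  exact h1.trans (p24.trans (pow_le_pow_left₀ hb.le hl1 20))

/-- A Diophantine parameter at which the linearizer leaves the unit disc early. -/
theorem setup {Cf : ℝ} (hCf : 1 ≤ Cf) (P₁ : ℝ) (A : ℕ) :
    ∃ (P γ x r U ρ₁ : ℝ) (lam0 : ℂ) (h₀ : ℂ → ℂ), P₁ ≤ P ∧ 10 ≤ P ∧ 0 < γ ∧ γ ≤ 1 ∧ Dio2 x γ ∧
      200 ≤ x ∧ (A : ℝ) ≤ 2 * P ^ 60 ∧ 1 / P ≤ γ ^ 2 / Cf ∧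
      (∀ z : ℝ, |z - x| ≤ 1 → Dio z (1 / P) → Good P z) ∧ Good P x ∧
      (∀ l : ℝ, γ / (2 * P ^ 60) ^ 2 ≤ l → 1 - 2 * l ^ 2 / x ^ 2 ≤ r) ∧ r ≤ 1 ∧
      (∀ l z : ℝ, γ / (2 * P ^ 60) ^ 2 ≤ l → |z - x| ≤ 1 → P ^ 206 / z ≤ l ^ 20) ∧
      lam0 = (r : ℂ) * ee (1 / x) ∧ Lin (fun z => lam0 * koebe z) lam0 h₀ U ∧
      InjOn h₀ (ball 0 U) ∧ 3 / (2 * x) ≤ ρ₁ ∧ ρ₁ ≤ U * (1 - 4 / (P * x)) ∧
      (∀ w ∈ ball (0 : ℂ) ρ₁, ‖h₀ w‖ ≤ 1) ∧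
      ∀ ε : ℝ, 0 < ε → ∃ w ∈ ball (0 : ℂ) U, ‖w‖ < ρ₁ + ε ∧ 1 < ‖h₀ w‖ := by
  obtain ⟨P₂, hSt⟩ := struct_koebe
  obtain ⟨c₁, N₀, hc₁, hM⟩ := margin
  obtain ⟨Cs, hCs, hSel⟩ := measure_not_dio2
  have hex : ∀ lam : ℂ, ∃ (η : ℂ) (h : ℂ → ℂ), lam ∈ ball (0 : ℂ) 1 → KExt lam η h := by
    intro lam
    by_cases hl : lam ∈ ball (0 : ℂ) 1
    · obtain ⟨η, h, H⟩ := kext_exists (mem_ball_zero_iff.1 hl)
      exact ⟨η, h, fun _ => H⟩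
    · exact ⟨0, id, fun h => absurd h hl⟩
  choose η h hK using hex
  obtain ⟨N, P, T, c, X, μ, γ, p1, p2, p3, p4, p5, p6, p7, p8, p9, p10, p11, p12, p13, p14, p15,
    p16, p17, p18, p19, p20, p21, p22, p23, p24⟩ := params hc₁ hCs hCf N₀ A (max P₁ P₂)
  have hN0 : (0 : ℝ) < N := lt_of_lt_of_le (by norm_num) p2
  have hP0 : 0 < P := lt_of_lt_of_le (by norm_num) p17
  have hδ0 : (0 : ℝ) < 1 / (N : ℝ) ^ 3 := by positivity
  have hδ1 : 1 / (N : ℝ) ^ 3 ≤ 1 := by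
    rw [div_le_one (by positivity)]; exact one_le_pow₀ (le_trans (by norm_num) p2)
  have hvol := hM η h hK N p1 T c X μ _ p3 p4 p5 p6 p7 p8 p9 p10 hδ0 le_rfl
  have hsel := hSel N X γ (le_trans (by norm_num) p2) p11 p8 p12 p13
  obtain ⟨φ, ⟨hφ, t, ht, hth⟩, hdio⟩ : ∃ φ : ℝ, (|φ - 2 * Real.pi / N| ≤ X / N ^ 2 ∧
      ∃ t : ℂ, ‖t‖ ≤ Real.exp (-(2 * Real.pi * c / N)) ∧
        1 < ‖h (circleMap 0 (1 - 1 / (N : ℝ) ^ 3) φ)
          (t * η (circleMap 0 (1 - 1 / (N : ℝ) ^ 3) φ))‖) ∧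
      Dio2 (2 * Real.pi / φ) γ := by
    by_contra hcon
    push Not at hcon
    have hsub := MeasureTheory.measure_mono (μ := MeasureTheory.volume)
      (show {φ : ℝ | |φ - 2 * Real.pi / N| ≤ X / N ^ 2 ∧
        ∃ t : ℂ, ‖t‖ ≤ Real.exp (-(2 * Real.pi * c / N)) ∧
          1 < ‖h (circleMap 0 (1 - 1 / (N : ℝ) ^ 3) φ)
            (t * η (circleMap 0 (1 - 1 / (N : ℝ) ^ 3) φ))‖} ⊆
        {φ : ℝ | |φ - 2 * Real.pi / N| ≤ X / N ^ 2 ∧ ¬ Dio2 (2 * Real.pi / φ) γ} from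
        fun φ hφ => ⟨hφ.1, hcon φ hφ⟩)
    have h2 : ENNReal.ofReal (Cs * γ * X / N ^ 2) ≤ ENNReal.ofReal (μ / N ^ 2) :=
      ENNReal.ofReal_le_ofReal (div_le_div_of_nonneg_right p14 (by positivity))
    exact absurd (hvol.trans_le (hsub.trans (hsel.trans h2))) (lt_irrefl _)
  clear hvol hsel hM hSel p1 p3 p4 p5 p6 p7 p9 p10 p11 p14
  obtain ⟨hφ0, hx1, hx2⟩ := window_bounds p2 p8 hφ
  have hlam := circleMap_eq_ee (1 - 1 / (N : ℝ) ^ 3) hφ0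
  generalize 2 * Real.pi / φ = x at hx1 hx2 hlam hdio
  have hlam1 : circleMap 0 (1 - 1 / (N : ℝ) ^ 3) φ ∈ ball (0 : ℂ) 1 := by
    rw [mem_ball_zero_iff, norm_circleMap_zero, abs_of_nonneg (sub_nonneg.2 hδ1)]
    exact sub_lt_self _ hδ0
  generalize circleMap 0 (1 - 1 / (N : ℝ) ^ 3) φ = lam0 at hlam hlam1 hth
  have hx200 : 200 ≤ x := by linarith
  have hx0 : 0 < x := by linarith
  have HK := hK lam0 hlam1
  have hU0 : 0 < ‖η lam0‖ := norm_pos_iff.2 HK.ne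
  have hγP : 1 / P ≤ γ := by
    refine p20.trans ((div_le_self (by positivity) hCf).trans ?_)
    rw [sq]; exact mul_le_of_le_one_right p12.le p13
  have hgood := setup_aux1 p2 hx1 hx2 p18 p19
  have hgx : Good P x := hgood x (by simp) ((dio_of_dio2 p12.le hdio).mono hγP)
  have hP5 := setup_aux2 p17 hgx.1
  have hr0 := setup_aux3 p2 hx0 hx2
  have hr1 : 1 - 1 / (N : ℝ) ^ 3 ≤ 1 := sub_le_self _ hδ0.le
  have hst := (hSt P ((le_max_right _ _).trans p16) x _ hgx hr0 hr1 lam0 (h lam0) _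
    hlam HK.lin HK.inj).2.1
  have hR := norm_ustar_bounds (le_trans (by norm_num) hx200) hr0 hr1
  rw [← hlam] at hR
  have hexp := exp_margin p2 p17 p21 p22 hx1
  have hw1 : ‖t * η lam0‖ ≤ ‖η lam0‖ * (1 - 4 / (P * x)) := by
    rw [norm_mul, mul_comm]
    exact mul_le_mul_of_nonneg_left (ht.trans hexp) hU0.le
  have hw1' : t * η lam0 ∈ ball (0 : ℂ) ‖η lam0‖ := by
    rw [mem_ball_zero_iff]
    exact hw1.trans_lt (mul_lt_of_lt_one_right hU0 (sub_lt_self _ (by positivity)))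
  obtain ⟨ρ₁, r1, r2, r3, r4⟩ := exit_radius (b := 3 / (2 * x)) hw1' hth (by
    intro w hw hw2
    by_contra hcon
    push Not at hcon
    have h1 : ‖2 / (1 - lam0)‖ * ‖w‖ ≤ x / 2 * (3 / (2 * x)) :=
      mul_le_mul hR.2 hcon.le (norm_nonneg _) (by positivity)
    have h2 : x / 2 * (3 / (2 * x)) = 3 / 4 := by field_simp; norm_num
    have h3 := hst w hw (by rw [h2] at h1; exact h1.trans (by linarith only [hP5]))
    linarith only [h3, hw2])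
  exact ⟨P, γ, x, _, _, ρ₁, lam0, h lam0, (le_max_left _ _).trans p16, p17, p12, p13, hdio, hx200,
    p15, p20, hgood, hgx, fun l hl => setup_aux4 p2 hx0 hx2 (by positivity) p12 p23 hl, hr1,
    fun l z hl hz => setup_aux5 p2 hx1 (by positivity) (by positivity) p24 hl hz, hlam, HK.lin,
    HK.inj, r1, r2.trans hw1, r3, r4⟩

end Pool.Agent.Lib.MP_102662_an
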