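import Pool.Agent.Lib.MP_102662_an.Both
import Pool.Agent.Lib.MP_102662_an.Setup
import Pool.Agent.Lib.MP_102662_an.CFc

open Complex Metric Set Filter Topology

namespace Pool.Agent.Lib.MP_102662_an

theorem main_aux1 {x x' x'' l : ℝ} (hx0 : 0 < x) (a3 : x / 2 ≤ x') (b3 : x / 2 ≤ x'')
    (hx' : |x' - x| ≤ 2 * l ^ 2) (hx'' : |x'' - x| ≤ 2 * l ^ 2) :
    |1 / x' - 1 / x''| ≤ 16 * (l / x) ^ 2 := by
  have hx'0 : 0 < x' := by linarith
  have hx''0 : 0 < x'' := by linarith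
  have h1 : |x'' - x'| ≤ 4 * l ^ 2 := by
    have := abs_sub_le x'' x x'
    rw [abs_sub_comm x x'] at this
    linarith
  have h2 : x / 2 * (x / 2) ≤ x' * x'' := mul_le_mul a3 b3 (by positivity) hx'0.le
  have e : 1 / x' - 1 / x'' = (x'' - x') / (x' * x'') := by field_simp
  rw [e, abs_div, abs_of_pos (mul_pos hx'0 hx''0)]
  calc |x'' - x'| / (x' * x'') ≤ 4 * l ^ 2 / (x / 2 * (x / 2)) :=
        div_le_div₀ (by positivity) h1 (by positivity) h2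
    _ = 16 * (l / x) ^ 2 := by field_simp; ring

theorem main_pair : ∃ C : ℝ, 1 ≤ C ∧ ∀ A : ℕ, ∃ θ' θ'' β ρ : ℝ, θ' ∈ Ico (0 : ℝ) 1 ∧
    θ'' ∈ Ico (0 : ℝ) 1 ∧ Irrational θ' ∧ Irrational θ'' ∧ Summable (bterm θ') ∧
    Summable (bterm θ'') ∧ 0 < β ∧ 0 < ρ ∧ |θ' - θ''| ≤ C * β ^ 2 ∧
    β * ((A : ℝ) - C) ≤ ∑' n, bterm θ' n - ∑' n, bterm θ'' n ∧
    ENNReal.ofReal (ρ * Real.exp (-(C * β))) ≤ rr θ' ∧ rr θ' < ⊤ ∧ 0 < rr θ'' ∧
    rr θ'' ≤ ENNReal.ofReal (ρ * Real.exp (C * β)) := by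
  obtain ⟨P₁, hB⟩ := both_bounds
  obtain ⟨Cf, hCf, hCF⟩ := cf_pair
  refine ⟨30 + Cf, by linarith, fun A => ?_⟩
  obtain ⟨P, γ, x, r, U, ρ₁, lam0, h₀, q1, q2, p12, p13, hdio, hx200, p15, p20, hgood, hgx, q3, q4,
    q5, hlam, HL, hinj, hρlow, hρup, hin, hout⟩ := setup hCf P₁ ⌈Real.exp (Cf * A)⌉₊
  have hx0 : 0 < x := by linarith
  have hP1 : (1 : ℝ) ≤ P := by linarith
  have hρ0 : 0 < ρ₁ := lt_of_lt_of_le (by positivity) hρlow
  have hP60 : (1 : ℝ) ≤ P ^ 60 := one_le_pow₀ hP1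
  have hA1 : 1 ≤ ⌈Real.exp (Cf * A)⌉₊ := Nat.one_le_ceil_iff.2 (Real.exp_pos _)
  obtain ⟨x', x'', l, hl1, hl2, hx', hx'', hd', hd'', hs', hs'', hBr⟩ :=
    hCF x γ (2 * P ^ 60) _ (by linarith) p12 p13 hdio (by linarith) hA1 p15
  have hl0 : 0 < l := lt_of_lt_of_le (by positivity) hl1
  have hlP : 2 * l * P ^ 60 ≤ 1 := by
    rw [le_div_iff₀ (by positivity)] at hl2; linarith only [hl2]
  have hlh : l ≤ 1 / 2 :=
    hl2.trans (one_div_le_one_div_of_le (by norm_num) (by linarith only [hP60]))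
  have hl3 : 2 * l ^ 2 ≤ 1 := by nlinarith only [hlh, hl0]
  have key : ∀ z : ℝ, |z - x| ≤ 2 * l ^ 2 → Dio z (γ ^ 2 / Cf) →
      (1 / z ∈ Ico (0 : ℝ) 1 ∧ Irrational (1 / z) ∧ x / 2 ≤ z) ∧
      ENNReal.ofReal (ρ₁ * Real.exp (-(30 * (l / x)))) ≤ rr (1 / z) ∧
      rr (1 / z) ≤ ENNReal.ofReal (ρ₁ * Real.exp (l / x)) := by
    intro z hz hd
    have hz1 := abs_le.1 (hz.trans hl3)
    have hz0 : 0 < z := by linarith only [hz1.1, hx200]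
    have hgz : Good P z := hgood z (hz.trans hl3) (hd.mono p20)
    refine ⟨⟨⟨by positivity, ?_⟩, ?_, by linarith only [hz1.1, hx200]⟩, ?_⟩
    · rw [div_lt_one hz0]; linarith only [hz1.1, hx200]
    · rw [one_div]; exact (irrational_of_dio (by positivity) hd).inv
    · exact hB P q1 x z r l hgx hgz hl0 hlP hz (q3 l hl1) q4 (q5 l z hl1 (hz.trans hl3))
        lam0 h₀ U ρ₁ hlam HL hinj hρlow hρup hin hout
  obtain ⟨⟨a1, a2', a3⟩, a4, a5⟩ := key x' hx' hd'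
  obtain ⟨⟨b1, b2, b3⟩, b4, b5⟩ := key x'' hx'' hd''
  have hβ0 : 0 < l / x := by positivity
  have hCβ : 0 ≤ Cf * (l / x) := by positivity
  refine ⟨1 / x', 1 / x'', l / x, ρ₁, a1, b1, a2', b2, hs', hs'', hβ0, hρ0, ?_, ?_, ?_, ?_, ?_, ?_⟩
  · exact (main_aux1 hx0 a3 b3 hx' hx'').trans
      (mul_le_mul_of_nonneg_right (by linarith only [hCf]) (by positivity))
  · refine le_trans (mul_le_mul_of_nonneg_left ?_ hβ0.le) hBr
    have h1 : Cf * A ≤ Real.log (⌈Real.exp (Cf * A)⌉₊ : ℕ) := by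
      rw [Real.le_log_iff_exp_le (by exact_mod_cast hA1)]
      exact Nat.le_ceil _
    have h2 : (A : ℝ) ≤ Real.log (⌈Real.exp (Cf * A)⌉₊ : ℕ) / Cf := by
      rw [le_div_iff₀ (by linarith only [hCf])]; linarith only [h1]
    linarith only [h2]
  · refine le_trans (ENNReal.ofReal_le_ofReal ?_) a4
    apply mul_le_mul_of_nonneg_left _ hρ0.le
    apply Real.exp_le_exp.2
    linarith only [hCβ]
  · exact lt_of_le_of_lt a5 ENNReal.ofReal_lt_top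
  · exact lt_of_lt_of_le (ENNReal.ofReal_pos.2 (by positivity)) b4
  · refine b5.trans (ENNReal.ofReal_le_ofReal ?_)
    apply mul_le_mul_of_nonneg_left _ hρ0.le
    apply Real.exp_le_exp.2
    linarith only [hCβ, hβ0]

end Pool.Agent.Lib.MP_102662_an
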