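import Pool.Agent.Lib.MP_102662_an.FbDefs
import Pool.Agent.Lib.MP_102662_an.Main

/-! Comparison of the definitions through convergents and power series with those of the library. -/

set_option autoImplicit false

namespace Pool.Agent.Lib.MP_102662_an.Fb

open Set
open scoped ENNReal NNReal

theorem stream_eq {θ : ℝ} (h : θ ∈ Ioo (0 : ℝ) 1) (hi : Irrational θ) (n : ℕ) :
    ∃ p, GenContFract.IntFractPair.stream θ n = some p ∧ p.fr = gauss^[n] θ := by
  induction n with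
  | zero =>
    exact ⟨_, GenContFract.IntFractPair.stream_zero θ, Int.fract_eq_self.2 ⟨h.1.le, h.2⟩⟩
  | succ n ih =>
    obtain ⟨p, hp, hf⟩ := ih
    have h0 : p.fr ≠ 0 := by
      rw [hf]
      exact (cfa_seq h hi n).1.1.ne'
    refine ⟨_, GenContFract.IntFractPair.stream_succ_of_some hp h0, ?_⟩
    rw [Function.iterate_succ_apply', ← hf, gauss, one_div]
    rfl

theorem cont_eq {θ : ℝ} (h : θ ∈ Ioo (0 : ℝ) 1) (hi : Irrational θ) (n : ℕ) :
    ((GenContFract.of θ).contsAux (n + 1)).b * θ - ((GenContFract.of θ).contsAux (n + 1)).a =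
      -(gauss^[n] θ) *
        (((GenContFract.of θ).contsAux n).b * θ - ((GenContFract.of θ).contsAux n).a) := by
  induction n with
  | zero =>
    have h1 : ⌊θ⌋ = 0 := Int.floor_eq_zero_iff.2 ⟨h.1.le, h.2⟩
    simp [GenContFract.of_h_eq_floor, h1]
  | succ n ih =>
    obtain ⟨p, hp, hf⟩ := stream_eq h hi n
    have h1 : gauss^[n] θ ≠ 0 := (cfa_seq h hi n).1.1.ne'
    have h2 := GenContFract.get?_of_eq_some_of_get?_intFractPair_stream_fr_ne_zero hp (hf ▸ h1)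
    rw [GenContFract.contsAux_recurrence h2 rfl rfl, Function.iterate_succ_apply', hf]
    set x := gauss^[n] θ
    have h3 : gauss x = x⁻¹ - ((GenContFract.IntFractPair.of x⁻¹).b : ℝ) := by
      rw [gauss, one_div]
      rfl
    have h4 : x⁻¹ * x = 1 := inv_mul_cancel₀ h1
    rw [h3]
    simp only
    linear_combination x⁻¹ * ih - (((GenContFract.of θ).contsAux n).b * θ -
      ((GenContFract.of θ).contsAux n).a) * h4

theorem err_eq {θ : ℝ} (h : θ ∈ Ioo (0 : ℝ) 1) (hi : Irrational θ) (n : ℕ) :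
    err θ n = (-1) ^ n * ∏ j ∈ Finset.range (n + 1), gauss^[j] θ := by
  induction n with
  | zero =>
    have h1 : ⌊θ⌋ = 0 := Int.floor_eq_zero_iff.2 ⟨h.1.le, h.2⟩
    simp [err, GenContFract.of_h_eq_floor, h1]
  | succ n ih =>
    have h1 : err θ (n + 1) = -(gauss^[n + 1] θ) * err θ n := cont_eq h hi (n + 1)
    rw [h1, ih, Finset.prod_range_succ _ (n + 1)]
    ring

theorem brjunoTerm_eq {θ : ℝ} (h : θ ∈ Ioo (0 : ℝ) 1) (hi : Irrational θ) :
    brjunoTerm θ = bterm θ := by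
  funext n
  change _ = (∏ j ∈ Finset.range n, gauss^[j] θ) * Real.log (1 / gauss^[n] θ)
  rcases n with _ | n
  · simp [brjunoTerm, betaPrev, alpha]
  · have h0 : ∏ j ∈ Finset.range (n + 1), gauss^[j] θ ≠ 0 :=
      Finset.prod_ne_zero_iff.2 fun j _ => (cfa_seq h hi j).1.1.ne'
    have h1 : betaPrev θ (n + 1) = ∏ j ∈ Finset.range (n + 1), gauss^[j] θ := by
      rw [betaPrev, if_neg n.succ_ne_zero, Nat.add_sub_cancel, err_eq h hi, ← mul_assoc, ← mul_pow]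
      simp
    have h2 : alpha θ (n + 1) = gauss^[n + 1] θ := by
      rw [alpha, if_neg n.succ_ne_zero, Nat.add_sub_cancel, err_eq h hi, err_eq h hi,
        Finset.prod_range_succ _ (n + 1), pow_succ]
      have h3 : ((-1 : ℝ)) ^ n ≠ 0 := pow_ne_zero _ (by norm_num)
      field_simp
    rw [brjunoTerm, h1, h2]

theorem coeff_subst_eq (F : PowerSeries ℂ) {a : ℕ → ℂ} (h0 : a 0 = 0) (n : ℕ) :
    PowerSeries.coeff n (F.subst (PowerSeries.mk a)) = ∑ k ∈ Finset.range (n + 1),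
      PowerSeries.coeff k F * ∑ t ∈ Finset.Nat.antidiagonalTuple k n, ∏ i, a (t i) := by
  have h1 : PowerSeries.constantCoeff (PowerSeries.mk a) = 0 := by simpa using h0
  rw [PowerSeries.coeff_subst' (PowerSeries.HasSubst.of_constantCoeff_zero' h1),
    finsum_eq_sum_of_support_subset (s := Finset.range (n + 1))]
  · exact Finset.sum_congr rfl fun k _ => by rw [smul_eq_mul, coeff_pow_tuple]
  · intro k hk
    by_contra hk'
    have h2 : n < k := by simpa using hk'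
    have h3 : PowerSeries.X ^ k ∣ PowerSeries.mk a ^ k :=
      pow_dvd_pow_of_dvd (PowerSeries.X_dvd_iff.2 h1) k
    exact hk (by simp only [PowerSeries.X_pow_dvd_iff.1 h3 n h2, smul_zero])

theorem isLinearization_iff (f : ℂ → ℂ) (lam : ℂ) (a : ℕ → ℂ) :
    IsLinearization f lam (PowerSeries.mk a) ↔ a 0 = 0 ∧ a 1 = 1 ∧ ∀ n : ℕ,
      ∑ k ∈ Finset.range (n + 1), iteratedDeriv k f 0 / (k.factorial : ℂ) *
        ∑ t ∈ Finset.Nat.antidiagonalTuple k n, ∏ i, a (t i) = lam ^ n * a n := by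
  simp only [IsLinearization, PowerSeries.coeff_mk]
  refine and_congr_right fun h0 => and_congr_right fun _ => ?_
  rw [PowerSeries.ext_iff]
  refine forall_congr' fun n => ?_
  rw [coeff_subst_eq _ h0, PowerSeries.coeff_rescale, PowerSeries.coeff_mk]
  simp only [taylor, PowerSeries.coeff_mk]

theorem radius_mk (a : ℕ → ℂ) : radius (PowerSeries.mk a) =
    ⨆ (ρ : ℝ≥0) (_ : ∃ D : ℝ, ∀ n : ℕ, ‖a n‖ * (ρ : ℝ) ^ n ≤ D), (ρ : ℝ≥0∞) := by
  simp only [radius, FormalMultilinearSeries.radius, FormalMultilinearSeries.ofScalars_norm,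
    PowerSeries.coeff_mk, iSup_exists]

theorem minRadius_eq (θ : ℝ) : minRadius θ = rr θ := by
  apply le_antisymm
  · refine le_iInf fun f => le_iInf fun hf => le_iInf fun a => le_iInf fun ha => sInf_le ?_
    exact ⟨f, PowerSeries.mk a, hf.1, hf.2.1, hf.2.2.1, hf.2.2.2,
      (isLinearization_iff _ _ _).2 ha, (radius_mk a).symm⟩
  · refine le_sInf ?_
    rintro ρ ⟨f, h, h1, h2, h3, h4, h5, rfl⟩
    obtain ⟨a, rfl⟩ : ∃ a, h = PowerSeries.mk a :=
      ⟨fun n => PowerSeries.coeff n h, by ext n; simp⟩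
    rw [radius_mk]
    exact iInf_le_of_le f (iInf_le_of_le ⟨h1, h2, h3, h4⟩ (iInf_le_of_le a
      (iInf_le_of_le ((isLinearization_iff _ _ _).1 h5) le_rfl)))

theorem not_holder (K : ℝ) : ∃ θ₁ θ₂ B₁ B₂ r₁ r₂ : ℝ, θ₁ ∈ Ioo (0 : ℝ) 1 ∧ θ₂ ∈ Ioo (0 : ℝ) 1 ∧
    Irrational θ₁ ∧ Irrational θ₂ ∧ HasSum (brjunoTerm θ₁) B₁ ∧ HasSum (brjunoTerm θ₂) B₂ ∧
    0 < r₁ ∧ 0 < r₂ ∧ minRadius θ₁ = ENNReal.ofReal r₁ ∧ minRadius θ₂ = ENNReal.ofReal r₂ ∧
    K * √|θ₁ - θ₂| < (Real.log r₁ + B₁) - (Real.log r₂ + B₂) := by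
  obtain ⟨C, hC, hmain⟩ := main_pair
  obtain ⟨A, hA⟩ := exists_nat_gt (3 * C + |K| * √C)
  obtain ⟨θ₁, θ₂, β, ρ, h1, h2, hi1, hi2, hs1, hs2, hβ, hρ, hd, hB, hlo, hfin, hpos, hup⟩ :=
    hmain A
  have g1 : θ₁ ∈ Ioo (0 : ℝ) 1 := ⟨lt_of_le_of_ne h1.1 (Ne.symm hi1.ne_zero), h1.2⟩
  have g2 : θ₂ ∈ Ioo (0 : ℝ) 1 := ⟨lt_of_le_of_ne h2.1 (Ne.symm hi2.ne_zero), h2.2⟩
  have hp : 0 < ρ * Real.exp (-(C * β)) := by positivity
  have k1 := (ENNReal.ofReal_le_iff_le_toReal hfin.ne).1 hlo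
  have hne : rr θ₂ ≠ ⊤ := ne_top_of_le_ne_top ENNReal.ofReal_ne_top hup
  have k2 : 0 < (rr θ₂).toReal := ENNReal.toReal_pos hpos.ne' hne
  refine ⟨θ₁, θ₂, ∑' n, bterm θ₁ n, ∑' n, bterm θ₂ n, (rr θ₁).toReal, (rr θ₂).toReal, g1, g2,
    hi1, hi2, brjunoTerm_eq g1 hi1 ▸ hs1.hasSum, brjunoTerm_eq g2 hi2 ▸ hs2.hasSum,
    hp.trans_le k1, k2, by rw [minRadius_eq, ENNReal.ofReal_toReal hfin.ne],
    by rw [minRadius_eq, ENNReal.ofReal_toReal hne], ?_⟩
  have l1 : Real.log ρ - C * β ≤ Real.log (rr θ₁).toReal := by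
    have h3 := Real.log_le_log hp k1
    rw [Real.log_mul hρ.ne' (Real.exp_pos _).ne', Real.log_exp] at h3
    linarith
  have l2 : Real.log (rr θ₂).toReal ≤ Real.log ρ + C * β := by
    have h3 := Real.log_le_log k2 (ENNReal.toReal_le_of_le_ofReal (by positivity) hup)
    rw [Real.log_mul hρ.ne' (Real.exp_pos _).ne', Real.log_exp] at h3
    linarith
  have h6 : √|θ₁ - θ₂| ≤ √C * β := by
    have : √C * β = √(C * β ^ 2) := by
      rw [Real.sqrt_mul (by linarith), Real.sqrt_sq hβ.le]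
    rw [this]
    exact Real.sqrt_le_sqrt hd
  have h7 : K * √|θ₁ - θ₂| ≤ |K| * (√C * β) :=
    (mul_le_mul_of_nonneg_right (le_abs_self K) (Real.sqrt_nonneg _)).trans
      (mul_le_mul_of_nonneg_left h6 (abs_nonneg _))
  have h10 : 0 < β * ((A : ℝ) - 3 * C - |K| * √C) := mul_pos hβ (by linarith)
  nlinarith

end Pool.Agent.Lib.MP_102662_an.Fb
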