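import Pool.Agent.Lib.MP_102662_an.Defs

open Complex Metric Set Filter Topology

namespace Pool.Agent.Lib.MP_102662_an

/-- The Taylor series at the origin. -/
noncomputable def tay (f : ℂ → ℂ) : PowerSeries ℂ :=
  PowerSeries.mk fun n => iteratedDeriv n f 0 / (n.factorial : ℂ)

theorem coeff_tay (f : ℂ → ℂ) (n : ℕ) :
    PowerSeries.coeff n (tay f) = iteratedDeriv n f 0 / (n.factorial : ℂ) := by
  simp [tay]

theorem tay_congr {f g : ℂ → ℂ} (h : ∀ᶠ z in 𝓝 (0 : ℂ), f z = g z) : tay f = tay g := by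
  ext n
  rw [coeff_tay, coeff_tay, Filter.EventuallyEq.iteratedDeriv_eq n h]

theorem tay_mul {f g : ℂ → ℂ} (hf : AnalyticAt ℂ f 0) (hg : AnalyticAt ℂ g 0) :
    tay (fun z => f z * g z) = tay f * tay g := by
  ext n
  simp only [coeff_tay, iteratedDeriv_fun_mul hf.contDiffAt hg.contDiffAt, PowerSeries.coeff_mul,
    Finset.Nat.sum_antidiagonal_eq_sum_range_succ_mk, Nat.succ_eq_add_one, Finset.sum_div]
  refine Finset.sum_congr rfl fun i hi => ?_
  rw [Nat.cast_choose _ (by grind)]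
  field_simp [Nat.factorial_ne_zero]

theorem tay_const_add (c : ℂ) {f : ℂ → ℂ} (hf : AnalyticAt ℂ f 0) :
    tay (fun z => c + f z) = PowerSeries.C c + tay f := by
  ext n
  rw [map_add, coeff_tay, coeff_tay, iteratedDeriv_fun_add contDiffAt_const hf.contDiffAt,
    iteratedDeriv_const, PowerSeries.coeff_C, add_div]
  split_ifs with h
  · simp [h]
  · simp

theorem tay_lin (c : ℂ) : tay (fun z => c * z) = PowerSeries.C c * PowerSeries.X := by
  ext n
  rw [coeff_tay, iteratedDeriv_const_mul_field, iteratedDeriv_fun_id_zero,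
    PowerSeries.coeff_C_mul, PowerSeries.coeff_X]
  split_ifs with h
  · simp [h]
  · simp

theorem analyticAt_dslope {f : ℂ → ℂ} (hf : AnalyticAt ℂ f 0) : AnalyticAt ℂ (dslope f 0) 0 := by
  obtain ⟨p, hp⟩ := hf
  exact ⟨_, hp.has_fpower_series_dslope_fslope⟩

theorem tay_comp_aux {h : ℂ → ℂ} (hh : AnalyticAt ℂ h 0) (h0 : h 0 = 0) (N : ℕ) :
    ∀ f : ℂ → ℂ, AnalyticAt ℂ f 0 → ∃ R : PowerSeries ℂ, tay (fun z => f (h z)) =
      ∑ k ∈ Finset.range N, PowerSeries.C (PowerSeries.coeff k (tay f)) * tay h ^ k +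
        tay h ^ N * R := by
  induction N with
  | zero => exact fun f _ => ⟨tay (fun z => f (h z)), by simp⟩
  | succ N ih =>
    intro f hf
    have hg := analyticAt_dslope hf
    obtain ⟨R, hR⟩ := ih _ hg
    have e : ∀ z, f z = f 0 + z * dslope f 0 z := fun z => by
      have := sub_smul_dslope f 0 z
      rw [sub_zero, smul_eq_mul] at this
      rw [this]
      ring
    have hid : AnalyticAt ℂ (fun z : ℂ => z) 0 := analyticAt_id
    have hgh : AnalyticAt ℂ (fun z => dslope f 0 (h z)) 0 := AnalyticAt.comp_of_eq hg hh h0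
    have e1 : tay f = PowerSeries.C (f 0) + PowerSeries.X * tay (dslope f 0) := by
      have e3 := tay_lin 1
      simp only [one_mul, map_one] at e3
      rw [← e3, ← tay_mul hid hg, ← tay_const_add _ (hid.fun_mul hg)]
      exact congrArg tay (funext e)
    have e2 : tay (fun z => f (h z)) =
        PowerSeries.C (f 0) + tay h * tay (fun z => dslope f 0 (h z)) := by
      rw [← tay_mul hh hgh, ← tay_const_add _ (hh.fun_mul hgh)]
      exact congrArg tay (funext fun z => e (h z))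
    refine ⟨R, ?_⟩
    rw [e2, hR, Finset.sum_range_succ', mul_add, Finset.mul_sum]
    have e4 : ∀ k, PowerSeries.coeff (k + 1) (tay f) = PowerSeries.coeff k (tay (dslope f 0)) := by
      intro k
      rw [e1, map_add, PowerSeries.coeff_succ_X_mul, PowerSeries.coeff_C]
      simp
    have e5 : PowerSeries.coeff 0 (tay f) = f 0 := by simp [coeff_tay]
    simp only [e4, e5]
    rw [Finset.sum_congr rfl fun k _ => show tay h * (PowerSeries.C (PowerSeries.coeff k
      (tay (dslope f 0))) * tay h ^ k) = PowerSeries.C (PowerSeries.coeff k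
      (tay (dslope f 0))) * tay h ^ (k + 1) by ring]
    ring

theorem coeff_tay_comp {f h : ℂ → ℂ} (hf : AnalyticAt ℂ f 0) (hh : AnalyticAt ℂ h 0)
    (h0 : h 0 = 0) (n : ℕ) : PowerSeries.coeff n (tay (fun z => f (h z))) =
      ∑ k ∈ Finset.range (n + 1), PowerSeries.coeff k (tay f) * PowerSeries.coeff n (tay h ^ k) := by
  obtain ⟨R, hR⟩ := tay_comp_aux hh h0 (n + 1) f hf
  have hX : PowerSeries.X ∣ tay h := by
    rw [PowerSeries.X_dvd_iff, ← PowerSeries.coeff_zero_eq_constantCoeff_apply, coeff_tay]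
    simp [h0]
  have h1 : PowerSeries.coeff n (tay h ^ (n + 1) * R) = 0 :=
    PowerSeries.X_pow_dvd_iff.1 ((pow_dvd_pow_of_dvd hX _).mul_right R) n (Nat.lt_succ_self n)
  rw [hR, map_add, h1, add_zero, map_sum]
  simp only [PowerSeries.coeff_C_mul]

theorem coeff_tay_scale {h : ℂ → ℂ} (hh : AnalyticAt ℂ h 0) (lam : ℂ) (n : ℕ) :
    PowerSeries.coeff n (tay (fun z => h (lam * z))) = lam ^ n * PowerSeries.coeff n (tay h) := by
  rw [coeff_tay_comp hh (by fun_prop) (mul_zero lam), tay_lin, Finset.sum_eq_single n]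
  · rw [mul_pow, ← map_pow, PowerSeries.coeff_C_mul, PowerSeries.coeff_X_pow_self]
    ring
  · intro k _ hk
    rw [mul_pow, ← map_pow, PowerSeries.coeff_C_mul, PowerSeries.coeff_X_pow, if_neg hk.symm]
    ring
  · simp

theorem coeff_pow_tuple (a : ℕ → ℂ) (k n : ℕ) : PowerSeries.coeff n (PowerSeries.mk a ^ k) =
    ∑ t ∈ Finset.Nat.antidiagonalTuple k n, ∏ i, a (t i) := by
  have : PowerSeries.mk a ^ k = ∏ _i : Fin k, PowerSeries.mk a := by simp
  rw [this, PowerSeries.coeff_prod]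
  refine Finset.sum_nbij' (fun l => l) (fun t => Finsupp.equivFunOnFinite.symm t) ?_ ?_ ?_ ?_ ?_
  · intro l hl
    rw [Finset.mem_finsuppAntidiag] at hl
    exact Finset.Nat.mem_antidiagonalTuple.2 hl.1
  · intro t ht
    rw [Finset.mem_finsuppAntidiag]
    exact ⟨Finset.Nat.mem_antidiagonalTuple.1 ht, Finset.subset_univ _⟩
  · intro l _
    simp
  · intro t _
    rfl
  · intro l _
    simp

/-- The formal conjugacy equation. -/
def FEq (F : ℕ → ℂ) (lam : ℂ) (a : ℕ → ℂ) : Prop :=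
  a 0 = 0 ∧ a 1 = 1 ∧ ∀ n : ℕ, ∑ k ∈ Finset.range (n + 1),
    F k * PowerSeries.coeff n (PowerSeries.mk a ^ k) = lam ^ n * a n

/-- The nonlinear terms of the formal conjugacy equation. -/
noncomputable def nlt (F : ℕ → ℂ) (n : ℕ) (a : ℕ → ℂ) : ℂ :=
  ∑ k ∈ Finset.range n, F (k + 2) * PowerSeries.coeff (n + 1) (PowerSeries.mk a ^ (k + 2))

theorem nlt_congr (F : ℕ → ℂ) (n : ℕ) {a b : ℕ → ℂ} (ha : a 0 = 0) (hb : b 0 = 0)
    (h : ∀ j < n + 1, a j = b j) : nlt F n a = nlt F n b := by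
  refine Finset.sum_congr rfl fun k _ => ?_
  congr 1
  have h1 : PowerSeries.X ∣ PowerSeries.mk a := by simpa [PowerSeries.X_dvd_iff] using ha
  have h2 : PowerSeries.X ∣ PowerSeries.mk b := by simpa [PowerSeries.X_dvd_iff] using hb
  have h3 : PowerSeries.X ^ (n + 1) ∣ PowerSeries.mk a - PowerSeries.mk b :=
    PowerSeries.X_pow_dvd_iff.2 fun j hj => by simp [h j hj]
  have h4 : PowerSeries.X ^ (n + 1 + 1) ∣ PowerSeries.mk a ^ (k + 2) - PowerSeries.mk b ^ (k + 2) := by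
    rw [show PowerSeries.mk a ^ (k + 2) - PowerSeries.mk b ^ (k + 2) =
      (PowerSeries.mk a ^ (k + 1) - PowerSeries.mk b ^ (k + 1)) * PowerSeries.mk a +
        (PowerSeries.mk a - PowerSeries.mk b) * (PowerSeries.mk b ^ k * PowerSeries.mk b) by ring,
      pow_succ]
    exact dvd_add (mul_dvd_mul (h3.trans (sub_dvd_pow_sub_pow _ _ _)) h1)
      (mul_dvd_mul h3 (h2.mul_left _))
  have := PowerSeries.X_pow_dvd_iff.1 h4 (n + 1) (Nat.lt_succ_self _)
  rwa [map_sub, sub_eq_zero] at this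

theorem feq_sum {F : ℕ → ℂ} {lam : ℂ} (h0 : F 0 = 0) (h1 : F 1 = lam) (a : ℕ → ℂ) (n : ℕ) :
    ∑ k ∈ Finset.range (n + 1 + 1), F k * PowerSeries.coeff (n + 1) (PowerSeries.mk a ^ k) =
      nlt F n a + lam * a (n + 1) := by
  rw [Finset.sum_range_succ', Finset.sum_range_succ', h0, nlt]
  simp [h1]

theorem pow_sub_ne {lam : ℂ} (hl : lam ≠ 0) (hk : ∀ k : ℕ, 1 ≤ k → lam ^ k ≠ 1) {n : ℕ}
    (hn : 1 ≤ n) : lam ^ (n + 1) - lam ≠ 0 := by
  rw [show lam ^ (n + 1) - lam = lam * (lam ^ n - 1) by ring]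
  exact mul_ne_zero hl (sub_ne_zero.2 (hk n hn))

theorem feq_unique {F : ℕ → ℂ} {lam : ℂ} (h0 : F 0 = 0) (h1 : F 1 = lam) (hl : lam ≠ 0)
    (hk : ∀ k : ℕ, 1 ≤ k → lam ^ k ≠ 1) {a b : ℕ → ℂ} (ha : FEq F lam a) (hb : FEq F lam b) :
    a = b := by
  funext n
  induction n using Nat.strong_induction_on with
  | _ n ih =>
  match n, ih with
  | 0, _ => rw [ha.1, hb.1]
  | 1, _ => rw [ha.2.1, hb.2.1]
  | n + 2, ih =>
    have e1 := ha.2.2 (n + 1 + 1)
    have e2 := hb.2.2 (n + 1 + 1)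
    rw [feq_sum h0 h1] at e1 e2
    rw [nlt_congr F (n + 1) ha.1 hb.1 ih] at e1
    refine mul_left_cancel₀ (pow_sub_ne hl hk (n := n + 1) (by omega)) ?_
    linear_combination e2 - e1

/-- The formal solution. -/
noncomputable def fsol (F : ℕ → ℂ) (lam : ℂ) (n : ℕ) : ℂ :=
  if n ≤ 1 then n
  else nlt F (n - 1) (fun j => if _h : j < n then fsol F lam j else 0) / (lam ^ n - lam)

theorem feq_fsol {F : ℕ → ℂ} {lam : ℂ} (h0 : F 0 = 0) (h1 : F 1 = lam) (hl : lam ≠ 0)
    (hk : ∀ k : ℕ, 1 ≤ k → lam ^ k ≠ 1) : FEq F lam (fsol F lam) := by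
  have e0 : fsol F lam 0 = 0 := by rw [fsol]; simp
  have e1 : fsol F lam 1 = 1 := by rw [fsol]; simp
  refine ⟨e0, e1, fun n => ?_⟩
  match n with
  | 0 => simp [h0, e0]
  | 1 => rw [feq_sum h0 h1]; simp [nlt]
  | n + 2 =>
    rw [feq_sum h0 h1]
    have e2 : fsol F lam (n + 2) = nlt F (n + 1) (fsol F lam) / (lam ^ (n + 2) - lam) := by
      rw [fsol, if_neg (by omega)]
      congr 1
      exact nlt_congr F (n + 1) (by simp [e0]) e0 fun j hj => by rw [dif_pos hj]
    rw [eq_div_iff (pow_sub_ne hl hk (n := n + 1) (by omega))] at e2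
    linear_combination -e2

theorem ee_ne_zero' (θ : ℝ) : ee θ ≠ 0 := Complex.exp_ne_zero _

theorem feq_of_lin {f h : ℂ → ℂ} {lam : ℂ} {ρ : ℝ} (hf : AnalyticAt ℂ f 0) (H : Lin f lam h ρ) :
    FEq (fun k => iteratedDeriv k f 0 / (k.factorial : ℂ)) lam
      (fun k => iteratedDeriv k h 0 / (k.factorial : ℂ)) := by
  have hh : AnalyticAt ℂ h 0 := H.diff.analyticAt (ball_mem_nhds 0 H.pos)
  refine ⟨by simp [H.zero], by simp [H.one], fun n => ?_⟩
  have e1 := coeff_tay_comp hf hh H.zero n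
  rw [tay_congr H.conj, coeff_tay_scale hh] at e1
  simp only [coeff_tay] at e1
  exact e1.symm

/-- Lower bound for the minimal radius. -/
theorem rr_ge {θ ρ : ℝ} (hk : ∀ k : ℕ, 1 ≤ k → ee θ ^ k ≠ 1)
    (H : ∀ g : ℂ → ℂ, Schlicht g → ∃ h, Lin (fun z => ee θ * g z) (ee θ) h ρ) :
    ENNReal.ofReal ρ ≤ rr θ := by
  refine le_iInf fun f => le_iInf fun ⟨hd, hi, hz, ho⟩ => le_iInf fun a =>
    le_iInf fun ⟨a0, a1, ha⟩ => ?_
  have hl := ee_ne_zero' θ
  have ho' : deriv f 0 = ee θ := ho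
  obtain ⟨h, hL⟩ := H (fun z => f z / ee θ) ⟨hd.div_const _,
    fun z hz w hw e => hi hz hw (by simpa [hl] using e), by simp [hz], by simp [ho', hl]⟩
  have e : (fun z => ee θ * (f z / ee θ)) = f := funext fun z => mul_div_cancel₀ _ hl
  rw [e] at hL
  have hf : AnalyticAt ℂ f 0 := hd.analyticAt (ball_mem_nhds 0 one_pos)
  have hab : a = fun k => iteratedDeriv k h 0 / (k.factorial : ℂ) :=
    feq_unique (by simp [hz]) (by simp [ho']) hl hk
      ⟨a0, a1, fun n => by simpa only [coeff_pow_tuple, ee] using ha n⟩ (feq_of_lin hf hL)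
  refine le_of_forall_lt_imp_le_of_dense fun x hx => ?_
  lift x to NNReal using ne_top_of_lt hx
  rcases eq_or_ne x 0 with rfl | hx0
  · simp
  have hx1 : (0 : ℝ) < x := by positivity
  have hx2 : (x : ℝ) < ρ := by
    rwa [← ENNReal.ofReal_coe_nnreal, ENNReal.ofReal_lt_ofReal_iff hL.pos] at hx
  have hdc : DiffContOnCl ℂ h (ball 0 x) :=
    (hL.diff.mono ((closure_ball_subset_closedBall).trans (closedBall_subset_ball hx2))).diffContOnCl
  obtain ⟨C, hC⟩ := (isCompact_sphere (0 : ℂ) x).exists_bound_of_continuousOn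
    (hL.diff.continuousOn.mono (sphere_subset_closedBall.trans (closedBall_subset_ball hx2)))
  refine le_iSup₂_of_le x ⟨C, fun n => ?_⟩ le_rfl
  have := norm_iteratedDeriv_le_of_forall_mem_sphere_norm_le n hx1 hdc hC
  rw [le_div_iff₀ (by positivity)] at this
  rw [hab, norm_div, Complex.norm_natCast, div_mul_eq_mul_div, div_le_iff₀ (by positivity)]
  linarith

/-- Below the minimal radius every admissible map has a holomorphic linearizer. -/
theorem lin_of_lt_rr {θ ρ : ℝ} (hk : ∀ k : ℕ, 1 ≤ k → ee θ ^ k ≠ 1) (hρ : 0 < ρ)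
    (hlt : ENNReal.ofReal ρ < rr θ) {g : ℂ → ℂ} (hg : Schlicht g) :
    ∃ h, Lin (fun z => ee θ * g z) (ee θ) h ρ := by
  have hl := ee_ne_zero' θ
  set f : ℂ → ℂ := fun z => ee θ * g z with hfdef
  have hd : DifferentiableOn ℂ f (ball 0 1) := hg.diff.const_mul _
  have hz : f 0 = 0 := by simp [hfdef, hg.zero]
  have ho : deriv f 0 = ee θ := by simp [hfdef, hg.one]
  have hf : AnalyticAt ℂ f 0 := hd.analyticAt (ball_mem_nhds 0 one_pos)
  obtain ⟨a, ha⟩ : ∃ a, FEq (fun k => iteratedDeriv k f 0 / (k.factorial : ℂ)) (ee θ) a :=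
    ⟨_, feq_fsol (by simp [hz]) (by simp [ho]) hl hk⟩
  have h1 := hlt.trans_le (iInf₂_le_of_le f
    ⟨hd, fun z hz w hw e => hg.inj hz hw (mul_left_cancel₀ hl e), hz, ho⟩
    (iInf₂_le a ⟨ha.1, ha.2.1, fun n => by simpa only [coeff_pow_tuple, ee] using ha.2.2 n⟩))
  simp only [lt_iSup_iff] at h1
  obtain ⟨r, ⟨D, hD⟩, hr⟩ := h1
  set p := FormalMultilinearSeries.ofScalars ℂ a with hp
  have h2 : (r : ENNReal) ≤ p.radius := p.le_radius_of_bound D fun n => by
    rw [hp, FormalMultilinearSeries.ofScalars_norm]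
    exact hD n
  have h3 : HasFPowerSeriesOnBall p.sum p 0 p.radius :=
    p.hasFPowerSeriesOnBall (lt_of_le_of_lt zero_le (hr.trans_le h2))
  have hh : AnalyticAt ℂ p.sum 0 := h3.analyticAt
  have h4 : a = fun k => iteratedDeriv k p.sum 0 / (k.factorial : ℂ) :=
    FormalMultilinearSeries.ofScalars_series_injective ℂ ℂ
      (h3.hasFPowerSeriesAt.eq_formalMultilinearSeries hh.hasFPowerSeriesAt)
  have h0 : p.sum 0 = 0 := by simpa [h4.symm ▸ ha.1] using (congrFun h4 0).symm.trans ha.1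
  refine ⟨p.sum, hρ, h3.differentiableOn.mono ?_, h0, ?_, ?_⟩
  · rw [← Metric.eball_ofReal]
    exact Metric.eball_subset_eball (hr.trans_le h2).le
  · simpa using (congrFun h4 1).symm.trans ha.2.1
  · have c1 : AnalyticAt ℂ (fun w => f (p.sum w)) 0 :=
      AnalyticAt.comp_of_eq (g := f) (f := p.sum) hf hh h0
    have c2 : AnalyticAt ℂ (fun w => p.sum (ee θ * w)) 0 :=
      AnalyticAt.comp_of_eq hh (by fun_prop) (mul_zero _)
    have c3 : (fun k => iteratedDeriv k (fun w => f (p.sum w)) 0 / (k.factorial : ℂ)) =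
        fun k => iteratedDeriv k (fun w => p.sum (ee θ * w)) 0 / (k.factorial : ℂ) := by
      funext n
      rw [← coeff_tay, ← coeff_tay, coeff_tay_comp hf hh h0, coeff_tay_scale hh]
      have := ha.2.2 n
      rw [h4] at this
      simp only [coeff_tay]
      exact this
    have c4 := c1.hasFPowerSeriesAt
    rw [c3] at c4
    filter_upwards [c4.eventually_hasSum, c2.hasFPowerSeriesAt.eventually_hasSum] with w w1 w2
    simpa using w1.unique w2

end Pool.Agent.Lib.MP_102662_an
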