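import Pool.Agent.Lib.MP_102662_an.Basic

open Complex Metric Set Filter Topology

namespace Pool.Agent.Lib.MP_102662_an

theorem fwd_step {lam : ℂ} (hl : lam ≠ 0) (u : ℂ) (k : ℕ) :
    lam * (Fu lam)^[k + 1] u = (Fu lam)^[k] u - 2 + 1 / (Fu lam)^[k] u := by
  rw [Function.iterate_succ_apply', Fu, mul_div_cancel₀ _ hl]

theorem fwd_sum {lam : ℂ} (hl : lam ≠ 0) (u : ℂ) (n : ℕ) :
    lam ^ n * (Fu lam)^[n] u = u - 2 * ∑ k ∈ Finset.range n, lam ^ k +
      ∑ k ∈ Finset.range n, lam ^ k / (Fu lam)^[k] u := by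
  induction n with
  | zero => simp
  | succ n ih =>
    rw [Finset.sum_range_succ, Finset.sum_range_succ, pow_succ, mul_assoc, fwd_step hl]
    linear_combination ih

theorem fwd_pow_sub {a b : ℂ} (ha : ‖a‖ ≤ 1) (hb : ‖b‖ ≤ 1) (k : ℕ) :
    ‖a ^ k - b ^ k‖ ≤ k * ‖a - b‖ := by
  induction k with
  | zero => simp
  | succ k ih =>
    have h : a ^ (k + 1) - b ^ (k + 1) = a * (a ^ k - b ^ k) + b ^ k * (a - b) := by ring
    have h1 : ‖a * (a ^ k - b ^ k)‖ ≤ k * ‖a - b‖ := by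
      rw [norm_mul]
      exact (mul_le_of_le_one_left (norm_nonneg _) ha).trans ih
    have h2 : ‖b ^ k * (a - b)‖ ≤ ‖a - b‖ := by
      rw [norm_mul, norm_pow]
      exact mul_le_of_le_one_left (norm_nonneg _) (pow_le_one₀ (norm_nonneg _) hb)
    rw [h]
    refine (norm_add_le _ _).trans ?_
    push_cast
    linarith

theorem fwd_sq_sum (c : ℝ) (n : ℕ) : ∑ k ∈ Finset.range n, (2 * (k : ℝ) - c) ^ 2 =
    n * (c - n + 1) ^ 2 + n * ((n : ℝ) ^ 2 - 1) / 3 := by
  induction n with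
  | zero => simp
  | succ n ih =>
    rw [Finset.sum_range_succ, ih]
    push_cast
    ring

theorem fwd_harm (n : ℕ) : ∑ k ∈ Finset.range n, 1 / ((k : ℝ) + 4) ≤ Real.log (n + 1) := by
  induction n with
  | zero => simp
  | succ n ih =>
    have h := Real.one_sub_inv_le_log_of_pos (show (0 : ℝ) < (n + 2) / (n + 1) by positivity)
    rw [Real.log_div (by positivity) (by positivity), inv_div] at h
    have h1 : 1 - ((n : ℝ) + 1) / (n + 2) = 1 / (n + 2) := by field_simp; ring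
    have h2 : 1 / ((n : ℝ) + 4) ≤ 1 / (n + 2) := by gcongr; norm_num
    rw [Finset.sum_range_succ]
    push_cast
    rw [show (n : ℝ) + 1 + 1 = n + 2 by ring]
    linarith

/-- Basic consequences of the hypothesis on the multiplier. -/
theorem fwd_lam {N : ℕ} (hN : 100 ≤ N) {lam : ℂ} (hl : ‖lam‖ ≤ 1)
    (h : ‖lam - ee (1 / N)‖ ≤ 1 / (N * Real.sqrt N)) :
    (∀ k : ℕ, 2 * k ≤ N → ‖lam ^ k - ee (1 / N) ^ k‖ ≤ 1 / 20) ∧ lam ≠ 0 ∧ lam ≠ 1 ∧
      ‖1 - lam‖ ≤ 8 / N := by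
  have hN' : (100 : ℝ) ≤ N := by exact_mod_cast hN
  have hs : 10 ≤ Real.sqrt N := Real.le_sqrt_of_sq_le (by linarith)
  have h1 : ‖lam - ee (1 / N)‖ ≤ 1 / (10 * N) :=
    h.trans (by rw [mul_comm]; gcongr)
  have hpi := Real.pi_pos
  have he : ee (1 / N) = exp (I * ((2 * Real.pi / N : ℝ) : ℂ)) := by
    rw [ee]; push_cast; ring_nf
  have key : ∀ k : ℕ, 2 * k ≤ N → ‖lam ^ k - ee (1 / N) ^ k‖ ≤ 1 / 20 := by
    intro k hk
    have hk' : 2 * (k : ℝ) ≤ N := by exact_mod_cast hk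
    refine (fwd_pow_sub hl (norm_ee _).le k).trans ((mul_le_mul_of_nonneg_left h1
      (Nat.cast_nonneg k)).trans ?_)
    rw [mul_one_div, div_le_div_iff₀ (by positivity) (by norm_num)]
    linarith
  refine ⟨key, ?_, ?_, ?_⟩
  · rintro rfl
    have := key 1 (by omega)
    rw [pow_one, pow_one, zero_sub, norm_neg, norm_ee] at this
    norm_num at this
  · rintro rfl
    have h2 := (abs_im_le_norm _).trans h1
    rw [he, mul_comm I, sub_im, one_im, exp_ofReal_mul_I_im, zero_sub, abs_neg] at h2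
    have h3 := Real.mul_le_sin (x := 2 * Real.pi / N) (by positivity) (by
      rw [div_le_div_iff₀ (by positivity) (by norm_num)]; nlinarith)
    have h4 : 2 / Real.pi * (2 * Real.pi / N) = 4 / N := by field_simp; ring
    have h5 : 1 / (10 * (N : ℝ)) < 4 / N := by
      rw [div_lt_div_iff₀ (by positivity) (by positivity)]; linarith
    linarith [le_abs_self (Real.sin (2 * Real.pi / N))]
  · have h2 : ‖ee (1 / N) - 1‖ ≤ 2 * Real.pi / N := by
      rw [he]
      exact Real.norm_exp_I_mul_ofReal_sub_one_le.trans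
        (by rw [Real.norm_of_nonneg (by positivity)])
    have h3 := norm_sub_le_norm_sub_add_norm_sub lam (ee (1 / N)) 1
    have h4 : 1 / (10 * (N : ℝ)) + 2 * Real.pi / N ≤ 8 / N := by
      rw [div_mul_eq_div_div, ← add_div]
      gcongr
      linarith [Real.pi_lt_d2]
    rw [norm_sub_rev]
    linarith

theorem fwd_main {N : ℕ} (hN : 200 ≤ N) {lam : ℂ} (hl : ‖lam‖ ≤ 1)
    (h : ‖lam - ee (1 / N)‖ ≤ 1 / (N * Real.sqrt N)) {u₀ : ℂ} (hu : ‖u₀ + 4‖ ≤ 1 / 2)
    (n : ℕ) : 2 * n ≤ N → 2 + (n : ℝ) / 2 ≤ ‖(Fu lam)^[n] u₀‖ := by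
  obtain ⟨hpow, hl0, -, -⟩ := fwd_lam (by omega) hl h
  have hN' : (200 : ℝ) ≤ N := by exact_mod_cast hN
  have hpi := Real.pi_pos
  induction n using Nat.strong_induction_on with
  | _ n ih =>
  intro hn
  have hn' : 2 * (n : ℝ) ≤ N := by exact_mod_cast hn
  rcases Nat.eq_zero_or_pos n with rfl | hpos
  · have := norm_sub_norm_le (-4 : ℂ) (-u₀ - 4)
    rw [show (-4 : ℂ) - (-u₀ - 4) = u₀ by ring, show -u₀ - 4 = -(u₀ + 4) by ring, norm_neg,
      norm_neg] at this
    simp only [Complex.norm_ofNat] at this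
    simp only [Function.iterate_zero, id, Nat.cast_zero]
    linarith
  have hn1 : (1 : ℝ) ≤ n := by exact_mod_cast hpos
  obtain ⟨a, ha⟩ : ∃ a : ℝ, a = Real.pi / N := ⟨_, rfl⟩
  have ha0 : 0 < a := by rw [ha]; positivity
  have han : a * n ≤ Real.pi / 2 := by
    rw [ha, div_mul_eq_mul_div, div_le_div_iff₀ (by positivity) (by norm_num)]
    nlinarith
  obtain ⟨ω, hω⟩ : ∃ ω : ℂ, ω = exp (((-(a * (n - 1)) : ℝ) : ℂ) * I) := ⟨_, rfl⟩
  have hω1 : ‖ω‖ = 1 := by rw [hω, norm_exp_ofReal_mul_I]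
  have hre : ∀ z : ℂ, |(ω * z).re| ≤ ‖z‖ := fun z =>
    (abs_re_le_norm _).trans (by rw [norm_mul, hω1, one_mul])
  have e0 : 4 * (1 - 2 * n / N) - 1 / 2 ≤ -(ω * u₀).re := by
    have h1 : (ω * u₀).re = (ω * (u₀ + 4)).re - 4 * Real.cos (a * (n - 1)) := by
      rw [mul_add, add_re, mul_comm ω 4, show (4 : ℂ) = ((4 : ℝ) : ℂ) by norm_num, re_ofReal_mul,
        hω, exp_ofReal_mul_I_re, Real.cos_neg]
      ring
    have h2 := Real.one_sub_mul_le_cos (x := a * (n - 1)) (by nlinarith) (by nlinarith)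
    have h3 : 2 / Real.pi * (a * (n - 1)) ≤ 2 * n / N := by
      have : 2 / Real.pi * (a * (n - 1)) = 2 * (n - 1) / N := by rw [ha]; field_simp
      rw [this]
      gcongr
      linarith
    linarith [(le_abs_self _).trans ((hre _).trans hu)]
  have e1 : ∀ k ∈ Finset.range n,
      1 - a ^ 2 / 2 * (2 * (k : ℝ) - (n - 1)) ^ 2 - 1 / 20 ≤ (ω * lam ^ k).re := by
    intro k hk
    have hk' := Finset.mem_range.mp hk
    have h1 : ω * ee (1 / N) ^ k = exp (((a * (2 * k - (n - 1)) : ℝ) : ℂ) * I) := by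
      rw [hω, ee, ← exp_nat_mul, ← exp_add, ha]
      push_cast
      ring_nf
    have h2 : (ω * lam ^ k).re =
        Real.cos (a * (2 * k - (n - 1))) + (ω * (lam ^ k - ee (1 / N) ^ k)).re := by
      rw [← exp_ofReal_mul_I_re, ← h1, ← add_re]
      ring_nf
    have h3 := Real.one_sub_sq_div_two_le_cos (x := a * (2 * k - (n - 1)))
    have h4 := (neg_le_abs _).trans ((hre _).trans (hpow k (by omega)))
    rw [h2]
    linarith
  have e2 : ∀ k ∈ Finset.range n, (ω * (lam ^ k / (Fu lam)^[k] u₀)).re ≤ 1 / 2 := by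
    intro k hk
    have hk' := Finset.mem_range.mp hk
    have h1 := ih k hk' (by omega)
    have h2 : (0 : ℝ) ≤ k := Nat.cast_nonneg k
    refine (le_abs_self _).trans ((hre _).trans ?_)
    rw [norm_div, norm_pow]
    exact div_le_div₀ zero_le_one (pow_le_one₀ (norm_nonneg _) hl) two_pos (by linarith)
  have s1 := Finset.sum_le_sum e1
  have s2 := Finset.sum_le_sum e2
  rw [Finset.sum_sub_distrib, Finset.sum_sub_distrib, ← Finset.mul_sum, fwd_sq_sum] at s1
  simp only [Finset.sum_const, Finset.card_range, nsmul_eq_mul] at s1 s2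
  have e3 : (ω * (lam ^ n * (Fu lam)^[n] u₀)).re = (ω * u₀).re -
      2 * ∑ k ∈ Finset.range n, (ω * lam ^ k).re +
      ∑ k ∈ Finset.range n, (ω * (lam ^ k / (Fu lam)^[k] u₀)).re := by
    rw [fwd_sum hl0, ← re_sum, ← re_sum, ← Finset.mul_sum, ← Finset.mul_sum, mul_add, mul_sub,
      add_re, sub_re, mul_left_comm, show (2 : ℂ) = ((2 : ℝ) : ℂ) by norm_num, re_ofReal_mul]
  have e4 : ‖lam ^ n * (Fu lam)^[n] u₀‖ ≤ ‖(Fu lam)^[n] u₀‖ := by
    rw [norm_mul, norm_pow]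
    exact mul_le_of_le_one_left (norm_nonneg _) (pow_le_one₀ (norm_nonneg _) hl)
  have e5 := (neg_le_abs _).trans ((hre _).trans e4)
  have e6 : (a * n) ^ 2 ≤ 5 / 2 := by
    have := pow_le_pow_left₀ (by positivity) han 2
    nlinarith [Real.pi_lt_d2]
  have e7 : a ^ 2 / 2 * (n * ((n : ℝ) - 1 - n + 1) ^ 2 + n * ((n : ℝ) ^ 2 - 1) / 3) ≤
      5 / 12 * n := by
    have h1 := mul_le_mul_of_nonneg_left e6 (show (0 : ℝ) ≤ n by linarith)
    have h2 : 0 ≤ a ^ 2 * n := by positivity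
    nlinarith
  have e8 : 2 * (n : ℝ) / N ≤ n / 100 := by
    rw [div_le_div_iff₀ (by positivity) (by norm_num)]
    nlinarith
  linarith

/-- The first half turn of an orbit that starts near the critical value. -/
theorem fwd : ∃ N₀ : ℕ, ∀ N : ℕ, N₀ ≤ N → ∀ lam : ℂ, ‖lam‖ ≤ 1 →
    ‖lam - ee (1 / N)‖ ≤ 1 / (N * Real.sqrt N) → ∀ u₀ : ℂ, ‖u₀ + 4‖ ≤ 1 / 2 →
    ∀ k : ℕ, 2 * k ≤ N → 2 + (k : ℝ) / 2 ≤ ‖(Fu lam)^[k] u₀‖ :=
  ⟨200, fun _ hN _ hl h _ hu k hk => fwd_main hN hl h hu k hk⟩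

theorem fwd_tele (n : ℕ) : ∏ k ∈ Finset.range n, (1 - 4 / ((k : ℝ) + 4) ^ 2) =
    (3 / 10 * ((n + 4) * (n + 5) / ((n + 2) * (n + 3))) : ℝ) := by
  induction n with
  | zero => norm_num
  | succ n ih =>
    rw [Finset.prod_range_succ, ih]
    push_cast
    field_simp
    ring

theorem fwd_alpha (k : ℕ) : 0 ≤ 1 - 4 / ((k : ℝ) + 4) ^ 2 := by
  have : (0 : ℝ) ≤ k := Nat.cast_nonneg k
  rw [sub_nonneg, div_le_one (by positivity)]
  nlinarith

theorem fwd_tele_ge (n : ℕ) : 3 / 10 ≤ ∏ k ∈ Finset.range n, (1 - 4 / ((k : ℝ) + 4) ^ 2) := by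
  have : (0 : ℝ) ≤ n := Nat.cast_nonneg n
  rw [fwd_tele]
  refine le_mul_of_one_le_right (by norm_num) ?_
  rw [one_le_div (by positivity)]
  nlinarith

theorem fwd_tele_le (n : ℕ) : ∏ k ∈ Finset.range n, (1 + 4 / ((k : ℝ) + 4) ^ 2) ≤ 4 := by
  have h1 : (∏ k ∈ Finset.range n, (1 + 4 / ((k : ℝ) + 4) ^ 2)) *
      ∏ k ∈ Finset.range n, (1 - 4 / ((k : ℝ) + 4) ^ 2) ≤ 1 := by
    rw [← Finset.prod_mul_distrib]
    refine Finset.prod_le_one (fun k _ => mul_nonneg (by positivity) (fwd_alpha k)) fun k _ => ?_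
    nlinarith [sq_nonneg (4 / ((k : ℝ) + 4) ^ 2)]
  have h2 : 0 ≤ ∏ k ∈ Finset.range n, (1 + 4 / ((k : ℝ) + 4) ^ 2) :=
    Finset.prod_nonneg fun k _ => by positivity
  nlinarith [fwd_tele_ge n]

theorem fwd_prod_sub (z : ℕ → ℂ) (α : ℕ → ℝ) (n : ℕ) (h : ∀ k < n, ‖z k‖ ≤ α k) :
    ‖∏ k ∈ Finset.range n, z k - ((∏ k ∈ Finset.range n, (z k).re : ℝ) : ℂ)‖ ≤
      (∏ k ∈ Finset.range n, max 1 (α k)) * ∑ k ∈ Finset.range n, |(z k).im| := by
  induction n with
  | zero => simp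
  | succ n ih =>
    have ih' := ih fun k hk => h k (by omega)
    have hQ : 0 ≤ ∏ k ∈ Finset.range n, max 1 (α k) :=
      Finset.prod_nonneg fun k _ => zero_le_one.trans (le_max_left _ _)
    have hS : 0 ≤ ∑ k ∈ Finset.range n, |(z k).im| := Finset.sum_nonneg fun k _ => abs_nonneg _
    have hA : |∏ k ∈ Finset.range n, (z k).re| ≤ ∏ k ∈ Finset.range n, max 1 (α k) := by
      rw [Finset.abs_prod]
      exact Finset.prod_le_prod (fun k _ => abs_nonneg _) fun k hk => (abs_re_le_norm _).trans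
        ((h k (by have := Finset.mem_range.mp hk; omega)).trans (le_max_right _ _))
    rw [Finset.prod_range_succ, Finset.prod_range_succ, Finset.prod_range_succ,
      Finset.sum_range_succ]
    generalize ∏ k ∈ Finset.range n, z k = P at *
    generalize ∏ k ∈ Finset.range n, (z k).re = A at *
    generalize ∏ k ∈ Finset.range n, max 1 (α k) = Q at *
    generalize ∑ k ∈ Finset.range n, |(z k).im| = S at *
    have e : P * z n - ((A * (z n).re : ℝ) : ℂ) = (P - A) * z n + A * ((z n).im * I) := by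
      push_cast
      linear_combination -A * re_add_im (z n)
    have h1 : ‖(P - A) * z n‖ ≤ Q * S * max 1 (α n) := by
      rw [norm_mul]
      exact mul_le_mul ih' ((h n (by omega)).trans (le_max_right _ _)) (norm_nonneg _)
        (mul_nonneg hQ hS)
    have h2 : ‖(A : ℂ) * ((z n).im * I)‖ ≤ Q * max 1 (α n) * |(z n).im| := by
      rw [norm_mul, norm_mul, norm_I, mul_one, norm_real, norm_real, Real.norm_eq_abs,
        Real.norm_eq_abs]
      exact mul_le_mul_of_nonneg_right (hA.trans (le_mul_of_one_le_right hQ (le_max_left _ _)))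
        (abs_nonneg _)
    rw [e]
    refine (norm_add_le _ _).trans ?_
    linarith

theorem fwd_im_inv (u : ℂ) (hu : 1 ≤ ‖u‖) : |(u - 2 + 1 / u).im| ≤ |u.im| := by
  have h0 : 0 < ‖u‖ ^ 2 := by positivity
  have h1 : (u - 2 + 1 / u).im = u.im * (1 - 1 / ‖u‖ ^ 2) := by
    rw [add_im, sub_im, one_div, inv_im, normSq_eq_norm_sq]
    simp
    ring
  have h2 : 1 / ‖u‖ ^ 2 ≤ 1 := by
    rw [div_le_one h0]
    nlinarith
  have h3 : 0 < 1 / ‖u‖ ^ 2 := by positivity
  rw [h1, abs_mul]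
  exact mul_le_of_le_one_right (abs_nonneg _) (abs_le.mpr ⟨by linarith, by linarith⟩)

theorem fwd_im_inv_sq (u : ℂ) (hu : u ≠ 0) : |(1 - 1 / u ^ 2).im| ≤ 2 * |u.im| / ‖u‖ ^ 3 := by
  have h0 : 0 < ‖u‖ := norm_pos_iff.mpr hu
  have h1 : (1 - 1 / u ^ 2).im = 2 * u.re * u.im / ‖u‖ ^ 4 := by
    rw [sub_im, one_div, inv_im, normSq_eq_norm_sq, norm_pow, sq u, mul_im]
    simp
    ring
  rw [h1, abs_div, abs_mul, abs_mul, abs_two, abs_of_pos (pow_pos h0 4),
    div_le_div_iff₀ (by positivity) (by positivity)]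
  have := mul_le_mul_of_nonneg_right (abs_re_le_norm u) (show 0 ≤ 2 * |u.im| * ‖u‖ ^ 3 by positivity)
  nlinarith

theorem fwd_prod : ∃ (N₀ : ℕ) (C : ℝ), 1 ≤ C ∧ ∀ N : ℕ, N₀ ≤ N → ∀ lam : ℂ, ‖lam‖ ≤ 1 →
    ‖lam - ee (1 / N)‖ ≤ 1 / (N * Real.sqrt N) → ∀ u₀ : ℂ, ‖u₀ + 4‖ ≤ 1 / 2 →
    ‖∏ k ∈ Finset.range (N / 2), (1 - 1 / ((Fu lam)^[k] u₀) ^ 2)‖ ≤ C ∧
    ‖lam ^ (N / 2) * ((Fu lam)^[N / 2] u₀ - 2 / (1 - lam)) - (u₀ - 2 / (1 - lam))‖ ≤
      C * Real.log N ∧
    ((lam * u₀).im = 0 →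
      1 / C ≤ (∏ k ∈ Finset.range (N / 2), (1 - 1 / ((Fu lam)^[k] u₀) ^ 2)).re ∧
      |(∏ k ∈ Finset.range (N / 2), (1 - 1 / ((Fu lam)^[k] u₀) ^ 2)).im| ≤
        C * Real.log N / N) := by
  refine ⟨10 ^ 10, 2000, by norm_num, fun N hN lam hl h u₀ hu => ?_⟩
  obtain ⟨hpow, hl0, hl1, hε⟩ := fwd_lam (by omega) hl h
  have hlow := fwd_main (by omega) hl h hu
  have hN' : (10 : ℝ) ^ 10 ≤ N := by exact_mod_cast hN
  have hN0 : (0 : ℝ) < N := by linarith
  obtain ⟨n, hn⟩ : ∃ n, n = N / 2 := ⟨_, rfl⟩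
  have hn2 : 2 * n ≤ N := by omega
  rw [← hn]
  obtain ⟨u, hu'⟩ : ∃ u : ℕ → ℂ, ∀ k, u k = (Fu lam)^[k] u₀ := ⟨_, fun _ => rfl⟩
  have hsum := fwd_sum hl0 u₀
  have hstep := fwd_step hl0 u₀
  have hu0 : u 0 = u₀ := hu' 0
  simp only [← hu'] at hlow hsum hstep ⊢
  have hlog : ∑ k ∈ Finset.range n, 1 / ((k : ℝ) + 4) ≤ Real.log N :=
    (fwd_harm n).trans (Real.log_le_log (by positivity) (by exact_mod_cast (by omega : n + 1 ≤ N)))
  have hlog0 : 0 ≤ Real.log N := Real.log_nonneg (by linarith)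
  have hinv : ∀ k, k ≤ n → 1 / ‖u k‖ ≤ 2 / ((k : ℝ) + 4) := by
    intro k hk
    have h1 := hlow k (by omega)
    have h2 : (0 : ℝ) ≤ k := Nat.cast_nonneg k
    rw [div_le_div_iff₀ (by linarith) (by positivity)]
    linarith
  have hinv2 : ∀ k, k ≤ n → ‖1 / u k ^ 2‖ ≤ 4 / ((k : ℝ) + 4) ^ 2 := by
    intro k hk
    have := pow_le_pow_left₀ (by positivity) (hinv k hk) 2
    rw [div_pow, div_pow] at this
    rw [norm_div, norm_pow, norm_one]
    linarith
  have hz : ∀ k < n, ‖1 - 1 / u k ^ 2‖ ≤ 1 + 4 / ((k : ℝ) + 4) ^ 2 := fun k hk =>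
    (norm_sub_le _ _).trans (by rw [norm_one]; linarith [hinv2 k hk.le])
  have hdiv : ∀ k, k ≤ n → ‖lam ^ k / u k‖ ≤ 2 / ((k : ℝ) + 4) := by
    intro k hk
    refine le_trans ?_ (hinv k hk)
    rw [norm_div, norm_pow]
    exact div_le_div_of_nonneg_right (pow_le_one₀ (norm_nonneg _) hl) (norm_nonneg _)
  refine ⟨?_, ?_, fun him => ?_⟩
  · rw [norm_prod]
    refine (Finset.prod_le_prod (fun k _ => norm_nonneg _)
      fun k hk => hz k (Finset.mem_range.mp hk)).trans ((fwd_tele_le n).trans (by norm_num))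
  · have h1 : (1 - lam) ≠ 0 := sub_ne_zero.mpr hl1.symm
    have h2 : lam ^ n * (u n - 2 / (1 - lam)) - (u₀ - 2 / (1 - lam)) =
        ∑ k ∈ Finset.range n, lam ^ k / u k := by
      have h3 : 2 / (1 - lam) * (1 - lam ^ n) = 2 * ∑ k ∈ Finset.range n, lam ^ k := by
        rw [← mul_neg_geom_sum]
        field_simp
      linear_combination hsum n + h3
    rw [h2]
    refine (norm_sum_le _ _).trans ((Finset.sum_le_sum fun k hk =>
      hdiv k (Finset.mem_range.mp hk).le).trans ?_)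
    simp only [div_eq_mul_one_div (2 : ℝ)]
    rw [← Finset.mul_sum]
    linarith
  · have hup : ∀ k, k ≤ n → ‖u k‖ ≤ 9 + 5 * k := by
      intro k hk
      have h1 : 1 / 2 ≤ ‖lam ^ k‖ := by
        have := norm_sub_norm_le (ee (1 / N) ^ k) (lam ^ k)
        rw [norm_pow, norm_ee, one_pow, norm_sub_rev] at this
        linarith [hpow k (by omega)]
      have h2 : ‖u₀‖ ≤ 9 / 2 := by
        have := norm_sub_le (u₀ + 4) 4
        rw [add_sub_cancel_right, Complex.norm_ofNat] at this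
        linarith
      have h3 : ‖∑ j ∈ Finset.range k, lam ^ j‖ ≤ k := by
        simpa using norm_sum_le_of_le (Finset.range k) (n := fun _ => (1 : ℝ))
          (f := fun j => lam ^ j) fun j _ => by
            rw [norm_pow]; exact pow_le_one₀ (norm_nonneg _) hl
      have h4 : ‖∑ j ∈ Finset.range k, lam ^ j / u j‖ ≤ k * (1 / 2) := by
        have := norm_sum_le_of_le (Finset.range k) (n := fun _ => (1 / 2 : ℝ))
          (f := fun j => lam ^ j / u j) fun j hj => by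
            refine (hdiv j (by have := Finset.mem_range.mp hj; omega)).trans ?_
            have : (0 : ℝ) ≤ j := Nat.cast_nonneg j
            rw [div_le_div_iff₀ (by positivity) (by norm_num)]
            linarith
        rwa [Finset.sum_const, Finset.card_range, nsmul_eq_mul] at this
      have h5 : ‖lam ^ k‖ * ‖u k‖ ≤ 9 / 2 + 2 * k + k * (1 / 2) := by
        rw [← norm_mul, hsum k]
        refine (norm_add_le _ _).trans (add_le_add ((norm_sub_le _ _).trans ?_) h4)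
        rw [norm_mul, Complex.norm_ofNat]
        linarith
      nlinarith [norm_nonneg (u k)]
    have hpert : ∀ k, k ≤ n → |(u k).im| ≤ |(lam * u k).im| + 8 / N * (9 + 5 * k) := by
      intro k hk
      have h1 : (u k).im = (lam * u k).im + ((1 - lam) * u k).im := by
        rw [← add_im]; ring_nf
      have h2 : |((1 - lam) * u k).im| ≤ 8 / N * (9 + 5 * k) := by
        refine (abs_im_le_norm _).trans ?_
        rw [norm_mul]
        exact mul_le_mul hε (hup k hk) (norm_nonneg _) (by positivity)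
      rw [h1]
      exact (abs_add_le _ _).trans (by linarith)
    have h8 : (0 : ℝ) ≤ 8 / N := by positivity
    have him' : ∀ k, k ≤ n → |(u k).im| ≤ 8 / N * (3 * ((k : ℝ) + 4) ^ 2) := by
      intro k
      induction k with
      | zero =>
        intro hk
        have := hpert 0 hk
        rw [hu0, him, abs_zero, ← hu0] at this
        push_cast at this ⊢
        linarith
      | succ k ih =>
        intro hk
        have h1 := hpert (k + 1) hk
        have hk0 : (0 : ℝ) ≤ k := Nat.cast_nonneg k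
        have h2 := fwd_im_inv (u k) (by linarith [hlow k (by omega)])
        rw [hstep] at h1
        have h3 := ih (by omega)
        have h4 := mul_le_mul_of_nonneg_left (show 3 * ((k : ℝ) + 4) ^ 2 + (9 + 5 * (k + 1)) ≤
          3 * ((k : ℝ) + 1 + 4) ^ 2 by nlinarith) h8
        push_cast at h1 ⊢
        linarith
    have hβ : ∀ k ∈ Finset.range n, |(1 - 1 / u k ^ 2).im| ≤ 384 / N * (1 / ((k : ℝ) + 4)) := by
      intro k hk
      have hk' := (Finset.mem_range.mp hk).le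
      have hk0 : (0 : ℝ) ≤ k := Nat.cast_nonneg k
      have h1 := hlow k (by omega)
      refine (fwd_im_inv_sq _ (norm_pos_iff.mp (by linarith))).trans ?_
      calc 2 * |(u k).im| / ‖u k‖ ^ 3
          ≤ 2 * (8 / N * (3 * ((k : ℝ) + 4) ^ 2)) / (2 + (k : ℝ) / 2) ^ 3 := by
            gcongr
            exact him' k hk'
        _ = 384 / N * (1 / ((k : ℝ) + 4)) := by
            field_simp
            ring
    have hS := Finset.sum_le_sum hβ
    rw [← Finset.mul_sum] at hS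
    have hS' := hS.trans (mul_le_mul_of_nonneg_left hlog (by positivity))
    have hd := fwd_prod_sub (fun k => 1 - 1 / u k ^ 2) _ n hz
    have hQ : ∏ k ∈ Finset.range n, max 1 (1 + 4 / ((k : ℝ) + 4) ^ 2) ≤ 4 := by
      rw [Finset.prod_congr rfl fun k _ => max_eq_right (le_add_of_nonneg_right (by positivity))]
      exact fwd_tele_le n
    have hd' := hd.trans (mul_le_mul hQ hS' (Finset.sum_nonneg fun k _ => abs_nonneg _)
      (by norm_num))
    have hA : 3 / 10 ≤ ∏ k ∈ Finset.range n, (1 - 1 / u k ^ 2).re := by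
      refine (fwd_tele_ge n).trans (Finset.prod_le_prod (fun k _ => fwd_alpha k) fun k hk => ?_)
      have := (re_le_norm _).trans (hinv2 k (Finset.mem_range.mp hk).le)
      rw [sub_re, one_re]
      linarith
    have h1 := (neg_le_abs _).trans ((abs_re_le_norm _).trans hd')
    have h2 := (abs_im_le_norm _).trans hd'
    rw [sub_re, ofReal_re] at h1
    rw [sub_im, ofReal_im, sub_zero] at h2
    have hq : 0 ≤ Real.log N / N := by positivity
    have h3 : 4 * (384 / N * Real.log N) = 1536 * (Real.log N / N) := by ring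
    have h4 : Real.log N / N ≤ 1 / 20000 := by
      have hs : 10 ^ 5 ≤ Real.sqrt N := Real.le_sqrt_of_sq_le (by linarith)
      have h5 := Real.log_le_sub_one_of_pos (show 0 < Real.sqrt N by linarith)
      rw [Real.log_sqrt hN0.le] at h5
      have h6 := Real.mul_self_sqrt hN0.le
      rw [div_le_div_iff₀ hN0 (by norm_num)]
      nlinarith
    rw [mul_div_assoc]
    constructor <;> linarith

end Pool.Agent.Lib.MP_102662_an
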