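import Pool.Agent.Lib.MP_102662_an.KAMX3

open Complex Metric Set Filter Topology

namespace Pool.Agent.Lib.MP_102662_an

theorem kam_limit {lam ω : ℂ} {p : ℂ → ℂ} {ν σ κ : ℝ} {Ψ : ℕ → ℂ → ℂ}
    (hl : ‖lam‖ ≤ 1) (hσ : 0 < σ) (hσ1 : σ ≤ 1 / 10)
    (hp : DifferentiableOn ℂ p (ball 0 1)) (hκ0 : 0 ≤ κ) (hκ1 : κ ≤ 1 / 1000000)
    (hS : ∀ j, kamSt lam ω p ν σ κ ((1 / 2) ^ j) (Ψ j))
    (hD : ∀ j, ∀ w ∈ ball (0 : ℂ) (Real.exp (-(5 * σ))),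
      ‖Ψ (j + 1) w - Ψ j w‖ ≤ 2 * κ * σ * (1 / 2) ^ j) :
    ∃ ψ : ℂ → ℂ, DifferentiableOn ℂ ψ (ball 0 (Real.exp (-(5 * σ)))) ∧ ψ 0 = 0 ∧
      ∀ w ∈ ball (0 : ℂ) (Real.exp (-(5 * σ))),
        ‖ψ w‖ ≤ 4 * κ * σ ∧ ‖w * deriv ψ w‖ ≤ 1 / 8 ∧
        ‖w * exp (ψ w)‖ < 1 ∧ ψ (lam * w) = ψ w + p (w * exp (ψ w)) := by
  have hxp : ∀ j : ℕ, (0 : ℝ) < (1 / 2) ^ j := fun j => by positivity
  have sub : ∀ j : ℕ, ball (0 : ℂ) (Real.exp (-(5 * σ)))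
      ⊆ ball 0 (Real.exp (-(σ * (5 - 4 * (1 / 2) ^ j)))) := fun j =>
    ball_subset_ball (Real.exp_le_exp.2 (by nlinarith [mul_pos hσ (hxp j)]))
  have hsum : Summable fun j : ℕ => 2 * κ * σ * (1 / 2 : ℝ) ^ j :=
    summable_geometric_two.mul_left _
  have hU0 := tendstoUniformlyOn_tsum_nat (f := fun j w => Ψ (j + 1) w - Ψ j w) hsum
    (fun j w hw => hD j w hw)
  obtain ⟨ψ, hψ⟩ : ∃ ψ : ℂ → ℂ, ψ = fun w => Ψ 0 w + ∑' j, (Ψ (j + 1) w - Ψ j w) := ⟨_, rfl⟩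
  have hU : TendstoUniformlyOn Ψ ψ atTop (ball 0 (Real.exp (-(5 * σ)))) := by
    rw [Metric.tendstoUniformlyOn_iff] at hU0 ⊢
    intro ε hε
    filter_upwards [hU0 ε hε] with n hn w hw
    have := hn w hw
    rw [Finset.sum_range_sub (fun j => Ψ j w), dist_eq_norm] at this
    rw [hψ, dist_eq_norm]
    convert this using 2
    ring
  have hdj : ∀ᶠ j in atTop, DifferentiableOn ℂ (Ψ j) (ball 0 (Real.exp (-(5 * σ)))) :=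
    Eventually.of_forall fun j => (hS j).1.mono (sub j)
  have hLU := hU.tendstoLocallyUniformlyOn
  have hT : ∀ w ∈ ball (0 : ℂ) (Real.exp (-(5 * σ))), Tendsto (fun j => Ψ j w) atTop (𝓝 (ψ w)) :=
    fun w hw => hU.tendsto_at hw
  have hκσ : 0 ≤ κ * σ := by positivity
  refine ⟨ψ, hLU.differentiableOn hdj isOpen_ball, ?_, fun w hw => ?_⟩
  · have h0 := hT 0 (mem_ball_self (Real.exp_pos _))
    simp only [fun j => (hS j).2.1] at h0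
    exact (tendsto_nhds_unique tendsto_const_nhds h0).symm
  have hb : ‖ψ w‖ ≤ 4 * κ * σ :=
    le_of_tendsto' (hT w hw).norm fun j => ((hS j).2.2 w (sub j hw)).1.trans
      (by nlinarith [mul_nonneg hκσ (hxp j).le])
  have hwσ : ‖w‖ ≤ Real.exp (-σ) :=
    (mem_ball_zero_iff.1 hw).le.trans (Real.exp_le_exp.2 (by linarith))
  have hk1 : ‖w * exp (ψ w)‖ < 1 := (kam_near hσ hσ1 hwσ (hb.trans (by nlinarith))).2
  refine ⟨hb, ?_, hk1, ?_⟩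
  · have h1 := (hLU.deriv hdj isOpen_ball).tendsto_at hw
    exact le_of_tendsto' (h1.const_mul w).norm fun j => ((hS j).2.2 w (sub j hw)).2.1.trans
      (by nlinarith [mul_nonneg hκ0 (hxp j).le])
  · have c1 : ContinuousAt p (w * exp (ψ w)) :=
      (hp.differentiableAt (isOpen_ball.mem_nhds (mem_ball_zero_iff.2 hk1))).continuousAt
    have t1 : Tendsto (fun j => w * exp (Ψ j w)) atTop (𝓝 (w * exp (ψ w))) :=
      (hT w hw).cexp.const_mul w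
    have t2 : Tendsto (fun j => kamErr lam p (Ψ j) w) atTop (𝓝 (kamErr lam p ψ w)) :=
      ((hT w hw).add (c1.tendsto.comp t1)).sub (hT _ (kam_lam_mem hl hw))
    have t3 : Tendsto (fun j : ℕ => ν * ((1 / 2 : ℝ) ^ j) ^ 14 / ‖ω - w‖) atTop (𝓝 0) := by
      have := (((tendsto_pow_atTop_nhds_zero_of_lt_one (r := (1 / 2 : ℝ)) (by norm_num)
        (by norm_num)).pow 14).const_mul ν).div_const ‖ω - w‖
      simpa using this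
    have t4 : Tendsto (fun j => kamErr lam p (Ψ j) w) atTop (𝓝 0) :=
      squeeze_zero_norm (fun j => ((hS j).2.2 w (sub j hw)).2.2) t3
    have := tendsto_nhds_unique t2 t4
    rw [kamErr] at this
    linear_combination -this

/-- Weighted linearization theorem, in logarithmic form. -/
theorem kam : ∃ C : ℝ, 1 ≤ C ∧ ∀ (lam ω : ℂ) (p : ℂ → ℂ) (ν σ Ω : ℝ),
    ‖lam‖ ≤ 1 → ‖ω‖ = 1 → 0 < σ → σ ≤ 1 / 10 → 0 ≤ ν → DivB lam Ω σ →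
    DifferentiableOn ℂ p (ball 0 1) → p 0 = 0 →
    (∀ w ∈ ball (0 : ℂ) 1, ‖p w‖ ≤ ν / ‖ω - w‖) →
    C * ν * (1 + Real.log (1 / σ)) * Ω ≤ σ →
    ∃ ψ : ℂ → ℂ, DifferentiableOn ℂ ψ (ball 0 (Real.exp (-(5 * σ)))) ∧ ψ 0 = 0 ∧
      ∀ w ∈ ball (0 : ℂ) (Real.exp (-(5 * σ))),
        ‖ψ w‖ ≤ C * ν * (1 + Real.log (1 / σ)) * Ω ∧ ‖w * deriv ψ w‖ ≤ 1 / 8 ∧
        ‖w * exp (ψ w)‖ < 1 ∧ ψ (lam * w) = ψ w + p (w * exp (ψ w)) := by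
  obtain ⟨Cm, hCm, hmean⟩ := mean_weight
  refine ⟨1000000 * Cm, by linarith, ?_⟩
  intro lam ω p ν σ Ω hl hω hσ hσ1 hν hdiv hp hp0 hpb hsmall
  obtain ⟨hk, hΩ⟩ := hdiv
  have hΩ0 : 0 ≤ Ω := by simpa using hΩ 0 0
  have hlog : 0 ≤ Real.log (1 / σ) :=
    Real.log_nonneg (by rw [le_div_iff₀ hσ]; linarith)
  obtain ⟨L, hL⟩ : ∃ L, L = Cm * (1 + Real.log (1 / σ)) := ⟨_, rfl⟩
  have hL0 : 0 ≤ L := by rw [hL]; positivity
  obtain ⟨κ, hκd⟩ : ∃ κ, κ = ν * L * Ω / σ := ⟨_, rfl⟩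
  have hκ : ν * L * Ω = κ * σ := by rw [hκd]; field_simp
  have hκ0 : 0 ≤ κ := by rw [hκd]; positivity
  have hC : 1000000 * Cm * ν * (1 + Real.log (1 / σ)) * Ω = 1000000 * (κ * σ) := by
    rw [← hκ, hL]; ring
  rw [hC] at hsmall ⊢
  have hκ1 : κ ≤ 1 / 1000000 := by
    refine le_of_mul_le_mul_right ?_ hσ
    linarith
  have step : ∀ (j : ℕ) (ψ : ℂ → ℂ), kamSt lam ω p ν σ κ ((1 / 2) ^ j) ψ →
      ∃ ψ' : ℂ → ℂ, kamSt lam ω p ν σ κ ((1 / 2) ^ (j + 1)) ψ' ∧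
        ∀ w ∈ ball (0 : ℂ) (Real.exp (-(5 * σ))), ‖ψ' w - ψ w‖ ≤ 2 * κ * σ * (1 / 2) ^ j := by
    intro j ψ H
    have e1 : (1 / 2 : ℝ) ^ (j + 1) = (1 / 2) ^ j / 2 := by rw [pow_succ]; ring
    rw [e1]
    refine kam_step2 hl hω hσ hσ1 hν hk hp hp0 hpb
      (fun ρ h1 h2 => hL ▸ hmean ω σ ρ hω hσ hσ1 h1 h2) hκ hκ0 hκ1 (by positivity)
      (pow_le_one₀ (by norm_num) (by norm_num)) (fun n => ?_) H
    have e2 : σ * (1 / 2) ^ j = σ / 2 ^ j := by rw [one_div_pow]; ring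
    have e3 : Ω / ((1 / 2) ^ j) ^ 7 = Ω * 128 ^ j := by
      rw [← pow_mul, mul_comm j 7, pow_mul, div_eq_mul_inv, ← inv_pow]
      norm_num
    rw [e2, e3]
    exact hΩ j n
  choose! F hF using step
  have h0 : kamSt lam ω p ν σ κ ((1 / 2) ^ 0) (fun _ => 0) := by
    refine ⟨differentiableOn_const _, rfl, fun w hw => ⟨by simp, by simp, ?_⟩⟩
    have hw1 : w ∈ ball (0 : ℂ) 1 :=
      ball_subset_ball (Real.exp_le_one_iff.2 (by norm_num; linarith)) hw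
    simpa [kamErr] using hpb w hw1
  let Ψ : ℕ → ℂ → ℂ := fun n => Nat.rec (fun _ => 0) F n
  have hS : ∀ j, kamSt lam ω p ν σ κ ((1 / 2) ^ j) (Ψ j) := by
    intro j
    induction j with
    | zero => exact h0
    | succ j ih => exact (hF j _ ih).1
  obtain ⟨ψ, h1, h2, h3⟩ := kam_limit hl hσ hσ1 hp hκ0 hκ1 hS (fun j => (hF j _ (hS j)).2)
  refine ⟨ψ, h1, h2, fun w hw => ⟨(h3 w hw).1.trans ?_, (h3 w hw).2⟩⟩
  nlinarith [mul_nonneg hκ0 hσ.le]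

end Pool.Agent.Lib.MP_102662_an
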