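import Pool.Agent.Lib.MP_102662_an.Cohom

open Complex Metric Set Filter Topology

namespace Pool.Agent.Lib.MP_102662_an

/-- The error of an approximate solution of the logarithmic conjugacy equation. -/
noncomputable def kamErr (lam : ℂ) (p ψ : ℂ → ℂ) (w : ℂ) : ℂ :=
  ψ w + p (w * exp (ψ w)) - ψ (lam * w)

theorem kam_exp_le {s : ℝ} (hs : 0 < s) (hs1 : s ≤ 1 / 10) : Real.exp (-s) ≤ 1 - 9 / 10 * s := by
  have h1 : s + 1 ≤ Real.exp s := Real.add_one_le_exp s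
  have h2 : Real.exp (-s) * Real.exp s = 1 := by rw [← Real.exp_add]; simp
  have h3 : 0 < Real.exp (-s) := Real.exp_pos _
  nlinarith

theorem kam_wt_low {ω w : ℂ} {σ : ℝ} (hω : ‖ω‖ = 1) (hσ : 0 < σ) (hσ1 : σ ≤ 1 / 10)
    (hw : ‖w‖ ≤ Real.exp (-σ)) : 9 / 10 * σ ≤ ‖ω - w‖ := by
  have h1 := kam_exp_le hσ hσ1
  have h2 := norm_sub_norm_le ω w
  linarith

theorem kam_wt_cmp {ω w w' : ℂ} {σ μ : ℝ} (hω : ‖ω‖ = 1) (hσ : 0 < σ) (hσ1 : σ ≤ 1 / 10)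
    (hμ : 0 ≤ μ) (hw : ‖w‖ ≤ Real.exp (-σ)) (hw' : ‖w' - w‖ ≤ 2 / 5 * σ) :
    μ / ‖ω - w'‖ ≤ 2 * μ / ‖ω - w‖ := by
  have h1 := kam_wt_low hω hσ hσ1 hw
  have h2 : ‖ω - w‖ ≤ ‖ω - w'‖ + ‖w' - w‖ := by
    simpa using norm_add_le (ω - w') (w' - w)
  have h3 : 0 < ‖ω - w‖ := by linarith
  have h4 : ‖ω - w‖ / 2 ≤ ‖ω - w'‖ := by linarith
  calc μ / ‖ω - w'‖ ≤ μ / (‖ω - w‖ / 2) := div_le_div_of_nonneg_left hμ (by linarith) h4
    _ = 2 * μ / ‖ω - w‖ := by field_simp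

theorem kam_mapsTo {f : ℂ → ℂ} {c : ℂ} {ρ M : ℝ} (hρ : 0 < ρ)
    (hM : ∀ z ∈ ball c ρ, ‖f z‖ ≤ M) : MapsTo f (ball c ρ) (closedBall (f c) (2 * M)) := by
  intro z hz
  rw [mem_closedBall, dist_eq_norm]
  have h1 := norm_sub_le (f z) (f c)
  have h2 := hM z hz
  have h3 := hM c (mem_ball_self hρ)
  linarith

/-- Cauchy estimate for the logarithmic derivative operator. -/
theorem kam_cauchy {g : ℂ → ℂ} {r s M : ℝ} {w : ℂ} (hr : 0 < r) (hs : 0 < s) (hs1 : s ≤ 1 / 10)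
    (hg : DifferentiableOn ℂ g (ball 0 r)) (hw : ‖w‖ < r * Real.exp (-s))
    (hM : ∀ w' ∈ ball (0 : ℂ) r, ‖w' - w‖ ≤ r * s / 4 → ‖g w'‖ ≤ M) :
    ‖w * deriv g w‖ ≤ 8 * M / s := by
  have h1 := kam_exp_le hs hs1
  have hδ : 0 < r * s / 4 := by positivity
  have hrs : 0 < r * s := by positivity
  have hw1 : ‖w‖ ≤ r - 9 / 10 * (r * s) := by nlinarith
  have hsub : ball w (r * s / 4) ⊆ ball 0 r := by
    intro z hz
    rw [mem_ball, dist_eq_norm] at hz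
    rw [mem_ball_zero_iff]
    have : ‖z‖ ≤ ‖z - w‖ + ‖w‖ := by simpa using norm_add_le (z - w) w
    linarith
  have hb : ∀ z ∈ ball w (r * s / 4), ‖g z‖ ≤ M := fun z hz =>
    hM z (hsub hz) (by rw [mem_ball, dist_eq_norm] at hz; exact hz.le)
  have hM0 : 0 ≤ M := (norm_nonneg _).trans (hb w (mem_ball_self hδ))
  have h2 := norm_deriv_le_div_of_mapsTo_ball (hg.mono hsub) (kam_mapsTo hδ hb) hδ
  rw [norm_mul]
  calc ‖w‖ * ‖deriv g w‖ ≤ r * (2 * M / (r * s / 4)) :=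
        mul_le_mul (by linarith) h2 (norm_nonneg _) hr.le
    _ = 8 * M / s := by field_simp; ring

/-- Second order Taylor estimate on a disc. -/
theorem kam_taylor {f : ℂ → ℂ} {ρ M : ℝ} {z : ℂ} (hf : DifferentiableOn ℂ f (ball 0 ρ))
    (hM : ∀ y ∈ ball (0 : ℂ) ρ, ‖f y‖ ≤ M) (hz : z ∈ ball (0 : ℂ) ρ) :
    ‖f z - f 0 - deriv f 0 * z‖ ≤ 4 * M / ρ ^ 2 * ‖z‖ ^ 2 := by
  have hρ : 0 < ρ := pos_of_mem_ball hz
  have hd : DifferentiableOn ℂ (dslope f 0) (ball 0 ρ) :=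
    (differentiableOn_dslope (ball_mem_nhds _ hρ)).2 hf
  have hb : ∀ y ∈ ball (0 : ℂ) ρ, ‖dslope f 0 y‖ ≤ 2 * M / ρ := fun y hy =>
    norm_dslope_le_div_of_mapsTo_ball hf (kam_mapsTo hρ hM) hy
  have h1 := dist_le_div_mul_dist_of_mapsTo_ball hd (kam_mapsTo hρ hb) hz
  rw [dist_eq_norm, dist_zero_right, dslope_same] at h1
  have h2 : f z - f 0 - deriv f 0 * z = z * (dslope f 0 z - deriv f 0) := by
    have := sub_smul_dslope f 0 z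
    rw [sub_zero, smul_eq_mul] at this
    rw [← this]; ring
  rw [h2, norm_mul]
  calc ‖z‖ * ‖dslope f 0 z - deriv f 0‖ ≤ ‖z‖ * (2 * (2 * M / ρ) / ρ * ‖z‖) :=
        mul_le_mul_of_nonneg_left h1 (norm_nonneg _)
    _ = 4 * M / ρ ^ 2 * ‖z‖ ^ 2 := by field_simp; ring

theorem kam_near {w y : ℂ} {σ : ℝ} (hσ : 0 < σ) (hσ1 : σ ≤ 1 / 10)
    (hw : ‖w‖ ≤ Real.exp (-σ)) (hy : ‖y‖ ≤ σ / 5) :
    ‖w * exp y - w‖ ≤ 2 / 5 * σ ∧ ‖w * exp y‖ < 1 := by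
  have h1 := kam_exp_le hσ hσ1
  have h2 : ‖exp y - 1‖ ≤ 2 * ‖y‖ := norm_exp_sub_one_le (by linarith)
  have h3 : ‖w * exp y - w‖ ≤ 2 / 5 * σ := by
    rw [show w * exp y - w = w * (exp y - 1) by ring, norm_mul]
    calc ‖w‖ * ‖exp y - 1‖ ≤ 1 * (2 / 5 * σ) :=
          mul_le_mul (by linarith) (by linarith) (norm_nonneg _) zero_le_one
      _ = _ := one_mul _
  refine ⟨h3, ?_⟩
  have : ‖w * exp y‖ ≤ ‖w * exp y - w‖ + ‖w‖ := by simpa using norm_add_le (w * exp y - w) w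
  linarith

theorem kam_lam_mem {lam w : ℂ} {r : ℝ} (hl : ‖lam‖ ≤ 1) (hw : w ∈ ball (0 : ℂ) r) :
    lam * w ∈ ball (0 : ℂ) r := by
  rw [mem_ball_zero_iff] at hw ⊢
  rw [norm_mul]
  have := mul_le_mul_of_nonneg_right hl (norm_nonneg w)
  linarith

theorem kamErr_hasDerivAt {lam w : ℂ} {p ψ : ℂ → ℂ} (h1 : DifferentiableAt ℂ ψ w)
    (h2 : DifferentiableAt ℂ ψ (lam * w)) (h3 : DifferentiableAt ℂ p (w * exp (ψ w))) :
    HasDerivAt (kamErr lam p ψ)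
      (deriv ψ w + deriv p (w * exp (ψ w)) * (exp (ψ w) * (1 + w * deriv ψ w))
        - deriv ψ (lam * w) * lam) w := by
  have a1 : HasDerivAt (fun z => z * exp (ψ z)) (exp (ψ w) * (1 + w * deriv ψ w)) w := by
    have := (hasDerivAt_id' w).fun_mul h1.hasDerivAt.cexp
    exact this.congr_deriv (by ring)
  have a2 : HasDerivAt (fun z => lam * z) lam w := by simpa using (hasDerivAt_id w).const_mul lam
  have a3 := HasDerivAt.comp w (h₂ := p) h3.hasDerivAt a1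
  have a4 := HasDerivAt.comp w (h₂ := ψ) h2.hasDerivAt a2
  exact (h1.hasDerivAt.add a3).sub a4

/-- The quadratic remainder. -/
theorem kam_quad {ω w y u : ℂ} {p : ℂ → ℂ} {ν σ : ℝ} (hω : ‖ω‖ = 1) (hσ : 0 < σ)
    (hσ1 : σ ≤ 1 / 10) (hν : 0 ≤ ν) (hp : DifferentiableOn ℂ p (ball 0 1))
    (hpb : ∀ w ∈ ball (0 : ℂ) 1, ‖p w‖ ≤ ν / ‖ω - w‖) (hw : ‖w‖ ≤ Real.exp (-σ))
    (hy : ‖y‖ ≤ σ / 16) (hu : ‖u‖ ≤ σ / 16) :
    ‖p (w * exp (y + u)) - p (w * exp y) - deriv p (w * exp y) * (w * exp y) * u‖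
      ≤ 512 * ν * ‖u‖ ^ 2 / σ ^ 2 / ‖ω - w‖ := by
  have hn : ∀ z ∈ ball (0 : ℂ) (σ / 8),
      ‖w * exp (y + z) - w‖ ≤ 2 / 5 * σ ∧ ‖w * exp (y + z)‖ < 1 := by
    intro z hz
    rw [mem_ball_zero_iff] at hz
    exact kam_near hσ hσ1 hw (by have := norm_add_le y z; linarith)
  have hf : DifferentiableOn ℂ (fun z => p (w * exp (y + z))) (ball 0 (σ / 8)) :=
    hp.comp (by fun_prop) (fun z hz => mem_ball_zero_iff.2 (hn z hz).2)
  have hb : ∀ z ∈ ball (0 : ℂ) (σ / 8), ‖p (w * exp (y + z))‖ ≤ 2 * ν / ‖ω - w‖ := fun z hz =>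
    (hpb _ (mem_ball_zero_iff.2 (hn z hz).2)).trans (kam_wt_cmp hω hσ hσ1 hν hw (hn z hz).1)
  have h0 : (0 : ℂ) ∈ ball (0 : ℂ) (σ / 8) := mem_ball_self (by positivity)
  have hk : w * exp y ∈ ball (0 : ℂ) 1 := by simpa using (hn 0 h0).2
  have hd : HasDerivAt (fun z => p (w * exp (y + z))) (deriv p (w * exp y) * (w * exp y)) 0 := by
    have a1 : HasDerivAt (fun z => w * exp (y + z)) (w * exp y) 0 := by
      have := (((hasDerivAt_id (0 : ℂ)).const_add y).cexp).const_mul w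
      simpa using this
    have a2 : HasDerivAt p (deriv p (w * exp y)) (w * exp (y + 0)) := by
      rw [add_zero]; exact (hp.differentiableAt (isOpen_ball.mem_nhds hk)).hasDerivAt
    exact HasDerivAt.comp (0 : ℂ) (h₂ := p) a2 a1
  have := kam_taylor hf hb (z := u) (by rw [mem_ball_zero_iff]; linarith)
  rw [hd.deriv] at this
  simp only [add_zero] at this
  refine this.trans (le_of_eq ?_)
  field_simp; ring

end Pool.Agent.Lib.MP_102662_an
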