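import Pool.Agent.Lib.MP_102662_an.KAMX1

open Complex Metric Set Filter Topology

namespace Pool.Agent.Lib.MP_102662_an

/-- One Newton step. -/
theorem kam_step {lam ω : ℂ} {p ψ : ℂ → ℂ} {ν σ L r s μ Ω V : ℝ}
    (hl : ‖lam‖ ≤ 1) (hω : ‖ω‖ = 1) (hσ : 0 < σ) (hσ1 : σ ≤ 1 / 10) (hν : 0 ≤ ν)
    (hk : ∀ k : ℕ, 1 ≤ k → lam ^ k ≠ 1)
    (hp : DifferentiableOn ℂ p (ball 0 1)) (hp0 : p 0 = 0)
    (hpb : ∀ w ∈ ball (0 : ℂ) 1, ‖p w‖ ≤ ν / ‖ω - w‖)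
    (hL : ∀ ρ, 0 < ρ → ρ ≤ Real.exp (-σ) →
      Real.circleAverage (fun w => 1 / ‖ω - w‖) 0 ρ ≤ L)
    (hr : 0 < r) (hrσ : r ≤ Real.exp (-σ)) (hs : 0 < s) (hsσ : s ≤ σ) (hμ : 0 ≤ μ)
    (hΩ : ∀ n : ℕ, ∑ k ∈ Finset.range n,
      Real.exp (-(((k : ℝ) + 1) * s)) / ‖lam ^ (k + 1) - 1‖ ≤ Ω)
    (hV : 4 / 3 * μ * L * Ω ≤ V) (hVσ : V ≤ σ / 20)
    (hψ : DifferentiableOn ℂ ψ (ball 0 r)) (hψ0 : ψ 0 = 0)
    (hψb : ∀ w ∈ ball (0 : ℂ) r, ‖ψ w‖ ≤ σ / 16)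
    (hψD : ∀ w ∈ ball (0 : ℂ) r, ‖w * deriv ψ w‖ ≤ 1 / 4)
    (he : ∀ w ∈ ball (0 : ℂ) r, ‖kamErr lam p ψ w‖ ≤ μ / ‖ω - w‖) :
    ∃ u : ℂ → ℂ, DifferentiableOn ℂ u (ball 0 (r * Real.exp (-(2 * s)))) ∧ u 0 = 0 ∧
      ∀ w ∈ ball (0 : ℂ) (r * Real.exp (-(2 * s))),
        ‖u w‖ ≤ 5 / 4 * V ∧ ‖w * deriv u w‖ ≤ 10 * V / s ∧
        ‖kamErr lam p (fun z => ψ z + u z) w‖
          ≤ (16 * μ * V / s + 800 * ν * V ^ 2 / σ ^ 2) / ‖ω - w‖ := by
  have hs1 : s ≤ 1 / 10 := hsσ.trans hσ1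
  have hr1 : r ≤ 1 := hrσ.trans (Real.exp_le_one_iff.2 (by linarith))
  have hwσ : ∀ w ∈ ball (0 : ℂ) r, ‖w‖ ≤ Real.exp (-σ) := fun w hw =>
    (mem_ball_zero_iff.1 hw).le.trans hrσ
  have hkm : ∀ w ∈ ball (0 : ℂ) r, w * exp (ψ w) ∈ ball (0 : ℂ) 1 := fun w hw =>
    mem_ball_zero_iff.2 (kam_near hσ hσ1 (hwσ w hw) (by linarith [hψb w hw])).2
  have hψa : ∀ w ∈ ball (0 : ℂ) r, DifferentiableAt ℂ ψ w := fun w hw =>
    hψ.differentiableAt (isOpen_ball.mem_nhds hw)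
  have hed : ∀ w ∈ ball (0 : ℂ) r, HasDerivAt (kamErr lam p ψ)
      (deriv ψ w + deriv p (w * exp (ψ w)) * (exp (ψ w) * (1 + w * deriv ψ w))
        - deriv ψ (lam * w) * lam) w := fun w hw =>
    kamErr_hasDerivAt (hψa w hw) (hψa _ (kam_lam_mem hl hw))
      (hp.differentiableAt (isOpen_ball.mem_nhds (hkm w hw)))
  have hediff : DifferentiableOn ℂ (kamErr lam p ψ) (ball 0 r) := fun w hw =>
    (hed w hw).differentiableAt.differentiableWithinAt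
  obtain ⟨A, hA⟩ : ∃ A : ℂ → ℂ, A = fun w => 1 + w * deriv ψ w := ⟨_, rfl⟩
  have hAd : DifferentiableOn ℂ A (ball 0 r) := by
    rw [hA]
    exact (differentiableOn_id.mul (hψ.deriv isOpen_ball)).const_add 1
  have hAup : ∀ w ∈ ball (0 : ℂ) r, ‖A w‖ ≤ 5 / 4 := by
    intro w hw
    have h1 := norm_add_le (1 : ℂ) (w * deriv ψ w)
    have h2 := hψD w hw
    rw [norm_one] at h1
    rw [hA]; dsimp only; linarith
  have hAlow : ∀ w ∈ ball (0 : ℂ) r, 3 / 4 ≤ ‖A w‖ := by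
    intro w hw
    have h1 := norm_sub_le (1 + w * deriv ψ w) (w * deriv ψ w)
    have h2 := hψD w hw
    rw [add_sub_cancel_right, norm_one] at h1
    rw [hA]; dsimp only; linarith
  have hAne : ∀ w ∈ ball (0 : ℂ) r, A w ≠ 0 := fun w hw =>
    norm_pos_iff.1 (by linarith [hAlow w hw])
  obtain ⟨G, hG⟩ : ∃ G : ℂ → ℂ, G = fun w => kamErr lam p ψ w / A (lam * w) := ⟨_, rfl⟩
  have hGd : DifferentiableOn ℂ G (ball 0 r) := by
    rw [hG]
    exact hediff.div (hAd.comp (by fun_prop) (fun w hw => kam_lam_mem hl hw))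
      (fun w hw => hAne _ (kam_lam_mem hl hw))
  have hG0 : G 0 = 0 := by simp [hG, kamErr, hψ0, hp0]
  have hGb : ∀ w ∈ ball (0 : ℂ) r, ‖G w‖ ≤ (4 / 3 * μ) • (1 / ‖ω - w‖) := by
    intro w hw
    have h1 := hAlow _ (kam_lam_mem hl hw)
    have h2 := he w hw
    have h3 : 0 ≤ μ / ‖ω - w‖ := by positivity
    rw [hG, smul_eq_mul]
    dsimp only
    rw [norm_div]
    calc _ ≤ (μ / ‖ω - w‖) / (3 / 4) := div_le_div₀ h3 h2 (by norm_num) h1
      _ = _ := by ring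
  have hM : ∀ ρ ∈ Ioo 0 r, Real.circleAverage (fun w => ‖G w‖) 0 ρ ≤ 4 / 3 * μ * L := by
    intro ρ hρ
    have hsub : sphere (0 : ℂ) ρ ⊆ ball 0 r := sphere_subset_ball hρ.2
    have c1 : ContinuousOn (fun w => ‖G w‖) (sphere 0 ρ) := (hGd.continuousOn.mono hsub).norm
    have c2 : ContinuousOn (fun w => (4 / 3 * μ) • (1 / ‖ω - w‖)) (sphere (0 : ℂ) ρ) := by
      have c3 : ContinuousOn (fun w => 1 / ‖ω - w‖) (sphere (0 : ℂ) ρ) := by
        refine ContinuousOn.div continuousOn_const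
          (continuous_const.sub continuous_id).norm.continuousOn ?_
        intro w hw
        have := kam_wt_low hω hσ hσ1 (hwσ w (hsub hw))
        exact (by linarith : 0 < ‖ω - w‖).ne'
      exact c3.const_smul (4 / 3 * μ)
    have h1 := Real.circleAverage_mono (c1.circleIntegrable hρ.1.le) (c2.circleIntegrable hρ.1.le)
      (fun x hx => hGb x (hsub (by rwa [abs_of_pos hρ.1] at hx)))
    rw [Real.circleAverage_fun_smul, smul_eq_mul] at h1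
    exact h1.trans (mul_le_mul_of_nonneg_left (hL ρ hρ.1 (hρ.2.le.trans hrσ)) (by positivity))
  obtain ⟨v, hvd, hv0, hv⟩ := cohom hl hk hr hs hGd hG0 hM hΩ
  have hes : Real.exp (-s) ≤ 1 := Real.exp_le_one_iff.2 (by linarith)
  have hr' : 0 < r * Real.exp (-s) := by positivity
  have sub1 : ball (0 : ℂ) (r * Real.exp (-s)) ⊆ ball 0 r :=
    ball_subset_ball (mul_le_of_le_one_right hr.le hes)
  have hrr : r * Real.exp (-(2 * s)) = r * Real.exp (-s) * Real.exp (-s) := by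
    rw [mul_assoc, ← Real.exp_add]; congr 2; ring
  have sub2 : ball (0 : ℂ) (r * Real.exp (-(2 * s))) ⊆ ball 0 (r * Real.exp (-s)) := by
    rw [hrr]; exact ball_subset_ball (mul_le_of_le_one_right hr'.le hes)
  have hvb : ∀ w ∈ ball (0 : ℂ) (r * Real.exp (-s)), ‖v w‖ ≤ V := fun w hw =>
    (hv w hw).1.trans hV
  have hV0 : 0 ≤ V := (norm_nonneg _).trans (hvb 0 (mem_ball_self hr'))
  have hud : DifferentiableOn ℂ (fun w => A w * v w) (ball 0 (r * Real.exp (-s))) :=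
    (hAd.mono sub1).mul hvd
  have hub : ∀ w ∈ ball (0 : ℂ) (r * Real.exp (-s)), ‖A w * v w‖ ≤ 5 / 4 * V := by
    intro w hw
    rw [norm_mul]
    exact mul_le_mul (hAup w (sub1 hw)) (hvb w hw) (norm_nonneg _) (by norm_num)
  refine ⟨fun w => A w * v w, hud.mono sub2, by simp [hv0], fun w hw => ⟨hub w (sub2 hw), ?_, ?_⟩⟩
  · have := kam_cauchy (w := w) hr' hs hs1 hud (by rw [← hrr]; exact mem_ball_zero_iff.1 hw)
      (fun w' hw' _ => hub w' hw')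
    refine this.trans (le_of_eq ?_)
    ring
  · have hw1 := sub2 hw
    have hw0 := sub1 hw1
    have hpos : 0 < ‖ω - w‖ := by linarith [kam_wt_low hω hσ hσ1 (hwσ w hw0)]
    have hDe : ‖w * deriv (kamErr lam p ψ) w‖ ≤ 8 * (2 * μ / ‖ω - w‖) / s := by
      refine kam_cauchy hr hs hs1 hediff (mem_ball_zero_iff.1 hw1) (fun w' hw' hd => ?_)
      refine (he w' hw').trans (kam_wt_cmp hω hσ hσ1 hμ (hwσ w hw0) (hd.trans ?_))
      nlinarith
    have hQ := kam_quad hω hσ hσ1 hν hp hpb (hwσ w hw0) (hψb w hw0) (u := A w * v w)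
      ((hub w hw1).trans (by linarith))
    have hco : A (lam * w) * (v (lam * w) - v w) = kamErr lam p ψ w := by
      rw [(hv w hw1).2, hG]
      exact mul_div_cancel₀ _ (hAne _ (kam_lam_mem hl hw0))
    have hid : kamErr lam p (fun z => ψ z + A z * v z) w =
        w * deriv (kamErr lam p ψ) w * v w +
          (p (w * exp (ψ w + A w * v w)) - p (w * exp (ψ w))
            - deriv p (w * exp (ψ w)) * (w * exp (ψ w)) * (A w * v w)) := by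
      rw [(hed w hw0).deriv]
      simp only [kamErr, hA] at hco ⊢
      linear_combination -hco
    rw [hid]
    refine (norm_add_le _ _).trans ?_
    have b1 : ‖w * deriv (kamErr lam p ψ) w * v w‖ ≤ 16 * μ * V / s / ‖ω - w‖ := by
      rw [norm_mul]
      calc _ ≤ 8 * (2 * μ / ‖ω - w‖) / s * V :=
            mul_le_mul hDe (hvb w hw1) (norm_nonneg _) (by positivity)
        _ = _ := by field_simp; ring
    have b2 : 512 * ν * ‖A w * v w‖ ^ 2 / σ ^ 2 / ‖ω - w‖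
        ≤ 800 * ν * V ^ 2 / σ ^ 2 / ‖ω - w‖ := by
      have : ‖A w * v w‖ ^ 2 ≤ (5 / 4 * V) ^ 2 :=
        pow_le_pow_left₀ (norm_nonneg _) (hub w hw1) 2
      calc _ ≤ 512 * ν * (5 / 4 * V) ^ 2 / σ ^ 2 / ‖ω - w‖ := by gcongr
        _ = _ := by ring
    rw [add_div]
    linarith

end Pool.Agent.Lib.MP_102662_an
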