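import Pool.Agent.Lib.MP_102662_an.KAMX2

open Complex Metric Set Filter Topology

namespace Pool.Agent.Lib.MP_102662_an

/-- The state of the Newton scheme at scale `x`. -/
def kamSt (lam ω : ℂ) (p : ℂ → ℂ) (ν σ κ x : ℝ) (ψ : ℂ → ℂ) : Prop :=
  DifferentiableOn ℂ ψ (ball 0 (Real.exp (-(σ * (5 - 4 * x))))) ∧ ψ 0 = 0 ∧
    ∀ w ∈ ball (0 : ℂ) (Real.exp (-(σ * (5 - 4 * x)))),
      ‖ψ w‖ ≤ 4 * κ * σ * (1 - x) ∧ ‖w * deriv ψ w‖ ≤ 27 * κ * (1 - x) ∧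
      ‖kamErr lam p ψ w‖ ≤ ν * x ^ 14 / ‖ω - w‖

theorem kam_step2 {lam ω : ℂ} {p ψ : ℂ → ℂ} {ν σ L Ω κ x : ℝ}
    (hl : ‖lam‖ ≤ 1) (hω : ‖ω‖ = 1) (hσ : 0 < σ) (hσ1 : σ ≤ 1 / 10) (hν : 0 ≤ ν)
    (hk : ∀ k : ℕ, 1 ≤ k → lam ^ k ≠ 1)
    (hp : DifferentiableOn ℂ p (ball 0 1)) (hp0 : p 0 = 0)
    (hpb : ∀ w ∈ ball (0 : ℂ) 1, ‖p w‖ ≤ ν / ‖ω - w‖)
    (hL : ∀ ρ, 0 < ρ → ρ ≤ Real.exp (-σ) →
      Real.circleAverage (fun w => 1 / ‖ω - w‖) 0 ρ ≤ L)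
    (hκ : ν * L * Ω = κ * σ) (hκ0 : 0 ≤ κ) (hκ1 : κ ≤ 1 / 1000000)
    (hx : 0 < x) (hx1 : x ≤ 1)
    (hΩ : ∀ n : ℕ, ∑ k ∈ Finset.range n,
      Real.exp (-(((k : ℝ) + 1) * (σ * x))) / ‖lam ^ (k + 1) - 1‖ ≤ Ω / x ^ 7)
    (H : kamSt lam ω p ν σ κ x ψ) :
    ∃ ψ' : ℂ → ℂ, kamSt lam ω p ν σ κ (x / 2) ψ' ∧
      ∀ w ∈ ball (0 : ℂ) (Real.exp (-(5 * σ))), ‖ψ' w - ψ w‖ ≤ 2 * κ * σ * x := by
  obtain ⟨hψ, hψ0, hψb⟩ := H
  have hκσ : 0 ≤ κ * σ := by positivity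
  have hσx : 0 < σ * x := by positivity
  have hσx1 : σ * x ≤ σ := mul_le_of_le_one_right hσ.le hx1
  have hx6 : x ^ 6 ≤ x := pow_le_of_le_one hx.le hx1 (by norm_num)
  have hx7 : x ^ 7 ≤ x := pow_le_of_le_one hx.le hx1 (by norm_num)
  have hκσ1 : κ * σ ≤ σ / 1000000 := by nlinarith
  have hκσx : κ * σ * x ^ 7 ≤ κ * σ * x := mul_le_mul_of_nonneg_left hx7 hκσ
  have hκσx1 : κ * σ * x ≤ κ * σ := mul_le_of_le_one_right hκσ hx1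
  have hκσx0 : 0 ≤ κ * σ * x := by positivity
  have hκx : κ * x ^ 6 ≤ κ * x := mul_le_mul_of_nonneg_left hx6 hκ0
  have hκx0 : 0 ≤ κ * x := by positivity
  have hκx1 : κ * x ≤ κ := mul_le_of_le_one_right hκ0 hx1
  obtain ⟨u, hud, hu0, hu⟩ := kam_step (r := Real.exp (-(σ * (5 - 4 * x)))) (s := σ * x)
    (μ := ν * x ^ 14) (V := 4 / 3 * (κ * σ * x ^ 7)) hl hω hσ hσ1 hν hk hp hp0 hpb hL
    (Real.exp_pos _) (Real.exp_le_exp.2 (by nlinarith)) hσx hσx1 (by positivity) hΩ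
    (le_of_eq (by rw [← hκ]; field_simp)) (by linarith) hψ hψ0
    (fun w hw => (hψb w hw).1.trans (by nlinarith))
    (fun w hw => (hψb w hw).2.1.trans (by nlinarith))
    (fun w hw => (hψb w hw).2.2)
  have hrr : Real.exp (-(σ * (5 - 4 * x))) * Real.exp (-(2 * (σ * x)))
      = Real.exp (-(σ * (5 - 4 * (x / 2)))) := by
    rw [← Real.exp_add]; congr 1; ring
  rw [hrr] at hud hu
  have sub1 : ball (0 : ℂ) (Real.exp (-(σ * (5 - 4 * (x / 2)))))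
      ⊆ ball 0 (Real.exp (-(σ * (5 - 4 * x)))) :=
    ball_subset_ball (Real.exp_le_exp.2 (by nlinarith))
  have sub2 : ball (0 : ℂ) (Real.exp (-(5 * σ)))
      ⊆ ball 0 (Real.exp (-(σ * (5 - 4 * (x / 2))))) :=
    ball_subset_ball (Real.exp_le_exp.2 (by nlinarith))
  refine ⟨fun z => ψ z + u z, ⟨(hψ.mono sub1).add hud, by simp [hψ0, hu0], fun w hw => ?_⟩,
    fun w hw => ?_⟩
  · obtain ⟨a1, a2, -⟩ := hψb w (sub1 hw)
    obtain ⟨b1, b2, b3⟩ := hu w hw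
    refine ⟨(norm_add_le _ _).trans (by nlinarith), ?_, b3.trans ?_⟩
    · rw [deriv_fun_add ((hψ.mono sub1).differentiableAt (isOpen_ball.mem_nhds hw))
        (hud.differentiableAt (isOpen_ball.mem_nhds hw)), mul_add]
      have e : 10 * (4 / 3 * (κ * σ * x ^ 7)) / (σ * x) = 40 / 3 * (κ * x ^ 6) := by
        field_simp; ring
      rw [e] at b2
      refine (norm_add_le _ _).trans ?_
      nlinarith
    · refine div_le_div_of_nonneg_right ?_ (norm_nonneg _)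
      have e : 16 * (ν * x ^ 14) * (4 / 3 * (κ * σ * x ^ 7)) / (σ * x)
          + 800 * ν * (4 / 3 * (κ * σ * x ^ 7)) ^ 2 / σ ^ 2
          = ν * x ^ 14 * (64 / 3 * (κ * x ^ 6) + 12800 / 9 * (κ * κ)) := by
        field_simp; ring
      have e2 : ν * (x / 2) ^ 14 = ν * x ^ 14 * (1 / 16384) := by ring
      rw [e, e2]
      refine mul_le_mul_of_nonneg_left ?_ (by positivity)
      nlinarith
  · have := (hu w (sub2 hw)).1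
    rw [add_sub_cancel_left]
    nlinarith

end Pool.Agent.Lib.MP_102662_an
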