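import Pool.Agent.Lib.MP_102662_an.Koebe
import Pool.Agent.Lib.MP_102662_an.Basic

open Complex Metric Set Filter Topology

namespace Pool.Agent.Lib.MP_102662_an

theorem KExt.norm_le {lam η : ℂ} {h : ℂ → ℂ} (H : KExt lam η h) : ‖η‖ ≤ 4 := by
  have := koebe_quarter (ξ := 1) (norm_pos_iff.2 H.ne) H.diff H.inj
    (by rintro ⟨w, hw, h1⟩; exact H.ne_one w hw h1)
  simpa [H.one, H.zero] using this

namespace KextB

variable {lam η : ℂ} {h : ℂ → ℂ}

theorem mul_dslope (H : KExt lam η h) (w : ℂ) : w * dslope h 0 w = h w := by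
  have := sub_smul_dslope h 0 w
  simpa [H.zero] using this

theorem dslope_zero (H : KExt lam η h) : dslope h 0 0 = 1 := by
  rw [dslope_same, H.one]

theorem dslope_diff (H : KExt lam η h) : DifferentiableOn ℂ (dslope h 0) (ball 0 ‖η‖) :=
  (differentiableOn_dslope (ball_mem_nhds _ (norm_pos_iff.2 H.ne))).2 H.diff

theorem dslope_eqn (H : KExt lam η h) {w : ℂ} (hw : w ∈ ball (0 : ℂ) ‖η‖) :
    dslope h 0 w = dslope h 0 (lam * w) * (1 - w * dslope h 0 w) ^ 2 := by
  rcases eq_or_ne w 0 with rfl | hw0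
  · simp [H.one]
  have h1 := H.eqn w hw
  have h2 : (1 - h w) ≠ 0 := sub_ne_zero.2 (H.ne_one w hw).symm
  rw [koebe, div_eq_iff (pow_ne_zero _ h2)] at h1
  apply mul_left_cancel₀ hw0
  rw [mul_dslope H, ← mul_assoc]
  exact h1

theorem norm_dslope_le (H : KExt lam η h) {r : ℝ} (hr0 : 0 ≤ r) (hr : r < 1) {w : ℂ}
    (hw : ‖w‖ ≤ r * ‖η‖) : ‖dslope h 0 w‖ ≤ 1 / (1 - r) ^ 4 := by
  have hρ := norm_pos_iff.2 H.ne
  have h1r : 0 < 1 - r := by linarith
  rcases eq_or_ne w 0 with rfl | hw0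
  · rw [dslope_zero H, norm_one, le_div_iff₀ (by positivity), one_mul]
    exact pow_le_one₀ h1r.le (by linarith)
  have hw' : w ∈ ball (0 : ℂ) ‖η‖ := by
    rw [mem_ball_zero_iff]; nlinarith
  have h1 := univ_growth H.diff H.inj H.zero H.one hw'
  rw [← mul_dslope H, norm_mul] at h1
  have hwp := norm_pos_iff.2 hw0
  have h2 : ‖w‖ / ‖η‖ ≤ r := by rwa [div_le_iff₀ hρ]
  have h3 : ‖w‖ / (1 - ‖w‖ / ‖η‖) ^ 4 ≤ ‖w‖ * (1 / (1 - r) ^ 4) := by
    rw [mul_one_div]
    gcongr
  exact le_of_mul_le_mul_left (h1.trans h3) hwp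

theorem norm_dslope_sub_one_le (H : KExt lam η h) {t : ℂ} (ht : ‖t‖ < 1 / 2) :
    ‖dslope h 0 (t * η) - 1‖ ≤ 34 * ‖t‖ := by
  have hρ := norm_pos_iff.2 H.ne
  have hsub : ball (0 : ℂ) (1 / 2 * ‖η‖) ⊆ ball 0 ‖η‖ := ball_subset_ball (by linarith)
  have hm : MapsTo (dslope h 0) (ball 0 (1 / 2 * ‖η‖)) (closedBall (dslope h 0 0) 17) := by
    intro w hw
    have h1 := norm_dslope_le H (r := 1 / 2) (by norm_num) (by norm_num)
      (mem_ball_zero_iff.1 hw).le
    rw [mem_closedBall, dist_eq_norm, dslope_zero H]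
    refine (norm_sub_le _ _).trans ?_
    norm_num at h1 ⊢
    linarith
  have hz : t * η ∈ ball (0 : ℂ) (1 / 2 * ‖η‖) := by
    rw [mem_ball_zero_iff, norm_mul]; nlinarith
  have h1 := Complex.dist_le_div_mul_dist_of_mapsTo_ball ((dslope_diff H).mono hsub) hm hz
  rw [dist_eq_norm, dslope_zero H, dist_zero_right, norm_mul] at h1
  refine h1.trans_eq ?_
  field_simp
  ring

theorem iteratedDeriv_scale {D : ℂ → ℂ} {ρ : ℝ} (hρ : 0 < ρ)
    (hD : DifferentiableOn ℂ D (ball 0 ρ)) {c : ℂ} (hc : ‖c‖ ≤ 1) (n : ℕ) :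
    iteratedDeriv n (fun w => D (c * w)) 0 = c ^ n * iteratedDeriv n D 0 := by
  have h0 : (0 : ℂ) ∈ ball (0 : ℂ) ρ := mem_ball_self hρ
  have hmaps : MapsTo (c * ·) (ball (0 : ℂ) ρ) (ball 0 ρ) := by
    intro w hw
    rw [mem_ball_zero_iff] at hw ⊢
    rw [norm_mul]
    nlinarith [norm_nonneg w, norm_nonneg c]
  have h1 := iteratedDerivWithin_comp_const_smul (n := n) h0 isOpen_ball.uniqueDiffOn
    (hD.contDiffOn isOpen_ball) c hmaps
  rw [iteratedDerivWithin_of_isOpen isOpen_ball h0, mul_zero,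
    iteratedDerivWithin_of_isOpen isOpen_ball h0] at h1
  simpa using h1

theorem iteratedDeriv_one_sub {D : ℂ → ℂ} (hD : AnalyticAt ℂ D 0) (n : ℕ) :
    iteratedDeriv n (fun w => 1 - w * D w) 0 =
      if n = 0 then 1 else -((n : ℂ) * iteratedDeriv (n - 1) D 0) := by
  rcases Nat.eq_zero_or_pos n with rfl | hn
  · simp
  rw [if_neg hn.ne', iteratedDeriv_const_sub hn, iteratedDeriv_neg]
  congr 1
  rw [iteratedDeriv_fun_mul (f := fun w : ℂ => w) contDiffAt_id hD.contDiffAt]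
  simp only [iteratedDeriv_fun_id_zero]
  rw [Finset.sum_eq_single 1]
  · simp
  · intro b _ hb
    simp [hb]
  · intro h1
    exact absurd (Finset.mem_range.2 (by omega)) h1

theorem coeff_diff {η : ℂ → ℂ} {h : ℂ → ℂ → ℂ}
    (H : ∀ lam ∈ ball (0 : ℂ) 1, KExt lam (η lam) (h lam)) (n : ℕ) :
    DifferentiableOn ℂ (fun lam => iteratedDeriv n (dslope (h lam) 0) 0) (ball 0 1) := by
  induction n using Nat.strong_induction_on with
  | _ n ih =>
  rcases Nat.eq_zero_or_pos n with rfl | hn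
  · refine (differentiableOn_const (c := (1 : ℂ))).congr fun lam hl => ?_
    rw [iteratedDeriv_zero, dslope_zero (H lam hl)]
  let d : ℕ → ℂ → ℂ := fun i lam => iteratedDeriv i (dslope (h lam) 0) 0
  let e : ℕ → ℂ → ℂ := fun i lam => if i = 0 then 1 else -((i : ℂ) * d (i - 1) lam)
  let E : ℕ → ℂ → ℂ := fun m lam =>
    ∑ j ∈ Finset.range (m + 1), (m.choose j : ℂ) * e j lam * e (m - j) lam
  have he : ∀ i ≤ n, DifferentiableOn ℂ (e i) (ball 0 1) := by
    intro i hi
    rcases Nat.eq_zero_or_pos i with rfl | hi0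
    · exact (differentiableOn_const (c := (1 : ℂ))).congr fun lam _ => by simp [e]
    · refine (((ih (i - 1) (by omega)).const_mul (i : ℂ)).neg).congr fun lam _ => ?_
      simp [e, d, hi0.ne']
  have hE : ∀ m ≤ n, DifferentiableOn ℂ (E m) (ball 0 1) := by
    intro m hm
    refine DifferentiableOn.fun_sum fun j hj => ?_
    have := Finset.mem_range.1 hj
    exact ((he j (by omega)).const_mul _).mul (he (m - j) (by omega))
  have hne : ∀ lam ∈ ball (0 : ℂ) 1, 1 - lam ^ n ≠ 0 := by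
    intro lam hl h0
    have h1 : ‖lam ^ n‖ < 1 := by
      rw [norm_pow]
      exact pow_lt_one₀ (norm_nonneg _) (mem_ball_zero_iff.1 hl) hn.ne'
    rw [← sub_eq_zero.1 h0] at h1
    simp at h1
  have hform : ∀ lam ∈ ball (0 : ℂ) 1, d n lam =
      (∑ i ∈ Finset.range n, (n.choose i : ℂ) * (lam ^ i * d i lam) * E (n - i) lam) /
        (1 - lam ^ n) := by
    intro lam hl
    have K := H lam hl
    have hρ := norm_pos_iff.2 K.ne
    have hl1 := (mem_ball_zero_iff.1 hl).le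
    have hA : AnalyticAt ℂ (dslope (h lam) 0) 0 :=
      (dslope_diff K).analyticAt (ball_mem_nhds _ hρ)
    have hA1 : AnalyticAt ℂ (fun w => dslope (h lam) 0 (lam * w)) 0 :=
      AnalyticAt.comp_of_eq hA (analyticAt_const.mul analyticAt_id) (mul_zero _)
    have hA2 : AnalyticAt ℂ (fun w => 1 - w * dslope (h lam) 0 w) 0 :=
      analyticAt_const.sub (analyticAt_id.mul hA)
    have hev : dslope (h lam) 0 =ᶠ[𝓝 0] fun w => dslope (h lam) 0 (lam * w) *
        ((1 - w * dslope (h lam) 0 w) * (1 - w * dslope (h lam) 0 w)) := by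
      filter_upwards [ball_mem_nhds (0 : ℂ) hρ] with w hw
      rw [← pow_two]
      exact dslope_eqn K hw
    have hEm : ∀ m, iteratedDeriv m (fun w => (1 - w * dslope (h lam) 0 w) *
        (1 - w * dslope (h lam) 0 w)) 0 = E m lam := by
      intro m
      rw [iteratedDeriv_fun_mul hA2.contDiffAt hA2.contDiffAt]
      simp only [iteratedDeriv_one_sub hA, E, e, d]
    have h1 := hev.iteratedDeriv_eq n
    rw [iteratedDeriv_fun_mul hA1.contDiffAt (hA2.fun_mul hA2).contDiffAt] at h1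
    simp only [iteratedDeriv_scale hρ (dslope_diff K) hl1, hEm] at h1
    rw [Finset.sum_range_succ] at h1
    have hE0 : E 0 lam = 1 := by simp [E, e]
    rw [Nat.sub_self, hE0, Nat.choose_self] at h1
    rw [eq_div_iff (hne lam hl)]
    simp only [d]
    linear_combination h1
  refine DifferentiableOn.congr ?_ hform
  refine DifferentiableOn.div (DifferentiableOn.fun_sum fun i hi => ?_)
    ((differentiableOn_const _).sub (differentiableOn_pow _)) hne
  have := Finset.mem_range.1 hi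
  exact (((differentiableOn_pow i).mul (ih i this)).const_mul _).mul (hE (n - i) (by omega))

end KextB

open KextB

theorem kext_eta_diff {η : ℂ → ℂ} {h : ℂ → ℂ → ℂ}
    (H : ∀ lam ∈ ball (0 : ℂ) 1, KExt lam (η lam) (h lam)) :
    DifferentiableOn ℂ η (ball 0 1) := by
  let ζ : ℕ → ℂ → ℂ := fun n lam => η lam * dslope (h lam) 0 (lam ^ (n + 1) * η lam)
  have hζ : ∀ n, DifferentiableOn ℂ (ζ n) (ball 0 1) := by
    intro n
    induction n with
    | zero =>
      refine (differentiableOn_const (c := (-1 / 4 : ℂ))).congr fun lam hl => ?_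
      simpa [ζ] using (H lam hl).crit
    | succ n ih =>
      have hmem : ∀ lam ∈ ball (0 : ℂ) 1, lam ^ (n + 1) * η lam ∈ ball (0 : ℂ) ‖η lam‖ := by
        intro lam hl
        have h1 : ‖lam‖ ^ (n + 1) < 1 :=
          pow_lt_one₀ (norm_nonneg _) (mem_ball_zero_iff.1 hl) (Nat.succ_ne_zero _)
        rw [mem_ball_zero_iff, norm_mul, norm_pow]
        nlinarith [norm_pos_iff.2 (H lam hl).ne]
      have hne : ∀ lam ∈ ball (0 : ℂ) 1, 1 - lam ^ (n + 1) * ζ n lam ≠ 0 := by
        intro lam hl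
        have h1 := (H lam hl).ne_one _ (hmem lam hl)
        rw [← mul_dslope (H lam hl), mul_assoc] at h1
        exact sub_ne_zero.2 h1.symm
      refine (ih.div (((differentiableOn_const (c := (1 : ℂ))).sub
        ((differentiableOn_pow (n + 1)).mul ih)).pow 2)
        fun lam hl => pow_ne_zero 2 (hne lam hl)).congr fun lam hl => ?_
      have h1 := dslope_eqn (H lam hl) (hmem lam hl)
      change ζ (n + 1) lam = ζ n lam / (1 - lam ^ (n + 1) * ζ n lam) ^ 2
      rw [eq_div_iff (pow_ne_zero 2 (hne lam hl))]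
      simp only [ζ]
      rw [← mul_assoc lam, ← pow_succ', mul_assoc (lam ^ (n + 1))] at h1
      linear_combination (-η lam) * h1
  intro l0 hl0
  obtain ⟨r, hr0, hr1⟩ := exists_between (mem_ball_zero_iff.1 hl0)
  have hrpos : 0 < r := (norm_nonneg _).trans_lt hr0
  have hsub : ball (0 : ℂ) r ⊆ ball 0 1 := ball_subset_ball hr1.le
  have hu : TendstoUniformlyOn ζ η atTop (ball 0 r) := by
    rw [Metric.tendstoUniformlyOn_iff]
    intro ε hε
    have ht : Tendsto (fun n : ℕ => r ^ (n + 1)) atTop (𝓝 0) :=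
      (tendsto_pow_atTop_nhds_zero_of_lt_one hrpos.le hr1).comp (tendsto_add_atTop_nat 1)
    filter_upwards [ht.eventually (gt_mem_nhds (show (0 : ℝ) < 1 / 2 by norm_num)),
      ht.eventually (gt_mem_nhds (show (0 : ℝ) < ε / 136 by positivity))] with n h1 h2 lam hl
    have K := H lam (hsub hl)
    have h3 : ‖lam ^ (n + 1)‖ ≤ r ^ (n + 1) := by
      rw [norm_pow]
      exact pow_le_pow_left₀ (norm_nonneg _) (mem_ball_zero_iff.1 hl).le _
    have h4 := norm_dslope_sub_one_le K (h3.trans_lt h1)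
    have h5 : η lam - ζ n lam = -η lam * (dslope (h lam) 0 (lam ^ (n + 1) * η lam) - 1) := by
      simp only [ζ]; ring
    rw [dist_eq_norm, h5, norm_mul, norm_neg]
    calc ‖η lam‖ * ‖dslope (h lam) 0 (lam ^ (n + 1) * η lam) - 1‖
        ≤ 4 * (34 * ‖lam ^ (n + 1)‖) := mul_le_mul K.norm_le h4 (norm_nonneg _) (by norm_num)
      _ < ε := by linarith
  have hd := hu.tendstoLocallyUniformlyOn.differentiableOn
    (Eventually.of_forall fun n => (hζ n).mono hsub) isOpen_ball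
  exact (hd.differentiableAt (isOpen_ball.mem_nhds (mem_ball_zero_iff.2 hr0))).differentiableWithinAt

/-- Holomorphic dependence on the multiplier. -/
theorem kext_J_diff {η : ℂ → ℂ} {h : ℂ → ℂ → ℂ}
    (H : ∀ lam ∈ ball (0 : ℂ) 1, KExt lam (η lam) (h lam)) {t : ℂ → ℂ} {r₀ : ℝ} (hr : r₀ < 1)
    (ht : DifferentiableOn ℂ t (ball 0 1)) (htr : ∀ lam ∈ ball (0 : ℂ) 1, ‖t lam‖ ≤ r₀) :
    DifferentiableOn ℂ (fun lam => h lam (t lam * η lam)) (ball 0 1) := by
  have hr0 : 0 ≤ r₀ := (norm_nonneg _).trans (htr 0 (mem_ball_self one_pos))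
  obtain ⟨r, hr1, hr2⟩ := exists_between hr
  have hrpos : 0 < r := hr0.trans_lt hr1
  have hw : DifferentiableOn ℂ (fun lam => t lam * η lam) (ball 0 1) := ht.mul (kext_eta_diff H)
  let F : ℕ → ℂ → ℂ := fun n lam =>
    (n.factorial : ℂ)⁻¹ * ((t lam * η lam) ^ n * iteratedDeriv n (dslope (h lam) 0) 0)
  have hF : ∀ n, DifferentiableOn ℂ (F n) (ball 0 1) := fun n =>
    ((hw.pow n).mul (coeff_diff H n)).const_mul _
  have hq : r₀ / r < 1 := (div_lt_one hrpos).2 hr1
  have hsum : Summable fun n : ℕ => 1 / (1 - r) ^ 4 * (r₀ / r) ^ n :=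
    (summable_geometric_of_lt_one (by positivity) hq).mul_left _
  have hle : ∀ n lam, lam ∈ ball (0 : ℂ) 1 → ‖F n lam‖ ≤ 1 / (1 - r) ^ 4 * (r₀ / r) ^ n := by
    intro n lam hl
    have K := H lam hl
    have hρ := norm_pos_iff.2 K.ne
    have hR : 0 < r * ‖η lam‖ := mul_pos hrpos hρ
    have hcl : closedBall (0 : ℂ) (r * ‖η lam‖) ⊆ ball 0 ‖η lam‖ :=
      closedBall_subset_ball (by nlinarith)
    have h1 := Complex.norm_iteratedDeriv_le_of_forall_mem_sphere_norm_le
      (C := 1 / (1 - r) ^ 4) n hR ((dslope_diff K).diffContOnCl_ball hcl)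
      fun z hz => norm_dslope_le K hrpos.le hr2 (mem_sphere_zero_iff_norm.1 hz).le
    have h1r : 0 < 1 - r := by linarith
    have hfac : (0 : ℝ) < n.factorial := by exact_mod_cast n.factorial_pos
    have h2 := htr lam hl
    simp only [F, norm_mul, norm_inv, norm_pow, Complex.norm_natCast]
    calc (n.factorial : ℝ)⁻¹ * ((‖t lam‖ * ‖η lam‖) ^ n * ‖iteratedDeriv n (dslope (h lam) 0) 0‖)
        ≤ (n.factorial : ℝ)⁻¹ * ((r₀ * ‖η lam‖) ^ n *
            (n.factorial * (1 / (1 - r) ^ 4) / (r * ‖η lam‖) ^ n)) := by gcongr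
      _ = 1 / (1 - r) ^ 4 * (r₀ / r) ^ n := by
        rw [mul_pow, mul_pow, div_pow]
        field_simp
  have hS := Complex.differentiableOn_tsum_of_summable_norm hsum hF isOpen_ball hle
  refine (hw.mul hS).congr fun lam hl => ?_
  have K := H lam hl
  have hmem : t lam * η lam ∈ ball (0 : ℂ) ‖η lam‖ := by
    rw [mem_ball_zero_iff, norm_mul]
    nlinarith [norm_pos_iff.2 K.ne, htr lam hl]
  have h1 := (Complex.hasSum_taylorSeries_on_ball (dslope_diff K) hmem).tsum_eq
  simp only [sub_zero, smul_eq_mul] at h1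
  rw [← mul_dslope K, ← h1]
  rfl

end Pool.Agent.Lib.MP_102662_an
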