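import Pool.Agent.Lib.MP_102662_an.West

open Complex Metric Set Filter Topology

namespace Pool.Agent.Lib.MP_102662_an

namespace Lam1X

theorem seg_mem {r : ℝ} {y y' : ℂ} (hy : y ∈ ball (0 : ℂ) r) (hy' : y' ∈ ball (0 : ℂ) r) {s : ℝ}
    (h0 : 0 ≤ s) (h1 : s ≤ 1) : y' + s * (y - y') ∈ ball (0 : ℂ) r := by
  have := (convex_ball (0 : ℂ) r).add_smul_sub_mem hy' hy ⟨h0, h1⟩
  simpa using this

/-- Mean value theorem for a real projection of a holomorphic map. -/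
theorem mvt {M m : ℂ → ℂ} {r : ℝ} (hM : ∀ z ∈ ball (0 : ℂ) r, HasDerivAt M (m z) z) (c : ℂ)
    {y y' : ℂ} (hy : y ∈ ball (0 : ℂ) r) (hy' : y' ∈ ball (0 : ℂ) r) :
    ∃ s : ℝ, 0 < s ∧ s < 1 ∧
      (c * (M y - M y')).re = (c * (y - y') * m (y' + s * (y - y'))).re := by
  have hd : ∀ s : ℝ, 0 ≤ s → s ≤ 1 → HasDerivAt (fun s : ℝ => (c * M (y' + s * (y - y'))).re)
      ((c * (y - y') * m (y' + s * (y - y'))).re) s := by
    intro s h0 h1
    have a : HasDerivAt (fun z : ℂ => y' + z * (y - y')) (y - y') (s : ℂ) := by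
      simpa using ((hasDerivAt_id (s : ℂ)).mul_const (y - y')).const_add y'
    have b := HasDerivAt.comp (h₂ := M) (h := fun z : ℂ => y' + z * (y - y')) (s : ℂ)
      (hM _ (seg_mem hy hy' h0 h1)) a
    have d := (b.const_mul c).real_of_complex
    have e : c * (m (y' + s * (y - y')) * (y - y')) = c * (y - y') * m (y' + s * (y - y')) := by
      ring
    rw [e] at d
    exact d
  obtain ⟨s, hs, he⟩ := exists_hasDerivAt_eq_slope (fun s : ℝ => (c * M (y' + s * (y - y'))).re)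
    (fun s : ℝ => (c * (y - y') * m (y' + s * (y - y'))).re) zero_lt_one
    (fun s hs => (hd s hs.1 hs.2).continuousAt.continuousWithinAt)
    (fun s hs => hd s hs.1.le hs.2.le)
  refine ⟨s, hs.1, hs.2, ?_⟩
  rw [he]
  simp [mul_sub]

section estimates

variable {M m : ℂ → ℂ} {r C ε : ℝ}

theorem upper (hM : ∀ z ∈ ball (0 : ℂ) r, HasDerivAt M (m z) z)
    (hm : ∀ z ∈ ball (0 : ℂ) r, ‖m z‖ ≤ C) {y y' : ℂ} (hy : y ∈ ball (0 : ℂ) r)
    (hy' : y' ∈ ball (0 : ℂ) r) : ‖M y - M y'‖ ≤ C * ‖y - y'‖ :=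
  (convex_ball (0 : ℂ) r).norm_image_sub_le_of_norm_hasDerivWithin_le
    (fun z hz => (hM z hz).hasDerivWithinAt) hm hy' hy

theorem lower (hC : 0 < C) (hM : ∀ z ∈ ball (0 : ℂ) r, HasDerivAt M (m z) z)
    (hm : ∀ z ∈ ball (0 : ℂ) r, 1 / C ≤ (m z).re) {y y' : ℂ} (hy : y ∈ ball (0 : ℂ) r)
    (hy' : y' ∈ ball (0 : ℂ) r) : ‖y - y'‖ ≤ C * ‖M y - M y'‖ := by
  obtain ⟨s, h0, h1, he⟩ := mvt hM ((starRingEnd ℂ) (y - y')) hy hy'
  have a := hm _ (seg_mem hy hy' h0.le h1.le)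
  rw [conj_mul', ← ofReal_pow, re_ofReal_mul] at he
  have b : ((starRingEnd ℂ) (y - y') * (M y - M y')).re ≤ ‖y - y'‖ * ‖M y - M y'‖ := by
    refine (re_le_norm _).trans (le_of_eq ?_)
    rw [norm_mul, RCLike.norm_conj]
  rcases (norm_nonneg (y - y')).eq_or_lt with h | h
  · rw [← h]; positivity
  · have c : ‖y - y'‖ * (‖y - y'‖ * (1 / C)) ≤ ‖y - y'‖ * ‖M y - M y'‖ := by
      have := mul_le_mul_of_nonneg_left a (sq_nonneg ‖y - y'‖)
      nlinarith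
    have d := le_of_mul_le_mul_left c h
    rw [mul_one_div, div_le_iff₀ hC] at d
    linarith

theorem re_mem {y : ℂ} (hy : y ∈ ball (0 : ℂ) r) : (y.re : ℂ) ∈ ball (0 : ℂ) r := by
  rw [mem_ball_zero_iff] at hy ⊢
  rw [norm_real]
  exact (abs_re_le_norm y).trans_lt hy

theorem im_bound (hC : 0 < C) (hM : ∀ z ∈ ball (0 : ℂ) r, HasDerivAt M (m z) z) (h0 : M 0 = 0)
    (hm : ∀ z ∈ ball (0 : ℂ) r, 1 / C ≤ (m z).re)
    (hi : ∀ z ∈ ball (0 : ℂ) r, z.im = 0 → |(m z).im| ≤ C * ε) (hr : r ≤ 1) {y : ℂ}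
    (hy : y ∈ ball (0 : ℂ) r) : |y.im| ≤ C * (|(M y).im| + C * ε) := by
  have hp := re_mem hy
  have hz : (0 : ℂ) ∈ ball (0 : ℂ) r := mem_ball_self (pos_of_mem_ball hy)
  obtain ⟨s, s0, s1, he⟩ := mvt hM (-I) hy hp
  obtain ⟨s', s0', s1', he'⟩ := mvt hM (-I) hp hz
  have a := hm _ (seg_mem hy hp s0.le s1.le)
  have b := hi _ (seg_mem hp hz s0'.le s1'.le) (by simp)
  set u := m (y.re + s * (y - y.re)) with hu
  set v := m (0 + s' * (y.re - 0)) with hv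
  have e1 : (M y).im - (M y.re).im = y.im * u.re := by simpa using he
  have e2 : (M y.re).im = y.re * v.im := by simpa [h0] using he'
  have hre : |y.re| ≤ 1 := by
    rw [mem_ball_zero_iff] at hy
    exact (abs_re_le_norm y).trans (hy.le.trans hr)
  have e3 : |(M y.re).im| ≤ C * ε := by
    rw [e2, abs_mul]
    nlinarith [abs_nonneg v.im, abs_nonneg y.re]
  have hu0 : 0 < u.re := lt_of_lt_of_le (by positivity) a
  have e4 : |y.im| * u.re ≤ |(M y).im| + C * ε := by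
    rw [← abs_of_pos hu0, ← abs_mul, ← e1]
    exact (abs_sub _ _).trans (by linarith)
  have e5 : |y.im| * (1 / C) ≤ |(M y).im| + C * ε :=
    (mul_le_mul_of_nonneg_left a (abs_nonneg _)).trans e4
  rw [mul_one_div, div_le_iff₀ hC] at e5
  linarith

theorem re_bound (hC : 0 < C) (hM : ∀ z ∈ ball (0 : ℂ) r, HasDerivAt M (m z) z) (h0 : M 0 = 0)
    (hm : ∀ z ∈ ball (0 : ℂ) r, 1 / C ≤ (m z).re) (hn : ∀ z ∈ ball (0 : ℂ) r, ‖m z‖ ≤ C)
    {y : ℂ} (hy : y ∈ ball (0 : ℂ) r) {A E : ℝ} (hA : 0 ≤ A) (hE : 0 ≤ E)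
    (h : A - E ≤ (M y).re) : A / C - C * (E + C * |y.im|) ≤ y.re := by
  have hp := re_mem hy
  have hz : (0 : ℂ) ∈ ball (0 : ℂ) r := mem_ball_self (pos_of_mem_ball hy)
  obtain ⟨s', s0', s1', he'⟩ := mvt hM 1 hp hz
  have a := hm _ (seg_mem hp hz s0'.le s1'.le)
  have b := (re_le_norm _).trans (hn _ (seg_mem hp hz s0'.le s1'.le))
  set v := m (0 + s' * (y.re - 0)) with hv
  have e2 : (M y.re).re = y.re * v.re := by simpa [h0] using he'
  have e3 : (M y).re - (M y.re).re ≤ C * |y.im| := by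
    have h1 := upper hM hn hy hp
    have h2 : ‖y - y.re‖ = |y.im| := by
      have : y - y.re = y.im * I := by
        apply Complex.ext <;> simp
      rw [this]; simp
    rw [h2] at h1
    exact le_trans (le_of_eq (sub_re _ _).symm) ((re_le_norm _).trans h1)
  have hv0 : 0 < v.re := lt_of_lt_of_le (by positivity) a
  set F := E + C * |y.im| with hF
  have hF0 : 0 ≤ F := by positivity
  have e4 : A - F ≤ y.re * v.re := by linarith
  have e5 : A / C * v.re ≤ A := by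
    rw [div_mul_eq_mul_div, div_le_iff₀ hC]
    exact mul_le_mul_of_nonneg_left b hA
  have e6 : F ≤ C * F * v.re := by
    have : 1 ≤ C * v.re := by rwa [div_le_iff₀' hC] at a
    nlinarith
  refine le_of_mul_le_mul_right ?_ hv0
  nlinarith

end estimates

/-- The model function. -/
noncomputable def gg (N : ℝ) (τ : ℂ) : ℂ :=
  (exp (-(2 * Real.pi * I * τ / N)) - 1) * N / (Real.pi * I)

theorem norm_arg {N : ℝ} (hN : 0 < N) (τ : ℂ) :
    ‖-(2 * Real.pi * I * τ / N)‖ = 2 * Real.pi * ‖τ‖ / N := by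
  simp [abs_of_pos hN, abs_of_pos Real.pi_pos]

theorem norm_arg_le {N : ℝ} (hN : 13 ≤ N) {τ : ℂ} (hτ : ‖τ‖ ≤ 1) :
    ‖-(2 * Real.pi * I * τ / N)‖ ≤ 1 / 2 := by
  rw [norm_arg (by linarith), div_le_iff₀ (by linarith)]
  nlinarith [Real.pi_lt_d2, Real.pi_pos, norm_nonneg τ]

theorem gg_near {N : ℝ} (hN : 13 ≤ N) {τ : ℂ} (hτ : ‖τ‖ ≤ 1) :
    ‖gg N τ + 2 * τ‖ ≤ 13 * ‖τ‖ / N := by
  have hN0 : 0 < N := by linarith
  have hπ : (Real.pi : ℂ) ≠ 0 := ofReal_ne_zero.mpr Real.pi_ne_zero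
  have hNc : (N : ℂ) ≠ 0 := ofReal_ne_zero.mpr hN0.ne'
  have h1 := norm_exp_sub_one_sub_id_le ((norm_arg_le hN hτ).trans (by norm_num))
  have e : gg N τ + 2 * τ = (exp (-(2 * Real.pi * I * τ / N)) - 1 - -(2 * Real.pi * I * τ / N))
      * N / (Real.pi * I) := by
    unfold gg
    field_simp
    ring
  rw [e, norm_div, norm_mul, norm_mul, norm_real, norm_real, norm_I, Real.norm_eq_abs,
    Real.norm_eq_abs, abs_of_pos hN0, abs_of_pos Real.pi_pos, mul_one, div_le_iff₀ Real.pi_pos]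
  rw [norm_arg hN0] at h1
  refine (mul_le_mul_of_nonneg_right h1 hN0.le).trans ?_
  have e2 : (2 * Real.pi * ‖τ‖ / N) ^ 2 * N = (4 * Real.pi * ‖τ‖) * ‖τ‖ / N * Real.pi := by
    field_simp
    ring
  rw [e2]
  have h3 : 4 * Real.pi * ‖τ‖ ≤ 13 := by nlinarith [Real.pi_lt_d2, Real.pi_pos, norm_nonneg τ]
  gcongr

theorem gg_sep {N : ℝ} (hN : 13 ≤ N) {τ τ' : ℂ} (hτ : ‖τ - τ'‖ ≤ 1) (hτ' : 0 ≤ τ'.im) :
    ‖τ - τ'‖ ≤ ‖gg N τ - gg N τ'‖ := by
  have hN0 : 0 < N := by linarith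
  have hb := norm_arg_le hN hτ
  have h1 := norm_exp_sub_one_sub_id_le (hb.trans (by norm_num))
  set b := -(2 * Real.pi * I * (τ - τ') / N) with hbdef
  have h2 : ‖b‖ / 2 ≤ ‖exp b - 1‖ := by
    have : ‖b‖ ≤ ‖exp b - 1‖ + ‖exp b - 1 - b‖ := by
      have := norm_sub_le (exp b - 1) (exp b - 1 - b)
      simpa using this
    nlinarith [norm_nonneg b]
  have e : gg N τ - gg N τ' = exp (-(2 * Real.pi * I * τ' / N)) * (exp b - 1) * N
      / (Real.pi * I) := by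
    unfold gg
    rw [mul_sub (exp _), ← exp_add]
    have : -(2 * Real.pi * I * τ' / N) + b = -(2 * Real.pi * I * τ / N) := by
      rw [hbdef]; ring
    rw [this]
    ring
  have h3 : 1 ≤ ‖exp (-(2 * Real.pi * I * τ' / N))‖ := by
    rw [norm_exp]
    apply Real.one_le_exp
    have : (-(2 * Real.pi * I * τ' / N) : ℂ).re = 2 * Real.pi * τ'.im / N := by
      simp [neg_div]
    rw [this]
    positivity
  rw [e, norm_div, norm_mul, norm_mul, norm_mul, norm_real, norm_real, norm_I, Real.norm_eq_abs,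
    Real.norm_eq_abs, abs_of_pos hN0, abs_of_pos Real.pi_pos, mul_one, le_div_iff₀ Real.pi_pos]
  have h4 : ‖b‖ = 2 * Real.pi * ‖τ - τ'‖ / N := norm_arg hN0 _
  have h5 : ‖τ - τ'‖ * Real.pi = 1 * (‖b‖ / 2) * N := by
    rw [h4]; field_simp
  rw [h5]
  gcongr

theorem iter_inv {lam η : ℂ} {h : ℂ → ℂ} (H : KExt lam η h) (hl : ‖lam‖ < 1) (hl0 : lam ≠ 0)
    {w : ℂ} (hw : w ∈ ball (0 : ℂ) ‖η‖) (hw0 : w ≠ 0) (n : ℕ) :
    (Fu lam)^[n] (1 / h w) = 1 / h (lam ^ n * w) := by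
  induction n with
  | zero => simp
  | succ n ih =>
    have hm : lam ^ n * w ∈ ball (0 : ℂ) ‖η‖ := by
      rw [mem_ball_zero_iff] at hw ⊢
      rw [norm_mul, norm_pow]
      exact lt_of_le_of_lt (mul_le_of_le_one_left (norm_nonneg _)
        (pow_le_one₀ (norm_nonneg _) hl.le)) hw
    rw [Function.iterate_succ_apply', ih,
      (H.Fu_inv hl hl0 hm (mul_ne_zero (pow_ne_zero _ hl0) hw0)).2, pow_succ', mul_assoc]

theorem tendsto_inv {lam η : ℂ} {h : ℂ → ℂ} (H : KExt lam η h) (hl : ‖lam‖ < 1) (hl0 : lam ≠ 0)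
    {w : ℂ} (hw : w ∈ ball (0 : ℂ) ‖η‖) (hw0 : w ≠ 0) :
    Tendsto (fun n : ℕ => lam ^ n * (Fu lam)^[n] (1 / h w)) atTop (𝓝 (1 / w)) := by
  have hη : 0 < ‖η‖ := norm_pos_iff.mpr H.ne
  have hd : HasDerivAt h 1 0 := by
    have := (H.diff.differentiableAt (ball_mem_nhds 0 hη)).hasDerivAt
    rwa [H.one] at this
  have hz : Tendsto (fun n : ℕ => lam ^ n * w) atTop (𝓝[≠] 0) := by
    refine tendsto_nhdsWithin_iff.mpr ⟨?_, Eventually.of_forall fun n => ?_⟩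
    · simpa using (tendsto_pow_atTop_nhds_zero_of_norm_lt_one hl).mul_const w
    · exact mul_ne_zero (pow_ne_zero _ hl0) hw0
  have h1 := ((hd.tendsto_slope.comp hz).inv₀ one_ne_zero).const_mul (1 / w)
  rw [inv_one, mul_one] at h1
  refine h1.congr fun n => ?_
  rw [iter_inv H hl hl0 hw hw0]
  simp only [Function.comp_apply, slope, vsub_eq_sub, sub_zero, H.zero, smul_eq_mul, mul_inv,
    inv_inv]
  field_simp

theorem pt_mem {lam η : ℂ} (hη : η ≠ 0) (hl : ‖lam‖ < 1) {N : ℝ} (hN : 0 < N) {τ : ℂ}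
    (hτ : 0 ≤ τ.im) : lam * (exp (2 * Real.pi * I * τ / N) * η) ∈ ball (0 : ℂ) ‖η‖ := by
  have h1 : ‖exp (2 * Real.pi * I * τ / N)‖ ≤ 1 := by
    rw [norm_exp, Real.exp_le_one_iff]
    have : (2 * Real.pi * I * τ / N : ℂ).re = -(2 * Real.pi * τ.im / N) := by
      simp [neg_div]
    rw [this, neg_nonpos]
    positivity
  rw [mem_ball_zero_iff, norm_mul, norm_mul]
  have h2 : 0 < ‖η‖ := norm_pos_iff.mpr hη
  calc ‖lam‖ * (‖exp (2 * Real.pi * I * τ / N)‖ * ‖η‖) ≤ ‖lam‖ * (1 * ‖η‖) := by gcongr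
    _ < 1 * (1 * ‖η‖) := by gcongr
    _ = ‖η‖ := by ring

end Lam1X

open Lam1X in
/-- The linearizer near the critical value follows the slit. -/
theorem lam1 : ∃ (N₀ : ℕ) (C s₀ : ℝ), 1 ≤ C ∧ 0 < s₀ ∧ ∀ N : ℕ, N₀ ≤ N →
    ∀ (T : ℝ) (lam η : ℂ) (h : ℂ → ℂ), C * Real.log N ≤ T → T ^ 2 ≤ N →
    ‖lam‖ ≤ Real.exp (-(T / N ^ 2)) → ‖lam - ee (1 / N)‖ ≤ T / N ^ 2 → KExt lam η h →
    ∀ y : ℂ → ℂ, (∀ τ, y τ = lam / h (lam * (exp (2 * Real.pi * I * τ / N) * η)) + 4) →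
    ∀ τ : ℂ, ‖τ‖ ≤ s₀ → 0 ≤ τ.im →
      ‖y τ‖ ≤ C * ‖τ‖ ∧ |(y τ).im| ≤ C * (τ.im + (1 / T ^ 2 + T / N)) ∧
      (τ.re ≤ 0 → -τ.re / C - C * (τ.im + (1 / T ^ 2 + T / N)) ≤ (y τ).re) ∧
      ∀ τ' : ℂ, ‖τ'‖ ≤ s₀ → 0 ≤ τ'.im → ‖τ - τ'‖ ≤ C * ‖y τ - y τ'‖ := by
  obtain ⟨N₀, C₀, r₀, hC₀, hr₀, hr₁, hW⟩ := west
  have hC0 : 0 < C₀ := by linarith
  set C₁ := C₀ * (13 + C₀) with hC₁
  set C := C₀ * (13 + C₀ * C₁) with hC
  have c1 : 13 * C₀ ≤ C₁ := by nlinarith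
  have c2 : C₁ ≤ C := by nlinarith
  have c3 : C₀ ≤ C := by nlinarith
  have hs1 : r₀ / (6 * C₀) ≤ 1 / 2 := by
    rw [div_le_iff₀ (by positivity)]; linarith
  refine ⟨max N₀ 13, C, r₀ / (6 * C₀), by linarith, by positivity, ?_⟩
  intro N hN T lam η h hT hT2 hl hle H y hy
  have hN13 : (13 : ℝ) ≤ N := by exact_mod_cast (le_max_right _ _).trans hN
  have hN0 : (0 : ℝ) < N := by linarith
  have hlog : 1 ≤ Real.log N := by
    rw [Real.le_log_iff_exp_le hN0]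
    linarith [Real.exp_one_lt_d9]
  have hT1 : 1 ≤ T := by nlinarith
  have hl1 : ‖lam‖ < 1 := hl.trans_lt (by
    rw [Real.exp_lt_one_iff, neg_lt_zero]; positivity)
  have hl0 : lam ≠ 0 := by
    rintro rfl
    rw [zero_sub, norm_neg, norm_ee, le_div_iff₀ (by positivity)] at hle
    nlinarith
  obtain ⟨W, hWd, hWt, hWe⟩ := hW N ((le_max_left _ _).trans hN) T lam
    ((mul_le_mul_of_nonneg_right c3 (by linarith)).trans hT) hT2 hl hle
  set ε := 1 / T ^ 2 + T / N with hε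
  have hε1 : 1 / (N : ℝ) ≤ ε := by
    have : 1 / (N : ℝ) ≤ T / N := by gcongr
    have : 0 ≤ 1 / T ^ 2 := by positivity
    linarith
  have hε0 : 0 ≤ ε := le_trans (by positivity) hε1
  have hpt : ∀ τ : ℂ, lam * (exp (2 * Real.pi * I * τ / N) * η) ≠ 0 := fun τ =>
    mul_ne_zero hl0 (mul_ne_zero (exp_ne_zero _) H.ne)
  have hmem : ∀ τ : ℂ, 0 ≤ τ.im →
      lam * (exp (2 * Real.pi * I * τ / N) * η) ∈ ball (0 : ℂ) ‖η‖ := fun τ hτ => by
    simpa using pt_mem H.ne hl1 hN0 hτ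
  have hWy : ∀ τ : ℂ, 0 ≤ τ.im → y τ ∈ ball (0 : ℂ) r₀ →
      W (y τ) = 1 / (lam * (exp (2 * Real.pi * I * τ / N) * η)) := by
    intro τ hτ hb
    have a := hWt _ hb
    have e : (y τ - 4) / lam = 1 / h (lam * (exp (2 * Real.pi * I * τ / N) * η)) := by
      rw [hy τ]; field_simp; ring
    rw [e] at a
    exact tendsto_nhds_unique a (tendsto_inv H hl1 hl0 (hmem τ hτ) (hpt τ))
  have hy0 : y 0 = 0 := by
    rw [hy 0]
    simp only [mul_zero, zero_div, exp_zero, one_mul, H.crit_val]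
    field_simp
    ring
  have hW0 : W 0 = 1 / (lam * η) := by
    have := hWy 0 le_rfl (by rw [hy0]; exact mem_ball_self hr₀)
    rw [hy0] at this
    simpa using this
  have hW0' : W 0 ≠ 0 := by rw [hW0]; exact one_div_ne_zero (mul_ne_zero hl0 H.ne)
  have hest := hWe hW0'
  set M : ℂ → ℂ := fun z => (W z / W 0 - 1) * N / (Real.pi * I) with hM
  set m : ℂ → ℂ := fun z => deriv W z / W 0 * N / (Real.pi * I) with hm
  have hMd : ∀ z ∈ ball (0 : ℂ) r₀, HasDerivAt M (m z) z := fun z hz =>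
    (((((hWd.differentiableAt (isOpen_ball.mem_nhds hz)).hasDerivAt.div_const
      (W 0)).sub_const 1).mul_const (N : ℂ)).div_const (Real.pi * I))
  have hM0 : M 0 = 0 := by simp [hM, div_self hW0']
  have hm1 : ∀ z ∈ ball (0 : ℂ) r₀, 1 / C₀ ≤ (m z).re := fun z hz => (hest z hz).1
  have hm2 : ∀ z ∈ ball (0 : ℂ) r₀, ‖m z‖ ≤ C₀ := fun z hz => (hest z hz).2.1
  have hm3 : ∀ z ∈ ball (0 : ℂ) r₀, z.im = 0 → |(m z).im| ≤ C₀ * ε := fun z hz => (hest z hz).2.2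
  have hMy : ∀ τ : ℂ, 0 ≤ τ.im → y τ ∈ ball (0 : ℂ) r₀ → M (y τ) = gg N τ := by
    intro τ hτ hb
    have hη := H.ne
    have := exp_ne_zero (2 * Real.pi * I * τ / N)
    simp only [hM, gg, hWy τ hτ hb, hW0, exp_neg, ofReal_natCast]
    congr 3
    field_simp
  have hz : (0 : ℂ) ∈ ball (0 : ℂ) r₀ := mem_ball_self hr₀
  have hsmall : ∀ τ : ℂ, ‖τ‖ ≤ 1 → 0 ≤ τ.im → y τ ∈ ball (0 : ℂ) r₀ →
      ‖y τ‖ ≤ 3 * C₀ * ‖τ‖ := by
    intro τ h1 hτ hb
    have a := lower hC0 hMd hm1 hb hz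
    rw [hM0, sub_zero, sub_zero, hMy τ hτ hb] at a
    have b := gg_near hN13 h1
    have c : 13 * ‖τ‖ / N ≤ ‖τ‖ := by
      rw [div_le_iff₀ hN0, mul_comm]
      exact mul_le_mul_of_nonneg_left hN13 (norm_nonneg τ)
    have d : ‖gg N τ‖ ≤ ‖gg N τ + 2 * τ‖ + 2 * ‖τ‖ := by
      have := norm_sub_le (gg N τ + 2 * τ) (2 * τ)
      simpa using this
    have e : C₀ * ‖gg N τ‖ ≤ C₀ * (3 * ‖τ‖) := mul_le_mul_of_nonneg_left (by linarith) hC0.le
    linarith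
  have hin : ∀ τ : ℂ, ‖τ‖ ≤ r₀ / (6 * C₀) → 0 ≤ τ.im → y τ ∈ ball (0 : ℂ) r₀ := by
    intro τ h1 hτ
    have him : ∀ s ∈ Icc (0 : ℝ) 1, 0 ≤ ((s : ℂ) * τ).im := fun s hs => by
      simpa using mul_nonneg hs.1 hτ
    have hcont : ContinuousOn (fun s : ℝ => ‖y (s * τ)‖) (Icc 0 1) := by
      simp only [hy]
      refine ContinuousOn.norm (ContinuousOn.add ?_ continuousOn_const)
      refine continuousOn_const.div ?_ ?_
      · exact H.diff.continuousOn.comp (by fun_prop) (fun s hs => hmem _ (him s hs))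
      · exact fun s hs => (H.Fu_inv hl1 hl0 (hmem _ (him s hs)) (hpt _)).1
    by_contra hcon
    rw [mem_ball_zero_iff, not_lt] at hcon
    obtain ⟨s, hs, he⟩ := intermediate_value_Icc zero_le_one hcont
      (show 3 * r₀ / 4 ∈ Icc _ _ from ⟨by simp [hy0]; positivity, by simp; linarith⟩)
    have hn : ‖(s : ℂ) * τ‖ ≤ r₀ / (6 * C₀) := by
      rw [norm_mul, norm_real, Real.norm_eq_abs, abs_of_nonneg hs.1]
      exact (mul_le_of_le_one_left (norm_nonneg _) hs.2).trans h1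
    simp only at he
    have a := hsmall _ (by linarith) (him s hs) (by rw [mem_ball_zero_iff]; linarith)
    have b : 3 * C₀ * ‖(s : ℂ) * τ‖ ≤ 3 * C₀ * (r₀ / (6 * C₀)) := by gcongr
    have c : 3 * C₀ * (r₀ / (6 * C₀)) = r₀ / 2 := by field_simp; ring
    linarith
  intro τ h1 hτ
  have hb := hin τ h1 hτ
  have h1' : ‖τ‖ ≤ 1 := by linarith
  have hg : ‖gg N τ + 2 * τ‖ ≤ 13 * ε := by
    refine (gg_near hN13 h1').trans ?_
    have : 13 * ‖τ‖ / N ≤ 13 * (1 / N) := by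
      rw [mul_div_assoc]; gcongr
    linarith
  have hIm : |(y τ).im| ≤ C₁ * (τ.im + ε) := by
    have a := im_bound hC0 hMd hM0 hm1 hm3 (by linarith) hb
    rw [hMy τ hτ hb] at a
    have b := (abs_im_le_norm _).trans hg
    have e : (gg N τ + 2 * τ).im = (gg N τ).im + 2 * τ.im := by simp
    rw [e, abs_le] at b
    have c : |(gg N τ).im| ≤ 2 * τ.im + 13 * ε := abs_le.mpr ⟨by linarith, by linarith⟩
    have d : C₀ * (|(gg N τ).im| + C₀ * ε) ≤ C₀ * ((13 + C₀) * (τ.im + ε)) := by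
      refine mul_le_mul_of_nonneg_left ?_ hC0.le
      have := mul_nonneg hC0.le hτ
      linarith
    rw [hC₁, mul_assoc]
    linarith
  refine ⟨?_, ?_, ?_, ?_⟩
  · refine (hsmall τ h1' hτ hb).trans (mul_le_mul_of_nonneg_right ?_ (norm_nonneg _))
    linarith
  · exact hIm.trans (mul_le_mul_of_nonneg_right c2 (by linarith))
  · intro hre
    have b := (abs_re_le_norm _).trans hg
    have e : (gg N τ + 2 * τ).re = (gg N τ).re + 2 * τ.re := by simp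
    rw [e, abs_le] at b
    have a := re_bound hC0 hMd hM0 hm1 hm2 hb (A := -τ.re) (E := 13 * ε) (by linarith)
      (by linarith) (by rw [hMy τ hτ hb]; linarith)
    have c : -τ.re / C ≤ -τ.re / C₀ := div_le_div_of_nonneg_left (by linarith) hC0 c3
    have d : C₀ * (13 * ε + C₀ * |(y τ).im|) ≤ C₀ * ((13 + C₀ * C₁) * (τ.im + ε)) := by
      refine mul_le_mul_of_nonneg_left ?_ hC0.le
      have := mul_le_mul_of_nonneg_left hIm hC0.le
      linarith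
    rw [hC, mul_assoc C₀ (13 + C₀ * C₁), ← hC]
    linarith
  · intro τ' h2 hτ'
    have hb' := hin τ' h2 hτ'
    have a := upper hMd hm2 hb hb'
    rw [hMy τ hτ hb, hMy τ' hτ' hb'] at a
    have b := gg_sep hN13 ((norm_sub_le τ τ').trans (by linarith)) hτ'
    exact (b.trans a).trans (mul_le_mul_of_nonneg_right c3 (norm_nonneg _))

end Pool.Agent.Lib.MP_102662_an
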