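import Pool.Agent.Lib.MP_102662_an.Fwd

open Complex Metric Set Filter Topology

namespace Pool.Agent.Lib.MP_102662_an

theorem lip_Fu_sub {lam u u' : ℂ} (hu : u ≠ 0) (hu' : u' ≠ 0) (hl : lam ≠ 0) :
    lam * (Fu lam u - Fu lam u') = (u - u') * (1 - 1 / (u * u')) := by
  unfold Fu
  field_simp
  ring

theorem lip_step {lam u u' : ℂ} (hu : u ≠ 0) (hu' : u' ≠ 0) (hl : lam ≠ 0) :
    ‖lam‖ * ‖Fu lam u - Fu lam u'‖ ≤
      Real.exp ((1 / ‖u‖ ^ 2 + 1 / ‖u'‖ ^ 2) / 2) * ‖u - u'‖ := by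
  rw [← norm_mul, lip_Fu_sub hu hu' hl, norm_mul, mul_comm]
  refine mul_le_mul_of_nonneg_right ?_ (norm_nonneg _)
  have h1 : ‖(1 : ℂ) - 1 / (u * u')‖ ≤ 1 + (1 / ‖u‖) * (1 / ‖u'‖) := by
    refine (norm_sub_le _ _).trans ?_
    rw [norm_one, norm_div, norm_one, norm_mul, one_div_mul_one_div]
  have h2 : (1 / ‖u‖) * (1 / ‖u'‖) ≤ (1 / ‖u‖ ^ 2 + 1 / ‖u'‖ ^ 2) / 2 := by
    rw [← one_div_pow, ← one_div_pow]
    nlinarith [sq_nonneg (1 / ‖u‖ - 1 / ‖u'‖)]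
  have h3 := Real.add_one_le_exp ((1 / ‖u‖ ^ 2 + 1 / ‖u'‖ ^ 2) / 2)
  linarith

theorem lip_prod {lam u u' : ℂ} (hl : lam ≠ 0) (n : ℕ)
    (h : ∀ k < n, (Fu lam)^[k] u ≠ 0 ∧ (Fu lam)^[k] u' ≠ 0) :
    ‖lam‖ ^ n * ‖(Fu lam)^[n] u - (Fu lam)^[n] u'‖ ≤
      Real.exp (∑ k ∈ Finset.range n,
        (1 / ‖(Fu lam)^[k] u‖ ^ 2 + 1 / ‖(Fu lam)^[k] u'‖ ^ 2) / 2) * ‖u - u'‖ := by
  induction n with
  | zero => simp
  | succ n ih =>
    have ih' := ih (fun k hk => h k (Nat.lt_succ_of_lt hk))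
    obtain ⟨h1, h2⟩ := h n (Nat.lt_succ_self n)
    have hs := lip_step h1 h2 hl
    rw [Function.iterate_succ_apply', Function.iterate_succ_apply', Finset.sum_range_succ,
      Real.exp_add, pow_succ, mul_assoc]
    calc ‖lam‖ ^ n * (‖lam‖ * ‖Fu lam ((Fu lam)^[n] u) - Fu lam ((Fu lam)^[n] u')‖)
        ≤ ‖lam‖ ^ n * (Real.exp ((1 / ‖(Fu lam)^[n] u‖ ^ 2 + 1 / ‖(Fu lam)^[n] u'‖ ^ 2) / 2) *
            ‖(Fu lam)^[n] u - (Fu lam)^[n] u'‖) :=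
          mul_le_mul_of_nonneg_left hs (by positivity)
      _ = Real.exp ((1 / ‖(Fu lam)^[n] u‖ ^ 2 + 1 / ‖(Fu lam)^[n] u'‖ ^ 2) / 2) *
            (‖lam‖ ^ n * ‖(Fu lam)^[n] u - (Fu lam)^[n] u'‖) := by ring
      _ ≤ Real.exp ((1 / ‖(Fu lam)^[n] u‖ ^ 2 + 1 / ‖(Fu lam)^[n] u'‖ ^ 2) / 2) *
            (Real.exp (∑ k ∈ Finset.range n,
              (1 / ‖(Fu lam)^[k] u‖ ^ 2 + 1 / ‖(Fu lam)^[k] u'‖ ^ 2) / 2) * ‖u - u'‖) :=
          mul_le_mul_of_nonneg_left ih' (by positivity)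
      _ = _ := by ring

/-- The orbit read backwards. -/
theorem lip_back {lam v : ℂ} (hl : lam ≠ 0) (hl1 : ‖lam‖ ≤ 1) (j : ℕ)
    (h : ∀ i < j, 19 / 20 ≤ ‖(Fu lam)^[i] v‖) :
    ‖v - lam ^ j * (Fu lam)^[j] v - 2 * ∑ i ∈ Finset.range j, lam ^ i‖ ≤ 20 / 19 * j := by
  induction j with
  | zero => simp
  | succ j ih =>
    have ih' := ih (fun i hi => h i (Nat.lt_succ_of_lt hi))
    have hj := h j (Nat.lt_succ_self j)
    have e : v - lam ^ (j + 1) * (Fu lam)^[j + 1] v - 2 * ∑ i ∈ Finset.range (j + 1), lam ^ i =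
        (v - lam ^ j * (Fu lam)^[j] v - 2 * ∑ i ∈ Finset.range j, lam ^ i) -
          lam ^ j * (1 / (Fu lam)^[j] v) := by
      rw [Function.iterate_succ_apply', Finset.sum_range_succ]
      generalize (Fu lam)^[j] v = w
      unfold Fu
      generalize 1 / w = w'
      field_simp
      ring
    rw [e]
    refine (norm_sub_le _ _).trans ?_
    have h1 : ‖lam ^ j * (1 / (Fu lam)^[j] v)‖ ≤ 20 / 19 := by
      rw [norm_mul, norm_pow, norm_div, norm_one]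
      have a1 : ‖lam‖ ^ j ≤ 1 := pow_le_one₀ (norm_nonneg _) hl1
      have a2 : 1 / ‖(Fu lam)^[j] v‖ ≤ 20 / 19 := by
        rw [div_le_iff₀ (by linarith)]
        linarith
      calc _ ≤ 1 * (20 / 19 : ℝ) := mul_le_mul a1 a2 (by positivity) (by norm_num)
        _ = _ := by norm_num
    push_cast
    linarith

theorem lip_pow_sub {a b : ℂ} (ha : ‖a‖ ≤ 1) (hb : ‖b‖ ≤ 1) (j : ℕ) :
    ‖a ^ j - b ^ j‖ ≤ j * ‖a - b‖ := by
  induction j with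
  | zero => simp
  | succ j ih =>
    have e : a ^ (j + 1) - b ^ (j + 1) = a * (a ^ j - b ^ j) + (a - b) * b ^ j := by ring
    rw [e]
    refine (norm_add_le _ _).trans ?_
    rw [norm_mul, norm_mul, norm_pow]
    have a1 : ‖b‖ ^ j ≤ 1 := pow_le_one₀ (norm_nonneg _) hb
    have a2 : ‖a‖ * ‖a ^ j - b ^ j‖ ≤ 1 * (j * ‖a - b‖) :=
      mul_le_mul ha ih (norm_nonneg _) (by norm_num)
    have a3 : ‖a - b‖ * ‖b‖ ^ j ≤ ‖a - b‖ * 1 := mul_le_mul_of_nonneg_left a1 (norm_nonneg _)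
    push_cast
    linarith

theorem lip_ee_eq (t : ℝ) : ee t = Complex.exp (Complex.I * ((2 * Real.pi * t : ℝ) : ℂ)) := by
  unfold ee
  congr 1
  push_cast
  ring

theorem lip_ee_pow (t : ℝ) (j : ℕ) : ee t ^ j = ee (j * t) := by
  unfold ee
  rw [← Complex.exp_nat_mul]
  congr 1
  push_cast
  ring

theorem lip_ee_lower {t : ℝ} (h0 : 0 ≤ t) (h1 : t ≤ 1 / 2) : 4 * t ≤ ‖ee t - 1‖ := by
  rw [lip_ee_eq, Complex.norm_exp_I_mul_ofReal_sub_one]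
  have hpi := Real.pi_pos
  have e : 2 * Real.pi * t / 2 = Real.pi * t := by ring
  rw [e]
  have h2 := Real.mul_le_sin (x := Real.pi * t) (by positivity) (by nlinarith)
  have e2 : 2 / Real.pi * (Real.pi * t) = 2 * t := by field_simp
  rw [e2] at h2
  rw [Real.norm_eq_abs]
  have := le_abs_self (2 * Real.sin (Real.pi * t))
  linarith

theorem lip_ee_upper {t : ℝ} (h0 : 0 ≤ t) : ‖ee t - 1‖ ≤ 2 * Real.pi * t := by
  rw [lip_ee_eq]
  have hpi := Real.pi_pos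
  refine (Real.norm_exp_I_mul_ofReal_sub_one_le).trans ?_
  rw [Real.norm_eq_abs, abs_of_nonneg (by positivity)]

theorem lip_geom {N : ℕ} (hN : 10000 ≤ N) {lam : ℂ} (hl1 : ‖lam‖ ≤ 1)
    (hl : ‖lam - ee (1 / N)‖ ≤ 1 / (N * Real.sqrt N)) {j : ℕ} (hj : 2 * j ≤ N) :
    63 / 100 * (j : ℝ) ≤ ‖∑ i ∈ Finset.range j, lam ^ i‖ := by
  have hN' : (10000 : ℝ) ≤ N := by exact_mod_cast hN
  have hNpos : (0 : ℝ) < N := by linarith
  have hj' : 2 * (j : ℝ) ≤ N := by exact_mod_cast hj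
  have hs : (100 : ℝ) ≤ Real.sqrt N := by
    rw [Real.le_sqrt (by norm_num) (by positivity)]
    linarith
  have hδ : ‖lam - ee (1 / N)‖ ≤ 1 / 100 * (1 / N) := by
    refine hl.trans ?_
    rw [one_div_mul_one_div]
    exact one_div_le_one_div_of_le (by positivity) (by nlinarith)
  set x : ℝ := 1 / N with hx
  have hx0 : 0 < x := by positivity
  have hjx : (j : ℝ) * x ≤ 1 / 2 := by
    rw [hx, mul_one_div, div_le_iff₀ hNpos]
    linarith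
  have h1 : ‖lam - 1‖ ≤ 63 / 10 * x := by
    have a1 := lip_ee_upper hx0.le
    have a2 : ‖lam - 1‖ ≤ ‖lam - ee x‖ + ‖ee x - 1‖ := norm_sub_le_norm_sub_add_norm_sub _ _ _
    have a3 := Real.pi_lt_d4
    nlinarith
  have h2 : 399 / 100 * (j * x) ≤ ‖lam ^ j - 1‖ := by
    have a1 := lip_ee_lower (t := j * x) (by positivity) hjx
    rw [← lip_ee_pow] at a1
    have a2 := lip_pow_sub (a := ee x) (b := lam) (norm_ee x).le hl1 j
    rw [norm_sub_rev (ee x) lam] at a2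
    have a3 : ‖ee x ^ j - 1‖ ≤ ‖ee x ^ j - lam ^ j‖ + ‖lam ^ j - 1‖ :=
      norm_sub_le_norm_sub_add_norm_sub _ _ _
    have a4 : (j : ℝ) * ‖lam - ee x‖ ≤ j * (1 / 100 * x) :=
      mul_le_mul_of_nonneg_left hδ (by positivity)
    linarith
  have h3 : ‖lam ^ j - 1‖ = ‖∑ i ∈ Finset.range j, lam ^ i‖ * ‖lam - 1‖ := by
    rw [← norm_mul, geom_sum_mul]
  have h4 : ‖∑ i ∈ Finset.range j, lam ^ i‖ * ‖lam - 1‖ ≤
      ‖∑ i ∈ Finset.range j, lam ^ i‖ * (63 / 10 * x) :=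
    mul_le_mul_of_nonneg_left h1 (norm_nonneg _)
  have h5 : (399 / 100 * (j : ℝ)) * x ≤ (63 / 10 * ‖∑ i ∈ Finset.range j, lam ^ i‖) * x := by
    nlinarith
  have h6 := le_of_mul_le_mul_right h5 hx0
  have hj0 : (0 : ℝ) ≤ j := by positivity
  linarith

theorem lip_sum_sq (n : ℕ) : ∑ k ∈ Finset.range n, 1 / ((k : ℝ) + 1) ^ 2 ≤ 2 := by
  have key : ∀ n : ℕ, ∑ k ∈ Finset.range n, 1 / ((k : ℝ) + 1) ^ 2 ≤ 2 - 1 / ((n : ℝ) + 1 / 2) := by
    intro n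
    induction n with
    | zero => norm_num
    | succ n ih =>
      rw [Finset.sum_range_succ]
      have hn : (0 : ℝ) ≤ n := by positivity
      have : 1 / ((n : ℝ) + 1) ^ 2 ≤ 1 / ((n : ℝ) + 1 / 2) - 1 / (((n + 1 : ℕ) : ℝ) + 1 / 2) := by
        push_cast
        rw [div_sub_div _ _ (by positivity) (by positivity),
          div_le_div_iff₀ (by positivity) (by positivity)]
        nlinarith
      linarith
  have := key n
  have h2 : 0 ≤ 1 / ((n : ℝ) + 1 / 2) := by positivity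
  linarith

theorem lip_lam_pow {N : ℕ} (hN : 10000 ≤ N) {lam : ℂ} (hl1 : ‖lam‖ ≤ 1)
    (hl : ‖lam - ee (1 / N)‖ ≤ 1 / (N * Real.sqrt N)) {n : ℕ} (hn : n ≤ N) :
    1 / 2 ≤ ‖lam‖ ^ n := by
  have hN' : (10000 : ℝ) ≤ N := by exact_mod_cast hN
  have hNpos : (0 : ℝ) < N := by linarith
  have hn' : (n : ℝ) ≤ N := by exact_mod_cast hn
  have hs : (100 : ℝ) ≤ Real.sqrt N := by
    rw [Real.le_sqrt (by norm_num) (by positivity)]
    linarith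
  have hδ : ‖lam - ee (1 / N)‖ ≤ 1 / 100 * (1 / N) := by
    refine hl.trans ?_
    rw [one_div_mul_one_div]
    exact one_div_le_one_div_of_le (by positivity) (by nlinarith)
  have a2 := lip_pow_sub (a := ee (1 / N)) (b := lam) (norm_ee _).le hl1 n
  rw [norm_sub_rev (ee (1 / N)) lam] at a2
  have a3 : (n : ℝ) * ‖lam - ee (1 / N)‖ ≤ N * (1 / 100 * (1 / N)) :=
    mul_le_mul hn' hδ (norm_nonneg _) hNpos.le
  have a4 : (N : ℝ) * (1 / 100 * (1 / N)) = 1 / 100 := by field_simp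
  have a5 := norm_sub_norm_le (ee (1 / N) ^ n) (lam ^ n)
  rw [norm_pow, norm_pow, norm_ee, one_pow] at a5
  linarith

theorem lip_orbit {N : ℕ} (hN : 10000 ≤ N) {lam : ℂ} (hl1 : ‖lam‖ ≤ 1)
    (hl : ‖lam - ee (1 / N)‖ ≤ 1 / (N * Real.sqrt N)) {u : ℂ} {n : ℕ} (hn : n ≤ N)
    (hf : ∀ k : ℕ, 2 * k ≤ N → 2 + (k : ℝ) / 2 ≤ ‖(Fu lam)^[k] u‖)
    (h2 : ‖(Fu lam)^[n] u‖ ≤ 2)
    (hb : ∀ k : ℕ, N ≤ 2 * k → k ≤ n → 19 / 20 ≤ ‖(Fu lam)^[k] u‖) :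
    (∀ k < n, (Fu lam)^[k] u ≠ 0) ∧
      ∑ k ∈ Finset.range n, 1 / ‖(Fu lam)^[k] u‖ ^ 2 ≤ 1000 := by
  have hl0 : lam ≠ 0 := by
    have := lip_lam_pow hN hl1 hl (n := 1) (by omega)
    intro h0
    rw [h0] at this
    norm_num at this
  constructor
  · intro k hk h0
    rcases le_total (2 * k) N with h | h
    · have := hf k h
      rw [h0, norm_zero] at this
      have : (0 : ℝ) ≤ k := by positivity
      linarith
    · have := hb k h hk.le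
      rw [h0, norm_zero] at this
      linarith
  have hterm : ∀ k ∈ Finset.range n, 1 / ‖(Fu lam)^[k] u‖ ^ 2 ≤
      4 * (1 / ((k : ℝ) + 1) ^ 2) + 484 * (1 / (((n - 1 - k : ℕ) : ℝ) + 1) ^ 2) := by
    intro k hk
    have hk' := Finset.mem_range.1 hk
    have p1 : 0 ≤ 4 * (1 / ((k : ℝ) + 1) ^ 2) := by positivity
    have p2 : 0 ≤ 484 * (1 / (((n - 1 - k : ℕ) : ℝ) + 1) ^ 2) := by positivity
    rcases le_total (2 * k) N with h | h
    · have a1 := hf k h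
      have hk0 : (0 : ℝ) ≤ k := by positivity
      have a2 : ((k : ℝ) + 1) / 2 ≤ ‖(Fu lam)^[k] u‖ := by linarith
      have a3 : 1 / ‖(Fu lam)^[k] u‖ ^ 2 ≤ 1 / (((k : ℝ) + 1) / 2) ^ 2 :=
        one_div_le_one_div_of_le (by positivity) (pow_le_pow_left₀ (by positivity) a2 2)
      have a4 : 1 / (((k : ℝ) + 1) / 2) ^ 2 = 4 * (1 / ((k : ℝ) + 1) ^ 2) := by
        field_simp
        norm_num
      linarith
    · obtain ⟨j, rfl⟩ : ∃ j, n = k + 1 + j := ⟨n - (k + 1), by omega⟩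
      have ej : k + 1 + j - 1 - k = j := by omega
      rw [ej] at p2 ⊢
      have hit : ∀ i, (Fu lam)^[i] ((Fu lam)^[k] u) = (Fu lam)^[i + k] u := fun i =>
        (Function.iterate_add_apply _ _ _ _).symm
      have b1 := lip_back hl0 hl1 (v := (Fu lam)^[k] u) (j + 1) (fun i hi => by
        rw [hit]
        exact hb _ (by omega) (by omega))
      have b2 := lip_geom hN hl1 hl (j := j + 1) (by omega)
      have e : j + 1 + k = k + 1 + j := by omega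
      rw [hit, e] at b1
      have b3 : ‖lam ^ (j + 1) * (Fu lam)^[k + 1 + j] u‖ ≤ 2 := by
        rw [norm_mul, norm_pow]
        have a1 : ‖lam‖ ^ (j + 1) ≤ 1 := pow_le_one₀ (norm_nonneg _) hl1
        calc _ ≤ 1 * (2 : ℝ) := mul_le_mul a1 h2 (norm_nonneg _) (by norm_num)
          _ = 2 := by norm_num
      have b4 : ‖2 * ∑ i ∈ Finset.range (j + 1), lam ^ i‖ ≤ ‖(Fu lam)^[k] u‖ +
          ‖lam ^ (j + 1) * (Fu lam)^[k + 1 + j] u‖ +
          ‖(Fu lam)^[k] u - lam ^ (j + 1) * (Fu lam)^[k + 1 + j] u -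
            2 * ∑ i ∈ Finset.range (j + 1), lam ^ i‖ := by
        generalize (Fu lam)^[k] u = A
        generalize lam ^ (j + 1) * (Fu lam)^[k + 1 + j] u = B
        generalize 2 * ∑ i ∈ Finset.range (j + 1), lam ^ i = S
        have e2 : S = (A - B) - (A - B - S) := by ring
        have c1 := norm_sub_le (A - B) (A - B - S)
        rw [← e2] at c1
        have c2 := norm_sub_le A B
        linarith
      rw [norm_mul, Complex.norm_ofNat] at b4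
      push_cast at b1 b2
      have b5 := hb k h (by omega)
      have hj0 : (0 : ℝ) ≤ j := by positivity
      have b6 : ((j : ℝ) + 1) / 22 ≤ ‖(Fu lam)^[k] u‖ := by
        rcases le_total ((j : ℝ) + 1) 20 with c | c
        · linarith
        · linarith
      have a3 : 1 / ‖(Fu lam)^[k] u‖ ^ 2 ≤ 1 / (((j : ℝ) + 1) / 22) ^ 2 :=
        one_div_le_one_div_of_le (by positivity) (pow_le_pow_left₀ (by positivity) b6 2)
      have a4 : 1 / (((j : ℝ) + 1) / 22) ^ 2 = 484 * (1 / ((j : ℝ) + 1) ^ 2) := by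
        field_simp
        norm_num
      linarith
  refine (Finset.sum_le_sum hterm).trans ?_
  rw [Finset.sum_add_distrib, ← Finset.mul_sum, ← Finset.mul_sum,
    Finset.sum_range_reflect (fun k : ℕ => 1 / ((k : ℝ) + 1) ^ 2) n]
  have := lip_sum_sq n
  linarith

/-- Bounded expansion along one full turn. -/
theorem lip_turn : ∃ (N₀ : ℕ) (C : ℝ), 1 ≤ C ∧ ∀ N : ℕ, N₀ ≤ N → ∀ lam : ℂ, ‖lam‖ ≤ 1 →
    ‖lam - ee (1 / N)‖ ≤ 1 / (N * Real.sqrt N) → ∀ u₀ u₀' : ℂ, ‖u₀ + 4‖ ≤ 1 / 2 →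
    ‖u₀' + 4‖ ≤ 1 / 2 → ∀ n : ℕ, n ≤ N → ‖(Fu lam)^[n] u₀‖ ≤ 2 → ‖(Fu lam)^[n] u₀'‖ ≤ 2 →
    (∀ k : ℕ, N ≤ 2 * k → k ≤ n →
      19 / 20 ≤ ‖(Fu lam)^[k] u₀‖ ∧ 19 / 20 ≤ ‖(Fu lam)^[k] u₀'‖) →
    ‖(Fu lam)^[n] u₀ - (Fu lam)^[n] u₀'‖ ≤ C * ‖u₀ - u₀'‖ := by
  obtain ⟨N₁, hN₁⟩ := fwd
  refine ⟨max N₁ 10000, 2 * Real.exp 1000, ?_, ?_⟩
  · have := Real.add_one_le_exp (1000 : ℝ)
    linarith
  intro N hN lam hl1 hl u₀ u₀' hu hu' n hn h2 h2' hb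
  have hN1 : N₁ ≤ N := le_trans (le_max_left _ _) hN
  have hN2 : 10000 ≤ N := le_trans (le_max_right _ _) hN
  obtain ⟨z1, s1⟩ := lip_orbit hN2 hl1 hl hn (hN₁ N hN1 lam hl1 hl u₀ hu) h2
    (fun k h1 h2 => (hb k h1 h2).1)
  obtain ⟨z2, s2⟩ := lip_orbit hN2 hl1 hl hn (hN₁ N hN1 lam hl1 hl u₀' hu') h2'
    (fun k h1 h2 => (hb k h1 h2).2)
  have hl0 : lam ≠ 0 := by
    have := lip_lam_pow hN2 hl1 hl (n := 1) (by omega)
    intro h0
    rw [h0] at this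
    norm_num at this
  have hp := lip_prod hl0 n (fun k hk => ⟨z1 k hk, z2 k hk⟩)
  have hq := lip_lam_pow hN2 hl1 hl hn
  have hs : ∑ k ∈ Finset.range n,
      (1 / ‖(Fu lam)^[k] u₀‖ ^ 2 + 1 / ‖(Fu lam)^[k] u₀'‖ ^ 2) / 2 ≤ 1000 := by
    rw [← Finset.sum_div, Finset.sum_add_distrib]
    linarith
  have he := mul_le_mul_of_nonneg_right (Real.exp_le_exp.2 hs) (norm_nonneg (u₀ - u₀'))
  have hr := mul_le_mul_of_nonneg_right hq (norm_nonneg ((Fu lam)^[n] u₀ - (Fu lam)^[n] u₀'))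
  generalize Real.exp 1000 = E at he ⊢
  linarith

theorem jouk_one {u y : ℂ} (hu : u ≠ 0) (hy : y = u + 2 + 1 / u) (hy1 : ‖y‖ ≤ 1 / 16) :
    ‖u + 1‖ ≤ 2 * Real.sqrt ‖y‖ := by
  have e : (u + 1) ^ 2 = y * u := by
    rw [hy]
    field_simp
    ring
  have e2 : ‖u + 1‖ ^ 2 = ‖y‖ * ‖u‖ := by rw [← norm_pow, e, norm_mul]
  have h1 : ‖u‖ ≤ ‖u + 1‖ + 1 := by
    have := norm_sub_le (u + 1) 1
    rwa [add_sub_cancel_right, norm_one] at this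
  have hy0 := norm_nonneg y
  have ht0 := norm_nonneg (u + 1)
  have h2 : ‖u + 1‖ ≤ 3 := by
    by_contra hc
    push Not at hc
    have : ‖y‖ * ‖u‖ ≤ 1 / 16 * (‖u + 1‖ + 1) := mul_le_mul hy1 h1 (norm_nonneg _) (by norm_num)
    nlinarith
  have h3 : ‖u + 1‖ ^ 2 ≤ (2 * Real.sqrt ‖y‖) ^ 2 := by
    rw [mul_pow, Real.sq_sqrt hy0, e2]
    nlinarith
  exact le_of_sq_le_sq h3 (by positivity)

theorem jouk_log {r : ℝ} (hr : 0 < r) : |Real.log r| ≤ |r - 1 / r| := by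
  have h1 := Real.log_le_sub_one_of_pos hr
  have h2 := Real.one_sub_inv_le_log_of_pos hr
  rw [← one_div] at h2
  have h3 : r * (1 / r) = 1 := by field_simp
  have h4 : 0 < 1 / r := by positivity
  rcases le_total 1 r with h | h
  · have a1 : 1 / r ≤ 1 := by nlinarith
    rw [abs_of_nonneg (Real.log_nonneg h), abs_of_nonneg (by linarith)]
    linarith
  · have a1 : 1 ≤ 1 / r := by nlinarith
    rw [abs_of_nonpos (Real.log_nonpos hr.le h), abs_of_nonpos (by linarith)]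
    linarith

/-- Estimates for the Joukowski relation near the critical point. -/
theorem jouk {u y : ℂ} (hu : u ≠ 0) (hy : y = u + 2 + 1 / u) (hy1 : ‖y‖ ≤ 1 / 16) :
    ‖u + 1‖ ≤ 2 * Real.sqrt ‖y‖ ∧
    ∀ s : ℝ, 0 < s → s ≤ y.re → |Real.log ‖u‖| ≤ 2 * |y.im| / Real.sqrt s := by
  refine ⟨jouk_one hu hy hy1, fun s hs hsy => ?_⟩
  have hr : 0 < ‖u‖ := norm_pos_iff.2 hu
  have hn : Complex.normSq u = ‖u‖ ^ 2 := Complex.normSq_eq_norm_sq u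
  have hre : y.re = 2 + u.re / ‖u‖ * (‖u‖ + 1 / ‖u‖) := by
    rw [hy, one_div u]
    simp only [add_re, inv_re, hn, re_ofNat]
    field_simp
    ring
  have him : y.im = u.im / ‖u‖ * (‖u‖ - 1 / ‖u‖) := by
    rw [hy, one_div u]
    simp only [add_im, inv_im, hn, im_ofNat]
    field_simp
    ring
  have hcs : (u.re / ‖u‖) ^ 2 + (u.im / ‖u‖) ^ 2 = 1 := by
    rw [div_pow, div_pow, ← add_div, div_eq_one_iff_eq (by positivity), ← hn, Complex.normSq_apply]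
    ring
  have hy2 : y.re ≤ 1 / 16 := (Complex.re_le_norm y).trans hy1
  have hA : 2 ≤ ‖u‖ + 1 / ‖u‖ := by
    have h3 : ‖u‖ + 1 / ‖u‖ - 2 = (‖u‖ - 1) ^ 2 / ‖u‖ := by
      field_simp
      ring
    have h4 : 0 ≤ (‖u‖ - 1) ^ 2 / ‖u‖ := by positivity
    linarith
  have hlog := jouk_log hr
  generalize u.re / ‖u‖ = c at hre hcs
  generalize u.im / ‖u‖ = d at him hcs
  generalize ‖u‖ + 1 / ‖u‖ = A at hre hA
  generalize ‖u‖ - 1 / ‖u‖ = B at him hlog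
  have hc0 : c ≤ 0 := by
    by_contra hc
    push Not at hc
    nlinarith
  have hc1 : -(1 - s / 2) ≤ c := by nlinarith
  have hd : s ≤ (2 * |d|) ^ 2 := by
    rw [mul_pow, sq_abs]
    nlinarith
  have hsq : Real.sqrt s ≤ 2 * |d| := by
    rw [Real.sqrt_le_left (by positivity)]
    exact hd
  have hsp : 0 < Real.sqrt s := Real.sqrt_pos.2 hs
  rw [le_div_iff₀ hsp, him, abs_mul]
  calc |Real.log ‖u‖| * Real.sqrt s ≤ |B| * (2 * |d|) :=
        mul_le_mul hlog hsq hsp.le (abs_nonneg _)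
    _ = 2 * (|d| * |B|) := by ring

theorem jouk_pair {u u' y y' : ℂ} (hu : u ≠ 0) (hu' : u' ≠ 0) (hy : y = u + 2 + 1 / u)
    (hy' : y' = u' + 2 + 1 / u') (hy1 : ‖y‖ ≤ 1 / 16) (hy1' : ‖y'‖ ≤ 1 / 16) :
    ‖y - y'‖ ≤ 12 * (Real.sqrt ‖y‖ + Real.sqrt ‖y'‖) * ‖u - u'‖ := by
  have h1 := jouk_one hu hy hy1
  have h2 := jouk_one hu' hy' hy1'
  have q : ∀ t : ℝ, t ≤ 1 / 16 → Real.sqrt t ≤ 1 / 4 := fun t ht => by
    rw [Real.sqrt_le_left (by norm_num)]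
    linarith
  have q1 := q _ hy1
  have q2 := q _ hy1'
  have low : ∀ v : ℂ, ‖v + 1‖ ≤ 1 / 2 → 1 / 2 ≤ ‖v‖ ∧ ‖v‖ ≤ 3 / 2 := fun v hv => by
    have a1 := norm_sub_le (v + 1) 1
    rw [add_sub_cancel_right, norm_one] at a1
    have a2 := norm_sub_le (v + 1) v
    rw [add_sub_cancel_left, norm_one] at a2
    constructor <;> linarith
  obtain ⟨l1, -⟩ := low u (by linarith)
  obtain ⟨l2, m2⟩ := low u' (by linarith)
  have e : (y - y') * (u * u') = ((u + 1) * u' - (u' + 1)) * (u - u') := by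
    rw [hy, hy']
    field_simp
    ring
  have e2 : ‖y - y'‖ * (‖u‖ * ‖u'‖) = ‖(u + 1) * u' - (u' + 1)‖ * ‖u - u'‖ := by
    rw [← norm_mul, ← norm_mul, e, norm_mul]
  have s1 := Real.sqrt_nonneg ‖y‖
  have s2 := Real.sqrt_nonneg ‖y'‖
  have h3 : ‖(u + 1) * u' - (u' + 1)‖ ≤ 3 * (Real.sqrt ‖y‖ + Real.sqrt ‖y'‖) := by
    refine (norm_sub_le _ _).trans ?_
    rw [norm_mul]
    have : ‖u + 1‖ * ‖u'‖ ≤ 2 * Real.sqrt ‖y‖ * (3 / 2) :=
      mul_le_mul h1 m2 (norm_nonneg _) (by positivity)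
    linarith
  have h4 : 1 / 2 * (1 / 2) ≤ ‖u‖ * ‖u'‖ := mul_le_mul l1 l2 (by norm_num) (norm_nonneg _)
  have h5 := mul_le_mul_of_nonneg_left h4 (norm_nonneg (y - y'))
  have h6 := mul_le_mul_of_nonneg_right h3 (norm_nonneg (u - u'))
  linarith

end Pool.Agent.Lib.MP_102662_an
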