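import Pool.Agent.Lib.MP_102662_an.FbProof

/-! The failure of the Hoelder bound with a logarithmic factor. -/

open Complex Metric Set Filter Topology

namespace Pool.Agent.Lib.MP_102662_an

/-- A choice of all the parameters as powers of one large integer. -/
theorem params2 {c₁ Cs Cf : ℝ} (hc : 0 < c₁) (hCs : 1 ≤ Cs) (hCf : 1 ≤ Cf) (N₀ A : ℕ) (P₀ : ℝ) :
    ∃ (N : ℕ) (P T c X μ γ : ℝ), N₀ ≤ N ∧ (400 : ℝ) ≤ N ∧ Real.log N ≤ c₁ * T ∧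
      T ^ 2 ≤ c₁ * N ∧ 1 / (N : ℝ) ≤ c ∧ c * T ≤ c₁ ∧ T ≤ X ∧ X ≤ N ∧ 0 ≤ μ ∧
      Real.log N * (μ + T ^ 2 / X) ≤ c₁ ∧ 1 ≤ X ∧ 0 < γ ∧ γ ≤ 1 ∧ Cs * γ * X ≤ μ ∧
      (A : ℝ) ≤ 2 * P ^ 60 ∧ P₀ ≤ P ∧ 10 ≤ P ∧ P ^ 100 ≤ N / 4 ∧ 1 + Real.log (4 * N) ≤ P ∧
      1 / P ≤ γ ^ 2 / Cf ∧ 3 ≤ c * P ∧ c ≤ 1 ∧ 2 * (2 * P ^ 60) ^ 4 ≤ γ ^ 2 * N ∧
      4 * P ^ 206 / N ≤ (γ / (2 * P ^ 60) ^ 2) ^ 20 ∧ (N : ℝ) ≤ P ^ 3000 := by
  obtain ⟨n, hn⟩ := exists_nat_ge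
    (max (max (max (120000 / c₁) 100000) (max Cs Cf)) (max (max (N₀ : ℝ) A) P₀))
  simp only [max_le_iff] at hn
  obtain ⟨⟨⟨h1, h2⟩, h3, h4⟩, ⟨h5, h6⟩, h7⟩ := hn
  set y : ℝ := (n : ℝ) with hy
  have hy1 : (1 : ℝ) ≤ y := by linarith
  have hy0 : (0 : ℝ) < y := by linarith
  have hp : ∀ a b : ℕ, a ≤ b → y ^ a ≤ y ^ b := fun a b h => pow_le_pow_right₀ hy1 h
  have hp1 : ∀ b : ℕ, 1 ≤ b → y ≤ y ^ b := fun b h => by simpa using hp 1 b h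
  have hcy : 120000 ≤ c₁ * y := by
    rw [div_le_iff₀ hc] at h1; linarith
  have hN : ((n ^ 60000 : ℕ) : ℝ) = y ^ 60000 := by rw [Nat.cast_pow]
  have hlog : Real.log (y ^ 60000) ≤ 60000 * y := by
    rw [Real.log_pow]
    have := Real.log_le_sub_one_of_pos hy0
    push_cast
    linarith
  have hlog0 : 0 ≤ Real.log (y ^ 60000) := Real.log_nonneg (one_le_pow₀ hy1)
  have h4y : ∀ k : ℕ, (4 : ℝ) ^ k ≤ y ^ k := fun k => pow_le_pow_left₀ (by norm_num) (by linarith) k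
  refine ⟨n ^ 60000, y ^ 20, y ^ 2, 1 / y ^ 3, y ^ 6, 1 / y ^ 2, 1 / y ^ 9, ?_, ?_, ?_, ?_, ?_, ?_,
    ?_, ?_, ?_, ?_, ?_, ?_, ?_, ?_, ?_, ?_, ?_, ?_, ?_, ?_, ?_, ?_, ?_, ?_, ?_⟩
  · have : (N₀ : ℝ) ≤ ((n ^ 60000 : ℕ) : ℝ) := by
      rw [hN]; exact h5.trans (hp1 _ (by norm_num))
    exact_mod_cast this
  · rw [hN]; exact le_trans (by linarith) (hp1 _ (by norm_num))
  · rw [hN]; nlinarith
  · rw [hN, ← pow_mul]
    have e : y ^ 60000 = y * y ^ 59999 := by rw [← pow_succ']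
    have := hp (2 * 2) 59999 (by norm_num)
    have h0 : 0 < y ^ 59999 := by positivity
    rw [e]; nlinarith
  · rw [hN]
    exact one_div_le_one_div_of_le (by positivity) (hp _ _ (by norm_num))
  · have : 1 / y ^ 3 * y ^ 2 = 1 / y := by field_simp
    rw [this, div_le_iff₀ hy0]; linarith
  · exact hp _ _ (by norm_num)
  · rw [hN]; exact hp _ _ (by norm_num)
  · positivity
  · rw [hN]
    have : 1 / y ^ 2 + (y ^ 2) ^ 2 / y ^ 6 = 2 / y ^ 2 := by field_simp; norm_num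
    rw [this, mul_div_assoc', div_le_iff₀ (by positivity)]
    nlinarith
  · exact one_le_pow₀ hy1
  · positivity
  · rw [div_le_one (by positivity)]; exact one_le_pow₀ hy1
  · have : Cs * (1 / y ^ 9) * y ^ 6 = Cs / y ^ 3 := by field_simp
    rw [this, div_le_div_iff₀ (by positivity) (by positivity)]
    have e : y ^ 3 = y * y ^ 2 := by ring
    have h0 : 0 < y ^ 2 := by positivity
    rw [e]; nlinarith
  · rw [← pow_mul]
    have := hp1 (20 * 60) (by norm_num)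
    linarith
  · exact h7.trans (hp1 _ (by norm_num))
  · exact le_trans (by linarith) (hp1 _ (by norm_num))
  · rw [hN, ← pow_mul, le_div_iff₀ (by norm_num)]
    have e : y ^ 60000 = y ^ 59999 * y := by rw [← pow_succ]
    have := hp (20 * 100) 59999 (by norm_num)
    have h0 : 0 < y ^ (20 * 100) := by positivity
    rw [e]; nlinarith
  · rw [hN, Real.log_mul (by norm_num) (by positivity)]
    have h8 := Real.log_le_sub_one_of_pos (show (0 : ℝ) < 4 by norm_num)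
    have h9 := hp 2 20 (by norm_num)
    nlinarith
  · rw [div_pow, one_pow, ← pow_mul, div_div, one_div_le_one_div (by positivity) (by positivity)]
    have e : y ^ 20 = y ^ (9 * 2) * y ^ 2 := by rw [← pow_add]
    have := hp1 2 (by norm_num)
    have h0 : 0 < y ^ (9 * 2) := by positivity
    rw [e]; nlinarith
  · have e : 1 / y ^ 3 * y ^ 20 = y ^ 17 := by field_simp
    rw [e]; exact le_trans (by linarith) (hp1 _ (by norm_num))
  · rw [div_le_one (by positivity)]; exact one_le_pow₀ hy1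
  · rw [hN, div_pow, one_pow, ← pow_mul, ← pow_mul, mul_pow, ← pow_mul, one_div_mul_eq_div,
      le_div_iff₀ (by positivity)]
    have h8 : (2 : ℝ) * 2 ^ 4 ≤ y ^ 3 := le_trans (by norm_num) (h4y 3)
    calc 2 * (2 ^ 4 * y ^ (20 * 60 * 4)) * y ^ (9 * 2)
        = (2 * 2 ^ 4) * (y ^ (20 * 60 * 4) * y ^ (9 * 2)) := by ring
      _ ≤ y ^ 3 * (y ^ (20 * 60 * 4) * y ^ (9 * 2)) := by gcongr
      _ = y ^ (3 + (20 * 60 * 4 + 9 * 2)) := by rw [pow_add, pow_add]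
      _ ≤ y ^ 60000 := hp _ _ (by norm_num)
  · rw [hN, div_div, div_pow, one_pow, div_le_div_iff₀ (by positivity) (by positivity), one_mul]
    have e : (y ^ 9 * (2 * (y ^ 20) ^ 60) ^ 2) ^ 20 = 4 ^ 20 * y ^ ((9 + 20 * 60 * 2) * 20) := by
      rw [← pow_mul, mul_pow 2, ← pow_mul, mul_left_comm, ← pow_add, mul_pow, ← pow_mul y,
        show (2 : ℝ) ^ 2 = 4 by norm_num]
    rw [e, ← pow_mul]
    calc 4 * y ^ (20 * 206) * (4 ^ 20 * y ^ ((9 + 20 * 60 * 2) * 20))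
        = 4 ^ 21 * (y ^ (20 * 206) * y ^ ((9 + 20 * 60 * 2) * 20)) := by
          rw [pow_succ (4 : ℝ) 20]; ac_rfl
      _ ≤ y ^ 21 * (y ^ (20 * 206) * y ^ ((9 + 20 * 60 * 2) * 20)) := by
          gcongr; linarith
      _ = y ^ (21 + (20 * 206 + (9 + 20 * 60 * 2) * 20)) := by rw [pow_add, pow_add]
      _ ≤ y ^ 60000 := hp _ _ (by norm_num)
  · rw [hN, ← pow_mul]

/-- A Diophantine parameter at which the linearizer leaves the unit disc early. -/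
theorem setup2 {Cf : ℝ} (hCf : 1 ≤ Cf) (P₁ : ℝ) :
    ∃ (P γ x r U ρ₁ : ℝ) (lam0 : ℂ) (h₀ : ℂ → ℂ), P₁ ≤ P ∧ 10 ≤ P ∧ 0 < γ ∧ γ ≤ 1 ∧ Dio2 x γ ∧
      200 ≤ x ∧ x ≤ 2 * P ^ 3000 ∧ 1 / P ≤ γ ^ 2 / Cf ∧
      (∀ z : ℝ, |z - x| ≤ 1 → Dio z (1 / P) → Good P z) ∧ Good P x ∧
      (∀ l : ℝ, γ / (2 * P ^ 60) ^ 2 ≤ l → 1 - 2 * l ^ 2 / x ^ 2 ≤ r) ∧ r ≤ 1 ∧
      (∀ l z : ℝ, γ / (2 * P ^ 60) ^ 2 ≤ l → |z - x| ≤ 1 → P ^ 206 / z ≤ l ^ 20) ∧
      lam0 = (r : ℂ) * ee (1 / x) ∧ Lin (fun z => lam0 * koebe z) lam0 h₀ U ∧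
      InjOn h₀ (ball 0 U) ∧ 3 / (2 * x) ≤ ρ₁ ∧ ρ₁ ≤ U * (1 - 4 / (P * x)) ∧
      (∀ w ∈ ball (0 : ℂ) ρ₁, ‖h₀ w‖ ≤ 1) ∧
      ∀ ε : ℝ, 0 < ε → ∃ w ∈ ball (0 : ℂ) U, ‖w‖ < ρ₁ + ε ∧ 1 < ‖h₀ w‖ := by
  obtain ⟨P₂, hSt⟩ := struct_koebe
  obtain ⟨c₁, N₀, hc₁, hM⟩ := margin
  obtain ⟨Cs, hCs, hSel⟩ := measure_not_dio2
  have hex : ∀ lam : ℂ, ∃ (η : ℂ) (h : ℂ → ℂ), lam ∈ ball (0 : ℂ) 1 → KExt lam η h := by
    intro lam
    by_cases hl : lam ∈ ball (0 : ℂ) 1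
    · obtain ⟨η, h, H⟩ := kext_exists (mem_ball_zero_iff.1 hl)
      exact ⟨η, h, fun _ => H⟩
    · exact ⟨0, id, fun h => absurd h hl⟩
  choose η h hK using hex
  obtain ⟨N, P, T, c, X, μ, γ, p1, p2, p3, p4, p5, p6, p7, p8, p9, p10, p11, p12, p13, p14, p15,
    p16, p17, p18, p19, p20, p21, p22, p23, p24, p25⟩ := params2 hc₁ hCs hCf N₀ 0 (max P₁ P₂)
  have hN0 : (0 : ℝ) < N := lt_of_lt_of_le (by norm_num) p2
  have hP0 : 0 < P := lt_of_lt_of_le (by norm_num) p17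
  have hδ0 : (0 : ℝ) < 1 / (N : ℝ) ^ 3 := by positivity
  have hδ1 : 1 / (N : ℝ) ^ 3 ≤ 1 := by
    rw [div_le_one (by positivity)]; exact one_le_pow₀ (le_trans (by norm_num) p2)
  have hvol := hM η h hK N p1 T c X μ _ p3 p4 p5 p6 p7 p8 p9 p10 hδ0 le_rfl
  have hsel := hSel N X γ (le_trans (by norm_num) p2) p11 p8 p12 p13
  obtain ⟨φ, ⟨hφ, t, ht, hth⟩, hdio⟩ : ∃ φ : ℝ, (|φ - 2 * Real.pi / N| ≤ X / N ^ 2 ∧
      ∃ t : ℂ, ‖t‖ ≤ Real.exp (-(2 * Real.pi * c / N)) ∧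
        1 < ‖h (circleMap 0 (1 - 1 / (N : ℝ) ^ 3) φ)
          (t * η (circleMap 0 (1 - 1 / (N : ℝ) ^ 3) φ))‖) ∧
      Dio2 (2 * Real.pi / φ) γ := by
    by_contra hcon
    push Not at hcon
    have hsub := MeasureTheory.measure_mono (μ := MeasureTheory.volume)
      (show {φ : ℝ | |φ - 2 * Real.pi / N| ≤ X / N ^ 2 ∧
        ∃ t : ℂ, ‖t‖ ≤ Real.exp (-(2 * Real.pi * c / N)) ∧
          1 < ‖h (circleMap 0 (1 - 1 / (N : ℝ) ^ 3) φ)
            (t * η (circleMap 0 (1 - 1 / (N : ℝ) ^ 3) φ))‖} ⊆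
        {φ : ℝ | |φ - 2 * Real.pi / N| ≤ X / N ^ 2 ∧ ¬ Dio2 (2 * Real.pi / φ) γ} from
        fun φ hφ => ⟨hφ.1, hcon φ hφ⟩)
    have h2 : ENNReal.ofReal (Cs * γ * X / N ^ 2) ≤ ENNReal.ofReal (μ / N ^ 2) :=
      ENNReal.ofReal_le_ofReal (div_le_div_of_nonneg_right p14 (by positivity))
    exact absurd (hvol.trans_le (hsub.trans (hsel.trans h2))) (lt_irrefl _)
  clear hvol hsel hM hSel p1 p3 p4 p5 p6 p7 p9 p10 p11 p14
  obtain ⟨hφ0, hx1, hx2⟩ := window_bounds p2 p8 hφ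
  have hlam := circleMap_eq_ee (1 - 1 / (N : ℝ) ^ 3) hφ0
  generalize 2 * Real.pi / φ = x at hx1 hx2 hlam hdio
  have hlam1 : circleMap 0 (1 - 1 / (N : ℝ) ^ 3) φ ∈ ball (0 : ℂ) 1 := by
    rw [mem_ball_zero_iff, norm_circleMap_zero, abs_of_nonneg (sub_nonneg.2 hδ1)]
    exact sub_lt_self _ hδ0
  generalize circleMap 0 (1 - 1 / (N : ℝ) ^ 3) φ = lam0 at hlam hlam1 hth
  have hx200 : 200 ≤ x := by linarith
  have hx0 : 0 < x := by linarith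
  have HK := hK lam0 hlam1
  have hU0 : 0 < ‖η lam0‖ := norm_pos_iff.2 HK.ne
  have hγP : 1 / P ≤ γ := by
    refine p20.trans ((div_le_self (by positivity) hCf).trans ?_)
    rw [sq]; exact mul_le_of_le_one_right p12.le p13
  have hgood := setup_aux1 p2 hx1 hx2 p18 p19
  have hgx : Good P x := hgood x (by simp) ((dio_of_dio2 p12.le hdio).mono hγP)
  have hP5 := setup_aux2 p17 hgx.1
  have hr0 := setup_aux3 p2 hx0 hx2
  have hr1 : 1 - 1 / (N : ℝ) ^ 3 ≤ 1 := sub_le_self _ hδ0.le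
  have hst := (hSt P ((le_max_right _ _).trans p16) x _ hgx hr0 hr1 lam0 (h lam0) _
    hlam HK.lin HK.inj).2.1
  have hR := norm_ustar_bounds (le_trans (by norm_num) hx200) hr0 hr1
  rw [← hlam] at hR
  have hexp := exp_margin p2 p17 p21 p22 hx1
  have hw1 : ‖t * η lam0‖ ≤ ‖η lam0‖ * (1 - 4 / (P * x)) := by
    rw [norm_mul, mul_comm]
    exact mul_le_mul_of_nonneg_left (ht.trans hexp) hU0.le
  have hw1' : t * η lam0 ∈ ball (0 : ℂ) ‖η lam0‖ := by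
    rw [mem_ball_zero_iff]
    exact hw1.trans_lt (mul_lt_of_lt_one_right hU0 (sub_lt_self _ (by positivity)))
  obtain ⟨ρ₁, r1, r2, r3, r4⟩ := exit_radius (b := 3 / (2 * x)) hw1' hth (by
    intro w hw hw2
    by_contra hcon
    push Not at hcon
    have h1 : ‖2 / (1 - lam0)‖ * ‖w‖ ≤ x / 2 * (3 / (2 * x)) :=
      mul_le_mul hR.2 hcon.le (norm_nonneg _) (by positivity)
    have h2 : x / 2 * (3 / (2 * x)) = 3 / 4 := by field_simp; norm_num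
    have h3 := hst w hw (by rw [h2] at h1; exact h1.trans (by linarith only [hP5]))
    linarith only [h3, hw2])
  exact ⟨P, γ, x, _, _, ρ₁, lam0, h lam0, (le_max_left _ _).trans p16, p17, p12, p13, hdio, hx200,
    by linarith only [hx2, p25], p20, hgood, hgx, fun l hl => setup_aux4 p2 hx0 hx2 (by positivity) p12 p23 hl, hr1,
    fun l z hl hz => setup_aux5 p2 hx1 (by positivity) (by positivity) p24 hl hz, hlam, HK.lin,
    HK.inj, r1, r2.trans hw1, r3, r4⟩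

theorem main_pair2 : ∃ C : ℝ, 1 ≤ C ∧ ∀ P₀ : ℝ, ∃ θ' θ'' β ρ P : ℝ, P₀ ≤ P ∧
    1 / P ^ 3122 ≤ β ∧ β ≤ 1 / P ∧ θ' ∈ Ico (0 : ℝ) 1 ∧
    θ'' ∈ Ico (0 : ℝ) 1 ∧ Irrational θ' ∧ Irrational θ'' ∧ Summable (bterm θ') ∧
    Summable (bterm θ'') ∧ 0 < β ∧ 0 < ρ ∧ |θ' - θ''| ≤ 16 * β ^ 2 ∧
    β * (Real.log P / C - C) ≤ ∑' n, bterm θ' n - ∑' n, bterm θ'' n ∧
    ENNReal.ofReal (ρ * Real.exp (-(C * β))) ≤ rr θ' ∧ rr θ' < ⊤ ∧ 0 < rr θ'' ∧
    rr θ'' ≤ ENNReal.ofReal (ρ * Real.exp (C * β)) := by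
  obtain ⟨P₁, hB⟩ := both_bounds
  obtain ⟨Cf, hCf, hCF⟩ := cf_pair
  refine ⟨30 + Cf, by linarith, fun P₀ => ?_⟩
  obtain ⟨P, γ, x, r, U, ρ₁, lam0, h₀, q1, q2, p12, p13, hdio, hx200, p25, p20, hgood, hgx, q3, q4,
    q5, hlam, HL, hinj, hρlow, hρup, hin, hout⟩ := setup2 hCf (max P₁ P₀)
  have hx0 : 0 < x := by linarith
  have hP1 : (1 : ℝ) ≤ P := by linarith
  have hρ0 : 0 < ρ₁ := lt_of_lt_of_le (by positivity) hρlow
  have hP60 : (1 : ℝ) ≤ P ^ 60 := one_le_pow₀ hP1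
  have hA1 : 1 ≤ ⌈P ^ 60⌉₊ := Nat.one_le_ceil_iff.2 (by positivity)
  have p15 : ((⌈P ^ 60⌉₊ : ℕ) : ℝ) ≤ 2 * P ^ 60 := by
    have := Nat.ceil_lt_add_one (show (0 : ℝ) ≤ P ^ 60 by positivity)
    linarith only [this, hP60]
  have hPP : P ≤ P ^ 60 := le_self_pow₀ hP1 (by norm_num)
  obtain ⟨x', x'', l, hl1, hl2, hx', hx'', hd', hd'', hs', hs'', hBr⟩ :=
    hCF x γ (2 * P ^ 60) _ (by linarith) p12 p13 hdio (by linarith) hA1 p15
  have hl0 : 0 < l := lt_of_lt_of_le (by positivity) hl1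
  have hlP : 2 * l * P ^ 60 ≤ 1 := by
    rw [le_div_iff₀ (by positivity)] at hl2; linarith only [hl2]
  have hlh : l ≤ 1 / 2 :=
    hl2.trans (one_div_le_one_div_of_le (by norm_num) (by linarith only [hP60]))
  have hl3 : 2 * l ^ 2 ≤ 1 := by nlinarith only [hlh, hl0]
  have key : ∀ z : ℝ, |z - x| ≤ 2 * l ^ 2 → Dio z (γ ^ 2 / Cf) →
      (1 / z ∈ Ico (0 : ℝ) 1 ∧ Irrational (1 / z) ∧ x / 2 ≤ z) ∧
      ENNReal.ofReal (ρ₁ * Real.exp (-(30 * (l / x)))) ≤ rr (1 / z) ∧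
      rr (1 / z) ≤ ENNReal.ofReal (ρ₁ * Real.exp (l / x)) := by
    intro z hz hd
    have hz1 := abs_le.1 (hz.trans hl3)
    have hz0 : 0 < z := by linarith only [hz1.1, hx200]
    have hgz : Good P z := hgood z (hz.trans hl3) (hd.mono p20)
    refine ⟨⟨⟨by positivity, ?_⟩, ?_, by linarith only [hz1.1, hx200]⟩, ?_⟩
    · rw [div_lt_one hz0]; linarith only [hz1.1, hx200]
    · rw [one_div]; exact (irrational_of_dio (by positivity) hd).inv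
    · exact hB P ((le_max_left _ _).trans q1) x z r l hgx hgz hl0 hlP hz (q3 l hl1) q4 (q5 l z hl1 (hz.trans hl3))
        lam0 h₀ U ρ₁ hlam HL hinj hρlow hρup hin hout
  obtain ⟨⟨a1, a2', a3⟩, a4, a5⟩ := key x' hx' hd'
  obtain ⟨⟨b1, b2, b3⟩, b4, b5⟩ := key x'' hx'' hd''
  have hβ0 : 0 < l / x := by positivity
  have hCβ : 0 ≤ Cf * (l / x) := by positivity
  refine ⟨1 / x', 1 / x'', l / x, ρ₁, P, (le_max_right _ _).trans q1, ?_, ?_, a1, b1, a2', b2,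
    hs', hs'', hβ0, hρ0, main_aux1 hx0 a3 b3 hx' hx'', ?_, ?_, ?_, ?_, ?_⟩
  · have hγP : 1 / P ≤ γ := by
      refine p20.trans ((div_le_self (by positivity) hCf).trans ?_)
      rw [sq]; exact mul_le_of_le_one_right p12.le p13
    calc 1 / P ^ 3122 ≤ 1 / (8 * P ^ 3121) := by
          refine one_div_le_one_div_of_le (by positivity) ?_
          rw [pow_succ' P 3121]
          exact mul_le_mul_of_nonneg_right (by linarith only [q2]) (by positivity)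
      _ = 1 / P / (2 * P ^ 60) ^ 2 / (2 * P ^ 3000) := by
          rw [show P ^ 3121 = P * (P ^ 60) ^ 2 * P ^ 3000 by
            rw [← pow_mul, ← pow_succ', ← pow_add]]
          generalize P ^ 60 = a at *
          generalize P ^ 3000 = b at *
          ring
      _ ≤ l / x := div_le_div₀ hl0.le
          ((div_le_div_of_nonneg_right hγP (by positivity)).trans hl1) hx0 p25
  · exact (div_le_self hl0.le (by linarith only [hx200])).trans (hl2.trans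
      (one_div_le_one_div_of_le (by positivity) (by linarith only [hPP, hP1])))
  · refine le_trans (mul_le_mul_of_nonneg_left ?_ hβ0.le) hBr
    have h1 : Real.log P ≤ Real.log (⌈P ^ 60⌉₊ : ℕ) :=
      Real.log_le_log (by positivity) (hPP.trans (Nat.le_ceil _))
    have h2 : Real.log P / (30 + Cf) ≤ Real.log (⌈P ^ 60⌉₊ : ℕ) / Cf :=
      div_le_div₀ ((Real.log_nonneg hP1).trans h1) h1 (by linarith only [hCf]) (by linarith)
    linarith only [h2]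
  · refine le_trans (ENNReal.ofReal_le_ofReal ?_) a4
    apply mul_le_mul_of_nonneg_left _ hρ0.le
    apply Real.exp_le_exp.2
    linarith only [hCβ]
  · exact lt_of_le_of_lt a5 ENNReal.ofReal_lt_top
  · exact lt_of_lt_of_le (ENNReal.ofReal_pos.2 (by positivity)) b4
  · refine b5.trans (ENNReal.ofReal_le_ofReal ?_)
    apply mul_le_mul_of_nonneg_left _ hρ0.le
    apply Real.exp_le_exp.2
    linarith only [hCβ, hβ0]

theorem sqrt_log_le {t β L : ℝ} (ht : 0 < t) (hβ : 0 < β) (h1 : t ≤ 16 * β ^ 2) (h2 : β ≤ 1)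
    (hL : 1 ≤ L) (h3 : Real.log (1 / β) ≤ 3122 * L) :
    √t * Real.log (1 / t) ≤ 25000 * (β * L) := by
  obtain ⟨s, hs, rfl⟩ : ∃ s : ℝ, 0 < s ∧ t = s ^ 2 :=
    ⟨√t, Real.sqrt_pos.2 ht, (Real.sq_sqrt ht.le).symm⟩
  have h4 : s ≤ 4 * β := by
    refine le_of_sq_le_sq ?_ (by positivity)
    linarith [show (4 * β) ^ 2 = 16 * β ^ 2 by ring]
  have h5 : Real.log (1 / s ^ 2) = 2 * (Real.log (β / s) + Real.log (1 / β)) := by
    rw [← Real.log_mul (by positivity) (by positivity), ← one_div_pow, Real.log_pow,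
      show β / s * (1 / β) = 1 / s by field_simp]
    norm_num
  have h6 : s * Real.log (β / s) ≤ β := by
    have := mul_le_mul_of_nonneg_left (Real.log_le_sub_one_of_pos (div_pos hβ hs)) hs.le
    rw [mul_sub, mul_div_cancel₀ _ hs.ne'] at this
    linarith
  have h7 : 0 ≤ Real.log (1 / β) := Real.log_nonneg (one_le_one_div hβ h2)
  have h8 : s * Real.log (1 / β) ≤ 4 * β * (3122 * L) := mul_le_mul h4 h3 h7 (by positivity)
  have h9 : β ≤ β * L := le_mul_of_one_le_right hβ.le hL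
  rw [Real.sqrt_sq hs.le, h5]
  nlinarith

end Pool.Agent.Lib.MP_102662_an

namespace Pool.Agent.Lib.MP_102662_an.Fb

theorem log_loss : ∃ c : ℝ, 0 < c ∧ ∀ δ : ℝ, 0 < δ → ∃ θ₁ θ₂ B₁ B₂ r₁ r₂ : ℝ,
    θ₁ ∈ Ioo (0 : ℝ) 1 ∧ θ₂ ∈ Ioo (0 : ℝ) 1 ∧ Irrational θ₁ ∧ Irrational θ₂ ∧ θ₁ ≠ θ₂ ∧
    |θ₁ - θ₂| < δ ∧ HasSum (brjunoTerm θ₁) B₁ ∧ HasSum (brjunoTerm θ₂) B₂ ∧ 0 < r₁ ∧ 0 < r₂ ∧
    minRadius θ₁ = ENNReal.ofReal r₁ ∧ minRadius θ₂ = ENNReal.ofReal r₂ ∧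
    c * (√|θ₁ - θ₂| * Real.log (1 / |θ₁ - θ₂|)) ≤ (Real.log r₁ + B₁) - (Real.log r₂ + B₂) := by
  obtain ⟨C, hC, hmain⟩ := main_pair2
  refine ⟨1 / (50000 * C), by positivity, fun δ hδ => ?_⟩
  obtain ⟨θ₁, θ₂, β, ρ, P, hP, hb1, hb2, h1, h2, hi1, hi2, hs1, hs2, hβ, hρ, hd, hB, hlo, hfin,
    hpos, hup⟩ := hmain (max (Real.exp (6 * C ^ 2)) (17 / δ))
  have hP0 : 0 < P := (Real.exp_pos _).trans_le ((le_max_left _ _).trans hP)
  have hL : 6 * C ^ 2 ≤ Real.log P :=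
    (Real.le_log_iff_exp_le hP0).2 ((le_max_left _ _).trans hP)
  have hL1 : 1 ≤ Real.log P := by nlinarith
  have hP1 : 1 ≤ P := ((Real.log_pos_iff hP0.le).1 (by linarith)).le
  have hβ1 : β ≤ 1 := hb2.trans ((div_le_one hP0).2 hP1)
  have g1 : θ₁ ∈ Ioo (0 : ℝ) 1 := ⟨lt_of_le_of_ne h1.1 (Ne.symm hi1.ne_zero), h1.2⟩
  have g2 : θ₂ ∈ Ioo (0 : ℝ) 1 := ⟨lt_of_le_of_ne h2.1 (Ne.symm hi2.ne_zero), h2.2⟩
  have hp : 0 < ρ * Real.exp (-(C * β)) := by positivity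
  have k1 := (ENNReal.ofReal_le_iff_le_toReal hfin.ne).1 hlo
  have hne : rr θ₂ ≠ ⊤ := ne_top_of_le_ne_top ENNReal.ofReal_ne_top hup
  have k2 : 0 < (rr θ₂).toReal := ENNReal.toReal_pos hpos.ne' hne
  have h5 : 6 * C ≤ Real.log P / C := by
    rw [le_div_iff₀ (by linarith)]; linarith [show 6 * C * C = 6 * C ^ 2 by ring]
  have hn : θ₁ ≠ θ₂ := by
    rintro rfl
    have : 0 < β * (Real.log P / C - C) := mul_pos hβ (by linarith)
    linarith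
  refine ⟨θ₁, θ₂, ∑' n, bterm θ₁ n, ∑' n, bterm θ₂ n, (rr θ₁).toReal, (rr θ₂).toReal, g1, g2,
    hi1, hi2, hn, ?_, brjunoTerm_eq g1 hi1 ▸ hs1.hasSum, brjunoTerm_eq g2 hi2 ▸ hs2.hasSum,
    hp.trans_le k1, k2, by rw [minRadius_eq, ENNReal.ofReal_toReal hfin.ne],
    by rw [minRadius_eq, ENNReal.ofReal_toReal hne], ?_⟩
  · have h3 : 17 / δ ≤ P := (le_max_right _ _).trans hP
    have h4 : 1 / P ≤ δ / 17 := by
      rw [div_le_iff₀ hδ] at h3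
      rw [div_le_div_iff₀ hP0 (by norm_num)]; linarith
    nlinarith
  have l1 : Real.log ρ - C * β ≤ Real.log (rr θ₁).toReal := by
    have h3 := Real.log_le_log hp k1
    rw [Real.log_mul hρ.ne' (Real.exp_pos _).ne', Real.log_exp] at h3
    linarith
  have l2 : Real.log (rr θ₂).toReal ≤ Real.log ρ + C * β := by
    have h3 := Real.log_le_log k2 (ENNReal.toReal_le_of_le_ofReal (by positivity) hup)
    rw [Real.log_mul hρ.ne' (Real.exp_pos _).ne', Real.log_exp] at h3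
    linarith
  have h6 : Real.log (1 / β) ≤ 3122 * Real.log P := by
    have h7 : 1 / β ≤ P ^ 3122 := (one_div_le hβ (by positivity)).2 hb1
    have := Real.log_le_log (by positivity) h7
    rw [Real.log_pow] at this
    exact_mod_cast this
  have h8 := mul_le_mul_of_nonneg_left
    (sqrt_log_le (abs_pos.2 (sub_ne_zero.2 hn)) hβ hd hβ1 hL1 h6)
    (show 0 ≤ 1 / (50000 * C) by positivity)
  have h9 : 1 / (50000 * C) * (25000 * (β * Real.log P)) = β * (Real.log P / C) / 2 := by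
    field_simp; norm_num
  have h10 := mul_le_mul_of_nonneg_left h5 hβ.le
  rw [h9] at h8
  nlinarith

end Pool.Agent.Lib.MP_102662_an.Fb
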