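import Pool.Agent.Lib.MP_102662_an.Lip
import Pool.Agent.Lib.MP_102662_an.KextB

open Complex Metric Set Filter Topology

namespace Pool.Agent.Lib.MP_102662_an

theorem mg_kappa {ζ : ℂ} (hζ : ‖ζ‖ = 1) {ρ g : ℝ} (hρ0 : 0 ≤ ρ) (hρ1 : ρ < 1) (hg : 0 ≤ g) :
    ∃ κ : ℂ → ℂ, DifferentiableOn ℂ κ (ball 0 1) ∧ (∀ z ∈ ball (0 : ℂ) 1, 0 ≤ (κ z).re) ∧
      κ (ρ * ζ) = g ∧ ∀ z ∈ ball (0 : ℂ) 1, ‖κ z‖ ≤ 2 * (g * (1 - ρ)) / (1 - ‖z‖) := by
  have hne : ∀ z ∈ ball (0 : ℂ) 1, ζ - z ≠ 0 := by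
    intro z hz h
    rw [sub_eq_zero] at h
    rw [mem_ball_zero_iff, ← h, hζ] at hz
    exact lt_irrefl _ hz
  set b : ℝ := g * (1 - ρ) / (1 + ρ) with hb
  have hb0 : 0 ≤ b := by
    have : 0 ≤ 1 - ρ := by linarith
    positivity
  refine ⟨fun z => (b : ℂ) * ((ζ + z) / (ζ - z)), ?_, ?_, ?_, ?_⟩
  · exact (differentiableOn_const _).mul (((differentiableOn_const _).add differentiableOn_id).div
      ((differentiableOn_const _).sub differentiableOn_id) hne)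
  · intro z hz
    rw [re_ofReal_mul]
    apply mul_nonneg hb0
    have h := le_re_herglotzRieszKernel (c := 0) (z := ζ) (R := 1) (w := z) (by simpa using hζ) hz
    simp only [sub_zero] at h
    refine le_trans ?_ h
    rw [mem_ball_zero_iff] at hz
    exact div_nonneg (by linarith) (by positivity)
  · have hζ0 : ζ ≠ 0 := by
      intro h; rw [h, norm_zero] at hζ; exact zero_ne_one hζ
    have h1 : (1 - (ρ : ℂ)) ≠ 0 := by
      have : ((1 - ρ : ℝ) : ℂ) ≠ 0 := ofReal_ne_zero.2 (by linarith)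
      simpa using this
    have h2 : (1 + (ρ : ℂ)) ≠ 0 := by
      have : ((1 + ρ : ℝ) : ℂ) ≠ 0 := ofReal_ne_zero.2 (by linarith)
      simpa using this
    have e1 : ζ - ρ * ζ = (1 - ρ) * ζ := by ring
    have e2 : ζ + ρ * ζ = (1 + ρ) * ζ := by ring
    simp only [hb, e1, e2]
    push_cast
    field_simp
  · intro z hz
    rw [mem_ball_zero_iff] at hz
    have h1 : 1 - ‖z‖ ≤ ‖ζ - z‖ := by
      have := norm_sub_norm_le ζ z
      rwa [hζ] at this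
    have h2 : ‖ζ + z‖ ≤ 2 := by
      have := norm_add_le ζ z
      rw [hζ] at this; linarith
    have h3 : b ≤ g * (1 - ρ) := div_le_self (mul_nonneg hg (by linarith)) (by linarith)
    have h4 : 0 < 1 - ‖z‖ := by linarith
    rw [norm_mul, norm_div, norm_real, Real.norm_of_nonneg hb0]
    calc b * (‖ζ + z‖ / ‖ζ - z‖) ≤ (g * (1 - ρ)) * (2 / (1 - ‖z‖)) :=
          mul_le_mul h3 (div_le_div₀ (by norm_num) h2 h4 h1) (by positivity) (hb0.trans h3)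
      _ = _ := by ring

theorem mg_mem {lam η : ℂ} {h : ℂ → ℂ} (H : KExt lam η h) {t : ℂ} (ht : ‖t‖ < 1) :
    t * η ∈ ball (0 : ℂ) ‖η‖ := by
  rw [mem_ball_zero_iff, norm_mul]
  exact mul_lt_of_lt_one_left (norm_pos_iff.2 H.ne) ht

theorem mg_ne {lam η : ℂ} {h : ℂ → ℂ} (H : KExt lam η h) {t : ℂ} (ht : ‖t‖ < 1) (ht0 : t ≠ 0) :
    h (t * η) ≠ 0 := by
  intro e
  have h0 : (0 : ℂ) ∈ ball (0 : ℂ) ‖η‖ := mem_ball_self (norm_pos_iff.2 H.ne)
  have := H.inj (mg_mem H ht) h0 (e.trans H.zero.symm)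
  exact mul_ne_zero ht0 H.ne this

theorem mg_bound {lam η : ℂ} {h : ℂ → ℂ} (H : KExt lam η h) {t : ℂ} {r₀ : ℝ} (hr : r₀ < 1)
    (ht : ‖t‖ ≤ r₀) : ‖h (t * η)‖ ≤ 4 / (1 - r₀) ^ 4 := by
  have hη := norm_pos_iff.2 H.ne
  have h1 := univ_growth H.diff H.inj H.zero H.one (mg_mem H (ht.trans_lt hr))
  refine h1.trans ?_
  have e : ‖t * η‖ / ‖η‖ = ‖t‖ := by rw [norm_mul]; field_simp
  rw [e]
  have h2 : ‖t * η‖ ≤ 4 := by
    rw [norm_mul]
    exact (mul_le_of_le_one_left hη.le (ht.trans hr.le)).trans H.norm_le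
  have h3 : 0 < 1 - r₀ := by linarith
  exact div_le_div₀ (by norm_num) h2 (by positivity) (pow_le_pow_left₀ h3.le (by linarith) 4)

theorem mg_one_sub_exp {y : ℝ} (h0 : 0 ≤ y) (h1 : y ≤ 1) :
    y / 2 ≤ 1 - Real.exp (-y) ∧ 1 - Real.exp (-y) ≤ y := by
  constructor
  · have : Real.exp (-y) ≤ 1 - y / 2 := by
      rw [Real.exp_neg, ← one_div, div_le_iff₀ (Real.exp_pos _)]
      have := Real.add_one_le_exp y
      nlinarith
    linarith
  · have := Real.add_one_le_exp (-y)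
    linarith

theorem mg_B {n c : ℝ} (hn : 10 ≤ n) (hc : 1 / n ≤ c) (hc1 : c ≤ 1) :
    4 / (1 - Real.exp (-(2 * Real.pi * c / n))) ^ 4 ≤ Real.exp (10 * Real.log n) := by
  have hn0 : 0 < n := by linarith
  have hc0 : 0 < c := lt_of_lt_of_le (by positivity) hc
  have hpi := Real.pi_gt_three
  have hpi4 := Real.pi_lt_four
  have hy1 : 2 * Real.pi * c / n ≤ 1 := by
    rw [div_le_one hn0]; nlinarith
  have h1 := (mg_one_sub_exp (y := 2 * Real.pi * c / n) (by positivity) hy1).1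
  have h2 : 2 / n ^ 2 ≤ 2 * Real.pi * c / n / 2 := by
    have : 2 / n ^ 2 = 2 * (1 / n) / n := by field_simp
    rw [this, div_right_comm]
    apply div_le_div_of_nonneg_right _ hn0.le
    nlinarith
  have e : Real.exp (10 * Real.log n) = n ^ 10 := by
    rw [show (10 : ℝ) * Real.log n = ((10 : ℕ) : ℝ) * Real.log n by norm_num, Real.exp_nat_mul,
      Real.exp_log hn0]
  rw [e]
  calc 4 / (1 - Real.exp (-(2 * Real.pi * c / n))) ^ 4 ≤ 4 / (2 / n ^ 2) ^ 4 :=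
        div_le_div_of_nonneg_left (by norm_num) (by positivity)
          (pow_le_pow_left₀ (by positivity) (h2.trans h1) 4)
    _ = n ^ 8 / 4 := by field_simp; norm_num
    _ ≤ n ^ 8 := div_le_self (by positivity) (by norm_num)
    _ ≤ n ^ 10 := pow_le_pow_right₀ (by linarith) (by norm_num)

theorem mg_iter {lam η : ℂ} {h : ℂ → ℂ} (H : KExt lam η h) (hl : ‖lam‖ < 1) (hl0 : lam ≠ 0)
    {t : ℂ} (ht : ‖t‖ < 1) (ht0 : t ≠ 0) (k : ℕ) :
    (Fu lam)^[k] (1 / h (t * η)) = 1 / h (lam ^ k * t * η) := by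
  induction k with
  | zero => simp
  | succ k ih =>
    have h1 : ‖lam ^ k * t‖ < 1 := by
      rw [norm_mul, norm_pow]
      exact lt_of_le_of_lt (mul_le_of_le_one_left (norm_nonneg _)
        (pow_le_one₀ (norm_nonneg _) hl.le)) ht
    rw [Function.iterate_succ_apply', ih,
      (H.Fu_inv hl hl0 (mg_mem H h1) (mul_ne_zero (mul_ne_zero (pow_ne_zero _ hl0) ht0) H.ne)).2]
    congr 2
    ring

theorem mg_pert {u y D : ℂ} {q ε : ℝ} (hu : u ≠ 0) (hy : y = u + 2 + 1 / u) (hq0 : 0 < q)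
    (hq : q ≤ 1 / 4) (hyq : ‖y‖ ≤ q ^ 2) (hD : ‖D‖ ≤ ε) (hε : ε ≤ q / 3) :
    ‖u * exp (-D) - u‖ ≤ 3 * ε ∧ ‖u * exp (-D)‖ ≤ 2 ∧
      ‖u * exp (-D) + 2 + 1 / (u * exp (-D))‖ ≤ 36 * q ^ 2 := by
  have hy1 : ‖y‖ ≤ 1 / 16 := hyq.trans (by nlinarith)
  have h1 : ‖u + 1‖ ≤ 2 * q := by
    refine (jouk hu hy hy1).1.trans ?_
    have : Real.sqrt ‖y‖ ≤ q := Real.sqrt_le_iff.2 ⟨hq0.le, hyq⟩
    linarith
  have h2 : ‖u‖ ≤ 3 / 2 := by
    have := norm_sub_le (u + 1) 1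
    rw [add_sub_cancel_right, norm_one] at this
    linarith
  have hε0 : 0 ≤ ε := (norm_nonneg _).trans hD
  have h3 : ‖exp (-D) - 1‖ ≤ 2 * ε := by
    have := Complex.norm_exp_sub_one_le (x := -D) (by rw [norm_neg]; linarith)
    rw [norm_neg] at this
    linarith
  have h4 : ‖u * exp (-D) - u‖ ≤ 3 * ε := by
    rw [← mul_sub_one, norm_mul]
    calc ‖u‖ * ‖exp (-D) - 1‖ ≤ 3 / 2 * (2 * ε) :=
          mul_le_mul h2 h3 (norm_nonneg _) (by norm_num)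
      _ = 3 * ε := by ring
  set v := u * exp (-D) with hv
  have h5 : ‖v + 1‖ ≤ 3 * q := by
    have := norm_add_le (v - u) (u + 1)
    rw [show v - u + (u + 1) = v + 1 by ring] at this
    linarith
  have h6 : 1 / 4 ≤ ‖v‖ := by
    have := norm_sub_le (v + 1) v
    rw [add_sub_cancel_left, norm_one] at this
    linarith
  have h7 : ‖v‖ ≤ 2 := by
    have := norm_sub_le (v + 1) 1
    rw [add_sub_cancel_right, norm_one] at this
    linarith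
  have hv0 : v ≠ 0 := norm_pos_iff.1 (by linarith)
  refine ⟨h4, h7, ?_⟩
  have e : v + 2 + 1 / v = (v + 1) ^ 2 / v := by field_simp; ring
  rw [e, norm_div, norm_pow]
  calc ‖v + 1‖ ^ 2 / ‖v‖ ≤ (3 * q) ^ 2 / (1 / 4) :=
        div_le_div₀ (by positivity) (pow_le_pow_left₀ (norm_nonneg _) h5 2) (by norm_num) h6
    _ = 36 * q ^ 2 := by ring

theorem mg_contra {C₁ C₂ q ε : ℝ} (hC₁ : 1 ≤ C₁) (hq0 : 0 < q) (hq : q ≤ 1 / 4)
    (hqC : 72 * C₂ * q ≤ 1 / (288 * C₁ ^ 2)) (hε : ε ≤ q / (2000 * C₁ ^ 2))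
    {ua ub ya yb va vb : ℂ} (hua : ua ≠ 0) (hub : ub ≠ 0) (hya : ya = ua + 2 + 1 / ua)
    (hyb : yb = ub + 2 + 1 / ub) (ha : ‖ya‖ ≤ q ^ 2) (hb : ‖yb‖ ≤ q ^ 2)
    (hab : q ^ 2 / (6 * C₁ ^ 2) ≤ ‖ya - yb‖) (hva : ‖va - ua‖ ≤ 3 * ε) (hvb : ‖vb - ub‖ ≤ 3 * ε)
    (hlip : ‖va - vb‖ ≤ C₂ * (72 * q ^ 2)) : False := by
  have hq16 : q ^ 2 ≤ 1 / 16 := by nlinarith
  have h1 := jouk_pair hua hub hya hyb (ha.trans hq16) (hb.trans hq16)
  have h2 : Real.sqrt ‖ya‖ ≤ q := Real.sqrt_le_iff.2 ⟨hq0.le, ha⟩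
  have h3 : Real.sqrt ‖yb‖ ≤ q := Real.sqrt_le_iff.2 ⟨hq0.le, hb⟩
  have h4 : ‖ya - yb‖ ≤ 24 * q * ‖ua - ub‖ :=
    h1.trans (mul_le_mul_of_nonneg_right (by linarith) (norm_nonneg _))
  have h5 : ‖ua - ub‖ ≤ ‖va - vb‖ + 6 * ε := by
    have e : ua - ub = (va - vb) - (va - ua) + (vb - ub) := by ring
    have := norm_add_le ((va - vb) - (va - ua)) (vb - ub)
    have h' := norm_sub_le (va - vb) (va - ua)
    rw [← e] at this
    linarith
  set a := q / C₁ ^ 2 with ha'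
  have ha0 : 0 < a := by positivity
  have e1 : q ^ 2 / (6 * C₁ ^ 2) = 24 * q * (a / 144) := by rw [ha']; field_simp; norm_num
  have h6 : a / 144 ≤ ‖ua - ub‖ := by
    rw [e1] at hab
    exact le_of_mul_le_mul_left (hab.trans h4) (by positivity)
  have e2 : q / (2000 * C₁ ^ 2) = a / 2000 := by rw [ha']; field_simp
  have h7 : C₂ * (72 * q ^ 2) ≤ a / 288 := by
    have : C₂ * (72 * q ^ 2) = (72 * C₂ * q) * q := by ring
    rw [this]
    refine (mul_le_mul_of_nonneg_right hqC hq0.le).trans (le_of_eq ?_)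
    rw [ha']; field_simp
  rw [e2] at hε
  linarith

end Pool.Agent.Lib.MP_102662_an
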