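import Pool.Agent.Lib.MP_102662_an.MarginX1

open Set Filter Topology

namespace Pool.Agent.Lib.MP_102662_an

/-- The numerical assumptions of the margin argument. -/
structure MgNum (C₁ C₃ q s τ n T c X μ δ : ℝ) : Prop where
  hC₁ : 1 ≤ C₁
  hC₃ : 1 ≤ C₃
  hq0 : 0 < q
  hq : q ≤ 1 / 1000
  hs : s = q ^ 2 / (3 * C₁)
  hτ : τ = q ^ 2 / (512000 * C₃ * C₁ ^ 4)
  hn : 100 ≤ n
  hnτ : 4 / τ ≤ n
  h1 : Real.log n ≤ τ ^ 2 * T
  h2 : T ^ 2 ≤ τ ^ 2 * n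
  h3 : 1 / n ≤ c
  h4 : c * T ≤ τ ^ 2
  h5 : T ≤ X
  h6 : X ≤ n
  h7 : 0 ≤ μ
  h8 : Real.log n * (μ + T ^ 2 / X) ≤ τ ^ 2
  h9 : 0 < δ
  h10 : δ ≤ 1 / n ^ 3

namespace MgNum

variable {C₁ C₃ q s τ n T c X μ δ : ℝ} (H : MgNum C₁ C₃ q s τ n T c X μ δ)
include H

theorem n0 : 0 < n := by linarith [H.hn]

theorem τ0 : 0 < τ := by
  have := H.hC₁; have := H.hC₃; have := H.hq0
  rw [H.hτ]; positivity

theorem s0 : 0 < s := by
  have := H.hC₁; have := H.hq0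
  rw [H.hs]; positivity

theorem c0 : 0 < c := lt_of_lt_of_le (by have := H.n0; positivity) H.h3

theorem q2 : q ^ 2 ≤ 1 / 1000000 := by
  have := pow_le_pow_left₀ H.hq0.le H.hq 2
  linarith

theorem τC : τ * (C₃ * C₁ ^ 4) = q ^ 2 / 512000 := by
  have := H.hC₁; have := H.hC₃
  rw [H.hτ]; field_simp

theorem τs : τ * C₁ ^ 3 * 1000 ≤ s := by
  have h1 := H.hC₁
  have h0 : 0 < C₁ := by linarith
  have hτ := H.τ0
  have e : s = q ^ 2 / (3 * C₁) := H.hs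
  rw [e, le_div_iff₀ (by positivity)]
  have h2 := H.τC
  have h3 : τ * C₁ ^ 4 ≤ τ * (C₃ * C₁ ^ 4) :=
    mul_le_mul_of_nonneg_left (le_mul_of_one_le_left (by positivity) H.hC₃) hτ.le
  have h4 : τ * C₁ ^ 3 * 1000 * (3 * C₁) = 3000 * (τ * C₁ ^ 4) := by ring
  have h5 := sq_nonneg q
  rw [h4]; linarith

theorem s_le : s ≤ q ^ 2 := by
  rw [H.hs]; exact div_le_self (sq_nonneg _) (by linarith [H.hC₁])

theorem τC1 : τ * C₁ ≤ 1 / 1000 := by
  have h1 := H.τs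
  have h2 : τ * C₁ ≤ τ * C₁ ^ 3 :=
    mul_le_mul_of_nonneg_left (le_self_pow₀ H.hC₁ (by norm_num)) H.τ0.le
  linarith [H.s_le, H.q2]

theorem τ_le : τ ≤ 1 / 1000 := (le_mul_of_one_le_right H.τ0.le H.hC₁).trans H.τC1

theorem τ_le_s : τ * 1000 ≤ s := by
  have h1 := H.τs
  have h2 : τ ≤ τ * C₁ ^ 3 := le_mul_of_one_le_right H.τ0.le (one_le_pow₀ H.hC₁)
  linarith

theorem τ2 : τ ^ 2 ≤ τ / 1000 := by
  have := H.τ_le; have := H.τ0
  nlinarith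

theorem log1 : 1 ≤ Real.log n := by
  rw [Real.le_log_iff_exp_le H.n0]
  have := Real.exp_one_lt_d9
  linarith [H.hn]

theorem T0 : 0 < T := by
  have h := H.log1.trans H.h1
  by_contra hc
  push Not at hc
  have := mul_nonpos_of_nonneg_of_nonpos (sq_nonneg τ) hc
  linarith

theorem invT : 1 / T ≤ τ ^ 2 := by
  rw [div_le_iff₀ H.T0]; exact H.log1.trans H.h1

theorem T_ge : 1000 ≤ T := by
  have h := H.log1.trans H.h1
  have h2 : τ ^ 2 * T ≤ 1 / 1000 * T :=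
    mul_le_mul_of_nonneg_right (by linarith [H.τ2, H.τ_le]) H.T0.le
  linarith

theorem logT : C₁ * Real.log n ≤ T := by
  have h1 : C₁ * Real.log n ≤ C₁ * (τ ^ 2 * T) :=
    mul_le_mul_of_nonneg_left H.h1 (by linarith [H.hC₁])
  have h2 : C₁ * (τ ^ 2 * T) = (τ * C₁) * τ * T := by ring
  have h3 : (τ * C₁) * τ ≤ 1 :=
    mul_le_one₀ (by linarith [H.τC1]) H.τ0.le (by linarith [H.τ_le])
  have h4 := mul_le_of_le_one_left H.T0.le h3
  linarith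

theorem T2 : T ^ 2 ≤ n :=
  H.h2.trans (mul_le_of_le_one_left H.n0.le (by linarith [H.τ2, H.τ_le]))

theorem c_le : c ≤ τ ^ 2 :=
  (le_mul_of_one_le_right H.c0.le (by linarith [H.T_ge])).trans H.h4

theorem a_le : τ ^ 2 / T ≤ τ ^ 2 := div_le_self (sq_nonneg _) (by linarith [H.T_ge])

theorem TE : T * (c + τ ^ 2 / T + (1 / T ^ 2 + T / n)) ≤ 4 * τ ^ 2 := by
  have hT := H.T0
  have e : T * (c + τ ^ 2 / T + (1 / T ^ 2 + T / n)) = c * T + τ ^ 2 + 1 / T + T ^ 2 / n := by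
    field_simp; ring
  have h1 : T ^ 2 / n ≤ τ ^ 2 := by rw [div_le_iff₀ H.n0]; exact H.h2
  rw [e]; linarith [H.h4, H.invT]

theorem E0 : 0 < c + τ ^ 2 / T + (1 / T ^ 2 + T / n) := by
  have := H.T0; have := H.c0; have := H.n0
  positivity

theorem E_le : c + τ ^ 2 / T + (1 / T ^ 2 + T / n) ≤ 4 * τ ^ 2 :=
  (le_mul_of_one_le_left H.E0.le (by linarith [H.T_ge])).trans H.TE

theorem δ_le : δ ≤ τ / n ^ 2 / 4 := by
  have hn := H.n0
  have h1 := H.hnτ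
  rw [div_le_iff₀ H.τ0] at h1
  refine H.h10.trans ?_
  rw [div_div, div_le_div_iff₀ (by positivity) (by positivity)]
  have : n ^ 2 * 4 ≤ n ^ 2 * (n * τ) := mul_le_mul_of_nonneg_left h1 (by positivity)
  nlinarith

theorem τT : τ / n ^ 2 ≤ T / n ^ 2 :=
  div_le_div_of_nonneg_right (by linarith [H.τ_le, H.T_ge]) (sq_nonneg _)

theorem Tn : T / n ^ 2 ≤ 1 / 100 := by
  have hn := H.n0
  rw [div_le_iff₀ (by positivity)]
  have h1 : T ≤ n := H.h5.trans H.h6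
  have h2 : n * 100 ≤ n * n := mul_le_mul_of_nonneg_left H.hn hn.le
  nlinarith

theorem d1 : T / n ^ 2 / 4 ≤ 1 - δ - Real.exp (-(T / n ^ 2)) ∧
    1 - δ - Real.exp (-(T / n ^ 2)) ≤ T / n ^ 2 := by
  have hn := H.n0; have hT := H.T0
  have := mg_one_sub_exp (y := T / n ^ 2) (by positivity) (by linarith [H.Tn])
  constructor <;> linarith [H.δ_le, H.τT, H.h9]

theorem d2 : τ / n ^ 2 / 4 ≤ 1 - δ - Real.exp (-(τ / n ^ 2)) ∧
    1 - δ - Real.exp (-(τ / n ^ 2)) ≤ τ / n ^ 2 := by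
  have hn := H.n0; have hT := H.τ0
  have := mg_one_sub_exp (y := τ / n ^ 2) (by positivity) (by linarith [H.Tn, H.τT])
  constructor <;> linarith [H.δ_le, H.h9]

theorem ang : 2 * Real.pi * s / n ^ 2 ≤ T / n ^ 2 / 4 := by
  rw [div_right_comm T]
  apply div_le_div_of_nonneg_right _ (sq_nonneg _)
  have h1 := Real.pi_lt_four
  have h2 : s ≤ 1 := by linarith [H.s_le, H.q2]
  have h3 : Real.pi * s ≤ 4 * 1 := mul_le_mul h1.le h2 H.s0.le (by norm_num)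
  linarith [H.T_ge]

theorem numA {d : ℝ} (hd1 : τ / n ^ 2 / 4 ≤ d) (hd2 : d ≤ τ / n ^ 2) :
    C₃ * (10 * Real.log n) * (μ / n ^ 2 / d + d / (X / n ^ 2)) ≤ 1 / 20 := by
  have hn := H.n0; have hT := H.T0; have hτ := H.τ0
  have hX : 0 < X := by linarith [H.h5]
  have hL : 0 ≤ Real.log n := by linarith [H.log1]
  have hμ := H.h7
  have h1 : μ / n ^ 2 / d ≤ 4 * μ / τ := by
    calc μ / n ^ 2 / d ≤ μ / n ^ 2 / (τ / n ^ 2 / 4) :=
          div_le_div_of_nonneg_left (by positivity) (by positivity) hd1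
      _ = 4 * μ / τ := by field_simp
  have h2 : d / (X / n ^ 2) ≤ τ / T := by
    calc d / (X / n ^ 2) ≤ τ / n ^ 2 / (T / n ^ 2) :=
          div_le_div₀ (by positivity) hd2 (by positivity)
            (div_le_div_of_nonneg_right H.h5 (sq_nonneg _))
      _ = τ / T := by field_simp
  have h3 : Real.log n * μ ≤ τ ^ 2 := by
    refine le_trans (mul_le_mul_of_nonneg_left ?_ hL) H.h8
    exact le_add_of_nonneg_right (by positivity)
  have h4 : Real.log n * (4 * μ / τ) ≤ 4 * τ := by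
    rw [← mul_div_assoc, div_le_iff₀ hτ]; nlinarith
  have h5 : Real.log n * (τ / T) ≤ τ := by
    rw [← mul_div_assoc, div_le_iff₀ hT, mul_comm]
    apply mul_le_mul_of_nonneg_left _ hτ.le
    exact (le_mul_of_one_le_left hL H.hC₁).trans H.logT
  have h6 : Real.log n * (μ / n ^ 2 / d + d / (X / n ^ 2)) ≤ 5 * τ := by
    have := mul_le_mul_of_nonneg_left (add_le_add h1 h2) hL
    linarith [mul_add (Real.log n) (4 * μ / τ) (τ / T)]
  have h7 : τ * C₃ ≤ q ^ 2 / 512000 := by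
    rw [← H.τC]
    exact mul_le_mul_of_nonneg_left
      (le_mul_of_one_le_right (by linarith [H.hC₃]) (one_le_pow₀ H.hC₁)) hτ.le
  calc _ = C₃ * 10 * (Real.log n * (μ / n ^ 2 / d + d / (X / n ^ 2))) := by ring
    _ ≤ C₃ * 10 * (5 * τ) := mul_le_mul_of_nonneg_left h6 (by linarith [H.hC₃])
    _ = 50 * (τ * C₃) := by ring
    _ ≤ 1 / 20 := by linarith [H.q2]

theorem numB {d₁ d₂ L : ℝ} (hd1 : T / n ^ 2 / 4 ≤ d₁) (hd2 : d₁ ≤ T / n ^ 2)
    (hd3 : τ / n ^ 2 / 4 ≤ d₂) (hL0 : 0 ≤ L)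
    (hL : L ≤ 6 * C₁ ^ 2 * (c + τ ^ 2 / T + (1 / T ^ 2 + T / n)) / q) :
    C₃ * (d₁ / d₂) * (L + 10 * Real.log n * (μ / n ^ 2 / d₁ + d₁ / (X / n ^ 2))) ≤
      q / (2000 * C₁ ^ 2) := by
  have hn := H.n0; have hT := H.T0; have hτ := H.τ0; have hq := H.hq0
  have hX : 0 < X := by linarith [H.h5]
  have hlog : 0 ≤ Real.log n := by linarith [H.log1]
  have hμ := H.h7
  have hC₁ := H.hC₁; have hC₃ := H.hC₃
  have hd0 : 0 < d₁ := lt_of_lt_of_le (by positivity) hd1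
  have h0 : d₁ / d₂ ≤ 4 / τ * T := by
    calc d₁ / d₂ ≤ T / n ^ 2 / (τ / n ^ 2 / 4) :=
          div_le_div₀ (by positivity) hd2 (by positivity) hd3
      _ = 4 / τ * T := by field_simp
  have h1 : μ / n ^ 2 / d₁ ≤ 4 * μ / T := by
    calc μ / n ^ 2 / d₁ ≤ μ / n ^ 2 / (T / n ^ 2 / 4) :=
          div_le_div_of_nonneg_left (by positivity) (by positivity) hd1
      _ = 4 * μ / T := by field_simp
  have h2 : d₁ / (X / n ^ 2) ≤ 4 * (T / X) := by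
    calc d₁ / (X / n ^ 2) ≤ T / n ^ 2 / (X / n ^ 2) :=
          div_le_div_of_nonneg_right hd2 (by positivity)
      _ = T / X := by field_simp
      _ ≤ 4 * (T / X) := le_mul_of_one_le_left (by positivity) (by norm_num)
  have h3 : T * (10 * Real.log n * (μ / n ^ 2 / d₁ + d₁ / (X / n ^ 2))) ≤ 40 * τ ^ 2 := by
    calc _ ≤ T * (10 * Real.log n * (4 * μ / T + 4 * (T / X))) := by gcongr
      _ = 40 * (Real.log n * (μ + T ^ 2 / X)) := by field_simp; ring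
      _ ≤ 40 * τ ^ 2 := by linarith [H.h8]
  have h4 : T * L ≤ 24 * C₁ ^ 2 / q * τ ^ 2 := by
    calc T * L ≤ T * (6 * C₁ ^ 2 * (c + τ ^ 2 / T + (1 / T ^ 2 + T / n)) / q) :=
          mul_le_mul_of_nonneg_left hL hT.le
      _ = 6 * C₁ ^ 2 / q * (T * (c + τ ^ 2 / T + (1 / T ^ 2 + T / n))) := by ring
      _ ≤ 6 * C₁ ^ 2 / q * (4 * τ ^ 2) := mul_le_mul_of_nonneg_left H.TE (by positivity)
      _ = _ := by ring
  have h5 : 40 * τ ^ 2 ≤ 40 * C₁ ^ 2 / q * τ ^ 2 := by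
    apply mul_le_mul_of_nonneg_right _ (sq_nonneg _)
    rw [le_div_iff₀ hq]
    have : (1 : ℝ) ≤ C₁ ^ 2 := one_le_pow₀ hC₁
    linarith [H.hq]
  have h6 : T * (L + 10 * Real.log n * (μ / n ^ 2 / d₁ + d₁ / (X / n ^ 2))) ≤
      64 * C₁ ^ 2 / q * τ ^ 2 := by
    rw [mul_add]
    have : 64 * C₁ ^ 2 / q * τ ^ 2 = 24 * C₁ ^ 2 / q * τ ^ 2 + 40 * C₁ ^ 2 / q * τ ^ 2 := by ring
    linarith
  calc _ ≤ C₃ * (4 / τ * T) * (L + 10 * Real.log n * (μ / n ^ 2 / d₁ + d₁ / (X / n ^ 2))) := by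
        apply mul_le_mul_of_nonneg_right (mul_le_mul_of_nonneg_left h0 (by linarith))
        positivity
    _ = C₃ * (4 / τ) * (T * (L + 10 * Real.log n * (μ / n ^ 2 / d₁ + d₁ / (X / n ^ 2)))) := by
        ring
    _ ≤ C₃ * (4 / τ) * (64 * C₁ ^ 2 / q * τ ^ 2) := mul_le_mul_of_nonneg_left h6 (by positivity)
    _ = 256 * (τ * (C₃ * C₁ ^ 4)) / (q * C₁ ^ 2) := by field_simp; ring
    _ = q / (2000 * C₁ ^ 2) := by rw [H.τC]; field_simp; norm_num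

theorem near2 : (τ + 2 * Real.pi * s) / n ^ 2 ≤ 1 / (n * Real.sqrt n) := by
  have hn := H.n0
  have h1 := Real.pi_lt_four
  have h2 : s ≤ 1 / 100 := by linarith [H.s_le, H.q2]
  have h3 : Real.pi * s ≤ 4 * (1 / 100) := mul_le_mul h1.le h2 H.s0.le (by norm_num)
  have h4 : Real.sqrt n ≤ n := by
    rw [Real.sqrt_le_left hn.le]
    nlinarith [H.hn]
  have h5 : 0 < Real.sqrt n := Real.sqrt_pos.2 hn
  calc (τ + 2 * Real.pi * s) / n ^ 2 ≤ 1 / n ^ 2 :=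
        div_le_div_of_nonneg_right (by linarith [H.τ_le]) (sq_nonneg _)
    _ ≤ 1 / (n * Real.sqrt n) := by
        apply one_div_le_one_div_of_le (by positivity)
        rw [sq]; exact mul_le_mul_of_nonneg_left h4 hn.le

theorem cτ : 4 * Real.pi * c ≤ τ := by
  have h1 := Real.pi_lt_four
  have h2 : Real.pi * c ≤ 4 * c := mul_le_mul_of_nonneg_right h1.le H.c0.le
  linarith [H.c_le, H.τ2, H.τ0]

/-- Lower bound for the real part. -/
theorem reB {x y : ℝ} (hx : s - τ ^ 2 / T ≤ x) {e : ℝ}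
    (he : e ≤ c + τ ^ 2 / T + (1 / T ^ 2 + T / n)) (hy : x / C₁ - C₁ * e ≤ y) :
    s / (2 * C₁) ≤ y := by
  have hC := H.hC₁
  have hC0 : 0 < C₁ := by linarith
  have h1 : 3 / 4 * s ≤ x := by linarith [H.a_le, H.τ2, H.τ_le_s, H.τ0]
  have h2 : C₁ * e ≤ C₁ * (4 * τ ^ 2) := mul_le_mul_of_nonneg_left (he.trans H.E_le) hC0.le
  have h3 : C₁ * (4 * τ ^ 2) ≤ s / (4 * C₁) := by
    rw [le_div_iff₀ (by positivity)]
    have h4 := H.τs
    have h5 : τ ^ 2 * C₁ ^ 2 ≤ τ * C₁ ^ 3 := by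
      have : τ ≤ C₁ := by linarith [H.τ_le]
      calc τ ^ 2 * C₁ ^ 2 = τ * C₁ ^ 2 * τ := by ring
        _ ≤ τ * C₁ ^ 2 * C₁ := mul_le_mul_of_nonneg_left this (by have := H.τ0; positivity)
        _ = _ := by ring
    have h6 : C₁ * (4 * τ ^ 2) * (4 * C₁) = 16 * (τ ^ 2 * C₁ ^ 2) := by ring
    have h7 : 0 ≤ τ * C₁ ^ 3 := by have := H.τ0; positivity
    rw [h6]; linarith
  have h8 : 3 / 4 * s / C₁ ≤ x / C₁ := div_le_div_of_nonneg_right h1 hC0.le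
  have e1 : s / (2 * C₁) = 3 / 4 * s / C₁ - s / (4 * C₁) := by field_simp; ring
  linarith

theorem logB {L i : ℝ} (hi0 : 0 ≤ i) (hi : i ≤ C₁ * (c + τ ^ 2 / T + (1 / T ^ 2 + T / n)))
    (hL : L ≤ 2 * i / Real.sqrt (s / (2 * C₁))) :
    L ≤ 6 * C₁ ^ 2 * (c + τ ^ 2 / T + (1 / T ^ 2 + T / n)) / q := by
  have hC := H.hC₁
  have hC0 : 0 < C₁ := by linarith
  have hq := H.hq0
  have h1 : q / (3 * C₁) ≤ Real.sqrt (s / (2 * C₁)) := by
    apply Real.le_sqrt_of_sq_le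
    rw [H.hs, div_div, div_pow]
    apply div_le_div_of_nonneg_left (sq_nonneg _) (by positivity)
    nlinarith
  refine hL.trans ?_
  calc 2 * i / Real.sqrt (s / (2 * C₁)) ≤
        2 * (C₁ * (c + τ ^ 2 / T + (1 / T ^ 2 + T / n))) / (q / (3 * C₁)) :=
        div_le_div₀ (by have := H.E0; positivity) (by linarith) (by positivity) h1
    _ = _ := by field_simp; ring

end MgNum

end Pool.Agent.Lib.MP_102662_an
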