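import Pool.Agent.Lib.MP_102662_an.Koebe

open Complex Metric Set Filter Topology

namespace Pool.Agent.Lib.MP_102662_an

theorem pullback_deriv_ne {h : ℂ → ℂ} {ρ : ℝ} (hh : DifferentiableOn ℂ h (ball 0 ρ))
    (hi : InjOn h (ball 0 ρ)) {z : ℂ} (hz : z ∈ ball (0 : ℂ) ρ) : deriv h z ≠ 0 := by
  obtain ⟨r, hr, hs⟩ := Metric.isOpen_iff.mp isOpen_ball z hz
  exact univ_deriv_ne hr (hh.mono hs) (hi.mono hs)

theorem pullback_point {h : ℂ → ℂ} {ρ d : ℝ} (hd : 0 < d) (hh : DifferentiableOn ℂ h (ball 0 ρ))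
    (hi : InjOn h (ball 0 ρ)) {c ξ : ℂ} (hc : ‖c‖ ≤ ρ - d)
    (hξ : ‖ξ - h c‖ ≤ d / 100 * ‖deriv h c‖) :
    ∃ z ∈ ball (0 : ℂ) ρ, h z = ξ ∧ ‖z - c‖ * ‖deriv h c‖ ≤ 2 * ‖ξ - h c‖ := by
  have hs : ball c d ⊆ ball (0 : ℂ) ρ := ball_subset_ball' (by rw [dist_zero_right]; linarith)
  have hh' := hh.mono hs
  have hi' := hi.mono hs
  have h0 : 0 < ‖deriv h c‖ := norm_pos_iff.mpr (univ_deriv_ne hd hh' hi')
  have hs1 : ball c (d / 16) ⊆ ball c d := ball_subset_ball (by linarith)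
  have low : ∀ z ∈ ball c (d / 16), ‖z - c‖ * ‖deriv h c‖ ≤ 2 * ‖h z - h c‖ := by
    intro z hz
    have h1 : ∀ w ∈ ball c (d / 16), HasDerivWithinAt (fun w => h w - deriv h c * w)
        (deriv h w - deriv h c) (ball c (d / 16)) w := by
      intro w hw
      have h2 := (hh'.differentiableAt (isOpen_ball.mem_nhds (hs1 hw))).hasDerivAt
      have h3 := (hasDerivAt_id' w).const_mul (deriv h c)
      rw [mul_one] at h3
      exact (h2.sub h3).hasDerivWithinAt
    have h4 := (convex_ball c (d / 16)).norm_image_sub_le_of_norm_hasDerivWithin_le h1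
      (fun w hw => univ_deriv_near hd hh' hi' hw) (mem_ball_self (by linarith)) hz
    have h5 := norm_sub_le (h z - h c) (h z - deriv h c * z - (h c - deriv h c * c))
    have h6 : h z - h c - (h z - deriv h c * z - (h c - deriv h c * c)) =
        (z - c) * deriv h c := by ring
    rw [h6, norm_mul] at h5
    linarith
  have hs2 : closedBall c (d / 20) ⊆ ball c (d / 16) := closedBall_subset_ball (by linarith)
  have h7 : DiffContOnCl ℂ h (ball c (d / 20)) :=
    hh'.diffContOnCl_ball (hs2.trans hs1)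
  have h8 := h7.ball_subset_image_closedBall (ε := d / 40 * ‖deriv h c‖) (by linarith)
    (fun z hz => by
      have h9 := low z (hs2 (sphere_subset_closedBall hz))
      rw [mem_sphere_iff_norm.mp hz] at h9
      linarith)
    (by
      refine Filter.Frequently.filter_mono ?_ (nhdsWithin_le_nhds (s := {c}ᶜ))
      refine Filter.Eventually.frequently ?_
      filter_upwards [self_mem_nhdsWithin,
        mem_nhdsWithin_of_mem_nhds (ball_mem_nhds c hd)] with z hz hz'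
      exact fun h9 => hz (hi' hz' (mem_ball_self hd) h9))
  obtain ⟨z, hz, rfl⟩ := h8 (show ξ ∈ _ by
    rw [mem_ball, dist_eq_norm]
    nlinarith)
  exact ⟨z, hs (hs1 (hs2 hz)), rfl, low z (hs2 hz)⟩

/-- Holomorphic pull-back of a map that stays close to the image of a univalent map. -/
theorem pullback {h y z₀ : ℂ → ℂ} {V : Set ℂ} {ρ d : ℝ} (hd : 0 < d) (hV : IsOpen V)
    (hh : DifferentiableOn ℂ h (ball 0 ρ)) (hi : InjOn h (ball 0 ρ))
    (hy : DifferentiableOn ℂ y V) (hz : ∀ w ∈ V, ‖z₀ w‖ ≤ ρ - d)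
    (hclose : ∀ w ∈ V, ‖y w - h (z₀ w)‖ ≤ d / 100 * ‖deriv h (z₀ w)‖) :
    ∃ F : ℂ → ℂ, DifferentiableOn ℂ F V ∧ ∀ w ∈ V, F w ∈ ball (0 : ℂ) ρ ∧ h (F w) = y w ∧
      ‖F w - z₀ w‖ * ‖deriv h (z₀ w)‖ ≤ 2 * ‖y w - h (z₀ w)‖ := by
  have hg : LeftInvOn (Function.invFunOn h (ball 0 ρ)) h (ball 0 ρ) := hi.leftInvOn_invFunOn
  refine ⟨fun w => Function.invFunOn h (ball 0 ρ) (y w), fun w hw => ?_, fun w hw => ?_⟩
  · obtain ⟨z, hz1, hz2, -⟩ := pullback_point hd hh hi (hz w hw) (hclose w hw)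
    have h1 := (hh.analyticAt (isOpen_ball.mem_nhds hz1)).hasStrictDerivAt
    have h2 := h1.to_local_left_inverse (pullback_deriv_ne hh hi hz1)
      (g := Function.invFunOn h (ball 0 ρ))
      (Filter.eventually_of_mem (isOpen_ball.mem_nhds hz1) fun x hx => hg hx)
    rw [hz2] at h2
    exact (h2.hasDerivAt.differentiableAt.comp w
      (hy.differentiableAt (hV.mem_nhds hw))).differentiableWithinAt
  · obtain ⟨z, hz1, hz2, hz3⟩ := pullback_point hd hh hi (hz w hw) (hclose w hw)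
    have h1 : Function.invFunOn h (ball 0 ρ) (y w) = z := by
      rw [← hz2]
      exact hg hz1
    simp only [h1]
    exact ⟨hz1, hz2, hz3⟩

end Pool.Agent.Lib.MP_102662_an
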