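import Pool.Agent.Lib.MP_102662_an.KAM
import Pool.Agent.Lib.MP_102662_an.Pullback

open Complex Metric Set Filter Topology

namespace Pool.Agent.Lib.MP_102662_an

/-- The logarithmic form of a map close to a rotation. -/
theorem pert_log {F : ℂ → ℂ} {lam ω : ℂ} {ρ ν : ℝ} (hρ : 0 < ρ)
    (hF : DifferentiableOn ℂ F (ball 0 ρ)) (h0 : F 0 = 0) (h1 : deriv F 0 = lam) (hl : ‖lam‖ = 1)
    (hν : 0 ≤ ν) (ha : ∀ w ∈ ball (0 : ℂ) ρ, ‖F w - lam * w‖ ≤ 1 / 4 * ‖w‖)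
    (hb : ∀ w ∈ ball (0 : ℂ) ρ, ‖F w - lam * w‖ ≤ 3 * ν / ‖ω - w / ρ‖ * ‖w‖) :
    ∃ p : ℂ → ℂ, DifferentiableOn ℂ p (ball 0 1) ∧ p 0 = 0 ∧
      ∀ t ∈ ball (0 : ℂ) 1, ‖p t‖ ≤ 9 / 2 * ν / ‖ω - t‖ ∧
        F (ρ * t) = lam * (ρ * t) * exp (p t) := by
  have hl0 : lam ≠ 0 := norm_ne_zero_iff.mp (by rw [hl]; exact one_ne_zero)
  have hρ0 : (ρ : ℂ) ≠ 0 := ofReal_ne_zero.mpr hρ.ne'
  let g : ℂ → ℂ := fun w => dslope F 0 w / lam - 1
  have hg : DifferentiableOn ℂ g (ball 0 ρ) :=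
    (((differentiableOn_dslope (ball_mem_nhds 0 hρ)).mpr hF).div_const lam).sub_const 1
  have hg0 : g 0 = 0 := by
    simp only [g, dslope_same, h1, div_self hl0, sub_self]
  have hFg : ∀ w, F w = lam * w * (1 + g w) := by
    intro w
    have h2 := sub_smul_dslope F 0 w
    rw [h0, sub_zero, sub_zero, smul_eq_mul] at h2
    rw [← h2]
    simp only [g]
    field_simp
    ring
  have key : ∀ (w : ℂ) (M : ℝ), 0 ≤ M → ‖F w - lam * w‖ ≤ M * ‖w‖ → ‖g w‖ ≤ M := by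
    intro w M hM h2
    by_cases hw : w = 0
    · rw [hw, hg0, norm_zero]
      exact hM
    · have h3 : F w - lam * w = lam * (g w * w) := by rw [hFg]; ring
      rw [h3, norm_mul, hl, one_mul, norm_mul] at h2
      exact le_of_mul_le_mul_right h2 (norm_pos_iff.mpr hw)
  have hm : ∀ t ∈ ball (0 : ℂ) 1, (ρ : ℂ) * t ∈ ball (0 : ℂ) ρ := by
    intro t ht
    rw [mem_ball_zero_iff] at ht ⊢
    rw [norm_mul, norm_real, Real.norm_of_nonneg hρ.le]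
    exact mul_lt_of_lt_one_right hρ ht
  have h4 : ∀ t ∈ ball (0 : ℂ) 1, ‖g (ρ * t)‖ ≤ 1 / 4 := fun t ht =>
    key _ _ (by norm_num) (ha _ (hm t ht))
  have h5 : ∀ t ∈ ball (0 : ℂ) 1, 1 + g (ρ * t) ∈ slitPlane := fun t ht =>
    mem_slitPlane_of_norm_lt_one (by linarith [h4 t ht])
  refine ⟨fun t => log (1 + g (ρ * t)), ?_, by simp [hg0], fun t ht => ⟨?_, ?_⟩⟩
  · exact ((hg.comp (differentiableOn_id.const_mul _) hm).const_add 1).clog h5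
  · have h6 := key _ _ (by positivity) (hb _ (hm t ht))
    rw [mul_div_cancel_left₀ _ hρ0] at h6
    refine (norm_log_one_add_half_le_self (by linarith [h4 t ht])).trans ?_
    refine (mul_le_mul_of_nonneg_left h6 (by norm_num)).trans (le_of_eq ?_)
    ring
  · rw [exp_log (slitPlane_ne_zero (h5 t ht)), hFg]

theorem pert_inj {k k' : ℂ → ℂ} {r : ℝ} (hk : ∀ w ∈ ball (0 : ℂ) r, HasDerivAt k (k' w) w)
    (hk' : ∀ w ∈ ball (0 : ℂ) r, ‖k' w - 1‖ ≤ 1 / 2) : InjOn k (ball 0 r) := by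
  intro a ha b hb hab
  have h1 := (convex_ball (0 : ℂ) r).norm_image_sub_le_of_norm_hasDerivWithin_le
    (f := fun w => k w - w) (fun w hw => ((hk w hw).sub (hasDerivAt_id' w)).hasDerivWithinAt)
    hk' ha hb
  have h2 : k b - b - (k a - a) = -(b - a) := by rw [hab]; ring
  rw [h2, norm_neg] at h1
  exact (sub_eq_zero.mp (norm_le_zero_iff.mp (by linarith))).symm

/-- Linearization of a small perturbation, read in a univalent coordinate `h`. -/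
theorem pert : ∃ C : ℝ, 1 ≤ C ∧ ∀ (h y : ℂ → ℂ) (lam0 lam ω : ℂ) (ρ₂ ρ₃ ν β σ Ω : ℝ),
    0 < ρ₃ → ρ₃ < ρ₂ → DifferentiableOn ℂ h (ball 0 ρ₂) → InjOn h (ball 0 ρ₂) → h 0 = 0 →
    deriv h 0 = 1 → DifferentiableOn ℂ y (ball 0 ρ₃) → y 0 = 0 → deriv y 0 = lam →
    ‖lam0‖ ≤ 1 → ‖lam‖ = 1 → ‖ω‖ = 1 → 0 ≤ ν → 0 < σ → σ ≤ 1 / 10 → DivB lam Ω σ →
    ‖lam0 - lam‖ ≤ ν / 2 → ‖lam0 - lam‖ ≤ 1 / 8 → 0 ≤ β → β ≤ 1 / 16 →
    200 * β * ρ₃ ≤ ρ₂ - ρ₃ →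
    (∀ w ∈ ball (0 : ℂ) ρ₃, ‖y w - h (lam0 * w)‖ ≤ β * ‖w‖ * ‖deriv h (lam0 * w)‖) →
    (∀ w ∈ ball (0 : ℂ) ρ₃,
      ‖y w - h (lam0 * w)‖ ≤ ν / ‖ω - w / ρ₃‖ * ‖w‖ * ‖deriv h (lam0 * w)‖) →
    C * ν * (1 + Real.log (1 / σ)) * Ω ≤ σ →
    ∃ k : ℂ → ℂ, DifferentiableOn ℂ k (ball 0 (ρ₃ * Real.exp (-(5 * σ)))) ∧
      InjOn k (ball 0 (ρ₃ * Real.exp (-(5 * σ)))) ∧ k 0 = 0 ∧ deriv k 0 = 1 ∧
      ∀ w ∈ ball (0 : ℂ) (ρ₃ * Real.exp (-(5 * σ))), k w ∈ ball (0 : ℂ) ρ₃ ∧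
        ‖k w - w‖ ≤ C * ν * (1 + Real.log (1 / σ)) * Ω * ‖w‖ ∧ y (k w) = h (k (lam * w)) := by
  obtain ⟨C, hC, hkam⟩ := kam
  refine ⟨9 * C, by linarith, ?_⟩
  intro h y lam0 lam ω ρ₂ ρ₃ ν β σ Ω hρ hρ' hh hi h0 h1 hy hy0 hy1 hl0 hl hω hν hσ hσ' hdiv
    hd1 hd2 hβ hβ' hβρ ha hb hsmall
  have hρ0 : (ρ₃ : ℂ) ≠ 0 := ofReal_ne_zero.mpr hρ.ne'
  have hz : ∀ w ∈ ball (0 : ℂ) ρ₃, ‖lam0 * w‖ ≤ ρ₃ := by
    intro w hw
    rw [norm_mul]
    exact (mul_le_of_le_one_left (norm_nonneg _) hl0).trans (mem_ball_zero_iff.mp hw).le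
  obtain ⟨F, hF, hF'⟩ := pullback (z₀ := fun w => lam0 * w) (sub_pos.mpr hρ') isOpen_ball hh hi hy
    (fun w hw => by linarith [hz w hw]) fun w hw => (ha w hw).trans (by
      refine mul_le_mul_of_nonneg_right ?_ (norm_nonneg _)
      have h2 := mul_le_mul_of_nonneg_left (mem_ball_zero_iff.mp hw).le hβ
      linarith)
  have key : ∀ w ∈ ball (0 : ℂ) ρ₃, ∀ M : ℝ,
      ‖y w - h (lam0 * w)‖ ≤ M * ‖w‖ * ‖deriv h (lam0 * w)‖ →
      ‖F w - lam * w‖ ≤ (2 * M + ‖lam0 - lam‖) * ‖w‖ := by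
    intro w hw M hM
    have h2 : 0 < ‖deriv h (lam0 * w)‖ := norm_pos_iff.mpr
      (pullback_deriv_ne hh hi (mem_ball_zero_iff.mpr ((hz w hw).trans_lt hρ')))
    have h3 : ‖F w - lam0 * w‖ ≤ 2 * M * ‖w‖ :=
      le_of_mul_le_mul_right (by linarith [(hF' w hw).2.2]) h2
    have h4 := norm_add_le (F w - lam0 * w) ((lam0 - lam) * w)
    rw [norm_mul, show F w - lam0 * w + (lam0 - lam) * w = F w - lam * w by ring] at h4
    linarith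
  have hb0 : (0 : ℂ) ∈ ball (0 : ℂ) ρ₃ := mem_ball_self hρ
  have hF0 : F 0 = 0 := by simpa using key 0 hb0 β (ha 0 hb0)
  have hF1 : deriv F 0 = lam := by
    have h2 := (hF.differentiableAt (ball_mem_nhds 0 hρ)).hasDerivAt
    have h3 := (hh.differentiableAt (ball_mem_nhds 0 (hρ.trans hρ'))).hasDerivAt
    have h4 := (h3.comp_of_eq 0 h2 hF0.symm).congr_of_eventuallyEq (f₁ := y)
      (Filter.eventually_of_mem (ball_mem_nhds 0 hρ) fun w hw => (hF' w hw).2.1.symm)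
    rw [← hy1, h4.deriv, h1, one_mul]
  obtain ⟨p, hp, hp0, hp'⟩ := pert_log (ω := ω) hρ hF hF0 hF1 hl hν
    (fun w hw => (key w hw β (ha w hw)).trans
      (mul_le_mul_of_nonneg_right (by linarith) (norm_nonneg _)))
    fun w hw => (key w hw _ (hb w hw)).trans (by
      refine mul_le_mul_of_nonneg_right ?_ (norm_nonneg _)
      have h2 : ‖w / ρ₃‖ < 1 := by
        rw [norm_div, norm_real, Real.norm_of_nonneg hρ.le, div_lt_one hρ]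
        exact mem_ball_zero_iff.mp hw
      have h3 := norm_sub_le ω (w / ρ₃)
      have h4 := norm_sub_norm_le ω (w / ρ₃)
      have h5 : ν / 2 ≤ ν / ‖ω - w / ρ₃‖ :=
        div_le_div_of_nonneg_left hν (by linarith) (by linarith)
      rw [mul_div_assoc]
      linarith)
  have hX : C * (9 / 2 * ν) * (1 + Real.log (1 / σ)) * Ω =
      9 * C * ν * (1 + Real.log (1 / σ)) * Ω / 2 := by ring
  obtain ⟨ψ, hψ, hψ0, hψ'⟩ := hkam lam ω p (9 / 2 * ν) σ Ω hl.le hω hσ hσ' (by positivity) hdiv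
    hp hp0 (fun t ht => (hp' t ht).1) (by linarith)
  rw [hX] at hψ'
  have hm : ∀ w ∈ ball (0 : ℂ) (ρ₃ * Real.exp (-(5 * σ))),
      w / ρ₃ ∈ ball (0 : ℂ) (Real.exp (-(5 * σ))) := by
    intro w hw
    rw [mem_ball_zero_iff] at hw ⊢
    rwa [norm_div, norm_real, Real.norm_of_nonneg hρ.le, div_lt_iff₀' hρ]
  have hk : ∀ w ∈ ball (0 : ℂ) (ρ₃ * Real.exp (-(5 * σ))),
      HasDerivAt (fun w => w * exp (ψ (w / ρ₃)))
        (exp (ψ (w / ρ₃)) * (1 + w / ρ₃ * deriv ψ (w / ρ₃))) w := by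
    intro w hw
    have h2 := (hψ.differentiableAt (isOpen_ball.mem_nhds (hm w hw))).hasDerivAt
    have h3 := (hasDerivAt_id' w).mul
      (h2.comp w ((hasDerivAt_id' w).div_const (ρ₃ : ℂ))).cexp
    refine h3.congr_deriv ?_
    simp only [Function.comp_apply]
    ring
  have he : ∀ w ∈ ball (0 : ℂ) (ρ₃ * Real.exp (-(5 * σ))),
      ‖exp (ψ (w / ρ₃)) - 1‖ ≤ 9 * C * ν * (1 + Real.log (1 / σ)) * Ω := by
    intro w hw
    have h2 := (hψ' _ (hm w hw)).1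
    have h3 := norm_exp_sub_one_le (x := ψ (w / ρ₃)) (by linarith)
    linarith
  refine ⟨fun w => w * exp (ψ (w / ρ₃)),
    fun w hw => (hk w hw).differentiableAt.differentiableWithinAt,
    pert_inj hk fun w hw => ?_, zero_mul _, ?_, fun w hw => ?_⟩
  · have h2 := (hψ' _ (hm w hw)).2.1
    have h3 : ‖exp (ψ (w / ρ₃)) - 1‖ ≤ 1 / 10 := by linarith [he w hw]
    generalize w / ρ₃ * deriv ψ (w / ρ₃) = u at h2 ⊢
    generalize exp (ψ (w / ρ₃)) = v at h3 ⊢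
    have h4 := norm_add_le ((v - 1) + u) ((v - 1) * u)
    have h5 := norm_add_le (v - 1) u
    have h6 := mul_le_mul h3 h2 (norm_nonneg _) (by norm_num)
    rw [norm_mul, show v - 1 + u + (v - 1) * u = v * (1 + u) - 1 by ring] at h4
    linarith
  · rw [(hk 0 (mem_ball_self (by positivity))).deriv]
    simp [hψ0]
  · obtain ⟨-, -, h2, h3⟩ := hψ' _ (hm w hw)
    have h4 : (ρ₃ : ℂ) * (w / ρ₃ * exp (ψ (w / ρ₃))) = w * exp (ψ (w / ρ₃)) := by field_simp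
    have h5 : w * exp (ψ (w / ρ₃)) ∈ ball (0 : ℂ) ρ₃ := by
      rw [← h4, mem_ball_zero_iff, norm_mul, norm_real, Real.norm_of_nonneg hρ.le]
      exact mul_lt_of_lt_one_right hρ h2
    refine ⟨h5, ?_, ?_⟩
    · rw [← mul_sub_one, norm_mul, mul_comm]
      exact mul_le_mul_of_nonneg_right (he w hw) (norm_nonneg _)
    · have h6 := (hp' _ (mem_ball_zero_iff.mpr h2)).2
      rw [h4] at h6
      rw [← (hF' _ h5).2.1, h6]
      simp only [mul_div_assoc, h3, exp_add, mul_assoc]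

end Pool.Agent.Lib.MP_102662_an
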