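import Pool.Agent.Lib.MP_102662_an.Pert
import Pool.Agent.Lib.MP_102662_an.Struct

open Complex Metric Set Filter Topology

namespace Pool.Agent.Lib.MP_102662_an

/-- A univalent map close to the identity covers the points well inside its domain. -/
theorem s1_preimage {k : ℂ → ℂ} {ρ ρ₁ ξ : ℝ} {w₁ : ℂ} (hk : DifferentiableOn ℂ k (ball 0 ρ))
    (hi : InjOn k (ball 0 ρ)) (hρ₁ : 0 < ρ₁) (hξ : 0 < ξ) (hξ1 : 11 * ξ ≤ 1)
    (hρ : ρ₁ * (1 + 11 * ξ) ≤ ρ) (hb : ∀ w ∈ ball (0 : ℂ) ρ, ‖k w - w‖ ≤ ξ * ‖w‖)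
    (hw : ‖w₁‖ < ρ₁ * (1 + ξ)) : ∃ w : ℂ, ‖w‖ < ρ₁ * (1 + 11 * ξ) ∧ k w = w₁ := by
  have hs : 0 < 10 * ξ * ρ₁ := by positivity
  have hnorm : ∀ z ∈ closedBall w₁ (10 * ξ * ρ₁), ‖z‖ < ρ₁ * (1 + 11 * ξ) := by
    intro z hz
    have h1 : ‖z - w₁‖ ≤ 10 * ξ * ρ₁ := mem_closedBall_iff_norm.1 hz
    have h2 : ‖z‖ ≤ ‖z - w₁‖ + ‖w₁‖ := by
      have := norm_add_le (z - w₁) w₁
      simpa using this
    nlinarith
  have hsub : closedBall w₁ (10 * ξ * ρ₁) ⊆ ball (0 : ℂ) ρ := by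
    intro z hz
    rw [mem_ball_zero_iff]
    exact lt_of_lt_of_le (hnorm z hz) hρ
  have hclose : ∀ z ∈ closedBall w₁ (10 * ξ * ρ₁), ‖k z - z‖ ≤ 2 * ξ * ρ₁ := by
    intro z hz
    have h1 := hb z (hsub hz)
    have h2 : ‖z‖ ≤ 2 * ρ₁ := by
      have := hnorm z hz
      nlinarith
    calc ‖k z - z‖ ≤ ξ * ‖z‖ := h1
      _ ≤ ξ * (2 * ρ₁) := mul_le_mul_of_nonneg_left h2 hξ.le
      _ = 2 * ξ * ρ₁ := by ring
  have hd : DiffContOnCl ℂ k (ball w₁ (10 * ξ * ρ₁)) := by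
    refine DifferentiableOn.diffContOnCl ?_
    rw [closure_ball w₁ hs.ne']
    exact hk.mono hsub
  have hw₁ : w₁ ∈ closedBall w₁ (10 * ξ * ρ₁) := mem_closedBall_self hs.le
  have hsph : ∀ z ∈ sphere w₁ (10 * ξ * ρ₁), 6 * ξ * ρ₁ ≤ ‖k z - k w₁‖ := by
    intro z hz
    have h1 : ‖z - w₁‖ = 10 * ξ * ρ₁ := mem_sphere_iff_norm.1 hz
    have h2 := hclose z (sphere_subset_closedBall hz)
    have h3 := hclose w₁ hw₁
    have h4 : z - w₁ = (k z - k w₁) - (k z - z) + (k w₁ - w₁) := by ring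
    have h5 : ‖z - w₁‖ ≤ ‖k z - k w₁‖ + ‖k z - z‖ + ‖k w₁ - w₁‖ := by
      rw [h4]
      exact le_trans (norm_add_le _ _) (add_le_add (norm_sub_le _ _) le_rfl)
    linarith
  have hfr : ∃ᶠ z in 𝓝 w₁, k z ≠ k w₁ := by
    have h1 : ∀ᶠ z in 𝓝[≠] w₁, k z ≠ k w₁ := by
      have h2 : ∀ᶠ z in 𝓝[≠] w₁, z ∈ closedBall w₁ (10 * ξ * ρ₁) :=
        mem_nhdsWithin_of_mem_nhds (closedBall_mem_nhds w₁ hs)
      filter_upwards [h2, self_mem_nhdsWithin] with z hz hne heq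
      exact hne (hi (hsub hz) (hsub hw₁) heq)
    exact h1.frequently.filter_mono nhdsWithin_le_nhds
  have hmem : w₁ ∈ ball (k w₁) (6 * ξ * ρ₁ / 2) := by
    rw [mem_ball_iff_norm, norm_sub_rev]
    have h3 := hclose w₁ hw₁
    have h4 : 0 < ξ * ρ₁ := by positivity
    linarith
  obtain ⟨w, hw1, hw2⟩ := hd.ball_subset_image_closedBall hs hsph hfr hmem
  exact ⟨w, hnorm w hw1, hw2⟩

/-- The two multipliers are close. -/
theorem s1_mult {x x' r τ : ℝ} (hx : 2 ≤ x) (hτ : 0 < τ) (hτ1 : τ ≤ 1) (hxx : |x' - x| ≤ τ)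
    (hr : 1 - τ / x ^ 2 ≤ r) (hr1 : r ≤ 1) :
    ‖(r : ℂ) * ee (1 / x) - ee (1 / x')‖ ≤ 15 * (τ / x ^ 2) := by
  have hx0 : 0 < x := by linarith
  have hx' : x / 2 ≤ x' := by
    have := (abs_le.1 hxx).1
    linarith
  have hx'0 : 0 < x' := by linarith
  have h1 : (r : ℂ) * ee (1 / x) - ee (1 / x') =
      ((r - 1 : ℝ) : ℂ) * ee (1 / x) + (ee (1 / x) - ee (1 / x')) := by
    push_cast; ring
  have h2 : ‖((r - 1 : ℝ) : ℂ) * ee (1 / x)‖ ≤ τ / x ^ 2 := by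
    rw [norm_mul, norm_ee, mul_one, Complex.norm_real, Real.norm_eq_abs, abs_le]
    have : 0 ≤ τ / x ^ 2 := by positivity
    constructor <;> linarith
  have h3 : |1 / x - 1 / x'| ≤ 2 * (τ / x ^ 2) := by
    have h4 : 1 / x - 1 / x' = (x' - x) / (x * x') := by
      field_simp
    rw [h4, abs_div, abs_of_pos (mul_pos hx0 hx'0), div_le_iff₀ (mul_pos hx0 hx'0)]
    have h5 : 2 * (τ / x ^ 2) * (x * x') = τ * (2 * x' / x) := by
      field_simp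
    have h6 : 1 ≤ 2 * x' / x := by
      rw [le_div_iff₀ hx0]; linarith
    rw [h5]
    nlinarith
  have h7 := norm_ee_sub_le (1 / x) (1 / x')
  have h8 : 2 * Real.pi * |1 / x - 1 / x'| ≤ 2 * 3.15 * (2 * (τ / x ^ 2)) := by
    have := Real.pi_lt_d2
    have h0 := abs_nonneg (1 / x - 1 / x')
    exact mul_le_mul (by linarith) h3 h0 (by norm_num)
  rw [h1]
  have h9 : 0 ≤ τ / x ^ 2 := by positivity
  refine le_trans (norm_add_le _ _) ?_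
  linarith

/-- From the two structural estimates to a bound of `h` by its derivative. -/
theorem s1_key {v hv dv u : ℂ} {Q : ℝ} (hQ : 0 ≤ Q) (h1 : ‖hv‖ ^ 2 ≤ Q * (‖v‖ ^ 2 * ‖dv‖))
    (h2 : ‖v / hv - 1 - u * v‖ ≤ 1) (h3 : ‖u * v‖ ≤ 2) : ‖hv‖ ≤ 4 * Q * (‖v‖ * ‖dv‖) := by
  by_cases h0 : hv = 0
  · rw [h0, norm_zero]; positivity
  have hpos : 0 < ‖hv‖ := norm_pos_iff.2 h0
  have h4 : ‖v / hv‖ ≤ 4 := by
    have h5 : v / hv = (v / hv - 1 - u * v) + 1 + u * v := by ring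
    rw [h5]
    have h6 := norm_add_le ((v / hv - 1 - u * v) + 1) (u * v)
    have h7 := norm_add_le (v / hv - 1 - u * v) 1
    rw [norm_one] at h7
    linarith
  rw [norm_div, div_le_iff₀ hpos] at h4
  have h8 : ‖v‖ ^ 2 * ‖dv‖ ≤ 4 * ‖hv‖ * (‖v‖ * ‖dv‖) := by
    have : ‖v‖ ^ 2 * ‖dv‖ = ‖v‖ * (‖v‖ * ‖dv‖) := by ring
    rw [this]
    exact mul_le_mul_of_nonneg_right h4 (by positivity)
  have h9 : ‖hv‖ * ‖hv‖ ≤ ‖hv‖ * (4 * Q * (‖v‖ * ‖dv‖)) := by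
    calc ‖hv‖ * ‖hv‖ = ‖hv‖ ^ 2 := by ring
      _ ≤ Q * (‖v‖ ^ 2 * ‖dv‖) := h1
      _ ≤ Q * (4 * ‖hv‖ * (‖v‖ * ‖dv‖)) := mul_le_mul_of_nonneg_left h8 hQ
      _ = ‖hv‖ * (4 * Q * (‖v‖ * ‖dv‖)) := by ring
  exact le_of_mul_le_mul_left h9 hpos

/-- The size of the smallness constant. -/
theorem s1_xi {C Cd P x x' τ : ℝ} (hC : 1 ≤ C) (hCd : 1 ≤ Cd) (hP : 1 ≤ P)
    (hPK : C * Cd * (240 * 11 * 2 * 20 ^ 7) ≤ P) (hx : 2 ≤ x) (hτ : 0 < τ)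
    (hx1 : x / 2 ≤ x') (hx2 : x' ≤ 2 * x) (hl : 1 + Real.log x ≤ P) (hl' : 1 + Real.log x' ≤ P) :
    C * (2 * (120 * τ * P ^ 30 / x ^ 2)) * (1 + Real.log (1 / (1 / (P * x) / 10))) *
      (Cd * x' * (1 + Real.log x') / (1 / P) * max 1 ((1 / (x' * (1 / (P * x) / 10))) ^ 7)) ≤
      τ * P ^ 41 / x := by
  have hx0 : 0 < x := by linarith
  have hx'1 : 1 ≤ x' := by linarith
  have hx'0 : 0 < x' := by linarith
  have hP0 : 0 < P := by linarith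
  have hL : 1 + Real.log (1 / (1 / (P * x) / 10)) ≤ 11 * P := by
    have h1 : 1 / (1 / (P * x) / 10) = (10 * P) * x := by field_simp
    rw [h1, Real.log_mul (by positivity) hx0.ne']
    have h2 : Real.log (10 * P) ≤ 10 * P - 1 := Real.log_le_sub_one_of_pos (by positivity)
    linarith
  have hL0 : 0 ≤ 1 + Real.log (1 / (1 / (P * x) / 10)) := by
    have h1 : 1 / (1 / (P * x) / 10) = (10 * P) * x := by field_simp
    rw [h1]
    have h2 : 0 ≤ Real.log (10 * P * x) := Real.log_nonneg (by nlinarith)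
    linarith
  have hM : max 1 ((1 / (x' * (1 / (P * x) / 10))) ^ 7) ≤ (20 * P) ^ 7 := by
    refine max_le (one_le_pow₀ (by linarith)) ?_
    refine pow_le_pow_left₀ (by positivity) ?_ 7
    have h1 : 1 / (x' * (1 / (P * x) / 10)) = 10 * P * x / x' := by field_simp
    rw [h1, div_le_iff₀ hx'0]
    nlinarith
  have hM0 : 0 ≤ max 1 ((1 / (x' * (1 / (P * x) / 10))) ^ 7) :=
    le_trans zero_le_one (le_max_left _ _)
  have hl0 : 0 ≤ 1 + Real.log x' := by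
    have := Real.log_nonneg hx'1
    linarith
  have hΩ : Cd * x' * (1 + Real.log x') / (1 / P) * max 1 ((1 / (x' * (1 / (P * x) / 10))) ^ 7) ≤
      Cd * (2 * x) * P * P * (20 * P) ^ 7 := by
    have h1 : Cd * x' * (1 + Real.log x') / (1 / P) = Cd * x' * (1 + Real.log x') * P := by
      field_simp
    rw [h1]
    gcongr
  have hΩ0 : 0 ≤ Cd * x' * (1 + Real.log x') / (1 / P) *
      max 1 ((1 / (x' * (1 / (P * x) / 10))) ^ 7) := by positivity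
  calc C * (2 * (120 * τ * P ^ 30 / x ^ 2)) * (1 + Real.log (1 / (1 / (P * x) / 10))) *
      (Cd * x' * (1 + Real.log x') / (1 / P) * max 1 ((1 / (x' * (1 / (P * x) / 10))) ^ 7))
      ≤ C * (2 * (120 * τ * P ^ 30 / x ^ 2)) * (11 * P) *
        (Cd * (2 * x) * P * P * (20 * P) ^ 7) := by gcongr
    _ = (C * Cd * (240 * 11 * 2 * 20 ^ 7)) * (τ * P ^ 40 / x) := by
        field_simp
        ring
    _ ≤ P * (τ * P ^ 40 / x) := mul_le_mul_of_nonneg_right hPK (by positivity)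
    _ = τ * P ^ 41 / x := by ring

theorem s1_hasDerivAt_koebe : HasDerivAt koebe 1 0 := by
  have h1 : DifferentiableAt ℂ koebe 0 :=
    schlicht_koebe.diff.differentiableAt (ball_mem_nhds 0 one_pos)
  have h2 := h1.hasDerivAt
  rwa [schlicht_koebe.one] at h2

theorem s1_pow_le {P τ c : ℝ} {n : ℕ} (hP : 1 ≤ P) (hτ : 0 < τ) (hτP : τ * P ^ 60 ≤ 1)
    (hn : n + 1 ≤ 60) (hc : c ≤ P) : c * (τ * P ^ n) ≤ 1 := by
  have h1 : P ^ (n + 1) ≤ P ^ 60 := pow_le_pow_right₀ hP hn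
  have h2 : 0 ≤ τ * P ^ n := by positivity
  calc c * (τ * P ^ n) ≤ P * (τ * P ^ n) := mul_le_mul_of_nonneg_right hc h2
    _ = τ * P ^ (n + 1) := by ring
    _ ≤ τ * P ^ 60 := mul_le_mul_of_nonneg_left h1 hτ.le
    _ ≤ 1 := hτP

theorem s1_n1 {U a : ℝ} (hU : 0 < U) (ha : 0 < a) : U * (1 - a) < U := by nlinarith

theorem s1_n2 {r t : ℝ} (hr : 1 / 2 ≤ r) (ht : 0 ≤ t) : t ≤ 2 * (r * t) := by nlinarith

theorem s1_n3 {β t : ℝ} (hβ : 0 < β) (ht : t ≤ 2) : β * t ≤ 2 * β := by nlinarith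

theorem s1_n4 {β a U : ℝ} (hβ : 0 < β) (hU : 0 < U) (ha : 0 < a) (h : 200 * β ≤ a) :
    200 * β * (U * (1 - a)) ≤ U - U * (1 - a) := by
  have h1 : 200 * β * (U * (1 - a)) ≤ 200 * β * U :=
    mul_le_mul_of_nonneg_left (s1_n1 hU ha).le (by positivity)
  nlinarith

theorem s1_n5 {a U ρ₁ ρ : ℝ} (hU : 0 < U) (ha0 : 0 < a) (ha1 : a ≤ 1 / 10)
    (h1 : ρ₁ ≤ U * (1 - 4 * a)) (h3 : U * (1 - a) * (1 - a / 2) * (1 - 2 * a) ≤ ρ) : ρ₁ ≤ ρ := by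
  have h5 : 1 - 4 * a ≤ (1 - a) * (1 - a / 2) * (1 - 2 * a) := by
    nlinarith [mul_pos ha0 ha0, mul_pos (mul_pos ha0 ha0) ha0]
  have h6 : U * (1 - 4 * a) ≤ U * ((1 - a) * (1 - a / 2) * (1 - 2 * a)) :=
    mul_le_mul_of_nonneg_left h5 hU.le
  nlinarith

theorem s1_n6 {ρ t : ℝ} (hρ : 0 < ρ) : ρ * (1 - t) * (1 + t) ≤ ρ := by
  nlinarith [mul_nonneg hρ.le (sq_nonneg t)]

theorem s1_n7 {ρ t : ℝ} (hρ : 0 < ρ) (ht : 0 < t) : ρ * (1 - t) ≤ ρ * (1 + 11 * t) := by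
  nlinarith [mul_pos hρ ht]

theorem s1_n8 {c a : ℝ} (ha : 0 < a) (hc : c ≤ 1) : c * a ≤ a := by nlinarith

theorem s1_n9 {P x : ℝ} (hP : 24000 ≤ P) (hx : 24000 ≤ x) : 10 ≤ P * x := by nlinarith

theorem s1_n10 {x : ℝ} (hx : 24000 ≤ x) : 1000 ≤ x ^ 2 := by nlinarith

/-- Changing the multiplier when the linearizer leaves the unit disc well inside its domain. -/
theorem stage1 : ∃ P₀ : ℝ, ∀ P : ℝ, P₀ ≤ P → ∀ x x' r τ : ℝ, Good P x → Good P x' →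
    0 < τ → τ * P ^ 60 ≤ 1 → |x' - x| ≤ τ → 1 - τ / x ^ 2 ≤ r → r ≤ 1 →
    ∀ (lam0 : ℂ) (h₀ : ℂ → ℂ) (U ρ₁ : ℝ), lam0 = (r : ℂ) * ee (1 / x) →
    Lin (fun z => lam0 * koebe z) lam0 h₀ U → InjOn h₀ (ball 0 U) →
    0 < ρ₁ → ρ₁ ≤ U * (1 - 4 / (P * x)) → (∀ w ∈ ball (0 : ℂ) ρ₁, ‖h₀ w‖ ≤ 1) →
    (∀ ε : ℝ, 0 < ε → ∃ w ∈ ball (0 : ℂ) U, ‖w‖ < ρ₁ + ε ∧ 1 < ‖h₀ w‖) →
    ∃ (h : ℂ → ℂ) (ρ₄ : ℝ), Lin (fun z => ee (1 / x') * koebe z) (ee (1 / x')) h ρ₄ ∧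
      InjOn h (ball 0 ρ₄) ∧ ρ₁ ≤ ρ₄ * (1 - 1 / (P * x')) ∧
      (∀ w ∈ ball (0 : ℂ) (ρ₁ * (1 - τ * P ^ 60 / x)), ‖h w‖ ≤ 1) ∧
      ∃ w ∈ ball (0 : ℂ) ρ₄, ‖w‖ < ρ₁ * (1 + τ * P ^ 60 / x) ∧ 1 < ‖h w‖ := by
  obtain ⟨C, hC, hpert⟩ := pert
  obtain ⟨Cd, hCd, hdiv⟩ := divB_of_dio
  obtain ⟨P₁, hstruct⟩ := struct_koebe
  refine ⟨max P₁ (max 24000 (C * Cd * (240 * 11 * 2 * 20 ^ 7))), ?_⟩
  intro P hP x x' r τ hG hG' hτ hτP hxx hr hr1 lam0 h₀ U ρ₁ hlam H hinj hρ₁ hρU hin hout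
  have hP1 : P₁ ≤ P := le_trans (le_max_left _ _) hP
  have hP2 : 24000 ≤ P := le_trans (le_trans (le_max_left _ _) (le_max_right _ _)) hP
  have hPK : C * Cd * (240 * 11 * 2 * 20 ^ 7) ≤ P :=
    le_trans (le_trans (le_max_right _ _) (le_max_right _ _)) hP
  have hPone : 1 ≤ P := by linarith
  have hP0 : 0 < P := by linarith
  have hxP : ∀ n : ℕ, n ≤ 100 → P ^ n ≤ x := fun n hn =>
    le_trans (pow_le_pow_right₀ hPone hn) hG.1
  have hx : 24000 ≤ x := by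
    have := hxP 1 (by norm_num)
    rw [pow_one] at this
    linarith
  have hx0 : 0 < x := by linarith
  have hτ1 : τ ≤ 1 := by
    have := s1_pow_le (n := 0) (c := 1) hPone hτ hτP (by norm_num) hPone
    simpa using this
  have hx1 : x / 2 ≤ x' := by
    have := (abs_le.1 hxx).1
    linarith
  have hx2 : x' ≤ 2 * x := by
    have := (abs_le.1 hxx).2
    linarith
  have hx'0 : 0 < x' := by linarith
  have hU : 0 < U := H.pos
  -- the multiplier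
  have hτx : τ / x ^ 2 ≤ 1 / x ^ 2 := div_le_div_of_nonneg_right hτ1 (by positivity)
  have hx2small : 1 / x ^ 2 ≤ 1 / 1000 := by
    exact one_div_le_one_div_of_le (by norm_num) (s1_n10 hx)
  have hτx0 : 0 < τ / x ^ 2 := by positivity
  have hrhalf : 1 / 2 ≤ r := by linarith
  have hnl : ‖lam0‖ = r := by
    rw [hlam, norm_mul, norm_ee, mul_one, Complex.norm_real, Real.norm_eq_abs,
      abs_of_pos (by linarith)]
  have hl1 : ‖lam0‖ ≤ 1 := by rw [hnl]; exact hr1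
  have hl0 : lam0 ≠ 0 := by
    rw [← norm_pos_iff, hnl]; linarith
  have hdl : ‖lam0 - ee (1 / x')‖ ≤ 15 * (τ / x ^ 2) := by
    rw [hlam]
    exact s1_mult (by linarith) hτ hτ1 hxx hr hr1
  -- the constants
  obtain ⟨a, ha⟩ : ∃ a : ℝ, a = 1 / (P * x) := ⟨_, rfl⟩
  have ha0 : 0 < a := by rw [ha]; positivity
  have ha1 : a ≤ 1 / 10 := by
    rw [ha]
    exact one_div_le_one_div_of_le (by norm_num) (s1_n9 hP2 hx)
  obtain ⟨β, hβ⟩ : ∃ β : ℝ, β = 120 * τ * P ^ 30 / x ^ 2 := ⟨_, rfl⟩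
  have hβ0 : 0 < β := by rw [hβ]; positivity
  have hP30 : 1 ≤ P ^ 30 := one_le_pow₀ hPone
  have hβ1 : 15 * (τ / x ^ 2) ≤ β := by
    have h1 : β = 120 * P ^ 30 * (τ / x ^ 2) := by rw [hβ]; ring
    rw [h1]
    exact mul_le_mul_of_nonneg_right (by linarith) hτx0.le
  have hβa : 200 * β ≤ a := by
    have h1 := s1_pow_le (n := 31) (c := 24000) hPone hτ hτP (by norm_num) hP2
    have h2 : 200 * β = (24000 * (τ * P ^ 31)) / x * a := by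
      rw [hβ, ha]; field_simp; ring
    rw [h2]
    have h3 : (24000 * (τ * P ^ 31)) / x ≤ 1 := by
      rw [div_le_one hx0]; linarith
    exact s1_n8 ha0 h3
  obtain ⟨ξ, hξ⟩ : ∃ ξ : ℝ, ξ = τ * P ^ 41 / x := ⟨_, rfl⟩
  have hξ0 : 0 < ξ := by rw [hξ]; positivity
  have hξa : 22 * ξ ≤ a := by
    have h1 := s1_pow_le (n := 42) (c := 22) hPone hτ hτP (by norm_num) (by linarith)
    have h2 : 22 * ξ = (22 * (τ * P ^ 42)) * a := by
      rw [hξ, ha]; field_simp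
    rw [h2]
    exact s1_n8 ha0 h1
  have hξT : 11 * ξ ≤ τ * P ^ 60 / x := by
    have h1 : P ^ 42 ≤ P ^ 60 := pow_le_pow_right₀ hPone (by norm_num)
    have h2 : 11 * P ^ 41 ≤ P ^ 42 := by
      have : P ^ 42 = P * P ^ 41 := by ring
      rw [this]
      exact mul_le_mul_of_nonneg_right (by linarith) (by positivity)
    have h3 : 11 * ξ = τ * (11 * P ^ 41) / x := by rw [hξ]; ring
    rw [h3]
    gcongr
    linarith
  have hT1 : τ * P ^ 60 / x ≤ 1 := by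
    rw [div_le_one hx0]; linarith
  have ha' : 1 / (P * x') ≤ 2 * a := by
    have h1 : 2 * a = 1 / (P * (x / 2)) := by rw [ha]; field_simp
    rw [h1]
    exact one_div_le_one_div_of_le (by positivity) (mul_le_mul_of_nonneg_left hx1 hP0.le)
  have ha'' : a / 2 ≤ 1 / (P * x') := by
    have h1 : a / 2 = 1 / (P * (2 * x)) := by rw [ha]; field_simp
    rw [h1]
    exact one_div_le_one_div_of_le (by positivity) (mul_le_mul_of_nonneg_left hx2 hP0.le)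
  have hρ₃0 : 0 < U * (1 - a) := mul_pos hU (by linarith)
  have hρ₃U : U * (1 - a) < U := s1_n1 hU ha0
  -- the perturbed map
  have hglob := lin_koebe_global hl1 hl0 H
  obtain ⟨hS1, -, hS3⟩ := hstruct P hP1 x r hG (by linarith) hr1 lam0 h₀ U hlam H hinj
  have hydiff : DifferentiableOn ℂ (fun w => ee (1 / x') * koebe (h₀ w)) (ball 0 U) := by
    refine DifferentiableOn.const_mul ?_ _
    unfold koebe
    refine H.diff.div (((differentiableOn_const 1).sub H.diff).pow 2) ?_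
    intro w hw
    exact pow_ne_zero 2 (sub_ne_zero.2 (hglob w hw).1.symm)
  have hh0 : HasDerivAt h₀ 1 0 := by
    have h1 := (H.diff.differentiableAt (ball_mem_nhds 0 hU)).hasDerivAt
    rwa [H.one] at h1
  have hyder : deriv (fun w => ee (1 / x') * koebe (h₀ w)) 0 = ee (1 / x') := by
    have h1 : HasDerivAt koebe 1 (h₀ 0) := by rw [H.zero]; exact s1_hasDerivAt_koebe
    have h2 := (h1.comp 0 hh0).const_mul (ee (1 / x'))
    have h3 := h2.deriv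
    simpa [Function.comp_def] using h3
  have hclose : ∀ w ∈ ball (0 : ℂ) (U * (1 - a)),
      ‖ee (1 / x') * koebe (h₀ w) - h₀ (lam0 * w)‖ ≤ β * ‖w‖ * ‖deriv h₀ (lam0 * w)‖ := by
    intro w hw
    have hwU : w ∈ ball (0 : ℂ) U := ball_subset_ball hρ₃U.le hw
    have hw' : ‖w‖ < U * (1 - a) := mem_ball_zero_iff.1 hw
    have hv : ‖lam0 * w‖ ≤ ‖w‖ := by
      rw [norm_mul]
      exact mul_le_of_le_one_left (norm_nonneg _) hl1
    have hkey : ‖h₀ (lam0 * w)‖ ≤ 4 * P ^ 30 * (‖lam0 * w‖ * ‖deriv h₀ (lam0 * w)‖) := by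
      by_cases hv0 : lam0 * w = 0
      · rw [hv0, H.zero]; simp
      obtain ⟨k1, k2⟩ := hS3 (lam0 * w) (by rw [← ha]; linarith) hv0
      refine s1_key (u := 2 / (1 - lam0)) (by positivity) k1 (le_trans k2 ?_) ?_
      · rw [div_le_one hx0]; exact hxP 30 (by norm_num)
      · rw [norm_mul]
        have h1 : P ^ 5 / x ≤ 1 := by rw [div_le_one hx0]; exact hxP 5 (by norm_num)
        have h2 : ‖2 / (1 - lam0)‖ * ‖lam0 * w‖ ≤ ‖2 / (1 - lam0)‖ * U :=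
          mul_le_mul_of_nonneg_left (by linarith) (norm_nonneg _)
        linarith
    have hk2 : ‖koebe (h₀ w)‖ ≤ 2 * ‖h₀ (lam0 * w)‖ := by
      rw [← (hglob w hwU).2, norm_mul, hnl]
      exact s1_n2 hrhalf (norm_nonneg _)
    have h1 : ee (1 / x') * koebe (h₀ w) - h₀ (lam0 * w) =
        -((lam0 - ee (1 / x')) * koebe (h₀ w)) := by
      rw [← (hglob w hwU).2]; ring
    rw [h1, norm_neg, norm_mul]
    calc ‖lam0 - ee (1 / x')‖ * ‖koebe (h₀ w)‖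
        ≤ (15 * (τ / x ^ 2)) * (2 * (4 * P ^ 30 * (‖w‖ * ‖deriv h₀ (lam0 * w)‖))) := by
          refine mul_le_mul hdl (le_trans hk2 ?_) (norm_nonneg _) (by positivity)
          refine mul_le_mul_of_nonneg_left (le_trans hkey ?_) (by norm_num)
          gcongr
      _ = β * ‖w‖ * ‖deriv h₀ (lam0 * w)‖ := by rw [hβ]; ring
  have hclose' : ∀ w ∈ ball (0 : ℂ) (U * (1 - a)),
      ‖ee (1 / x') * koebe (h₀ w) - h₀ (lam0 * w)‖ ≤
        2 * β / ‖1 - w / ((U * (1 - a) : ℝ) : ℂ)‖ * ‖w‖ * ‖deriv h₀ (lam0 * w)‖ := by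
    intro w hw
    refine le_trans (hclose w hw) ?_
    have hw' : ‖w‖ < U * (1 - a) := mem_ball_zero_iff.1 hw
    have h1 : ‖w / ((U * (1 - a) : ℝ) : ℂ)‖ < 1 := by
      rw [norm_div, Complex.norm_real, Real.norm_eq_abs, abs_of_pos hρ₃0, div_lt_one hρ₃0]
      exact hw'
    have h2 : ‖1 - w / ((U * (1 - a) : ℝ) : ℂ)‖ ≤ 2 := by
      have := norm_sub_le (1 : ℂ) (w / ((U * (1 - a) : ℝ) : ℂ))
      rw [norm_one] at this
      linarith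
    have h3 : 0 < ‖1 - w / ((U * (1 - a) : ℝ) : ℂ)‖ := by
      have := norm_sub_norm_le (1 : ℂ) (w / ((U * (1 - a) : ℝ) : ℂ))
      rw [norm_one] at this
      linarith
    have h4 : β ≤ 2 * β / ‖1 - w / ((U * (1 - a) : ℝ) : ℂ)‖ := by
      rw [le_div_iff₀ h3]
      exact s1_n3 hβ0 h2
    gcongr
  have hx'2 : 2 ≤ x' := by linarith
  have hD := hdiv x' (1 / P) 1 (a / 10) hx'2 (by positivity)
    (by rw [div_le_one hP0]; exact hPone) hG'.2.2 zero_le_one le_rfl (by positivity)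
  rw [Complex.ofReal_one, one_mul] at hD
  have hxi := s1_xi (τ := τ) hC hCd hPone hPK (by linarith) hτ hx1 hx2 hG.2.1 hG'.2.1
  rw [← hβ, ← ha, ← hξ] at hxi
  obtain ⟨k, hkd, hki, hk0, hk1, hk⟩ := hpert h₀ (fun w => ee (1 / x') * koebe (h₀ w)) lam0
    (ee (1 / x')) 1 U (U * (1 - a)) (2 * β) β (a / 10) _ hρ₃0 hρ₃U H.diff hinj H.zero H.one
    (hydiff.mono (ball_subset_ball hρ₃U.le)) (by simp [H.zero, koebe]) hyder hl1 (norm_ee _)
    norm_one (by positivity) (by positivity) (by linarith) hD (by linarith) (by linarith)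
    hβ0.le (by linarith) (s1_n4 hβ0 hU ha0 hβa) hclose hclose' (by linarith)
  obtain ⟨ρ₄, hρ₄⟩ : ∃ ρ₄ : ℝ, ρ₄ = U * (1 - a) * Real.exp (-(5 * (a / 10))) := ⟨_, rfl⟩
  rw [← hρ₄] at hkd hki hk
  have hρ₄0 : 0 < ρ₄ := by rw [hρ₄]; positivity
  have hkU : MapsTo k (ball 0 ρ₄) (ball 0 U) := fun w hw =>
    ball_subset_ball hρ₃U.le (hk w hw).1
  have hkξ : ∀ w ∈ ball (0 : ℂ) ρ₄, ‖k w - w‖ ≤ ξ * ‖w‖ := fun w hw =>
    le_trans (hk w hw).2.1 (mul_le_mul_of_nonneg_right hxi (norm_nonneg _))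
  have hρ₁₄ : ρ₁ ≤ ρ₄ * (1 - 1 / (P * x')) := by
    have h1 : 1 - a / 2 ≤ Real.exp (-(5 * (a / 10))) := by
      have := Real.add_one_le_exp (-(5 * (a / 10)))
      linarith
    have h2 : U * (1 - a) * (1 - a / 2) ≤ ρ₄ := by
      rw [hρ₄]; exact mul_le_mul_of_nonneg_left h1 hρ₃0.le
    have h3 : U * (1 - a) * (1 - a / 2) * (1 - 2 * a) ≤ ρ₄ * (1 - 1 / (P * x')) :=
      mul_le_mul h2 (by linarith) (by linarith) hρ₄0.le
    have h4 : 4 / (P * x) = 4 * a := by rw [ha]; ring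
    rw [h4] at hρU
    exact s1_n5 hU ha0 ha1 hρU h3
  have hρ₁₄' : ρ₁ * (1 + 11 * ξ) ≤ ρ₄ := by
    have h1 : ρ₁ ≤ ρ₄ * (1 - 11 * ξ) :=
      le_trans hρ₁₄ (mul_le_mul_of_nonneg_left (by linarith) hρ₄0.le)
    have h2 : ρ₁ * (1 + 11 * ξ) ≤ ρ₄ * (1 - 11 * ξ) * (1 + 11 * ξ) :=
      mul_le_mul_of_nonneg_right h1 (by positivity)
    exact le_trans h2 (s1_n6 hρ₄0)
  refine ⟨fun w => h₀ (k w), ρ₄, ⟨hρ₄0, H.diff.comp hkd hkU, by simp [hk0, H.zero], ?_, ?_⟩,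
    hinj.comp hki hkU, hρ₁₄, ?_, ?_⟩
  · have h1 : HasDerivAt h₀ 1 (k 0) := by rw [hk0]; exact hh0
    have h2 : HasDerivAt k 1 0 := by
      have h3 := (hkd.differentiableAt (ball_mem_nhds 0 hρ₄0)).hasDerivAt
      rwa [hk1] at h3
    have h4 := (h1.comp 0 h2).deriv
    simpa [Function.comp_def] using h4
  · filter_upwards [ball_mem_nhds (0 : ℂ) hρ₄0] with w hw
    exact (hk w hw).2.2
  · intro w hw
    have hw' : ‖w‖ < ρ₁ * (1 - τ * P ^ 60 / x) := mem_ball_zero_iff.1 hw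
    have h1 : ‖w‖ < ρ₁ * (1 - ξ) :=
      lt_of_lt_of_le hw' (mul_le_mul_of_nonneg_left (by linarith) hρ₁.le)
    have h2 : w ∈ ball (0 : ℂ) ρ₄ := by
      rw [mem_ball_zero_iff]
      exact lt_of_lt_of_le h1 (le_trans (s1_n7 hρ₁ hξ0) hρ₁₄')
    refine hin (k w) ?_
    rw [mem_ball_zero_iff]
    have h3 : ‖k w‖ ≤ ‖k w - w‖ + ‖w‖ := by
      have := norm_add_le (k w - w) w
      simpa using this
    have h4 := hkξ w h2
    have h5 : (1 + ξ) * ‖w‖ < (1 + ξ) * (ρ₁ * (1 - ξ)) :=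
      mul_lt_mul_of_pos_left h1 (by positivity)
    have h6 := s1_n6 (t := ξ) hρ₁
    linarith
  · obtain ⟨w₁, -, hw₁, hw₂⟩ := hout (ρ₁ * ξ) (by positivity)
    obtain ⟨w, hw, hkw⟩ := s1_preimage (w₁ := w₁) hkd hki hρ₁ hξ0 (by linarith) hρ₁₄' hkξ
      (by linarith)
    refine ⟨w, mem_ball_zero_iff.2 (lt_of_lt_of_le hw hρ₁₄'),
      lt_of_lt_of_le hw (mul_le_mul_of_nonneg_left (by linarith) hρ₁.le), ?_⟩
    simpa [hkw] using hw₂

end Pool.Agent.Lib.MP_102662_an
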