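import Pool.Agent.Lib.MP_102662_an.Koebe
import Pool.Agent.Lib.MP_102662_an.Basic

open Complex Metric Set Filter Topology

namespace Pool.Agent.Lib.MP_102662_an

/-- A univalent map into the closed unit disc stays away from the unit circle. -/
theorem s2_dist {h : ℂ → ℂ} {ρ : ℝ} (hd : DifferentiableOn ℂ h (ball 0 ρ))
    (hi : InjOn h (ball 0 ρ)) (hb : ∀ w ∈ ball (0 : ℂ) ρ, ‖h w‖ ≤ 1) {w : ℂ} (hw : ‖w‖ < ρ) :
    (ρ - ‖w‖) * ‖deriv h w‖ ≤ 4 * (1 - ‖h w‖) := by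
  have hsub : ball w (ρ - ‖w‖) ⊆ ball (0 : ℂ) ρ := by
    intro v hv
    rw [mem_ball_zero_iff]
    rw [mem_ball, dist_eq_norm] at hv
    calc ‖v‖ = ‖(v - w) + w‖ := by ring_nf
      _ ≤ ‖v - w‖ + ‖w‖ := norm_add_le _ _
      _ < ρ := by linarith
  obtain ⟨c, hc1, hc⟩ := Complex.exists_norm_mul_eq_self (h w)
  have hw1 : ‖h w‖ ≤ 1 := hb w (mem_ball_zero_iff.2 hw)
  refine le_of_forall_pos_le_add fun ε hε => ?_
  have hξ : c * ((1 + ε / 4 : ℝ) : ℂ) ∉ h '' ball w (ρ - ‖w‖) := by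
    rintro ⟨v, hv, hv'⟩
    have h1 := hb v (hsub hv)
    rw [hv', norm_mul, hc1, Complex.norm_real, Real.norm_of_nonneg (by positivity)] at h1
    linarith
  have key := koebe_quarter (by linarith) (hd.mono hsub) (hi.mono hsub) hξ
  have h2 : h w - c * ((1 + ε / 4 : ℝ) : ℂ) = c * ((‖h w‖ - (1 + ε / 4) : ℝ) : ℂ) := by
    conv_lhs => rw [← hc]
    push_cast
    ring
  rw [h2, norm_mul, hc1, Complex.norm_real, Real.norm_of_nonpos (by linarith)] at key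
  linarith

/-- The rescaled map is close to the Koebe function. -/
theorem s2_close {g : ℂ → ℂ} (hg : Schlicht g) {z : ℂ} {d e : ℝ} (hd : 0 < d)
    (he : Real.sqrt (1 - ‖a2 g‖ ^ 2 / 4) ≤ e) (hc : 1 / 2 ≤ ‖a2 g / 2‖)
    (hz : ‖z‖ + d ≤ ‖a2 g / 2‖) (hK : ‖koebe z‖ ≤ 1) (hsmall : 20 * e ≤ d) :
    ‖a2 g / 2 * g (z / (a2 g / 2)) - koebe z‖ ≤ 20 * e * ‖z‖ / d * ‖koebe z‖ ^ 2 := by
  obtain ⟨ha, hst⟩ := area_stab hg
  set c : ℂ := a2 g / 2 with hcdef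
  have hc1 : ‖c‖ ≤ 1 := by
    rw [hcdef, norm_div]
    simp only [Complex.norm_ofNat]
    linarith
  have hcpos : 0 < ‖c‖ := by linarith
  have hc0 : c ≠ 0 := norm_pos_iff.1 hcpos
  have he0 : 0 ≤ e := le_trans (Real.sqrt_nonneg _) he
  by_cases hz0 : z = 0
  · subst hz0
    simp [koebe, hg.zero]
  have hz1 : ‖z‖ < 1 := by linarith
  have hzne1 : (1 : ℂ) - z ≠ 0 := by
    intro h0
    have : z = 1 := by linear_combination -h0
    rw [this] at hz1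
    simp at hz1
  have hζn : ‖z / c‖ = ‖z‖ / ‖c‖ := norm_div _ _
  have hζ1 : ‖z / c‖ < 1 := by
    rw [hζn, div_lt_one hcpos]
    linarith
  have hζ0 : z / c ≠ 0 := div_ne_zero hz0 hc0
  have hζm : z / c ∈ ball (0 : ℂ) 1 := mem_ball_zero_iff.2 hζ1
  have hg0 : g (z / c) ≠ 0 := by
    intro h0
    exact hζ0 (hg.inj hζm (mem_ball_self one_pos) (h0.trans hg.zero.symm))
  have hs := hst (z / c) hζm hζ0
  set G : ℂ := g (z / c) with hG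
  set b : ℂ := (1 / G - 1 / (z / c) + a2 g - a2 g ^ 2 * (z / c) / 4) / c with hb
  have ha2 : a2 g = 2 * c := by rw [hcdef]; ring
  have hK0 : koebe z ≠ 0 := div_ne_zero hz0 (pow_ne_zero _ hzne1)
  have hid : c * G - koebe z = -(b * koebe z) * (c * G) := by
    rw [hb, ha2, koebe]
    field_simp
    ring
  have hbn : ‖b‖ ≤ 10 * e * ‖z‖ / d := by
    rw [hb, norm_div, div_le_iff₀ hcpos]
    refine le_trans hs ?_
    rw [hζn]
    have h1 : 0 < 1 - ‖z‖ / ‖c‖ := by rw [← hζn]; linarith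
    rw [div_le_iff₀ h1]
    have h2 : 10 * e * ‖z‖ / d * ‖c‖ * (1 - ‖z‖ / ‖c‖) = 10 * e * ‖z‖ * ((‖c‖ - ‖z‖) / d) := by
      field_simp
    rw [h2]
    have h3 : 1 ≤ (‖c‖ - ‖z‖) / d := by
      rw [le_div_iff₀ hd]; linarith
    have h4 : ‖z‖ / ‖c‖ ≤ 2 * ‖z‖ := by
      rw [div_le_iff₀ hcpos]
      nlinarith [norm_nonneg z]
    have h5 : 5 * Real.sqrt (1 - ‖2 * c‖ ^ 2 / 4) * (‖z‖ / ‖c‖) ≤ 5 * e * (2 * ‖z‖) := by
      rw [← ha2]
      gcongr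
    have h6 : 0 ≤ 10 * e * ‖z‖ := by positivity
    rw [ha2]
    nlinarith
  have hbhalf : ‖b‖ ≤ 1 / 2 := by
    refine le_trans hbn ?_
    rw [div_le_iff₀ hd]
    nlinarith [norm_nonneg z]
  have hbK : ‖b * koebe z‖ ≤ 1 / 2 := by
    rw [norm_mul]
    nlinarith [norm_nonneg b, norm_nonneg (koebe z)]
  have hcG : ‖c * G‖ ≤ 2 * ‖koebe z‖ := by
    have h1 : ‖c * G‖ ≤ ‖c * G - koebe z‖ + ‖koebe z‖ := by
      calc ‖c * G‖ = ‖(c * G - koebe z) + koebe z‖ := by ring_nf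
        _ ≤ _ := norm_add_le _ _
    have h2 : ‖c * G - koebe z‖ ≤ 1 / 2 * ‖c * G‖ := by
      rw [hid, norm_mul, norm_neg]
      gcongr
    linarith
  rw [hid, norm_mul, norm_neg, norm_mul]
  calc ‖b‖ * ‖koebe z‖ * ‖c * G‖ ≤ 10 * e * ‖z‖ / d * ‖koebe z‖ * (2 * ‖koebe z‖) := by
        gcongr
    _ = 20 * e * ‖z‖ / d * ‖koebe z‖ ^ 2 := by ring

/-- The linearizer is small away from the resonant direction. -/
theorem s2_weight {us z w : ℂ} {ρ δ M : ℝ} (hus : us ≠ 0) (hρ : 0 < ρ) (hw : ‖w‖ < ρ)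
    (hb : ‖us‖ * ρ ≤ 1 + δ) (hs : ‖w / z - 1 - us * w‖ ≤ δ) (h1 : ‖z‖ ≤ 1) (hδ : δ ≤ 1 / 16)
    (hM : 4 ≤ M) (hMρ : 16 * δ ≤ M * ρ) :
    ‖z‖ * ‖-(‖us‖ : ℂ) / us - w / ρ‖ ≤ M * ‖w‖ := by
  have hR : 0 < ‖us‖ := norm_pos_iff.2 hus
  have hδ0 : 0 ≤ δ := le_trans (norm_nonneg _) hs
  set ω : ℂ := -(‖us‖ : ℂ) / us with hω
  have hω1 : ‖ω‖ = 1 := by
    rw [hω, norm_div, norm_neg, Complex.norm_real, Real.norm_of_nonneg hR.le, div_self hR.ne']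
  have hω0 : ω ≠ 0 := by
    rw [← norm_pos_iff, hω1]; exact one_pos
  have hρc : (ρ : ℂ) ≠ 0 := by exact_mod_cast hρ.ne'
  have hRc : ((‖us‖ : ℝ) : ℂ) ≠ 0 := by exact_mod_cast hR.ne'
  have htn : ‖w / ρ‖ = ‖w‖ / ρ := by
    rw [norm_div, Complex.norm_real, Real.norm_of_nonneg hρ.le]
  by_cases hcase : ‖ω - w / ρ‖ < 8 * δ
  · have h2 : 1 / 2 ≤ ‖w‖ / ρ := by
      have : ‖ω‖ ≤ ‖ω - w / ρ‖ + ‖w / ρ‖ := by
        calc ‖ω‖ = ‖(ω - w / ρ) + w / ρ‖ := by ring_nf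
          _ ≤ _ := norm_add_le _ _
      rw [hω1, htn] at this
      linarith
    rw [le_div_iff₀ hρ] at h2
    calc ‖z‖ * ‖ω - w / ρ‖ ≤ 1 * (8 * δ) := by gcongr
      _ ≤ M * ‖w‖ := by nlinarith
  · push Not at hcase
    by_cases hz0 : z = 0
    · rw [hz0, norm_zero, zero_mul]
      positivity
    have hzpos : 0 < ‖z‖ := norm_pos_iff.2 hz0
    set ζ : ℂ := w / ρ / ω with hζ
    have hζn : ‖ζ‖ ≤ 1 := by
      rw [hζ, norm_div, hω1, div_one, htn, div_le_one hρ]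
      exact hw.le
    have hζ1 : ‖1 - ζ‖ = ‖ω - w / ρ‖ := by
      have : ω - w / ρ = ω * (1 - ζ) := by
        rw [hζ]; field_simp
      rw [this, norm_mul, hω1, one_mul]
    have huw : us * w = -(((‖us‖ * ρ : ℝ) : ℂ) * ζ) := by
      rw [hζ, hω]
      push_cast
      field_simp
    set b : ℝ := min (‖us‖ * ρ) 1 with hbdef
    have hb0 : 0 ≤ b := le_min (by positivity) zero_le_one
    have hb1 : b ≤ 1 := min_le_right _ _
    have hb2 : b ≤ ‖us‖ * ρ := min_le_left _ _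
    have hb3 : ‖us‖ * ρ - b ≤ δ := by
      rcases min_choice (‖us‖ * ρ) 1 with h | h
      · rw [hbdef, h]; linarith
      · rw [hbdef, h]; linarith
    have k1 := norm_one_sub_le_two_mul hζn hb0 hb1
    have k2 : ‖1 - (b : ℂ) * ζ‖ ≤ ‖w / z‖ + 2 * δ := by
      have e1 : 1 - (b : ℂ) * ζ =
          w / z - (w / z - 1 - us * w) + ((‖us‖ * ρ - b : ℝ) : ℂ) * ζ := by
        rw [huw]
        push_cast
        ring
      have e2 : ‖((‖us‖ * ρ - b : ℝ) : ℂ) * ζ‖ ≤ δ := by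
        rw [norm_mul, Complex.norm_real, Real.norm_of_nonneg (by linarith)]
        calc (‖us‖ * ρ - b) * ‖ζ‖ ≤ δ * 1 := by gcongr
          _ = δ := mul_one _
      rw [e1]
      calc _ ≤ ‖w / z - (w / z - 1 - us * w)‖ + ‖((‖us‖ * ρ - b : ℝ) : ℂ) * ζ‖ := norm_add_le _ _
        _ ≤ ‖w / z‖ + ‖w / z - 1 - us * w‖ + δ := by
          gcongr
          exact norm_sub_le _ _
        _ ≤ ‖w / z‖ + 2 * δ := by linarith
    rw [hζ1] at k1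
    have k3 : ‖ω - w / ρ‖ ≤ 4 * (‖w‖ / ‖z‖) := by
      rw [← norm_div]
      linarith
    calc ‖z‖ * ‖ω - w / ρ‖ ≤ ‖z‖ * (4 * (‖w‖ / ‖z‖)) := by gcongr
      _ = 4 * ‖w‖ := by field_simp
      _ ≤ M * ‖w‖ := by gcongr

end Pool.Agent.Lib.MP_102662_an
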