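import Pool.Agent.Lib.MP_102662_an.Basic

open Complex Metric Set Filter Topology

namespace Pool.Agent.Lib.MP_102662_an

/-- One step of the map in the region `4 ≤ |u| ≤ R / 10`. -/
theorem tail_step {lam u : ℂ} {R : ℝ} (hR : 1000 ≤ R) (h1 : ‖1 - lam‖ = 2 / R)
    (hu4 : 4 ≤ ‖u‖) (huR : ‖u‖ ≤ R / 10) :
    ‖Fu lam u‖ ≤ ‖u‖ + 3 ∧ (Fu lam u).re ≤ u.re - 1 := by
  have hR0 : 0 < R := by linarith
  have hs : ‖1 - lam‖ ≤ 1 / 500 := by
    rw [h1, div_le_div_iff₀ hR0 (by norm_num)]; linarith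
  have hl : 499 / 500 ≤ ‖lam‖ := by
    have := norm_sub_norm_le (1 : ℂ) lam
    rw [norm_one] at this; linarith
  have hl0 : lam ≠ 0 := by
    intro h; rw [h, norm_zero] at hl; norm_num at hl
  have hinv : ‖1 / u‖ ≤ 1 / 4 := by
    rw [norm_div, norm_one]
    exact one_div_le_one_div_of_le (by norm_num) hu4
  have hw : ‖u * (1 - lam)‖ ≤ 1 / 5 := by
    rw [norm_mul, h1]
    calc ‖u‖ * (2 / R) ≤ R / 10 * (2 / R) := by gcongr
      _ = 1 / 5 := by field_simp; norm_num
  have h2 : ‖(2 : ℂ) * (1 - lam)‖ ≤ 1 / 250 := by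
    rw [norm_mul]; simp only [Complex.norm_ofNat]; linarith
  have he : Fu lam u = u - 2 + (u * (1 - lam) - 2 * (1 - lam) + 1 / u) / lam := by
    unfold Fu; field_simp; ring
  have hE : ‖(u * (1 - lam) - 2 * (1 - lam) + 1 / u) / lam‖ ≤ 1 / 2 := by
    rw [norm_div, div_le_iff₀ (by linarith)]
    have a1 := norm_add_le (u * (1 - lam) - 2 * (1 - lam)) (1 / u)
    have a2 := norm_sub_le (u * (1 - lam)) (2 * (1 - lam))
    linarith
  set E := (u * (1 - lam) - 2 * (1 - lam) + 1 / u) / lam with hEdef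
  constructor
  · rw [he]
    have a1 := norm_add_le (u - 2) E
    have a2 := norm_sub_le u 2
    simp only [Complex.norm_ofNat] at a2
    linarith
  · rw [he]
    have := (Complex.re_le_norm E).trans hE
    simp only [Complex.add_re, Complex.sub_re, Complex.re_ofNat]
    linarith

/-- A sum along a short orbit segment is controlled by a potential. -/
theorem tail_window {lam : ℂ} {R h ε M : ℝ} (hR : 1000 ≤ R) (h1 : ‖1 - lam‖ = 2 / R)
    (hh : 4 ≤ h) (f : ℂ → ℝ) (Φ : ℝ → ℝ) (hmono : Monotone Φ)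
    (hf : ∀ u : ℂ, h ≤ ‖u‖ → f u ≤ Φ u.re - Φ (u.re - 1))
    (hM : ∀ a : ℝ, |a| ≤ R → |Φ a| ≤ M) (hε : ∀ u : ℂ, R / 20 ≤ ‖u‖ → f u ≤ ε) (hε0 : 0 ≤ ε) :
    ∀ (n : ℕ) (u : ℂ), 3 * (n : ℝ) ≤ R / 20 → (∀ i < n, h ≤ ‖(Fu lam)^[i] u‖) →
      ∑ i ∈ Finset.range n, f ((Fu lam)^[i] u) ≤ n * ε + 2 * M := by
  have hM0 : 0 ≤ M := (abs_nonneg _).trans (hM 0 (by simp; linarith))
  have inner : ∀ (u : ℂ), ‖u‖ ≤ R / 20 → ∀ n : ℕ, 3 * (n : ℝ) ≤ R / 20 →
      (∀ i < n, h ≤ ‖(Fu lam)^[i] u‖) → ‖(Fu lam)^[n] u‖ ≤ R / 20 + 3 * n ∧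
        ∑ i ∈ Finset.range n, f ((Fu lam)^[i] u) ≤ Φ u.re - Φ ((Fu lam)^[n] u).re := by
    intro u hu n
    induction n with
    | zero => intro _ _; simpa using hu
    | succ n ih =>
      intro hn hb
      push_cast at hn
      obtain ⟨a1, a2⟩ := ih (by linarith) fun i hi => hb i (by omega)
      have a3 := hb n (by omega)
      obtain ⟨b1, b2⟩ := tail_step (u := (Fu lam)^[n] u) hR h1 (by linarith) (by linarith)
      rw [Function.iterate_succ_apply', Finset.sum_range_succ]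
      refine ⟨by push_cast; linarith, ?_⟩
      have a4 := hf _ a3
      have a5 := hmono b2
      linarith
  intro n
  induction n with
  | zero => intro u _ _; simp; linarith
  | succ n ih =>
    intro u hn hb
    by_cases hu : ‖u‖ ≤ R / 20
    · obtain ⟨a1, a2⟩ := inner u hu (n + 1) hn hb
      have a3 := hM u.re ((Complex.abs_re_le_norm u).trans (by linarith))
      have a4 := hM ((Fu lam)^[n + 1] u).re ((Complex.abs_re_le_norm _).trans (by linarith))
      have a5 : 0 ≤ ((n + 1 : ℕ) : ℝ) * ε := by positivity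
      have a6 := abs_le.1 a3
      have a7 := abs_le.1 a4
      linarith [a6.2, a7.1]
    · push_cast at hn
      have a1 := ih (Fu lam u) (by linarith) fun i hi => by
        rw [← Function.iterate_succ_apply]; exact hb (i + 1) (by omega)
      rw [Finset.sum_range_succ']
      simp only [Function.iterate_succ_apply, Function.iterate_zero_apply]
      have a2 := hε u (by linarith)
      push_cast
      linarith

noncomputable def tailP1 (a : ℝ) : ℝ :=
  2 * (Real.log (1 + max a 0) - Real.log (1 + max (-a) 0))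

theorem tailP1_mono : Monotone tailP1 := by
  intro a b hab
  unfold tailP1
  have h1 : Real.log (1 + max a 0) ≤ Real.log (1 + max b 0) :=
    Real.log_le_log (by positivity) (by gcongr)
  have h2 : Real.log (1 + max (-b) 0) ≤ Real.log (1 + max (-a) 0) :=
    Real.log_le_log (by positivity) (by gcongr)
  linarith

theorem tail_log_step {x : ℝ} (hx : 0 < x) : 1 / (x + 1) ≤ Real.log (x + 1) - Real.log x := by
  rw [← Real.log_div (by positivity) hx.ne']
  have := Real.one_sub_inv_le_log_of_pos (show 0 < (x + 1) / x by positivity)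
  refine le_trans (le_of_eq ?_) this
  field_simp; ring

theorem tailP1_step (a : ℝ) : 2 / (2 + |a|) ≤ tailP1 a - tailP1 (a - 1) := by
  unfold tailP1
  rcases le_or_gt 1 a with h | h
  · rw [max_eq_left (by linarith : 0 ≤ a), max_eq_right (by linarith : -a ≤ 0),
      max_eq_left (by linarith : 0 ≤ a - 1), max_eq_right (by linarith : -(a - 1) ≤ 0),
      abs_of_nonneg (by linarith)]
    have h1 := tail_log_step (show 0 < a by linarith)
    have h2 : 1 / (2 + a) ≤ 1 / (a + 1) := one_div_le_one_div_of_le (by linarith) (by linarith)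
    have e1 : 1 + (a - 1) = a := by ring
    have e2 : 1 + a = a + 1 := by ring
    have e3 : 2 / (2 + a) = 2 * (1 / (2 + a)) := by ring
    rw [e1, e2, e3]; linarith
  rcases le_or_gt a 0 with h' | h'
  · rw [max_eq_right h', max_eq_left (by linarith : 0 ≤ -a),
      max_eq_right (by linarith : a - 1 ≤ 0), max_eq_left (by linarith : 0 ≤ -(a - 1)),
      abs_of_nonpos h']
    have h1 := tail_log_step (show 0 < 1 + -a by linarith)
    have e1 : 1 + -(a - 1) = 1 + -a + 1 := by ring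
    have e3 : 2 / (2 + -a) = 2 * (1 / (1 + -a + 1)) := by
      rw [show (2 + -a) = 1 + -a + 1 by ring]; ring
    rw [e1, e3]; linarith
  · rw [max_eq_left h'.le, max_eq_right (by linarith : -a ≤ 0),
      max_eq_right (by linarith : a - 1 ≤ 0), max_eq_left (by linarith : 0 ≤ -(a - 1)),
      abs_of_pos h']
    have h1 : Real.log 2 ≤ Real.log (1 + a) + Real.log (1 + -(a - 1)) := by
      rw [← Real.log_mul (by linarith) (by linarith)]
      exact Real.log_le_log (by norm_num) (by nlinarith)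
    have h2 := Real.log_two_gt_d9
    have h3 : 2 / (2 + a) ≤ 1 := by rw [div_le_one (by linarith)]; linarith
    simp only [add_zero, Real.log_one]
    linarith

theorem tailP1_abs {a R : ℝ} (h : |a| ≤ R) : |tailP1 a| ≤ 2 * Real.log (1 + R) := by
  unfold tailP1
  have h0 := abs_le.1 h
  have hR : 0 ≤ R := (abs_nonneg a).trans h
  have a1 : Real.log (1 + max a 0) ≤ Real.log (1 + R) :=
    Real.log_le_log (by positivity) (by have := max_le h0.2 hR; linarith)
  have a2 : Real.log (1 + max (-a) 0) ≤ Real.log (1 + R) :=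
    Real.log_le_log (by positivity) (by have := max_le (show -a ≤ R by linarith) hR; linarith)
  have a3 : 0 ≤ Real.log (1 + max a 0) := Real.log_nonneg (by simp)
  have a4 : 0 ≤ Real.log (1 + max (-a) 0) := Real.log_nonneg (by simp)
  rw [abs_le]; constructor <;> linarith

theorem tail_sum1 {lam : ℂ} {R : ℝ} (hR : 1000 ≤ R) (h1 : ‖1 - lam‖ = 2 / R) (n : ℕ) (u : ℂ)
    (hn : 3 * (n : ℝ) ≤ R / 20) (hb : ∀ i < n, 4 ≤ ‖(Fu lam)^[i] u‖) :
    ∑ i ∈ Finset.range n, 1 / ‖(Fu lam)^[i] u‖ ≤ 1 + 4 * Real.log (1 + R) := by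
  have hR0 : 0 < R := by linarith
  have := tail_window (ε := 20 / R) hR h1 le_rfl (fun u => 1 / ‖u‖) tailP1 tailP1_mono ?_
    (fun a ha => tailP1_abs ha) ?_ (by positivity) n u hn hb
  · have a1 : (n : ℝ) * (20 / R) ≤ 1 := by
      rw [← mul_div_assoc, div_le_one hR0]; linarith
    linarith
  · intro v hv
    refine le_trans ?_ (tailP1_step v.re)
    have := Complex.abs_re_le_norm v
    rw [div_le_div_iff₀ (by linarith) (by positivity)]
    linarith
  · intro v hv
    show 1 / ‖v‖ ≤ 20 / R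
    rw [div_le_div_iff₀ (by linarith) hR0]; linarith

noncomputable def tailP3 (h a : ℝ) : ℝ := 16 / h ^ 2 * (a / (h + |a|))

theorem tailP3_mono {h : ℝ} (hh : 0 < h) : Monotone (tailP3 h) := by
  intro a b hab
  unfold tailP3
  refine mul_le_mul_of_nonneg_left ?_ (by positivity)
  rw [div_le_div_iff₀ (by positivity) (by positivity)]
  have : a * |b| ≤ b * |a| := by
    rcases le_total 0 a with ha | ha
    · rw [abs_of_nonneg ha, abs_of_nonneg (ha.trans hab)]; linarith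
    · rcases le_total 0 b with hb | hb
      · rw [abs_of_nonpos ha, abs_of_nonneg hb]; nlinarith
      · rw [abs_of_nonpos ha, abs_of_nonpos hb]; linarith
  nlinarith

theorem tailP3_step {h : ℝ} (hh : 1 ≤ h) (a : ℝ) :
    8 / (h + |a|) ^ 3 ≤ tailP3 h a - tailP3 h (a - 1) := by
  have key : h / (2 * (h + |a|) ^ 2) ≤ a / (h + |a|) - (a - 1) / (h + |a - 1|) := by
    rcases le_or_gt 1 a with h1 | h1
    · rw [abs_of_nonneg (by linarith : 0 ≤ a), abs_of_nonneg (by linarith : 0 ≤ a - 1)]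
      have e : a / (h + a) - (a - 1) / (h + (a - 1)) = h / ((h + a) * (h + (a - 1))) := by
        have : h + a ≠ 0 := by linarith
        have : h + (a - 1) ≠ 0 := by linarith
        field_simp; ring
      rw [e]
      exact div_le_div_of_nonneg_left (by linarith)
        (mul_pos (by linarith) (by linarith)) (by nlinarith)
    rcases le_or_gt a 0 with h2 | h2
    · rw [abs_of_nonpos h2, abs_of_nonpos (by linarith : a - 1 ≤ 0)]
      have e : a / (h + -a) - (a - 1) / (h + -(a - 1)) = h / ((h + -a) * (h + -(a - 1))) := by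
        have : h + -a ≠ 0 := by linarith
        have : h + -(a - 1) ≠ 0 := by linarith
        field_simp; ring
      rw [e]
      exact div_le_div_of_nonneg_left (by linarith)
        (mul_pos (by linarith) (by linarith)) (by nlinarith)
    · rw [abs_of_pos h2, abs_of_nonpos (by linarith : a - 1 ≤ 0)]
      have a1 : a / (h + 1) ≤ a / (h + a) :=
        div_le_div_of_nonneg_left h2.le (by linarith) (by linarith)
      have a2 : (1 - a) / (h + 1) ≤ (1 - a) / (h + -(a - 1)) :=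
        div_le_div_of_nonneg_left (by linarith) (by linarith) (by linarith)
      have a3 : h / (2 * (h + a) ^ 2) ≤ 1 / (h + 1) := by
        rw [div_le_div_iff₀ (by positivity) (by linarith)]; nlinarith
      have a4 : a / (h + 1) + (1 - a) / (h + 1) = 1 / (h + 1) := by ring
      have a5 : (a - 1) / (h + -(a - 1)) = -((1 - a) / (h + -(a - 1))) := by ring
      linarith
  unfold tailP3
  rw [← mul_sub]
  have h0 : 0 < h := by linarith
  have ha := abs_nonneg a
  calc 8 / (h + |a|) ^ 3 ≤ 8 / (h * (h + |a|) ^ 2) := by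
        refine div_le_div_of_nonneg_left (by norm_num) (by positivity) ?_
        rw [pow_succ' (h + |a|) 2]
        gcongr; linarith
    _ = 16 / h ^ 2 * (h / (2 * (h + |a|) ^ 2)) := by field_simp; norm_num
    _ ≤ _ := mul_le_mul_of_nonneg_left key (by positivity)

theorem tailP3_abs {h : ℝ} (hh : 0 < h) (a : ℝ) : |tailP3 h a| ≤ 16 / h ^ 2 := by
  unfold tailP3
  rw [abs_mul, abs_of_nonneg (by positivity : 0 ≤ 16 / h ^ 2), abs_div,
    abs_of_pos (by positivity : 0 < h + |a|)]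
  refine mul_le_of_le_one_right (by positivity) ?_
  rw [div_le_one (by positivity)]; linarith

theorem tail_sum3 {lam : ℂ} {R h : ℝ} (hR : 1000 ≤ R) (h1 : ‖1 - lam‖ = 2 / R) (hh : 4 ≤ h)
    (n : ℕ) (u : ℂ) (hn : 3 * (n : ℝ) ≤ R / 20) (hb : ∀ i < n, h ≤ ‖(Fu lam)^[i] u‖) :
    ∑ i ∈ Finset.range n, 1 / ‖(Fu lam)^[i] u‖ ^ 3 ≤ n * (20 / R) ^ 3 + 32 / h ^ 2 := by
  have hR0 : 0 < R := by linarith
  have := tail_window (ε := (20 / R) ^ 3) hR h1 hh (fun u => 1 / ‖u‖ ^ 3) (tailP3 h)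
    (tailP3_mono (by linarith)) ?_ (fun a _ => tailP3_abs (by linarith) a) ?_ (by positivity)
    n u hn hb
  · refine this.trans (le_of_eq ?_); ring
  · intro v hv
    refine le_trans ?_ (tailP3_step (by linarith) v.re)
    have a1 := Complex.abs_re_le_norm v
    have a2 := abs_nonneg v.re
    have a3 : (h + |v.re|) ^ 3 ≤ (2 * ‖v‖) ^ 3 := by gcongr; linarith
    rw [div_le_div_iff₀ (pow_pos (by linarith) 3) (pow_pos (by linarith) 3)]
    linarith [show (2 * ‖v‖) ^ 3 = 8 * ‖v‖ ^ 3 by ring]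
  · intro v hv
    show 1 / ‖v‖ ^ 3 ≤ (20 / R) ^ 3
    rw [← one_div_pow]
    have : 1 / ‖v‖ ≤ 20 / R := by rw [div_le_div_iff₀ (by linarith) hR0]; linarith
    have h0 : 0 ≤ 1 / ‖v‖ := by positivity
    gcongr

/-- One step of the distance to the resonant point. -/
theorem tail_height {lam u : ℂ} {R δ : ℝ} (hl1 : lam ≠ 1) (hl0 : lam ≠ 0)
    (hδ0 : 0 ≤ δ) (hδ1 : δ ≤ 1) (hl : ‖lam‖ ≤ Real.exp (-δ)) (hu4 : 4 ≤ ‖u‖)
    (hU : R ≤ ‖u - 2 / (1 - lam)‖) :
    ‖u - 2 / (1 - lam)‖ + δ * R - 2 * (1 / ‖u‖) ≤ ‖Fu lam u - 2 / (1 - lam)‖ := by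
  have h1 : 1 - lam ≠ 0 := sub_ne_zero.2 hl1.symm
  have he : (Fu lam u - 2 / (1 - lam)) * lam = (u - 2 / (1 - lam)) + 1 / u := by
    unfold Fu; field_simp; ring
  have hinv : 1 / ‖u‖ ≤ 1 / 4 := one_div_le_one_div_of_le (by norm_num) hu4
  have hinv0 : 0 ≤ 1 / ‖u‖ := by positivity
  have a1 : ‖u - 2 / (1 - lam)‖ - 1 / ‖u‖ ≤ ‖Fu lam u - 2 / (1 - lam)‖ * ‖lam‖ := by
    rw [← norm_mul, he]
    have := norm_sub_le ((u - 2 / (1 - lam)) + 1 / u) (1 / u)
    rw [add_sub_cancel_right, norm_div, norm_one] at this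
    linarith
  have a2 : ‖lam‖ * (1 + δ) ≤ 1 := by
    have := Real.add_one_le_exp δ
    calc ‖lam‖ * (1 + δ) ≤ Real.exp (-δ) * Real.exp δ :=
          mul_le_mul hl (by linarith) (by linarith) (Real.exp_pos _).le
      _ = 1 := by rw [← Real.exp_add]; simp
  have a3 : (‖u - 2 / (1 - lam)‖ - 1 / ‖u‖) * (1 + δ) ≤ ‖Fu lam u - 2 / (1 - lam)‖ := by
    calc _ ≤ ‖Fu lam u - 2 / (1 - lam)‖ * ‖lam‖ * (1 + δ) :=
          mul_le_mul_of_nonneg_right a1 (by linarith)
      _ = ‖Fu lam u - 2 / (1 - lam)‖ * (‖lam‖ * (1 + δ)) := by ring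
      _ ≤ _ := mul_le_of_le_one_right (norm_nonneg _) a2
  nlinarith [mul_le_mul_of_nonneg_left hU hδ0, mul_le_mul_of_nonneg_right hδ1 hinv0]

theorem tail_norm_ge (a u : ℂ) : ‖u - a‖ - ‖a‖ ≤ ‖u‖ := by
  have := norm_sub_le u a
  linarith

/-- Growth of the height inside one block. -/
theorem tail_block {lam : ℂ} {R δ S : ℝ} (hR : 1000 ≤ R) (h1 : ‖1 - lam‖ = 2 / R)
    (hRe : ‖2 / (1 - lam)‖ = R) (hl0 : lam ≠ 0) (hδ0 : 0 ≤ δ) (hδ1 : δ ≤ 1)
    (hl : ‖lam‖ ≤ Real.exp (-δ)) (hS : 1 + 4 * Real.log (1 + R) ≤ S) (u : ℂ) (H : ℝ)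
    (hH : 4 + 2 * S ≤ H) (hu : R + H ≤ ‖u - 2 / (1 - lam)‖) :
    ∀ i : ℕ, 3 * (i : ℝ) ≤ R / 20 →
      R + H + i * (δ * R) - 2 * S ≤ ‖(Fu lam)^[i] u - 2 / (1 - lam)‖ := by
  have hl1 : lam ≠ 1 := by
    intro h
    rw [h, sub_self, norm_zero] at h1
    have : 0 < 2 / R := by positivity
    linarith
  have hδR : 0 ≤ δ * R := by positivity
  intro i
  induction i using Nat.strong_induction_on with
  | _ i ih =>
    intro hi
    have hlow : ∀ m < i, R + 4 ≤ ‖(Fu lam)^[m] u - 2 / (1 - lam)‖ := by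
      intro m hm
      have hm' : (m : ℝ) ≤ i := by exact_mod_cast hm.le
      have := ih m hm (by linarith)
      have h0 : 0 ≤ (m : ℝ) * (δ * R) := by positivity
      linarith
    have h4 : ∀ m < i, 4 ≤ ‖(Fu lam)^[m] u‖ := by
      intro m hm
      have := tail_norm_ge (2 / (1 - lam)) ((Fu lam)^[m] u)
      have := hlow m hm
      linarith
    have tel : ∀ m ≤ i, ‖u - 2 / (1 - lam)‖ + m * (δ * R) -
        2 * ∑ j ∈ Finset.range m, 1 / ‖(Fu lam)^[j] u‖ ≤ ‖(Fu lam)^[m] u - 2 / (1 - lam)‖ := by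
      intro m
      induction m with
      | zero => intro _; simp
      | succ m ihm =>
        intro hm
        have a1 := ihm (by omega)
        have a2 := tail_height (R := R) hl1 hl0 hδ0 hδ1 hl (h4 m (by omega))
          (by have := hlow m (by omega); linarith)
        rw [Function.iterate_succ_apply', Finset.sum_range_succ]
        push_cast
        linarith
    have a1 := tel i le_rfl
    have a2 := tail_sum1 hR h1 i u hi h4
    linarith

theorem tail_sq_sum {x : ℝ} (hx : 1 ≤ x) (J : ℕ) :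
    ∑ j ∈ Finset.range J, 1 / (x + j) ^ 2 ≤ 2 / x := by
  have key : ∀ J : ℕ, ∑ j ∈ Finset.range J, 1 / (x + j) ^ 2 ≤ 2 / x - 2 / (x + J) := by
    intro J
    induction J with
    | zero => simp
    | succ J ih =>
      rw [Finset.sum_range_succ]
      have hJ : (0 : ℝ) ≤ J := Nat.cast_nonneg J
      have : 1 / (x + J) ^ 2 ≤ 2 / (x + J) - 2 / (x + (J + 1 : ℕ)) := by
        push_cast
        rw [div_sub_div _ _ (by linarith) (by linarith),
          div_le_div_iff₀ (by positivity) (by positivity)]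
        nlinarith [mul_nonneg (show 0 ≤ x + J by linarith) (show 0 ≤ x + J - 1 by linarith)]
      linarith
  have := key J
  have h2 : 0 ≤ 2 / (x + J) := by positivity
  linarith

/-- The bound for one block, in a summable form. -/
theorem tail_block_sum {N T R L s : ℝ} (j : ℕ) (hN : 1 ≤ N) (hT : 32000 ≤ T) (hRN : N / 5 ≤ R)
    (hL : L ≤ N / 400)
    (h1 : s ≤ L * (20 / R) ^ 3 + 32 / ((j + 1) * T / 8000) ^ 2)
    (h2 : s ≤ L * (1 / ((j + 1) * T / 8000) ^ 3)) :
    s ≤ 10000 * (1 / (N + j) ^ 2) + 32 * 8000 ^ 2 / T ^ 2 * (1 / (1 + j) ^ 2) := by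
  have hj : (0 : ℝ) ≤ j := Nat.cast_nonneg j
  have hT0 : 0 < T := by linarith
  have hN0 : 0 < N := by linarith
  have e1 : 32 / ((j + 1) * T / 8000) ^ 2 = 32 * 8000 ^ 2 / T ^ 2 * (1 / (1 + j) ^ 2) := by
    field_simp; ring
  have p1 : 0 ≤ 32 * 8000 ^ 2 / T ^ 2 * (1 / (1 + (j : ℝ)) ^ 2) := by positivity
  rcases le_total (j : ℝ) N with h | h
  · have a1 : 20 / R ≤ 100 / N := by
      rw [div_le_div_iff₀ (by linarith) hN0]; linarith
    have a0 : 0 ≤ 20 / R := div_nonneg (by norm_num) (by linarith)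
    have a2 : L * (20 / R) ^ 3 ≤ N / 400 * (100 / N) ^ 3 := by gcongr
    have a3 : N / 400 * (100 / N) ^ 3 = 10000 * (1 / (2 * N) ^ 2) := by field_simp; norm_num
    have a4 : 1 / (2 * N) ^ 2 ≤ 1 / (N + j) ^ 2 :=
      one_div_le_one_div_of_le (by positivity) (by gcongr; linarith)
    linarith
  · have a1 : N + j ≤ 2 * ((j + 1) * T / 8000) := by nlinarith
    have a2 : N ≤ (j + 1) * T / 8000 := by nlinarith
    have a3 : N * ((N + j) / 2) ^ 2 ≤ ((j + 1) * T / 8000) ^ 3 := by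
      rw [pow_succ' _ 2]
      exact mul_le_mul a2 (pow_le_pow_left₀ (by positivity) (by linarith) 2) (by positivity)
        (by positivity)
    have a4 : L * (1 / ((j + 1) * T / 8000) ^ 3) ≤ N / 400 * (1 / (N * ((N + j) / 2) ^ 2)) := by
      gcongr
    have a5 : N / 400 * (1 / (N * ((N + j) / 2) ^ 2)) = 1 / 100 * (1 / (N + j) ^ 2) := by
      field_simp; norm_num
    have a6 : 0 ≤ 1 / (N + j) ^ 2 := by positivity
    linarith

/-- Orbits that start above the resonant circle spiral outwards. -/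
theorem tail : ∃ (N₀ : ℕ) (C : ℝ), 1 ≤ C ∧ ∀ N : ℕ, N₀ ≤ N → ∀ (T : ℝ) (lam : ℂ),
    C * Real.log N ≤ T → T ^ 2 ≤ N → ‖lam‖ ≤ Real.exp (-(T / N ^ 2)) →
    ‖lam - ee (1 / N)‖ ≤ T / N ^ 2 → ∀ u : ℂ,
    ‖2 / (1 - lam)‖ + T / 20 ≤ ‖u - 2 / (1 - lam)‖ →
    (∀ k : ℕ, 4 ≤ ‖(Fu lam)^[k] u‖ ∧ ‖2 / (1 - lam)‖ ≤ ‖(Fu lam)^[k] u - 2 / (1 - lam)‖ ∧
      (k : ℝ) * T / (C * N) ≤ ‖(Fu lam)^[k] u‖) ∧
    ∀ n : ℕ, ∑ k ∈ Finset.range n, 1 / ‖(Fu lam)^[k] u‖ ^ 3 ≤ C * (1 / T ^ 2 + 1 / N) := by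
  refine ⟨5000, 10 ^ 10, by norm_num, ?_⟩
  intro N hN T lam hT hTN hl hle u hu
  have hNr : (5000 : ℝ) ≤ N := by exact_mod_cast hN
  have hN0 : (0 : ℝ) < N := by linarith
  have hlog : 1 ≤ Real.log N := by
    rw [Real.le_log_iff_exp_le hN0]
    have := Real.exp_one_lt_d9
    linarith
  have hT1 : 10 ^ 10 ≤ T := by linarith only [hT, hlog]
  have hT0 : 0 < T := by linarith
  have hTN' : T ≤ N := by nlinarith only [hT1, hTN]
  set δ := T / (N : ℝ) ^ 2 with hδ
  have hδ0 : 0 ≤ δ := by positivity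
  have hδN : δ ≤ 1 / N := by
    rw [hδ, div_le_div_iff₀ (by positivity) hN0]; nlinarith only [hTN', hN0]
  have hN1 : 1 / (N : ℝ) ≤ 1 / 5000 := one_div_le_one_div_of_le (by norm_num) hNr
  have hl0 : lam ≠ 0 := by
    intro h
    rw [h, zero_sub, norm_neg, norm_ee] at hle
    linarith
  obtain ⟨b1, b2⟩ := norm_ustar_bounds (x := N) (r := 1) (by linarith)
    (by have : 0 ≤ 1 / (N : ℝ) ^ 2 := by positivity
        linarith) le_rfl
  simp only [Complex.ofReal_one, one_mul, norm_div, Complex.norm_ofNat] at b1 b2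
  have he0 : 0 < ‖1 - ee (1 / N)‖ := by
    rcases (norm_nonneg (1 - ee (1 / N))).lt_or_eq with h | h
    · exact h
    · rw [← h, div_zero] at b1; linarith
  have c1 : ‖1 - ee (1 / N)‖ ≤ 8 / N := by
    rw [le_div_iff₀ he0] at b1
    rw [le_div_iff₀ hN0]; linarith
  have c2 : 4 / N ≤ ‖1 - ee (1 / N)‖ := by
    rw [div_le_iff₀ he0] at b2
    rw [div_le_iff₀ hN0]; linarith
  have c3 : ‖1 - lam‖ ≤ 9 / N := by
    have := norm_sub_le_norm_sub_add_norm_sub (1 : ℂ) (ee (1 / N)) lam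
    rw [norm_sub_rev (ee (1 / N)) lam] at this
    have e : 9 / (N : ℝ) = 8 / N + 1 / N := by ring
    linarith
  have c4 : 3 / N ≤ ‖1 - lam‖ := by
    have := norm_sub_le_norm_sub_add_norm_sub (1 : ℂ) lam (ee (1 / N))
    have e : 3 / (N : ℝ) = 4 / N - 1 / N := by ring
    linarith
  have c5 : 0 < ‖1 - lam‖ := lt_of_lt_of_le (by positivity) c4
  obtain ⟨R, hRe⟩ : ∃ R, ‖2 / (1 - lam)‖ = R := ⟨_, rfl⟩
  have hRe' : R = 2 / ‖1 - lam‖ := by rw [← hRe, norm_div, Complex.norm_ofNat]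
  have h1 : ‖1 - lam‖ = 2 / R := by rw [hRe']; field_simp
  have hRlo : N / 5 ≤ R := by
    rw [hRe', le_div_iff₀ c5]
    rw [le_div_iff₀ hN0] at c3; linarith
  have hRhi : R ≤ N := by
    rw [hRe', div_le_iff₀ c5]
    rw [div_le_iff₀ hN0] at c4; linarith
  have hR : 1000 ≤ R := by linarith
  have hS : 1 + 4 * Real.log (1 + R) ≤ T / 16000 := by
    have a1 : Real.log (1 + R) ≤ Real.log (N * N) :=
      Real.log_le_log (by linarith) (by nlinarith only [hRhi, hNr])
    rw [Real.log_mul hN0.ne' hN0.ne'] at a1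
    linarith
  obtain ⟨L, hLdef⟩ : ∃ L : ℕ, L = N / 400 := ⟨_, rfl⟩
  have hLpos : 0 < L := by omega
  have hL1 : (L : ℝ) ≤ N / 400 := by
    have : 400 * L ≤ N := by omega
    have : (400 : ℝ) * L ≤ N := by exact_mod_cast this
    linarith
  have hL2 : (N : ℝ) / 800 ≤ L := by
    have : N ≤ 800 * L := by omega
    have : (N : ℝ) ≤ 800 * L := by exact_mod_cast this
    linarith
  have hL3 : 3 * (L : ℝ) ≤ R / 20 := by linarith
  have hgain : T / 4000 ≤ L * (δ * R) := by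
    calc T / 4000 = N / 800 * (δ * (N / 5)) := by rw [hδ]; field_simp; norm_num
      _ ≤ L * (δ * R) := by gcongr
  rw [hRe] at hu ⊢
  have hblk := tail_block hR h1 hRe hl0 hδ0 (by linarith) hl hS
  have hstart : ∀ j : ℕ, R + (T / 20 + j * T / 8000) ≤
      ‖(Fu lam)^[j * L] u - 2 / (1 - lam)‖ := by
    intro j
    induction j with
    | zero => simpa using hu
    | succ j ih =>
      have hj : 0 ≤ (j : ℝ) * T / 8000 := by positivity
      have := hblk _ _ (by linarith) ih L hL3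
      rw [← Function.iterate_add_apply] at this
      rw [show (j + 1) * L = L + j * L by ring]
      push_cast
      linarith
  have hin : ∀ j i : ℕ, i ≤ L → R + (j + 1) * T / 8000 ≤
      ‖(Fu lam)^[i] ((Fu lam)^[j * L] u) - 2 / (1 - lam)‖ := by
    intro j i hi
    have hi' : (i : ℝ) ≤ L := by exact_mod_cast hi
    have hj : 0 ≤ (j : ℝ) * T / 8000 := by positivity
    have a1 := hblk _ _ (by linarith) (hstart j) i (by linarith)
    have a2 : 0 ≤ (i : ℝ) * (δ * R) := by positivity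
    linarith
  have hin' : ∀ j i : ℕ, i ≤ L → (j + 1) * T / 8000 ≤ ‖(Fu lam)^[i] ((Fu lam)^[j * L] u)‖ := by
    intro j i hi
    have a1 := hin j i hi
    have a2 := tail_norm_ge (2 / (1 - lam)) ((Fu lam)^[i] ((Fu lam)^[j * L] u))
    rw [hRe] at a2
    linarith
  have h4 : ∀ j : ℕ, 4 ≤ ((j : ℝ) + 1) * T / 8000 := by
    intro j
    have hj : (0 : ℝ) ≤ j * T := mul_nonneg (Nat.cast_nonneg j) hT0.le
    linarith only [hj, hT1]
  constructor
  · intro k
    have hk : k = k % L + k / L * L := (Nat.mod_add_div' k L).symm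
    have hlt := Nat.mod_lt k hLpos
    have a1 := hin (k / L) (k % L) hlt.le
    have a2 := hin' (k / L) (k % L) hlt.le
    rw [← Function.iterate_add_apply, ← hk] at a1 a2
    have a3 := h4 (k / L)
    refine ⟨by linarith, by linarith, le_trans ?_ a2⟩
    have a4 : (k : ℝ) ≤ ((k / L : ℕ) + 1) * L := by
      have : k ≤ (k / L + 1) * L := by
        rw [add_mul, one_mul]; omega
      exact_mod_cast this
    have a5 : (0 : ℝ) ≤ ((k / L : ℕ) : ℝ) + 1 := by positivity
    have a6 : (k : ℝ) ≤ ((k / L : ℕ) + 1) * N :=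
      a4.trans (mul_le_mul_of_nonneg_left (by linarith) a5)
    rw [div_le_div_iff₀ (by positivity) (by norm_num)]
    have a7 : (k : ℝ) * T ≤ ((k / L : ℕ) + 1) * N * T := mul_le_mul_of_nonneg_right a6 hT0.le
    have a8 : 0 ≤ (((k / L : ℕ) : ℝ) + 1) * N * T := by positivity
    linarith only [a7, a8]
  · intro n
    have hb : ∀ j : ℕ, ∑ i ∈ Finset.range L, 1 / ‖(Fu lam)^[j * L + i] u‖ ^ 3 ≤
        10000 * (1 / ((N : ℝ) + j) ^ 2) + 32 * 8000 ^ 2 / T ^ 2 * (1 / (1 + (j : ℝ)) ^ 2) := by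
      intro j
      simp only [add_comm (j * L), Function.iterate_add_apply]
      refine tail_block_sum (R := R) (L := L) j (by linarith) (by linarith) hRlo hL1 ?_ ?_
      · exact tail_sum3 hR h1 (h4 j) L _ hL3 fun i hi => hin' j i hi.le
      · have := Finset.sum_le_card_nsmul (Finset.range L)
          (fun i => 1 / ‖(Fu lam)^[i] ((Fu lam)^[j * L] u)‖ ^ 3)
          (1 / ((j + 1) * T / 8000) ^ 3) fun i hi => by
            have a1 := hin' j i (Finset.mem_range.1 hi).le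
            have a2 := h4 j
            exact one_div_le_one_div_of_le (pow_pos (by linarith) 3) (by gcongr)
        simpa using this
    have hJ : ∀ J : ℕ, ∑ k ∈ Finset.range (J * L), 1 / ‖(Fu lam)^[k] u‖ ^ 3 ≤
        ∑ j ∈ Finset.range J, (10000 * (1 / ((N : ℝ) + j) ^ 2) +
          32 * 8000 ^ 2 / T ^ 2 * (1 / (1 + (j : ℝ)) ^ 2)) := by
      intro J
      induction J with
      | zero => simp
      | succ J ih =>
        rw [add_mul, one_mul, Finset.sum_range_add, Finset.sum_range_succ]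
        exact add_le_add ih (hb J)
    have a1 : ∑ k ∈ Finset.range n, 1 / ‖(Fu lam)^[k] u‖ ^ 3 ≤
        ∑ k ∈ Finset.range (n * L), 1 / ‖(Fu lam)^[k] u‖ ^ 3 :=
      Finset.sum_le_sum_of_subset_of_nonneg
        (Finset.range_subset_range.2 (Nat.le_mul_of_pos_right n hLpos)) fun _ _ _ => by positivity
    have a2 := hJ n
    rw [Finset.sum_add_distrib, ← Finset.mul_sum, ← Finset.mul_sum] at a2
    have a3 := tail_sq_sum (x := N) (by linarith) n
    have a4 := tail_sq_sum (x := 1) le_rfl n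
    have a5 : 32 * 8000 ^ 2 / T ^ 2 * ∑ j ∈ Finset.range n, 1 / (1 + (j : ℝ)) ^ 2 ≤
        32 * 8000 ^ 2 / T ^ 2 * (2 / 1) := mul_le_mul_of_nonneg_left a4 (by positivity)
    have e1 : 32 * 8000 ^ 2 / T ^ 2 * (2 / 1) = 64 * 8000 ^ 2 * (1 / T ^ 2) := by ring
    have e2 : 2 / (N : ℝ) = 2 * (1 / N) := by ring
    have p1 : 0 ≤ 1 / T ^ 2 := by positivity
    have p2 : 0 ≤ 1 / (N : ℝ) := by positivity
    linarith

end Pool.Agent.Lib.MP_102662_an
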