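import Pool.Agent.Lib.MP_102662_an.WestX1

open Complex Metric Set Filter Topology

namespace Pool.Agent.Lib.MP_102662_an

/-- The almost invariant vector field. -/
noncomputable def wX (lam u : ℂ) : ℂ := u - 2 / (1 - lam) + 2 / (1 - lam ^ 2) / u

theorem west_ratio {lam v : ℂ} {s : ℝ} (hl1 : lam ≠ 1) (hl : ‖lam - 1‖ ≤ 1 / 10)
    (h : ∀ k : ℕ, 4 ≤ ‖(Fu lam)^[k] v‖ ∧ ‖2 / (1 - lam)‖ ≤ ‖(Fu lam)^[k] v - 2 / (1 - lam)‖)
    (hsum : ∀ n : ℕ, ∑ k ∈ Finset.range n, 1 / ‖(Fu lam)^[k] v‖ ^ 3 ≤ s) (hs : 20 * s ≤ 1)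
    (k : ℕ) :
    ‖(∏ j ∈ Finset.range k, (1 - 1 / ((Fu lam)^[j] v) ^ 2)) * wX lam v -
        lam ^ k * wX lam ((Fu lam)^[k] v)‖ ≤
      40 * s * ‖(∏ j ∈ Finset.range k, (1 - 1 / ((Fu lam)^[j] v) ^ 2)) * wX lam v‖ := by
  set E : ℕ → ℂ := fun j => lam * wX lam (Fu lam ((Fu lam)^[j] v)) /
    ((1 - 1 / ((Fu lam)^[j] v) ^ 2) * wX lam ((Fu lam)^[j] v)) - 1 with hE
  have hb : ∀ j, wX lam ((Fu lam)^[j] v) ≠ 0 ∧ ‖E j‖ ≤ 20 / ‖(Fu lam)^[j] v‖ ^ 3 := fun j =>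
    ebound_aux lam _ hl1 hl (h j).1 (h j).2
  have hw0 : ∀ j, 1 - 1 / ((Fu lam)^[j] v) ^ 2 ≠ 0 := by
    intro j h0
    have h1 : ‖1 / ((Fu lam)^[j] v) ^ 2‖ = 1 := by
      rw [← sub_eq_zero.1 h0, norm_one]
    have h2 := (h j).1
    rw [norm_div, norm_one, norm_pow, div_eq_one_iff_eq (by positivity)] at h1
    nlinarith
  have hid : ∀ k : ℕ, lam ^ k * wX lam ((Fu lam)^[k] v) =
      (∏ j ∈ Finset.range k, (1 - 1 / ((Fu lam)^[j] v) ^ 2)) * wX lam v *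
        ∏ j ∈ Finset.range k, (1 + E j) := by
    intro k
    induction k with
    | zero => simp
    | succ k ih =>
      rw [Finset.prod_range_succ, Finset.prod_range_succ, Function.iterate_succ_apply']
      have e1 : lam * wX lam (Fu lam ((Fu lam)^[k] v)) =
          (1 + E k) * ((1 - 1 / ((Fu lam)^[k] v) ^ 2) * wX lam ((Fu lam)^[k] v)) := by
        simp only [hE]
        rw [add_sub_cancel, div_mul_cancel₀ _ (mul_ne_zero (hw0 k) (hb k).1)]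
      linear_combination lam ^ k * e1 +
        (1 + E k) * (1 - 1 / ((Fu lam)^[k] v) ^ 2) * ih
  have hS : ∑ j ∈ Finset.range k, ‖E j‖ ≤ 20 * s := by
    refine le_trans (Finset.sum_le_sum fun j _ => (hb j).2) ?_
    have := hsum k
    have e : ∑ j ∈ Finset.range k, 20 / ‖(Fu lam)^[j] v‖ ^ 3 =
        20 * ∑ j ∈ Finset.range k, 1 / ‖(Fu lam)^[j] v‖ ^ 3 := by
      rw [Finset.mul_sum]
      exact Finset.sum_congr rfl fun j _ => by ring
    rw [e]; linarith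
  have hS0 : 0 ≤ ∑ j ∈ Finset.range k, ‖E j‖ := Finset.sum_nonneg fun j _ => norm_nonneg _
  have hP : ‖∏ j ∈ Finset.range k, (1 + E j) - 1‖ ≤ 40 * s := by
    refine ((Finset.range k).norm_prod_one_add_sub_one_le E).trans ?_
    have h1 := Real.abs_exp_sub_one_le (x := ∑ j ∈ Finset.range k, ‖E j‖)
      (by rw [abs_of_nonneg hS0]; linarith)
    rw [abs_of_nonneg hS0] at h1
    have := le_abs_self (Real.exp (∑ j ∈ Finset.range k, ‖E j‖) - 1)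
    linarith
  rw [hid k, ← mul_one_sub, norm_mul _ (1 - _), mul_comm, norm_sub_rev]
  exact mul_le_mul_of_nonneg_right hP (norm_nonneg _)

theorem west_pass {lam u w w' : ℂ} {s : ℝ} {m : ℕ} (h0 : lam ≠ 0) (h1 : ‖lam‖ < 1)
    (hl : ‖lam - 1‖ ≤ 1 / 10) (h2 : ∀ n : ℕ, 2 ≤ ‖(Fu lam)^[n] u‖)
    (h : ∀ k : ℕ, 4 ≤ ‖(Fu lam)^[k] ((Fu lam)^[m] u)‖ ∧
      ‖2 / (1 - lam)‖ ≤ ‖(Fu lam)^[k] ((Fu lam)^[m] u) - 2 / (1 - lam)‖)
    (hsum : ∀ n : ℕ, ∑ k ∈ Finset.range n, 1 / ‖(Fu lam)^[k] ((Fu lam)^[m] u)‖ ^ 3 ≤ s)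
    (hs : 20 * s ≤ 1)
    (hw : Tendsto (fun n : ℕ => lam ^ n * (Fu lam)^[n] u) atTop (𝓝 w))
    (hw' : Tendsto (fun n : ℕ => (∏ k ∈ Finset.range n, (1 - 1 / ((Fu lam)^[k] u) ^ 2)) / lam)
      atTop (𝓝 w')) :
    ‖w' * (lam * (lam ^ m * wX lam ((Fu lam)^[m] u))) -
        (∏ k ∈ Finset.range m, (1 - 1 / ((Fu lam)^[k] u) ^ 2)) * w‖ ≤
      40 * s * ‖w' * (lam * (lam ^ m * wX lam ((Fu lam)^[m] u)))‖ := by
  have hl1 : lam ≠ 1 := by
    intro h; rw [h, norm_one] at h1; exact lt_irrefl _ h1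
  have hz : Tendsto (fun n : ℕ => lam ^ n * (2 / (1 - lam) - 2 / (1 - lam ^ 2) / (Fu lam)^[n] u))
      atTop (𝓝 0) := by
    have hg : Tendsto (fun n : ℕ => ‖lam‖ ^ n * (‖2 / (1 - lam)‖ + ‖2 / (1 - lam ^ 2)‖))
        atTop (𝓝 0) := by
      have := (tendsto_pow_atTop_nhds_zero_of_lt_one (norm_nonneg lam) h1).mul_const
        (‖2 / (1 - lam)‖ + ‖2 / (1 - lam ^ 2)‖)
      rwa [zero_mul] at this
    refine squeeze_zero_norm (fun n => ?_) hg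
    rw [norm_mul, norm_pow]
    apply mul_le_mul_of_nonneg_left _ (by positivity)
    refine (norm_sub_le _ _).trans ?_
    have : ‖2 / (1 - lam ^ 2) / (Fu lam)^[n] u‖ ≤ ‖2 / (1 - lam ^ 2)‖ := by
      rw [norm_div]
      exact div_le_self (norm_nonneg _) (by linarith [h2 n])
    linarith
  have hX : Tendsto (fun n : ℕ => lam ^ n * wX lam ((Fu lam)^[n] u)) atTop (𝓝 w) := by
    have := hw.sub hz
    rw [sub_zero] at this
    refine this.congr fun n => ?_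
    unfold wX; ring
  set Z := lam ^ m * wX lam ((Fu lam)^[m] u) with hZ
  set P := ∏ k ∈ Finset.range m, (1 - 1 / ((Fu lam)^[k] u) ^ 2) with hP
  have hf := ((tendsto_add_atTop_iff_nat m).2 hw').mul_const (lam * Z)
  have hg := ((tendsto_add_atTop_iff_nat m).2 hX).const_mul P
  refine le_of_tendsto_of_tendsto' (hf.sub hg).norm (hf.norm.const_mul (40 * s)) fun k => ?_
  have hr := west_ratio hl1 hl h hsum hs k
  have e1 : (∏ j ∈ Finset.range (k + m), (1 - 1 / ((Fu lam)^[j] u) ^ 2)) / lam * (lam * Z) =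
      (P * lam ^ m) * ((∏ j ∈ Finset.range k, (1 - 1 / ((Fu lam)^[j] ((Fu lam)^[m] u)) ^ 2)) *
        wX lam ((Fu lam)^[m] u)) := by
    rw [add_comm k m, Finset.prod_range_add, ← hP, hZ]
    have e : ∀ j, (Fu lam)^[m + j] u = (Fu lam)^[j] ((Fu lam)^[m] u) := by
      intro j; rw [add_comm, Function.iterate_add_apply]
    simp only [e]
    generalize (∏ j ∈ Finset.range k, (1 - 1 / ((Fu lam)^[j] ((Fu lam)^[m] u)) ^ 2)) = Q
    field_simp
  have e2 : P * (lam ^ (k + m) * wX lam ((Fu lam)^[k + m] u)) =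
      (P * lam ^ m) * (lam ^ k * wX lam ((Fu lam)^[k] ((Fu lam)^[m] u))) := by
    rw [Function.iterate_add_apply]; ring
  rw [e1, e2, ← mul_sub, norm_mul, norm_mul (P * lam ^ m)]
  have := mul_le_mul_of_nonneg_left hr (norm_nonneg (P * lam ^ m))
  linarith

theorem west_alg {D Z P w : ℂ} {e₁ e₂ C : ℝ} (h : ‖D * Z - P * w‖ ≤ e₁ * ‖D * Z‖)
    (h0 : 0 ≤ e₁) (h1 : e₁ ≤ 1 / 2) (hZ : ‖Z - 1‖ ≤ e₂) (h2 : e₂ ≤ 1 / 2) (hP : ‖P‖ ≤ C) :
    ‖D‖ ≤ 4 * C * ‖w‖ ∧ ‖D - P * w‖ ≤ (4 * C * e₂ + 2 * C * e₁) * ‖w‖ := by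
  have a1 : ‖P * w‖ ≤ C * ‖w‖ := by
    rw [norm_mul]; exact mul_le_mul_of_nonneg_right hP (norm_nonneg _)
  have a2 : ‖D * Z‖ ≤ 2 * (C * ‖w‖) := by
    have := norm_sub_norm_le (D * Z) (P * w)
    nlinarith [norm_nonneg (D * Z)]
  have a3 : 1 / 2 ≤ ‖Z‖ := by
    have := norm_sub_norm_le 1 Z
    rw [norm_one, norm_sub_rev] at this
    linarith
  have a4 : ‖D‖ ≤ 4 * C * ‖w‖ := by
    rw [norm_mul] at a2
    nlinarith [norm_nonneg D]
  refine ⟨a4, ?_⟩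
  have e : D - P * w = (D * Z - P * w) - D * (Z - 1) := by ring
  have a5 := norm_sub_le (D * Z - P * w) (D * (Z - 1))
  rw [← e, norm_mul D (Z - 1)] at a5
  have a6 : ‖D‖ * ‖Z - 1‖ ≤ 4 * C * ‖w‖ * e₂ :=
    mul_le_mul a4 hZ (norm_nonneg _) ((norm_nonneg _).trans a4)
  have a7 : e₁ * ‖D * Z‖ ≤ e₁ * (2 * (C * ‖w‖)) := mul_le_mul_of_nonneg_left a2 h0
  linarith

theorem west_height {N T R B x q m : ℝ} (hN : 10000 ≤ N) (hT : 1 ≤ T) (hTN : T / N ≤ 1 / 100)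
    (hR : N / 4 ≤ R) (hB0 : 0 ≤ B) (hB : B ≤ T / 40) (hx : 0 ≤ x)
    (hq : q ≤ Real.exp (-(m * (T / N ^ 2)))) (hm1 : N - 1 ≤ 2 * m) (hm2 : 2 * m ≤ N)
    (h : R - B ≤ q * x) : R + T / 20 ≤ x := by
  have hN0 : 0 < N := by linarith
  set d := m * (T / N ^ 2) with hd
  have hd0 : 0 ≤ d := by
    have : 0 ≤ m := by linarith
    positivity
  have hdN : d * N = (m / N) * T := by rw [hd]; field_simp
  have hmN : 9 / 20 ≤ m / N := by rw [le_div_iff₀ hN0]; linarith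
  have hmN2 : m / N ≤ 1 := by rw [div_le_one hN0]; linarith
  have hd1 : d ≤ 1 := by
    have e : d = (m / N) * (T / N) := by rw [hd]; field_simp
    have : 0 ≤ T / N := by positivity
    nlinarith
  have h1 : (1 + d) * q ≤ 1 := by
    have h2 : 1 + d ≤ Real.exp d := by linarith [Real.add_one_le_exp d]
    have h3 : Real.exp d * Real.exp (-d) = 1 := by rw [← Real.exp_add]; simp
    have h4 : (1 + d) * q ≤ (1 + d) * Real.exp (-d) := mul_le_mul_of_nonneg_left hq (by linarith)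
    have h5 : (1 + d) * Real.exp (-d) ≤ Real.exp d * Real.exp (-d) :=
      mul_le_mul_of_nonneg_right h2 (Real.exp_pos _).le
    linarith
  have h2 : (1 + d) * (R - B) ≤ x := by
    have h3 : (1 + d) * (R - B) ≤ (1 + d) * (q * x) := mul_le_mul_of_nonneg_left h (by linarith)
    have h4 : (1 + d) * q * x ≤ 1 * x := mul_le_mul_of_nonneg_right h1 hx
    linarith
  have h3 : d * (N / 4) ≤ d * R := mul_le_mul_of_nonneg_left hR hd0
  have h4 : 9 / 20 * T ≤ (m / N) * T := mul_le_mul_of_nonneg_right hmN (by linarith)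
  have h5 : d * B ≤ 1 * B := mul_le_mul_of_nonneg_right hd1 hB0
  nlinarith

/-- The last step: from the pointwise estimate to the normalized derivative. -/
theorem west_final {W P : ℂ → ℂ} {N C e : ℝ} (hN : 0 < N) (hC : 1 ≤ C) (hCN : 13 * C / N ≤ 2)
    (hW : DifferentiableOn ℂ W (ball 0 (1 / 4))) (hW0 : W 0 ≠ 0) (he : 0 ≤ e)
    (h1 : ∀ y ∈ ball (0 : ℂ) (1 / 4), ‖deriv W y * N / (Real.pi * I)‖ ≤ 4 * C * ‖W y‖)
    (h2 : ∀ y ∈ ball (0 : ℂ) (1 / 4), ‖deriv W y * N / (Real.pi * I) - P y * W y‖ ≤ e * ‖W y‖)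
    (h3 : ∀ y ∈ ball (0 : ℂ) (1 / 4), ‖P y‖ ≤ C) (h4 : 1 / C ≤ (P 0).re)
    (h5 : 2 * e + 7 * C ^ 2 / N ≤ 1 / (2 * C)) :
    ∀ y ∈ ball (0 : ℂ) (1 / (256 * C ^ 2)),
      1 / (4 * C) ≤ (deriv W y / W 0 * N / (Real.pi * I)).re ∧
      ‖deriv W y / W 0 * N / (Real.pi * I)‖ ≤ 8 * C ∧
      ‖deriv W y / W 0 * N / (Real.pi * I) - P y‖ ≤ 2 * e + 7 * C ^ 2 / N := by
  have hpi2 : Real.pi < 3.15 := Real.pi_lt_d2
  have hpi := Real.pi_pos
  have hw0 : 0 < ‖W 0‖ := norm_pos_iff.2 hW0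
  have hd : ∀ y ∈ ball (0 : ℂ) (1 / 4), ‖deriv W y‖ ≤ 13 * C / N * ‖W y‖ := by
    intro y hy
    have h6 := h1 y hy
    rw [norm_div, norm_mul, norm_mul, Complex.norm_I, Complex.norm_real, Complex.norm_real,
      Real.norm_of_nonneg hpi.le, Real.norm_of_nonneg hN.le, mul_one, div_le_iff₀ hpi] at h6
    rw [div_mul_eq_mul_div, le_div_iff₀ hN]
    have : 0 ≤ C * ‖W y‖ := by positivity
    nlinarith
  have hg := west_gronwall (by positivity) hCN hW hd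
  set M : ℂ → ℂ := fun y => deriv W y / W 0 * N / (Real.pi * I) with hM
  have hMe : ∀ y, M y = deriv W y * N / (Real.pi * I) / W 0 := by
    intro y; simp only [hM]; ring
  have b1 : ∀ y ∈ ball (0 : ℂ) (1 / 4), ‖M y‖ ≤ 8 * C := by
    intro y hy
    rw [hMe, norm_div, div_le_iff₀ hw0]
    have := mul_le_mul_of_nonneg_left (hg y hy).1 (by positivity : 0 ≤ 4 * C)
    linarith [h1 y hy]
  have b2 : ∀ y ∈ ball (0 : ℂ) (1 / 4), ‖M y - P y‖ ≤ 2 * e + 7 * C ^ 2 / N := by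
    intro y hy
    have e1 : M y - P y =
        ((deriv W y * N / (Real.pi * I) - P y * W y) + P y * (W y - W 0)) / W 0 := by
      rw [hMe]; field_simp; ring
    rw [e1, norm_div, div_le_iff₀ hw0]
    have t1 := norm_add_le (deriv W y * N / (Real.pi * I) - P y * W y) (P y * (W y - W 0))
    have t2 : ‖P y * (W y - W 0)‖ ≤ C * (13 * C / N / 2 * ‖W 0‖) := by
      rw [norm_mul]
      exact mul_le_mul (h3 y hy) (hg y hy).2 (norm_nonneg _) (by linarith)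
    have t3 := mul_le_mul_of_nonneg_left (hg y hy).1 he
    have t4 := h2 y hy
    have t5 : 0 ≤ C ^ 2 / N * ‖W 0‖ := by positivity
    have e2 : C * (13 * C / N / 2 * ‖W 0‖) = 13 / 2 * (C ^ 2 / N * ‖W 0‖) := by ring
    have e3 : (2 * e + 7 * C ^ 2 / N) * ‖W 0‖ = e * (2 * ‖W 0‖) + 7 * (C ^ 2 / N * ‖W 0‖) := by
      ring
    linarith
  have hMd : DifferentiableOn ℂ M (ball 0 (1 / 4)) :=
    (((hW.deriv isOpen_ball).div_const _).mul_const _).div_const _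
  have h00 : (0 : ℂ) ∈ ball (0 : ℂ) (1 / 4) := mem_ball_self (by norm_num)
  have hmaps : MapsTo M (ball 0 (1 / 4)) (closedBall (M 0) (16 * C)) := by
    intro y hy
    rw [mem_closedBall, dist_eq_norm]
    have := norm_sub_le (M y) (M 0)
    linarith [b1 y hy, b1 0 h00]
  intro y hy
  have hy1 : ‖y‖ < 1 / (256 * C ^ 2) := by simpa using hy
  have hr : 1 / (256 * C ^ 2) ≤ 1 / 4 := by
    apply one_div_le_one_div_of_le (by norm_num)
    nlinarith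
  have hy2 : y ∈ ball (0 : ℂ) (1 / 4) := ball_subset_ball hr hy
  refine ⟨?_, b1 y hy2, b2 y hy2⟩
  have s1 := Complex.dist_le_div_mul_dist_of_mapsTo_ball hMd hmaps hy2
  rw [dist_eq_norm, dist_zero_right] at s1
  have s2 : 16 * C / (1 / 4) * ‖y‖ ≤ 1 / (4 * C) := by
    have e1 : 1 / (4 * C) = 16 * C / (1 / 4) * (1 / (256 * C ^ 2)) := by
      field_simp; norm_num
    rw [e1]
    exact mul_le_mul_of_nonneg_left hy1.le (by positivity)
  have s3 := Complex.abs_re_le_norm (M y - M 0)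
  have s4 := Complex.abs_re_le_norm (M 0 - P 0)
  rw [Complex.sub_re] at s3 s4
  have s5 := b2 0 h00
  have s6 := neg_abs_le ((M y).re - (M 0).re)
  have s7 := neg_abs_le ((M 0).re - (P 0).re)
  have e1 : 1 / C = 4 * (1 / (4 * C)) := by field_simp
  have e2 : 1 / (2 * C) = 2 * (1 / (4 * C)) := by field_simp; norm_num
  show 1 / (4 * C) ≤ (M y).re
  linarith

end Pool.Agent.Lib.MP_102662_an
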