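import Pool.Agent.Lib.MP_102662_an.Fwd
import Pool.Agent.Lib.MP_102662_an.Tail
import Pool.Agent.Lib.MP_102662_an.WestX2

open Complex Metric Set Filter Topology

namespace Pool.Agent.Lib.MP_102662_an

/-- An almost invariant vector field. -/
theorem ebound : ∃ C : ℝ, 1 ≤ C ∧ ∀ lam u : ℂ, lam ≠ 1 → ‖lam - 1‖ ≤ 1 / 10 → 4 ≤ ‖u‖ →
    ‖2 / (1 - lam)‖ ≤ ‖u - 2 / (1 - lam)‖ →
    u - 2 / (1 - lam) + 2 / (1 - lam ^ 2) / u ≠ 0 ∧
    ‖lam * (Fu lam u - 2 / (1 - lam) + 2 / (1 - lam ^ 2) / Fu lam u) /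
        ((1 - 1 / u ^ 2) * (u - 2 / (1 - lam) + 2 / (1 - lam ^ 2) / u)) - 1‖ ≤ C / ‖u‖ ^ 3 :=
  ⟨20, by norm_num, ebound_aux⟩

theorem west_start {N : ℝ} {lam y : ℂ} (hN : 10000 ≤ N) (hl : ‖lam - 1‖ ≤ 8 / N)
    (hy : y ∈ ball (0 : ℂ) (1 / 4)) : ‖(y - 4) / lam + 4‖ ≤ 1 / 2 := by
  have hy1 : ‖y‖ < 1 / 4 := by simpa using hy
  have h1 : 8 / N ≤ 1 / 1000 := by
    rw [div_le_iff₀ (by linarith)]; linarith
  have h2 : 999 / 1000 ≤ ‖lam‖ := by
    have := norm_sub_norm_le 1 lam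
    rw [norm_one, norm_sub_rev] at this
    linarith
  have h0 : lam ≠ 0 := by
    intro h; rw [h, norm_zero] at h2; linarith
  have e : (y - 4) / lam + 4 = (y + 4 * (lam - 1)) / lam := by field_simp; ring
  rw [e, norm_div, div_le_iff₀ (by linarith)]
  have := norm_add_le y (4 * (lam - 1))
  rw [norm_mul] at this
  simp only [Complex.norm_ofNat] at this
  linarith

theorem west_gam {N : ℝ} {lam u : ℂ} (hN : 10000 ≤ N) (h1 : 5 / N ≤ ‖lam - 1‖)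
    (h2 : ‖lam - 1‖ ≤ 8 / N) (hu : N / 4 ≤ ‖u‖) : ‖2 / (1 - lam ^ 2) / u‖ ≤ 1 := by
  have hN0 : 0 < N := by linarith
  have h3 : 8 / N ≤ 1 / 1000 := by
    rw [div_le_iff₀ (by linarith)]; linarith
  have hn2 : 19 / 10 ≤ ‖1 + lam‖ := by
    have e : (2 : ℂ) = (1 + lam) - (lam - 1) := by ring
    have := norm_sub_le (1 + lam) (lam - 1)
    rw [← e] at this
    simp only [Complex.norm_ofNat] at this
    linarith
  have hq : 1 - lam ^ 2 = (1 - lam) * (1 + lam) := by ring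
  have h5 : 0 < 5 / N := by positivity
  rw [hq, div_div, norm_div, norm_mul, norm_mul, norm_sub_rev 1 lam]
  simp only [Complex.norm_ofNat]
  have h6 : 5 / N * (19 / 10) ≤ ‖lam - 1‖ * ‖1 + lam‖ :=
    mul_le_mul h1 hn2 (by norm_num) (norm_nonneg _)
  have h7 : 5 / N * (19 / 10) * (N / 4) ≤ ‖lam - 1‖ * ‖1 + lam‖ * ‖u‖ :=
    mul_le_mul h6 hu (by positivity) (by positivity)
  have e : 5 / N * (19 / 10) * (N / 4) = 19 / 8 := by field_simp; norm_num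
  rw [div_le_one (by linarith)]
  linarith

theorem west_consts {C₁ C₂ K₃ N T : ℝ} (h1 : 1 ≤ C₁) (h2 : 1 ≤ C₂)
    (hK : K₃ = 2 * (176 * C₁ ^ 2 + 80 * C₁ * C₂) + 7 * C₁ ^ 2) (hT : 4 * C₁ * K₃ ≤ T)
    (hTN : T ^ 2 ≤ N) :
    2 * C₁ * K₃ * (1 / T ^ 2 + T / N) ≤ 1 ∧ 80 * C₂ ≤ 2 * C₁ * K₃ ∧ 88 * C₁ ≤ 2 * C₁ * K₃ := by
  have a1 : C₁ ≤ C₁ ^ 2 := by nlinarith
  have a2 : C₂ ≤ C₁ * C₂ := by nlinarith
  have a3 : 160 * C₂ + 359 * C₁ ≤ K₃ := by rw [hK]; nlinarith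
  have a4 : K₃ ≤ C₁ * K₃ := by nlinarith
  have hT1 : 1 ≤ T := by linarith
  have hT0 : 0 < T := by linarith
  have hN0 : 0 < N := by nlinarith
  have b1 : 1 / T ^ 2 ≤ 1 / T := one_div_le_one_div_of_le hT0 (by nlinarith)
  have b2 : T / N ≤ 1 / T := by
    rw [div_le_div_iff₀ hN0 hT0]; nlinarith
  refine ⟨?_, by linarith, by linarith⟩
  have b3 : 2 * C₁ * K₃ * (1 / T ^ 2 + T / N) ≤ 2 * C₁ * K₃ * (2 * (1 / T)) :=
    mul_le_mul_of_nonneg_left (by linarith) (by linarith)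
  have b4 : 2 * C₁ * K₃ * (2 * (1 / T)) = 4 * C₁ * K₃ / T := by ring
  have b5 : 4 * C₁ * K₃ / T ≤ 1 := by rw [div_le_one hT0]; exact hT
  linarith

/-- The linearizing coordinate near the critical value for a strongly attracting multiplier. -/
theorem west : ∃ (N₀ : ℕ) (C r₀ : ℝ), 1 ≤ C ∧ 0 < r₀ ∧ r₀ ≤ 1 / 4 ∧ ∀ N : ℕ, N₀ ≤ N →
    ∀ (T : ℝ) (lam : ℂ), C * Real.log N ≤ T → T ^ 2 ≤ N → ‖lam‖ ≤ Real.exp (-(T / N ^ 2)) →
    ‖lam - ee (1 / N)‖ ≤ T / N ^ 2 →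
    ∃ W : ℂ → ℂ, DifferentiableOn ℂ W (ball 0 r₀) ∧
      (∀ y ∈ ball (0 : ℂ) r₀,
        Tendsto (fun n : ℕ => lam ^ n * (Fu lam)^[n] ((y - 4) / lam)) atTop (𝓝 (W y))) ∧
      (W 0 ≠ 0 → ∀ y ∈ ball (0 : ℂ) r₀,
        1 / C ≤ (deriv W y / W 0 * N / (Real.pi * I)).re ∧
        ‖deriv W y / W 0 * N / (Real.pi * I)‖ ≤ C ∧
        (y.im = 0 → |(deriv W y / W 0 * N / (Real.pi * I)).im| ≤ C * (1 / T ^ 2 + T / N))) := by
  obtain ⟨N₁, hfwd⟩ := fwd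
  obtain ⟨N₂, C₁, hC₁, hprod⟩ := fwd_prod
  obtain ⟨N₃, C₂, hC₂, htail⟩ := tail
  obtain ⟨K₃, hK⟩ : ∃ K₃ : ℝ, K₃ = 2 * (176 * C₁ ^ 2 + 80 * C₁ * C₂) + 7 * C₁ ^ 2 := ⟨_, rfl⟩
  have hK0 : 0 ≤ K₃ := by rw [hK]; positivity
  have hCK : K₃ ≤ C₁ * K₃ := by nlinarith
  have hr : 1 / (256 * C₁ ^ 2) ≤ 1 / 4 := by
    apply one_div_le_one_div_of_le (by norm_num)
    nlinarith
  refine ⟨max (max N₁ N₂) (max N₃ 10000), 4 * C₁ * K₃ + 300 * C₁ + C₂, 1 / (256 * C₁ ^ 2),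
    by linarith, by positivity, hr, ?_⟩
  intro N hN T lam hT hTN hlam hl
  have hN1 : N₁ ≤ N := le_trans (le_trans (le_max_left _ _) (le_max_left _ _)) hN
  have hN2 : N₂ ≤ N := le_trans (le_trans (le_max_right _ _) (le_max_left _ _)) hN
  have hN3 : N₃ ≤ N := le_trans (le_trans (le_max_left _ _) (le_max_right _ _)) hN
  have hN4 : (10000 : ℝ) ≤ N := by
    exact_mod_cast le_trans (le_trans (le_max_right _ _) (le_max_right _ _)) hN
  have hN0 : (0 : ℝ) < N := by linarith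
  have hlog : 1 ≤ Real.log N := by
    rw [Real.le_log_iff_exp_le hN0]
    linarith [Real.exp_one_lt_d9]
  have hT1 : 4 * C₁ * K₃ + 300 * C₁ + C₂ ≤ T := by
    have := mul_le_mul_of_nonneg_left hlog (by linarith : 0 ≤ 4 * C₁ * K₃ + 300 * C₁ + C₂)
    linarith
  have hT2 : C₂ * Real.log N ≤ T := by
    have := mul_le_mul_of_nonneg_right (by linarith : C₂ ≤ 4 * C₁ * K₃ + 300 * C₁ + C₂)
      (by linarith : 0 ≤ Real.log N)
    linarith
  have hT3 : 300 * (C₁ * Real.log N) ≤ T := by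
    have := mul_le_mul_of_nonneg_right (by linarith : 300 * C₁ ≤ 4 * C₁ * K₃ + 300 * C₁ + C₂)
      (by linarith : 0 ≤ Real.log N)
    linarith
  have hT4 : 1 ≤ C₁ * Real.log N := one_le_mul_of_one_le_of_one_le hC₁ hlog
  have hTone : 1 ≤ T := by linarith
  obtain ⟨k1, k2, k3⟩ := west_consts hC₁ hC₂ hK (by linarith : 4 * C₁ * K₃ ≤ T) hTN
  obtain ⟨-, l2, l3, l4⟩ := west_lam hN4 hTone hTN hl
  have hδ : 0 < T / (N : ℝ) ^ 2 := by positivity
  have hl1 : ‖lam‖ < 1 := hlam.trans_lt (Real.exp_lt_one_iff.2 (by linarith))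
  have hl8 : 8 / (N : ℝ) ≤ 1 / 1000 := by
    rw [div_le_iff₀ hN0]; linarith
  have hl0 : lam ≠ 0 := by
    intro h; rw [h, zero_sub, norm_neg, norm_one] at l3; linarith
  have hl2 : ‖lam - ee (1 / N)‖ ≤ 1 / (N * Real.sqrt N) := by
    refine hl.trans ?_
    have hs : T ≤ Real.sqrt N := Real.le_sqrt_of_sq_le hTN
    have hs0 : 0 < Real.sqrt N := Real.sqrt_pos.2 hN0
    have hs2 : Real.sqrt N * Real.sqrt N = N := Real.mul_self_sqrt hN0.le
    rw [div_le_div_iff₀ (by positivity) (by positivity)]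
    have : T * (N * Real.sqrt N) ≤ Real.sqrt N * (N * Real.sqrt N) :=
      mul_le_mul_of_nonneg_right hs (by positivity)
    nlinarith only [this, hs2]
  have hR : (N : ℝ) / 4 ≤ ‖2 / (1 - lam)‖ := by
    have h5 : 0 < 5 / (N : ℝ) := by positivity
    rw [norm_div, norm_sub_rev, le_div_iff₀ (by linarith)]
    simp only [Complex.norm_ofNat]
    have := mul_le_mul_of_nonneg_left l3 (by positivity : 0 ≤ (N : ℝ) / 4)
    have e : (N : ℝ) / 4 * (8 / N) = 2 := by field_simp; norm_num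
    linarith
  set m : ℕ := N / 2 with hm
  have hm1 : (N : ℝ) - 1 ≤ 2 * m := by
    have : N ≤ 2 * m + 1 := by omega
    have : (N : ℝ) ≤ 2 * m + 1 := by exact_mod_cast this
    linarith
  have hm2' : 2 * m ≤ N := by omega
  have hm2 : 2 * (m : ℝ) ≤ N := by exact_mod_cast hm2'
  set ε : ℝ := 1 / T ^ 2 + T / N with hε
  have hTN0 : 0 ≤ T / (N : ℝ) := by positivity
  have hT20 : 0 ≤ 1 / T ^ 2 := by positivity
  have h1N : 1 / (N : ℝ) ≤ T / N := div_le_div_of_nonneg_right hTone hN0.le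
  have hε0 : 0 ≤ ε := by positivity
  have hu0 : ∀ y ∈ ball (0 : ℂ) (1 / 4), ‖(y - 4) / lam + 4‖ ≤ 1 / 2 := fun y hy =>
    west_start hN4 l3 hy
  have hu0' : ∀ y ∈ ball (0 : ℂ) (1 / 4), ‖(y - 4) / lam‖ ≤ 5 := by
    intro y hy
    have h1 := norm_sub_le ((y - 4) / lam + 4) 4
    rw [add_sub_cancel_right] at h1
    simp only [Complex.norm_ofNat] at h1
    linarith [hu0 y hy]
  have hheight : ∀ y ∈ ball (0 : ℂ) (1 / 4),
      ‖2 / (1 - lam)‖ + T / 20 ≤ ‖(Fu lam)^[m] ((y - 4) / lam) - 2 / (1 - lam)‖ := by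
    intro y hy
    have h1 := (hprod N hN2 lam hl1.le hl2 _ (hu0 y hy)).2.1
    refine west_height (B := 5 + C₁ * Real.log N) (q := ‖lam‖ ^ m) (m := m) hN4 hTone l4 hR
      (by linarith) (by linarith) (norm_nonneg _) ?_ hm1 hm2 ?_
    · have h2 := pow_le_pow_left₀ (norm_nonneg _) hlam m
      rw [← Real.exp_nat_mul, mul_neg] at h2
      exact h2
    · rw [← norm_pow, ← norm_mul]
      have h2 := norm_sub_norm_le ((y - 4) / lam - 2 / (1 - lam))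
        (lam ^ m * ((Fu lam)^[m] ((y - 4) / lam) - 2 / (1 - lam)))
      rw [norm_sub_rev] at h1
      have h3 := norm_sub_norm_le (2 / (1 - lam)) ((y - 4) / lam)
      rw [norm_sub_rev] at h3
      linarith [hu0' y hy]
  have htl := fun y hy => htail N hN3 T lam hT2 hTN hlam hl _ (hheight y hy)
  have htwo : ∀ y ∈ ball (0 : ℂ) (1 / 4), ∀ n : ℕ, 2 ≤ ‖(Fu lam)^[n] ((y - 4) / lam)‖ := by
    intro y hy n
    by_cases hn : 2 * n ≤ N
    · have := hfwd N hN1 lam hl1.le hl2 _ (hu0 y hy) n hn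
      have h2 : (0 : ℝ) ≤ (n : ℝ) / 2 := by positivity
      linarith
    · have e : n = (n - m) + m := by omega
      rw [e, Function.iterate_add_apply]
      linarith [((htl y hy).1 (n - m)).1]
  obtain ⟨W, hWd, hWt⟩ := west_limit hl0 hl1 htwo
  refine ⟨W, hWd.mono (ball_subset_ball hr), fun y hy => (hWt y (ball_subset_ball hr hy)).1, ?_⟩
  intro hW0
  set P : ℂ → ℂ := fun y => ∏ k ∈ Finset.range m, (1 - 1 / ((Fu lam)^[k] ((y - 4) / lam)) ^ 2)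
    with hP
  have hP1 : ∀ y ∈ ball (0 : ℂ) (1 / 4), ‖P y‖ ≤ C₁ := fun y hy =>
    (hprod N hN2 lam hl1.le hl2 _ (hu0 y hy)).1
  have hP2 : ∀ y ∈ ball (0 : ℂ) (1 / 4), y.im = 0 →
      1 / C₁ ≤ (P y).re ∧ |(P y).im| ≤ C₁ * Real.log N / N := by
    intro y hy him
    refine (hprod N hN2 lam hl1.le hl2 _ (hu0 y hy)).2.2 ?_
    rw [mul_div_cancel₀ _ hl0]
    simp [him]
  have hs1 : C₂ * (1 / T ^ 2 + 1 / N) ≤ C₂ * ε :=
    mul_le_mul_of_nonneg_left (by linarith) (by linarith)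
  have hs2 : 80 * C₂ * ε ≤ 1 := le_trans (mul_le_mul_of_nonneg_right k2 hε0) k1
  have hs3 : 88 * C₁ * ε ≤ 1 := le_trans (mul_le_mul_of_nonneg_right k3 hε0) k1
  have hs4 : 0 ≤ C₂ * ε := by positivity
  have hD : ∀ y ∈ ball (0 : ℂ) (1 / 4), ‖deriv W y * N / (Real.pi * I)‖ ≤ 4 * C₁ * ‖W y‖ ∧
      ‖deriv W y * N / (Real.pi * I) - P y * W y‖ ≤
        (4 * C₁ * (44 * C₁ * ε) + 2 * C₁ * (40 * (C₂ * ε))) * ‖W y‖ := by
    intro y hy
    have h1 := west_pass (s := C₂ * ε) hl0 hl1 (by linarith) (htwo y hy)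
      (fun k => ⟨((htl y hy).1 k).1, ((htl y hy).1 k).2.1⟩)
      (fun n => ((htl y hy).2 n).trans hs1) (by linarith) (hWt y hy).1 (hWt y hy).2
    set Z := lam ^ m * wX lam ((Fu lam)^[m] ((y - 4) / lam)) with hZ
    have h2 : ‖Z + 2 / (1 - lam)‖ ≤ (C₁ + 6) * T := by
      have h3 := (hprod N hN2 lam hl1.le hl2 _ (hu0 y hy)).2.1
      have h4 := hfwd N hN1 lam hl1.le hl2 _ (hu0 y hy) m hm2'
      have h5 := west_gam hN4 l2 l3 (u := (Fu lam)^[m] ((y - 4) / lam)) (by linarith)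
      have h6 : ‖lam ^ m * (2 / (1 - lam ^ 2) / (Fu lam)^[m] ((y - 4) / lam))‖ ≤ 1 := by
        rw [norm_mul, norm_pow]
        exact mul_le_one₀ (pow_le_one₀ (norm_nonneg _) hl1.le) (norm_nonneg _) h5
      have e : Z + 2 / (1 - lam) =
          (lam ^ m * ((Fu lam)^[m] ((y - 4) / lam) - 2 / (1 - lam)) -
            ((y - 4) / lam - 2 / (1 - lam))) + (y - 4) / lam +
            lam ^ m * (2 / (1 - lam ^ 2) / (Fu lam)^[m] ((y - 4) / lam)) := by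
        rw [hZ]; unfold wX; ring
      rw [e]
      refine (norm_add₃_le).trans ?_
      have h7 := hu0' y hy
      have h8 : T ≤ C₁ * T := le_mul_of_one_le_left (zero_le_one.trans hTone) hC₁
      linarith
    have h3 := west_Z hN4 hTone hTN hl1.le hl (by linarith) h2
    have h4 : (16 + 4 * (C₁ + 6)) * (T / N) ≤ 44 * C₁ * ε :=
      mul_le_mul (by linarith) (by linarith) hTN0 (by linarith)
    have e : deriv W y * (lam * Z) =
        deriv W y * N / (Real.pi * I) * (lam * Z * (Real.pi * I) / N) := by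
      have hNc : (N : ℂ) ≠ 0 := by exact_mod_cast hN0.ne'
      have hpc : (Real.pi : ℂ) ≠ 0 := by exact_mod_cast Real.pi_pos.ne'
      field_simp
    rw [e] at h1
    exact west_alg h1 (by linarith) (by linarith) (h3.trans h4) (by linarith) (hP1 y hy)
  have h00 : (0 : ℂ) ∈ ball (0 : ℂ) (1 / 4) := mem_ball_self (by norm_num)
  have hNε : 1 / (N : ℝ) ≤ ε := by linarith
  have hb1 : 13 * C₁ / (N : ℝ) ≤ 2 := by
    have e : 13 * C₁ / (N : ℝ) = 13 * C₁ * (1 / N) := by ring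
    have := mul_le_mul_of_nonneg_left hNε (by linarith : 0 ≤ 13 * C₁)
    linarith
  have hb2 : 2 * (4 * C₁ * (44 * C₁ * ε) + 2 * C₁ * (40 * (C₂ * ε))) + 7 * C₁ ^ 2 / N ≤
      K₃ * ε := by
    have e : 7 * C₁ ^ 2 / (N : ℝ) = 7 * C₁ ^ 2 * (1 / N) := by ring
    have := mul_le_mul_of_nonneg_left hNε (by positivity : 0 ≤ 7 * C₁ ^ 2)
    rw [hK]
    linarith
  have hb3 : K₃ * ε ≤ 1 / (2 * C₁) := by
    rw [le_div_iff₀ (by linarith)]; linarith
  have hfin := west_final (P := P) hN0 hC₁ hb1 hWd hW0 (by positivity) (fun y hy => (hD y hy).1)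
    (fun y hy => (hD y hy).2) hP1 (hP2 0 h00 rfl).1 (hb2.trans hb3)
  intro y hy
  obtain ⟨f1, f2, f3⟩ := hfin y hy
  have hy2 : y ∈ ball (0 : ℂ) (1 / 4) := ball_subset_ball hr hy
  refine ⟨le_trans (one_div_le_one_div_of_le (by linarith) (by linarith)) f1,
    f2.trans (by linarith), fun him => ?_⟩
  have g1 := (hP2 y hy2 him).2
  have g2 := Complex.abs_im_le_norm (deriv W y / W 0 * N / (Real.pi * I) - P y)
  rw [Complex.sub_im] at g2
  have g3 := abs_sub_abs_le_abs_sub (deriv W y / W 0 * N / (Real.pi * I)).im (P y).im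
  have g4 : C₁ * Real.log N / N ≤ T / N := div_le_div_of_nonneg_right (by linarith) hN0.le
  have g5 : (K₃ + 1) * ε ≤ (4 * C₁ * K₃ + 300 * C₁ + C₂) * ε :=
    mul_le_mul_of_nonneg_right (by linarith) hε0
  have g6 : T / N ≤ ε := by linarith
  have f4 := f3.trans hb2
  push_cast at f4 g2 g3 ⊢
  linarith

end Pool.Agent.Lib.MP_102662_an
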