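import Pool.Agent.Lib.MP_102662_an.Defs

open Complex Metric Set Filter Topology

namespace Pool.Agent.Lib.MP_102662_an

theorem west_identity {lam u : ℂ} (h1 : 1 - lam ≠ 0) (h2 : 1 + lam ≠ 0) (h0 : lam ≠ 0)
    (hu : u ≠ 0) (hu1 : u - 1 ≠ 0) :
    lam * (Fu lam u - 2 / (1 - lam) + 2 / (1 - lam ^ 2) / Fu lam u) -
        (1 - 1 / u ^ 2) * (u - 2 / (1 - lam) + 2 / (1 - lam ^ 2) / u) =
      -(2 * (2 * lam + 1) / (1 + lam)) / u ^ 2 +
        2 / (1 - lam) / (1 + lam) * (lam ^ 2 * (3 * u - 2) / (u ^ 2 * (u - 1) ^ 2) + 1 / u ^ 3) := by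
  have hF : Fu lam u = (u - 1) ^ 2 / (lam * u) := by
    unfold Fu; field_simp; ring
  have hq : 1 - lam ^ 2 = (1 - lam) * (1 + lam) := by ring
  rw [hF, hq]
  field_simp
  ring

theorem ebound_aux (lam u : ℂ) (hl1 : lam ≠ 1) (hl : ‖lam - 1‖ ≤ 1 / 10) (hu : 4 ≤ ‖u‖)
    (hU : ‖2 / (1 - lam)‖ ≤ ‖u - 2 / (1 - lam)‖) :
    u - 2 / (1 - lam) + 2 / (1 - lam ^ 2) / u ≠ 0 ∧
    ‖lam * (Fu lam u - 2 / (1 - lam) + 2 / (1 - lam ^ 2) / Fu lam u) /
        ((1 - 1 / u ^ 2) * (u - 2 / (1 - lam) + 2 / (1 - lam ^ 2) / u)) - 1‖ ≤ 20 / ‖u‖ ^ 3 := by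
  have h1 : 1 - lam ≠ 0 := sub_ne_zero.2 hl1.symm
  have hn2 : 19 / 10 ≤ ‖1 + lam‖ := by
    have e : (2 : ℂ) = (1 + lam) - (lam - 1) := by ring
    have := norm_sub_le (1 + lam) (lam - 1)
    rw [← e] at this
    simp only [Complex.norm_ofNat] at this
    linarith
  have h2 : 1 + lam ≠ 0 := by
    intro h; rw [h, norm_zero] at hn2; linarith
  have hnl : ‖lam‖ ≤ 11 / 10 := by
    have e : lam = (lam - 1) + 1 := by ring
    have := norm_add_le (lam - 1) 1
    rw [← e, norm_one] at this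
    linarith
  have h0 : lam ≠ 0 := by
    intro h; rw [h] at hl; norm_num at hl
  have hu0 : u ≠ 0 := by
    intro h; rw [h, norm_zero] at hu; linarith
  have hnu1 : 3 / 4 * ‖u‖ ≤ ‖u - 1‖ := by
    have := norm_sub_norm_le u 1
    rw [norm_one] at this
    linarith
  have hu1 : u - 1 ≠ 0 := by
    intro h; rw [h, norm_zero] at hnu1; linarith
  set c : ℂ := 2 / (1 - lam) with hc
  set x : ℝ := ‖u‖ with hx
  set R : ℝ := ‖c‖ with hR
  set V : ℝ := ‖u - c‖ with hV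
  have hR0 : 0 ≤ R := norm_nonneg _
  have hx0 : 0 < x := by linarith
  have hxV : x ≤ 2 * V := by
    have e : u = (u - c) + c := by ring
    have := norm_add_le (u - c) c
    rw [← e] at this
    linarith
  have hV0 : 0 < V := by linarith
  have hq : 1 - lam ^ 2 = (1 - lam) * (1 + lam) := by ring
  have hg : 2 / (1 - lam ^ 2) = c / (1 + lam) := by
    rw [hq, hc, div_div]
  have hgn : ‖c / (1 + lam)‖ ≤ 10 / 19 * V := by
    rw [norm_div, div_le_iff₀ (by linarith)]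
    nlinarith
  have hgu : ‖c / (1 + lam) / u‖ ≤ V / 7 := by
    rw [norm_div, div_le_iff₀ hx0]
    nlinarith
  have hX : 6 / 7 * V ≤ ‖u - c + 2 / (1 - lam ^ 2) / u‖ := by
    rw [hg]
    have e : u - c = (u - c + c / (1 + lam) / u) - c / (1 + lam) / u := by ring
    have := norm_sub_le (u - c + c / (1 + lam) / u) (c / (1 + lam) / u)
    rw [← e] at this
    linarith
  have hX0 : u - c + 2 / (1 - lam ^ 2) / u ≠ 0 := by
    intro h; rw [h, norm_zero] at hX; linarith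
  have hw : 15 / 16 ≤ ‖1 - 1 / u ^ 2‖ := by
    have := norm_sub_norm_le (1 : ℂ) (1 / u ^ 2)
    rw [norm_one, norm_div, norm_one, norm_pow] at this
    have h3 : 1 / x ^ 2 ≤ 1 / 16 := by
      apply one_div_le_one_div_of_le (by norm_num)
      nlinarith
    linarith
  have hw0 : 1 - 1 / u ^ 2 ≠ 0 := by
    intro h; rw [h, norm_zero] at hw; linarith
  refine ⟨hX0, ?_⟩
  have hD : (1 - 1 / u ^ 2) * (u - c + 2 / (1 - lam ^ 2) / u) ≠ 0 := mul_ne_zero hw0 hX0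
  rw [div_sub_one hD, norm_div, west_identity h1 h2 h0 hu0 hu1]
  have hDn : 4 / 5 * V ≤ ‖(1 - 1 / u ^ 2) * (u - c + 2 / (1 - lam ^ 2) / u)‖ := by
    rw [norm_mul]
    have := mul_le_mul hw hX (by positivity) (norm_nonneg _)
    linarith
  have hA : ‖-(2 * (2 * lam + 1) / (1 + lam)) / u ^ 2‖ ≤ 7 * V / x ^ 3 := by
    have h4 : ‖2 * lam + 1‖ ≤ 16 / 5 := by
      have := norm_add_le (2 * lam) 1
      rw [norm_mul, norm_one] at this
      simp only [Complex.norm_ofNat] at this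
      linarith
    have h5 : ‖2 * (2 * lam + 1) / (1 + lam)‖ ≤ 7 / 2 := by
      rw [norm_div, div_le_iff₀ (by linarith), norm_mul]
      simp only [Complex.norm_ofNat]
      linarith
    rw [norm_div, norm_neg, norm_pow, div_le_div_iff₀ (by positivity) (by positivity)]
    have h6 : x ^ 3 = x * x ^ 2 := by ring
    rw [h6]
    have h7 : 0 < x ^ 2 := by positivity
    have h8 : ‖2 * (2 * lam + 1) / (1 + lam)‖ * x ≤ 7 * V := by nlinarith [norm_nonneg (2 * (2 * lam + 1) / (1 + lam))]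
    nlinarith
  have hB : ‖lam ^ 2 * (3 * u - 2) / (u ^ 2 * (u - 1) ^ 2) + 1 / u ^ 3‖ ≤ 9 / x ^ 3 := by
    have h4 : ‖3 * u - 2‖ ≤ 7 / 2 * x := by
      have := norm_sub_le (3 * u) 2
      rw [norm_mul] at this
      simp only [Complex.norm_ofNat] at this
      linarith
    have h5 : ‖lam ^ 2 * (3 * u - 2) / (u ^ 2 * (u - 1) ^ 2)‖ ≤ 8 / x ^ 3 := by
      rw [norm_div, norm_mul, norm_mul, norm_pow, norm_pow, norm_pow,
        div_le_div_iff₀ (by positivity) (by positivity)]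
      have h6 : ‖lam‖ ^ 2 ≤ 121 / 100 := by nlinarith [norm_nonneg lam]
      have h7 : ‖lam‖ ^ 2 * ‖3 * u - 2‖ ≤ 121 / 100 * (7 / 2 * x) :=
        mul_le_mul h6 h4 (norm_nonneg _) (by norm_num)
      have h8 : 9 / 16 * x ^ 2 ≤ ‖u - 1‖ ^ 2 := by nlinarith
      have h9 : 0 < x ^ 2 := by positivity
      have h10 : x ^ 2 * (9 / 16 * x ^ 2) ≤ x ^ 2 * ‖u - 1‖ ^ 2 :=
        mul_le_mul_of_nonneg_left h8 h9.le
      have h11 : ‖lam‖ ^ 2 * ‖3 * u - 2‖ * x ^ 3 ≤ 121 / 100 * (7 / 2 * x) * x ^ 3 :=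
        mul_le_mul_of_nonneg_right h7 (by positivity)
      have h12 : 0 < x ^ 4 := by positivity
      nlinarith
    have h6 : ‖1 / u ^ 3‖ = 1 / x ^ 3 := by rw [norm_div, norm_one, norm_pow]
    have := norm_add_le (lam ^ 2 * (3 * u - 2) / (u ^ 2 * (u - 1) ^ 2)) (1 / u ^ 3)
    rw [h6] at this
    have e : 9 / x ^ 3 = 8 / x ^ 3 + 1 / x ^ 3 := by ring
    linarith
  have hC : ‖c / (1 + lam) * (lam ^ 2 * (3 * u - 2) / (u ^ 2 * (u - 1) ^ 2) + 1 / u ^ 3)‖ ≤
      10 / 19 * V * (9 / x ^ 3) := by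
    rw [norm_mul]
    exact mul_le_mul hgn hB (norm_nonneg _) (by positivity)
  have hS := norm_add_le (-(2 * (2 * lam + 1) / (1 + lam)) / u ^ 2)
    (c / (1 + lam) * (lam ^ 2 * (3 * u - 2) / (u ^ 2 * (u - 1) ^ 2) + 1 / u ^ 3))
  rw [div_le_iff₀ (by linarith)]
  have hy : 0 < V / x ^ 3 := by positivity
  have e1 : 7 * V / x ^ 3 = 7 * (V / x ^ 3) := by ring
  have e2 : 10 / 19 * V * (9 / x ^ 3) = 90 / 19 * (V / x ^ 3) := by ring
  have e3 : 20 / x ^ 3 * (4 / 5 * V) = 16 * (V / x ^ 3) := by ring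
  have h20 : 20 / x ^ 3 * (4 / 5 * V) ≤
      20 / x ^ 3 * ‖(1 - 1 / u ^ 2) * (u - c + 2 / (1 - lam ^ 2) / u)‖ :=
    mul_le_mul_of_nonneg_left hDn (by positivity)
  linarith

/-- The orbit of the point `(y - 4) / lam` as a function of `y`. -/
theorem west_hasDerivAt {lam : ℂ} (h0 : lam ≠ 0) (y : ℂ)
    (hn : ∀ n : ℕ, (Fu lam)^[n] ((y - 4) / lam) ≠ 0) (n : ℕ) :
    HasDerivAt (fun z => lam ^ n * (Fu lam)^[n] ((z - 4) / lam))
      ((∏ k ∈ Finset.range n, (1 - 1 / ((Fu lam)^[k] ((y - 4) / lam)) ^ 2)) / lam) y := by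
  induction n with
  | zero =>
    simp only [pow_zero, one_mul, Function.iterate_zero, id_eq, Finset.range_zero,
      Finset.prod_empty]
    exact ((hasDerivAt_id y).sub_const 4).div_const lam
  | succ n ih =>
    have hp : lam ^ n ≠ 0 := pow_ne_zero _ h0
    have e : (fun z => lam ^ (n + 1) * (Fu lam)^[n + 1] ((z - 4) / lam)) =
        fun z => lam ^ n * (Fu lam)^[n] ((z - 4) / lam) - 2 * lam ^ n +
          (lam ^ n) ^ 2 * (lam ^ n * (Fu lam)^[n] ((z - 4) / lam))⁻¹ := by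
      funext z
      rw [Function.iterate_succ_apply']
      generalize (Fu lam)^[n] ((z - 4) / lam) = w
      unfold Fu
      rw [mul_inv, one_div]
      generalize w⁻¹ = w'
      field_simp
      ring
    rw [e]
    have hne : lam ^ n * (Fu lam)^[n] ((y - 4) / lam) ≠ 0 := mul_ne_zero hp (hn n)
    have h3 := (ih.sub_const (2 * lam ^ n)).add ((ih.inv hne).const_mul ((lam ^ n) ^ 2))
    refine h3.congr_deriv ?_
    rw [Finset.prod_range_succ]
    have := hn n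
    field_simp
    ring

/-- The limit function `W`. -/
theorem west_limit {lam : ℂ} (h0 : lam ≠ 0) (h1 : ‖lam‖ < 1)
    (hn : ∀ y ∈ ball (0 : ℂ) (1 / 4), ∀ n : ℕ, 2 ≤ ‖(Fu lam)^[n] ((y - 4) / lam)‖) :
    ∃ W : ℂ → ℂ, DifferentiableOn ℂ W (ball 0 (1 / 4)) ∧ ∀ y ∈ ball (0 : ℂ) (1 / 4),
      Tendsto (fun n : ℕ => lam ^ n * (Fu lam)^[n] ((y - 4) / lam)) atTop (𝓝 (W y)) ∧
      Tendsto (fun n : ℕ => (∏ k ∈ Finset.range n,
        (1 - 1 / ((Fu lam)^[k] ((y - 4) / lam)) ^ 2)) / lam) atTop (𝓝 (deriv W y)) := by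
  set Wn : ℕ → ℂ → ℂ := fun n z => lam ^ n * (Fu lam)^[n] ((z - 4) / lam) with hWn
  have hne : ∀ y ∈ ball (0 : ℂ) (1 / 4), ∀ n : ℕ, (Fu lam)^[n] ((y - 4) / lam) ≠ 0 := by
    intro y hy n h
    have := hn y hy n
    rw [h, norm_zero] at this
    linarith
  have hd : ∀ n, DifferentiableOn ℂ (Wn n) (ball 0 (1 / 4)) := fun n y hy =>
    (west_hasDerivAt h0 y (hne y hy) n).differentiableAt.differentiableWithinAt
  have hstep : ∀ n : ℕ, ∀ y ∈ ball (0 : ℂ) (1 / 4), ‖Wn (n + 1) y - Wn n y‖ ≤ 3 * ‖lam‖ ^ n := by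
    intro n y hy
    have h2 := hn y hy n
    have e : Wn (n + 1) y - Wn n y = lam ^ n * (1 / (Fu lam)^[n] ((y - 4) / lam) - 2) := by
      simp only [hWn]
      rw [Function.iterate_succ_apply']
      generalize (Fu lam)^[n] ((y - 4) / lam) = w
      unfold Fu
      generalize 1 / w = w'
      field_simp
      ring
    rw [e, norm_mul, norm_pow, mul_comm]
    apply mul_le_mul_of_nonneg_right _ (by positivity)
    have h3 := norm_sub_le (1 / (Fu lam)^[n] ((y - 4) / lam)) 2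
    rw [norm_div, norm_one] at h3
    simp only [Complex.norm_ofNat] at h3
    have h4 : 1 / ‖(Fu lam)^[n] ((y - 4) / lam)‖ ≤ 1 / 2 :=
      one_div_le_one_div_of_le (by norm_num) h2
    linarith
  have hsum : Summable fun n : ℕ => 3 * ‖lam‖ ^ n :=
    (summable_geometric_of_lt_one (norm_nonneg _) h1).mul_left 3
  have hU := tendstoUniformlyOn_tsum_nat (f := fun n y => Wn (n + 1) y - Wn n y) hsum
    (s := ball (0 : ℂ) (1 / 4)) (fun n y hy => hstep n y hy)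
  set W : ℂ → ℂ := fun y => Wn 0 y + ∑' n, (Wn (n + 1) y - Wn n y) with hW
  have hU2 : TendstoUniformlyOn Wn W atTop (ball 0 (1 / 4)) := by
    rw [Metric.tendstoUniformlyOn_iff] at hU ⊢
    intro ε hε
    filter_upwards [hU ε hε] with n hn' y hy
    have := hn' y hy
    rw [Finset.sum_range_sub (fun n => Wn n y), dist_eq_norm] at this
    rw [dist_eq_norm]
    have e : W y - Wn n y = ∑' n, (Wn (n + 1) y - Wn n y) - (Wn n y - Wn 0 y) := by
      simp only [hW]; ring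
    rw [e]; exact this
  have hL := hU2.tendstoLocallyUniformlyOn
  refine ⟨W, hL.differentiableOn (Eventually.of_forall hd) isOpen_ball, fun y hy =>
    ⟨hU2.tendsto_at hy, ?_⟩⟩
  have h5 := (hL.deriv (Eventually.of_forall hd) isOpen_ball).tendsto_at hy
  refine h5.congr fun n => ?_
  exact (west_hasDerivAt h0 y (hne y hy) n).deriv

/-- Bounds on the multiplier. -/
theorem west_lam {N T : ℝ} {lam : ℂ} (hN : 10000 ≤ N) (hT : 1 ≤ T) (hTN : T ^ 2 ≤ N)
    (hl : ‖lam - ee (1 / N)‖ ≤ T / N ^ 2) :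
    ‖lam - 1 - 2 * Real.pi * I / N‖ ≤ 41 * T / N ^ 2 ∧ 5 / N ≤ ‖lam - 1‖ ∧ ‖lam - 1‖ ≤ 8 / N ∧
      T / N ≤ 1 / 100 := by
  have hN0 : 0 < N := by linarith
  have hpi1 : 3 < Real.pi := Real.pi_gt_three
  have hpi2 : Real.pi < 3.15 := Real.pi_lt_d2
  have ha : ‖(2 * Real.pi * I / N : ℂ)‖ = 2 * Real.pi / N := by
    rw [norm_div, norm_mul, norm_mul, Complex.norm_I, Complex.norm_real, Complex.norm_real,
      Real.norm_of_nonneg Real.pi_pos.le, Real.norm_of_nonneg hN0.le]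
    simp
  have he : ee (1 / N) = exp (2 * Real.pi * I / N) := by
    unfold ee; congr 1; push_cast; ring
  have ha1 : 2 * Real.pi / N ≤ 1 := by
    rw [div_le_one hN0]; linarith
  have h1 := Complex.norm_exp_sub_one_sub_id_le (x := 2 * Real.pi * I / N) (by rw [ha]; exact ha1)
  rw [ha, ← he] at h1
  have h2 : (2 * Real.pi / N) ^ 2 ≤ 40 * T / N ^ 2 := by
    rw [div_pow]
    apply div_le_div_of_nonneg_right _ (by positivity)
    nlinarith
  have h3 : ‖lam - 1 - 2 * Real.pi * I / N‖ ≤ 41 * T / N ^ 2 := by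
    have e : lam - 1 - 2 * Real.pi * I / N =
        (lam - ee (1 / N)) + (ee (1 / N) - 1 - 2 * Real.pi * I / N) := by ring
    rw [e]
    have := norm_add_le (lam - ee (1 / N)) (ee (1 / N) - 1 - 2 * Real.pi * I / N)
    have e2 : 41 * T / N ^ 2 = T / N ^ 2 + 40 * T / N ^ 2 := by ring
    linarith
  have h4 : T / N ≤ 1 / 100 := by
    rw [div_le_iff₀ hN0]
    nlinarith
  have h5 : 41 * T / N ^ 2 ≤ 1 / N := by
    have e : 41 * T / N ^ 2 = 41 * (T / N) * (1 / N) := by field_simp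
    rw [e]
    have : 0 < 1 / N := by positivity
    nlinarith
  have h6 : 6 / N ≤ 2 * Real.pi / N := div_le_div_of_nonneg_right (by linarith) hN0.le
  have h7 : 2 * Real.pi / N ≤ 7 / N := div_le_div_of_nonneg_right (by linarith) hN0.le
  refine ⟨h3, ?_, ?_, h4⟩
  · have e : (2 * Real.pi * I / N : ℂ) = (lam - 1) - (lam - 1 - 2 * Real.pi * I / N) := by ring
    have := norm_sub_le (lam - 1) (lam - 1 - 2 * Real.pi * I / N)
    rw [← e, ha] at this
    have e2 : 5 / N = 6 / N - 1 / N := by ring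
    linarith
  · have e : lam - 1 = (lam - 1 - 2 * Real.pi * I / N) + 2 * Real.pi * I / N := by ring
    have := norm_add_le (lam - 1 - 2 * Real.pi * I / N) (2 * Real.pi * I / N)
    rw [← e, ha] at this
    have e2 : 8 / N = 7 / N + 1 / N := by ring
    linarith

/-- The normalizing factor is close to one. -/
theorem west_Z {N T A : ℝ} {lam Z : ℂ} (hN : 10000 ≤ N) (hT : 1 ≤ T) (hTN : T ^ 2 ≤ N)
    (hl1 : ‖lam‖ ≤ 1) (hl : ‖lam - ee (1 / N)‖ ≤ T / N ^ 2) (hA : 0 ≤ A)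
    (hZ : ‖Z + 2 / (1 - lam)‖ ≤ A * T) :
    ‖lam * Z * (Real.pi * I) / N - 1‖ ≤ (16 + 4 * A) * (T / N) := by
  obtain ⟨h1, h2, h3, h4⟩ := west_lam hN hT hTN hl
  have hN0 : 0 < N := by linarith
  have hNc : (N : ℂ) ≠ 0 := by exact_mod_cast hN0.ne'
  have hpi2 : Real.pi < 3.15 := Real.pi_lt_d2
  have h5 : 0 < 5 / N := by positivity
  have hne : lam - 1 ≠ 0 := by
    intro h; rw [h, norm_zero] at h2; linarith
  have hne' : 1 - lam ≠ 0 := by
    intro h; apply hne; linear_combination -h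
  have e : lam * Z * (Real.pi * I) / N - 1 =
      lam * (Z + 2 / (1 - lam)) * (Real.pi * I) / N + 2 * Real.pi * I / N -
        (lam - 1 - 2 * Real.pi * I / N) / (lam - 1) := by
    field_simp
    ring
  rw [e]
  have hx : 0 < T / N := by positivity
  have b1 : ‖lam * (Z + 2 / (1 - lam)) * (Real.pi * I) / N‖ ≤ 4 * A * (T / N) := by
    rw [norm_div, norm_mul, norm_mul, norm_mul, Complex.norm_I, Complex.norm_real,
      Complex.norm_real, Real.norm_of_nonneg Real.pi_pos.le, Real.norm_of_nonneg hN0.le,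
      div_le_iff₀ hN0]
    have e2 : 4 * A * (T / N) * N = 1 * (A * T) * (4 * 1) := by field_simp
    rw [e2]
    have := Real.pi_pos
    gcongr
    linarith
  have b2 : ‖(2 * Real.pi * I / N : ℂ)‖ ≤ 7 * (T / N) := by
    rw [norm_div, norm_mul, norm_mul, Complex.norm_I, Complex.norm_real, Complex.norm_real,
      Real.norm_of_nonneg Real.pi_pos.le, Real.norm_of_nonneg hN0.le, div_le_iff₀ hN0]
    have e2 : 7 * (T / N) * N = 7 * T := by field_simp
    rw [e2]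
    simp only [Complex.norm_ofNat]
    linarith
  have b3 : ‖(lam - 1 - 2 * Real.pi * I / N) / (lam - 1)‖ ≤ 9 * (T / N) := by
    rw [norm_div, div_le_iff₀ (by linarith)]
    have e2 : 41 * T / N ^ 2 = 41 / 5 * (T / N) * (5 / N) := by field_simp
    have : 41 / 5 * (T / N) * (5 / N) ≤ 9 * (T / N) * ‖lam - 1‖ := by
      apply mul_le_mul _ h2 h5.le (by positivity)
      linarith
    linarith
  have t1 := norm_sub_le (lam * (Z + 2 / (1 - lam)) * (Real.pi * I) / N + 2 * Real.pi * I / N)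
    ((lam - 1 - 2 * Real.pi * I / N) / (lam - 1))
  have t2 := norm_add_le (lam * (Z + 2 / (1 - lam)) * (Real.pi * I) / N) (2 * Real.pi * I / N)
  linarith

/-- A holomorphic function with small logarithmic derivative is almost constant. -/
theorem west_gronwall {W : ℂ → ℂ} {a : ℝ} (ha0 : 0 ≤ a) (ha : a ≤ 2)
    (hW : DifferentiableOn ℂ W (ball 0 (1 / 4)))
    (hd : ∀ y ∈ ball (0 : ℂ) (1 / 4), ‖deriv W y‖ ≤ a * ‖W y‖) :
    ∀ y ∈ ball (0 : ℂ) (1 / 4), ‖W y‖ ≤ 2 * ‖W 0‖ ∧ ‖W y - W 0‖ ≤ a / 2 * ‖W 0‖ := by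
  intro y hy
  have hy' : ‖y‖ < 1 / 4 := by simpa using hy
  have hsub : closedBall (0 : ℂ) ‖y‖ ⊆ ball 0 (1 / 4) := closedBall_subset_ball hy'
  have hc : ContinuousOn (fun z => ‖W z‖) (closedBall (0 : ℂ) ‖y‖) :=
    (hW.continuousOn.mono hsub).norm
  have h0 : (0 : ℂ) ∈ closedBall (0 : ℂ) ‖y‖ := mem_closedBall_self (norm_nonneg _)
  obtain ⟨z, hz, hmax⟩ := (isCompact_closedBall (0 : ℂ) ‖y‖).exists_isMaxOn ⟨0, h0⟩ hc
  have key : ∀ w ∈ closedBall (0 : ℂ) ‖y‖, ‖W w - W 0‖ ≤ a / 4 * ‖W z‖ := by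
    intro w hw
    have h1 := (convex_closedBall (0 : ℂ) ‖y‖).norm_image_sub_le_of_norm_deriv_le
      (f := W) (C := a * ‖W z‖)
      (fun x hx => hW.differentiableAt (isOpen_ball.mem_nhds (hsub hx)))
      (fun x hx => (hd x (hsub hx)).trans (mul_le_mul_of_nonneg_left (hmax hx) ha0)) h0 hw
    have h2 : ‖w - 0‖ ≤ 1 / 4 := by
      have : ‖w‖ ≤ ‖y‖ := by simpa using hw
      rw [sub_zero]; linarith
    have h3 : a * ‖W z‖ * ‖w - 0‖ ≤ a * ‖W z‖ * (1 / 4) :=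
      mul_le_mul_of_nonneg_left h2 (by positivity)
    linarith
  have hz2 : ‖W z‖ ≤ 2 * ‖W 0‖ := by
    have h1 := key z hz
    have h2 := norm_sub_norm_le (W z) (W 0)
    nlinarith [norm_nonneg (W z)]
  have hyy : y ∈ closedBall (0 : ℂ) ‖y‖ := by simp
  refine ⟨le_trans (hmax hyy) hz2, (key y hyy).trans ?_⟩
  nlinarith

end Pool.Agent.Lib.MP_102662_an
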